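import Pool.Agent.WPP.Types

/-!
Algebras of endomorphisms which are stable under the Rosati involution, the derived algebra of their
Lefschetz Lie algebra, Hodge types.
-/

open scoped ComplexConjugate

namespace Pool.Agent.GPC

/-- `Z` is a commutative `ℚ`-algebra of endomorphisms of `X` (tensor `ℚ`), stable under the Rosati
involution. -/
structure AbVar.IsRosatiAlg (X : AbVar) (Z : Subalgebra ℚ (Module.End ℂ X.H1)) : Prop where
  endo : ∀ f ∈ Z, X.IsEnd f
  comm : ∀ f ∈ Z, ∀ g ∈ Z, f * g = g * f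
  adj : ∀ f ∈ Z, ∃ g ∈ Z, X.IsAdjoint f g

/-- `f` is an infinitesimal automorphism of `H_1(X, ℂ)` which preserves the polarisation, commutes
with the endomorphisms of `X` (tensor `ℚ`) which commute with `Z`, and satisfies `trace (f z) = 0` for
`z` in `Z`. -/
structure AbVar.IsDerFor (X : AbVar) (Z : Subalgebra ℚ (Module.End ℂ X.H1))
    (f : X.H1 →ₗ[ℂ] X.H1) : Prop where
  comm : ∀ h : X.H1 → X.H1, X.IsEnd h → (∀ z ∈ Z, ∀ v, h (z v) = z (h v)) → ∀ v, f (h v) = h (f v)
  skew : ∀ u v, X.pol (f u) v + X.pol u (f v) = 0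
  trace : ∀ z ∈ Z, LinearMap.trace ℂ X.H1 (f * z) = 0

/-- The class `α` is killed by all `f` as in `IsDerFor`. -/
def AbVar.IsInvFor (X : AbVar) (Z : Subalgebra ℚ (Module.End ℂ X.H1)) {m : ℕ}
    (α : X.Class m) : Prop :=
  ∀ f, X.IsDerFor Z f → ∀ v : Fin m → X.H1, ∑ r, α (Function.update v r (f (v r))) = 0

/-- Every field which is a quotient of the algebra `Z` is totally real or an abelian extension
of `ℚ`. -/
def AbVar.HasAbelianFactors (X : AbVar) (Z : Subalgebra ℚ (Module.End ℂ X.H1)) : Prop :=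
  ∀ (K : Type) [Field K] [NumberField K] (φ : Z →ₐ[ℚ] K), Function.Surjective φ →
    NumberField.IsTotallyReal K ∨ IsAbelianGalois ℚ K

/-- `v` is in `H_1(X, ℝ)`. -/
def AbVar.IsReal (X : AbVar) (v : X.H1) : Prop := v ∈ Submodule.span ℝ {b | X.IsBetti b}

/-- `v'` is the complex conjugate of `v`, for the real structure `H_1(X, ℝ)`. -/
def AbVar.IsConj (X : AbVar) (v v' : X.H1) : Prop :=
  ∃ a b, X.IsReal a ∧ X.IsReal b ∧ v = a + Complex.I • b ∧ v' = a - Complex.I • b

/-- The Hodge types of the class `α` are among `(k, k)`, `(k + j, k - j)`, `(k - j, k + j)`: `α`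
vanishes if `q` of its arguments are in `F^0` and the others in the complex conjugate of `F^0`,
unless `q` is `k`, `k + j` or `k - j`. -/
def AbVar.HasTypes (X : AbVar) (k j : ℕ) (α : X.Class (2 * k)) : Prop :=
  ∀ (v : Fin (2 * k) → X.H1) (s : Finset (Fin (2 * k))), (∀ r ∈ s, X.IsFil (v r)) →
    (∀ r, r ∉ s → ∃ v', X.IsConj (v r) v' ∧ X.IsFil v') →
    s.card ≠ k → s.card ≠ k + j → s.card + j ≠ k → α v = 0

end Pool.Agent.GPC
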