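import Pool.Agent.WPP.TypesZ

/-!
Rosati stable algebras of endomorphisms whose characters have three weights.
-/

open scoped ComplexConjugate

namespace Pool.Agent.GPC

/-- The dimension of the `σ`-eigenspace of the algebra `Z` in `F^0 H_1(X)`. -/
noncomputable def AbVar.dimFil (X : AbVar) (Z : Subalgebra ℚ (Module.End ℂ X.H1))
    (σ : Z →+* ℂ) : ℕ :=
  Module.finrank ℂ (Submodule.span ℂ
    {v : X.H1 | (∀ z : Z, (z : Module.End ℂ X.H1) v = σ z • v) ∧ X.IsFil v})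

/-- The weight at the automorphism `g` of `ℂ` of the rational function `f` on the homomorphisms of
`Z` into `ℂ`: the sum of the `f (g σ) dim V_σ`, where `V_σ` is the `σ`-eigenspace in `F^0 H_1(X)`. -/
noncomputable def AbVar.weightAt (X : AbVar) (Z : Subalgebra ℚ (Module.End ℂ X.H1))
    (f : (Z →+* ℂ) → ℚ) (g : ℂ ≃+* ℂ) : ℚ :=
  ∑ᶠ σ : Z →+* ℂ, f ((g : ℂ →+* ℂ).comp σ) * X.dimFil Z σ

/-- Let `V` be a vector space over `ℚ` of odd functions on the homomorphisms of `Z` into `ℂ`, i.e.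
`f (conj σ) = - f σ`, stable under the automorphisms of `ℂ`, and suppose that the weight at `1` of
some member of `V` is not zero. Then this is true for some member of `V` all of whose weights are
`0`, `N` or `- N`, for one `N`. -/
def AbVar.HasThreeWeights (X : AbVar) (Z : Subalgebra ℚ (Module.End ℂ X.H1)) : Prop :=
  ∀ V : Submodule ℚ ((Z →+* ℂ) → ℚ),
    (∀ f ∈ V, ∀ σ, f ((starRingEnd ℂ).comp σ) = - f σ) →
    (∀ f ∈ V, ∀ g : ℂ ≃+* ℂ, (fun σ => f ((g : ℂ →+* ℂ).comp σ)) ∈ V) →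
    (∃ f ∈ V, X.weightAt Z f 1 ≠ 0) →
    ∃ f ∈ V, X.weightAt Z f 1 ≠ 0 ∧ ∃ N : ℚ, ∀ g : ℂ ≃+* ℂ,
      X.weightAt Z f g = 0 ∨ X.weightAt Z f g = N ∨ X.weightAt Z f g = - N

end Pool.Agent.GPC
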