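import Pool.Agent.WPP.FamT
import Pool.Agent.WPP.TypesT
import Pool.Agent.Helper39.AF.Decomp
import Pool.Agent.Helper8.T1.Transfer

/-!
# WPP: Grothendieck classes for Rosati stable algebras whose characters have three weights
-/

set_option autoImplicit false

namespace WPP

open Module Pool.Agent.GPC
open Pool.Agent.Helper7 (pData proj lift hod)

section

variable {X : AbVar} {Z : Subalgebra ℚ (Module.End ℂ X.H1)} {I : Type} [Fintype I] {A : I → AbVar}
  {K : I → Type} [∀ i, Field (K i)] [∀ i, NumberField (K i)] {c : ∀ i, K i →+* K i}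
  {ρ : ∀ i, K i →+* Module.End ℂ (A i).H1} {φ : ∀ i, Z →ₐ[ℚ] K i}
  {ι : ∀ i, (A i).H1 →ₗ[ℂ] X.H1} {π : ∀ i, X.H1 →ₗ[ℂ] (A i).H1}

/-- the isogeny -/
private noncomputable def Thr_iso (h : ZDec X Z A K c ρ φ ι π) : X.H1 ≃ₗ[ℂ] H1 A (fun _ => 1) :=
  LinearEquiv.ofLinearMap (LinearMap.pi fun i => LinearMap.pi fun _ => π i)
    (∑ i, ι i ∘ₗ (LinearMap.proj (0 : Fin 1) ∘ₗ LinearMap.proj i))
    (by
      refine LinearMap.ext fun y => ?_
      funext i m
      have hm : m = 0 := Subsingleton.elim m 0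
      subst hm
      simp only [LinearMap.comp_apply, LinearMap.sum_apply, LinearMap.pi_apply, LinearMap.proj_apply,
        LinearMap.id_apply, map_sum]
      rw [Finset.sum_eq_single i, h.πι]
      · intro j _ hj
        exact h.orth i j (Ne.symm hj) _
      · intro hi; exact absurd (Finset.mem_univ _) hi)
    (by
      refine LinearMap.ext fun v => ?_
      simp only [LinearMap.comp_apply, LinearMap.sum_apply, LinearMap.pi_apply, LinearMap.proj_apply,
        LinearMap.id_apply]
      exact h.sum v)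

private lemma Thr_iso_apply (h : ZDec X Z A K c ρ φ ι π) (v : X.H1) (i : I) (m : Fin 1) :
    Thr_iso h v i m = π i v := rfl

private lemma Thr_iso_symm (h : ZDec X Z A K c ρ φ ι π) (y : H1 A (fun _ => 1)) :
    (Thr_iso h).symm y = ∑ i, ι i (y i 0) := by
  change (∑ i, ι i ∘ₗ (LinearMap.proj (0 : Fin 1) ∘ₗ LinearMap.proj i)) y = _
  simp only [LinearMap.comp_apply, LinearMap.sum_apply, LinearMap.proj_apply]

private lemma Thr_sumFil {J : Type} (s : Finset J) (f : J → X.H1) (hf : ∀ i ∈ s, X.IsFil (f i)) :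
    X.IsFil (∑ i ∈ s, f i) := by
  intro a
  rw [Finset.sum_apply]
  exact Finset.sum_eq_zero fun i hi => hf i hi a

private lemma Thr_isog (h : ZDec X Z A K c ρ φ ι π) : IsIsogeny X A (fun _ => 1) (Thr_iso h) := by
  refine ⟨fun v => ⟨fun hv i m => (h.morπ i).betti v hv, fun hv => ?_⟩,
    fun v => ⟨fun hv i m => (h.morπ i).deRham v hv, fun hv => ?_⟩,
    fun v => ⟨fun hv i m => (h.morπ i).hodge v hv, fun hv => ?_⟩⟩
  · rw [← h.sum v, Pool.Agent.Helper7.isBetti_iff]
    refine Submodule.sum_mem _ fun i _ => ?_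
    rw [← Pool.Agent.Helper7.isBetti_iff]
    exact (h.morι i).betti _ (hv i 0)
  · rw [← h.sum v]
    intro j
    rw [Finset.sum_apply]
    exact Pool.Agent.Helper7.isAlg_sum _ _ fun i _ => (h.morι i).deRham _ (hv i 0) j
  · rw [← h.sum v]
    exact Thr_sumFil _ _ fun i _ => (h.morι i).hodge _ (hv i 0)

private lemma Thr_inv (h : ZDec X Z A K c ρ φ ι π) (f : ∀ i, Module.End ℂ (A i).H1)
    (y : H1 A (fun _ => 1)) :
    (Thr_iso h).symm (lift (fun _ => 1) f y) =
      (∑ i, ι i ∘ₗ f i ∘ₗ π i) ((Thr_iso h).symm y) := by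
  rw [Thr_iso_symm, LinearMap.sum_apply]
  refine Finset.sum_congr rfl fun i _ => ?_
  have h1 : π i ((Thr_iso h).symm y) = y i 0 := by
    rw [← Thr_iso_apply h _ i 0, LinearEquiv.apply_symm_apply]
  change ι i (f i (y i 0)) = ι i (f i (π i ((Thr_iso h).symm y)))
  rw [h1]

/-! ### the homomorphisms of `Z` into `ℂ` -/

/-- the homomorphism of `Z` given by a label -/
private noncomputable def hm (φ : ∀ i, Z →ₐ[ℚ] K i) (t : Lb K) : Z →+* ℂ := t.2.comp (φ t.1 : Z →+* K t.1)

private lemma Thr_nt (h : ZDec X Z A K c ρ φ ι π) (i : I) : ∃ y : (A i).H1, y ≠ 0 := by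
  have h1 : (A i).g ≠ 0 := h.pos i
  have : Nonempty (Fin (A i).g) := ⟨⟨0, Nat.pos_of_ne_zero h1⟩⟩
  have : Nontrivial (A i).H1 := by
    unfold AbVar.H1
    infer_instance
  exact exists_ne 0

private lemma Thr_inj (h : ZDec X Z A K c ρ φ ι π) (i : I) (x : K i) (hx : ∀ y, ρ i x y = 0) :
    x = 0 := by
  by_contra hne
  obtain ⟨y, hy⟩ := Thr_nt h i
  apply hy
  have h1 : ρ i (x⁻¹ * x) y = 0 := by
    rw [map_mul, Module.End.mul_apply, hx y, map_zero]
  rw [inv_mul_cancel₀ hne, map_one, Module.End.one_apply] at h1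
  exact h1

/-- the idempotents -/
private lemma Thr_idem (h : ZDec X Z A K c ρ φ ι π) (i : I) : ∃ z : Z,
    (∀ v, (z : Module.End ℂ X.H1) v = ι i (π i v)) ∧ φ i z = 1 ∧ ∀ j, j ≠ i → φ j z = 0 := by
  obtain ⟨z, hz⟩ := h.idem i
  refine ⟨z, hz, ?_, fun j hj => ?_⟩
  · have h1 : φ i z - 1 = 0 := by
      refine Thr_inj h i _ fun y => ?_
      have h2 := h.act i z (ι i y)
      rw [hz, h.πι, h.πι] at h2
      rw [map_sub, map_one, LinearMap.sub_apply, Module.End.one_apply, ← h2, sub_self]
    exact sub_eq_zero.1 h1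
  · refine Thr_inj h j _ fun y => ?_
    have h2 := h.act j z (ι j y)
    rw [hz, h.orth j i hj, h.πι] at h2
    exact h2.symm

private lemma Thr_bij (h : ZDec X Z A K c ρ φ ι π) :
    Function.Bijective (hm φ : Lb K → (Z →+* ℂ)) := by
  classical
  constructor
  · rintro ⟨i, σ⟩ ⟨j, τ⟩ hst
    have hst' : ∀ z : Z, σ (φ i z) = τ (φ j z) := fun z =>
      congrArg (fun χ : Z →+* ℂ => χ z) hst
    obtain ⟨z, -, h1, h2⟩ := Thr_idem h i
    have hij : j = i := by
      by_contra hne
      have h3 := hst' z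
      rw [h1, h2 j hne, map_one, map_zero] at h3
      exact one_ne_zero h3
    subst hij
    have h4 : σ = τ := RingHom.ext fun x => by
      obtain ⟨z', rfl⟩ := h.surj j x
      exact hst' z'
    rw [h4]
  · intro χ
    choose e he1 he2 he3 using fun i => Thr_idem h i
    have hsum : ∑ i, e i = 1 := by
      apply Subtype.ext
      refine LinearMap.ext fun v => ?_
      have h1 : ((∑ i, e i : Z) : Module.End ℂ X.H1) = ∑ i, (e i : Module.End ℂ X.H1) := by
        push_cast
        rfl
      rw [h1, LinearMap.sum_apply]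
      simp only [he1]
      rw [h.sum v]
      rfl
    have h2 : ∑ i, χ (e i) = 1 := by rw [← map_sum, hsum, map_one]
    obtain ⟨i, hi⟩ : ∃ i, χ (e i) ≠ 0 := by
      by_contra hall
      push Not at hall
      rw [Finset.sum_eq_zero fun i _ => hall i] at h2
      exact zero_ne_one h2
    have hidem : e i * e i = e i := by
      apply Subtype.ext
      refine LinearMap.ext fun v => ?_
      show (e i : Module.End ℂ X.H1) ((e i : Module.End ℂ X.H1) v) = (e i : Module.End ℂ X.H1) v
      rw [he1, he1, h.πι]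
    have hi1 : χ (e i) = 1 := by
      have h3 : χ (e i) * χ (e i) = χ (e i) := by rw [← map_mul, hidem]
      exact mul_left_cancel₀ hi (by rw [h3, mul_one])
    -- `χ` depends only on `φ i`
    have hker' : ∀ z w : Z, φ i z = φ i w → χ z = χ w := by
      intro z w hzw
      have h4 : z * e i = w * e i := by
        apply Subtype.ext
        refine LinearMap.ext fun v => ?_
        show (z : Module.End ℂ X.H1) ((e i : Module.End ℂ X.H1) v) =
          (w : Module.End ℂ X.H1) ((e i : Module.End ℂ X.H1) v)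
        rw [he1, ← h.sum ((z : Module.End ℂ X.H1) (ι i (π i v))),
          ← h.sum ((w : Module.End ℂ X.H1) (ι i (π i v)))]
        refine Finset.sum_congr rfl fun j _ => ?_
        rw [h.act j z, h.act j w]
        by_cases hj : j = i
        · subst hj
          rw [hzw]
        · rw [h.orth j i hj, map_zero, map_zero, map_zero, map_zero]
      have h5 : ∀ y : Z, χ (y * e i) = χ y := fun y => by rw [map_mul, hi1, mul_one]
      rw [← h5 z, h4, h5 w]
    choose s hs using h.surj i
    let σ : K i →+* ℂ :=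
      { toFun := fun x => χ (s x)
        map_one' := by
          rw [← map_one χ]
          exact hker' _ _ (by rw [hs, map_one])
        map_mul' := fun x y => by
          rw [← map_mul]
          exact hker' _ _ (by rw [hs, map_mul, hs, hs])
        map_zero' := by
          rw [← map_zero χ]
          exact hker' _ _ (by rw [hs, map_zero])
        map_add' := fun x y => by
          rw [← map_add]
          exact hker' _ _ (by rw [hs, map_add, hs, hs]) }
    refine ⟨⟨i, σ⟩, RingHom.ext fun z => ?_⟩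
    show χ (s (φ i z)) = χ z
    exact hker' _ _ (by rw [hs])

private lemma Thr_fil (h : ZDec X Z A K c ρ φ ι π) (t : Lb K) :
    X.dimFil Z (hm φ t) = mF A K ρ t := by
  classical
  obtain ⟨i, σ⟩ := t
  have hιinj : Function.Injective (ι i) := fun a b hab => by
    rw [← h.πι i a, ← h.πι i b, hab]
  have hset : {v : X.H1 | (∀ z : Z, (z : Module.End ℂ X.H1) v = hm φ ⟨i, σ⟩ z • v) ∧
      X.IsFil v} = ι i '' {v | (∀ x, (fun x v => ρ i x v) x v = σ x • v) ∧ (A i).IsFil v} := by
    ext v
    constructor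
    · rintro ⟨h1, h2⟩
      obtain ⟨e, he1, he2, -⟩ := Thr_idem h i
      have h3 : v = ι i (π i v) := by
        have h4 := h1 e
        rw [he1] at h4
        have h5 : hm φ ⟨i, σ⟩ e = 1 := by
          show σ (φ i e) = 1
          rw [he2, map_one]
        rw [h5, one_smul] at h4
        exact h4.symm
      refine ⟨π i v, ⟨fun x => ?_, (h.morπ i).hodge v h2⟩, h3.symm⟩
      obtain ⟨z, rfl⟩ := h.surj i x
      show ρ i (φ i z) (π i v) = _
      rw [← h.act i z v, h1 z, map_smul]
      rfl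
    · rintro ⟨u, ⟨h1, h2⟩, rfl⟩
      refine ⟨fun z => ?_, (h.morι i).hodge u h2⟩
      rw [← h.sum ((z : Module.End ℂ X.H1) (ι i u)), Finset.sum_eq_single i]
      · rw [h.act i z, h.πι]
        have h3 := h1 (φ i z)
        change ρ i (φ i z) u = _ at h3
        rw [h3, map_smul]
        rfl
      · intro j _ hj
        rw [h.act j z, h.orth j i hj, map_zero, map_zero]
      · intro hi; exact absurd (Finset.mem_univ _) hi
  unfold AbVar.dimFil mF AbVar.eigenFil
  rw [hset, ← Submodule.map_span]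
  exact (LinearEquiv.finrank_eq (Submodule.equivMapOfInjective (ι i) hιinj _)).symm

/-- three weights for `Z` and for the labels -/
private lemma Thr_labels (h : ZDec X Z A K c ρ φ ι π) (hthr : X.HasThreeWeights Z) :
    ThrL A K c ρ := by
  classical
  intro V hodd hst hex
  let e : Lb K ≃ (Z →+* ℂ) := Equiv.ofBijective (hm φ) (Thr_bij h)
  have he : ∀ t, e t = hm φ t := fun t => rfl
  have hcj : ∀ t, e (cj K c t) = (starRingEnd ℂ).comp (e t) := by
    intro t
    refine RingHom.ext fun z => ?_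
    show t.2 (c t.1 (φ t.1 z)) = (starRingEnd ℂ) (t.2 (φ t.1 z))
    rw [(h.cen t.1).cc t.2 (φ t.1 z)]
  have htw : ∀ (g : ℂ ≃+* ℂ) t, e (tw K g t) = (g : ℂ →+* ℂ).comp (e t) := by
    intro g t
    rfl
  -- the weights
  have hwt : ∀ (f : (Z →+* ℂ) → ℚ) (g : ℂ ≃+* ℂ), X.weightAt Z f g =
      ∑ t : Lb K, f (e (tw K g t)) * mF A K ρ t := by
    intro f g
    unfold AbVar.weightAt
    rw [← finsum_comp_equiv e, finsum_eq_sum_of_fintype]
    refine Finset.sum_congr rfl fun t _ => ?_
    rw [← htw, he t, Thr_fil h t]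
  obtain ⟨f₀, hf₀, hne⟩ := hex
  have a1 : ∀ f ∈ V.comap (LinearMap.funLeft ℚ ℚ e), ∀ σ : Z →+* ℂ,
      f ((starRingEnd ℂ).comp σ) = - f σ := by
    intro f hf χ
    obtain ⟨t, rfl⟩ := e.surjective χ
    rw [← hcj]
    exact hodd _ hf t
  have a2 : ∀ f ∈ V.comap (LinearMap.funLeft ℚ ℚ e), ∀ g : ℂ ≃+* ℂ,
      (fun σ : Z →+* ℂ => f ((g : ℂ →+* ℂ).comp σ)) ∈ V.comap (LinearMap.funLeft ℚ ℚ e) := by
    intro f hf g
    have h2 := hst _ hf g
    rw [Submodule.mem_comap]
    exact h2
  have a3 : ∃ f ∈ V.comap (LinearMap.funLeft ℚ ℚ e), X.weightAt Z f 1 ≠ 0 := by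
    refine ⟨fun χ => f₀ (e.symm χ), ?_, ?_⟩
    · rw [Submodule.mem_comap]
      have h2 : (LinearMap.funLeft ℚ ℚ e) (fun χ => f₀ (e.symm χ)) = f₀ := by
        funext t
        show f₀ (e.symm (e t)) = f₀ t
        rw [Equiv.symm_apply_apply]
      rw [h2]
      exact hf₀
    · rw [hwt]
      have h3 : ∑ t : Lb K, f₀ (e.symm (e (tw K 1 t))) * mF A K ρ t =
          ∑ t : Lb K, f₀ t * mF A K ρ t := by
        refine Finset.sum_congr rfl fun t _ => ?_
        rw [Equiv.symm_apply_apply]
        rfl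
      rw [h3]
      exact hne
  obtain ⟨f, hf, h1, N, hN⟩ := hthr _ a1 a2 a3
  refine ⟨fun t => f (e t), hf, ?_, N, fun g => ?_⟩
  · rw [hwt f 1] at h1
    exact h1
  · have h2 := hN g
    rw [hwt f g] at h2
    exact h2

end

/-- Grothendieck classes which are killed by the derived algebra of the Lefschetz Lie algebra for the
commutative Rosati stable algebra `Z` are Hodge classes if the characters of `Z` have three weights. -/
theorem thm_ThrZ (hAlgZ : St_AlgZ) (hLftZ : St_LftZ) (hFamT : St_FamT) :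
    ∀ (X : AbVar) (Z : Subalgebra ℚ (Module.End ℂ X.H1)) (k : ℕ) (α : X.Class (2 * k)),
      X.IsRosatiAlg Z → X.IsGrothendieckClass k α → X.IsInvFor Z α → X.HasThreeWeights Z →
      X.IsInFil k α := by
  classical
  intro X Z k α hZ hα hinv hthr
  obtain ⟨I, _, A, K, _, _, c, ρ, φ, ι, π, h⟩ := hAlgZ X Z hZ
  refine Pool.Agent.Helper8.T1.inFil_of_hodge (Thr_isog h) α
    (hFamT I A (fun _ => 1) K c ρ k _ h.cen h.pos ?_
      (Pool.Agent.Helper39.AF.grothendieck_transfer (Thr_isog h) α hα) (Thr_labels h hthr))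
  intro f hf v
  have h1 := hinv _ (hLftZ X Z I A K c ρ φ ι π h f hf) (fun r => (Thr_iso h).symm (v r))
  rw [← h1]
  refine Finset.sum_congr rfl fun r _ => ?_
  rw [AlternatingMap.compLinearMap_apply]
  congr 1
  funext s
  change (Thr_iso h).symm (Function.update v r (lift (fun _ => 1) f (v r)) s) = _
  by_cases hs' : s = r
  · subst hs'
    rw [Function.update_self, Function.update_self, Thr_inv]
  · rw [Function.update_of_ne hs', Function.update_of_ne hs']

end WPP
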