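import Pool.Agent.WPP.AllZ
import Pool.Agent.WPP.ThrZ

/-!
# WPP: assembly, characters with three weights
-/

set_option autoImplicit false

namespace WPP

namespace All

open Pool.Agent.GPC

theorem FamT_ : St_FamT := thm_FamT PrT_ EgF_ TorI_ GalE_ ScAK_ Wei_ MTN_ FamRK_

/-- Grothendieck classes which are killed by the derived algebra of the Lefschetz Lie algebra for the
commutative Rosati stable algebra `Z` are Hodge classes if the characters of `Z` have three weights. -/
theorem ThrZ_ (X : AbVar) (Z : Subalgebra ℚ (Module.End ℂ X.H1)) (k : ℕ) (α : X.Class (2 * k))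
    (hZ : X.IsRosatiAlg Z) (hα : X.IsGrothendieckClass k α) (hinv : X.IsInvFor Z α)
    (h : X.HasThreeWeights Z) : X.IsInFil k α :=
  thm_ThrZ AlgZ_ LftZ_ FamT_ X Z k α hZ hα hinv h

end All

end WPP
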