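import Pool.Agent.WPP.StN
import Pool.Agent.PST.AnR

/-!
# WPP: the analytic representation of the field `K`
-/

set_option autoImplicit false

namespace WPP

open scoped ComplexConjugate
open Pool.Agent.GPC (AbVar hermForm bilForm)
open Module
open PST
open Pool.Agent.Helper7 (polForm_period polForm_rat)

theorem thm_AnB : St_AnB := by
  intro X K _ _ c ρ h
  choose R hR using fun x => AnR_ex (ρ x) (h.endo x)
  let R' : K →+* Matrix (Fin X.g) (Fin X.g) ℂ :=
    { toFun := R
      map_one' := AnR_uniq (hR 1) fun v => by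
        rw [map_one, Module.End.one_apply, Matrix.one_mulVec]
      map_mul' := fun x y => AnR_uniq (hR (x * y)) fun v => by
        rw [map_mul, Module.End.mul_apply, hR x, hR y, Matrix.mulVec_mulVec]
      map_zero' := AnR_uniq (hR 0) fun v => by
        rw [map_zero, LinearMap.zero_apply, map_zero, Matrix.zero_mulVec]
      map_add' := fun x y => AnR_uniq (hR (x + y)) fun v => by
        rw [map_add, LinearMap.add_apply, map_add, hR x, hR y, Matrix.add_mulVec] }
  refine ⟨AnR_W X, R', ⟨X.appellHumbert.herm, X.appellHumbert.pos,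
    fun x => AnR_alg (h.endo x) (hR x), fun x => ?_, fun x w hw => ?_, AnR_basis X,
    fun w hw w' hw' => ?_⟩, AnR_W_iff X, hR⟩
  · exact (AnR_adj (h.endo x) (h.endo (c x)) (hR x) (hR (c x))).1 (h.adj x)
  · rw [AnR_memW] at hw ⊢
    show X.IsBetti (X.period ((R x).mulVec w))
    rw [← AnR_per (h.endo x) (hR x)]
    exact (h.endo x).betti _ hw
  · obtain ⟨q, hq⟩ := polForm_rat X (X.period w) (X.period w') hw hw'
    rw [polForm_period] at hq
    refine ⟨q, ?_⟩
    have h1 := mul_left_cancel₀ Complex.two_pi_I_ne_zero hq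
    exact_mod_cast h1

end WPP
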