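import Pool.Agent.GAM.Asm
import Pool.Agent.PST.GalC
import Pool.Agent.Helper84.AutC

/-!
# WPP [BalF]: relations between the exponents of CM types of arbitrary CM fields

`St_BalF`: a Galois closed relation between the exponents of CM types of arbitrary CM fields, the
weights of which (the numbers `∑ z`) are `0`, `N` or `-N`, is balanced.  The case of abelian fields,
without the condition on the weights, is `GAM.St_Bal`.
-/

set_option autoImplicit false
set_option linter.unusedSectionVars false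
set_option linter.unusedVariables false

namespace WPP

open scoped ComplexConjugate
open GAM (CMF CMT IsExp IsPsiK OddF hfun St_Iso St_ExpL St_PsiK)

section Sp1

variable {K : Type} [Field K] [NumberField K] {c : K →+* K}

private theorem Sp1_cc (hc : CMF K c) (σ : K →+* ℂ) : (σ.comp c).comp c = σ := by
  refine RingHom.ext fun x => ?_
  show σ (c (c x)) = σ x
  rw [← hc.cc, ← hc.cc, Complex.conj_conj]

private theorem Sp1_ne (hc : CMF K c) (σ : K →+* ℂ) : σ.comp c ≠ σ := by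
  intro h
  apply hc.ne
  refine RingHom.ext fun x => σ.injective ?_
  exact RingHom.congr_fun h x

private theorem Sp1_comm (hc : CMF K c) (σ : K →+* ℂ) (g : K →+* K) :
    (σ.comp c).comp g = (σ.comp g).comp c := by
  refine RingHom.ext fun x => ?_
  show σ (c (g x)) = (σ.comp g) (c x)
  rw [← hc.cc, ← hc.cc]
  rfl

/-- changing a CM type at some places -/
private theorem Sp1_cmt {S : Type} (hc : CMF K c) {φ φ' : S → K →+* ℂ} (h : CMT K c φ)
    (hφ : ∀ s, φ' s = φ s ∨ φ' s = (φ s).comp c) : CMT K c φ' := by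
  have hval : ∀ x : S ⊕ S, ∃ y : S ⊕ S, Sum.elim φ' (fun s => (φ' s).comp c) x =
      Sum.elim φ (fun s => (φ s).comp c) y ∧ Sum.elim id id y = Sum.elim id id x := by
    rintro (s | s)
    · rcases hφ s with h1 | h1
      · exact ⟨Sum.inl s, h1, rfl⟩
      · exact ⟨Sum.inr s, h1, rfl⟩
    · rcases hφ s with h1 | h1
      · refine ⟨Sum.inr s, ?_, rfl⟩
        show (φ' s).comp c = (φ s).comp c
        rw [h1]
      · refine ⟨Sum.inl s, ?_, rfl⟩
        show (φ' s).comp c = φ s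
        rw [h1, Sp1_cc hc]
  constructor
  · intro x y hxy
    obtain ⟨x', hx1, hx2⟩ := hval x
    obtain ⟨y', hy1, hy2⟩ := hval y
    have h1 : x' = y' := h.1 (by rw [← hx1, ← hy1]; exact hxy)
    rw [h1, hy2] at hx2
    rcases x with s | s <;> rcases y with s' | s'
    · exact congrArg Sum.inl hx2.symm
    · have h2 : s' = s := hx2
      subst h2
      exact absurd hxy.symm (Sp1_ne hc (φ' s'))
    · have h2 : s' = s := hx2
      subst h2
      exact absurd hxy (Sp1_ne hc (φ' s'))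
    · exact congrArg Sum.inr hx2.symm
  · intro σ
    obtain ⟨s | s, hs⟩ := h.2 σ
    · have hs' : φ s = σ := hs
      rcases hφ s with h1 | h1
      · exact ⟨Sum.inl s, h1.trans hs'⟩
      · refine ⟨Sum.inr s, ?_⟩
        show (φ' s).comp c = σ
        rw [h1, Sp1_cc hc, hs']
    · have hs' : (φ s).comp c = σ := hs
      rcases hφ s with h1 | h1
      · refine ⟨Sum.inr s, ?_⟩
        show (φ' s).comp c = σ
        rw [h1, hs']
      · exact ⟨Sum.inl s, h1.trans hs'⟩

end Sp1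

/-- [Sp1] an odd function with values `0, 1, -1` killed by all the functions `Ψ_t` vanishes -/
def St_Sp1 : Prop := ∀ (K : Type) [Field K] [NumberField K] (c : K →+* K)
  (Ψ : Derivation ℚ ℂ ℂ → (K →+* ℂ) → ((K →+* ℂ) → ℚ) →ₗ[ℚ] ℂ) (f : (K →+* ℂ) → ℚ),
  CMF K c → (∀ δ, IsPsiK δ K c (Ψ δ)) → OddF c f → (∀ σ, f σ = 0 ∨ f σ = 1 ∨ f σ = -1) →
  (∀ δ t, Ψ δ t f = 0) → f = 0

theorem thm_Sp1 (hI : St_Iso) : St_Sp1 := by
  classical
  intro K _ _ c Ψ f₁ hc hΨ hodd hv0 hzero
  by_contra hf₁'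
  have hf₁ : f₁ ≠ 0 := hf₁'
  have hv : ∀ σ, f₁ σ = -1 ∨ f₁ σ = 0 ∨ f₁ σ = 1 := fun σ => by
    rcases hv0 σ with h | h | h
    · exact Or.inr (Or.inl h)
    · exact Or.inr (Or.inr h)
    · exact Or.inl h
  -- a CM type containing the set where the function is `1`
  obtain ⟨e, he⟩ := exists_injective_nat (K →+* ℂ)
  let Φ : (K →+* ℂ) → Prop := fun σ => f₁ σ = 1 ∨ (f₁ σ = 0 ∧ e σ < e (σ.comp c))
  let Φ' : (K →+* ℂ) → Prop := fun σ => f₁ σ = -1 ∨ (f₁ σ = 0 ∧ e σ < e (σ.comp c))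
  have hcc := Sp1_cc hc
  have hlt : ∀ σ : K →+* ℂ, ¬ e σ < e (σ.comp c) ↔ e (σ.comp c) < e ((σ.comp c).comp c) := by
    intro σ
    rw [hcc]
    have hne' : e (σ.comp c) ≠ e σ := fun h => Sp1_ne hc σ (he h)
    omega
  have hΦ : ∀ σ, ¬ Φ σ ↔ Φ (σ.comp c) := by
    intro σ
    have h1 := hodd σ
    simp only [Φ, h1]
    rcases hv σ with h | h | h
    · rw [h]; norm_num
    · rw [h]
      have := hlt σ
      norm_num
      rw [← not_lt, this]
    · rw [h]; norm_num
  have hΦ' : ∀ σ, ¬ Φ' σ ↔ Φ' (σ.comp c) := by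
    intro σ
    have h1 := hodd σ
    simp only [Φ', h1]
    rcases hv σ with h | h | h
    · rw [h]; norm_num
    · rw [h]
      have := hlt σ
      norm_num
      rw [← not_lt, this]
    · rw [h]; norm_num
  let S : Type := {σ : K →+* ℂ // Φ σ}
  let φ : S → K →+* ℂ := Subtype.val
  let φ' : S → K →+* ℂ := fun s => if f₁ (φ s) = 1 then (φ s).comp c else φ s
  have hcmt : CMT K c φ := by
    constructor
    · rintro (s | s) (s' | s') h
      · have h' : φ s = φ s' := h
        exact congrArg Sum.inl (Subtype.ext h')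
      · have h' : φ s = (φ s').comp c := h
        exact absurd s'.2 ((hΦ _).2 (by
          show Φ ((φ s').comp c)
          rw [← h']
          exact s.2))
      · have h' : (φ s).comp c = φ s' := h
        exact absurd s.2 ((hΦ _).2 (by
          show Φ ((φ s).comp c)
          rw [h']
          exact s'.2))
      · have h' : (φ s).comp c = (φ s').comp c := h
        have h'' : φ s = φ s' := by rw [← hcc (φ s), h', hcc]
        exact congrArg Sum.inr (Subtype.ext h'')
    · intro σ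
      by_cases h : Φ σ
      · exact ⟨Sum.inl ⟨σ, h⟩, rfl⟩
      · exact ⟨Sum.inr ⟨σ.comp c, (hΦ σ).1 h⟩, hcc σ⟩
  have hcmt' : CMT K c φ' := by
    refine Sp1_cmt hc hcmt fun s => ?_
    simp only [φ']
    split_ifs
    · exact Or.inr rfl
    · exact Or.inl rfl
  have hran : ∀ σ, σ ∈ Set.range φ ↔ Φ σ := by
    intro σ
    constructor
    · rintro ⟨s, rfl⟩
      exact s.2
    · intro h
      exact ⟨⟨σ, h⟩, rfl⟩
  have hran' : ∀ σ, σ ∈ Set.range φ' ↔ Φ' σ := by
    intro σ
    constructor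
    · rintro ⟨s, rfl⟩
      simp only [φ']
      split_ifs with h1
      · left
        rw [hodd, h1]
      · right
        rcases s.2 with h2 | h2
        · exact absurd h2 h1
        · exact h2
    · rintro (h | h)
      · have h1 : f₁ (σ.comp c) = 1 := by rw [hodd, h]; norm_num
        refine ⟨⟨σ.comp c, Or.inl h1⟩, ?_⟩
        simp only [φ', φ]
        rw [if_pos h1, hcc]
      · refine ⟨⟨σ, Or.inr h⟩, ?_⟩
        simp only [φ', φ]
        rw [if_neg (by rw [h.1]; norm_num)]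
  have hdiff : hfun φ - hfun φ' = f₁ := by
    funext σ
    rw [Pi.sub_apply]
    unfold hfun
    rcases hv σ with h | h | h
    · have n1 : σ ∉ Set.range φ := fun h2 => by
        rcases (hran σ).1 h2 with h3 | h3
        · rw [h] at h3; norm_num at h3
        · rw [h] at h3; norm_num at h3
      have n2 : σ ∈ Set.range φ' := (hran' σ).2 (Or.inl h)
      rw [if_neg n1, if_pos n2, h]; norm_num
    · by_cases h4 : e σ < e (σ.comp c)
      · rw [if_pos ((hran σ).2 (Or.inr ⟨h, h4⟩)), if_pos ((hran' σ).2 (Or.inr ⟨h, h4⟩)), h]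
        norm_num
      · have n1 : σ ∉ Set.range φ := fun h2 => by
          rcases (hran σ).1 h2 with h3 | h3
          · rw [h] at h3; norm_num at h3
          · exact h4 h3.2
        have n2 : σ ∉ Set.range φ' := fun h2 => by
          rcases (hran' σ).1 h2 with h3 | h3
          · rw [h] at h3; norm_num at h3
          · exact h4 h3.2
        rw [if_neg n1, if_neg n2, h]; norm_num
    · have n1 : σ ∉ Set.range φ' := fun h2 => by
        rcases (hran' σ).1 h2 with h3 | h3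
        · rw [h] at h3; norm_num at h3
        · rw [h] at h3; norm_num at h3
      have n2 : σ ∈ Set.range φ := (hran σ).2 (Or.inl h)
      rw [if_pos n2, if_neg n1, h]; norm_num
  have hodd' : OddF c (hfun φ') := by
    intro σ
    unfold hfun
    have h1 := hΦ' σ
    by_cases h2 : Φ' σ
    · rw [if_pos ((hran' σ).2 h2), if_neg fun h3 => h1.2 ((hran' _).1 h3) h2]
      norm_num
    · rw [if_neg fun h3 => h2 ((hran' _).1 h3), if_pos ((hran' _).2 (h1.1 h2))]
      norm_num
  have hΨd : ∀ δ t, Ψ δ t (hfun φ) = Ψ δ t (hfun φ') := by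
    intro δ t
    have h1 := hzero δ t
    rw [← hdiff, map_sub, sub_eq_zero] at h1
    exact h1
  have hiso := hI K c S φ φ' hc hcmt hcmt' (by
    intro δ A A' hA hA' s s'
    have h1 := (hΨ δ).val S φ A s hcmt hA
    have h2 := (hΨ δ).val S φ' A' s' hcmt' hA'
    refine ⟨fun h => ?_, fun h => ?_⟩
    · rw [h, hΨd] at h1
      rw [← h1] at h2
      linear_combination -h2
    · rw [h, hΨd, (hΨ δ).cj _ _ hodd', ← h2] at h1
      have h3 : δ Real.pi / (Real.pi : ℂ) = 2 * (δ Real.pi / (2 * Real.pi)) := by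
        field_simp
      rw [h3]
      linear_combination h1)
  apply hf₁
  rw [← hdiff, sub_eq_zero]
  funext σ
  unfold hfun
  rw [hiso]



/-- [CompG] finitely many CM fields are contained in a Galois CM field -/
def St_CompG : Prop := ∀ (I : Type) [Fintype I] [Nonempty I] (K : I → Type)
  [∀ i, Field (K i)] [∀ i, NumberField (K i)], (∀ i, ∃ c, CMF (K i) c) →
  ∃ (L : Type) (_ : Field L) (_ : NumberField L) (_ : ∀ i, Algebra (K i) L) (c : L →+* L),
    CMF L c ∧ IsGalois ℚ L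

/-- [BalF] Galois closed relations between the exponents of CM types, with weights `0, N, -N`, are
balanced -/
def St_BalF : Prop := ∀ (I : Type) [Fintype I] (K : I → Type) [∀ i, Field (K i)]
  [∀ i, NumberField (K i)] (c : ∀ i, K i →+* K i) (S : I → Type) [∀ i, Fintype (S i)]
  [∀ i, DecidableEq (S i)] (φ : ∀ i, S i → K i →+* ℂ) (A : Derivation ℚ ℂ ℂ → ∀ i, S i → ℂ)
  (z : (Σ i, (K i →+* ℂ)) → ℤ) (N : ℤ), (∀ i, CMF (K i) (c i)) →
  (∀ i, CMT (K i) (c i) (φ i)) → (∀ δ i, IsExp δ (K i) (φ i) (A δ i)) →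
  (∀ i (σ : K i →+* ℂ), z ⟨i, σ.comp (c i)⟩ = -z ⟨i, σ⟩) →
  (∀ (τ : ℂ ≃+* ℂ) (δ : Derivation ℚ ℂ ℂ),
    ∑ i, ∑ s, (z ⟨i, (τ : ℂ →+* ℂ).comp (φ i s)⟩ : ℂ) *
      (2 * A δ i s - δ Real.pi / Real.pi) = 0) →
  (∀ τ : ℂ ≃+* ℂ, ∑ i, ∑ s, z ⟨i, (τ : ℂ →+* ℂ).comp (φ i s)⟩ = 0 ∨
    ∑ i, ∑ s, z ⟨i, (τ : ℂ →+* ℂ).comp (φ i s)⟩ = N ∨
    ∑ i, ∑ s, z ⟨i, (τ : ℂ →+* ℂ).comp (φ i s)⟩ = -N) →
  ∑ i, ∑ s, z ⟨i, φ i s⟩ = 0

theorem thm_CompG : St_CompG := by
  classical
  intro I _ _ K _ _ hcm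
  have h0 := fun i => PST.thm_GalC (K i) (hcm i).choose (hcm i).choose_spec
  choose M fM nM aM cM hM hMG using h0
  obtain ⟨L, fL, nL, f, j, hn, hext⟩ := GAM.Comp_exists I M hMG
  let alg : ∀ i, Algebra (K i) L := fun i => ((f i).comp (algebraMap (K i) (M i))).toAlgebra
  let algM : ∀ i, Algebra (M i) L := fun i => (f i).toAlgebra
  have hGal : IsGalois ℚ L := ⟨⟩
  have htow : ∀ i, IsScalarTower ℚ (M i) L := fun i => inferInstance
  let aL : Algebra L ℂ := j.toAlgebra
  set cj : ℂ ≃ₐ[ℚ] ℂ := Complex.conjAe.restrictScalars ℚ with hcj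
  set c0 : L ≃ₐ[ℚ] L := cj.restrictNormal L with hc0
  have hc : ∀ x : L, j (c0 x) = conj (j x) := fun x =>
    AlgEquiv.restrictNormal_commutes cj L x
  -- on the fields `M i`
  have hcf : ∀ i (x : M i), c0 (f i x) = f i (cM i x) := by
    intro i x
    apply j.injective
    rw [hc]
    exact (hM i).cc (j.comp (f i)) x
  refine ⟨L, fL, nL, alg, (c0 : L →+* L), ⟨?_, ?_⟩, hGal⟩
  · intro σ x
    set σ' : L →ₐ[ℚ] ℂ := σ.toRatAlgHom with hσ'
    set g : L ≃ₐ[ℚ] L := σ'.restrictNormal' L with hg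
    have hgx : ∀ x : L, j (g x) = σ x := fun x =>
      AlgHom.restrictNormal_commutes σ' L x
    have hcg : (c0 : L →+* L).comp (g : L →+* L) = (g : L →+* L).comp (c0 : L →+* L) := by
      apply hext
      intro i x
      have hni : Normal ℚ (M i) := (hMG i).to_normal
      have e1 : ∀ y : M i, f i (g.restrictNormal (M i) y) = g (f i y) :=
        fun y => AlgEquiv.restrictNormal_commutes g (M i) y
      show c0 (g (f i x)) = g (c0 (f i x))
      rw [← e1, hcf, hcf, ← e1]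
      congr 1
      apply (j.comp (f i)).injective
      rw [← (hM i).cc (j.comp (f i))]
      exact (hM i).cc ((j.comp (f i)).comp ((g.restrictNormal (M i) : M i ≃ₐ[ℚ] M i) : M i →+* M i)) x
    have h2 := congrArg (fun k : L →+* L => j (k x)) hcg
    have h3 : j (c0 (g x)) = j (g (c0 x)) := h2
    rw [hc, hgx, hgx] at h3
    exact h3
  · intro hid
    obtain ⟨i⟩ := ‹Nonempty I›
    apply (hM i).ne
    ext x
    have h1 : ∀ y : L, c0 y = y := fun y => congrArg (fun k : L →+* L => k y) hid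
    have h2 := hcf i x
    rw [h1] at h2
    exact ((f i).injective h2).symm

section one

variable {K : Type} [Field K] [NumberField K] {c : K →+* K}

private lemma BalF_comp_apply {K L : Type} [Field K] [Field L] (σ : L →+* ℂ) (g : K →+* L) (x : K) :
    σ.comp g x = σ (g x) := rfl

private lemma BalF_cc (hc : CMF K c) (σ : K →+* ℂ) : (σ.comp c).comp c = σ := by
  ext x
  rw [BalF_comp_apply, BalF_comp_apply, ← hc.cc, ← hc.cc, Complex.conj_conj]

private lemma BalF_c_inj (hc : CMF K c) {σ σ' : K →+* ℂ} (h : σ.comp c = σ'.comp c) : σ = σ' := by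
  rw [← BalF_cc hc σ, h, BalF_cc hc]

/-- complex conjugation commutes with isomorphisms -/
private lemma BalF_comm (hc : CMF K c) (σ : K →+* ℂ) (g : K →+* K) :
    (σ.comp c).comp g = (σ.comp g).comp c := by
  ext x
  rw [BalF_comp_apply, BalF_comp_apply, BalF_comp_apply, BalF_comp_apply, ← hc.cc σ (g x)]
  have h := hc.cc (σ.comp g) x
  rw [BalF_comp_apply, BalF_comp_apply] at h
  exact h

variable {S : Type} [Fintype S] {φ : S → K →+* ℂ}

private lemma BalF_inj (hT : CMT K c φ) {s s' : S} (h : φ s = φ s') : s = s' := by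
  have h1 : (Sum.inl s : S ⊕ S) = Sum.inl s' := hT.1 h
  exact Sum.inl_injective h1

private lemma BalF_ne (hT : CMT K c φ) {s s' : S} (h : φ s = (φ s').comp c) : False := by
  have h1 : (Sum.inl s : S ⊕ S) = Sum.inr s' := hT.1 h
  exact absurd h1 (by simp)

private lemma BalF_surj (hT : CMT K c φ) (σ : K →+* ℂ) :
    (∃ s, σ = φ s) ∨ ∃ s, σ = (φ s).comp c := by
  obtain ⟨x, hx⟩ := hT.2 σ
  rcases x with s | s
  · exact Or.inl ⟨s, hx.symm⟩
  · exact Or.inr ⟨s, hx.symm⟩

private lemma BalF_sum (hT : CMT K c φ) {M : Type} [AddCommMonoid M] (F : (K →+* ℂ) → M) :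
    ∑ ρ, F ρ = ∑ s, F (φ s) + ∑ s, F ((φ s).comp c) := by
  rw [← (Equiv.ofBijective _ hT).sum_comp F, Fintype.sum_sum_type]
  rfl

end one

section two

variable {K L : Type} [Field K] [NumberField K] [Field L] [NumberField L] [Algebra K L]
  {c : K →+* K} {c' : L →+* L}

private lemma BalF_res_c (hc : CMF K c) (hc' : CMF L c') (σ : L →+* ℂ) :
    (σ.comp c').comp (algebraMap K L) = (σ.comp (algebraMap K L)).comp c := by
  ext x
  rw [BalF_comp_apply, BalF_comp_apply, ← hc'.cc]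
  exact hc.cc (σ.comp (algebraMap K L)) x

/-- all fibres of the restriction of embeddings have the same size -/
private lemma BalF_fib (K L : Type) [Field K] [NumberField K] [Field L] [NumberField L]
    [Algebra K L] : ∃ m : ℕ, m ≠ 0 ∧ ∀ (M : Type) [AddCommMonoid M] (F : (K →+* ℂ) → M),
    ∑ t : L →+* ℂ, F (t.comp (algebraMap K L)) = m • ∑ ρ, F ρ := by
  classical
  obtain ⟨t0⟩ : Nonempty (L →+* ℂ) := inferInstance
  set ρ0 : K →+* ℂ := t0.comp (algebraMap K L) with hρ0
  set fib : (K →+* ℂ) → Finset (L →+* ℂ) := fun ρ =>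
    Finset.univ.filter fun t => t.comp (algebraMap K L) = ρ with hfib
  have hcard : ∀ ρ, (fib ρ).card = (fib ρ0).card := by
    intro ρ
    obtain ⟨τ, hτ⟩ := Pool.Agent.Helper84.exists_aut ρ ρ0
    refine Finset.card_bij' (fun t _ => (τ : ℂ →+* ℂ).comp t)
      (fun t _ => ((τ.symm : ℂ ≃+* ℂ) : ℂ →+* ℂ).comp t) ?_ ?_ ?_ ?_
    · intro t ht
      simp only [hfib, Finset.mem_filter, Finset.mem_univ, true_and] at ht ⊢
      rw [RingHom.comp_assoc, ht, hτ]
    · intro t ht
      simp only [hfib, Finset.mem_filter, Finset.mem_univ, true_and] at ht ⊢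
      rw [RingHom.comp_assoc, ht, ← hτ]
      ext x
      simp
    · intro t _
      ext x
      simp
    · intro t _
      ext x
      simp
  refine ⟨(fib ρ0).card, ?_, ?_⟩
  · have h1 : t0 ∈ fib ρ0 := by simp [hfib, hρ0]
    exact (Finset.card_pos.2 ⟨t0, h1⟩).ne'
  · intro M _ F
    rw [← Finset.sum_fiberwise (s := Finset.univ) (g := fun t : L →+* ℂ => t.comp (algebraMap K L))
      (f := fun t => F (t.comp (algebraMap K L)))]
    rw [Finset.smul_sum]
    refine Finset.sum_congr rfl fun ρ _ => ?_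
    rw [← hcard ρ, ← Finset.sum_const]
    refine Finset.sum_congr rfl fun t ht => ?_
    rw [(Finset.mem_filter.1 ht).2]

variable {S : Type} [Fintype S] {φ : S → K →+* ℂ}

/-- the embeddings of `L` above the CM type `φ` -/
private abbrev BalF_S (K L : Type) [Field K] [Field L] [Algebra K L] {S : Type}
    (φ : S → K →+* ℂ) : Type :=
  {σ : L →+* ℂ // ∃ s, σ.comp (algebraMap K L) = φ s}

private lemma BalF_CMT (hc : CMF K c) (hc' : CMF L c') (hT : CMT K c φ) :
    CMT L c' (fun s' : BalF_S K L φ => s'.1) := by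
  constructor
  · rintro (⟨σ, s, hs⟩ | ⟨σ, s, hs⟩) (⟨σ', s', hs'⟩ | ⟨σ', s', hs'⟩) h
    · have h1 : σ = σ' := h
      subst h1; rfl
    · have h1 : σ = σ'.comp c' := h
      rw [h1, BalF_res_c hc hc', hs'] at hs
      exact (BalF_ne hT hs.symm).elim
    · have h1 : σ.comp c' = σ' := h
      rw [← h1, BalF_res_c hc hc', hs] at hs'
      exact (BalF_ne hT hs'.symm).elim
    · have h1 : σ.comp c' = σ'.comp c' := h
      have h2 := BalF_c_inj hc' h1
      subst h2; rfl
  · intro σ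
    rcases BalF_surj hT (σ.comp (algebraMap K L)) with ⟨s, hs⟩ | ⟨s, hs⟩
    · exact ⟨Sum.inl ⟨σ, s, hs⟩, rfl⟩
    · refine ⟨Sum.inr ⟨σ.comp c', s, ?_⟩, BalF_cc hc' σ⟩
      rw [BalF_res_c hc hc', hs, BalF_cc hc]

private noncomputable def BalF_H (L : Type) [Field L] [Algebra K L] (φ : S → K →+* ℂ) :
    (L →+* ℂ) → ℚ :=
  hfun (fun s' : BalF_S K L φ => s'.1)

private lemma BalF_H_pos {t : L →+* ℂ} {s : S} (h : t.comp (algebraMap K L) = φ s) :
    BalF_H L φ t = 1 / 2 := by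
  unfold BalF_H hfun
  rw [if_pos]
  exact ⟨⟨t, s, h⟩, rfl⟩

private lemma BalF_H_neg (hT : CMT K c φ) {t : L →+* ℂ} {s : S}
    (h : t.comp (algebraMap K L) = (φ s).comp c) : BalF_H L φ t = -1 / 2 := by
  unfold BalF_H hfun
  rw [if_neg]
  rintro ⟨⟨t', s', h'⟩, ht⟩
  have h1 : t' = t := ht
  rw [h1, h] at h'
  exact BalF_ne hT h'.symm

private lemma BalF_H_odd (hc : CMF K c) (hc' : CMF L c') (hT : CMT K c φ) :
    OddF c' (BalF_H L φ) := by
  intro σ
  rcases BalF_surj hT (σ.comp (algebraMap K L)) with ⟨s, hs⟩ | ⟨s, hs⟩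
  · rw [BalF_H_pos hs, BalF_H_neg hT (s := s) (by rw [BalF_res_c hc hc', hs])]
    norm_num
  · rw [BalF_H_neg hT hs, BalF_H_pos (s := s) (by rw [BalF_res_c hc hc', hs, BalF_cc hc])]
    norm_num

/-- `Ψ_t` of `H` -/
private lemma BalF_psi [DecidableEq S] (hL : St_ExpL) (hc : CMF K c) (hc' : CMF L c')
    (hT : CMT K c φ) {δ : Derivation ℚ ℂ ℂ} {A : S → ℂ} (hE : IsExp δ K φ A)
    {Ψ : (L →+* ℂ) → ((L →+* ℂ) → ℚ) →ₗ[ℚ] ℂ} (hΨ : IsPsiK δ L c' Ψ) (t : L →+* ℂ) (s : S) :
    (t.comp (algebraMap K L) = φ s → Ψ t (BalF_H L φ) = A s - δ Real.pi / (2 * Real.pi)) ∧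
    (t.comp (algebraMap K L) = (φ s).comp c →
      Ψ t (BalF_H L φ) = -(A s - δ Real.pi / (2 * Real.pi))) := by
  classical
  have hT' := BalF_CMT hc hc' hT
  have key : ∀ t : L →+* ℂ, t.comp (algebraMap K L) = φ s →
      Ψ t (BalF_H L φ) = A s - δ Real.pi / (2 * Real.pi) := by
    intro t ht
    have hr : ∀ s' : BalF_S K L φ, ∃ s, s'.1.comp (algebraMap K L) = φ s := fun s' => s'.2
    choose r hr using hr
    have h1 := hL K L c c' S (BalF_S K L φ) φ (fun s' => s'.1) r δ A hc hc' hT hT' hr hE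
    have h2 := hΨ.val (BalF_S K L φ) (fun s' => s'.1) (fun s' => A (r s')) ⟨t, s, ht⟩ hT' h1
    have h3 : r ⟨t, s, ht⟩ = s := by
      have h4 := hr ⟨t, s, ht⟩
      exact BalF_inj hT (h4.symm.trans ht)
    rw [h3] at h2
    exact h2.symm
  refine ⟨key t, fun ht => ?_⟩
  have h1 : (t.comp c').comp (algebraMap K L) = φ s := by
    rw [BalF_res_c hc hc', ht, BalF_cc hc]
  have h2 := key (t.comp c') h1
  have h3 := hΨ.cj t (BalF_H L φ) (BalF_H_odd hc hc' hT)
  rw [h3] at h2
  rw [← h2, neg_neg]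

private lemma BalF_gal [IsGalois ℚ L] (t0 t : L →+* ℂ) :
    ∃ g : L ≃+* L, t0.comp (g : L →+* L) = t := by
  obtain ⟨g, hg⟩ := NumberField.ComplexEmbedding.exists_comp_symm_eq_of_comp_eq (k := ℚ) t0 t
    (Subsingleton.elim _ _)
  exact ⟨g.symm.toRingEquiv, hg⟩

end two

theorem thm_BalF (hL : St_ExpL) (hP : St_PsiK) (hM : St_Sp1) (hC : St_CompG) : St_BalF := by
  intro I _ K _ _ c S _ _ φ A z N hCM hT hE hz hrel hval
  classical
  rcases isEmpty_or_nonempty I with hI | hI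
  · simp
  obtain ⟨L, iF, iN, iA, c', hc', hGal⟩ := hC I K (fun i => ⟨c i, hCM i⟩)
  -- the functions
  have hΨ : ∀ δ, ∃ Ψ, IsPsiK δ L c' Ψ := fun δ => hP L c' δ hc'
  choose Ψ hΨ using hΨ
  obtain ⟨t0⟩ : Nonempty (L →+* ℂ) := inferInstance
  have hg : ∀ t : L →+* ℂ, ∃ g : L ≃+* L, t0.comp (g : L →+* L) = t := fun t => BalF_gal t0 t
  choose g hg using hg
  have hm : ∀ i, ∃ m : ℕ, m ≠ 0 ∧ ∀ (M : Type) [AddCommMonoid M] (F : (K i →+* ℂ) → M),
    ∑ t : L →+* ℂ, F (t.comp (algebraMap (K i) L)) = m • ∑ ρ, F ρ := fun i => BalF_fib (K i) L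
  choose m hm0 hm using hm
  set f : (L →+* ℂ) → ℚ := fun σ => ∑ i, (1 / (m i : ℚ)) * ∑ t : L →+* ℂ,
    (z ⟨i, t.comp (algebraMap (K i) L)⟩ : ℚ) * BalF_H L (φ i) (σ.comp (g t : L →+* L)) with hf
  -- `f` is odd
  have hodd : OddF c' f := by
    intro σ
    rw [hf]
    simp only
    rw [← Finset.sum_neg_distrib]
    refine Finset.sum_congr rfl fun i _ => ?_
    rw [← mul_neg, ← Finset.sum_neg_distrib]
    congr 1
    refine Finset.sum_congr rfl fun t _ => ?_
    rw [BalF_comm hc', BalF_H_odd (hCM i) hc' (hT i)]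
    ring
  -- `Ψ_t f = 0`
  have hzero : ∀ δ t1, Ψ δ t1 f = 0 := by
    intro δ t1
    have h1 : f = ∑ i, (1 / (m i : ℚ)) • ∑ t : L →+* ℂ,
        (z ⟨i, t.comp (algebraMap (K i) L)⟩ : ℚ) •
          (fun σ : L →+* ℂ => BalF_H L (φ i) (σ.comp (g t : L →+* L))) := by
      funext σ
      rw [hf]
      simp only [Finset.sum_apply, Pi.smul_apply, smul_eq_mul]
    rw [h1, map_sum]
    obtain ⟨τ, hτ⟩ := Pool.Agent.Helper84.exists_aut t1 t0
    have h2 : ∀ i, Ψ δ t1 ((1 / (m i : ℚ)) • ∑ t : L →+* ℂ,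
        (z ⟨i, t.comp (algebraMap (K i) L)⟩ : ℚ) •
          (fun σ : L →+* ℂ => BalF_H L (φ i) (σ.comp (g t : L →+* L)))) =
        ∑ s, (z ⟨i, (τ : ℂ →+* ℂ).comp (φ i s)⟩ : ℂ) *
          (2 * A δ i s - δ Real.pi / Real.pi) := by
      intro i
      rw [map_smul, map_sum]
      have h3 : ∀ t : L →+* ℂ, Ψ δ t1 ((z ⟨i, t.comp (algebraMap (K i) L)⟩ : ℚ) •
          (fun σ : L →+* ℂ => BalF_H L (φ i) (σ.comp (g t : L →+* L)))) =
          (z ⟨i, t.comp (algebraMap (K i) L)⟩ : ℂ) *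
            Ψ δ (t1.comp (g t : L →+* L)) (BalF_H L (φ i)) := by
        intro t
        rw [map_smul, ← (hΨ δ).gal (g t) t1 _ (BalF_H_odd (hCM i) hc' (hT i)), Algebra.smul_def]
        congr 1
      rw [Finset.sum_congr rfl fun t _ => h3 t]
      -- substitution
      have hbij : Function.Bijective (fun t' : L →+* ℂ => (τ : ℂ →+* ℂ).comp t') := by
        constructor
        · intro a b hab'
          ext x
          have := RingHom.congr_fun hab' x
          exact τ.injective this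
        · intro b
          refine ⟨((τ.symm : ℂ ≃+* ℂ) : ℂ →+* ℂ).comp b, ?_⟩
          ext x
          simp
      rw [← hbij.sum_comp (fun t : L →+* ℂ => (z ⟨i, t.comp (algebraMap (K i) L)⟩ : ℂ) *
            Ψ δ (t1.comp (g t : L →+* L)) (BalF_H L (φ i)))]
      have h4 : ∀ t' : L →+* ℂ, t1.comp (g ((τ : ℂ →+* ℂ).comp t') : L →+* L) = t' := by
        intro t'
        apply hbij.1
        simp only
        rw [← RingHom.comp_assoc, hτ, hg]
      set G : (K i →+* ℂ) → ℂ := fun ρ : K i →+* ℂ => (z ⟨i, (τ : ℂ →+* ℂ).comp ρ⟩ : ℂ) *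
            (if h : ∃ s, ρ = φ i s then A δ i h.choose - δ Real.pi / (2 * Real.pi) else
              if h : ∃ s, ρ = (φ i s).comp (c i) then
                -(A δ i h.choose - δ Real.pi / (2 * Real.pi)) else 0) with hG'
      have h5 : ∀ t' : L →+* ℂ, (z ⟨i, ((τ : ℂ →+* ℂ).comp t').comp (algebraMap (K i) L)⟩ : ℂ) *
            Ψ δ (t1.comp (g ((τ : ℂ →+* ℂ).comp t') : L →+* L)) (BalF_H L (φ i)) =
          G (t'.comp (algebraMap (K i) L)) := by
        intro t'
        rw [hG']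
        simp only
        rw [h4, RingHom.comp_assoc]
        congr 1
        split_ifs with h6 h7
        · exact (BalF_psi hL (hCM i) hc' (hT i) (hE δ i) (hΨ δ) t' _).1 h6.choose_spec
        · exact (BalF_psi hL (hCM i) hc' (hT i) (hE δ i) (hΨ δ) t' _).2 h7.choose_spec
        · rcases BalF_surj (hT i) (t'.comp (algebraMap (K i) L)) with h8 | h8
          · exact absurd h8 h6
          · exact absurd h8 h7
      rw [Finset.sum_congr rfl fun t' _ => h5 t', hm i ℂ G, BalF_sum (hT i), hG']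
      have h9 : ∀ s, (if h : ∃ s', φ i s = φ i s' then
          A δ i h.choose - δ Real.pi / (2 * Real.pi) else
              if h : ∃ s', φ i s = (φ i s').comp (c i) then
                -(A δ i h.choose - δ Real.pi / (2 * Real.pi)) else 0) =
          A δ i s - δ Real.pi / (2 * Real.pi) := by
        intro s
        have h10 : ∃ s', φ i s = φ i s' := ⟨s, rfl⟩
        rw [dif_pos h10, ← BalF_inj (hT i) h10.choose_spec]
      have h11 : ∀ s, (if h : ∃ s', (φ i s).comp (c i) = φ i s' then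
          A δ i h.choose - δ Real.pi / (2 * Real.pi) else
              if h : ∃ s', (φ i s).comp (c i) = (φ i s').comp (c i) then
                -(A δ i h.choose - δ Real.pi / (2 * Real.pi)) else 0) =
          -(A δ i s - δ Real.pi / (2 * Real.pi)) := by
        intro s
        have h12 : ¬ ∃ s', (φ i s).comp (c i) = φ i s' := by
          rintro ⟨s', hs'⟩
          exact BalF_ne (hT i) hs'.symm
        have h13 : ∃ s', (φ i s).comp (c i) = (φ i s').comp (c i) := ⟨s, rfl⟩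
        rw [dif_neg h12, dif_pos h13,
          ← BalF_inj (hT i) (BalF_c_inj (hCM i) h13.choose_spec)]
      simp only [h9, h11]
      have h14 : ∀ s, (z ⟨i, (τ : ℂ →+* ℂ).comp ((φ i s).comp (c i))⟩ : ℂ) =
          -(z ⟨i, (τ : ℂ →+* ℂ).comp (φ i s)⟩ : ℂ) := by
        intro s
        rw [← RingHom.comp_assoc, hz]
        push_cast
        rfl
      simp only [h14]
      have hm1 : (m i : ℂ) ≠ 0 := Nat.cast_ne_zero.2 (hm0 i)
      rw [← Finset.sum_add_distrib, Algebra.smul_def, nsmul_eq_mul, ← mul_assoc]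
      have h15 : (algebraMap ℚ ℂ (1 / (m i : ℚ))) * (m i : ℂ) = 1 := by
        rw [map_div₀, map_one, map_natCast]
        field_simp
      rw [h15, one_mul]
      refine Finset.sum_congr rfl fun s _ => ?_
      have hpi : (Real.pi : ℂ) ≠ 0 := by exact_mod_cast Real.pi_ne_zero
      field_simp
      ring
    rw [Finset.sum_congr rfl fun i _ => h2 i]
    exact hrel τ δ
  -- the values of `f`
  have hval2 : ∀ z' : (Σ i, (K i →+* ℂ)) → ℤ, (∀ i (σ : K i →+* ℂ), z' ⟨i, σ.comp (c i)⟩ =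
      -z' ⟨i, σ⟩) → ∀ i, (1 / (m i : ℚ)) * ∑ t : L →+* ℂ,
      (z' ⟨i, t.comp (algebraMap (K i) L)⟩ : ℚ) * BalF_H L (φ i) t =
      ∑ s, (z' ⟨i, φ i s⟩ : ℚ) := by
    intro z' hz' i
    set G : (K i →+* ℂ) → ℚ := fun ρ : K i →+* ℂ =>
      (z' ⟨i, ρ⟩ : ℚ) * (if ∃ s, ρ = φ i s then 1 / 2 else -1 / 2) with hG'
    have h3 : ∀ t : L →+* ℂ, (z' ⟨i, t.comp (algebraMap (K i) L)⟩ : ℚ) * BalF_H L (φ i) t =
        G (t.comp (algebraMap (K i) L)) := by
      intro t
      rw [hG']
      simp only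
      congr 1
      split_ifs with h4
      · exact BalF_H_pos h4.choose_spec
      · rcases BalF_surj (hT i) (t.comp (algebraMap (K i) L)) with h8 | h8
        · exact absurd h8 h4
        · exact BalF_H_neg (hT i) h8.choose_spec
    rw [Finset.sum_congr rfl fun t _ => h3 t, hm i ℚ G, BalF_sum (hT i), hG']
    have h9 : ∀ s, (if ∃ s', φ i s = φ i s' then (1 / 2 : ℚ) else -1 / 2) = 1 / 2 := fun s =>
      if_pos ⟨s, rfl⟩
    have h11 : ∀ s, (if ∃ s', (φ i s).comp (c i) = φ i s' then (1 / 2 : ℚ) else -1 / 2) =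
        -1 / 2 := by
      intro s
      rw [if_neg]
      rintro ⟨s', hs'⟩
      exact BalF_ne (hT i) hs'.symm
    simp only [h9, h11, hz']
    have hm1 : (m i : ℚ) ≠ 0 := Nat.cast_ne_zero.2 (hm0 i)
    rw [← Finset.sum_add_distrib, nsmul_eq_mul, ← mul_assoc, one_div, inv_mul_cancel₀ hm1,
      one_mul]
    refine Finset.sum_congr rfl fun s _ => ?_
    push_cast
    ring
  have hfv : ∀ τ : ℂ ≃+* ℂ, f (((τ.symm : ℂ ≃+* ℂ) : ℂ →+* ℂ).comp t0) =
      ∑ i, ∑ s, (z ⟨i, (τ : ℂ →+* ℂ).comp (φ i s)⟩ : ℚ) := by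
    intro τ
    rw [hf]
    simp only
    refine Finset.sum_congr rfl fun i _ => ?_
    have hz' : ∀ i (σ : K i →+* ℂ), (fun p : (Σ i, (K i →+* ℂ)) =>
        z ⟨p.1, (τ : ℂ →+* ℂ).comp p.2⟩) ⟨i, σ.comp (c i)⟩ =
        -(fun p : (Σ i, (K i →+* ℂ)) => z ⟨p.1, (τ : ℂ →+* ℂ).comp p.2⟩) ⟨i, σ⟩ := by
      intro i σ
      simp only
      rw [← RingHom.comp_assoc, hz]
    have h1 := hval2 (fun p : (Σ i, (K i →+* ℂ)) => z ⟨p.1, (τ : ℂ →+* ℂ).comp p.2⟩) hz' i
    simp only at h1
    rw [← h1]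
    congr 1
    have hbij : Function.Bijective (fun t' : L →+* ℂ => (τ : ℂ →+* ℂ).comp t') := by
      constructor
      · intro a b hab'
        ext x
        have := RingHom.congr_fun hab' x
        exact τ.injective this
      · intro b
        refine ⟨((τ.symm : ℂ ≃+* ℂ) : ℂ →+* ℂ).comp b, ?_⟩
        ext x
        simp
    rw [← hbij.sum_comp (fun t : L →+* ℂ => (z ⟨i, t.comp (algebraMap (K i) L)⟩ : ℚ) *
      BalF_H L (φ i) ((((τ.symm : ℂ ≃+* ℂ) : ℂ →+* ℂ).comp t0).comp (g t : L →+* L)))]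
    refine Finset.sum_congr rfl fun t _ => ?_
    have h4 : (((τ.symm : ℂ ≃+* ℂ) : ℂ →+* ℂ).comp t0).comp
        (g ((τ : ℂ →+* ℂ).comp t) : L →+* L) = t := by
      rw [RingHom.comp_assoc, hg]
      ext x
      simp
    rw [h4, RingHom.comp_assoc]
  have hfall : ∀ σ, f σ = 0 ∨ f σ = N ∨ f σ = -N := by
    intro σ
    obtain ⟨τ, hτ⟩ := Pool.Agent.Helper84.exists_aut t0 σ
    have h1 := hfv τ.symm
    have h2 : (((τ.symm.symm : ℂ ≃+* ℂ) : ℂ →+* ℂ).comp t0) = σ := by
      rw [← hτ]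
      rfl
    rw [h2] at h1
    rw [h1]
    rcases hval τ.symm with h3 | h3 | h3
    · left; exact_mod_cast h3
    · right; left; exact_mod_cast h3
    · right; right; exact_mod_cast h3
  have h1' : f t0 = ∑ i, ∑ s, (z ⟨i, φ i s⟩ : ℚ) := by
    have h1 := hfv (RingEquiv.refl ℂ)
    exact h1
  have hf0 : f = 0 := by
    by_cases hN : N = 0
    · funext σ
      rcases hfall σ with h | h | h
      · exact h
      · rw [h, hN]; simp
      · rw [h, hN]; simp
    · have hN' : (N : ℚ) ≠ 0 := by exact_mod_cast hN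
      have h2 := hM L c' Ψ ((1 / (N : ℚ)) • f) hc' hΨ (fun σ => by
        rw [Pi.smul_apply, Pi.smul_apply, hodd σ, smul_neg]) (fun σ => by
        rw [Pi.smul_apply, smul_eq_mul]
        rcases hfall σ with h | h | h
        · left; rw [h, mul_zero]
        · right; left; rw [h]; field_simp
        · right; right; rw [h]; field_simp) (fun δ t => by
        rw [map_smul, hzero, smul_zero])
      have h3 := congrArg (fun F : (L →+* ℂ) → ℚ => (N : ℚ) • F) h2
      simp only [smul_smul, smul_zero] at h3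
      rw [mul_one_div, div_self hN', one_smul] at h3
      exact h3
  rw [hf0, Pi.zero_apply] at h1'
  exact_mod_cast h1'.symm

theorem BalF_ : St_BalF :=
  thm_BalF GAM.All.ExpL_ GAM.All.PsiK_ (thm_Sp1 GAM.All.Iso_) thm_CompG

end WPP
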