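import Pool.Agent.WPP.StN
import Pool.Agent.PST.NF4
import Pool.Agent.PST.UTr

/-!
# WPP: coordinates adapted to the eigenspaces of a CM field [BasB]
-/

set_option autoImplicit false

namespace WPP

open scoped ComplexConjugate ComplexOrder MatrixOrder
open GAM (H CMF CMT)
open Pool.Agent.GPC (hermForm)
open Module
open PST DWC
open Matrix

/-- sums of algebraic numbers -/
private theorem BasB_algsum {ι : Type} (s : Finset ι) (f : ι → ℂ)
    (hf : ∀ i, IsAlgebraic ℚ (f i)) : IsAlgebraic ℚ (∑ i ∈ s, f i) := by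
  classical
  induction s using Finset.induction_on with
  | empty => rw [Finset.sum_empty]; exact isAlgebraic_zero
  | insert i s hi ih => rw [Finset.sum_insert hi]; exact (hf i).add ih

/-- the idempotents of the embeddings -/
private theorem BasB_idem (K : Type) [Field K] [NumberField K] {g : ℕ}
    (R : K →+* Matrix (Fin g) (Fin g) ℂ) (halg : ∀ x i j, IsAlgebraic ℚ (R x i j)) :
    ∃ e : (K →+* ℂ) → Matrix (Fin g) (Fin g) ℂ,
      (∀ σ x, e σ * R x = σ x • e σ) ∧ (∑ σ, e σ = 1) ∧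
      (∀ σ τ, σ ≠ τ → e σ * e τ = 0) ∧ (∀ σ, e σ * e σ = e σ) ∧
      ∀ σ i j, IsAlgebraic ℚ (e σ i j) := by
  classical
  let b := Module.finBasis ℚ K
  have hB := traceForm_nondegenerate ℚ K
  have hS := Algebra.traceForm_isSymm ℚ (S := K)
  let b' := (Algebra.traceForm ℚ K).dualBasis hB b
  have D1 : ∀ y : K, ∑ i, Algebra.trace ℚ K (y * b i) • b' i = y := by
    intro y
    have h1 := b'.sum_repr y
    simpa only [b', LinearMap.BilinForm.dualBasis_repr_apply, Algebra.traceForm_apply] using h1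
  have D2 : ∀ y : K, ∑ i, Algebra.trace ℚ K (y * b' i) • b i = y := by
    intro y
    have h1 := ((Algebra.traceForm ℚ K).dualBasis hB b').sum_repr y
    have h2 : (Algebra.traceForm ℚ K).dualBasis hB b' = b :=
      LinearMap.BilinForm.dualBasis_dualBasis hB hS b
    simp only [LinearMap.BilinForm.dualBasis_repr_apply, Algebra.traceForm_apply] at h1
    rw [h2] at h1
    exact h1
  obtain ⟨e, he⟩ : ∃ e : (K →+* ℂ) → Matrix (Fin g) (Fin g) ℂ,
      ∀ σ, e σ = ∑ i, σ (b' i) • R (b i) := ⟨_, fun σ => rfl⟩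
  have hRq : ∀ (q : ℚ) (x : K), R (q • x) = ((q : ℂ)) • R x := by
    intro q x
    rw [map_rat_smul R q x]
    ext i j
    simp [Rat.smul_def]
  have hσq : ∀ (σ : K →+* ℂ) (q : ℚ) (x : K), σ (q • x) = (q : ℂ) * σ x := by
    intro σ q x
    rw [map_rat_smul σ q x, Rat.smul_def]
  have I1 : ∀ σ x, e σ * R x = σ x • e σ := by
    intro σ x
    have h1 : ∀ i, R (b i) * R x = ∑ j, (Algebra.trace ℚ K (x * b' j * b i) : ℂ) • R (b j) := by
      intro i
      rw [← map_mul]
      conv_lhs => rw [← D2 (b i * x)]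
      rw [map_sum]
      refine Finset.sum_congr rfl fun j _ => ?_
      rw [hRq]
      congr 3
      ring
    rw [he, Finset.sum_mul]
    simp only [Matrix.smul_mul, h1, Finset.smul_sum]
    rw [Finset.sum_comm]
    refine Finset.sum_congr rfl fun j _ => ?_
    have h2 : σ (x * b' j) = ∑ i, (Algebra.trace ℚ K (x * b' j * b i) : ℂ) * σ (b' i) := by
      conv_lhs => rw [← D1 (x * b' j)]
      rw [map_sum]
      exact Finset.sum_congr rfl fun i _ => hσq _ _ _
    rw [smul_smul, ← map_mul, h2, Finset.sum_smul]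
    refine Finset.sum_congr rfl fun i _ => ?_
    rw [smul_smul, mul_comm]
  have I2 : ∑ σ, e σ = 1 := by
    have h1 : ∀ y : K, ∑ σ : K →+* ℂ, σ y = (Algebra.trace ℚ K y : ℂ) := by
      intro y
      have h2 := trace_eq_sum_embeddings (K := ℚ) (L := K) ℂ (x := y)
      have h3 : ∑ σ : K →+* ℂ, σ y = ∑ σ : K →ₐ[ℚ] ℂ, σ y :=
        Fintype.sum_equiv (RingHom.equivRatAlgHom K ℂ) _ _ fun σ => rfl
      rw [h3, ← h2]
      simp
    simp only [he]
    rw [Finset.sum_comm]
    simp only [← Finset.sum_smul, h1]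
    have h4 := congrArg R (D2 1)
    rw [map_sum, map_one] at h4
    rw [← h4]
    refine Finset.sum_congr rfl fun i _ => ?_
    rw [hRq, one_mul]
  have I3 : ∀ σ x, R x * e σ = σ x • e σ := by
    intro σ x
    rw [← I1, he, Finset.sum_mul, Finset.mul_sum]
    refine Finset.sum_congr rfl fun i _ => ?_
    rw [Matrix.mul_smul, Matrix.smul_mul, ← map_mul, ← map_mul, mul_comm]
  have I4 : ∀ σ τ, σ ≠ τ → e σ * e τ = 0 := by
    intro σ τ h
    obtain ⟨x, hx⟩ : ∃ x, σ x ≠ τ x := by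
      by_contra h'
      push Not at h'
      exact h (RingHom.ext h')
    have h1 : σ x • (e σ * e τ) = τ x • (e σ * e τ) := by
      rw [← Matrix.smul_mul, ← I1, Matrix.mul_assoc, I3, Matrix.mul_smul]
    have h2 : (σ x - τ x) • (e σ * e τ) = 0 := by rw [sub_smul, h1, sub_self]
    exact (smul_eq_zero.1 h2).resolve_left (sub_ne_zero.2 hx)
  refine ⟨e, I1, I2, I4, fun σ => ?_, fun σ i j => ?_⟩
  · have h1 : e σ * ∑ τ, e τ = e σ := by rw [I2, Matrix.mul_one]
    rw [Finset.mul_sum, Finset.sum_eq_single σ (fun τ _ h => I4 σ τ (Ne.symm h))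
      (fun h => absurd (Finset.mem_univ σ) h)] at h1
    exact h1
  · rw [he, Matrix.sum_apply]
    refine BasB_algsum _ _ fun k => ?_
    rw [Matrix.smul_apply, smul_eq_mul]
    refine IsAlgebraic.mul ?_ (halg _ _ _)
    have h1 : IsAlgebraic ℚ (b' k) := Algebra.IsAlgebraic.isAlgebraic _
    exact h1.algHom (RingHom.toRatAlgHom σ)

/-- independent rows of a square matrix -/
private theorem BasB_rows {g : ℕ} (e : Matrix (Fin g) (Fin g) ℂ) :
    ∃ (κ : Type) (_ : Fintype κ) (_ : DecidableEq κ) (a : κ → Fin g),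
      LinearIndependent ℂ (fun i => e (a i)) ∧
      ∀ z : Fin g → ℂ, (∀ i, (e *ᵥ z) (a i) = 0) → e *ᵥ z = 0 := by
  classical
  obtain ⟨κ, a, hinj, hspan, hli⟩ := exists_linearIndependent' ℂ (fun k : Fin g => e k)
  have hfin : Finite κ := Finite.of_injective a hinj
  refine ⟨κ, Fintype.ofFinite κ, Classical.decEq κ, a, hli, fun z hz => ?_⟩
  have h1 : ∀ v ∈ Submodule.span ℂ (Set.range fun k : Fin g => e k), v ⬝ᵥ z = 0 := by
    intro v hv
    rw [← hspan] at hv
    induction hv using Submodule.span_induction with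
    | mem x hx =>
      obtain ⟨i, rfl⟩ := hx
      exact hz i
    | zero => exact zero_dotProduct _
    | add x y _ _ hx hy => rw [add_dotProduct, hx, hy, add_zero]
    | smul c x _ hx => rw [smul_dotProduct, hx, smul_zero]
  ext k
  exact h1 (e k) (Submodule.subset_span ⟨k, rfl⟩)

/-- a square root -/
private theorem BasB_root {n : Type} [Fintype n] [DecidableEq n] (M : Matrix n n ℂ)
    (hM : M.PosDef) : ∃ B : Matrix n n ℂ, M = Bᴴ * B ∧ B.det ≠ 0 := by
  obtain ⟨B, hB⟩ := CStarAlgebra.nonneg_iff_eq_star_mul_self.mp hM.posSemidef.nonneg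
  rw [Matrix.star_eq_conjTranspose] at hB
  refine ⟨B, hB, fun h0 => ?_⟩
  have h1 : IsUnit M.det := (Matrix.isUnit_iff_isUnit_det M).1 hM.isUnit
  rw [hB, Matrix.det_mul, h0, mul_zero] at h1
  exact not_isUnit_zero h1

/-- the inverse of a matrix with independent rows and trivial kernel -/
private theorem BasB_inv {g : ℕ} {ι : Type} [Fintype ι] [DecidableEq ι]
    (A : Matrix ι (Fin g) ℂ) (h1 : LinearIndependent ℂ fun p => A p)
    (h2 : ∀ z, A *ᵥ z = 0 → z = 0) : ∃ S : Matrix (Fin g) ι ℂ, A * S = 1 ∧ S * A = 1 := by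
  have hinj : Function.Injective (Matrix.toLin' A) := by
    rw [injective_iff_map_eq_zero]
    intro z hz
    exact h2 z (by simpa using hz)
  have hd : finrank ℂ (Fin g → ℂ) = finrank ℂ (ι → ℂ) := by
    apply le_antisymm
    · exact LinearMap.finrank_le_finrank_of_injective hinj
    · rw [Module.finrank_fintype_fun_eq_card]
      exact h1.fintype_card_le_finrank
  obtain ⟨e, he⟩ : ∃ e : (Fin g → ℂ) ≃ₗ[ℂ] (ι → ℂ), ∀ x, e x = A *ᵥ x :=
    ⟨(Matrix.toLin' A).linearEquivOfInjective hinj hd, fun x => by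
      rw [LinearMap.linearEquivOfInjective_apply, Matrix.toLin'_apply]⟩
  have hA : A = LinearMap.toMatrix' e.toLinearMap := by
    apply (Matrix.toLin').injective
    rw [Matrix.toLin'_toMatrix']
    ext1 x
    ext1
    simp [he]
  refine ⟨LinearMap.toMatrix' e.symm.toLinearMap, ?_, ?_⟩
  · conv_lhs => rw [hA]
    rw [← LinearMap.toMatrix'_comp]
    have : e.toLinearMap ∘ₗ e.symm.toLinearMap = LinearMap.id := by
      ext1 x
      simp
    rw [this, LinearMap.toMatrix'_id]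
  · conv_lhs => rw [hA]
    rw [← LinearMap.toMatrix'_comp]
    have : e.symm.toLinearMap ∘ₗ e.toLinearMap = LinearMap.id := by
      ext1 x
      simp
    rw [this, LinearMap.toMatrix'_id]

/-- the form as a matrix -/
private theorem BasB_form {g : ℕ} (Hm : Matrix (Fin g) (Fin g) ℂ) (z w : Fin g → ℂ) :
    hermForm Hm z w = star w ⬝ᵥ (Hmᵀ *ᵥ z) := by
  unfold hermForm
  simp only [dotProduct, Matrix.mulVec, Matrix.transpose_apply, Finset.mul_sum, Pi.star_apply]
  rw [Finset.sum_comm]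
  refine Finset.sum_congr rfl fun a _ => Finset.sum_congr rfl fun b _ => ?_
  rw [← starRingEnd_apply]
  ring

private theorem BasB_H {ι : Type} [Fintype ι] (x y : ι → ℂ) : H x y = star y ⬝ᵥ x := by
  unfold H
  simp only [dotProduct, Pi.star_apply]
  refine Finset.sum_congr rfl fun a _ => ?_
  rw [← starRingEnd_apply]
  ring

/-- the determinant of a block diagonal matrix -/
private theorem BasB_bd {S : Type} [Fintype S] [DecidableEq S] {κ : S → Type}
    [∀ s, Fintype (κ s)] [∀ s, DecidableEq (κ s)] (B : ∀ s, Matrix (κ s) (κ s) ℂ)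
    (h : ∀ s, (B s).det ≠ 0) : (Matrix.blockDiagonal' B).det ≠ 0 := by
  have h1 : Matrix.blockDiagonal' B * Matrix.blockDiagonal' (fun s => (B s)⁻¹) = 1 := by
    rw [← Matrix.blockDiagonal'_mul, ← Matrix.blockDiagonal'_one]
    congr 1
    funext s
    exact Matrix.mul_nonsing_inv (B s) (Ne.isUnit (h s))
  intro h0
  have h2 := congrArg Matrix.det h1
  rw [Matrix.det_mul, h0, zero_mul, Matrix.det_one] at h2
  exact zero_ne_one h2

theorem thm_BasB : St_BasB := by
  intro g K _ _ c S _ _ φ t Hm W R hG hL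
  obtain ⟨e, eR, esum, emul, eidem, ealg⟩ := BasB_idem K R hL.alg
  choose κ iκ dκ a ha1 ha2 using fun σ : K →+* ℂ => BasB_rows (e σ)
  have hcc := hG.cm.cc
  have hcinv : ∀ (σ : K →+* ℂ) (x : K), σ (c (c x)) = σ x := by
    intro σ x
    rw [← hcc, ← hcc, Complex.conj_conj]
  have hty := hG.ty
  have hφinj : ∀ s s', φ s = φ s' → s = s' := fun s s' h => by
    have := hty.1 (a₁ := Sum.inl s) (a₂ := Sum.inl s') h
    exact Sum.inl.inj this
  have hφinj' : ∀ s s', (φ s).comp c = (φ s').comp c → s = s' := fun s s' h => by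
    have := hty.1 (a₁ := Sum.inr s) (a₂ := Sum.inr s') h
    exact Sum.inr.inj this
  have hφne : ∀ s s', φ s ≠ (φ s').comp c := fun s s' h => by
    have := hty.1 (a₁ := Sum.inl s) (a₂ := Sum.inr s') h
    exact absurd this (by simp)
  -- the rows of all idempotents are independent
  have hli0 : LinearIndependent ℂ fun q : Σ σ, κ σ => e q.1 (a q.1 q.2) := by
    rw [Fintype.linearIndependent_iff]
    intro x hx q
    obtain ⟨σ, k⟩ := q
    have hrow : ∀ (M : Matrix (Fin g) (Fin g) ℂ) (N : Matrix (Fin g) (Fin g) ℂ) (k : Fin g),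
        M k ᵥ* N = (M * N) k := by
      intro M N k
      ext x
      rfl
    have h2 := congrArg (fun v => v ᵥ* e σ) hx
    simp only [Matrix.zero_vecMul, Matrix.sum_vecMul, Matrix.smul_vecMul, hrow] at h2
    rw [Fintype.sum_sigma, Finset.sum_eq_single σ] at h2
    · simp only [eidem] at h2
      exact Fintype.linearIndependent_iff.1 (ha1 σ) _ h2 k
    · intro τ _ hτ
      refine Finset.sum_eq_zero fun k _ => ?_
      rw [emul τ σ hτ]
      ext y
      simp
    · intro h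
      exact absurd (Finset.mem_univ σ) h
  have hker0 : ∀ z, (∀ q : Σ σ, κ σ, (e q.1 *ᵥ z) (a q.1 q.2) = 0) → z = 0 := by
    intro z hz
    have h1 : ∀ σ, e σ *ᵥ z = 0 := fun σ => ha2 σ z fun k => hz ⟨σ, k⟩
    have h3 : (∑ σ, e σ) *ᵥ z = z := by rw [esum, Matrix.one_mulVec]
    rw [← h3, Matrix.sum_mulVec]
    exact Finset.sum_eq_zero fun σ _ => h1 σ
  -- the index sets
  let α : Type := Σ s, κ (φ s)
  let β : Type := Σ s, κ ((φ s).comp c)
  obtain ⟨pl, hpl, hpr⟩ : ∃ pl : α ⊕ β → S, (∀ i, pl (Sum.inl i) = i.1) ∧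
      (∀ j, pl (Sum.inr j) = j.1) :=
    ⟨Sum.elim (fun i => i.1) (fun j => j.1), fun i => rfl, fun j => rfl⟩
  obtain ⟨j, hjl, hjr⟩ : ∃ j : Ix α β Unit → Σ σ, κ σ,
      (∀ i u, j (Sum.inl i, u) = ⟨φ i.1, i.2⟩) ∧
      (∀ i u, j (Sum.inr i, u) = ⟨(φ i.1).comp c, i.2⟩) :=
    ⟨fun p => Sum.elim (fun i => ⟨φ i.1, i.2⟩) (fun i => ⟨(φ i.1).comp c, i.2⟩) p.1,
      fun i u => rfl, fun i u => rfl⟩
  have hjinj : Function.Injective j := by
    rintro ⟨⟨s, k⟩ | ⟨s, k⟩, u⟩ ⟨⟨s', k'⟩ | ⟨s', k'⟩, u'⟩ h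
    · rw [hjl, hjl] at h
      simp only [Sigma.mk.injEq] at h
      obtain ⟨h1, h2⟩ := h
      obtain rfl := hφinj _ _ h1
      obtain rfl := eq_of_heq h2
      rfl
    · rw [hjl, hjr] at h
      simp only [Sigma.mk.injEq] at h
      exact absurd h.1 (hφne _ _)
    · rw [hjl, hjr] at h
      simp only [Sigma.mk.injEq] at h
      exact absurd h.1.symm (hφne _ _)
    · rw [hjr, hjr] at h
      simp only [Sigma.mk.injEq] at h
      obtain ⟨h1, h2⟩ := h
      obtain rfl := hφinj' _ _ h1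
      obtain rfl := eq_of_heq h2
      rfl
  have hjsur : Function.Surjective j := by
    rintro ⟨σ, k⟩
    obtain ⟨s | s, rfl⟩ := hty.2 σ
    · exact ⟨(Sum.inl ⟨s, k⟩, ()), hjl _ _⟩
    · exact ⟨(Sum.inr ⟨s, k⟩, ()), hjr _ _⟩
  obtain ⟨Ta, hTa⟩ : ∃ Ta : Matrix (Ix α β Unit) (Fin g) ℂ,
      ∀ p, Ta p = e (j p).1 (a (j p).1 (j p).2) := ⟨fun p => e (j p).1 (a (j p).1 (j p).2),
        fun p => rfl⟩
  have hli : LinearIndependent ℂ fun p => Ta p := by
    have h1 := hli0.comp j hjinj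
    have h2 : (fun p => Ta p) = (fun q : Σ σ, κ σ => e q.1 (a q.1 q.2)) ∘ j := by
      funext p
      exact hTa p
    rw [h2]
    exact h1
  have hker : ∀ z, Ta *ᵥ z = 0 → z = 0 := by
    intro z hz
    refine hker0 z fun q => ?_
    obtain ⟨p, rfl⟩ := hjsur q
    have h1 := congrFun hz p
    simpa only [Matrix.mulVec, hTa, Pi.zero_apply] using h1
  obtain ⟨S₀, hTS, hST⟩ := BasB_inv Ta hli hker
  -- the action
  obtain ⟨D, hD⟩ : ∃ D : K → Matrix (Ix α β Unit) (Ix α β Unit) ℂ,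
      ∀ x, D x = diagonal fun p => (j p).1 x := ⟨_, fun x => rfl⟩
  have hrg : ∀ x, rgB pl (fun s => φ s x) = D x := by
    intro x
    rw [hD]
    unfold rgB
    congr 1
    funext p
    obtain ⟨⟨s, k⟩ | ⟨s, k⟩, u⟩ := p
    · simp only [Sum.elim_inl, hpl, hjl]
    · simp only [Sum.elim_inr, hpr, hjr, RingHom.comp_apply]
      exact hcc _ _
  have hTR : ∀ x, Ta * R x = D x * Ta := by
    intro x
    ext p y
    rw [hD, Matrix.diagonal_mul]
    have h1 : (Ta * R x) p y = (e (j p).1 * R x) (a (j p).1 (j p).2) y := by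
      rw [Matrix.mul_apply, Matrix.mul_apply, hTa]
    rw [h1, eR, hTa]
    rfl
  have hRS : ∀ x, R x * S₀ = S₀ * D x := by
    intro x
    calc R x * S₀ = (S₀ * Ta) * R x * S₀ := by rw [hST, Matrix.one_mul]
      _ = S₀ * (Ta * R x) * S₀ := by simp only [Matrix.mul_assoc]
      _ = S₀ * (D x * Ta) * S₀ := by rw [hTR]
      _ = S₀ * D x * (Ta * S₀) := by simp only [Matrix.mul_assoc]
      _ = S₀ * D x := by rw [hTS, Matrix.mul_one]
  -- the form
  have hpos := NF4_pos hL.herm hL.pd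
  have hadj : ∀ x, Hmᵀ * R x = (R (c x))ᴴ * Hmᵀ := fun x => NF4_adj (hL.adj x)
  obtain ⟨M, hM⟩ : ∃ M : Matrix (Ix α β Unit) (Ix α β Unit) ℂ, M = S₀ᴴ * Hmᵀ * S₀ := ⟨_, rfl⟩
  have hMpos : M.PosDef := by
    rw [hM]
    refine hpos.conjTranspose_mul_mul_same ?_
    intro x y hxy
    have h1 := congrArg (fun v => Ta *ᵥ v) hxy
    simpa only [Matrix.mulVec_mulVec, hTS, Matrix.one_mulVec] using h1
  have hMD : ∀ x, M * D x = (D (c x))ᴴ * M := by
    intro x
    calc M * D x = S₀ᴴ * Hmᵀ * (S₀ * D x) := by rw [hM]; simp only [Matrix.mul_assoc]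
      _ = S₀ᴴ * (Hmᵀ * R x) * S₀ := by rw [← hRS]; simp only [Matrix.mul_assoc]
      _ = ((S₀ᴴ * (R (c x))ᴴ) * Hmᵀ * S₀) := by
          rw [hadj]
          simp only [Matrix.mul_assoc]
      _ = (((S₀ * D (c x))ᴴ) * Hmᵀ * S₀) := by
          rw [← Matrix.conjTranspose_mul, hRS]
      _ = (D (c x))ᴴ * M := by
          rw [Matrix.conjTranspose_mul, hM]
          simp only [Matrix.mul_assoc]
  have hMD' : ∀ x p q, M p q * (j q).1 x = (j p).1 x * M p q := by
    intro x p q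
    have h1 := congrFun (congrFun (hMD x) p) q
    rw [hD, hD, Matrix.mul_diagonal, Matrix.diagonal_conjTranspose, Matrix.diagonal_mul] at h1
    rw [h1]
    congr 1
    show conj ((j p).1 (c x)) = _
    rw [hcc, hcinv]
  have hoff : ∀ p q, (j p).1 ≠ (j q).1 → M p q = 0 := by
    intro p q hpq
    obtain ⟨x, hx⟩ : ∃ x, (j p).1 x ≠ (j q).1 x := by
      by_contra h'
      push Not at h'
      exact hpq (RingHom.ext h')
    have h1 := hMD' x p q
    have h2 : ((j p).1 x - (j q).1 x) * M p q = 0 := by linear_combination -h1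
    exact (mul_eq_zero.1 h2).resolve_left (sub_ne_zero.2 hx)
  have hroot1 : ∀ s, ∃ B : Matrix (κ (φ s)) (κ (φ s)) ℂ,
      (M.submatrix (fun k : κ (φ s) => ((Sum.inl ⟨s, k⟩, ()) : Ix α β Unit))
        (fun k : κ (φ s) => ((Sum.inl ⟨s, k⟩, ()) : Ix α β Unit))) = Bᴴ * B ∧ B.det ≠ 0 := by
    intro s
    refine BasB_root _ (hMpos.submatrix ?_)
    intro k k' h
    have h1 := congrArg Prod.fst h
    simp only [Sum.inl.injEq, Sum.inr.injEq] at h1
    exact eq_of_heq (Sigma.mk.inj h1).2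
  have hroot2 : ∀ s, ∃ B : Matrix (κ ((φ s).comp c)) (κ ((φ s).comp c)) ℂ,
      (M.submatrix (fun k : κ ((φ s).comp c) => ((Sum.inr ⟨s, k⟩, ()) : Ix α β Unit))
        (fun k : κ ((φ s).comp c) => ((Sum.inr ⟨s, k⟩, ()) : Ix α β Unit))) = Bᴴ * B ∧
        B.det ≠ 0 := by
    intro s
    refine BasB_root _ (hMpos.submatrix ?_)
    intro k k' h
    have h1 := congrArg Prod.fst h
    simp only [Sum.inl.injEq, Sum.inr.injEq] at h1
    exact eq_of_heq (Sigma.mk.inj h1).2
  choose Bp hBp hBpd using hroot1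
  choose Bm hBm hBmd using hroot2
  obtain ⟨Tp, hTp⟩ : ∃ Tp : Matrix α α ℂ, Tp = Matrix.blockDiagonal' Bp := ⟨_, rfl⟩
  obtain ⟨Tm, hTm⟩ : ∃ Tm : Matrix β β ℂ, Tm = Matrix.blockDiagonal' Bm := ⟨_, rfl⟩
  have hTpd : Tp.det ≠ 0 := by
    rw [hTp]
    exact BasB_bd Bp hBpd
  have hTmd : Tm.det ≠ 0 := by
    rw [hTm]
    exact BasB_bd Bm hBmd
  have hTp0 : ∀ i i' : α, i.1 ≠ i'.1 → Tp i i' = 0 := by
    rintro ⟨s, k⟩ ⟨s', k'⟩ h
    rw [hTp]
    exact Matrix.blockDiagonal'_apply_ne _ _ _ h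
  have hTm0 : ∀ i i' : β, i.1 ≠ i'.1 → Tm i i' = 0 := by
    rintro ⟨s, k⟩ ⟨s', k'⟩ h
    rw [hTm]
    exact Matrix.blockDiagonal'_apply_ne _ _ _ h
  have hTpM : ∀ i i' : α, (Tpᴴ * Tp) i i' = M (Sum.inl i, ()) (Sum.inl i', ()) := by
    rintro ⟨s, k⟩ ⟨s', k'⟩
    rw [hTp, Matrix.blockDiagonal'_conjTranspose, ← Matrix.blockDiagonal'_mul]
    by_cases h : s = s'
    · subst h
      rw [Matrix.blockDiagonal'_apply_eq, ← hBp]
      rfl
    · rw [Matrix.blockDiagonal'_apply_ne _ _ _ h]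
      refine (hoff _ _ ?_).symm
      rw [hjl, hjl]
      exact fun h' => h (hφinj _ _ h')
  have hTmM : ∀ i i' : β, (Tmᴴ * Tm) i i' = M (Sum.inr i, ()) (Sum.inr i', ()) := by
    rintro ⟨s, k⟩ ⟨s', k'⟩
    rw [hTm, Matrix.blockDiagonal'_conjTranspose, ← Matrix.blockDiagonal'_mul]
    by_cases h : s = s'
    · subst h
      rw [Matrix.blockDiagonal'_apply_eq, ← hBm]
      rfl
    · rw [Matrix.blockDiagonal'_apply_ne _ _ _ h]
      refine (hoff _ _ ?_).symm
      rw [hjr, hjr]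
      exact fun h' => h (hφinj' _ _ h')
  have hstar : (blk Unit Tp Tm)ᴴ = blk Unit Tpᴴ Tmᴴ := by
    ext p q
    obtain ⟨s | s, u⟩ := p <;> obtain ⟨s' | s', u'⟩ := q <;> simp [blk]
  have hMb : M = (blk Unit Tp Tm)ᴴ * blk Unit Tp Tm := by
    rw [hstar, NF4_blk_mul]
    ext p q
    obtain ⟨s | s, u⟩ := p <;> obtain ⟨s' | s', u'⟩ := q
    · simp only [blk, Matrix.of_apply, if_true, Matrix.fromBlocks_apply₁₁]
      exact (hTpM s s').symm
    · simp only [blk, Matrix.of_apply, if_true, Matrix.fromBlocks_apply₁₂, Matrix.zero_apply]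
      refine hoff _ _ ?_
      rw [hjl, hjr]
      exact hφne _ _
    · simp only [blk, Matrix.of_apply, if_true, Matrix.fromBlocks_apply₂₁, Matrix.zero_apply]
      refine hoff _ _ ?_
      rw [hjl, hjr]
      exact (hφne _ _).symm
    · simp only [blk, Matrix.of_apply, if_true, Matrix.fromBlocks_apply₂₂]
      exact (hTmM s s').symm
  have hbi : blk Unit Tp Tm * blk Unit Tp⁻¹ Tm⁻¹ = 1 := by
    rw [NF4_blk_mul, Matrix.mul_nonsing_inv Tp (Ne.isUnit hTpd),
      Matrix.mul_nonsing_inv Tm (Ne.isUnit hTmd), NF4_blk_one]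
  have hib : blk Unit Tp⁻¹ Tm⁻¹ * blk Unit Tp Tm = 1 := by
    rw [NF4_blk_mul, Matrix.nonsing_inv_mul Tp (Ne.isUnit hTpd),
      Matrix.nonsing_inv_mul Tm (Ne.isUnit hTmd), NF4_blk_one]
  refine ⟨α, β, inferInstance, inferInstance, inferInstance, inferInstance, pl,
    blk Unit Tp Tm * Ta, S₀ * blk Unit Tp⁻¹ Tm⁻¹, Tp, Tm, Ta,
    ⟨?_, ?_, ?_, hTpd, hTmd, ?_, ?_, rfl, ?_, ?_⟩⟩
  · calc blk Unit Tp Tm * Ta * (S₀ * blk Unit Tp⁻¹ Tm⁻¹)
        = blk Unit Tp Tm * (Ta * S₀) * blk Unit Tp⁻¹ Tm⁻¹ := by simp only [Matrix.mul_assoc]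
      _ = 1 := by rw [hTS, Matrix.mul_one, hbi]
  · calc S₀ * blk Unit Tp⁻¹ Tm⁻¹ * (blk Unit Tp Tm * Ta)
        = S₀ * (blk Unit Tp⁻¹ Tm⁻¹ * blk Unit Tp Tm) * Ta := by simp only [Matrix.mul_assoc]
      _ = 1 := by rw [hib, Matrix.mul_one, hST]
  · intro z w
    rw [BasB_form, BasB_H, Matrix.star_mulVec, ← Matrix.dotProduct_mulVec, Matrix.mulVec_mulVec]
    congr 2
    calc Hmᵀ = (S₀ * Ta)ᴴ * Hmᵀ * (S₀ * Ta) := by
          rw [hST, Matrix.conjTranspose_one, Matrix.one_mul, Matrix.mul_one]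
      _ = Taᴴ * M * Ta := by
          rw [Matrix.conjTranspose_mul, hM]
          simp only [Matrix.mul_assoc]
      _ = _ := by
          rw [hMb, Matrix.conjTranspose_mul]
          simp only [Matrix.mul_assoc]
  · intro i i' h
    rw [hpl, hpl] at h
    exact hTp0 i i' h
  · intro i i' h
    rw [hpr, hpr] at h
    exact hTm0 i i' h
  · intro q x
    rw [hTa]
    exact ealg _ _ _
  · intro x z
    rw [Matrix.mulVec_mulVec, Matrix.mulVec_mulVec, hrg]
    congr 1
    have h1 : blk Unit Tp Tm * D x = D x * blk Unit Tp Tm := by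
      rw [hD]
      ext p q
      rw [Matrix.mul_diagonal, Matrix.diagonal_mul]
      by_cases hpq : (j p).1 = (j q).1
      · rw [hpq, mul_comm]
      · have h0 : blk Unit Tp Tm p q = 0 := by
          obtain ⟨s | s, u⟩ := p <;> obtain ⟨s' | s', u'⟩ := q
          · simp only [blk, Matrix.of_apply, if_true, Matrix.fromBlocks_apply₁₁]
            refine hTp0 s s' fun h => hpq ?_
            rw [hjl, hjl]
            exact congrArg φ h
          · simp [blk]
          · simp [blk]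
          · simp only [blk, Matrix.of_apply, if_true, Matrix.fromBlocks_apply₂₂]
            refine hTm0 s s' fun h => hpq ?_
            rw [hjr, hjr]
            exact congrArg (fun s => (φ s).comp c) h
        rw [h0, mul_zero, zero_mul]
    rw [Matrix.mul_assoc, hTR, ← Matrix.mul_assoc, h1, Matrix.mul_assoc]

end WPP
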