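import Pool.Agent.WPP.StC
import Pool.Agent.DWC.PLh

/-!
# WPP: module BndB, the local estimate from the half planes
-/

set_option autoImplicit false

namespace WPP

open scoped ComplexConjugate
open PST DWC

private lemma BndB_deg {κ : Type} [Fintype κ] {P : MvPolynomial κ ℂ} {m : ℕ}
    (hP : P.IsHomogeneous m) {d : κ →₀ ℕ} (hd : d ∈ P.support) : ∑ i, d i = m := by
  have h2 := hP (MvPolynomial.mem_support_iff.1 hd)
  rw [← h2, Finsupp.weight_apply, Finsupp.sum_fintype _ _ (by simp)]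
  simp

private lemma BndB_hom {κ : Type} [Fintype κ] {P : MvPolynomial κ ℂ} {m : ℕ}
    (hP : P.IsHomogeneous m) (c : ℂ) (x y : κ → ℂ) (hxy : ∀ i, x i = c * y i) :
    MvPolynomial.eval x P = c ^ m * MvPolynomial.eval y P := by
  classical
  rw [MvPolynomial.eval_eq', MvPolynomial.eval_eq', Finset.mul_sum]
  refine Finset.sum_congr rfl fun d hd => ?_
  simp only [hxy, mul_pow]
  rw [Finset.prod_mul_distrib, Finset.prod_pow_eq_pow_sum, BndB_deg hP hd]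
  ring

/-- the trivial bound for a homogeneous polynomial -/
private lemma BndB_triv {κ : Type} [Fintype κ] {P : MvPolynomial κ ℂ} {m : ℕ}
    (hP : P.IsHomogeneous m) (x : κ → ℂ) (M : ℝ) (hx : ∀ i, ‖x i‖ ≤ M) :
    ‖MvPolynomial.eval x P‖ ≤ (∑ d ∈ P.support, ‖P.coeff d‖) * M ^ m := by
  classical
  rw [MvPolynomial.eval_eq', Finset.sum_mul]
  refine (norm_sum_le _ _).trans (Finset.sum_le_sum fun d hd => ?_)
  rw [norm_mul, norm_prod]
  refine mul_le_mul_of_nonneg_left ?_ (norm_nonneg _)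
  calc ∏ i, ‖x i ^ d i‖ ≤ ∏ i, M ^ d i := by
        refine Finset.prod_le_prod (fun i _ => norm_nonneg _) fun i _ => ?_
        rw [norm_pow]
        exact pow_le_pow_left₀ (norm_nonneg _) (hx i) _
    _ = M ^ m := by rw [Finset.prod_pow_eq_pow_sum, BndB_deg hP hd]

private lemma BndB_dif {κ : Type} (P : MvPolynomial κ ℂ) (g : κ → ℂ → ℂ) (s : Set ℂ)
    (hg : ∀ i, DifferentiableOn ℂ (g i) s) :
    DifferentiableOn ℂ (fun t => MvPolynomial.eval (fun i => g i t) P) s := by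
  induction P using MvPolynomial.induction_on with
  | C a => simp only [MvPolynomial.eval_C]; exact differentiableOn_const a
  | add p q hp hq => simp only [map_add]; exact hp.fun_add hq
  | mul_X p i hp => simp only [map_mul, MvPolynomial.eval_X]; exact hp.fun_mul (hg i)

private lemma BndB_con {κ : Type} (P : MvPolynomial κ ℂ) (g : κ → ℂ → ℂ) (s : Set ℂ)
    (hg : ∀ i, ContinuousOn (g i) s) :
    ContinuousOn (fun t => MvPolynomial.eval (fun i => g i t) P) s := by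
  induction P using MvPolynomial.induction_on with
  | C a => simp only [MvPolynomial.eval_C]; exact continuousOn_const
  | add p q hp hq => simp only [map_add]; exact hp.add hq
  | mul_X p i hp => simp only [map_mul, MvPolynomial.eval_X]; exact hp.mul (hg i)

/-- `(1 + |t|)² ≤ 2 |t + i|²` on the closed half plane -/
private lemma BndB_num (t : ℂ) (ht : 0 ≤ t.im) : (1 + ‖t‖) ^ 2 ≤ 2 * ‖t + Complex.I‖ ^ 2 := by
  have e1 : ‖t‖ ^ 2 = t.re ^ 2 + t.im ^ 2 := by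
    rw [← Complex.normSq_eq_norm_sq, Complex.normSq_apply]; ring
  have e2 : ‖t + Complex.I‖ ^ 2 = t.re ^ 2 + (t.im + 1) ^ 2 := by
    rw [← Complex.normSq_eq_norm_sq, Complex.normSq_apply]
    simp only [Complex.add_re, Complex.add_im, Complex.I_re, Complex.I_im]
    ring
  have e3 : 2 * ‖t‖ ≤ 1 + ‖t‖ ^ 2 := by nlinarith [sq_nonneg (‖t‖ - 1)]
  rw [e2]
  nlinarith

private lemma BndB_ne (t : ℂ) (ht : 0 ≤ t.im) : t + Complex.I ≠ 0 := by
  intro h
  have h1 := congrArg Complex.im h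
  simp only [Complex.add_im, Complex.I_im, Complex.zero_im] at h1
  linarith

/-- from `a (1 - ρ)^k ≤ C'` and the lower bound of `1 - ρ` to a bound of `a` -/
private lemma BndB_inv (a C C' ρ : ℝ) (k : ℕ) (t : ℂ) (ht : 0 ≤ t.im) (ha : 0 ≤ a) (hρ : ρ < 1)
    (h : a * (1 - ρ) ^ k ≤ C') (h1 : 1 ≤ C * (1 - ρ) * (1 + ‖t‖) ^ 2) :
    a ≤ |C'| * (2 * |C|) ^ k * (‖t + Complex.I‖ ^ 2) ^ k := by
  have hr : 0 < 1 - ρ := by linarith
  have hC : C ≤ |C| := le_abs_self C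
  have h2 : 1 ≤ |C| * (1 - ρ) * (2 * ‖t + Complex.I‖ ^ 2) := by
    calc (1 : ℝ) ≤ C * (1 - ρ) * (1 + ‖t‖) ^ 2 := h1
      _ ≤ |C| * (1 - ρ) * (1 + ‖t‖) ^ 2 := by
        refine mul_le_mul_of_nonneg_right ?_ (by positivity)
        exact mul_le_mul_of_nonneg_right hC hr.le
      _ ≤ |C| * (1 - ρ) * (2 * ‖t + Complex.I‖ ^ 2) :=
        mul_le_mul_of_nonneg_left (BndB_num t ht) (by positivity)
  have h3 : 1 ≤ (|C| * (1 - ρ) * (2 * ‖t + Complex.I‖ ^ 2)) ^ k := one_le_pow₀ h2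
  calc a = a * 1 := (mul_one a).symm
    _ ≤ a * (|C| * (1 - ρ) * (2 * ‖t + Complex.I‖ ^ 2)) ^ k :=
      mul_le_mul_of_nonneg_left h3 ha
    _ = (a * (1 - ρ) ^ k) * ((2 * |C|) ^ k * (‖t + Complex.I‖ ^ 2) ^ k) := by
      have e : |C| * (1 - ρ) * (2 * ‖t + Complex.I‖ ^ 2) =
          (1 - ρ) * ((2 * |C|) * ‖t + Complex.I‖ ^ 2) := by ring
      rw [e, mul_pow (1 - ρ), mul_pow (2 * |C|)]
      ring
    _ ≤ |C'| * ((2 * |C|) ^ k * (‖t + Complex.I‖ ^ 2) ^ k) :=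
      mul_le_mul_of_nonneg_right (h.trans (le_abs_self C')) (by positivity)
    _ = _ := by ring

theorem thm_BndB : St_BndB := by
  intro α β S κ _ _ _ _ _ _ pl K C C' k N f hK hKO hN hf hG hP
  classical
  have h1 : St_PLh := thm_PLh
  rcases K.eq_empty_or_nonempty with hKe | ⟨p₀, hp₀⟩
  · refine ⟨0, fun p hp => ?_⟩
    rw [hKe] at hp
    exact absurd hp (Set.notMem_empty p)
  obtain ⟨b, hb⟩ := hK.exists_bound_of_continuousOn (hN.mono hKO)
  refine ⟨4 ^ k * (Real.exp b * (|C'| * (2 * |C|) ^ k)), fun p hp => ?_⟩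
  obtain ⟨U, hU, hUz⟩ := hP p hp
  refine ⟨U, hU, fun m P hPm B hB w hw => ?_⟩
  obtain ⟨z, hzI, hzd, hzc, hzb, hzr⟩ := hUz w hw
  have hB0 : 0 ≤ B := (norm_nonneg _).trans (hB p₀ hp₀)
  have hzO : ∀ t : ℂ, 0 ≤ t.im → z t ∈ OmB pl := by
    intro t ht
    obtain ⟨ρ, hρ0, hρ1, hzt, _⟩ := hzb t ht
    exact ⟨ρ, hρ0, hρ1, hzt⟩
  -- bounds on the half plane
  have hNb : ∀ t : ℂ, 0 ≤ t.im →
      Real.exp (N (z t)) ≤ |C'| * (2 * |C|) ^ k * (‖t + Complex.I‖ ^ 2) ^ k := by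
    intro t ht
    obtain ⟨ρ, hρ0, hρ1, hzt, hC⟩ := hzb t ht
    exact BndB_inv _ C C' ρ k t ht (Real.exp_pos _).le hρ1 (hG ρ hρ0 hρ1 _ hzt).1 hC
  have hfb : ∀ t : ℂ, 0 ≤ t.im → ∀ i,
      ‖f i (z t)‖ ≤ |C'| * (2 * |C|) ^ k * (‖t + Complex.I‖ ^ 2) ^ k := by
    intro t ht i
    obtain ⟨ρ, hρ0, hρ1, hzt, hC⟩ := hzb t ht
    exact BndB_inv _ C C' ρ k t ht (norm_nonneg _) hρ1 ((hG ρ hρ0 hρ1 _ hzt).2 i) hC
  -- the function
  obtain ⟨h, hh⟩ : ∃ h : ℂ → ℂ, h = fun t =>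
      MvPolynomial.eval (fun i => f i (z t)) P / (t + Complex.I) ^ (2 * k * m) := ⟨_, rfl⟩
  have hpow : ∀ t : ℂ, ‖(t + Complex.I) ^ (2 * k * m)‖ = ((‖t + Complex.I‖ ^ 2) ^ k) ^ m := by
    intro t
    rw [norm_pow, ← pow_mul, ← pow_mul, mul_assoc]
  have hpos : ∀ t : ℂ, 0 ≤ t.im → 0 < ‖(t + Complex.I) ^ (2 * k * m)‖ := fun t ht =>
    norm_pos_iff.2 (pow_ne_zero _ (BndB_ne t ht))
  have hreal : ∀ t : ℝ, ‖h t‖ ≤ (Real.exp b * (|C'| * (2 * |C|) ^ k)) ^ m * B := by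
    intro t
    have ht : (0 : ℝ) ≤ (t : ℂ).im := by simp
    obtain ⟨z', hz', c, hc, hfc⟩ := hzr t
    have hcb : ‖c‖ ≤ (Real.exp b * (|C'| * (2 * |C|) ^ k)) * (‖(t : ℂ) + Complex.I‖ ^ 2) ^ k := by
      have e1 : ‖c‖ * Real.exp (-b) ≤ ‖c‖ * Real.exp (N z') := by
        refine mul_le_mul_of_nonneg_left (Real.exp_le_exp.2 ?_) (norm_nonneg _)
        have := hb z' hz'
        rw [Real.norm_eq_abs] at this
        exact (abs_le.1 this).1
      rw [hc] at e1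
      have e2 : ‖c‖ = ‖c‖ * Real.exp (-b) * Real.exp b := by
        rw [mul_assoc, ← Real.exp_add]
        simp
      rw [e2]
      calc ‖c‖ * Real.exp (-b) * Real.exp b
          ≤ (|C'| * (2 * |C|) ^ k * (‖(t : ℂ) + Complex.I‖ ^ 2) ^ k) * Real.exp b :=
            mul_le_mul_of_nonneg_right (e1.trans (hNb t ht)) (Real.exp_pos _).le
        _ = _ := by ring
    have e3 : MvPolynomial.eval (fun i => f i (z t)) P =
        c ^ m * MvPolynomial.eval (fun i => f i z') P :=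
      BndB_hom hPm c _ _ hfc
    rw [hh]
    show ‖MvPolynomial.eval (fun i => f i (z t)) P / ((t : ℂ) + Complex.I) ^ (2 * k * m)‖ ≤ _
    rw [norm_div, div_le_iff₀ (hpos t ht), e3, norm_mul, norm_pow, hpow]
    calc ‖c‖ ^ m * ‖MvPolynomial.eval (fun i => f i z') P‖
        ≤ ((Real.exp b * (|C'| * (2 * |C|) ^ k)) * (‖(t : ℂ) + Complex.I‖ ^ 2) ^ k) ^ m * B := by
          refine mul_le_mul (pow_le_pow_left₀ (norm_nonneg _) hcb _) (hB z' hz')
            (norm_nonneg _) (by positivity)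
      _ = _ := by rw [mul_pow]; ring
  have hbdd : ∃ B' : ℝ, ∀ t : ℂ, 0 ≤ t.im → ‖h t‖ ≤ B' := by
    refine ⟨(∑ d ∈ P.support, ‖P.coeff d‖) * (|C'| * (2 * |C|) ^ k) ^ m, fun t ht => ?_⟩
    rw [hh]
    show ‖MvPolynomial.eval (fun i => f i (z t)) P / (t + Complex.I) ^ (2 * k * m)‖ ≤ _
    rw [norm_div, div_le_iff₀ (hpos t ht), hpow]
    refine (BndB_triv hPm _ _ (hfb t ht)).trans (le_of_eq ?_)
    rw [mul_pow]
    ring
  have hdif : DifferentiableOn ℂ h {t | 0 < t.im} := by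
    rw [hh]
    refine DifferentiableOn.fun_div (BndB_dif P (fun i t => f i (z t)) _ fun i => ?_) ?_ ?_
    · exact (hf i).comp hzd fun t ht => hzO t (le_of_lt ht)
    · fun_prop
    · intro t ht
      exact pow_ne_zero _ (BndB_ne t (le_of_lt ht))
  have hcon : ContinuousOn h {t | 0 ≤ t.im} := by
    rw [hh]
    refine ContinuousOn.div (BndB_con P (fun i t => f i (z t)) _ fun i => ?_) ?_ ?_
    · exact (hf i).continuousOn.comp hzc fun t ht => hzO t ht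
    · fun_prop
    · intro t ht
      exact pow_ne_zero _ (BndB_ne t ht)
  have hfin := h1 h _ hdif hcon hbdd hreal Complex.I (by simp)
  rw [hh] at hfin
  have hI : (0 : ℝ) ≤ Complex.I.im := by simp
  have hfin2 : ‖MvPolynomial.eval (fun i => f i (z Complex.I)) P /
      (Complex.I + Complex.I) ^ (2 * k * m)‖ ≤
      (Real.exp b * (|C'| * (2 * |C|) ^ k)) ^ m * B := hfin
  rw [norm_div, div_le_iff₀ (hpos _ hI), hpow, hzI] at hfin2
  have hII : ‖Complex.I + Complex.I‖ ^ 2 = 4 := by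
    rw [← two_mul, norm_mul, Complex.norm_I]
    norm_num
  rw [hII] at hfin2
  refine hfin2.trans (le_of_eq ?_)
  rw [mul_pow (4 ^ k)]
  ring

end WPP
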