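import Pool.Agent.WPP.StN

/-!
# WPP: [CMB] complex multiplication at the CM point (helper63)
-/

set_option autoImplicit false

namespace WPP

open scoped ComplexConjugate
open GAM (PLat CMF CMT IsCM)
open Module
open PST DWC

section aux

variable {α β S K : Type} [Field K]

/-- the embedding by which the field acts on the coordinate `p` -/
private def CMB_ty (c : K →+* K) (φ : S → K →+* ℂ) (pl : α ⊕ β → S) (p : α ⊕ β) : K →+* ℂ :=
  Sum.elim φ (fun s => (φ s).comp c)
    (Sum.elim (fun _ => Sum.inl (pl p)) (fun _ => Sum.inr (pl p)) p : S ⊕ S)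

private theorem CMB_vc {c : K →+* K} (hc : CMF K c) (pl : α ⊕ β → S) (φ : S → K →+* ℂ) {n : ℕ}
    (e : α ⊕ β ≃ Fin n × S) (r : α ⊕ β → ℝ) (a : Fin n → K) (p : Ix α β Unit) :
    vc pl φ e r a p = (r p.1 : ℂ) * CMB_ty c φ pl p.1 (a (e p.1).1) := by
  obtain ⟨i | j, u⟩ := p
  · rfl
  · show conj ((r (Sum.inr j) : ℂ) * φ (pl (Sum.inr j)) (a (e (Sum.inr j)).1)) = _
    rw [map_mul, Complex.conj_ofReal, hc.cc]
    rfl

/-- the embeddings are determined by the values and the shifts -/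
private theorem CMB_det {t : K}
    (hgen : ∀ σ σ' : K →+* ℂ, σ t = σ' t → σ = σ') {B : ℕ}
    (hB : ∀ σ : K →+* ℂ, 2 * ‖σ t‖ < B) {N : ℕ} (hN : N ≠ 0) {σ σ' : K →+* ℂ} {j j' : ℕ}
    (h : (N : ℂ) * (σ t + (j : ℂ) * B) = N * (σ' t + (j' : ℂ) * B)) : σ = σ' ∧ j = j' := by
  have h1 : σ t + (j : ℂ) * B = σ' t + (j' : ℂ) * B :=
    mul_left_cancel₀ (Nat.cast_ne_zero.2 hN) h
  have h2 : j = j' := by
    by_contra hne
    have h3 : σ t - σ' t = (((j' : ℤ) - j : ℤ) : ℂ) * B := by
      push_cast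
      linear_combination h1
    have h4 : ‖σ t - σ' t‖ = |(((j' : ℤ) - j : ℤ) : ℝ)| * B := by
      rw [h3, norm_mul, Complex.norm_intCast, Complex.norm_natCast]
    have h5 : (1 : ℝ) ≤ |(((j' : ℤ) - j : ℤ) : ℝ)| := by
      have h6 : (1 : ℤ) ≤ |(j' : ℤ) - j| := Int.one_le_abs (by omega)
      exact_mod_cast h6
    have h6 : ‖σ t - σ' t‖ ≤ ‖σ t‖ + ‖σ' t‖ := norm_sub_le _ _
    have h7 := hB σ
    have h8 := hB σ'
    have h9 : (B : ℝ) ≤ |(((j' : ℤ) - j : ℤ) : ℝ)| * B :=
      le_mul_of_one_le_left (Nat.cast_nonneg B) h5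
    linarith
  subst h2
  exact ⟨hgen _ _ (add_right_cancel h1), rfl⟩

end aux

theorem thm_CMB : St_CMB := by
  intro α β _ _ _ _ K _ _ c S _ _ φ t pl n e r L χ hG hpl hP hL
  have hc := hG.cm
  -- the bound
  obtain ⟨B, hB⟩ : ∃ B : ℕ, ∀ σ : K →+* ℂ, 2 * ‖σ t‖ < B := by
    obtain ⟨B, hB⟩ := exists_nat_gt (∑ σ : K →+* ℂ, 2 * ‖σ t‖)
    refine ⟨B, fun σ => lt_of_le_of_lt ?_ hB⟩
    exact Finset.single_le_sum (f := fun σ : K →+* ℂ => 2 * ‖σ t‖)
      (fun σ _ => by positivity) (Finset.mem_univ σ)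
  -- generators
  obtain ⟨b, hb⟩ := hP.basis
  have hbL : ∀ i, b i ∈ L := fun i => by
    rw [hb]
    exact Submodule.subset_span ⟨i, rfl⟩
  choose a ha using fun i => hL.sub (b i) (hbL i)
  choose M hM0 hM using fun i => hL.com (fun j => (t + ((j : ℕ) : K) * B) * a i j)
  set N : ℕ := ∏ i, M i with hN
  have hN0 : N ≠ 0 := Finset.prod_ne_zero_iff.2 fun i _ => hM0 i
  set τ : α ⊕ β → K →+* ℂ := CMB_ty c φ pl with hτ
  set s : Ix α β Unit → ℂ := fun p =>
    (N : ℂ) * (τ p.1 t + (((e p.1).1 : ℕ) : ℂ) * B) with hs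
  have hsτ : ∀ p : Ix α β Unit, s p = τ p.1 ((N : K) * (t + (((e p.1).1 : ℕ) : K) * B)) := by
    intro p
    rw [hs]
    simp only [map_mul, map_add, map_natCast]
  -- the embeddings of the coordinates
  have hccc : ∀ x, c (c x) = x := by
    intro x
    obtain ⟨σ⟩ : Nonempty (K →+* ℂ) := inferInstance
    apply σ.injective
    rw [← hc.cc, ← hc.cc, Complex.conj_conj]
  have hconj : ∀ p, ∀ x, conj (τ p x) = (τ p).comp c x := fun p x => hc.cc (τ p) x
  have hτeq : ∀ p p', τ p = τ p' → (e p).1 = (e p').1 → p = p' := by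
    intro p p' h1 h2
    have h3 := hG.ty.1 h1
    have h4 : pl p = pl p' := by
      rcases p with p | p <;> rcases p' with p' | p' <;> simp at h3 <;> exact h3
    apply e.injective
    refine Prod.ext h2 ?_
    rw [hpl, hpl, h4]
  have hτne : ∀ p p', (τ p).comp c = τ p' → (e p).1 = (e p').1 → False := by
    intro p p' h1 h2
    have h3 : (τ p).comp c = Sum.elim φ (fun s => (φ s).comp c)
        (Sum.elim (fun _ => Sum.inr (pl p)) (fun _ => Sum.inl (pl p)) p : S ⊕ S) := by
      rcases p with p | p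
      · rfl
      · refine RingHom.ext fun x => ?_
        show φ (pl (Sum.inr p)) (c (c x)) = φ (pl (Sum.inr p)) x
        rw [hccc]
    rw [h3] at h1
    have h4 := hG.ty.1 h1
    have h5 : pl p = pl p' := by
      rcases p with p | p <;> rcases p' with p' | p' <;> simp at h4 <;> exact h4
    have h6 : p = p' := by
      apply e.injective
      refine Prod.ext h2 ?_
      rw [hpl, hpl, h5]
    subst h6
    rcases p with p | p <;> simp at h4
  refine ⟨s, ?_, ?_, ?_, ?_⟩
  · intro p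
    rw [hsτ]
    exact (Algebra.IsAlgebraic.isAlgebraic (R := ℚ) ((N : K) *
      (t + (((e p.1).1 : ℕ) : K) * B))).algHom (τ p.1).toRatAlgHom
  · -- stability of the lattice
    intro l hl
    let D : (Ix α β Unit → ℂ) →ₗ[ℤ] (Ix α β Unit → ℂ) :=
      { toFun := fun l p => s p * l p
        map_add' := fun x y => by
          funext p
          show s p * (x p + y p) = s p * x p + s p * y p
          ring
        map_smul' := fun m x => by
          funext p
          show s p * (m • x p) = m • (s p * x p)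
          rw [zsmul_eq_mul, zsmul_eq_mul]
          ring }
    have hD : L ≤ L.comap D := by
      conv_lhs => rw [hb]
      rw [Submodule.span_le]
      rintro _ ⟨i, rfl⟩
      show D (b i) ∈ L
      obtain ⟨k, hk⟩ := Finset.dvd_prod_of_mem M (Finset.mem_univ i)
      have h1 : D (b i) = (k : ℤ) • ((M i : ℤ) •
          vc pl φ e r (fun j => (t + ((j : ℕ) : K) * B) * a i j)) := by
        funext p
        show s p * b i p = (k : ℤ) • ((M i : ℤ) •
          vc pl φ e r (fun j => (t + ((j : ℕ) : K) * B) * a i j) p)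
        rw [ha i, CMB_vc hc, CMB_vc hc, hs]
        simp only [zsmul_eq_mul, map_mul, map_add, map_natCast]
        have h2 : (N : ℂ) = (M i : ℂ) * k := by
          rw [hN, hk]
          push_cast
          ring
        rw [h2]
        push_cast
        ring
      rw [h1]
      exact L.smul_mem _ (hM i)
    exact hD hl
  · intro p p' hpp h
    obtain ⟨h1, h2⟩ := CMB_det hG.gen hB hN0 h
    exact hpp (Prod.ext (hτeq p.1 p'.1 h1 (Fin.ext h2)) rfl)
  · intro p p' h
    have h3 : conj (s p) = (N : ℂ) * ((τ p.1).comp c t + (((e p.1).1 : ℕ) : ℂ) * B) := by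
      rw [hs]
      simp only [map_mul, map_add, Complex.conj_natCast, hconj]
    rw [h3] at h
    obtain ⟨h1, h2⟩ := CMB_det hG.gen hB hN0 h
    exact hτne p.1 p'.1 h1 (Fin.ext h2)

end WPP
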