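import Pool.Agent.WPP.StC
import Pool.Agent.PST.Core

/-!
# WPP [CoreB]: the core theorem for one place of the product domain
-/

set_option autoImplicit false

namespace WPP

open scoped ComplexConjugate
open GAM (H E F pd pdl PLat IsTh OddTor IsDel Gro IsLat)
open PST DWC

section

variable {α β μ S : Type} [Fintype α] [Fintype β] [Fintype μ]
  [DecidableEq α] [DecidableEq β] [DecidableEq μ] [DecidableEq S] {pl : α ⊕ β → S}

lemma CoreB_psiD (h10 : St_EllS) {L : Submodule ℤ (Ix α β μ → ℂ)} {χ θ : (Ix α β μ → ℂ) → ℂ}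
    (hL : PLat L χ) (hθ : IsTh L χ θ) (x : Ix α β μ → ℂ) :
    DifferentiableOn ℂ (fun w : Ga pl → ℂ => psi θ (ex0 pl w) x) (OmB pl) :=
  (h10 α β μ S pl (F θ x) (Core_gro hL hθ x)).1

lemma CoreB_dpsiD (h10 : St_EllS) {L : Submodule ℤ (Ix α β μ → ℂ)} {χ θ : (Ix α β μ → ℂ) → ℂ}
    (hL : PLat L χ) (hθ : IsTh L χ θ) (p : Ix α β μ) (x : Ix α β μ → ℂ) :
    DifferentiableOn ℂ (fun w : Ga pl → ℂ => dpsi p θ (ex0 pl w) x) (OmB pl) :=
  (h10 α β μ S pl (pd p (F θ x)) (Core_groD hL hθ p x)).1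

lemma CoreB_XFD (h10 : St_EllS) {L : Submodule ℤ (Ix α β μ → ℂ)} {χ θ : (Ix α β μ → ℂ) → ℂ}
    (hL : PLat L χ) (hθ : IsTh L χ θ) (s : S) (e : ℕ) (k : μ) (y : Option (Ga pl) → Ix α β μ → ℂ)
    (x : Pa pl s → Ix α β μ → ℂ) (x' : Pb pl s → Ix α β μ → ℂ) (o : Option (Option (Ga pl))) :
    DifferentiableOn ℂ (fun w => XFB pl s e k θ y x x' w o) (OmB pl) := by
  have hp := fun t => CoreB_psiD (pl := pl) h10 hL hθ t
  rcases o with _ | i
  · have h1 : DifferentiableOn ℂ (fun w : Ga pl → ℂ => fpB pl s k θ (ex0 pl w) x) (OmB pl) :=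
      Core_det (fun (i b : Pa pl s) (w : Ga pl → ℂ) => dpsi (Sum.inl i.1, k) θ (ex0 pl w) (x b))
        fun i b => CoreB_dpsiD h10 hL hθ _ _
    exact ((hp _).fun_mul ((hp _).fun_pow _)).fun_mul (h1.fun_pow _)
  · have h1 : DifferentiableOn ℂ (fun w : Ga pl → ℂ => fmB pl s k θ (ex0 pl w) x') (OmB pl) :=
      Core_det (fun (i b : Pb pl s) (w : Ga pl → ℂ) => dpsi (Sum.inr i.1, k) θ (ex0 pl w) (x' b))
        fun i b => CoreB_dpsiD h10 hL hθ _ _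
    exact ((hp _).fun_mul ((hp _).fun_pow _)).fun_mul (h1.fun_pow _)

lemma CoreB_id (h11 : St_OmBT) {f : (Ga pl → ℂ) → ℂ} (hf : DifferentiableOn ℂ f (OmB pl))
    (h : ∀ᶠ w in nhds 0, f w = 0) {w : Ga pl → ℂ} (hw : w ∈ OmB pl) : f w = 0 := by
  obtain ⟨hO, hC, h0, -⟩ := h11 α β S pl
  have hGa := GAM.analyticOnNhd_of_differentiableOn hO hf
  exact hGa.eqOn_zero_of_preconnected_of_eventuallyEq_zero hC.isPreconnected h0 h hw

lemma CoreB_mob1 (h11 : St_OmBT) (w : Ga pl → ℂ) :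
    mobB pl (1 : Matrix (α ⊕ β) (α ⊕ β) ℂ) w = w := by
  unfold mobB
  rw [Core_mob1]
  exact (h11 α β S pl).2.2.2.2.2.2.1 w

end

theorem thm_CoreB (h1 : St_RelB) (h2 : St_PtsB) (h3 : St_DelB) (h4 : PST.St_DelPG)
    (h5 : PST.St_DelGR) (h6 : St_EquB) (h7 : PST.St_UGr) (h8 : St_MobB) (h9 : St_GrB)
    (h10 : St_EllS) (h11 : St_OmBT) : St_CoreB := by
  intro α β μ S _ _ _ _ _ _ _ _ pl s δ g L₀ L₁ χ₀ θ₀ χ₁ θ₁ e k₀ k₁ Bp₀ Bp₁ Bm₀ Bm₁ c₀ c₁ hμ he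
    hL₀ hL₁ hθ₀ hθ₁ hn₀ hn₁ hM hBg hdg hC hb₀ hb₁ hE₀ hE₁
  obtain ⟨k⟩ := hμ
  have hU := hM.uni
  obtain ⟨hiU, hig, hgi, hdet1, -⟩ := (h7 α β μ).2.2.2.2.2.1 g hU
  set gi : Matrix (α ⊕ β) (α ⊕ β) ℂ := Jm α β * g.conjTranspose * Jm α β with hgi'
  have hdg0 : dt pl s g ≠ 0 := by
    intro h
    have hd := (h9 α β S pl).2.2.2.2.1 g hBg hU s
    rw [h, norm_zero] at hd
    exact zero_ne_one hd
  have hBi : IsB pl gi := (h9 α β S pl).2.2.2.1 g hBg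
  obtain ⟨y, x, x', hy, hx, hx', hpsi, hfp, hfm, hdet⟩ := h2 α β μ S pl s L₀ χ₀ θ₀ k hL₀ hθ₀ hn₀
  obtain ⟨m, P, hPm, hP, z₁, hz₁, hPz₁⟩ := h1 α β μ S pl s L₀ χ₀ θ₀ e k y x x' hL₀ hθ₀ hn₀ hC
    hy hx hx' hpsi hfp hfm hdet
  obtain ⟨K₀, Ξ₀, hB₀⟩ := h3 α β μ S pl s δ L₀ χ₀ θ₀ k₀ Bp₀ Bm₀ c₀ e k hL₀ hθ₀ hb₀ hE₀
  obtain ⟨K₁, Ξ₁, hB₁⟩ := h3 α β μ S pl s δ L₁ χ₁ θ₁ k₁ Bp₁ Bm₁ c₁ e k hL₁ hθ₁ hb₁ hE₁
  obtain ⟨hO, hCv, h0, -, -, -, -, hex0, -⟩ := h11 α β S pl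
  -- the two systems of functions
  set f₀ : Option (Option (Ga pl)) → (Ga pl → ℂ) → ℂ := fun o w => XFB pl s e k θ₀ y x x' w o with hf₀
  set X₁ : Option (Option (Ga pl)) → (Ga pl → ℂ) → ℂ := fun o w =>
    XFB pl s e k θ₁ (fun i => act gi (y i)) (fun i => act gi (x i)) (fun i => act gi (x' i)) w o with hX₁
  set ce : Option (Option (Ga pl)) → ℂ := fun o => if o = none then (dt pl s g ^ e)⁻¹ else 1 with hce
  set f₁ : Option (Option (Ga pl)) → (Ga pl → ℂ) → ℂ := fun o w => ce o * X₁ o w with hf₁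
  have hdce : ∀ o, δ (ce o) = 0 := by
    intro o
    simp only [hce]
    split_ifs
    · exact Core_delc δ hdg e
    · exact Derivation.map_one_eq_zero δ
  have hf₀D : ∀ o, DifferentiableOn ℂ (f₀ o) (OmB pl) := fun o =>
    CoreB_XFD h10 hL₀ hθ₀ s e k y x x' o
  have hf₁D : ∀ o, DifferentiableOn ℂ (f₁ o) (OmB pl) := fun o =>
    (differentiableOn_const _).fun_mul (CoreB_XFD h10 hL₁ hθ₁ s e k _ _ _ o)
  -- comparison
  have hj : ∀ w ∈ OmB pl, ∃ j : ℂ, j ≠ 0 ∧ ∀ o, f₀ o (mobB pl g w) = j * f₁ o w := by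
    intro w hw
    obtain ⟨j, mp, mm, hj0, hmpm, hjp, hjf, hjm⟩ := h6 α β μ S pl g L₀ L₁ χ₀ θ₀ χ₁ θ₁ hL₀ hL₁
      hθ₀ hθ₁ hn₀ hn₁ hM hBg w hw
    obtain ⟨hmp, hmm, hpm⟩ := hmpm s
    have hq : ∀ t, psi θ₀ (ex0 pl (mobB pl g w)) t = j * psi θ₁ (ex0 pl w) (act gi t) := by
      intro t
      rw [← hjp, Core_act h7 hU]
    have hqp : mp s * fpB pl s k θ₀ (ex0 pl (mobB pl g w)) x =
        j ^ Fintype.card (Pa pl s) * fpB pl s k θ₁ (ex0 pl w) fun i => act gi (x i) := by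
      rw [← hjf]
      simp only [hgi', Core_act h7 hU]
    have hqm : mm s * fmB pl s k θ₀ (ex0 pl (mobB pl g w)) x' =
        j ^ Fintype.card (Pb pl s) * fmB pl s k θ₁ (ex0 pl w) fun i => act gi (x' i) := by
      rw [← hjm]
      simp only [hgi', Core_act h7 hU]
    refine ⟨j ^ (1 + e * (Fintype.card (Pa pl s) + Fintype.card (Pb pl s))) / mm s ^ e,
      div_ne_zero (pow_ne_zero _ hj0) (pow_ne_zero _ hmm), fun o => ?_⟩
    have hqp' : fpB pl s k θ₀ (ex0 pl (mobB pl g w)) x =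
        j ^ Fintype.card (Pa pl s) * (fpB pl s k θ₁ (ex0 pl w) fun i => act gi (x i)) / mp s := by
      rw [← hqp]; field_simp
    have hqm' : fmB pl s k θ₀ (ex0 pl (mobB pl g w)) x' =
        j ^ Fintype.card (Pb pl s) * (fmB pl s k θ₁ (ex0 pl w) fun i => act gi (x' i)) / mm s := by
      rw [← hqm]; field_simp
    rcases o with _ | i
    · simp only [hf₀, hf₁, hX₁, hce, XFB, if_true, hq]
      rw [hqp', hpm]
      exact Core_alg j _ _ _ (mm s) (dt pl s g) e _ _ hmm hdg0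
    · simp only [hf₀, hf₁, hX₁, hce, XFB, hq]
      rw [hqm']
      simp only [reduceCtorEq, if_false]
      exact Core_alg2 j _ _ _ (mm s) e _ _ hmm
  have hP1 : ∀ w ∈ OmB pl, MvPolynomial.eval (fun i => f₁ i w) P = 0 := by
    intro w hw
    obtain ⟨j, hj0, hj1⟩ := hj w hw
    have h13 := hP (mobB pl g w) (h8 α β S pl g hU hBg w hw).1
    have h14 := GAM.Core_hom hPm j (fun i => f₀ i (mobB pl g w)) (fun i => f₁ i w) hj1
    have h15 : MvPolynomial.eval (fun i => f₀ i (mobB pl g w)) P = 0 := h13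
    rw [h14] at h15
    exact (mul_eq_zero.1 h15).resolve_left (pow_ne_zero m hj0)
  have hIO : OmB pl ∈ nhds (0 : Ga pl → ℂ) := hO.mem_nhds h0
  have hd₀ := h4 (Ga pl) (Option (Ga pl)) δ f₀ K₀ Ξ₀ (e * trA pl s Bp₀) (e * trB pl s Bm₀) m P hPm
    (fun o => hB₀ y x x' hy hx hx' o) (by
      filter_upwards [hIO] with w hw using hP w hw)
  have hd₁ := h4 (Ga pl) (Option (Ga pl)) δ f₁ K₁ Ξ₁ (e * trA pl s Bp₁) (e * trB pl s Bm₁) m P hPm
    (fun o => Core_cm h5 (hdce o) (hB₁ (fun i => act gi (y i)) (fun i => act gi (x i))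
      (fun i => act gi (x' i)) (fun i => Core_odd h7 hM (hy i)) (fun i => Core_odd h7 hM (hx i))
      (fun i => Core_odd h7 hM (hx' i)) o)) (by
      filter_upwards [hIO] with w hw using hP1 w hw)
  have hext : ∀ (f : Option (Option (Ga pl)) → (Ga pl → ℂ) → ℂ) (a : ℂ),
      (∀ o, DifferentiableOn ℂ (f o) (OmB pl)) →
      (∀ᶠ z in nhds 0, (∑ m ∈ P.support, δ (P.coeff m) * MvPolynomial.eval (fun i => f i z)
        (MvPolynomial.monomial m 1)) +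
        a * (f none z * MvPolynomial.eval (fun i => f i z) (MvPolynomial.pderiv none P)) = 0) →
      ∀ z ∈ OmB pl, (∑ m ∈ P.support, δ (P.coeff m) * MvPolynomial.eval (fun i => f i z)
        (MvPolynomial.monomial m 1)) +
        a * (f none z * MvPolynomial.eval (fun i => f i z) (MvPolynomial.pderiv none P)) = 0 := by
    intro f a hf hz z hzO
    refine CoreB_id h11 ?_ hz hzO
    refine DifferentiableOn.fun_add (DifferentiableOn.fun_sum fun d _ =>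
      (differentiableOn_const _).fun_mul (Core_evD _ f hf)) ?_
    exact (differentiableOn_const _).fun_mul ((hf none).fun_mul (Core_evD _ f hf))
  have hA := hext f₀ _ hf₀D hd₀
  have hB := hext f₁ _ hf₁D hd₁
  by_contra hne
  have he0 : (e : ℂ) ≠ 0 := by exact_mod_cast he
  have hne' : (e * trA pl s Bp₀ - e * trB pl s Bm₀ - (e * trA pl s Bp₁ - e * trB pl s Bm₁) : ℂ) ≠ 0 := by
    intro h
    apply hne
    have : (e : ℂ) * ((trA pl s Bp₀ - trB pl s Bm₀) - (trA pl s Bp₁ - trB pl s Bm₁)) = 0 := by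
      linear_combination h
    exact sub_eq_zero.1 ((mul_eq_zero.1 this).resolve_left he0)
  have hR1 : ∀ w ∈ OmB pl, f₁ none w *
      MvPolynomial.eval (fun i => f₁ i w) (MvPolynomial.pderiv none P) = 0 := by
    intro w hw
    obtain ⟨j, hj0, hj1⟩ := hj w hw
    have h13 := hA (mobB pl g w) (h8 α β S pl g hU hBg w hw).1
    have h14 := GAM.Core_mon hPm δ j (fun i => f₀ i (mobB pl g w)) (fun i => f₁ i w) hj1
    have h15 := Core_homN hPm j (fun i => f₀ i (mobB pl g w)) (fun i => f₁ i w) hj1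
    rw [h14, h15] at h13
    have h16 := hB w hw
    have h17 : j ^ m * ((e * trA pl s Bp₀ - e * trB pl s Bm₀ - (e * trA pl s Bp₁ - e * trB pl s Bm₁) : ℂ) *
        (f₁ none w * MvPolynomial.eval (fun i => f₁ i w) (MvPolynomial.pderiv none P))) = 0 := by
      linear_combination h13 - j ^ m * h16
    rcases mul_eq_zero.1 h17 with h18 | h18
    · exact absurd h18 (pow_ne_zero m hj0)
    · exact (mul_eq_zero.1 h18).resolve_left hne'
  have hR0 : ∀ w ∈ OmB pl, f₀ none w *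
      MvPolynomial.eval (fun i => f₀ i w) (MvPolynomial.pderiv none P) = 0 := by
    intro w hw
    have h13 := h8 α β S pl gi hiU hBi w hw
    have hw' := h13.1
    have h14 : mobB pl g (mobB pl gi w) = w := by
      rw [← h13.2.2.2.2.2 g hU hBg, hgi, CoreB_mob1 h11]
    obtain ⟨j, hj0, hj1⟩ := hj _ hw'
    rw [h14] at hj1
    have h15 := Core_homN hPm j (fun i => f₀ i w) (fun i => f₁ i (mobB pl gi w)) hj1
    rw [h15, hR1 _ hw', mul_zero]
  have h30 : f₀ none 0 ≠ 0 := by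
    have h31 : f₀ none 0 = psi θ₀ (ex0 pl 0) (y none) *
      psi θ₀ (ex0 pl 0) (y none) ^ (e * Fintype.card (Pb pl s)) *
      fpB pl s k θ₀ (ex0 pl 0) x ^ e := rfl
    rw [h31, hex0]
    exact mul_ne_zero (mul_ne_zero hpsi (pow_ne_zero _ hpsi)) (pow_ne_zero _ hfp)
  have hc3 : ContinuousAt (f₀ none) 0 := ((hf₀D none).continuousOn).continuousAt hIO
  have hev : ∀ᶠ z in nhds (0 : Ga pl → ℂ),
      MvPolynomial.eval (fun i => f₀ i z) (MvPolynomial.pderiv none P) = 0 := by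
    filter_upwards [hc3.eventually_ne h30, hIO] with z hz1 hz2
    exact (mul_eq_zero.1 (hR0 z hz2)).resolve_left hz1
  exact hPz₁ (CoreB_id h11 (Core_evD _ f₀ hf₀D) hev hz₁)

end WPP
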