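import Pool.Agent.WPP.StC
import Pool.Agent.PST.All

/-!
# WPP [DelB]: the action of `δ` on the functions `XFB`
-/

set_option autoImplicit false

namespace WPP

open scoped ComplexConjugate
open GAM (H E F pd pdl PLat IsTh OddTor IsDel Gro IsLat)
open PST DWC

section ex

variable {α β S : Type} [Fintype α] [Fintype β] [DecidableEq α] [DecidableEq β] [DecidableEq S]

/-- Extension by zero as a continuous linear map. -/
noncomputable def DelB_L (pl : α ⊕ β → S) : (Ga pl → ℂ) →L[ℂ] (α × β → ℂ) :=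
  LinearMap.toContinuousLinearMap
    { toFun := ex0 pl
      map_add' := by
        intro w w'
        funext p
        simp only [ex0, Pi.add_apply]
        split_ifs
        · rfl
        · rw [add_zero]
      map_smul' := by
        intro c w
        funext p
        simp only [ex0, Pi.smul_apply, RingHom.id_apply, smul_eq_mul]
        split_ifs
        · rfl
        · rw [mul_zero] }

lemma DelB_L_apply (pl : α ⊕ β → S) (w : Ga pl → ℂ) : DelB_L pl w = ex0 pl w := rfl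

lemma DelB_ex_out (pl : α ⊕ β → S) (w : Ga pl → ℂ) {i : α} {j : β}
    (h : pl (Sum.inl i) ≠ pl (Sum.inr j)) : ex0 pl w (i, j) = 0 := dif_neg h

lemma DelB_ex_single (pl : α ⊕ β → S) (p : Ga pl) :
    ex0 pl (Pi.single p (1 : ℂ)) = Pi.single p.1 1 := by
  funext q
  unfold ex0
  by_cases hq : pl (Sum.inl q.1) = pl (Sum.inr q.2)
  · rw [dif_pos hq]
    by_cases h1 : q = p.1
    · subst h1
      have h3 : (⟨p.1, hq⟩ : Ga pl) = p := rfl
      rw [h3, Pi.single_eq_same, Pi.single_eq_same]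
    · rw [Pi.single_eq_of_ne h1, Pi.single_eq_of_ne]
      intro h2
      exact h1 (congrArg Subtype.val h2)
  · rw [dif_neg hq, Pi.single_eq_of_ne]
    rintro rfl
    exact hq p.2

lemma DelB_pd (pl : α ⊕ β → S) {a : (α × β → ℂ) → ℂ} {w : Ga pl → ℂ}
    (ha : AnalyticAt ℂ a (ex0 pl w)) (p : Ga pl) :
    pd p (fun w => a (ex0 pl w)) w = pd p.1 a (ex0 pl w) := by
  have h1 : HasFDerivAt (fun w : Ga pl → ℂ => a (ex0 pl w))
      ((fderiv ℂ a (ex0 pl w)).comp (DelB_L pl)) w := by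
    have h2 := ha.differentiableAt.hasFDerivAt
    exact HasFDerivAt.comp w h2 (DelB_L pl).hasFDerivAt
  unfold GAM.pd
  rw [h1.fderiv]
  change fderiv ℂ a (ex0 pl w) (ex0 pl (Pi.single p 1)) = _
  rw [DelB_ex_single]

lemma DelB_nhds (pl : α ⊕ β → S) {P : (α × β → ℂ) → Prop} (h : ∀ᶠ w in nhds 0, P w) :
    ∀ᶠ w in nhds (0 : Ga pl → ℂ), P (ex0 pl w) := by
  have h1 : Filter.Tendsto (DelB_L pl) (nhds 0) (nhds (DelB_L pl 0)) :=
    (DelB_L pl).continuous.tendsto 0
  rw [map_zero] at h1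
  exact h1 h

/-- Sums over the coordinates of the product domain. -/
lemma DelB_sum (pl : α ⊕ β → S) (f : α × β → ℂ)
    (h : ∀ p : α × β, pl (Sum.inl p.1) ≠ pl (Sum.inr p.2) → f p = 0) :
    ∑ p, f p = ∑ p : Ga pl, f p.1 := by
  classical
  have h1 : ∑ p, f p = ∑ p ∈ Finset.univ.filter
      (fun p : α × β => pl (Sum.inl p.1) = pl (Sum.inr p.2)), f p := by
    symm
    refine Finset.sum_filter_of_ne fun p _ hp => ?_
    by_contra h2
    exact hp (h p h2)
  rw [h1]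
  exact Finset.sum_subtype _ (fun p => by simp) f

lemma DelB_sumA (pl : α ⊕ β → S) (s : S) (f : α → ℂ)
    (h : ∀ i, pl (Sum.inl i) ≠ s → f i = 0) :
    ∑ i, f i = ∑ i : Pa pl s, f i.1 := by
  classical
  have h1 : ∑ i, f i = ∑ i ∈ Finset.univ.filter (fun i : α => pl (Sum.inl i) = s), f i := by
    symm
    refine Finset.sum_filter_of_ne fun p _ hp => ?_
    by_contra h2
    exact hp (h p h2)
  rw [h1]
  exact Finset.sum_subtype _ (fun p => by simp) f

lemma DelB_sumB (pl : α ⊕ β → S) (s : S) (f : β → ℂ)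
    (h : ∀ j, pl (Sum.inr j) ≠ s → f j = 0) :
    ∑ j, f j = ∑ j : Pb pl s, f j.1 := by
  classical
  have h1 : ∑ i, f i = ∑ i ∈ Finset.univ.filter (fun i : β => pl (Sum.inr i) = s), f i := by
    symm
    refine Finset.sum_filter_of_ne fun p _ hp => ?_
    by_contra h2
    exact hp (h p h2)
  rw [h1]
  exact Finset.sum_subtype _ (fun p => by simp) f

/-- The vector field of a block diagonal operator. -/
lemma DelB_Xi (pl : α ⊕ β → S) (δ : Derivation ℚ ℂ ℂ) {Bp : Matrix α α ℂ} {Bm : Matrix β β ℂ}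
    {c : Matrix α β ℂ} (hB : Bds pl Bp Bm c) (w : Ga pl → ℂ) (p : α × β)
    (hp : pl (Sum.inl p.1) ≠ pl (Sum.inr p.2)) :
    DelX_Xi δ Bp Bm c p (ex0 pl w) = 0 := by
  have h0 : ex0 pl w p = 0 := dif_neg hp
  unfold DelX_Xi xi
  rw [h0, mul_zero, sub_zero]
  have h1 : ∑ i, Bp p.1 i * ex0 pl w (i, p.2) = 0 := by
    refine Finset.sum_eq_zero fun i _ => ?_
    by_cases h2 : pl (Sum.inl p.1) = pl (Sum.inl i)
    · rw [DelB_ex_out pl w (by rw [← h2]; exact hp), mul_zero]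
    · rw [hB.bp _ _ h2, zero_mul]
  have h2 : ∑ j, Bm p.2 j * ex0 pl w (p.1, j) = 0 := by
    refine Finset.sum_eq_zero fun j _ => ?_
    by_cases h2 : pl (Sum.inr p.2) = pl (Sum.inr j)
    · rw [DelB_ex_out pl w (by rw [← h2]; exact hp), mul_zero]
    · rw [hB.bm _ _ h2, zero_mul]
  have h3 : ∑ i, ∑ j, c i j * ex0 pl w (i, p.2) * ex0 pl w (p.1, j) = 0 := by
    refine Finset.sum_eq_zero fun i _ => Finset.sum_eq_zero fun j _ => ?_
    by_cases h3 : pl (Sum.inl i) = pl (Sum.inr j)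
    · by_cases h4 : pl (Sum.inl p.1) = pl (Sum.inr j)
      · rw [DelB_ex_out pl w (i := i) (j := p.2) (by rw [h3, ← h4]; exact hp), mul_zero, zero_mul]
      · rw [DelB_ex_out pl w h4, mul_zero]
    · rw [hB.bc _ _ h3, zero_mul, zero_mul]
  rw [h1, h2, h3, mul_zero, add_zero, add_zero]

/-- Restriction of a relation to the product domain. -/
lemma DelB_res (hS : St_DelS) (pl : α ⊕ β → S) {δ : Derivation ℚ ℂ ℂ} {Bp : Matrix α α ℂ}
    {Bm : Matrix β β ℂ} {c : Matrix α β ℂ} (hB : Bds pl Bp Bm c) {r a R : (α × β → ℂ) → ℂ}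
    {R' : (Ga pl → ℂ) → ℂ}
    (h : IsDelG δ a fun w => r w * a w + ∑ p, DelX_Xi δ Bp Bm c p w * pd p a w + R w)
    (hR : ∀ᶠ w in nhds (0 : Ga pl → ℂ), R (ex0 pl w) = R' w) :
    IsDelG δ (fun w => a (ex0 pl w)) fun w => r (ex0 pl w) * a (ex0 pl w) +
      ∑ p : Ga pl, DelX_Xi δ Bp Bm c p.1 (ex0 pl w) * pd p (fun w => a (ex0 pl w)) w + R' w := by
  refine DelX_congr (hS α β S pl δ _ _ h) Filter.EventuallyEq.rfl ?_
  filter_upwards [hR, DelB_nhds pl h.an.eventually_analyticAt] with w h1 h2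
  rw [h1]
  congr 2
  rw [DelB_sum pl (fun p => DelX_Xi δ Bp Bm c p (ex0 pl w) * pd p a (ex0 pl w))
    (fun p hp => by rw [DelB_Xi pl δ hB w p hp, zero_mul])]
  refine Finset.sum_congr rfl fun p _ => ?_
  rw [DelB_pd pl h2]

lemma DelB_Np (pl : α ⊕ β → S) {Bp : Matrix α α ℂ} {Bm : Matrix β β ℂ}
    {c : Matrix α β ℂ} (hB : Bds pl Bp Bm c) (w : Ga pl → ℂ) {i i' : α}
    (h : pl (Sum.inl i') ≠ pl (Sum.inl i)) : DelX_Np Bp c (ex0 pl w) i' i = 0 := by
  unfold DelX_Np
  rw [Matrix.of_apply, hB.bp _ _ h, zero_add]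
  rw [Finset.sum_eq_zero, mul_zero]
  intro j _
  by_cases h1 : pl (Sum.inl i) = pl (Sum.inr j)
  · rw [DelB_ex_out pl w (by rw [← h1]; exact h), mul_zero]
  · rw [hB.bc _ _ h1, zero_mul]

lemma DelB_Nm (pl : α ⊕ β → S) {Bp : Matrix α α ℂ} {Bm : Matrix β β ℂ}
    {c : Matrix α β ℂ} (hB : Bds pl Bp Bm c) (w : Ga pl → ℂ) {i i' : β}
    (h : pl (Sum.inr i') ≠ pl (Sum.inr i)) : DelX_Nm Bm c (ex0 pl w) i' i = 0 := by
  unfold DelX_Nm
  rw [Matrix.of_apply, hB.bm _ _ h, zero_add]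
  rw [Finset.sum_eq_zero, mul_zero]
  intro j _
  by_cases h1 : pl (Sum.inl j) = pl (Sum.inr i)
  · rw [DelB_ex_out pl w (by rw [h1]; exact fun h2 => h h2.symm), mul_zero]
  · rw [hB.bc _ _ h1, zero_mul]

/-- The sum of the products at the place `s`. -/
noncomputable def DelB_t (pl : α ⊕ β → S) (s : S) (c : Matrix α β ℂ) (w : Ga pl → ℂ) : ℂ :=
  1 / Real.pi * ∑ i : Pa pl s, ∑ j, c i.1 j * ex0 pl w (i.1, j)

lemma DelB_trp (pl : α ⊕ β → S) (s : S) (Bp : Matrix α α ℂ) (c : Matrix α β ℂ)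
    (w : Ga pl → ℂ) :
    ((DelX_Np Bp c (ex0 pl w)).submatrix (Subtype.val : Pa pl s → α) Subtype.val).trace =
      trA pl s Bp + DelB_t pl s c w := by
  unfold Matrix.trace DelX_Np trA DelB_t
  simp only [Matrix.diag_apply, Matrix.submatrix_apply, Matrix.of_apply, Finset.sum_add_distrib,
    Finset.mul_sum]

lemma DelB_trm (pl : α ⊕ β → S) (s : S) (Bm : Matrix β β ℂ) (c : Matrix α β ℂ)
    (w : Ga pl → ℂ) :
    ((DelX_Nm Bm c (ex0 pl w)).submatrix (Subtype.val : Pb pl s → β) Subtype.val).trace =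
      trB pl s Bm + DelB_t pl s c w := by
  have h1 : ∑ j : Pb pl s, ∑ i, c i j.1 * ex0 pl w (i, j.1) =
      ∑ i : Pa pl s, ∑ j, c i.1 j * ex0 pl w (i.1, j) := by
    have e1 : ∑ j : Pb pl s, ∑ i, c i j.1 * ex0 pl w (i, j.1) =
        ∑ j : β, ∑ i, if pl (Sum.inr j) = s then c i j * ex0 pl w (i, j) else 0 := by
      rw [DelB_sumB pl s (fun j => ∑ i, if pl (Sum.inr j) = s then c i j * ex0 pl w (i, j)
        else 0) (fun j hj => Finset.sum_eq_zero fun i _ => if_neg hj)]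
      refine Finset.sum_congr rfl fun j _ => Finset.sum_congr rfl fun i _ => ?_
      rw [if_pos j.2]
    have e2 : ∑ i : Pa pl s, ∑ j, c i.1 j * ex0 pl w (i.1, j) =
        ∑ i : α, ∑ j, if pl (Sum.inl i) = s then c i j * ex0 pl w (i, j) else 0 := by
      rw [DelB_sumA pl s (fun i => ∑ j, if pl (Sum.inl i) = s then c i j * ex0 pl w (i, j)
        else 0) (fun j hj => Finset.sum_eq_zero fun i _ => if_neg hj)]
      refine Finset.sum_congr rfl fun j _ => Finset.sum_congr rfl fun i _ => ?_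
      rw [if_pos j.2]
    rw [e1, e2, Finset.sum_comm]
    refine Finset.sum_congr rfl fun i _ => Finset.sum_congr rfl fun j _ => ?_
    by_cases h2 : pl (Sum.inl i) = pl (Sum.inr j)
    · rw [h2]
    · rw [DelB_ex_out pl w h2, mul_zero, ite_self, ite_self]
  unfold DelB_t
  rw [← h1]
  unfold Matrix.trace DelX_Nm trB
  simp only [Matrix.diag_apply, Matrix.submatrix_apply, Matrix.of_apply, Finset.sum_add_distrib,
    Finset.mul_sum]

end ex

theorem thm_DelB (hS : St_DelS) : St_DelB := by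
  intro α β μ S _ _ _ _ _ _ _ pl s δ L χ θ k Bp Bm c e k₀ hL hθ hB hH
  have h1 := PST.All.Ell_
  have h2 := PST.All.OmT_
  have h3 := PST.All.DelE_
  have h4 := PST.All.HatE_
  have hR := PST.All.DelGR_ (Ga pl) δ
  have hGro : ∀ x, Gro (F θ x) := fun x => (DelX_Gro (Ix α β μ)).1 L χ θ hL hθ x
  have han : ∀ x z, AnalyticAt ℂ (F θ x) z := fun x z =>
    GAM.DelR_an GAM.thm_Hol (hGro x).ent z
  -- Fock vectors
  have hpsi : ∀ x, OddTor L x → DelX_T δ (fun p w => DelX_Xi δ Bp Bm c p.1 (ex0 pl w))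
      (fun w => DelX_kap μ k c (ex0 pl w)) (fun w : Ga pl → ℂ => psi θ (ex0 pl w) x) := by
    intro x hx
    have h6 : IsDel δ (F θ x) fun v => hop k Bp Bm c (F θ x) v + 0 := by
      simpa only [add_zero] using hH x hx
    have h7 := DelX_gen h1 h2 h3 h4 δ k Bp Bm c (hGro x) (DelX_gro0 (hGro x)) h6
    have h8 := DelB_res hS pl hB (R' := fun _ => 0) h7
      (Filter.Eventually.of_forall fun w => DelX_ell0 _)
    simp only [add_zero] at h8
    exact h8
  have hdp : ∀ x, OddTor L x → ∀ q, IsDelG δ (fun w => dpsi q θ w x) fun w =>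
      DelX_kap μ k c w * dpsi q θ w x + ∑ p, DelX_Xi δ Bp Bm c p w *
        pd p (fun w => dpsi q θ w x) w + ell w (DelX_ex Bp Bm c (F θ x) q) := by
    intro x hx q
    have h6 : IsDel δ (pd q (F θ x)) fun v => hop k Bp Bm c (pd q (F θ x)) v +
        DelX_ex Bp Bm c (F θ x) q v := by
      have h7 := (GAM.thm_DelR GAM.thm_Hol (Ix α β μ) δ).pd q _ _ (hH x hx)
      have h8 : pd q (hop k Bp Bm c (F θ x)) = fun v => hop k Bp Bm c (pd q (F θ x)) v +
          DelX_ex Bp Bm c (F θ x) q v := by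
        funext v
        exact DelX_pd_hop k Bp Bm c (han x) q v
      rw [← h8]
      exact h7
    exact DelX_gen h1 h2 h3 h4 δ k Bp Bm c (DelX_grop (hGro x) q)
      (DelX_ex_gro Bp Bm c (hGro x) q) h6
  obtain ⟨hO, -, h0, -⟩ := h2 α β
  have hIO : ∀ᶠ w in nhds (0 : Ga pl → ℂ), ex0 pl w ∈ Om α β :=
    DelB_nhds pl (hO.mem_nhds h0)
  -- determinants
  have hfp : ∀ x : Pa pl s → Ix α β μ → ℂ, (∀ i, OddTor L (x i)) →
      DelX_T δ (fun p w => DelX_Xi δ Bp Bm c p.1 (ex0 pl w))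
        (fun w => Fintype.card (Pa pl s) * DelX_kap μ k c (ex0 pl w) +
        ((DelX_Np Bp c (ex0 pl w)).submatrix (Subtype.val : Pa pl s → α) Subtype.val).trace)
        (fun w : Ga pl → ℂ => fpB pl s k₀ θ (ex0 pl w) x) := by
    intro x hx
    refine DelX_Tdet hR
      (fun w => (DelX_Np Bp c (ex0 pl w)).submatrix (Subtype.val : Pa pl s → α) Subtype.val)
      (fun i b w => dpsi (Sum.inl i.1, k₀) θ (ex0 pl w) (x b)) fun i b => ?_
    refine DelB_res hS pl hB (hdp (x b) (hx b) (Sum.inl i.1, k₀)) ?_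
    filter_upwards [hIO] with w hw
    rw [DelX_ell_inl h1 Bp Bm c (hGro (x b)) i.1 k₀ hw]
    exact DelB_sumA pl s (fun i' => DelX_Np Bp c (ex0 pl w) i' i.1 *
      ell (ex0 pl w) (pd (Sum.inl i', k₀) (F θ (x b))))
      (fun i' hi' => by rw [DelB_Np pl hB w (by rw [i.2]; exact hi'), zero_mul])
  have hfm : ∀ x : Pb pl s → Ix α β μ → ℂ, (∀ i, OddTor L (x i)) →
      DelX_T δ (fun p w => DelX_Xi δ Bp Bm c p.1 (ex0 pl w))
        (fun w => Fintype.card (Pb pl s) * DelX_kap μ k c (ex0 pl w) +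
        ((DelX_Nm Bm c (ex0 pl w)).submatrix (Subtype.val : Pb pl s → β) Subtype.val).trace)
        (fun w : Ga pl → ℂ => fmB pl s k₀ θ (ex0 pl w) x) := by
    intro x hx
    refine DelX_Tdet hR
      (fun w => (DelX_Nm Bm c (ex0 pl w)).submatrix (Subtype.val : Pb pl s → β) Subtype.val)
      (fun i b w => dpsi (Sum.inr i.1, k₀) θ (ex0 pl w) (x b)) fun i b => ?_
    refine DelB_res hS pl hB (hdp (x b) (hx b) (Sum.inr i.1, k₀)) ?_
    filter_upwards [hIO] with w hw
    rw [DelX_ell_inr h1 Bp Bm c (hGro (x b)) i.1 k₀ hw]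
    exact DelB_sumB pl s (fun i' => DelX_Nm Bm c (ex0 pl w) i' i.1 *
      ell (ex0 pl w) (pd (Sum.inr i', k₀) (F θ (x b))))
      (fun i' hi' => by rw [DelB_Nm pl hB w (by rw [i.2]; exact hi'), zero_mul])
  refine ⟨fun w => (1 + e * (Fintype.card (Pa pl s) + Fintype.card (Pb pl s))) *
    DelX_kap μ k c (ex0 pl w) + e * DelB_t pl s c w,
    fun p w => DelX_Xi δ Bp Bm c p.1 (ex0 pl w), fun y x x' hy hx hx' o => ?_⟩
  rcases o with _ | i
  · have h6 := DelX_Tmul hR (DelX_Tmul hR (hpsi _ (hy none))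
      (DelX_Tpow hR (hpsi _ (hy none)) (e * Fintype.card (Pb pl s)))) (DelX_Tpow hR (hfp x hx) e)
    have h7 : (fun w : Ga pl → ℂ => (DelX_kap μ k c (ex0 pl w) +
        ((e * Fintype.card (Pb pl s) : ℕ) : ℂ) * DelX_kap μ k c (ex0 pl w)) +
        e * (Fintype.card (Pa pl s) * DelX_kap μ k c (ex0 pl w) +
        ((DelX_Np Bp c (ex0 pl w)).submatrix (Subtype.val : Pa pl s → α) Subtype.val).trace)) =
        fun w => ((1 + e * (Fintype.card (Pa pl s) + Fintype.card (Pb pl s))) *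
        DelX_kap μ k c (ex0 pl w) + e * DelB_t pl s c w +
        if (none : Option (Option (Ga pl))) = none then (e : ℂ) * trA pl s Bp
          else e * trB pl s Bm) := by
      funext w
      rw [DelB_trp, if_pos rfl]
      push_cast
      ring
    rw [h7] at h6
    exact h6
  · have h6 := DelX_Tmul hR (DelX_Tmul hR (hpsi _ (hy i))
      (DelX_Tpow hR (hpsi _ (hy none)) (e * Fintype.card (Pa pl s)))) (DelX_Tpow hR (hfm x' hx') e)
    have h7 : (fun w : Ga pl → ℂ => (DelX_kap μ k c (ex0 pl w) +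
        ((e * Fintype.card (Pa pl s) : ℕ) : ℂ) * DelX_kap μ k c (ex0 pl w)) +
        e * (Fintype.card (Pb pl s) * DelX_kap μ k c (ex0 pl w) +
        ((DelX_Nm Bm c (ex0 pl w)).submatrix (Subtype.val : Pb pl s → β) Subtype.val).trace)) =
        fun w => ((1 + e * (Fintype.card (Pa pl s) + Fintype.card (Pb pl s))) *
        DelX_kap μ k c (ex0 pl w) + e * DelB_t pl s c w +
        if (some i : Option (Option (Ga pl))) = none then (e : ℂ) * trA pl s Bp
          else e * trB pl s Bm) := by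
      funext w
      rw [DelB_trm, if_neg (by simp)]
      push_cast
      ring
    rw [h7] at h6
    exact h6

end WPP
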