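import Pool.Agent.WPP.StC
import Pool.Agent.GAM.Hol

/-!
# WPP: module DelS, restriction of germs to the product domain
-/

set_option autoImplicit false
set_option linter.unusedSectionVars false

namespace WPP

open scoped ComplexConjugate
open GAM (H E F pd pdl PLat IsTh OddTor IsDel Gro IsLat)
open PST DWC

private lemma DelS_ex_add {α β S : Type} [DecidableEq S] (pl : α ⊕ β → S) (v w : Ga pl → ℂ) :
    ex0 pl (v + w) = ex0 pl v + ex0 pl w := by
  funext p
  simp only [ex0, Pi.add_apply]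
  by_cases h : pl (Sum.inl p.1) = pl (Sum.inr p.2)
  · rw [dif_pos h, dif_pos h, dif_pos h]
  · rw [dif_neg h, dif_neg h, dif_neg h, add_zero]

private lemma DelS_ex_smul {α β S : Type} [DecidableEq S] (pl : α ⊕ β → S) (c : ℂ)
    (w : Ga pl → ℂ) : ex0 pl (c • w) = c • ex0 pl w := by
  funext p
  simp only [ex0, Pi.smul_apply, smul_eq_mul]
  by_cases h : pl (Sum.inl p.1) = pl (Sum.inr p.2)
  · rw [dif_pos h, dif_pos h]
  · rw [dif_neg h, dif_neg h, mul_zero]

private lemma DelS_ex_single {α β S : Type} [DecidableEq α] [DecidableEq β] [DecidableEq S]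
    (pl : α ⊕ β → S) (p : Ga pl) : ex0 pl (Pi.single p (1 : ℂ)) = Pi.single p.1 (1 : ℂ) := by
  funext q
  simp only [ex0]
  by_cases h : pl (Sum.inl q.1) = pl (Sum.inr q.2)
  · rw [dif_pos h]
    by_cases hq : q = p.1
    · subst hq
      rw [Pi.single_eq_same, Pi.single_eq_same]
    · rw [Pi.single_eq_of_ne hq, Pi.single_eq_of_ne]
      intro h'
      exact hq (congrArg Subtype.val h')
  · rw [dif_neg h, Pi.single_eq_of_ne]
    intro h'
    subst h'
    exact h p.2

private noncomputable def DelS_lin {α β S : Type} [DecidableEq S] (pl : α ⊕ β → S) :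
    (Ga pl → ℂ) →ₗ[ℂ] (α × β → ℂ) where
  toFun := ex0 pl
  map_add' := DelS_ex_add pl
  map_smul' := DelS_ex_smul pl

section

variable {α β S : Type} [Fintype α] [Fintype β] [DecidableEq α] [DecidableEq β] [DecidableEq S]

private lemma DelS_pd (pl : α ⊕ β → S) (p : Ga pl) (f : (α × β → ℂ) → ℂ) (w : Ga pl → ℂ)
    (hf : DifferentiableAt ℂ f (ex0 pl w)) :
    pd p (fun w : Ga pl → ℂ => f (ex0 pl w)) w = pd p.1 f (ex0 pl w) := by
  unfold pd
  have h1 : HasFDerivAt (fun w : Ga pl → ℂ => ex0 pl w)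
      (LinearMap.toContinuousLinearMap (DelS_lin pl)) w :=
    (LinearMap.toContinuousLinearMap (DelS_lin pl)).hasFDerivAt
  have h2 : HasFDerivAt (fun w : Ga pl → ℂ => f (ex0 pl w))
      ((fderiv ℂ f (ex0 pl w)).comp (LinearMap.toContinuousLinearMap (DelS_lin pl))) w :=
    HasFDerivAt.comp w hf.hasFDerivAt h1
  rw [h2.fderiv, ContinuousLinearMap.comp_apply]
  congr 1
  exact DelS_ex_single pl p

private lemma DelS_an (pl : α ⊕ β → S) (f : (α × β → ℂ) → ℂ) (w : Ga pl → ℂ)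
    (hf : AnalyticAt ℂ f (ex0 pl w)) : AnalyticAt ℂ (fun w : Ga pl → ℂ => f (ex0 pl w)) w := by
  have h1 : AnalyticAt ℂ (fun w : Ga pl → ℂ => ex0 pl w) w :=
    (LinearMap.toContinuousLinearMap (DelS_lin pl)).analyticAt w
  exact AnalyticAt.fun_comp hf h1

private lemma DelS_pdan {κ : Type} [Fintype κ] [DecidableEq κ] (p : κ) (f : (κ → ℂ) → ℂ)
    (w : κ → ℂ) (hf : AnalyticAt ℂ f w) : AnalyticAt ℂ (pd p f) w := by
  have h1 : AnalyticAt ℂ (fderiv ℂ f) w := hf.fderiv
  have h2 : AnalyticAt ℂ (fun z => (ContinuousLinearMap.apply ℂ ℂ (Pi.single p (1 : ℂ) : κ → ℂ))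
      (fderiv ℂ f z)) w :=
    ((ContinuousLinearMap.apply ℂ ℂ (Pi.single p (1 : ℂ) : κ → ℂ)).analyticAt _).fun_comp h1
  exact h2

private lemma DelS_pdlan {κ : Type} [Fintype κ] [DecidableEq κ] (l : List κ) (f : (κ → ℂ) → ℂ)
    (w : κ → ℂ) (hf : AnalyticAt ℂ f w) : AnalyticAt ℂ (pdl l f) w := by
  induction l with
  | nil => exact hf
  | cons p l ih => exact DelS_pdan p _ w ih

private lemma DelS_zero (pl : α ⊕ β → S) : ex0 pl (0 : Ga pl → ℂ) = 0 := by
  funext p
  simp only [ex0, Pi.zero_apply]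
  split <;> rfl

private lemma DelS_pdl (pl : α ⊕ β → S) (f : (α × β → ℂ) → ℂ) (hf : AnalyticAt ℂ f 0)
    (l : List (Ga pl)) : ∀ᶠ w : Ga pl → ℂ in nhds 0,
      pdl l (fun w : Ga pl → ℂ => f (ex0 pl w)) w = pdl (l.map Subtype.val) f (ex0 pl w) := by
  have hc : Filter.Tendsto (fun w : Ga pl → ℂ => ex0 pl w) (nhds 0) (nhds 0) := by
    have h1 : Continuous (fun w : Ga pl → ℂ => ex0 pl w) :=
      (LinearMap.toContinuousLinearMap (DelS_lin pl)).continuous
    have h2 := h1.tendsto 0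
    rw [DelS_zero] at h2
    exact h2
  induction l with
  | nil => exact Filter.Eventually.of_forall fun _ => rfl
  | cons p l ih =>
    have h1 : ∀ᶠ w : Ga pl → ℂ in nhds 0, AnalyticAt ℂ (pdl (l.map Subtype.val) f) (ex0 pl w) :=
      hc.eventually (DelS_pdlan (l.map Subtype.val) f 0 hf).eventually_analyticAt
    filter_upwards [ih.eventually_nhds, h1] with w hw hw'
    show pd p (pdl l (fun w : Ga pl → ℂ => f (ex0 pl w))) w =
      pd p.1 (pdl (l.map Subtype.val) f) (ex0 pl w)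
    rw [← DelS_pd pl p _ w hw'.differentiableAt]
    unfold pd
    have h3 : pdl l (fun w : Ga pl → ℂ => f (ex0 pl w)) =ᶠ[nhds w]
        fun w => pdl (l.map Subtype.val) f (ex0 pl w) := hw
    rw [h3.fderiv_eq]

theorem thm_DelS : St_DelS := by
  intro α β S _ _ _ _ _ pl δ a b h
  refine ⟨DelS_an pl a 0 (by rw [DelS_zero]; exact h.an),
    DelS_an pl b 0 (by rw [DelS_zero]; exact h.an'), fun l => ?_⟩
  rw [(DelS_pdl pl b h.an' l).self_of_nhds, (DelS_pdl pl a h.an l).self_of_nhds, DelS_zero]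
  exact h.del _

end

end WPP
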