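import Pool.Agent.WPP.StC

/-!
# WPP, EllS: the Fock functional on the product domain
-/

set_option autoImplicit false

namespace WPP

open scoped ComplexConjugate
open GAM (H E F pd pdl PLat IsTh OddTor IsDel Gro IsLat)
open PST DWC

section

variable {α β S : Type} [Fintype α] [Fintype β] [DecidableEq α] [DecidableEq β] [DecidableEq S]
  (pl : α ⊕ β → S)

/-- `ex0` as a continuous linear map. -/
noncomputable def EllS_lin : (Ga pl → ℂ) →L[ℂ] (α × β → ℂ) :=
  LinearMap.toContinuousLinearMap
    { toFun := ex0 pl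
      map_add' := by
        intro x y
        funext p
        simp only [ex0, Pi.add_apply]
        split_ifs
        · rfl
        · rw [add_zero]
      map_smul' := by
        intro c x
        funext p
        simp only [ex0, Pi.smul_apply, RingHom.id_apply, smul_eq_mul]
        split_ifs
        · rfl
        · rw [mul_zero] }

theorem EllS_lin_apply (w : Ga pl → ℂ) : EllS_lin pl w = ex0 pl w := rfl

theorem EllS_single (p : Ga pl) : ex0 pl (Pi.single p 1 : Ga pl → ℂ) = Pi.single p.1 1 := by
  funext q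
  unfold ex0
  by_cases h : q = p.1
  · subst h
    rw [dif_pos p.2]
    have h1 : (⟨p.1, p.2⟩ : Ga pl) = p := rfl
    rw [h1, Pi.single_eq_same, Pi.single_eq_same]
  · rw [Pi.single_eq_of_ne h]
    split_ifs with h1
    · rw [Pi.single_eq_of_ne]
      intro h2
      exact h (congrArg Subtype.val h2)
    · rfl

/-- chain rule -/
theorem EllS_pd {f : (α × β → ℂ) → ℂ} {w : Ga pl → ℂ} (hf : DifferentiableAt ℂ f (ex0 pl w))
    (p : Ga pl) : pd p (fun w : Ga pl → ℂ => f (ex0 pl w)) w = pd p.1 f (ex0 pl w) := by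
  unfold pd
  have h1 : HasFDerivAt (fun w : Ga pl → ℂ => f (ex0 pl w))
      ((fderiv ℂ f (ex0 pl w)).comp (EllS_lin pl)) w := by
    have h2 : HasFDerivAt (fun w : Ga pl → ℂ => ex0 pl w) (EllS_lin pl) w :=
      (EllS_lin pl).hasFDerivAt
    exact hf.hasFDerivAt.comp w h2
  rw [h1.fderiv, ContinuousLinearMap.comp_apply, EllS_lin_apply, EllS_single]

end

theorem thm_EllS (hE : PST.St_Ell) (hO : PST.St_OmT) : St_EllS := by
  intro α β μ S _ _ _ _ _ _ _ pl G hG
  obtain ⟨h1, -, h3⟩ := hE α β μ G hG
  have hopen : IsOpen (Om α β) := (hO α β).1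
  have hd : ∀ w ∈ OmB pl, DifferentiableAt ℂ (fun w => ell w G) (ex0 pl w) := fun w hw =>
    h1.differentiableAt (hopen.mem_nhds hw)
  refine ⟨?_, ?_⟩
  · intro w hw
    have h2 : HasFDerivAt (fun w : Ga pl → ℂ => ex0 pl w) (EllS_lin pl) w :=
      (EllS_lin pl).hasFDerivAt
    exact ((hd w hw).comp w h2.differentiableAt).differentiableWithinAt
  · intro w hw p
    rw [EllS_pd pl (hd w hw) p]
    exact (h3 (ex0 pl w) hw).1 p.1

end WPP
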