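import Pool.Agent.WPP.StC

/-!
# WPP / EquB: equivariance of the determinants at a place
-/

set_option autoImplicit false
set_option linter.unusedSectionVars false
set_option linter.unusedVariables false

namespace WPP

open scoped ComplexConjugate
open GAM (H E F pd pdl PLat IsTh OddTor IsDel Gro IsLat)
open PST DWC

section

variable {α β μ : Type} [Fintype α] [Fintype β] [Fintype μ] [DecidableEq α] [DecidableEq β]
  [DecidableEq μ]

private theorem EquB_ix (f : Ix α β μ → ℂ) : ∑ p, f p =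
    ∑ i, ∑ k, f (Sum.inl i, k) + ∑ j, ∑ k, f (Sum.inr j, k) := by
  rw [Fintype.sum_prod_type, Fintype.sum_sum_type]

private theorem EquB_one (p : Ix α β μ) (f : Ix α β μ → ℂ) :
    ∑ q, (Pi.single p (1 : ℂ) : Ix α β μ → ℂ) q * f q = f p := by
  rw [Finset.sum_eq_single p]
  · rw [Pi.single_eq_same, one_mul]
  · intro q _ hq
    rw [Pi.single_eq_of_ne hq, zero_mul]
  · intro h
    exact absurd (Finset.mem_univ p) h

private theorem EquB_l (g : Matrix (α ⊕ β) (α ⊕ β) ℂ) (w : α × β → ℂ) (i : α) (k : μ)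
    (f : Ix α β μ → ℂ) :
    ∑ q, Cm g w (Pi.single (Sum.inl i, k) (1 : ℂ)) q * f q =
      ∑ i', ca g w i' i * f (Sum.inl i', k) := by
  rw [EquB_ix]
  have h1 : ∀ i' k', Cm g w (Pi.single ((Sum.inl i, k) : Ix α β μ) (1 : ℂ)) (Sum.inl i', k') =
      if k' = k then ca g w i' i else 0 := by
    intro i' k'
    show ∑ i'', ca g w i' i'' *
      (Pi.single ((Sum.inl i, k) : Ix α β μ) (1 : ℂ) : Ix α β μ → ℂ) (Sum.inl i'', k') = _
    split_ifs with hk
    · subst hk
      rw [Finset.sum_eq_single i]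
      · rw [Pi.single_eq_same, mul_one]
      · intro i'' _ hi
        rw [Pi.single_eq_of_ne, mul_zero]
        intro h
        exact hi (Sum.inl_injective (congrArg Prod.fst h))
      · intro h
        exact absurd (Finset.mem_univ i) h
    · refine Finset.sum_eq_zero fun i'' _ => ?_
      rw [Pi.single_eq_of_ne, mul_zero]
      intro h
      exact hk (congrArg Prod.snd h)
  have h2 : ∀ j' k', Cm g w (Pi.single ((Sum.inl i, k) : Ix α β μ) (1 : ℂ)) (Sum.inr j', k') =
      0 := by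
    intro j' k'
    show ∑ j'', ((cd g w)⁻¹) j'' j' *
      (Pi.single ((Sum.inl i, k) : Ix α β μ) (1 : ℂ) : Ix α β μ → ℂ) (Sum.inr j'', k') = _
    refine Finset.sum_eq_zero fun j'' _ => ?_
    rw [Pi.single_eq_of_ne, mul_zero]
    intro h
    exact Sum.inr_ne_inl (congrArg Prod.fst h)
  simp only [h1, h2, zero_mul, Finset.sum_const_zero, add_zero, ite_mul]
  refine Finset.sum_congr rfl fun i' _ => ?_
  rw [Finset.sum_ite_eq' Finset.univ k, if_pos (Finset.mem_univ k)]

private theorem EquB_r (g : Matrix (α ⊕ β) (α ⊕ β) ℂ) (w : α × β → ℂ) (j : β) (k : μ)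
    (f : Ix α β μ → ℂ) :
    ∑ q, Cm g w (Pi.single (Sum.inr j, k) (1 : ℂ)) q * f q =
      ∑ j', ((cd g w)⁻¹) j j' * f (Sum.inr j', k) := by
  rw [EquB_ix]
  have h1 : ∀ i' k', Cm g w (Pi.single ((Sum.inr j, k) : Ix α β μ) (1 : ℂ)) (Sum.inl i', k') =
      0 := by
    intro i' k'
    show ∑ i'', ca g w i' i'' *
      (Pi.single ((Sum.inr j, k) : Ix α β μ) (1 : ℂ) : Ix α β μ → ℂ) (Sum.inl i'', k') = _
    refine Finset.sum_eq_zero fun i'' _ => ?_
    rw [Pi.single_eq_of_ne, mul_zero]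
    intro h
    exact Sum.inl_ne_inr (congrArg Prod.fst h)
  have h2 : ∀ j' k', Cm g w (Pi.single ((Sum.inr j, k) : Ix α β μ) (1 : ℂ)) (Sum.inr j', k') =
      if k' = k then ((cd g w)⁻¹) j j' else 0 := by
    intro j' k'
    show ∑ j'', ((cd g w)⁻¹) j'' j' *
      (Pi.single ((Sum.inr j, k) : Ix α β μ) (1 : ℂ) : Ix α β μ → ℂ) (Sum.inr j'', k') = _
    split_ifs with hk
    · subst hk
      rw [Finset.sum_eq_single j]
      · rw [Pi.single_eq_same, mul_one]
      · intro j'' _ hj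
        rw [Pi.single_eq_of_ne, mul_zero]
        intro h
        exact hj (Sum.inr_injective (congrArg Prod.fst h))
      · intro h
        exact absurd (Finset.mem_univ j) h
    · refine Finset.sum_eq_zero fun j'' _ => ?_
      rw [Pi.single_eq_of_ne, mul_zero]
      intro h
      exact hk (congrArg Prod.snd h)
  simp only [h1, h2, zero_mul, Finset.sum_const_zero, zero_add, ite_mul]
  refine Finset.sum_congr rfl fun j' _ => ?_
  rw [Finset.sum_ite_eq' Finset.univ k, if_pos (Finset.mem_univ k)]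

end

private theorem EquB_sub {κ : Type} [Fintype κ] [DecidableEq κ] (p : κ → Prop)
    [DecidablePred p] (f : κ → ℂ) (h : ∀ i, ¬ p i → f i = 0) :
    ∑ i, f i = ∑ i : {i : κ // p i}, f i.1 := by
  rw [← Finset.sum_subtype (Finset.univ.filter p)
    (fun x => by simp only [Finset.mem_filter, Finset.mem_univ, true_and]) f, Finset.sum_filter]
  refine Finset.sum_congr rfl fun i _ => ?_
  split_ifs with hp
  · rfl
  · exact h i hp

theorem thm_EquB (h2 : St_EquP) (h3 : St_EquD) (h4 : St_MobB) : St_EquB := by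
  intro α β μ S _ _ _ _ _ _ _ _ pl g L₀ L₁ χ₀ θ₀ χ₁ θ₁ hL₀ hL₁ hθ₀ hθ₁ hn₀ hn₁ hg hB w hw
  obtain ⟨-, hm, hca, hcd, hdt, -⟩ := h4 α β S pl g hg.uni hB w hw
  obtain ⟨j, hj0, hj⟩ := h2 α β μ g L₀ L₁ χ₀ θ₀ χ₁ θ₁ hL₀ hL₁ hθ₀ hθ₁ hn₀ hn₁ hg (ex0 pl w) hw
  have hd := h3 α β μ g L₀ L₁ χ₀ θ₀ χ₁ θ₁ hL₀ hL₁ hθ₀ hθ₁ hg.uni (ex0 pl w) hw j hj
  refine ⟨j, fun s => ((ca g (ex0 pl w)).submatrix (Subtype.val : Pa pl s → α) Subtype.val).det,
    fun s => (((cd g (ex0 pl w))⁻¹).submatrix (Subtype.val : Pb pl s → β) Subtype.val).det, hj0,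
    fun s => ?_, ?_, ?_, ?_⟩
  · obtain ⟨e1, e2, e3, e4⟩ := hdt s
    refine ⟨e2, ?_, ?_⟩
    · show (((cd g (ex0 pl w))⁻¹).submatrix (Subtype.val : Pb pl s → β) Subtype.val).det ≠ 0
      rw [e4]
      exact inv_ne_zero e3
    · show ((ca g (ex0 pl w)).submatrix (Subtype.val : Pa pl s → α) Subtype.val).det =
        dt pl s g *
          (((cd g (ex0 pl w))⁻¹).submatrix (Subtype.val : Pb pl s → β) Subtype.val).det
      rw [e4, ← e1, mul_assoc, mul_inv_cancel₀ e3, mul_one]
  · intro x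
    rw [hm]
    exact hj x
  · intro s k x
    rw [hm]
    have e1 : ((ca g (ex0 pl w)).submatrix (Subtype.val : Pa pl s → α) Subtype.val).transpose *
        (Matrix.of fun i b : Pa pl s =>
        dpsi (Sum.inl i.1, k) θ₀ (mob g (ex0 pl w)) (act g (x b))) =
        j • Matrix.of fun i b : Pa pl s => dpsi (Sum.inl i.1, k) θ₁ (ex0 pl w) (x b) := by
      ext i b
      have e2 := hd (Pi.single (Sum.inl i.1, k) 1) (x b)
      unfold Dpsi at e2
      rw [EquB_l, EquB_one, EquB_sub (fun i' => pl (Sum.inl i') = s)] at e2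
      · rw [Matrix.mul_apply, Matrix.smul_apply, Matrix.of_apply, smul_eq_mul, ← e2]
        rfl
      · intro i' hi'
        rw [hca i' i.1, zero_mul]
        rw [i.2]
        exact hi'
    have e3 := congrArg Matrix.det e1
    rw [Matrix.det_mul, Matrix.det_transpose, Matrix.det_smul] at e3
    exact e3
  · intro s k x
    rw [hm]
    have e1 : ((cd g (ex0 pl w))⁻¹).submatrix (Subtype.val : Pb pl s → β) Subtype.val *
        (Matrix.of fun i b : Pb pl s =>
        dpsi (Sum.inr i.1, k) θ₀ (mob g (ex0 pl w)) (act g (x b))) =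
        j • Matrix.of fun i b : Pb pl s => dpsi (Sum.inr i.1, k) θ₁ (ex0 pl w) (x b) := by
      ext i b
      have e2 := hd (Pi.single (Sum.inr i.1, k) 1) (x b)
      unfold Dpsi at e2
      rw [EquB_r, EquB_one, EquB_sub (fun i' => pl (Sum.inr i') = s)] at e2
      · rw [Matrix.mul_apply, Matrix.smul_apply, Matrix.of_apply, smul_eq_mul, ← e2]
        rfl
      · intro i' hi'
        rw [(hcd i.1 i' _).2, zero_mul]
        rw [i.2]
        exact fun h => hi' h.symm
    have e3 := congrArg Matrix.det e1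
    rw [Matrix.det_mul, Matrix.det_smul] at e3
    exact e3

end WPP
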