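import Pool.Agent.WPP.StN

/-!
# WPP, module ExpB: the exponents of the CM point
-/

set_option autoImplicit false
set_option linter.unusedVariables false
set_option linter.unusedSectionVars false

namespace WPP

open scoped ComplexConjugate
open GAM (H E F pd pdl PLat IsTh OddTor IsDel Gro IsLat HasExp CMF CMT IsExp IsCM eul)
open Module
open PST DWC

section

variable {α β : Type} [Fintype α] [Fintype β] [DecidableEq α] [DecidableEq β]

private theorem ExpB_hop (A : Ix α β Unit → ℂ) (k : ℂ) (G : (Ix α β Unit → ℂ) → ℂ) :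
    hop k (Matrix.diagonal fun i : α => A (Sum.inl i, ()))
      (Matrix.diagonal fun j : β => A (Sum.inr j, ())) 0 G = fun v => k * G v + eul A G v := by
  funext v
  unfold hop eul
  simp only [Matrix.zero_apply, zero_mul, Finset.sum_const_zero, add_zero]
  rw [Fintype.sum_prod_type, Fintype.sum_sum_type, add_assoc]
  congr 2
  · rw [Finset.sum_comm]
    refine Finset.sum_congr rfl fun i _ => Finset.sum_congr rfl fun m _ => ?_
    rw [Finset.sum_eq_single i]
    · rw [Matrix.diagonal_apply_eq, mul_assoc]
    · intro b _ hb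
      rw [Matrix.diagonal_apply_ne' _ hb, zero_mul]
    · intro h
      exact absurd (Finset.mem_univ _) h
  · rw [Finset.sum_comm]
    refine Finset.sum_congr rfl fun i _ => Finset.sum_congr rfl fun m _ => ?_
    rw [Finset.sum_eq_single i]
    · rw [Matrix.diagonal_apply_eq, mul_assoc]
    · intro b _ hb
      rw [Matrix.diagonal_apply_ne' _ hb, zero_mul]
    · intro h
      exact absurd (Finset.mem_univ _) h

private theorem ExpB_cc {K : Type} [Field K] [NumberField K] {c : K →+* K} (hc : CMF K c)
    (x : K) : c (c x) = x := by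
  obtain ⟨σ⟩ := (inferInstance : Nonempty (K →+* ℂ))
  apply σ.injective
  rw [← hc.cc, ← hc.cc, Complex.conj_conj]

private theorem ExpB_cmt {K : Type} [Field K] [NumberField K] {c : K →+* K} {S : Type}
    {φ : S → K →+* ℂ} (hc : CMF K c) (hφ : CMT K c φ) (P : S → Prop) (ψ : S → K →+* ℂ)
    (h1 : ∀ s, P s → ψ s = φ s) (h2 : ∀ s, ¬ P s → ψ s = (φ s).comp c) : CMT K c ψ := by
  classical
  have hcomp : ∀ s, ((φ s).comp c).comp c = φ s := by
    intro s
    ext x
    show φ s (c (c x)) = φ s x
    rw [ExpB_cc hc]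
  let π : S ⊕ S → S ⊕ S := Sum.elim (fun s => if P s then Sum.inl s else Sum.inr s)
    (fun s => if P s then Sum.inr s else Sum.inl s)
  have hπ : Function.Involutive π := by
    rintro (s | s) <;> by_cases h : P s <;> simp [π, h]
  have e : (Sum.elim ψ fun s => (ψ s).comp c) = (Sum.elim φ fun s => (φ s).comp c) ∘ π := by
    funext t
    rcases t with s | s <;> by_cases h : P s
    · simp [π, h, h1 s h]
    · simp [π, h, h2 s h]
    · simp [π, h, h1 s h]
    · simp [π, h, h2 s h, hcomp s]
  unfold CMT
  rw [e]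
  exact hφ.comp hπ.bijective

end

theorem thm_ExpB (hCM : St_CMB) (h1 : GAM.St_CM) (h2 : GAM.St_ExpT) : St_ExpB := by
  intro α β _ _ _ _ K _ _ c S _ _ φ t pl n e r L χ θ hG hep hr hra hP hT hz hL
  obtain ⟨s₀, hs₀⟩ := hCM α β K c S φ t pl n e r L χ hG hep hP hL
  -- the vectors of a line
  have hv : ∀ (j : Fin n) (x : K), vc pl φ e r (Pi.single j x) =
      ∑ s, Pi.single ((e.symm (j, s), ()) : Ix α β Unit)
        ((r (e.symm (j, s)) : ℂ) * Ty c φ e j s x) := by
    intro j x
    funext p
    obtain ⟨q, ⟨⟩⟩ := p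
    have hval : vc pl φ e r (Pi.single j x) (q, ()) =
        if (e q).1 = j then (r q : ℂ) * Ty c φ e j (pl q) x else 0 := by
      by_cases hq : (e q).1 = j
      · rw [if_pos hq]
        have hq' : e.symm (j, pl q) = q := by
          rw [← hq, ← hep q, Prod.mk.eta, e.symm_apply_apply]
        unfold vc Ty
        rw [hq']
        rcases q with i | i
        · simp only [sw, Sum.elim_inl, hq, Pi.single_eq_same]
        · simp only [sw, Sum.elim_inr, hq, Pi.single_eq_same, map_mul, Complex.conj_ofReal,
            hG.cm.cc]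
          rfl
      · rw [if_neg hq]
        unfold vc
        rcases q with i | i
        · simp only [sw, Sum.elim_inl, Pi.single_eq_of_ne hq, map_zero, mul_zero]
        · simp only [sw, Sum.elim_inr, Pi.single_eq_of_ne hq, map_zero, mul_zero]
    rw [hval, Finset.sum_apply]
    by_cases hq : (e q).1 = j
    · rw [if_pos hq, Finset.sum_eq_single (pl q)]
      · have hq' : e.symm (j, pl q) = q := by
          rw [← hq, ← hep q, Prod.mk.eta, e.symm_apply_apply]
        rw [hq', Pi.single_eq_same]
      · intro s _ hs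
        rw [Pi.single_eq_of_ne]
        intro h
        apply hs
        have h3 : q = e.symm (j, s) := congrArg Prod.fst h
        rw [← hep q, h3, e.apply_symm_apply]
      · intro h
        exact absurd (Finset.mem_univ _) h
    · rw [if_neg hq]
      refine (Finset.sum_eq_zero fun s _ => ?_).symm
      rw [Pi.single_eq_of_ne]
      intro h
      apply hq
      have h3 : q = e.symm (j, s) := congrArg Prod.fst h
      rw [h3, e.apply_symm_apply]
  -- a common denominator
  have hM : ∀ j : Fin n, ∃ M : ℕ, M ≠ 0 ∧ ∀ x : NumberField.RingOfIntegers K,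
      vc pl φ e r (Pi.single j ((M : K) * (x : K))) ∈ L := by
    intro j
    classical
    have hadd : ∀ x y : K, vc pl φ e r (Pi.single j (x + y)) =
        vc pl φ e r (Pi.single j x) + vc pl φ e r (Pi.single j y) := by
      intro x y
      rw [hv, hv, hv, ← Finset.sum_add_distrib]
      refine Finset.sum_congr rfl fun s _ => ?_
      rw [map_add, mul_add, Pi.single_add]
    let f : NumberField.RingOfIntegers K →+ (Ix α β Unit → ℂ) :=
      AddMonoidHom.mk' (fun x => vc pl φ e r (Pi.single j (x : K))) (by
        intro x y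
        exact hadd (x : K) (y : K))
    obtain ⟨T, hTs⟩ := (Module.finite_def.1
      (inferInstance : Module.Finite ℤ (NumberField.RingOfIntegers K)))
    choose m hm hmL using fun x : NumberField.RingOfIntegers K =>
      hL.com (Pi.single j (x : K))
    refine ⟨∏ x ∈ T, m x, Finset.prod_ne_zero_iff.2 fun x _ => hm x, fun x => ?_⟩
    have h3 : (⊤ : Submodule ℤ (NumberField.RingOfIntegers K)) ≤
        L.comap (((∏ x ∈ T, m x : ℕ) : ℤ) • f.toIntLinearMap) := by
      rw [← hTs, Submodule.span_le]
      intro y hy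
      show (((∏ x ∈ T, m x : ℕ) : ℤ) • f.toIntLinearMap) y ∈ L
      rw [← Finset.mul_prod_erase T m hy, Nat.cast_mul, mul_comm, mul_smul]
      exact L.smul_mem _ (hmL y)
    have h4 : (((∏ x ∈ T, m x : ℕ) : ℤ) • f.toIntLinearMap) x ∈ L := h3 Submodule.mem_top
    have h5 : (((∏ x ∈ T, m x : ℕ) : ℤ) • f.toIntLinearMap) x =
        vc pl φ e r (Pi.single j (((∏ x ∈ T, m x : ℕ) : K) * (x : K))) := by
      have h6 : ((((∏ x ∈ T, m x : ℕ) : ℤ) • x : NumberField.RingOfIntegers K) : K) =
          ((∏ x ∈ T, m x : ℕ) : K) * (x : K) := by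
        rw [zsmul_eq_mul]
        simp
      rw [← h6]
      exact (map_zsmul f ((∏ x ∈ T, m x : ℕ) : ℤ) x).symm
    rw [← h5]
    exact h4
  choose M hM0 hML using hM
  have hδ : ∀ δ : Derivation ℚ ℂ ℂ, ∃ A : α ⊕ β → ℂ,
      (∀ j : Fin n, CMT K c (Ty c φ e j) ∧
        IsExp δ K (Ty c φ e j) (fun s => A (e.symm (j, s)))) ∧
      ∃ k : ℂ, HasHat δ L θ k (Matrix.diagonal fun i => A (Sum.inl i))
        (Matrix.diagonal fun j => A (Sum.inr j)) 0 := by
    intro δ
    obtain ⟨A, k, hA⟩ := h1 (Ix α β Unit) δ L χ θ s₀ hP hT hz hs₀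
    refine ⟨fun p => A (p, ()), fun j => ?_, k, ?_⟩
    · have hct : CMT K c (Ty c φ e j) := by
        refine ExpB_cmt hG.cm hG.ty (fun s => ∃ i, e.symm (j, s) = Sum.inl i) _ ?_ ?_
        · rintro s ⟨i, hi⟩
          unfold Ty
          rw [hi]
          rfl
        · intro s hs
          unfold Ty
          rcases he : e.symm (j, s) with i | i
          · exact absurd ⟨i, he⟩ hs
          · rfl
      refine ⟨hct, ?_⟩
      refine h2 K c S (Ix α β Unit) (Ty c φ e j) δ L χ θ A k (fun s => (e.symm (j, s), ()))
        (fun s => r (e.symm (j, s))) (M j) hG.cm hct hP hT hz hA ?_ (fun s => hr _)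
        (fun s => hra _) (hM0 j) ?_
      · intro s s' h
        have h3 : e.symm (j, s) = e.symm (j, s') := congrArg Prod.fst h
        exact congrArg Prod.snd (e.symm.injective h3)
      · intro x
        rw [← hv]
        exact hML j x
    · intro x hx
      have h3 := hA x hx
      rw [ExpB_hop A k (F θ x)]
      exact h3
  choose A hA using hδ
  exact ⟨A, hA⟩

end WPP
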