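import Pool.Agent.WPP.Defs

/-!
# WPP: frozen statements, the core theorem on a product domain

Architect helper99. Every `def St_X : Prop` is a module; its docstring is the proof. Prove it in a
file `Pool/Agent/WPP/X.lean` as `theorem thm_X : St_X` (namespace `WPP`); other statements of the
campaign which are used are hypotheses of the theorem. Most modules are ports of landed files of
`Pool/Agent/PST` and `Pool/Agent/DWC`; the docstring names the file. Statements of `PST` and `DWC` are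
used as `PST.All.X_`, `DWC.All.X_` (import `Pool.Agent.PST.All`, `Pool.Agent.DWC.All`).
-/

set_option autoImplicit false
set_option linter.unusedVariables false

namespace WPP

open scoped ComplexConjugate
open GAM (H E F pd pdl PLat IsTh OddTor IsDel Gro IsLat)
open PST DWC

/-! ## The group and the domain -/

/-- [GrB] block diagonal matrices. PROOF. Entries. For `dt`: the block of a product of block diagonal
matrices is the product of the blocks; `(Jm g^H Jm)` has the blocks `J_s g_s^H J_s`. The last part: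
`g.det = ∏ s, dt pl s g` (`Matrix.det_of_block..`, or: reindex `α ⊕ β` by `Σ s, {p // pl p = s}` and
`Matrix.det_blockDiagonal'`; `Equiv.sigmaFiberEquiv`). -/
def St_GrB : Prop := ∀ (α β S : Type) [Fintype α] [Fintype β] [Fintype S] [DecidableEq α]
  [DecidableEq β] [DecidableEq S] (pl : α ⊕ β → S),
  (∀ g h : Matrix (α ⊕ β) (α ⊕ β) ℂ, IsB pl g → IsB pl h → IsB pl (g * h) ∧
    ∀ s, dt pl s (g * h) = dt pl s g * dt pl s h) ∧
  IsB pl (1 : Matrix (α ⊕ β) (α ⊕ β) ℂ) ∧ (∀ s, dt pl s (1 : Matrix (α ⊕ β) (α ⊕ β) ℂ) = 1) ∧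
  (∀ g : Matrix (α ⊕ β) (α ⊕ β) ℂ, IsB pl g → IsB pl (Jm α β * g.conjTranspose * Jm α β)) ∧
  (∀ g : Matrix (α ⊕ β) (α ⊕ β) ℂ, IsB pl g → IsU g → ∀ s, ‖dt pl s g‖ = 1) ∧
  ∀ g : Matrix (α ⊕ β) (α ⊕ β) ℂ, IsB pl g → g.det = ∏ s, dt pl s g

/-- [MobB] the action on the product domain. PROOF (from `PST.St_UAl`, `PST.St_UGr`, `St_GrB`). For
block diagonal `g`, `w` the matrices `a w + b`, `c w + d` are block diagonal, so is
`(c w + d)⁻¹` (`c w + d` is invertible and block diagonal: the inverse is block diagonal, for instance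
because it commutes with the diagonal matrices `diag (x_{pl j})`), hence `mob g w`, `ca g w`. The
determinants at `s`: let `h` be the matrix with the block of `g` at the place `s` and the identity
blocks at the other places. `IsU h`, `h.det = dt pl s g`, `(ca h w).det * (cd h w).det = h.det` (UAl)
for `w' =` the point with the block of `w` at `s` and zero blocks elsewhere, and `(ca h w').det` is the
determinant of the block of `ca g w` at `s` (the other blocks are 1), the same for `cd`. -/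
def St_MobB : Prop := ∀ (α β S : Type) [Fintype α] [Fintype β] [Fintype S] [DecidableEq α]
  [DecidableEq β] [DecidableEq S] (pl : α ⊕ β → S) (g : Matrix (α ⊕ β) (α ⊕ β) ℂ), IsU g →
  IsB pl g → ∀ w ∈ OmB pl, mobB pl g w ∈ OmB pl ∧ ex0 pl (mobB pl g w) = mob g (ex0 pl w) ∧
  (∀ i i', pl (Sum.inl i) ≠ pl (Sum.inl i') → ca g (ex0 pl w) i i' = 0) ∧
  (∀ j j', pl (Sum.inr j) ≠ pl (Sum.inr j') → cd g (ex0 pl w) j j' = 0 ∧
    (cd g (ex0 pl w))⁻¹ j j' = 0) ∧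
  (∀ s, ((ca g (ex0 pl w)).submatrix (Subtype.val : Pa pl s → α) Subtype.val).det *
      ((cd g (ex0 pl w)).submatrix (Subtype.val : Pb pl s → β) Subtype.val).det = dt pl s g ∧
    ((ca g (ex0 pl w)).submatrix (Subtype.val : Pa pl s → α) Subtype.val).det ≠ 0 ∧
    ((cd g (ex0 pl w)).submatrix (Subtype.val : Pb pl s → β) Subtype.val).det ≠ 0 ∧
    (((cd g (ex0 pl w))⁻¹).submatrix (Subtype.val : Pb pl s → β) Subtype.val).det =
      (((cd g (ex0 pl w)).submatrix (Subtype.val : Pb pl s → β) Subtype.val).det)⁻¹) ∧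
  ∀ h : Matrix (α ⊕ β) (α ⊕ β) ℂ, IsU h → IsB pl h →
    mobB pl (h * g) w = mobB pl h (mobB pl g w)

/-- [OmBT] the topology of the product domain. PROOF (from `PST.St_OmT`). `ex0 pl` is linear,
injective, continuous with closed range (left inverse `rs pl`). -/
def St_OmBT : Prop := ∀ (α β S : Type) [Fintype α] [Fintype β] [DecidableEq α] [DecidableEq β]
  [DecidableEq S] (pl : α ⊕ β → S), IsOpen (OmB pl) ∧ Convex ℝ (OmB pl) ∧ 0 ∈ OmB pl ∧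
  (∀ ρ : ℝ, 0 ≤ ρ → ρ < 1 → IsCompact (OmBC pl ρ) ∧ OmBC pl ρ ⊆ OmB pl) ∧
  (∀ w ∈ OmB pl, ∃ ρ : ℝ, 0 ≤ ρ ∧ ρ < 1 ∧ OmBC pl ρ ∈ nhds w) ∧
  Continuous (ex0 pl : (Ga pl → ℂ) → α × β → ℂ) ∧ (∀ w : Ga pl → ℂ, rs pl (ex0 pl w) = w) ∧
  ex0 pl (0 : Ga pl → ℂ) = 0 ∧ Differentiable ℂ (ex0 pl : (Ga pl → ℂ) → α × β → ℂ)

/-- [UTrB] transitivity of the block diagonal group. PROOF. As `Pool/Agent/PST/UTr.lean` (the explicit
matrix there is block diagonal for a block diagonal `w`; or apply `PST.St_UTr` to every block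
`Pa pl s`, `Pb pl s` and put the matrices together). -/
def St_UTrB : Prop := ∀ (α β S : Type) [Fintype α] [Fintype β] [Fintype S] [DecidableEq α]
  [DecidableEq β] [DecidableEq S] (pl : α ⊕ β → S), ∀ w ∈ OmB pl,
  ∃ g : Matrix (α ⊕ β) (α ⊕ β) ℂ, IsU g ∧ IsB pl g ∧ mobB pl g 0 = w

/-! ## Fock vectors -/

/-- [EllS] the Fock functional on the product domain. PROOF (from `PST.St_Ell`, `St_OmBT`). Chain rule
for the linear map `ex0 pl`: `pd p (f ∘ ex0 pl) w = pd p.1 f (ex0 pl w)`. -/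
def St_EllS : Prop := ∀ (α β μ S : Type) [Fintype α] [Fintype β] [Fintype μ] [DecidableEq α]
  [DecidableEq β] [DecidableEq μ] [DecidableEq S] (pl : α ⊕ β → S) (G : (Ix α β μ → ℂ) → ℂ),
  Gro G → DifferentiableOn ℂ (fun w : Ga pl → ℂ => ell (ex0 pl w) G) (OmB pl) ∧
  ∀ w ∈ OmB pl, ∀ p : Ga pl, pd p (fun w : Ga pl → ℂ => ell (ex0 pl w) G) w =
    1 / Real.pi * ell (ex0 pl w) (Dij p.1 G)

/-- [NonB] the determinants at `s` are not identically zero. PROOF (from `PST.St_NonM`,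
`PST.St_DetPt`). `fm k θ w x ≠ 0` for some `x`, so the functions `dpsi (inr j, k) θ w`, `j : β`, are
linearly independent; so are those with `pl (inr j) = s`; `St_DetPt`. -/
def St_NonB : Prop := ∀ (α β μ S : Type) [Fintype α] [Fintype β] [Fintype μ] [DecidableEq α]
  [DecidableEq β] [DecidableEq μ] [DecidableEq S] (pl : α ⊕ β → S)
  (L : Submodule ℤ (Ix α β μ → ℂ)) (χ θ : (Ix α β μ → ℂ) → ℂ), PLat L χ → IsTh L χ θ →
  (∃ v, θ v ≠ 0) → ∀ w ∈ Om α β, ∀ s k, ∃ x, fmB pl s k θ w x ≠ 0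

/-- [SupB] the suprema depend continuously on `w`. PROOF (from `St_NonB` and the statements used in
`Pool/Agent/PST/Sup.lean`). As `PST/Sup.lean`, second part, for `fmB` instead of `fm`. -/
def St_SupB : Prop := ∀ (α β μ S : Type) [Fintype α] [Fintype β] [Fintype μ] [DecidableEq α]
  [DecidableEq β] [DecidableEq μ] [DecidableEq S] (pl : α ⊕ β → S)
  (L : Submodule ℤ (Ix α β μ → ℂ)) (χ θ : (Ix α β μ → ℂ) → ℂ), PLat L χ → IsTh L χ θ →
  (∃ v, θ v ≠ 0) → ∀ s k, ∃ N : (α × β → ℂ) → ℝ, ContinuousOn N (Om α β) ∧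
    ∀ w ∈ Om α β, IsLUB (Set.range fun x => ‖fmB pl s k θ w x‖) (Real.exp (N w))

/-- [EquB] equivariance of the determinants at `s`. PROOF (from `PST.St_EquP`, `PST.St_EquD`,
`St_MobB`). As `Pool/Agent/PST/Equi.lean`: for `h` the unit vector `(inl i, k)`, `pl (inl i) = s`,
`Cm g w h` is the combination of the unit vectors `(inl i', k)`, `pl (inl i') = s`, with the
coefficients `ca g w i' i`, similarly for `inr` with `(cd g w)⁻¹`. So the matrix of the derivatives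
for `θ₁` at `x` times `j` is the matrix of the block of `ca g w` (transposed) times the matrix for
`θ₀`; `mp s` is the determinant of the block of `ca g w`, `mm s` that of the block of `(cd g w)⁻¹`, so
`mp s = dt pl s g * mm s`. -/
def St_EquB : Prop := ∀ (α β μ S : Type) [Fintype α] [Fintype β] [Fintype μ] [Fintype S]
  [DecidableEq α] [DecidableEq β] [DecidableEq μ] [DecidableEq S] (pl : α ⊕ β → S)
  (g : Matrix (α ⊕ β) (α ⊕ β) ℂ) (L₀ L₁ : Submodule ℤ (Ix α β μ → ℂ))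
  (χ₀ θ₀ χ₁ θ₁ : (Ix α β μ → ℂ) → ℂ), PLat L₀ χ₀ → PLat L₁ χ₁ → IsTh L₀ χ₀ θ₀ →
  IsTh L₁ χ₁ θ₁ → (∃ v, θ₀ v ≠ 0) → (∃ v, θ₁ v ≠ 0) → Maps g L₁ L₀ χ₁ χ₀ → IsB pl g →
  ∀ w ∈ OmB pl, ∃ (j : ℂ) (mp mm : S → ℂ), j ≠ 0 ∧ (∀ s, mp s ≠ 0 ∧ mm s ≠ 0 ∧
    mp s = dt pl s g * mm s) ∧
    (∀ x, psi θ₀ (ex0 pl (mobB pl g w)) (act g x) = j * psi θ₁ (ex0 pl w) x) ∧
    (∀ s k x, mp s * fpB pl s k θ₀ (ex0 pl (mobB pl g w)) (fun b => act g (x b)) =
      j ^ Fintype.card (Pa pl s) * fpB pl s k θ₁ (ex0 pl w) x) ∧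
    ∀ s k x, mm s * fmB pl s k θ₀ (ex0 pl (mobB pl g w)) (fun b => act g (x b)) =
      j ^ Fintype.card (Pb pl s) * fmB pl s k θ₁ (ex0 pl w) x

/-- [GamS] invariance under the congruence subgroup. PROOF (from `St_EquB`, `PST` statements used in
`Pool/Agent/PST/GamI.lean`). As `PST/GamI.lean`: `g` maps `L` to `L`, `χ (act g l) = χ l` by the
congruence, `act g` fixes the points `y_i`, `x_i`, `x'_i` modulo lattice vectors which change `psi`,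
`dpsi` by the factor `1`. -/
def St_GamS : Prop := ∀ (α β μ S : Type) [Fintype α] [Fintype β] [Fintype μ] [Fintype S]
  [DecidableEq α] [DecidableEq β] [DecidableEq μ] [DecidableEq S] (pl : α ⊕ β → S) (s : S)
  (g : Matrix (α ⊕ β) (α ⊕ β) ℂ) (L : Submodule ℤ (Ix α β μ → ℂ))
  (χ θ : (Ix α β μ → ℂ) → ℂ) (n e : ℕ) (k : μ) (y : Option (Ga pl) → Ix α β μ → ℂ)
  (x : Pa pl s → Ix α β μ → ℂ) (x' : Pb pl s → Ix α β μ → ℂ), PLat L χ → IsTh L χ θ →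
  (∃ v, θ v ≠ 0) → (∀ i, (n : ℤ) • y i ∈ L) → (∀ i, (n : ℤ) • x i ∈ L) →
  (∀ i, (n : ℤ) • x' i ∈ L) → n ≠ 0 → GamB pl e (2 * n ^ 2) L g → ∀ w ∈ OmB pl,
  ∃ j mm : ℂ, j ≠ 0 ∧ mm ≠ 0 ∧
    (∀ t, psi θ (ex0 pl (mobB pl g w)) (act g t) = j * psi θ (ex0 pl w) t) ∧
    (∀ t, mm * fmB pl s k θ (ex0 pl (mobB pl g w)) (fun b => act g (t b)) =
      j ^ Fintype.card (Pb pl s) * fmB pl s k θ (ex0 pl w) t) ∧
    ∀ o, mm ^ e * XFB pl s e k θ y x x' (mobB pl g w) o =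
      j ^ (1 + e * (Fintype.card (Pa pl s) + Fintype.card (Pb pl s))) *
        XFB pl s e k θ y x x' w o

/-! ## The algebraic relation -/

/-- [BndB] the estimate from the half planes. PROOF (from `DWC.St_PLh`, `St_OmBT`). As
`Pool/Agent/DWC/Bnd.lean`, with `OmB pl`, `OmBC pl ρ` for `Om α β`, `OmC α β ρ`. -/
def St_BndB : Prop := ∀ (α β S κ : Type) [Fintype α] [Fintype β] [Fintype κ] [DecidableEq α]
  [DecidableEq β] [DecidableEq S] (pl : α ⊕ β → S) (K : Set (Ga pl → ℂ)) (C C' : ℝ) (k : ℕ)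
  (N : (Ga pl → ℂ) → ℝ) (f : κ → (Ga pl → ℂ) → ℂ), IsCompact K → K ⊆ OmB pl →
  ContinuousOn N (OmB pl) → (∀ i, DifferentiableOn ℂ (f i) (OmB pl)) →
  (∀ ρ : ℝ, 0 ≤ ρ → ρ < 1 → ∀ w ∈ OmBC pl ρ, Real.exp (N w) * (1 - ρ) ^ k ≤ C' ∧
    ∀ i, ‖f i w‖ * (1 - ρ) ^ k ≤ C') →
  (∀ p ∈ K, ∃ U ∈ nhds p, ∀ w ∈ U, ∃ z : ℂ → Ga pl → ℂ, z Complex.I = w ∧
    DifferentiableOn ℂ z {t | 0 < t.im} ∧ ContinuousOn z {t | 0 ≤ t.im} ∧
    (∀ t : ℂ, 0 ≤ t.im → ∃ ρ : ℝ, 0 ≤ ρ ∧ ρ < 1 ∧ z t ∈ OmBC pl ρ ∧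
      1 ≤ C * (1 - ρ) * (1 + ‖t‖) ^ 2) ∧
    ∀ t : ℝ, ∃ z' ∈ K, ∃ c : ℂ, ‖c‖ * Real.exp (N z') = Real.exp (N (z t)) ∧
      ∀ i, f i (z t) = c * f i z') →
  ∃ C₁ : ℝ, ∀ p ∈ K, ∃ U ∈ nhds p, ∀ (m : ℕ) (P : MvPolynomial κ ℂ), P.IsHomogeneous m →
    ∀ B : ℝ, (∀ z ∈ K, ‖MvPolynomial.eval (fun i => f i z) P‖ ≤ B) →
      ∀ w ∈ U, ‖MvPolynomial.eval (fun i => f i w) P‖ ≤ C₁ ^ m * B

/-- [SieB] existence of an algebraic relation. PROOF (from `St_GamS`, `St_SupB`, `St_EllS`,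
`St_OmBT`, `St_BndB`, `PST.St_Sup`, `PST.St_UGr`, `DWC.St_SieA`, `DWC.St_Grw`). As
`Pool/Agent/DWC/SieH.lean`, with the domain `OmB pl` and the functions `XFB`, `fmB`, `fpB` of the place
`s`; `card (Option (Option (Ga pl))) = card (Ga pl) + 2`. -/
def St_SieB : Prop := ∀ (α β μ S : Type) [Fintype α] [Fintype β] [Fintype μ] [Fintype S]
  [DecidableEq α] [DecidableEq β] [DecidableEq μ] [DecidableEq S] (pl : α ⊕ β → S) (s : S)
  (L : Submodule ℤ (Ix α β μ → ℂ)) (χ θ : (Ix α β μ → ℂ) → ℂ) (e : ℕ) (k : μ)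
  (y : Option (Ga pl) → Ix α β μ → ℂ) (x : Pa pl s → Ix α β μ → ℂ)
  (x' : Pb pl s → Ix α β μ → ℂ), PLat L χ → IsTh L χ θ → (∃ v, θ v ≠ 0) → CocB pl e L →
  (∀ i, OddTor L (y i)) → (∀ i, OddTor L (x i)) → (∀ i, OddTor L (x' i)) →
  ∃ (m : ℕ) (P : MvPolynomial (Option (Option (Ga pl))) ℂ), P ≠ 0 ∧ P.IsHomogeneous m ∧
    ∀ w ∈ OmB pl, MvPolynomial.eval (fun i => XFB pl s e k θ y x x' w i) P = 0

/-- [RelB] the algebraic relation. PROOF (from `St_SieB`, `St_EllS`, `St_OmBT`, `PST.St_MinP`,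
`PST.St_HomI`, `PST.St_Ell`). As `Pool/Agent/DWC/RelH.lean`, with `κ = Ga pl`. -/
def St_RelB : Prop := ∀ (α β μ S : Type) [Fintype α] [Fintype β] [Fintype μ] [Fintype S]
  [DecidableEq α] [DecidableEq β] [DecidableEq μ] [DecidableEq S] (pl : α ⊕ β → S) (s : S)
  (L : Submodule ℤ (Ix α β μ → ℂ)) (χ θ : (Ix α β μ → ℂ) → ℂ) (e : ℕ) (k : μ)
  (y : Option (Ga pl) → Ix α β μ → ℂ) (x : Pa pl s → Ix α β μ → ℂ)
  (x' : Pb pl s → Ix α β μ → ℂ), PLat L χ → IsTh L χ θ → (∃ v, θ v ≠ 0) → CocB pl e L →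
  (∀ i, OddTor L (y i)) → (∀ i, OddTor L (x i)) → (∀ i, OddTor L (x' i)) →
  psi θ 0 (y none) ≠ 0 → fpB pl s k θ 0 x ≠ 0 → fmB pl s k θ 0 x' ≠ 0 →
  (Matrix.of fun i j : Option (Ga pl) =>
    Option.elim j (F θ (y i) 0) fun p => Dij p.1 (F θ (y i)) 0).det ≠ 0 →
  ∃ (m : ℕ) (P : MvPolynomial (Option (Option (Ga pl))) ℂ), P.IsHomogeneous m ∧
    (∀ w ∈ OmB pl, MvPolynomial.eval (fun i => XFB pl s e k θ y x x' w i) P = 0) ∧
    ∃ w ∈ OmB pl, MvPolynomial.eval (fun i => XFB pl s e k θ y x x' w i)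
      (MvPolynomial.pderiv none P) ≠ 0

/-- [PtsB] choice of the points of odd order. PROOF (from `PST.St_Ind3`, `PST.St_DetPt`). As
`Pool/Agent/PST/Pts.lean`: for the matrix over `Option (Ga pl)` use `Ind3` with `b` supported on
`Ga pl`. -/
def St_PtsB : Prop := ∀ (α β μ S : Type) [Fintype α] [Fintype β] [Fintype μ] [DecidableEq α]
  [DecidableEq β] [DecidableEq μ] [DecidableEq S] (pl : α ⊕ β → S) (s : S)
  (L : Submodule ℤ (Ix α β μ → ℂ)) (χ θ : (Ix α β μ → ℂ) → ℂ) (k : μ), PLat L χ →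
  IsTh L χ θ → (∃ v, θ v ≠ 0) →
  ∃ (y : Option (Ga pl) → Ix α β μ → ℂ) (x : Pa pl s → Ix α β μ → ℂ)
    (x' : Pb pl s → Ix α β μ → ℂ), (∀ i, OddTor L (y i)) ∧ (∀ i, OddTor L (x i)) ∧
    (∀ i, OddTor L (x' i)) ∧ psi θ 0 (y none) ≠ 0 ∧ fpB pl s k θ 0 x ≠ 0 ∧
    fmB pl s k θ 0 x' ≠ 0 ∧ (Matrix.of fun i j : Option (Ga pl) =>
      Option.elim j (F θ (y i) 0) fun p => Dij p.1 (F θ (y i)) 0).det ≠ 0

/-! ## Derivations -/

/-- [DelS] restriction of germs to the product domain. PROOF. `ex0 pl` is linear and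
`pdl l (f ∘ ex0 pl) 0 = pdl (l.map Subtype.val) f 0` for `f` analytic at `0` (induction over `l`, in a
neighbourhood of `0`). -/
def St_DelS : Prop := ∀ (α β S : Type) [Fintype α] [Fintype β] [DecidableEq α] [DecidableEq β]
  [DecidableEq S] (pl : α ⊕ β → S) (δ : Derivation ℚ ℂ ℂ) (a b : (α × β → ℂ) → ℂ),
  IsDelG δ a b → IsDelG δ (fun w : Ga pl → ℂ => a (ex0 pl w)) (fun w => b (ex0 pl w))

/-- [DelB] the action of `δ` on the functions `XFB`. PROOF (from `St_DelS`, `St_EllS` and the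
statements used in `Pool/Agent/PST/DelX.lean`). As `PST/DelX.lean`; the vector field
`xi Bp Bm c (ex0 pl w) p` of a block diagonal operator is zero for `p` not in `Ga pl` (`Bds`), so only
the derivatives `pd p`, `p : Ga pl`, occur. -/
def St_DelB : Prop := ∀ (α β μ S : Type) [Fintype α] [Fintype β] [Fintype μ] [DecidableEq α]
  [DecidableEq β] [DecidableEq μ] [DecidableEq S] (pl : α ⊕ β → S) (s : S)
  (δ : Derivation ℚ ℂ ℂ) (L : Submodule ℤ (Ix α β μ → ℂ)) (χ θ : (Ix α β μ → ℂ) → ℂ) (k : ℂ)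
  (Bp : Matrix α α ℂ) (Bm : Matrix β β ℂ) (c : Matrix α β ℂ) (e : ℕ) (k₀ : μ), PLat L χ →
  IsTh L χ θ → Bds pl Bp Bm c → HasHat δ L θ k Bp Bm c →
  ∃ (K : (Ga pl → ℂ) → ℂ) (Ξ : Ga pl → (Ga pl → ℂ) → ℂ),
    ∀ (y : Option (Ga pl) → Ix α β μ → ℂ) (x : Pa pl s → Ix α β μ → ℂ)
      (x' : Pb pl s → Ix α β μ → ℂ),
    (∀ i, OddTor L (y i)) → (∀ i, OddTor L (x i)) → (∀ i, OddTor L (x' i)) →
    ∀ o, IsDelG δ (fun w => XFB pl s e k₀ θ y x x' w o) (fun w =>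
      (K w + if o = none then e * trA pl s Bp else e * trB pl s Bm) *
        XFB pl s e k₀ θ y x x' w o +
        ∑ p, Ξ p w * pd p (fun w => XFB pl s e k₀ θ y x x' w o) w)

/-- [CoreB] the core theorem for the place `s`. PROOF (from `St_RelB`, `St_PtsB`, `St_DelB`,
`St_EquB`, `St_MobB`, `St_GrB`, `St_OmBT`, `St_EllS`, `PST.St_DelPG`, `PST.St_DelGR`, `PST.St_UGr`,
`PST.St_UAl`, `PST.St_Ell`). As `Pool/Agent/DWC/CoreH.lean` with `dt pl s g` for `g.det`. -/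
def St_CoreB : Prop := ∀ (α β μ S : Type) [Fintype α] [Fintype β] [Fintype μ] [Fintype S]
  [DecidableEq α] [DecidableEq β] [DecidableEq μ] [DecidableEq S] (pl : α ⊕ β → S) (s : S)
  (δ : Derivation ℚ ℂ ℂ) (g : Matrix (α ⊕ β) (α ⊕ β) ℂ)
  (L₀ L₁ : Submodule ℤ (Ix α β μ → ℂ)) (χ₀ θ₀ χ₁ θ₁ : (Ix α β μ → ℂ) → ℂ)
  (e : ℕ) (k₀ k₁ : ℂ) (Bp₀ Bp₁ : Matrix α α ℂ) (Bm₀ Bm₁ : Matrix β β ℂ)
  (c₀ c₁ : Matrix α β ℂ), Nonempty μ → e ≠ 0 → PLat L₀ χ₀ → PLat L₁ χ₁ → IsTh L₀ χ₀ θ₀ →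
  IsTh L₁ χ₁ θ₁ → (∃ v, θ₀ v ≠ 0) → (∃ v, θ₁ v ≠ 0) → Maps g L₁ L₀ χ₁ χ₀ → IsB pl g →
  δ (dt pl s g) = 0 → CocB pl e L₀ → Bds pl Bp₀ Bm₀ c₀ → Bds pl Bp₁ Bm₁ c₁ →
  HasHat δ L₀ θ₀ k₀ Bp₀ Bm₀ c₀ → HasHat δ L₁ θ₁ k₁ Bp₁ Bm₁ c₁ →
  trA pl s Bp₀ - trB pl s Bm₀ = trA pl s Bp₁ - trB pl s Bm₁

end WPP
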