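import Pool.Agent.WPP.StN
import Pool.Agent.PST.StH
import Pool.Agent.Helper71.AF.Alg

/-!
# WPP: the operator in the normal form
-/

set_option autoImplicit false
set_option linter.unusedSectionVars false

namespace WPP

open scoped ComplexConjugate
open GAM (H E F pd pdl PLat IsTh OddTor IsDel Gro IsLat HasExp CMF CMT IsExp IsCM)
open Pool.Agent.GPC (AbVar hermForm bilForm)
open Module Matrix
open PST DWC

section mat

variable {l m n : Type} [Fintype m]

/-- product rule for matrices -/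
private theorem HatB_mul (δ : Derivation ℚ ℂ ℂ) (A : Matrix l m ℂ) (B : Matrix m n ℂ) :
    (A * B).map δ = A * B.map δ + A.map δ * B := by
  ext i j
  simp only [Matrix.map_apply, Matrix.add_apply, Matrix.mul_apply, map_sum]
  rw [← Finset.sum_add_distrib]
  refine Finset.sum_congr rfl fun k _ => ?_
  rw [Derivation.leibniz, smul_eq_mul, smul_eq_mul]
  ring

private theorem HatB_alg (δ : Derivation ℚ ℂ ℂ) (A : Matrix l n ℂ)
    (h : ∀ i j, IsAlgebraic ℚ (A i j)) : A.map δ = 0 := by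
  ext i j
  exact Pool.Agent.Helper7.derivation_eq_zero δ _ (h i j)

private theorem HatB_one [DecidableEq n] (δ : Derivation ℚ ℂ ℂ) :
    (1 : Matrix n n ℂ).map δ = 0 := by
  refine HatB_alg δ _ fun i j => ?_
  by_cases h : i = j
  · subst h
    rw [Matrix.one_apply_eq]
    exact isAlgebraic_one
  · rw [Matrix.one_apply_ne h]
    exact isAlgebraic_zero

end mat

section blk

variable {α β μ : Type} [Fintype α] [Fintype β] [Fintype μ] [DecidableEq α] [DecidableEq β]
  [DecidableEq μ]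

private theorem HatB_blk_mul (P P' : Matrix α α ℂ) (Q Q' : Matrix β β ℂ) :
    blk μ P Q * blk μ P' Q' = blk μ (P * P') (Q * Q') := by
  ext ⟨p, k⟩ ⟨q, l⟩
  rw [Matrix.mul_apply]
  simp only [blk, Matrix.of_apply, Fintype.sum_prod_type, ite_mul, zero_mul, mul_ite, mul_zero]
  simp only [Finset.sum_ite_eq', Finset.mem_univ, if_true]
  by_cases h : k = l
  · subst h
    simp only [if_true]
    rw [← Matrix.mul_apply, Matrix.fromBlocks_multiply]
    simp
  · simp [h]

private theorem HatB_blk_one : blk μ (1 : Matrix α α ℂ) (1 : Matrix β β ℂ) = 1 := by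
  ext ⟨p, k⟩ ⟨q, l⟩
  rw [blk, Matrix.of_apply, Matrix.fromBlocks_one]
  simp only [Matrix.one_apply, Prod.mk.injEq]
  by_cases h : k = l <;> by_cases h' : p = q <;> simp [h, h']

private theorem HatB_blk_map (δ : Derivation ℚ ℂ ℂ) (P : Matrix α α ℂ) (Q : Matrix β β ℂ) :
    (blk μ P Q).map δ = blk μ (P.map δ) (Q.map δ) := by
  ext ⟨p, k⟩ ⟨q, l⟩
  simp only [blk, Matrix.map_apply, Matrix.of_apply]
  by_cases h : k = l
  · rw [if_pos h, if_pos h]
    rcases p with p | p <;> rcases q with q | q <;> simp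
  · rw [if_neg h, if_neg h, map_zero]

end blk

/-- The inverse of a block diagonal matrix is block diagonal. -/
private theorem HatB_inv {ν S : Type} [Fintype ν] [DecidableEq ν] [DecidableEq S] (f : ν → S)
    (A : Matrix ν ν ℂ) (hA : A.det ≠ 0) (h : ∀ i i', f i ≠ f i' → A i i' = 0) :
    ∀ i i', f i ≠ f i' → A⁻¹ i i' = 0 := by
  intro i i' hi
  obtain ⟨D, hD⟩ : ∃ D : Matrix ν ν ℂ, D = Matrix.diagonal fun j => if f j = f i then 1 else 0 :=
    ⟨_, rfl⟩
  have h1 : D * A = A * D := by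
    ext j j'
    rw [hD, Matrix.diagonal_mul, Matrix.mul_diagonal]
    by_cases h2 : f j = f j'
    · rw [h2]
      ring
    · rw [h j j' h2]
      ring
  have hu : IsUnit A.det := isUnit_iff_ne_zero.mpr hA
  have h3 : D * A⁻¹ = A⁻¹ * D := by
    calc D * A⁻¹ = A⁻¹ * A * (D * A⁻¹) := by rw [Matrix.nonsing_inv_mul _ hu, Matrix.one_mul]
      _ = A⁻¹ * (D * A) * A⁻¹ := by rw [h1]; simp only [Matrix.mul_assoc]
      _ = A⁻¹ * D * (A * A⁻¹) := by simp only [Matrix.mul_assoc]
      _ = A⁻¹ * D := by rw [Matrix.mul_nonsing_inv _ hu, Matrix.mul_one]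
  have h4 := congrFun (congrFun h3 i) i'
  rw [hD, Matrix.diagonal_mul, Matrix.mul_diagonal, if_pos rfl, if_neg (Ne.symm hi), one_mul,
    mul_zero] at h4
  exact h4

private theorem HatB_bd {ν S : Type} [Fintype ν] [DecidableEq ν] [DecidableEq S] (f : ν → S)
    (δ : Derivation ℚ ℂ ℂ) (A : Matrix ν ν ℂ) (hA : A.det ≠ 0)
    (h : ∀ i i', f i ≠ f i' → A i i' = 0) :
    ∀ i i', f i ≠ f i' → (A * A⁻¹.map δ) i i' = 0 := by
  intro i i' hi
  rw [Matrix.mul_apply]
  refine Finset.sum_eq_zero fun k _ => ?_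
  by_cases h1 : f i = f k
  · rw [Matrix.map_apply, HatB_inv f A hA h k i' (h1 ▸ hi), map_zero, mul_zero]
  · rw [h i k h1, zero_mul]

/-- The quadratic part in block form. -/
private theorem HatB_hop {α β : Type} [Fintype α] [Fintype β] [DecidableEq α] [DecidableEq β]
    (C : Matrix (Ix α β Unit) (Ix α β Unit) ℂ) (hC : C.transpose = C)
    (hpp : ∀ i i', C (Sum.inl i, ()) (Sum.inl i', ()) = 0)
    (hmm : ∀ j j', C (Sum.inr j, ()) (Sum.inr j', ()) = 0) (k : ℂ) (Bp : Matrix α α ℂ)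
    (Bm : Matrix β β ℂ) (G : (Ix α β Unit → ℂ) → ℂ) :
    gop k (blk Unit Bp Bm) C G =
      hop k Bp Bm (Matrix.of fun i j => C (Sum.inl i, ()) (Sum.inr j, ())) G := by
  have hC' : ∀ j i, C (Sum.inr j, ()) (Sum.inl i, ()) = C (Sum.inl i, ()) (Sum.inr j, ()) :=
    fun j i => congrFun (congrFun hC.symm (Sum.inr j, ())) (Sum.inl i, ())
  funext v
  unfold gop hop
  have e1 : ∑ a, ∑ b, blk Unit Bp Bm a b * (v b * pd a G v) =
      ∑ i, ∑ i', Bp i i' * (v (Sum.inl i', ()) * pd (Sum.inl i, ()) G v) +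
      ∑ j, ∑ j', Bm j j' * (v (Sum.inr j', ()) * pd (Sum.inr j, ()) G v) := by
    simp [Fintype.sum_prod_type, Fintype.sum_sum_type, blk]
  have e3 : ∑ a, ∑ b, C a b * v a * v b =
      2 * ∑ i, ∑ j, C (Sum.inl i, ()) (Sum.inr j, ()) *
        (v (Sum.inl i, ()) * v (Sum.inr j, ())) := by
    simp only [Fintype.sum_prod_type, Fintype.sum_sum_type, Finset.univ_unique,
      Finset.sum_singleton, PUnit.default_eq_unit, hpp, hmm, hC', zero_mul,
      Finset.sum_const_zero, zero_add, add_zero]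
    rw [Finset.sum_comm (s := (Finset.univ : Finset β)), two_mul]
    congr 1
    · refine Finset.sum_congr rfl fun i _ => Finset.sum_congr rfl fun j _ => ?_
      ring
    · refine Finset.sum_congr rfl fun i _ => Finset.sum_congr rfl fun j _ => ?_
      ring
  rw [e1, e3]
  simp only [Finset.univ_unique, Finset.sum_singleton, PUnit.default_eq_unit, Matrix.of_apply]
  have e6 : ∑ i, ∑ j, C (Sum.inl i, ()) (Sum.inr j, ()) *
        (v (Sum.inl i, ()) * (v (Sum.inr j, ()) * G v)) =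
      (∑ i, ∑ j, C (Sum.inl i, ()) (Sum.inr j, ()) *
        (v (Sum.inl i, ()) * v (Sum.inr j, ()))) * G v := by
    simp only [Finset.sum_mul]
    refine Finset.sum_congr rfl fun i _ => Finset.sum_congr rfl fun j _ => ?_
    ring
  rw [e6]
  ring

theorem thm_HatB (h1 : St_HatA) (h2 : St_QRel) : St_HatB := by
  intro X K _ _ c S _ _ φ t ρ α β _ _ _ _ pl T U Tp Tm Ta g n e r L χ θ δ hG hK hN hL hθ hne hLe
  -- the blocks
  have b1 : blk Unit Tp Tm * blk Unit Tp⁻¹ Tm⁻¹ = 1 := by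
    rw [HatB_blk_mul, Matrix.mul_nonsing_inv _ (isUnit_iff_ne_zero.mpr hN.dp),
      Matrix.mul_nonsing_inv _ (isUnit_iff_ne_zero.mpr hN.dm), HatB_blk_one]
  obtain ⟨Bl, hBl⟩ : ∃ Bl, Bl = blk Unit Tp Tm := ⟨_, rfl⟩
  obtain ⟨Bi, hBi⟩ : ∃ Bi, Bi = blk Unit Tp⁻¹ Tm⁻¹ := ⟨_, rfl⟩
  have hfac := hN.fac
  rw [← hBl] at hfac
  rw [← hBl, ← hBi] at b1
  have b2 : Bi * Bl = 1 := mul_eq_one_comm.mp b1
  have ts := hN.ts
  have st := hN.st
  -- the algebraic inverse
  have a1 : Ta * U = Bi := by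
    have e1 : Bl * (Ta * U) = 1 := by
      rw [← Matrix.mul_assoc, ← hfac, ts]
    calc Ta * U = Bi * Bl * (Ta * U) := by rw [b2, Matrix.one_mul]
      _ = Bi * (Bl * (Ta * U)) := Matrix.mul_assoc _ _ _
      _ = Bi := by rw [e1, Matrix.mul_one]
  have a2 : (U * Bl) * Ta = 1 := by
    rw [Matrix.mul_assoc, ← hfac, st]
  have a3 : Ta * (U * Bl) = 1 := by
    rw [← Matrix.mul_assoc, a1, b2]
  have a4 : (U * Bl).map δ = 0 := by
    have e1 := HatB_mul δ (U * Bl) Ta
    rw [a2, HatB_one, HatB_alg δ Ta hN.alg, Matrix.mul_zero, zero_add] at e1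
    calc (U * Bl).map δ = (U * Bl).map δ * (Ta * (U * Bl)) := by rw [a3, Matrix.mul_one]
      _ = ((U * Bl).map δ * Ta) * (U * Bl) := (Matrix.mul_assoc _ _ _).symm
      _ = 0 := by rw [← e1, Matrix.zero_mul]
  have a5 : U = (U * Bl) * Bi := by rw [Matrix.mul_assoc, b1, Matrix.mul_one]
  have hB : T * U.map δ = blk Unit (Tp * Tp⁻¹.map δ) (Tm * Tm⁻¹.map δ) := by
    have e1 : U.map δ = (U * Bl) * Bi.map δ := by
      have e2 := HatB_mul δ (U * Bl) Bi
      rw [← a5, a4, Matrix.zero_mul, add_zero] at e2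
      exact e2
    rw [e1, ← Matrix.mul_assoc, ← Matrix.mul_assoc, ts, Matrix.one_mul, hBi, HatB_blk_map, hBl,
      HatB_blk_mul]
  -- the operator
  have hlat : ∀ l ∈ L, ∃ n : ℕ, n ≠ 0 ∧ U.mulVec ((n : ℤ) • l) ∈ X.Λ := by
    intro l hl
    obtain ⟨a, hab⟩ := hLe l hl
    obtain ⟨n, hn, hn'⟩ := (hN.lat (U.mulVec l)).mpr ⟨a, by
      rw [Matrix.mulVec_mulVec, ts, Matrix.one_mulVec, hab]⟩
    refine ⟨n, hn, ?_⟩
    have e2 : U.mulVec ((n : ℤ) • l) = (n : ℤ) • U.mulVec l := by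
      rw [Matrix.mulVec_smul]
    rw [e2]
    exact hn'
  obtain ⟨k, hk⟩ := h1 X (Ix α β Unit) δ U T L χ θ st ts hL hθ hne hN.herm hlat
  rw [hB] at hk
  -- the endomorphisms
  obtain ⟨Gd, hGd⟩ : ∃ Gd : K → Matrix (Ix α β Unit) (Ix α β Unit) ℂ,
    Gd = fun x => rgB pl fun s => φ s x := ⟨_, rfl⟩
  have hM : ∀ x v, X.zz (ρ x v) = (U * Gd x * T).mulVec (X.zz v) := by
    intro x v
    have e1 := hN.jj x v
    rw [← Matrix.mulVec_mulVec, ← Matrix.mulVec_mulVec, hGd, ← e1, Matrix.mulVec_mulVec, st,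
      Matrix.one_mulVec]
  have hMa : ∀ x, (U * Gd x * T).map δ = 0 := fun x =>
    HatB_alg δ _ (h2 X (ρ x) (ρ (c x)) _ _ (hK.endo x) (hK.endo (c x)) (hK.adj x) (hM x)
      (hM (c x))).1
  have hq : ∀ x, X.q.map δ * (U * Gd x * T) = (U * Gd (c x) * T).transpose * X.q.map δ := by
    intro x
    obtain ⟨-, q2⟩ := h2 X (ρ x) (ρ (c x)) _ _ (hK.endo x) (hK.endo (c x)) (hK.adj x) (hM x)
      (hM (c x))
    have e1 := HatB_alg δ _ q2
    have e2 : (U * Gd (c x) * T).transpose.map δ = 0 := by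
      rw [Matrix.transpose_map, hMa, Matrix.transpose_zero]
    have e3 := HatB_mul δ X.q (U * Gd x * T)
    have e4 := HatB_mul δ (U * Gd (c x) * T).transpose X.q
    rw [hMa, Matrix.mul_zero, zero_add] at e3
    rw [e2, Matrix.zero_mul, add_zero] at e4
    rw [← e3, ← e4, ← sub_eq_zero, ← Matrix.map_sub _ (fun a b => map_sub δ a b)]
    exact e1
  obtain ⟨C, hCdef⟩ : ∃ C, C = -(U.transpose * X.q.map δ * U) := ⟨_, rfl⟩
  rw [← hCdef] at hk
  have hCG : ∀ x, C * Gd x = (Gd (c x)).transpose * C := by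
    intro x
    rw [hCdef, Matrix.neg_mul, Matrix.mul_neg, neg_inj]
    have e1 : U * Gd x * T * U = U * Gd x := by rw [Matrix.mul_assoc, ts, Matrix.mul_one]
    have e2 : (U * Gd (c x) * T).transpose =
        T.transpose * ((Gd (c x)).transpose * U.transpose) := by
      rw [Matrix.transpose_mul, Matrix.transpose_mul]
    have e3 : U.transpose * T.transpose = 1 := by
      rw [← Matrix.transpose_mul, ts, Matrix.transpose_one]
    calc U.transpose * X.q.map δ * U * Gd x
        = U.transpose * (X.q.map δ * (U * Gd x)) := by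
          simp only [Matrix.mul_assoc]
      _ = U.transpose * (X.q.map δ * (U * Gd x * T * U)) := by rw [e1]
      _ = U.transpose * (X.q.map δ * (U * Gd x * T)) * U := by
          simp only [Matrix.mul_assoc]
      _ = U.transpose * T.transpose * ((Gd (c x)).transpose * (U.transpose * X.q.map δ * U)) := by
          rw [hq, e2]
          simp only [Matrix.mul_assoc]
      _ = (Gd (c x)).transpose * (U.transpose * X.q.map δ * U) := by
          rw [e3, Matrix.one_mul]
  have key : ∀ (x : K) (p q : Ix α β Unit), C p q * (Sum.elim (fun i => φ (pl (Sum.inl i)) x)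
      (fun j => conj (φ (pl (Sum.inr j)) x)) q.1) = (Sum.elim (fun i => φ (pl (Sum.inl i)) (c x))
      (fun j => conj (φ (pl (Sum.inr j)) (c x))) p.1) * C p q := by
    intro x p q
    have e1 := congrFun (congrFun (hCG x) p) q
    rw [hGd] at e1
    simp only [rgB] at e1
    rw [Matrix.mul_diagonal, Matrix.diagonal_transpose, Matrix.diagonal_mul] at e1
    exact e1
  have hinj := hG.ty.1
  have hno : ∀ s s', φ s ≠ (φ s').comp c := by
    intro s s' h
    have := hinj (a₁ := Sum.inl s) (a₂ := Sum.inr s') h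
    cases this
  have hpp : ∀ i i', C (Sum.inl i, ()) (Sum.inl i', ()) = 0 := by
    intro i i'
    by_contra h0
    refine hno (pl (Sum.inl i')) (pl (Sum.inl i)) (RingHom.ext fun x => ?_)
    have e1 := key x (Sum.inl i, ()) (Sum.inl i', ())
    rw [mul_comm] at e1
    exact mul_right_cancel₀ h0 e1
  have hmm : ∀ j j', C (Sum.inr j, ()) (Sum.inr j', ()) = 0 := by
    intro j j'
    by_contra h0
    refine hno (pl (Sum.inr j')) (pl (Sum.inr j)) (RingHom.ext fun x => ?_)
    have e1 := key x (Sum.inr j, ()) (Sum.inr j', ())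
    rw [mul_comm] at e1
    exact (starRingEnd ℂ).injective (mul_right_cancel₀ h0 e1)
  have hpm : ∀ i j, pl (Sum.inl i) ≠ pl (Sum.inr j) → C (Sum.inl i, ()) (Sum.inr j, ()) = 0 := by
    intro i j hij
    by_contra h0
    apply hij
    have e2 : φ (pl (Sum.inl i)) = φ (pl (Sum.inr j)) := by
      refine RingHom.ext fun x => ?_
      have e1 := key x (Sum.inl i, ()) (Sum.inr j, ())
      rw [mul_comm] at e1
      have e3 := mul_right_cancel₀ h0 e1
      simp only [Sum.elim_inl, Sum.elim_inr] at e3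
      rw [← hG.cm.cc] at e3
      exact ((starRingEnd ℂ).injective e3).symm
    have := hinj (a₁ := Sum.inl (pl (Sum.inl i))) (a₂ := Sum.inl (pl (Sum.inr j))) e2
    exact Sum.inl.inj this
  refine ⟨k, Matrix.of fun i j => C (Sum.inl i, ()) (Sum.inr j, ()), fun x hx => ?_, ?_⟩
  · rw [← HatB_hop C hk.symm hpp hmm]
    exact hk.del x hx
  · exact ⟨HatB_bd (fun i => pl (Sum.inl i)) δ Tp hN.dp hN.bp,
      HatB_bd (fun j => pl (Sum.inr j)) δ Tm hN.dm hN.bm, hpm⟩

end WPP
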