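import Pool.Agent.WPP.StN
import Pool.Agent.GAM.Symp
import Pool.Agent.GAM.ChiB
import Pool.Agent.GAM.BasK
import Pool.Agent.GAM.Bas

/-!
# WPP: [LatB] the principal lattice of the CM point
-/

set_option autoImplicit false

namespace WPP

open scoped ComplexConjugate
open GAM (H E PLat CMF CMT E_symm E_add_left E_add_right E_zero_left E_zero_right E_zsmul_left
  E_zsmul_right E_rsmul_left H_smul_right H_self_eq_zero)
open Module
open PST DWC

section aux

variable {α β S : Type} [Fintype α] [Fintype β] [DecidableEq α] [DecidableEq β] [DecidableEq S]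
variable {K : Type} [Field K]

omit [Fintype α] [Fintype β] [DecidableEq α] [DecidableEq β] [DecidableEq S] in
private theorem LatB_vc_add (pl : α ⊕ β → S) (φ : S → K →+* ℂ) {n : ℕ}
    (e : α ⊕ β ≃ Fin n × S) (r : α ⊕ β → ℝ) (a b : Fin n → K) :
    vc pl φ e r (a + b) = vc pl φ e r a + vc pl φ e r b := by
  funext p
  obtain ⟨p, u⟩ := p
  rcases p with i | j
  · simp only [vc, sw, Sum.elim_inl, Pi.add_apply, map_add]
    ring
  · simp only [vc, sw, Sum.elim_inr, Pi.add_apply, map_add, map_mul]
    ring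

omit [Fintype α] [Fintype β] [DecidableEq α] [DecidableEq β] [DecidableEq S] in
private theorem LatB_vc_zero (pl : α ⊕ β → S) (φ : S → K →+* ℂ) {n : ℕ}
    (e : α ⊕ β ≃ Fin n × S) (r : α ⊕ β → ℝ) :
    vc pl φ e r (0 : Fin n → K) = 0 := by
  have h := LatB_vc_add pl φ e r (0 : Fin n → K) 0
  rw [add_zero] at h
  exact left_eq_add.1 h

/-- the coordinates as an additive map -/
private noncomputable def LatB_hom (pl : α ⊕ β → S) (φ : S → K →+* ℂ) {n : ℕ}
    (e : α ⊕ β ≃ Fin n × S) (r : α ⊕ β → ℝ) : (Fin n → K) →+ (Ix α β Unit → ℂ) where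
  toFun := vc pl φ e r
  map_zero' := LatB_vc_zero pl φ e r
  map_add' := LatB_vc_add pl φ e r

omit [Fintype α] [Fintype β] [DecidableEq α] [DecidableEq β] [DecidableEq S] in
private theorem LatB_vc_rat [CharZero K] (pl : α ⊕ β → S) (φ : S → K →+* ℂ) {n : ℕ}
    (e : α ⊕ β ≃ Fin n × S) (r : α ⊕ β → ℝ) (q : ℚ) (a : Fin n → K) :
    vc pl φ e r (q • a) = (q : ℝ) • vc pl φ e r a := by
  funext p
  obtain ⟨p, u⟩ := p
  rcases p with i | j
  · simp only [vc, sw, Sum.elim_inl, Pi.smul_apply, Complex.real_smul, Rat.smul_def, map_mul,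
      map_ratCast]
    push_cast
    ring
  · simp only [vc, sw, Sum.elim_inr, Pi.smul_apply, Complex.real_smul, Rat.smul_def, map_mul,
      map_ratCast, Complex.conj_ofReal]
    push_cast
    ring

/-- `E` is non-degenerate -/
private theorem LatB_nondeg {ι : Type} [Fintype ι] (v : ι → ℂ) (h : ∀ w, E v w = 0) : v = 0 := by
  have h1 := h (Complex.I • v)
  unfold E at h1
  rw [H_smul_right, Complex.conj_I] at h1
  apply H_self_eq_zero
  simpa using h1

private theorem LatB_int {ι : Type} [Fintype ι] (f : ι → ℚ) :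
    ∃ N : ℕ, N ≠ 0 ∧ ∀ i, ∃ m : ℤ, (N : ℚ) * f i = m := by
  refine ⟨∏ i, (f i).den, Finset.prod_ne_zero_iff.2 fun i _ => (f i).den_ne_zero, fun i => ?_⟩
  obtain ⟨k, hk⟩ := Finset.dvd_prod_of_mem (fun i => (f i).den) (Finset.mem_univ i)
  refine ⟨k * (f i).num, ?_⟩
  rw [hk]
  push_cast
  have := Rat.mul_den_eq_num (f i)
  linear_combination (k : ℚ) * this

/-- Common denominators. -/
private theorem LatB_den {V : Type} [AddCommGroup V] [Module ℚ V] {m : ℕ}
    (f : Basis (Fin m) ℚ V) (x : V) :
    ∃ N : ℕ, N ≠ 0 ∧ (N : ℤ) • x ∈ Submodule.span ℤ (Set.range f) := by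
  obtain ⟨N, hN, h⟩ := LatB_int fun i => f.repr x i
  refine ⟨N, hN, ?_⟩
  have h1 : (N : ℤ) • x = ∑ i, (((N : ℚ) * f.repr x i) • f i) := by
    nth_rw 1 [← f.sum_repr x]
    rw [Finset.smul_sum]
    refine Finset.sum_congr rfl fun i _ => ?_
    rw [mul_smul, ← Int.cast_smul_eq_zsmul ℚ]
    push_cast
    rfl
  rw [h1]
  refine Submodule.sum_mem _ fun i _ => ?_
  obtain ⟨k, hk⟩ := h i
  rw [hk, Int.cast_smul_eq_zsmul]
  exact Submodule.smul_mem _ _ (Submodule.subset_span ⟨i, rfl⟩)

end aux

private theorem LatB_sw_sw {α β : Type} (x : Ix α β Unit → ℂ) : sw (sw x) = x := by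
  funext p
  obtain ⟨s, u⟩ := p
  rcases s with i | j
  · rfl
  · show conj (conj (x (Sum.inr j, u))) = _
    simp

/-- A `ℚ`-basis of `K ^ n` gives a real basis. -/
private theorem LatB_bas {α β S : Type} [Fintype α] [Fintype β] [DecidableEq α] [DecidableEq β]
    [Fintype S] [DecidableEq S] {K : Type} [Field K] [NumberField K] {c : K →+* K}
    {φ : S → K →+* ℂ} (hc : CMF K c) (hφ : CMT K c φ) (pl : α ⊕ β → S) {n : ℕ}
    (e : α ⊕ β ≃ Fin n × S) (r : α ⊕ β → ℝ) (hep : ∀ p, (e p).2 = pl p) (hr : ∀ p, 0 < r p)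
    (m : ℕ) (f : Basis (Fin m) ℚ (Fin n → K)) :
    m = 2 * Fintype.card (Ix α β Unit) ∧
    LinearIndependent ℝ (fun i : Fin m => vc pl φ e r (f i)) ∧
    Submodule.span ℝ (Set.range fun i : Fin m => vc pl φ e r (f i)) = ⊤ := by
  let b := Module.finBasis ℚ K
  obtain ⟨hcard, -, hsp⟩ := GAM.thm_BasK K c S φ hc hφ (Fin (Module.finrank ℚ K)) b
  rw [Fintype.card_fin] at hcard
  have hcab : Fintype.card (α ⊕ β) = n * Fintype.card S := by
    rw [Fintype.card_congr e, Fintype.card_prod, Fintype.card_fin]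
  have hm : m = 2 * Fintype.card (Ix α β Unit) := by
    have e1 : Module.finrank ℚ (Fin n → K) = m := by
      rw [Module.finrank_eq_card_basis f, Fintype.card_fin]
    rw [Module.finrank_pi_fintype, Finset.sum_const, Finset.card_univ, Fintype.card_fin,
      smul_eq_mul, hcard] at e1
    rw [Fintype.card_prod, hcab, Fintype.card_unit, ← e1]
    ring
  have hmem : ∀ x : Fin n → K, vc pl φ e r x ∈
      Submodule.span ℝ (Set.range fun i : Fin m => vc pl φ e r (f i)) := by
    intro x
    have h1 : vc pl φ e r x = ∑ i, (f.repr x i : ℝ) • vc pl φ e r (f i) := by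
      nth_rw 1 [← f.sum_repr x]
      have h3 : vc pl φ e r (∑ i, f.repr x i • f i) = ∑ i, vc pl φ e r (f.repr x i • f i) :=
        map_sum (LatB_hom pl φ e r) (fun i => f.repr x i • f i) Finset.univ
      rw [h3]
      exact Finset.sum_congr rfl fun i _ => LatB_vc_rat pl φ e r _ _
    rw [h1]
    exact Submodule.sum_mem _ fun i _ =>
      Submodule.smul_mem _ _ (Submodule.subset_span ⟨i, rfl⟩)
  have hrep : ∀ v : S → ℂ, ∃ t : Fin (Module.finrank ℚ K) → ℝ,
      ∀ s, ∑ i, (t i : ℂ) * φ s (b i) = v s := by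
    intro v
    have hv : v ∈ Submodule.span ℝ (Set.range fun (i : Fin (Module.finrank ℚ K)) (s : S) =>
        φ s (b i)) := by
      rw [hsp]
      trivial
    rw [Submodule.mem_span_range_iff_exists_fun] at hv
    obtain ⟨t, ht⟩ := hv
    refine ⟨t, fun s => ?_⟩
    rw [← ht, Finset.sum_apply]
    refine Finset.sum_congr rfl fun i _ => ?_
    rw [Pi.smul_apply, Complex.real_smul]
  have htop : ⊤ ≤ Submodule.span ℝ (Set.range fun i : Fin m => vc pl φ e r (f i)) := by
    intro v _
    have ht : ∀ j : Fin n, ∃ t : Fin (Module.finrank ℚ K) → ℝ, ∀ s, ∑ i, (t i : ℂ) * φ s (b i) =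
        sw v (e.symm (j, s), ()) / r (e.symm (j, s)) := fun j => hrep _
    choose t ht using ht
    have hv : v = ∑ j : Fin n, ∑ i, t j i • vc pl φ e r (Pi.single j (b i)) := by
      rw [← LatB_sw_sw v]
      funext p
      obtain ⟨p, u⟩ := p
      have hrp : (r p : ℂ) ≠ 0 := by exact_mod_cast (hr p).ne'
      have hp : e.symm ((e p).1, pl p) = p := by
        rw [← hep p]
        exact e.symm_apply_apply p
      have key : ∑ j : Fin n, ∑ i, (t j i : ℂ) * ((r p : ℂ) *
          φ (pl p) ((Pi.single j (b i) : Fin n → K) (e p).1)) = sw v (p, u) := by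
        rw [Finset.sum_eq_single (e p).1]
        · simp only [Pi.single_eq_same]
          have h1 := ht (e p).1 (pl p)
          rw [hp] at h1
          have h2 : ∑ i, (t (e p).1 i : ℂ) * ((r p : ℂ) * φ (pl p) (b i)) =
              (r p : ℂ) * ∑ i, (t (e p).1 i : ℂ) * φ (pl p) (b i) := by
            rw [Finset.mul_sum]
            exact Finset.sum_congr rfl fun i _ => by ring
          rw [h2, h1, mul_div_cancel₀ _ hrp]
        · intro j _ hj
          refine Finset.sum_eq_zero fun i _ => ?_
          rw [Pi.single_eq_of_ne (Ne.symm hj), map_zero, mul_zero, mul_zero]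
        · intro h
          exact absurd (Finset.mem_univ _) h
      rcases p with i | j
      · show sw v (Sum.inl i, u) = _
        rw [← key]
        simp only [Finset.sum_apply, Pi.smul_apply, Complex.real_smul]
        rfl
      · show conj (sw v (Sum.inr j, u)) = _
        rw [← key]
        simp only [Finset.sum_apply, Pi.smul_apply, Complex.real_smul, map_sum]
        refine Finset.sum_congr rfl fun j' _ => Finset.sum_congr rfl fun i' _ => ?_
        rw [map_mul, Complex.conj_ofReal]
        rfl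
    rw [hv]
    exact Submodule.sum_mem _ fun j _ => Submodule.sum_mem _ fun i _ =>
      Submodule.smul_mem _ _ (hmem _)
  refine ⟨hm, ?_, top_le_iff.1 htop⟩
  refine linearIndependent_of_top_le_span_of_card_eq_finrank htop ?_
  rw [Fintype.card_fin, hm, Module.finrank_pi_fintype]
  simp [Complex.finrank_real_complex]
  ring

theorem thm_LatB : St_LatB := by
  classical
  intro α β _ _ _ _ K _ _ c S _ _ φ t pl n e r hG hep hr hq
  have hc := hG.cm
  have hφ := hG.ty
  set C : (Fin n → K) → (Ix α β Unit → ℂ) := vc pl φ e r with hC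
  have hCadd : ∀ x y, C (x + y) = C x + C y := LatB_vc_add pl φ e r
  have hCrat : ∀ (q : ℚ) x, C (q • x) = (q : ℝ) • C x := LatB_vc_rat pl φ e r
  -- real bases
  have hbas := LatB_bas hc hφ pl e r hep hr
  have hsum' : ∀ (m : ℕ) (f : Fin m → (Fin n → K)) (q : Fin m → ℚ),
      C (∑ i, q i • f i) = ∑ i, (q i : ℝ) • C (f i) := by
    intro m f q
    have h3 : C (∑ i, q i • f i) = ∑ i, C (q i • f i) :=
      map_sum (LatB_hom pl φ e r) (fun i => q i • f i) Finset.univ
    rw [h3]
    exact Finset.sum_congr rfl fun i _ => hCrat _ _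
  have hC0 : ∀ x, C x = 0 → x = 0 := by
    intro x hx
    let f := Module.finBasis ℚ (Fin n → K)
    obtain ⟨-, hli, -⟩ := hbas _ f
    rw [← f.sum_repr x, hsum'] at hx
    have h6 := Fintype.linearIndependent_iff.1 hli (fun i => (f.repr x i : ℝ)) hx
    have h7 : f.repr x = 0 := by
      ext i
      have h9 : ((f.repr x i : ℚ) : ℝ) = 0 := h6 i
      have h10 : f.repr x i = 0 := by exact_mod_cast h9
      rw [h10]; rfl
    rw [← f.repr.map_eq_zero_iff]; exact h7
  have hinj : Function.Injective C := by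
    intro x y hxy
    have h4 : C (x - y) = C x - C y := map_sub (LatB_hom pl φ e r) x y
    exact sub_eq_zero.1 (hC0 _ (by rw [h4, hxy, sub_self]))
  -- the rational form
  choose B0 hB0 using hq
  have hB0' : ∀ a b, E (C a) (C b) = (B0 a b : ℝ) := fun a b => hB0 a b
  let B : (Fin n → K) →ₗ[ℚ] (Fin n → K) →ₗ[ℚ] ℚ := LinearMap.mk₂ ℚ B0
    (fun x x' y => by
      have h : ((B0 (x + x') y : ℚ) : ℝ) = B0 x y + B0 x' y := by
        rw [← hB0', ← hB0', ← hB0', hCadd, E_add_left]
      exact_mod_cast h)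
    (fun q x y => by
      have h : ((B0 (q • x) y : ℚ) : ℝ) = q * B0 x y := by
        rw [← hB0', ← hB0', hCrat, E_rsmul_left]
      rw [smul_eq_mul]
      exact_mod_cast h)
    (fun x y y' => by
      have h : ((B0 x (y + y') : ℚ) : ℝ) = B0 x y + B0 x y' := by
        rw [← hB0', ← hB0', ← hB0', hCadd, E_add_right]
      exact_mod_cast h)
    (fun q x y => by
      have h : ((B0 x (q • y) : ℚ) : ℝ) = q * B0 x y := by
        rw [← hB0', ← hB0', hCrat, GAM.E_rsmul_right]
      rw [smul_eq_mul]
      exact_mod_cast h)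
  have hE : ∀ x y, E (C x) (C y) = ((B x y : ℚ) : ℝ) := hB0'
  have halt : ∀ x, B x x = 0 := by
    intro x
    have h : ((B x x : ℚ) : ℝ) = 0 := by
      rw [← hE]
      have := E_symm (C x) (C x)
      linarith
    exact_mod_cast h
  have hnd : ∀ x, (∀ y, B x y = 0) → x = 0 := by
    intro x hx
    apply hC0
    apply LatB_nondeg
    intro w
    let f := Module.finBasis ℚ (Fin n → K)
    obtain ⟨-, -, hsp⟩ := hbas _ f
    have hw : w ∈ Submodule.span ℝ (Set.range fun i => vc pl φ e r (f i)) := by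
      rw [hsp]
      trivial
    induction hw using Submodule.span_induction with
    | mem w hw =>
      obtain ⟨i, rfl⟩ := hw
      have h := hE x (f i)
      rw [hx] at h
      simpa using h
    | zero => exact E_zero_right _
    | add y z _ _ hy hz => rw [E_add_right, hy, hz, add_zero]
    | smul a y _ hy => rw [GAM.E_rsmul_right, hy, mul_zero]
  obtain ⟨m, f, hint, hself⟩ := GAM.thm_Symp (Fin n → K) B halt hnd
  obtain ⟨χ, hpm, hadd⟩ := GAM.thm_ChiB (Fin n → K) B m f halt hint
  obtain ⟨hn, hli, hsp⟩ := hbas m f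
  set b0 : Module.Basis (Fin m) ℝ (Ix α β Unit → ℂ) := Module.Basis.mk hli hsp.ge with hb0
  have hb0a : ∀ i, b0 i = C (f i) := fun i => by rw [hb0, Module.Basis.mk_apply]
  have hsum : ∀ q : Fin m → ℚ, C (∑ i, q i • f i) = ∑ i, (q i : ℝ) • b0 i := by
    intro q
    rw [hsum']
    exact Finset.sum_congr rfl fun i _ => by rw [hb0a]
  set L : Submodule ℤ (Ix α β Unit → ℂ) :=
    (Submodule.span ℤ (Set.range f)).map (LatB_hom pl φ e r).toIntLinearMap with hL
  have hmem : ∀ v, v ∈ L ↔ ∃ x ∈ Submodule.span ℤ (Set.range f), C x = v := by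
    intro v
    rw [hL, Submodule.mem_map]
    rfl
  have hLspan : L = Submodule.span ℤ (Set.range b0) := by
    rw [hL, Submodule.map_span]
    congr 1
    ext v
    constructor
    · rintro ⟨_, ⟨i, rfl⟩, rfl⟩
      exact ⟨i, hb0a i⟩
    · rintro ⟨i, rfl⟩
      exact ⟨f i, ⟨i, rfl⟩, (hb0a i).symm⟩
  have hbL : ∀ i, b0 i ∈ L := fun i => by rw [hLspan]; exact Submodule.subset_span ⟨i, rfl⟩
  -- integrality
  have hg : ∀ i j, ∃ m : ℤ, E (b0 i) (b0 j) = m := by
    intro i j
    obtain ⟨m, hm⟩ := hint i j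
    refine ⟨m, ?_⟩
    rw [hb0a, hb0a]
    have h3 := hE (f i) (f j)
    rw [hm] at h3
    rw [h3]
    push_cast
    rfl
  have hintL : ∀ l ∈ L, ∀ m ∈ L, ∃ k : ℤ, E l m = k := by
    intro l hl m hm
    rw [hLspan] at hl hm
    induction hl using Submodule.span_induction with
    | mem x hx =>
      obtain ⟨i, rfl⟩ := hx
      induction hm using Submodule.span_induction with
      | mem y hy =>
        obtain ⟨j, rfl⟩ := hy
        exact hg i j
      | zero => exact ⟨0, by rw [E_zero_right]; simp⟩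
      | add y z _ _ hy hz =>
        obtain ⟨p, hp⟩ := hy
        obtain ⟨q, hq⟩ := hz
        exact ⟨p + q, by rw [E_add_right, hp, hq]; push_cast; rfl⟩
      | smul a y _ hy =>
        obtain ⟨p, hp⟩ := hy
        exact ⟨a * p, by rw [E_zsmul_right, hp]; push_cast; rfl⟩
    | zero => exact ⟨0, by rw [E_zero_left]; simp⟩
    | add y z _ _ hy hz =>
      obtain ⟨p, hp⟩ := hy
      obtain ⟨q, hq⟩ := hz
      exact ⟨p + q, by rw [E_add_left, hp, hq]; push_cast; rfl⟩
    | smul a y _ hy =>
      obtain ⟨p, hp⟩ := hy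
      exact ⟨a * p, by rw [E_zsmul_left, hp]; push_cast; rfl⟩
  -- the Gram matrix
  choose g hg' using hg
  set G : Matrix (Fin m) (Fin m) ℚ := Matrix.of fun i j => (g i j : ℚ) with hGm
  have hEsum : ∀ (t : Fin m → ℝ) (w : Ix α β Unit → ℂ), E (∑ i, t i • b0 i) w =
      ∑ i, t i * E (b0 i) w := by
    intro t w
    have h3 : ∀ s : Finset (Fin m), E (∑ i ∈ s, t i • b0 i) w = ∑ i ∈ s, t i * E (b0 i) w := by
      intro s
      induction s using Finset.induction_on with
      | empty => simp [E_zero_left]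
      | insert a s ha ih =>
        rw [Finset.sum_insert ha, Finset.sum_insert ha, E_add_left, E_rsmul_left, ih]
    exact h3 Finset.univ
  have hEsumr : ∀ (t : Fin m → ℝ) (w : Ix α β Unit → ℂ), E w (∑ i, t i • b0 i) =
      ∑ i, t i * E w (b0 i) := by
    intro t w
    rw [E_symm, hEsum, ← Finset.sum_neg_distrib]
    refine Finset.sum_congr rfl fun i _ => ?_
    rw [E_symm w (b0 i)]; ring
  have hdet : G.det ≠ 0 := by
    intro h0
    have h3 : ((G.map (fun q : ℚ => (q : ℝ))).det) = 0 := by
      have h4 := (Rat.castHom ℝ).map_det G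
      rw [h0, map_zero] at h4
      exact h4.symm
    obtain ⟨t, ht, ht0⟩ := Matrix.exists_vecMul_eq_zero_iff.2 h3
    apply ht
    have h5 : (∑ i, t i • b0 i) = 0 := by
      apply LatB_nondeg
      intro w
      have h6 : ∀ j, E (∑ i, t i • b0 i) (b0 j) = 0 := by
        intro j
        rw [hEsum]
        have h7 := congrFun ht0 j
        simp only [Matrix.vecMul, dotProduct, Matrix.map_apply, hGm, Matrix.of_apply,
          Pi.zero_apply] at h7
        rw [← h7]
        refine Finset.sum_congr rfl fun i _ => ?_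
        rw [hg' i j]; push_cast; rfl
      have h8 := b0.sum_repr w
      rw [← h8, hEsumr]
      exact Finset.sum_eq_zero fun i _ => by rw [h6, mul_zero]
    exact funext (Fintype.linearIndependent_iff.1 b0.linearIndependent t h5)
  have hselfL : ∀ v, (∀ l ∈ L, ∃ k : ℤ, E v l = k) → v ∈ L := by
    intro v hv
    have h3 : ∀ j, ∃ k : ℤ, E v (b0 j) = k := fun j => hv _ (hbL j)
    choose m' hm using h3
    set t : Fin m → ℝ := fun i => b0.repr v i with ht
    have hvt : v = ∑ i, t i • b0 i := (b0.sum_repr v).symm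
    -- the rational solution
    set q : Fin m → ℚ := Matrix.vecMul (fun j => (m' j : ℚ)) G⁻¹ with hq
    have hqG : Matrix.vecMul q G = fun j => (m' j : ℚ) := by
      rw [hq, Matrix.vecMul_vecMul, Matrix.nonsing_inv_mul _ (isUnit_iff_ne_zero.2 hdet),
        Matrix.vecMul_one]
    have htq : t = fun i => (q i : ℝ) := by
      have h4 : (∑ i, (t i - (q i : ℝ)) • b0 i) = 0 := by
        apply LatB_nondeg
        intro w
        have h6 : ∀ j, E (∑ i, (t i - (q i : ℝ)) • b0 i) (b0 j) = 0 := by
          intro j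
          rw [hEsum]
          simp only [sub_mul, Finset.sum_sub_distrib]
          rw [← hEsum t, ← hvt, hm j]
          have h7 := congrFun hqG j
          simp only [Matrix.vecMul, dotProduct, hGm, Matrix.of_apply] at h7
          have h8 : (∑ i, (q i : ℝ) * (g i j : ℝ)) = (m' j : ℝ) := by exact_mod_cast h7
          rw [← h8, sub_eq_zero]
          refine Finset.sum_congr rfl fun i _ => ?_
          rw [hg' i j]
        have h8 := b0.sum_repr w
        rw [← h8, hEsumr]
        exact Finset.sum_eq_zero fun i _ => by rw [h6, mul_zero]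
      have h5 := Fintype.linearIndependent_iff.1 b0.linearIndependent _ h4
      funext i
      exact sub_eq_zero.1 (h5 i)
    set x : Fin n → K := ∑ i, q i • f i with hx
    have hCx : C x = v := by
      rw [hx, hsum, hvt]
      refine Finset.sum_congr rfl fun i _ => ?_
      rw [htq]
    rw [hmem]
    refine ⟨x, hself x fun j => ⟨m' j, ?_⟩, hCx⟩
    have h9 := hE x (f j)
    have h10 : C (f j) = b0 j := (hb0a j).symm
    rw [hCx, h10, hm j] at h9
    exact_mod_cast h9.symm
  -- the semicharacter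
  have hinv : ∀ x, Function.invFun C (C x) = x := Function.leftInverse_invFun hinj
  -- the denominator of the multiplication by `t`
  have hN : ∀ i, ∃ N : ℕ, N ≠ 0 ∧ (N : ℤ) • (fun j => t * f i j) ∈
      Submodule.span ℤ (Set.range f) := fun i => LatB_den f _
  choose N hN0 hN1 using hN
  have hmul : ∀ x ∈ Submodule.span ℤ (Set.range f),
      ((∏ i, N i : ℕ) : ℤ) • (fun j => t * x j) ∈ Submodule.span ℤ (Set.range f) := by
    intro x hx
    induction hx using Submodule.span_induction with
    | mem x hx =>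
      obtain ⟨i, rfl⟩ := hx
      obtain ⟨k, hk⟩ := Finset.dvd_prod_of_mem N (Finset.mem_univ i)
      rw [hk, mul_comm]
      push_cast
      rw [mul_smul]
      exact Submodule.smul_mem _ _ (hN1 i)
    | zero =>
      have h : (fun j => t * (0 : Fin n → K) j) = 0 := by
        funext j
        simp
      rw [h, smul_zero]
      exact Submodule.zero_mem _
    | add y z _ _ hy hz =>
      have h : (fun j => t * (y + z) j) = (fun j => t * y j) + fun j => t * z j := by
        funext j
        simp only [Pi.add_apply]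
        ring
      rw [h, smul_add]
      exact Submodule.add_mem _ hy hz
    | smul a y _ hy =>
      have h : (fun j => t * (a • y) j) = a • fun j => t * y j := by
        funext j
        simp only [Pi.smul_apply, zsmul_eq_mul]
        ring
      rw [h, smul_comm]
      exact Submodule.smul_mem _ _ hy
  refine ⟨L, fun v => χ (Function.invFun C v), ∏ i, N i, ⟨?_, hintL, hselfL, ?_, ?_⟩,
    ⟨?_, ?_⟩, Finset.prod_ne_zero_iff.2 fun i _ => hN0 i, ?_⟩
  · have hcard : Fintype.card (Fin m) = Fintype.card (Ix α β Unit ⊕ Ix α β Unit) := by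
      rw [Fintype.card_fin, hn, Fintype.card_sum]; ring
    refine ⟨b0.reindex (Fintype.equivOfCardEq hcard), ?_⟩
    rw [Module.Basis.range_reindex, hLspan]
  · intro l hl
    obtain ⟨x, hx, rfl⟩ := (hmem l).1 hl
    rw [hinv]
    exact hpm x hx
  · intro l hl m hm
    obtain ⟨x, hx, rfl⟩ := (hmem l).1 hl
    obtain ⟨y, hy, rfl⟩ := (hmem m).1 hm
    have h3 : C x + C y = C (x + y) := (hCadd x y).symm
    rw [h3, hinv, hinv, hinv, hadd x hx y hy, hE x y]
    push_cast
    rfl
  · intro l hl
    obtain ⟨x, -, rfl⟩ := (hmem l).1 hl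
    exact ⟨x, rfl⟩
  · intro a
    obtain ⟨M, hM, h⟩ := LatB_den f a
    refine ⟨M, hM, (hmem _).2 ⟨_, h, ?_⟩⟩
    exact map_zsmul (LatB_hom pl φ e r) (M : ℤ) a
  · intro l hl
    obtain ⟨x, hx, rfl⟩ := (hmem l).1 hl
    refine (hmem _).2 ⟨_, hmul x hx, ?_⟩
    unfold act
    rw [hC]
    unfold vc
    rw [LatB_sw_sw]
    congr 1
    funext p
    unfold mu kapB
    rw [Finset.sum_eq_single p.1]
    · rw [Matrix.diagonal_apply_eq]
      simp only [Pi.smul_apply, zsmul_eq_mul, map_mul]
      push_cast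
      simp only [map_natCast, map_prod]
      ring
    · intro q _ hqp
      rw [Matrix.diagonal_apply_ne _ (Ne.symm hqp), zero_mul]
    · intro h
      exact absurd (Finset.mem_univ _) h

end WPP
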