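import Pool.Agent.WPP.StC

/-!
# WPP, module NonB: the determinants at one place are not identically zero
-/

set_option autoImplicit false

namespace WPP

open scoped ComplexConjugate
open GAM (H E F pd pdl PLat IsTh OddTor IsDel Gro IsLat)
open PST DWC

theorem thm_NonB (h1 : PST.St_NonM) (h2 : PST.St_DetPt) : St_NonB := by
  intro α β μ S _ _ _ _ _ _ _ pl L χ θ hP hT hne w hw s k
  obtain ⟨x0, hx0⟩ := h1 α β μ L χ θ hP hT hne w hw k
  obtain ⟨x, -, hx⟩ := h2 (Ix α β μ → ℂ) (Pb pl s) Set.univ
    (fun j x => dpsi (Sum.inr j.1, k) θ w x) (by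
      intro c hc
      by_contra hcon
      push Not at hcon
      apply hc
      set c' : β → ℂ := fun j => if h : pl (Sum.inr j) = s then c ⟨j, h⟩ else 0 with hc'
      have hcv : ∀ i : Pb pl s, c' i.1 = c i := fun i => by
        rw [hc']
        exact dif_pos i.2
      have hsum : ∀ x : Ix α β μ → ℂ, ∑ j, c' j * dpsi (Sum.inr j, k) θ w x = 0 := by
        intro x
        rw [← hcon x (Set.mem_univ x),
          ← Fintype.sum_subtype_add_sum_subtype (fun j => pl (Sum.inr j) = s)]
        have e1 : ∑ i : {j // ¬ pl (Sum.inr j) = s}, c' i.1 * dpsi (Sum.inr i.1, k) θ w x = 0 := by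
          refine Finset.sum_eq_zero fun i _ => ?_
          have : c' i.1 = 0 := by
            rw [hc']
            exact dif_neg i.2
          rw [this, zero_mul]
        rw [e1, add_zero]
        exact Finset.sum_congr rfl fun i _ => by rw [hcv]
      have hz : c' = 0 := by
        refine Matrix.eq_zero_of_vecMul_eq_zero hx0 ?_
        ext b
        exact hsum (x0 b)
      ext i
      rw [← hcv i, hz]
      rfl)
  refine ⟨x, ?_⟩
  rw [← Matrix.det_transpose] at hx
  exact hx

end WPP
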