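import Pool.Agent.WPP.StN

/-!
# WPP [OrtB]: orthogonal bases of Hermitian spaces over a CM field
-/

set_option autoImplicit false
set_option linter.unusedSectionVars false

namespace WPP

open scoped ComplexConjugate
open GAM (H E F pd pdl PLat IsTh OddTor IsDel Gro IsLat)
open Module
open PST DWC

section

variable {α β : Type} [Fintype α] [Fintype β] [DecidableEq α] [DecidableEq β]

/-- the Hermitian form -/
private noncomputable def OrtB_h (X Y : α ⊕ β → ℂ) : ℂ :=
  ∑ i, X (Sum.inl i) * conj (Y (Sum.inl i)) - ∑ j, X (Sum.inr j) * conj (Y (Sum.inr j))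

private theorem OrtB_h_eq (X Y : α ⊕ β → ℂ) :
    star Y ⬝ᵥ (Jm α β).mulVec X = OrtB_h X Y := by
  unfold Jm OrtB_h
  rw [Matrix.fromBlocks_mulVec]
  simp only [dotProduct, Fintype.sum_sum_type, Sum.elim_inl, Sum.elim_inr, Matrix.one_mulVec,
    Matrix.zero_mulVec, Matrix.neg_mulVec, add_zero, zero_add, Pi.neg_apply, Function.comp,
    Pi.star_apply, mul_neg, Finset.sum_neg_distrib, Complex.star_def]
  rw [← sub_eq_add_neg]
  congr 1
  · exact Finset.sum_congr rfl fun i _ => mul_comm _ _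
  · exact Finset.sum_congr rfl fun i _ => mul_comm _ _

private theorem OrtB_add_left (X X' Y : α ⊕ β → ℂ) : OrtB_h (X + X') Y = OrtB_h X Y + OrtB_h X' Y := by
  unfold OrtB_h
  simp only [Pi.add_apply, add_mul, Finset.sum_add_distrib]
  ring

private theorem OrtB_smul_left (c : ℂ) (X Y : α ⊕ β → ℂ) : OrtB_h (c • X) Y = c * OrtB_h X Y := by
  unfold OrtB_h
  simp only [Pi.smul_apply, smul_eq_mul, mul_assoc, ← Finset.mul_sum]
  ring

private theorem OrtB_conj (X Y : α ⊕ β → ℂ) : conj (OrtB_h X Y) = OrtB_h Y X := by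
  unfold OrtB_h
  rw [map_sub, map_sum, map_sum]
  congr 1
  · refine Finset.sum_congr rfl fun i _ => ?_
    rw [map_mul, Complex.conj_conj, mul_comm]
  · refine Finset.sum_congr rfl fun i _ => ?_
    rw [map_mul, Complex.conj_conj, mul_comm]

private theorem OrtB_add_right (X Y Y' : α ⊕ β → ℂ) : OrtB_h X (Y + Y') = OrtB_h X Y + OrtB_h X Y' := by
  rw [← OrtB_conj, OrtB_add_left, map_add, OrtB_conj, OrtB_conj]

private theorem OrtB_smul_right (c : ℂ) (X Y : α ⊕ β → ℂ) :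
    OrtB_h X (c • Y) = conj c * OrtB_h X Y := by
  rw [← OrtB_conj, OrtB_smul_left, map_mul, OrtB_conj]

private theorem OrtB_zero_left (Y : α ⊕ β → ℂ) : OrtB_h 0 Y = 0 := by
  unfold OrtB_h
  simp

private theorem OrtB_sub_left (X X' Y : α ⊕ β → ℂ) : OrtB_h (X - X') Y = OrtB_h X Y - OrtB_h X' Y := by
  have h1 := OrtB_add_left (X - X') X' Y
  rw [sub_add_cancel] at h1
  rw [h1]
  ring

private theorem OrtB_sum_left {κ : Type} (s : Finset κ) (c : κ → ℂ) (x : κ → α ⊕ β → ℂ)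
    (Y : α ⊕ β → ℂ) : OrtB_h (∑ i ∈ s, c i • x i) Y = ∑ i ∈ s, c i * OrtB_h (x i) Y := by
  classical
  induction s using Finset.induction_on with
  | empty => rw [Finset.sum_empty, Finset.sum_empty, OrtB_zero_left]
  | insert i s hi ih =>
    rw [Finset.sum_insert hi, Finset.sum_insert hi, OrtB_add_left, OrtB_smul_left, ih]

private theorem OrtB_zero_right (Y : α ⊕ β → ℂ) : OrtB_h Y 0 = 0 := by
  rw [← OrtB_conj, OrtB_zero_left, map_zero]

private theorem OrtB_self_re (X : α ⊕ β → ℂ) : (OrtB_h X X).re =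
    ∑ i, ‖X (Sum.inl i)‖ ^ 2 - ∑ j, ‖X (Sum.inr j)‖ ^ 2 := by
  unfold OrtB_h
  have h1 : ∀ z : ℂ, z * conj z = ((‖z‖ ^ 2 : ℝ) : ℂ) := by
    intro z
    rw [Complex.mul_conj, Complex.normSq_eq_norm_sq]
  simp only [h1]
  rw [← Complex.ofReal_sum, ← Complex.ofReal_sum, ← Complex.ofReal_sub, Complex.ofReal_re]

private theorem OrtB_self (X : α ⊕ β → ℂ) : OrtB_h X X = (((OrtB_h X X).re : ℝ) : ℂ) := by
  apply Complex.ext
  · rw [Complex.ofReal_re]
  · rw [Complex.ofReal_im]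
    have h1 := congrArg Complex.im (OrtB_conj X X)
    rw [Complex.conj_im] at h1
    linarith

private theorem OrtB_nondeg (X : α ⊕ β → ℂ) (h : ∀ Y, OrtB_h X Y = 0) : X = 0 := by
  have h1 := h (fun s => Sum.elim (fun i => X (Sum.inl i)) (fun j => -X (Sum.inr j)) s)
  have h2 : OrtB_h X (fun s => Sum.elim (fun i => X (Sum.inl i)) (fun j => -X (Sum.inr j)) s) =
      ((∑ i, ‖X (Sum.inl i)‖ ^ 2 + ∑ j, ‖X (Sum.inr j)‖ ^ 2 : ℝ) : ℂ) := by
    unfold OrtB_h
    have h3 : ∀ z : ℂ, z * conj z = ((‖z‖ ^ 2 : ℝ) : ℂ) := by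
      intro z
      rw [Complex.mul_conj, Complex.normSq_eq_norm_sq]
    simp only [Sum.elim_inl, Sum.elim_inr, map_neg, mul_neg, Finset.sum_neg_distrib,
      sub_neg_eq_add, h3]
    rw [← Complex.ofReal_sum, ← Complex.ofReal_sum, ← Complex.ofReal_add]
  rw [h2, Complex.ofReal_eq_zero] at h1
  have ha : 0 ≤ ∑ i, ‖X (Sum.inl i)‖ ^ 2 := Finset.sum_nonneg fun _ _ => sq_nonneg _
  have hb : 0 ≤ ∑ j, ‖X (Sum.inr j)‖ ^ 2 := Finset.sum_nonneg fun _ _ => sq_nonneg _
  have ha0 : ∑ i, ‖X (Sum.inl i)‖ ^ 2 = 0 := by linarith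
  have hb0 : ∑ j, ‖X (Sum.inr j)‖ ^ 2 = 0 := by linarith
  rw [Finset.sum_eq_zero_iff_of_nonneg (fun _ _ => sq_nonneg _)] at ha0 hb0
  funext s
  rcases s with i | j
  · have := ha0 i (Finset.mem_univ _)
    simpa using this
  · have := hb0 j (Finset.mem_univ _)
    simpa using this

private theorem OrtB_li {k : ℕ} (w : Fin k → α ⊕ β → ℂ) (h1 : ∀ i, OrtB_h (w i) (w i) ≠ 0)
    (h2 : ∀ i j, i ≠ j → OrtB_h (w i) (w j) = 0) : LinearIndependent ℂ w := by
  rw [Fintype.linearIndependent_iff]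
  intro a ha j
  have h3 : OrtB_h (∑ i, a i • w i) (w j) = a j * OrtB_h (w j) (w j) := by
    rw [OrtB_sum_left, Finset.sum_eq_single j]
    · intro i _ hij
      rw [h2 i j hij, mul_zero]
    · intro h
      exact absurd (Finset.mem_univ _) h
  rw [ha, OrtB_zero_left] at h3
  exact (mul_eq_zero.mp h3.symm).resolve_right (h1 j)

private theorem OrtB_val {κ : Type} [Fintype κ] (v : κ → α ⊕ β → ℂ) (c : κ → ℝ)
    (hc : ∀ i, OrtB_h (v i) (v i) = (c i : ℂ)) (h2 : ∀ i j, i ≠ j → OrtB_h (v i) (v j) = 0)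
    (a : κ → ℂ) : (OrtB_h (∑ i, a i • v i) (∑ i, a i • v i)).re = ∑ i, ‖a i‖ ^ 2 * c i := by
  have h3 : OrtB_h (∑ i, a i • v i) (∑ i, a i • v i) = ((∑ i, ‖a i‖ ^ 2 * c i : ℝ) : ℂ) := by
    rw [OrtB_sum_left, Complex.ofReal_sum]
    refine Finset.sum_congr rfl fun i _ => ?_
    rw [← OrtB_conj, OrtB_sum_left, Finset.sum_eq_single i]
    · rw [hc i, map_mul, Complex.conj_ofReal, ← mul_assoc, Complex.mul_conj,
        Complex.normSq_eq_norm_sq, Complex.ofReal_mul]
    · intro j _ hj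
      rw [h2 j i hj, mul_zero]
    · intro h
      exact absurd (Finset.mem_univ _) h
  rw [h3, Complex.ofReal_re]

private theorem OrtB_gen {κ γ : Type} [Fintype κ] [Fintype γ] (v : κ → α ⊕ β → ℂ)
    (e : (α ⊕ β → ℂ) →ₗ[ℂ] (γ → ℂ))
    (he : ∀ a : κ → ℂ, e (∑ i, a i • v i) = 0 → ∀ i, a i = 0) :
    Fintype.card κ ≤ Fintype.card γ := by
  have hli : LinearIndependent ℂ (fun i : κ => e (v i)) := by
    rw [Fintype.linearIndependent_iff]
    intro a ha
    apply he a
    rw [map_sum, ← ha]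
    exact Finset.sum_congr rfl fun i _ => by rw [map_smul]
  have h4 := hli.fintype_card_le_finrank
  rwa [Module.finrank_fintype_fun_eq_card] at h4

private theorem OrtB_card {k : ℕ} (w : Fin k → α ⊕ β → ℂ) (c : Fin k → ℝ)
    (hc : ∀ i, OrtB_h (w i) (w i) = (c i : ℂ))
    (hc0 : ∀ i, c i ≠ 0) (h2 : ∀ i j, i ≠ j → OrtB_h (w i) (w j) = 0) :
    Fintype.card {i // 0 < c i} ≤ Fintype.card α ∧
      Fintype.card {i // ¬ 0 < c i} ≤ Fintype.card β := by
  constructor
  · refine OrtB_gen (fun i : {i // 0 < c i} => w i.1) (LinearMap.funLeft ℂ ℂ Sum.inl) ?_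
    intro a ha
    have h6 := OrtB_val (fun i : {i // 0 < c i} => w i.1) (fun i => c i.1) (fun i => hc i.1)
      (fun i j hij => h2 i.1 j.1 fun h => hij (Subtype.ext h)) a
    rw [OrtB_self_re] at h6
    have h7 : ∀ s, (∑ i : {i // 0 < c i}, a i • w i.1) (Sum.inl s) = 0 := fun s => congrFun ha s
    have h8 : ∑ s : α, ‖(∑ i : {i // 0 < c i}, a i • w i.1) (Sum.inl s)‖ ^ 2 = 0 := by
      apply Finset.sum_eq_zero
      intro s _
      rw [h7 s]
      simp
    have h9 : 0 ≤ ∑ s : β, ‖(∑ i : {i // 0 < c i}, a i • w i.1) (Sum.inr s)‖ ^ 2 :=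
      Finset.sum_nonneg fun _ _ => sq_nonneg _
    have h10 : ∑ i : {i // 0 < c i}, ‖a i‖ ^ 2 * c i.1 ≤ 0 := by
      rw [← h6, h8]
      linarith
    have h11 : ∀ i : {i // 0 < c i}, 0 ≤ ‖a i‖ ^ 2 * c i.1 := fun i =>
      mul_nonneg (sq_nonneg _) i.2.le
    have h12 : ∑ i : {i // 0 < c i}, ‖a i‖ ^ 2 * c i.1 = 0 :=
      le_antisymm h10 (Finset.sum_nonneg fun i _ => h11 i)
    rw [Finset.sum_eq_zero_iff_of_nonneg (fun i _ => h11 i)] at h12
    intro i
    have h13 := h12 i (Finset.mem_univ _)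
    have h14 := (mul_eq_zero.mp h13).resolve_right i.2.ne'
    simpa using h14
  · refine OrtB_gen (fun i : {i // ¬ 0 < c i} => w i.1) (LinearMap.funLeft ℂ ℂ Sum.inr) ?_
    intro a ha
    have h6 := OrtB_val (fun i : {i // ¬ 0 < c i} => w i.1) (fun i => c i.1) (fun i => hc i.1)
      (fun i j hij => h2 i.1 j.1 fun h => hij (Subtype.ext h)) a
    rw [OrtB_self_re] at h6
    have h7 : ∀ s, (∑ i : {i // ¬ 0 < c i}, a i • w i.1) (Sum.inr s) = 0 :=
      fun s => congrFun ha s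
    have h8 : ∑ s : β, ‖(∑ i : {i // ¬ 0 < c i}, a i • w i.1) (Sum.inr s)‖ ^ 2 = 0 := by
      apply Finset.sum_eq_zero
      intro s _
      rw [h7 s]
      simp
    have h9 : 0 ≤ ∑ s : α, ‖(∑ i : {i // ¬ 0 < c i}, a i • w i.1) (Sum.inl s)‖ ^ 2 :=
      Finset.sum_nonneg fun _ _ => sq_nonneg _
    have hneg : ∀ i : {i // ¬ 0 < c i}, c i.1 < 0 := fun i =>
      lt_of_le_of_ne (not_lt.mp i.2) (hc0 i.1)
    have h10 : 0 ≤ ∑ i : {i // ¬ 0 < c i}, ‖a i‖ ^ 2 * c i.1 := by
      rw [← h6, h8]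
      linarith
    have h11 : ∀ i : {i // ¬ 0 < c i}, 0 ≤ -(‖a i‖ ^ 2 * c i.1) := fun i => by
      have := mul_nonneg (sq_nonneg ‖a i‖) (neg_nonneg.mpr (hneg i).le)
      linarith
    have h12 : ∑ i : {i // ¬ 0 < c i}, -(‖a i‖ ^ 2 * c i.1) = 0 := by
      apply le_antisymm
      · rw [Finset.sum_neg_distrib]
        linarith
      · exact Finset.sum_nonneg fun i _ => h11 i
    rw [Finset.sum_eq_zero_iff_of_nonneg (fun i _ => h11 i)] at h12
    intro i
    have h13 := h12 i (Finset.mem_univ _)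
    rw [neg_eq_zero] at h13
    have h14 := (mul_eq_zero.mp h13).resolve_right (hneg i).ne
    simpa using h14

end


section

variable {α β S : Type} [Fintype α] [Fintype β] [DecidableEq α] [DecidableEq β] [Fintype S] [DecidableEq S]

/-- the coordinates at the place `s` -/
private def OrtB_res (pl : α ⊕ β → S) (s : S) (x : α ⊕ β → ℂ) : Pa pl s ⊕ Pb pl s → ℂ :=
  Sum.elim (fun i => x (Sum.inl i.1)) fun j => x (Sum.inr j.1)

private theorem OrtB_tot (pl : α ⊕ β → S) (x y : α ⊕ β → ℂ) :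
    OrtB_h x y = ∑ s, OrtB_h (OrtB_res pl s x) (OrtB_res pl s y) := by
  unfold OrtB_h OrtB_res
  rw [Finset.sum_sub_distrib]
  simp only [Sum.elim_inl, Sum.elim_inr]
  congr 1
  · exact (Fintype.sum_fiberwise (fun i : α => pl (Sum.inl i))
      (fun i => x (Sum.inl i) * conj (y (Sum.inl i)))).symm
  · exact (Fintype.sum_fiberwise (fun j : β => pl (Sum.inr j))
      (fun j => x (Sum.inr j) * conj (y (Sum.inr j)))).symm

private theorem OrtB_res_add (pl : α ⊕ β → S) (s : S) (x y : α ⊕ β → ℂ) :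
    OrtB_res pl s (x + y) = OrtB_res pl s x + OrtB_res pl s y := by
  funext p; rcases p with p | p <;> rfl

private theorem OrtB_res_sub (pl : α ⊕ β → S) (s : S) (x y : α ⊕ β → ℂ) :
    OrtB_res pl s (x - y) = OrtB_res pl s x - OrtB_res pl s y := by
  funext p; rcases p with p | p <;> rfl

private theorem OrtB_res_smul (pl : α ⊕ β → S) (s : S) (a : ℂ) (x : α ⊕ β → ℂ) :
    OrtB_res pl s (a • x) = a • OrtB_res pl s x := by
  funext p; rcases p with p | p <;> rfl

private theorem OrtB_res_zero (pl : α ⊕ β → S) (s : S) :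
    OrtB_res pl s (0 : α ⊕ β → ℂ) = 0 := by
  funext p; rcases p with p | p <;> rfl

private theorem OrtB_res_sum (pl : α ⊕ β → S) (s : S) {κ : Type} (u : Finset κ)
    (x : κ → α ⊕ β → ℂ) : OrtB_res pl s (∑ i ∈ u, x i) = ∑ i ∈ u, OrtB_res pl s (x i) := by
  classical
  induction u using Finset.induction_on with
  | empty => rw [Finset.sum_empty, Finset.sum_empty, OrtB_res_zero]
  | insert i u hi ih => rw [Finset.sum_insert hi, Finset.sum_insert hi, OrtB_res_add, ih]

variable {K : Type} [Field K] [NumberField K]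

/-- the action of the field -/
private def OrtB_act (pl : α ⊕ β → S) (φ : S → K →+* ℂ) (a : K) (w : α ⊕ β → ℂ) : α ⊕ β → ℂ :=
  fun p => φ (pl p) a * w p

private theorem OrtB_res_act (pl : α ⊕ β → S) (φ : S → K →+* ℂ) (s : S) (a : K)
    (w : α ⊕ β → ℂ) : OrtB_res pl s (OrtB_act pl φ a w) = φ s a • OrtB_res pl s w := by
  funext p
  rcases p with p | p
  · change φ (pl (Sum.inl p.1)) a * w _ = φ s a * w _
    rw [p.2]
  · change φ (pl (Sum.inr p.1)) a * w _ = φ s a * w _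
    rw [p.2]

private theorem OrtB_trace {c : K →+* K} {φ : S → K →+* ℂ} (hT : GAM.CMT K c φ) (z : K) :
    ((Algebra.trace ℚ K z : ℚ) : ℂ) = ∑ s, (φ s z + φ s (c z)) := by
  have h1 : ((Algebra.trace ℚ K z : ℚ) : ℂ) = ∑ σ : K →ₐ[ℚ] ℂ, σ z := by
    rw [← trace_eq_sum_embeddings ℂ]
    rfl
  rw [h1, ← (RingHom.equivRatAlgHom K ℂ).sum_comp,
    ← (Equiv.ofBijective _ hT).sum_comp, Fintype.sum_sum_type, Finset.sum_add_distrib]
  rfl

private theorem OrtB_indep {c : K →+* K} {φ : S → K →+* ℂ} (hT : GAM.CMT K c φ)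
    (u v : S → ℂ) (h : ∀ a : K, ∑ s, (u s * φ s a + v s * φ s (c a)) = 0) (s : S) : u s = 0 := by
  have h1 := linearIndependent_monoidHom K ℂ
  have h2 : Function.Injective fun i : S ⊕ S =>
      ((Sum.elim φ (fun s => (φ s).comp c) i : K →+* ℂ) : K →* ℂ) := by
    intro i j hij
    apply hT.1
    ext x
    exact DFunLike.congr_fun hij x
  have h3 := h1.comp _ h2
  rw [Fintype.linearIndependent_iff] at h3
  have h4 := h3 (Sum.elim u v) (by
    funext a
    rw [Finset.sum_apply, Fintype.sum_sum_type, ← Finset.sum_add_distrib]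
    exact h a) (Sum.inl s)
  exact h4

end

section

variable {α β S : Type} [Fintype α] [Fintype β] [DecidableEq α] [DecidableEq β] [Fintype S] [DecidableEq S]
  {K : Type} [Field K] [NumberField K]

private theorem OrtB_act_add (pl : α ⊕ β → S) (φ : S → K →+* ℂ) (a b : K) (w : α ⊕ β → ℂ) :
    OrtB_act pl φ (a + b) w = OrtB_act pl φ a w + OrtB_act pl φ b w := by
  funext p
  simp only [OrtB_act, map_add, Pi.add_apply, add_mul]

/-- the values of the form -/
private theorem OrtB_eta {c : K →+* K} {φ : S → K →+* ℂ} (hc : GAM.CMF K c) (hT : GAM.CMT K c φ)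
    (pl : α ⊕ β → S) (W : Submodule ℚ (α ⊕ β → ℂ))
    (hK : ∀ a : K, ∀ w ∈ W, OrtB_act pl φ a w ∈ W)
    (hr : ∀ w ∈ W, ∀ w' ∈ W, ∃ q : ℚ, (star w' ⬝ᵥ (Jm α β).mulVec w).im = q)
    (x y : α ⊕ β → ℂ) (hx : x ∈ W) (hy : y ∈ W) :
    ∃ η : K, ∀ s, OrtB_h (OrtB_res pl s x) (OrtB_res pl s y) = 2 * Complex.I * φ s η := by
  have h1 : ∀ a : K, ∃ q : ℚ, (OrtB_h (OrtB_act pl φ a x) y).im = q := by
    intro a
    obtain ⟨q, hq⟩ := hr _ (hK a x hx) y hy
    rw [OrtB_h_eq] at hq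
    exact ⟨q, hq⟩
  choose q hq using h1
  have hadd : ∀ a b : K, q (a + b) = q a + q b := by
    intro a b
    have h2 : ((q (a + b) : ℚ) : ℝ) = ((q a : ℚ) : ℝ) + ((q b : ℚ) : ℝ) := by
      rw [← hq, ← hq, ← hq, OrtB_act_add, OrtB_add_left, Complex.add_im]
    exact_mod_cast h2
  obtain ⟨f, hf⟩ : ∃ f : K →ₗ[ℚ] ℚ, ∀ a, f a = q a :=
    ⟨(AddMonoidHom.mk' q hadd).toRatLinearMap, fun a => rfl⟩
  obtain ⟨η, hη⟩ : ∃ η : K, ∀ a, Algebra.trace ℚ K (η * a) = q a := by
    refine ⟨((Algebra.traceForm ℚ K).toDual (traceForm_nondegenerate ℚ K)).symm f, fun a => ?_⟩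
    rw [← hf, ← LinearMap.BilinForm.apply_toDual_symm_apply (hB := traceForm_nondegenerate ℚ K) f a]
    rfl
  have hconj : ∀ s (z : K), φ s (c z) = conj (φ s z) := fun s z => (hc.cc (φ s) z).symm
  refine ⟨η, fun s => ?_⟩
  have key : ∀ a : K, ∑ s, ((OrtB_h (OrtB_res pl s x) (OrtB_res pl s y) -
      2 * Complex.I * φ s η) * φ s a + (-(conj (OrtB_h (OrtB_res pl s x) (OrtB_res pl s y)) +
      2 * Complex.I * conj (φ s η))) * φ s (c a)) = 0 := by
    intro a
    have h2 : (((q a : ℚ) : ℝ) : ℂ) = ∑ s, (φ s (η * a) + φ s (c (η * a))) := by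
      rw [← OrtB_trace hT, hη]
      norm_cast
    have h3 : 2 * Complex.I * (((q a : ℚ) : ℝ) : ℂ) =
        ∑ s, (φ s a * OrtB_h (OrtB_res pl s x) (OrtB_res pl s y) -
          conj (φ s a) * conj (OrtB_h (OrtB_res pl s x) (OrtB_res pl s y))) := by
      have h4 : ∀ z : ℂ, 2 * Complex.I * ((z.im : ℝ) : ℂ) = z - conj z := by
        intro z
        apply Complex.ext <;> simp
        ring
      rw [← hq, h4, OrtB_tot pl, map_sum, ← Finset.sum_sub_distrib]
      refine Finset.sum_congr rfl fun s _ => ?_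
      rw [OrtB_res_act, OrtB_smul_left, map_mul]
    rw [h2, Finset.mul_sum] at h3
    rw [← sub_eq_zero, ← Finset.sum_sub_distrib] at h3
    rw [← neg_eq_zero, ← Finset.sum_neg_distrib, ← h3]
    refine Finset.sum_congr rfl fun s _ => ?_
    rw [map_mul, map_mul, map_mul, hconj, hconj]
    ring
  have h5 := OrtB_indep hT _ _ key s
  exact sub_eq_zero.1 h5

end

section

variable {α β S : Type} [Fintype α] [Fintype β] [DecidableEq α] [DecidableEq β] [Fintype S] [DecidableEq S]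
  {K : Type} [Field K] [NumberField K]

/-- the maximal orthogonal family -/
private theorem OrtB_main {c : K →+* K} {φ : S → K →+* ℂ} (hc : GAM.CMF K c) (hT : GAM.CMT K c φ)
    (pl : α ⊕ β → S) (W : Submodule ℚ (α ⊕ β → ℂ))
    (hK : ∀ a : K, ∀ w ∈ W, OrtB_act pl φ a w ∈ W)
    (hb : ∃ b : Basis ((α ⊕ β) ⊕ (α ⊕ β)) ℚ W, LinearIndependent ℝ fun i => (b i : α ⊕ β → ℂ))
    (hr : ∀ w ∈ W, ∀ w' ∈ W, ∃ q : ℚ, (star w' ⬝ᵥ (Jm α β).mulVec w).im = q) :
    ∃ (n : ℕ) (w : Fin n → α ⊕ β → ℂ) (d : Fin n → S → ℝ) (η : Fin n → K),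
      (∀ i, w i ∈ W) ∧
      (∀ i s, OrtB_h (OrtB_res pl s (w i)) (OrtB_res pl s (w i)) = (d i s : ℂ)) ∧
      (∀ i s, d i s ≠ 0) ∧ (∀ i s, (d i s : ℂ) = 2 * Complex.I * φ s (η i)) ∧
      (∀ i j, i ≠ j → ∀ s, OrtB_h (OrtB_res pl s (w i)) (OrtB_res pl s (w j)) = 0) ∧
      (∀ v ∈ W, ∃ a : Fin n → K, v = ∑ i, OrtB_act pl φ (a i) (w i)) ∧
      ∀ s, n = Fintype.card (Pa pl s) + Fintype.card (Pb pl s) := by
  have hI2 : (2 * Complex.I : ℂ) ≠ 0 := mul_ne_zero two_ne_zero Complex.I_ne_zero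
  obtain ⟨s₀⟩ : Nonempty S := by
    obtain ⟨σ⟩ : Nonempty (K →+* ℂ) := inferInstance
    obtain ⟨i, -⟩ := hT.2 σ
    rcases i with i | i <;> exact ⟨i⟩
  obtain ⟨P, hP⟩ : ∃ P : ℕ → Prop, P = fun k => ∃ w : Fin k → α ⊕ β → ℂ,
      (∀ i, w i ∈ W) ∧
      (∀ i s, OrtB_h (OrtB_res pl s (w i)) (OrtB_res pl s (w i)) ≠ 0) ∧
      ∀ i j, i ≠ j → ∀ s, OrtB_h (OrtB_res pl s (w i)) (OrtB_res pl s (w j)) = 0 := ⟨_, rfl⟩
  have hPle' : ∀ k s (w : Fin k → α ⊕ β → ℂ),
      (∀ i, OrtB_h (OrtB_res pl s (w i)) (OrtB_res pl s (w i)) ≠ 0) →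
      (∀ i j, i ≠ j → OrtB_h (OrtB_res pl s (w i)) (OrtB_res pl s (w j)) = 0) →
      k ≤ Fintype.card (Pa pl s) + Fintype.card (Pb pl s) := by
    intro k s w h1 h2
    have h3 := (OrtB_li (fun i => OrtB_res pl s (w i)) h1 h2).fintype_card_le_finrank
    rwa [Module.finrank_fintype_fun_eq_card, Fintype.card_fin, Fintype.card_sum] at h3
  obtain ⟨B, hB⟩ : ∃ B, B = Fintype.card (Pa pl s₀) + Fintype.card (Pb pl s₀) := ⟨_, rfl⟩
  have hPle : ∀ k, P k → k ≤ B := by
    intro k hk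
    rw [hP] at hk
    obtain ⟨w, -, h1, h2⟩ := hk
    rw [hB]
    exact hPle' k s₀ w (fun i => h1 i s₀) fun i j hij => h2 i j hij s₀
  classical
  have hP0 : P 0 := by
    rw [hP]
    exact ⟨fun i => i.elim0, fun i => i.elim0, fun i => i.elim0, fun i => i.elim0⟩
  obtain ⟨k, hk⟩ : ∃ k, k = Nat.findGreatest P B := ⟨_, rfl⟩
  have hPk : P k := by
    rw [hk]
    exact Nat.findGreatest_spec (Nat.zero_le _) hP0
  have hPk1 : ¬ P (k + 1) := by
    intro h
    have h1 := hPle _ h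
    have h2 := Nat.le_findGreatest h1 h
    omega
  have hPk' := hPk
  rw [hP] at hPk'
  obtain ⟨w, hwW, hw0, hwo⟩ := hPk'
  obtain ⟨d, hd⟩ : ∃ d : Fin k → S → ℝ, d = fun i s =>
    (OrtB_h (OrtB_res pl s (w i)) (OrtB_res pl s (w i))).re := ⟨_, rfl⟩
  have hdd : ∀ i s, OrtB_h (OrtB_res pl s (w i)) (OrtB_res pl s (w i)) = (d i s : ℂ) := by
    intro i s
    rw [hd]
    exact OrtB_self _
  have hd0 : ∀ i s, d i s ≠ 0 := by
    intro i s h
    apply hw0 i s
    rw [hdd i s, h, Complex.ofReal_zero]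
  have hη : ∀ i, ∃ η : K, ∀ s, (d i s : ℂ) = 2 * Complex.I * φ s η := by
    intro i
    obtain ⟨η, h⟩ := OrtB_eta hc hT pl W hK hr (w i) (w i) (hwW i) (hwW i)
    exact ⟨η, fun s => by rw [← hdd, h s]⟩
  choose η hη using hη
  have hη0 : ∀ i, η i ≠ 0 := by
    intro i h
    have h1 := hη i s₀
    rw [h, map_zero, mul_zero, Complex.ofReal_eq_zero] at h1
    exact hd0 i s₀ h1
  -- the orthogonal complement is totally isotropic
  have hiso1 : ∀ u ∈ W, (∀ i s, OrtB_h (OrtB_res pl s u) (OrtB_res pl s (w i)) = 0) →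
      ∀ s, OrtB_h (OrtB_res pl s u) (OrtB_res pl s u) = 0 := by
    intro u hu hui s
    by_contra hne
    have hall : ∀ s, OrtB_h (OrtB_res pl s u) (OrtB_res pl s u) ≠ 0 := by
      obtain ⟨ζ, hζ⟩ := OrtB_eta hc hT pl W hK hr u u hu hu
      have hζ0 : ζ ≠ 0 := by
        intro h
        apply hne
        rw [hζ s, h, map_zero, mul_zero]
      intro s'
      rw [hζ s']
      exact mul_ne_zero hI2 ((map_ne_zero _).2 hζ0)
    apply hPk1
    rw [hP]
    refine ⟨Fin.cons u w, ?_, ?_, ?_⟩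
    · intro i
      refine Fin.cases ?_ (fun j => ?_) i
      · exact hu
      · exact hwW j
    · intro i
      refine Fin.cases ?_ (fun j => ?_) i
      · exact hall
      · exact hw0 j
    · intro i j
      refine Fin.cases ?_ (fun i' => ?_) i
      · refine Fin.cases ?_ (fun j' => ?_) j
        · intro h
          exact absurd rfl h
        · intro _ s
          exact hui j' s
      · refine Fin.cases ?_ (fun j' => ?_) j
        · intro _ s
          show OrtB_h (OrtB_res pl s (w i')) (OrtB_res pl s u) = 0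
          rw [← OrtB_conj, hui i' s, map_zero]
        · intro h
          exact hwo i' j' fun h' => h (by rw [h'])
  have hiso : ∀ u ∈ W, (∀ i s, OrtB_h (OrtB_res pl s u) (OrtB_res pl s (w i)) = 0) →
      ∀ u' ∈ W, (∀ i s, OrtB_h (OrtB_res pl s u') (OrtB_res pl s (w i)) = 0) →
      ∀ s, OrtB_h (OrtB_res pl s u) (OrtB_res pl s u') = 0 := by
    have hre : ∀ u ∈ W, (∀ i s, OrtB_h (OrtB_res pl s u) (OrtB_res pl s (w i)) = 0) →
        ∀ u' ∈ W, (∀ i s, OrtB_h (OrtB_res pl s u') (OrtB_res pl s (w i)) = 0) →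
        ∀ s, (OrtB_h (OrtB_res pl s u) (OrtB_res pl s u')).re = 0 := by
      intro u hu hui u' hu' hui' s
      have h1 := hiso1 (u + u') (W.add_mem hu hu') (fun i s => by
        rw [OrtB_res_add, OrtB_add_left, hui i s, hui' i s, add_zero]) s
      rw [OrtB_res_add, OrtB_add_left, OrtB_add_right, OrtB_add_right, hiso1 u hu hui s,
        hiso1 u' hu' hui' s, ← OrtB_conj (OrtB_res pl s u) (OrtB_res pl s u')] at h1
      have h2 := congrArg Complex.re h1
      simp at h2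
      linarith
    intro u hu hui u' hu' hui' s
    obtain ⟨a, ha⟩ : ∃ a : K, φ s a ≠ φ s (c a) := by
      by_contra hcon
      push Not at hcon
      have h1 : (Sum.inl s : S ⊕ S) = Sum.inr s := hT.1 (by
        change φ s = (φ s).comp c
        ext x
        exact hcon x)
      cases h1
    have him : (φ s a).im ≠ 0 := by
      intro h
      apply ha
      rw [← hc.cc (φ s) a]
      exact (Complex.conj_eq_iff_im.2 h).symm
    apply Complex.ext
    · exact hre u hu hui u' hu' hui' s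
    · have h1 := hre (OrtB_act pl φ a u) (hK a u hu) (fun i s => by
        rw [OrtB_res_act, OrtB_smul_left, hui i s, mul_zero]) u' hu' hui' s
      rw [OrtB_res_act, OrtB_smul_left, Complex.mul_re, hre u hu hui u' hu' hui' s, mul_zero,
        zero_sub, neg_eq_zero] at h1
      exact (mul_eq_zero.mp h1).resolve_left him
  -- the projection
  have hproj : ∀ v ∈ W, ∃ (a : Fin k → K) (u : α ⊕ β → ℂ), u ∈ W ∧
      (∀ i s, OrtB_h (OrtB_res pl s u) (OrtB_res pl s (w i)) = 0) ∧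
      v = ∑ i, OrtB_act pl φ (a i) (w i) + u := by
    intro v hv
    have h1 : ∀ i, ∃ a : K, ∀ s, OrtB_h (OrtB_res pl s v) (OrtB_res pl s (w i)) =
        φ s a * (d i s : ℂ) := by
      intro i
      obtain ⟨ζ, hζ⟩ := OrtB_eta hc hT pl W hK hr v (w i) hv (hwW i)
      refine ⟨ζ / η i, fun s => ?_⟩
      rw [hζ s, hη i s, map_div₀]
      have h2 : φ s (η i) ≠ 0 := (map_ne_zero _).2 (hη0 i)
      field_simp
    choose a ha using h1
    refine ⟨a, v - ∑ i, OrtB_act pl φ (a i) (w i), ?_, ?_, ?_⟩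
    · exact W.sub_mem hv (W.sum_mem fun i _ => hK _ _ (hwW i))
    · intro j s
      rw [OrtB_res_sub, OrtB_res_sum, OrtB_sub_left]
      simp only [OrtB_res_act]
      rw [OrtB_sum_left, Finset.sum_eq_single j]
      · rw [hdd j s, ha j s, sub_self]
      · intro i _ hij
        rw [hwo i j hij s, mul_zero]
      · intro h
        exact absurd (Finset.mem_univ _) h
    · rw [add_sub_cancel]
  -- `W` spans over the reals
  obtain ⟨b, hbl⟩ := hb
  have hspan : Submodule.span ℝ (Set.range fun i => (b i : α ⊕ β → ℂ)) = ⊤ := by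
    apply hbl.span_eq_top_of_card_eq_finrank'
    rw [Fintype.card_sum, Module.finrank_pi_fintype]
    simp only [Complex.finrank_real_complex, Finset.sum_const, Finset.card_univ, smul_eq_mul]
    omega
  have hzero : ∀ u : α ⊕ β → ℂ, (∀ v ∈ W, OrtB_h u v = 0) → u = 0 := by
    intro u hu
    apply OrtB_nondeg
    intro Y
    have hY : Y ∈ Submodule.span ℝ (Set.range fun i => (b i : α ⊕ β → ℂ)) := by
      rw [hspan]
      exact Submodule.mem_top
    induction hY using Submodule.span_induction with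
    | mem x hx =>
      obtain ⟨i, rfl⟩ := hx
      exact hu _ (b i).2
    | zero => exact OrtB_zero_right u
    | add x y _ _ hx hy => rw [OrtB_add_right, hx, hy, add_zero]
    | smul r x _ hx =>
      have h4 : r • x = (r : ℂ) • x := by
        funext p
        simp
      rw [h4, OrtB_smul_right, hx, mul_zero]
  have hexp : ∀ v ∈ W, ∃ a : Fin k → K, v = ∑ i, OrtB_act pl φ (a i) (w i) := by
    intro v hv
    obtain ⟨a, u, huW, hui, hvu⟩ := hproj v hv
    have hu0 : u = 0 := by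
      apply hzero
      intro v' hv'
      obtain ⟨a', u', huW', hui', hvu'⟩ := hproj v' hv'
      rw [OrtB_tot pl]
      apply Finset.sum_eq_zero
      intro s _
      rw [hvu', OrtB_res_add, OrtB_add_right, hiso u huW hui u' huW' hui' s, add_zero, ← OrtB_conj,
        OrtB_res_sum]
      simp only [OrtB_res_act]
      rw [OrtB_sum_left]
      have h5 : ∑ i, φ s (a' i) * OrtB_h (OrtB_res pl s (w i)) (OrtB_res pl s u) = 0 := by
        apply Finset.sum_eq_zero
        intro i _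
        rw [← OrtB_conj, hui i s, map_zero, mul_zero]
      rw [h5, map_zero]
    exact ⟨a, by rw [hvu, hu0, add_zero]⟩
  refine ⟨k, w, d, η, hwW, hdd, hd0, hη, hwo, hexp, fun s => ?_⟩
  -- the dimension
  apply le_antisymm (hPle' k s w (fun i => hw0 i s) fun i j hij => hwo i j hij s)
  have h6 : Submodule.span ℂ (Set.range fun i => OrtB_res pl s (w i)) = ⊤ := by
    rw [eq_top_iff]
    intro Y _
    obtain ⟨X, rfl⟩ : ∃ X, OrtB_res pl s X = Y := by
      refine ⟨Sum.elim (fun i => if h : pl (Sum.inl i) = s then Y (Sum.inl ⟨i, h⟩) else 0)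
        (fun j => if h : pl (Sum.inr j) = s then Y (Sum.inr ⟨j, h⟩) else 0), ?_⟩
      funext p
      rcases p with p | p
      · exact dif_pos p.2
      · exact dif_pos p.2
    have hX : X ∈ Submodule.span ℝ (Set.range fun i => (b i : α ⊕ β → ℂ)) := by
      rw [hspan]
      exact Submodule.mem_top
    clear * - hX hexp
    induction hX using Submodule.span_induction with
    | mem x hx =>
      obtain ⟨i, rfl⟩ := hx
      obtain ⟨a, hv⟩ := hexp _ (b i).2
      show OrtB_res pl s (b i : α ⊕ β → ℂ) ∈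
        Submodule.span ℂ (Set.range fun i => OrtB_res pl s (w i))
      rw [hv, OrtB_res_sum]
      simp only [OrtB_res_act]
      exact Submodule.sum_mem _ fun j _ => Submodule.smul_mem _ _
        (Submodule.subset_span ⟨j, rfl⟩)
    | zero => rw [OrtB_res_zero]; exact Submodule.zero_mem _
    | add x y _ _ hx hy => rw [OrtB_res_add]; exact Submodule.add_mem _ hx hy
    | smul r x _ hx =>
      have h4 : r • x = (r : ℂ) • x := by
        funext p
        simp
      rw [h4, OrtB_res_smul]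
      exact Submodule.smul_mem _ _ hx
  have h7 := finrank_range_le_card (R := ℂ) fun i => OrtB_res pl s (w i)
  unfold Set.finrank at h7
  rwa [h6, finrank_top, Module.finrank_fintype_fun_eq_card, Fintype.card_fin,
    Fintype.card_sum] at h7

end

private def OrtB_fib {α β S : Type} (pl : α ⊕ β → S) : α ⊕ β ≃ (Σ s, (Pa pl s ⊕ Pb pl s)) where
  toFun := Sum.elim (fun i => ⟨pl (Sum.inl i), Sum.inl ⟨i, rfl⟩⟩) fun j =>
    ⟨pl (Sum.inr j), Sum.inr ⟨j, rfl⟩⟩
  invFun x := Sum.map Subtype.val Subtype.val x.2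
  left_inv p := by rcases p with p | p <;> rfl
  right_inv := by rintro ⟨s, ⟨i, rfl⟩ | ⟨j, rfl⟩⟩ <;> rfl

theorem thm_OrtB : St_OrtB := by
  intro α β _ _ _ _ K _ _ c S _ _ φ t pl W hG hK hb hr
  have hK' : ∀ a : K, ∀ w ∈ W, OrtB_act pl φ a w ∈ W := hK
  obtain ⟨n, w, d, η, hwW, hdd, hd0, hη, hwo, hexp, hn⟩ := OrtB_main hG.cm hG.ty pl W hK' hb hr
  have hsig : ∀ s, ∃ σ : Pa pl s ⊕ Pb pl s ≃ Fin n, (∀ i, 0 < d (σ (Sum.inl i)) s) ∧
      ∀ j, ¬ 0 < d (σ (Sum.inr j)) s := by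
    intro s
    obtain ⟨h1, h2⟩ := OrtB_card (fun i => OrtB_res pl s (w i)) (fun i => d i s)
      (fun i => hdd i s) (fun i => hd0 i s) (fun i j hij => hwo i j hij s)
    have h3 := Fintype.card_subtype_compl (fun i => 0 < d i s)
    have h4 : Fintype.card {i // 0 < d i s} ≤ Fintype.card (Fin n) := Fintype.card_subtype_le _
    rw [Fintype.card_fin] at h3 h4
    have h7' := hn s
    have h5 : Fintype.card {i // 0 < d i s} = Fintype.card (Pa pl s) := by omega
    have h6 : Fintype.card {i // ¬ 0 < d i s} = Fintype.card (Pb pl s) := by omega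
    refine ⟨(Equiv.sumCongr (Fintype.equivOfCardEq h5.symm)
      (Fintype.equivOfCardEq h6.symm)).trans (Equiv.sumCompl fun i => 0 < d i s), ?_, ?_⟩
    · intro i
      simp only [Equiv.trans_apply, Equiv.sumCongr_apply, Sum.map_inl, Equiv.sumCompl_apply_inl]
      exact (Fintype.equivOfCardEq h5.symm i).2
    · intro j
      simp only [Equiv.trans_apply, Equiv.sumCongr_apply, Sum.map_inr, Equiv.sumCompl_apply_inr]
      exact (Fintype.equivOfCardEq h6.symm j).2
  choose σ hσ1 hσ2 using hsig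
  obtain ⟨e, he2, hpos, hneg⟩ : ∃ e : α ⊕ β ≃ Fin n × S, (∀ p, (e p).2 = pl p) ∧
      (∀ i, 0 < d (e (Sum.inl i)).1 (pl (Sum.inl i))) ∧
      ∀ j, ¬ 0 < d (e (Sum.inr j)).1 (pl (Sum.inr j)) := by
    refine ⟨(OrtB_fib pl).trans ((Equiv.sigmaCongrRight σ).trans
      ((Equiv.sigmaEquivProd S (Fin n)).trans (Equiv.prodComm S (Fin n)))), ?_, ?_, ?_⟩
    · intro p
      rcases p with p | p <;> rfl
    · intro i
      exact hσ1 _ ⟨i, rfl⟩
    · intro j
      exact hσ2 _ ⟨j, rfl⟩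
  obtain ⟨r, hr'⟩ : ∃ r : α ⊕ β → ℝ, r = fun p => Real.sqrt |d (e p).1 (pl p)| := ⟨_, rfl⟩
  have hr0 : ∀ p, 0 < r p := by
    intro p
    rw [hr']
    exact Real.sqrt_pos.mpr (abs_pos.mpr (hd0 _ _))
  have hrsq : ∀ p, r p ^ 2 = |d (e p).1 (pl p)| := by
    intro p
    rw [hr']
    exact Real.sq_sqrt (abs_nonneg _)
  obtain ⟨g, hg⟩ : ∃ g : Matrix (α ⊕ β) (α ⊕ β) ℂ,
      g = Matrix.of fun u p => if pl u = pl p then ((r p : ℂ))⁻¹ * w (e p).1 u else 0 := ⟨_, rfl⟩
  have hcol : ∀ p s, OrtB_res pl s (g.mulVec (Pi.single p 1)) =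
      if s = pl p then ((r p : ℂ))⁻¹ • OrtB_res pl s (w (e p).1) else 0 := by
    intro p s
    rw [Matrix.mulVec_single_one, hg]
    funext u
    rcases u with u | u
    · change (if pl (Sum.inl u.1) = pl p then ((r p : ℂ))⁻¹ * w (e p).1 (Sum.inl u.1) else 0) = _
      rw [u.2]
      split_ifs <;> rfl
    · change (if pl (Sum.inr u.1) = pl p then ((r p : ℂ))⁻¹ * w (e p).1 (Sum.inr u.1) else 0) = _
      rw [u.2]
      split_ifs <;> rfl
  have hpair : ∀ p q, OrtB_h (g.mulVec (Pi.single q 1)) (g.mulVec (Pi.single p 1)) =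
      if pl q = pl p then ((r q : ℂ))⁻¹ * (((r p : ℂ))⁻¹ *
        OrtB_h (OrtB_res pl (pl p) (w (e q).1)) (OrtB_res pl (pl p) (w (e p).1))) else 0 := by
    intro p q
    have h8 : conj ((r p : ℂ))⁻¹ = ((r p : ℂ))⁻¹ := by
      rw [map_inv₀, Complex.conj_ofReal]
    rw [OrtB_tot pl, Finset.sum_eq_single (pl p)]
    · rw [hcol, hcol, if_pos rfl]
      by_cases h : pl q = pl p
      · rw [if_pos h, if_pos h.symm, OrtB_smul_left, OrtB_smul_right, h8]
      · rw [if_neg h, if_neg (fun h' => h h'.symm), OrtB_zero_left]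
    · intro s _ hs
      rw [hcol p s, if_neg hs, OrtB_zero_right]
    · intro h
      exact absurd (Finset.mem_univ _) h
  have hinj : ∀ p q, pl p = pl q → p ≠ q → (e p).1 ≠ (e q).1 := by
    intro p q h1 h2 h3
    apply h2
    apply e.injective
    refine Prod.ext h3 ?_
    rw [he2, he2, h1]
  refine ⟨g, n, e, r, ?_, ?_, he2, hr0, ?_, ?_⟩
  · show g.conjTranspose * Jm α β * g = Jm α β
    ext s t
    have h7 : ∀ A : Matrix (α ⊕ β) (α ⊕ β) ℂ,
        star (Pi.single s (1 : ℂ) : α ⊕ β → ℂ) ⬝ᵥ A.mulVec (Pi.single t 1) = A s t := by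
      intro A
      rw [Matrix.mulVec_single_one]
      unfold dotProduct
      rw [Finset.sum_eq_single s]
      · simp
      · intro k _ hk
        rw [Pi.star_apply, Pi.single_eq_of_ne hk, star_zero, zero_mul]
      · intro h
        exact absurd (Finset.mem_univ _) h
    rw [← h7 (g.conjTranspose * Jm α β * g), ← Matrix.mulVec_mulVec, ← Matrix.mulVec_mulVec,
      Matrix.dotProduct_mulVec,
      ← Matrix.star_mulVec, OrtB_h_eq, hpair]
    by_cases hst : s = t
    · subst hst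
      rw [if_pos rfl, hdd]
      have h9 : ((r s : ℂ))⁻¹ * (((r s : ℂ))⁻¹ * (d (e s).1 (pl s) : ℂ)) =
          ((d (e s).1 (pl s) / r s ^ 2 : ℝ) : ℂ) := by
        push_cast
        field_simp
      rw [h9, hrsq]
      unfold Jm
      rcases s with i | j
      · rw [Matrix.fromBlocks_apply₁₁, Matrix.one_apply_eq, abs_of_pos (hpos i),
          div_self (hpos i).ne', Complex.ofReal_one]
      · have h10 : d (e (Sum.inr j)).1 (pl (Sum.inr j)) < 0 :=
          lt_of_le_of_ne (not_lt.mp (hneg j)) (hd0 _ _)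
        rw [Matrix.fromBlocks_apply₂₂, Matrix.neg_apply, Matrix.one_apply_eq, abs_of_neg h10,
          div_neg, div_self h10.ne, Complex.ofReal_neg, Complex.ofReal_one]
    · have h0 : (if pl t = pl s then ((r t : ℂ))⁻¹ * (((r s : ℂ))⁻¹ *
          OrtB_h (OrtB_res pl (pl s) (w (e t).1)) (OrtB_res pl (pl s) (w (e s).1))) else 0) =
          (0 : ℂ) := by
        split_ifs with h
        · rw [hwo _ _ (hinj t s h fun h' => hst h'.symm), mul_zero, mul_zero]
        · rfl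
      rw [h0]
      unfold Jm
      rcases s with i | j <;> rcases t with i' | j'
      · rw [Matrix.fromBlocks_apply₁₁, Matrix.one_apply_ne (fun h => hst (by rw [h]))]
      · rw [Matrix.fromBlocks_apply₁₂, Matrix.zero_apply]
      · rw [Matrix.fromBlocks_apply₂₁, Matrix.zero_apply]
      · rw [Matrix.fromBlocks_apply₂₂, Matrix.neg_apply,
          Matrix.one_apply_ne (fun h => hst (by rw [h])), neg_zero]
  · intro p q hpq
    rw [hg, Matrix.of_apply, if_neg hpq]
  · intro p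
    refine IsAlgebraic.of_pow (n := 4) (by norm_num) ?_
    have h1 : ((r p : ℂ)) ^ 4 = φ (pl p) (-4 * η (e p).1 ^ 2) := by
      have h2 : ((r p : ℂ)) ^ 4 = ((d (e p).1 (pl p) : ℂ)) ^ 2 := by
        have h3 : r p ^ 4 = d (e p).1 (pl p) ^ 2 := by
          rw [show r p ^ 4 = (r p ^ 2) ^ 2 by ring, hrsq, sq_abs]
        exact_mod_cast congrArg (fun x : ℝ => (x : ℂ)) h3
      rw [h2, hη, map_mul, map_pow, mul_pow, mul_pow, Complex.I_sq, map_neg, map_ofNat]
      ring
    rw [h1]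
    exact (Algebra.IsAlgebraic.isAlgebraic (R := ℚ) (-4 * η (e p).1 ^ 2)).algHom
      (φ (pl p)).toRatAlgHom
  · have hmv : ∀ a : Fin n → K,
        (g.mulVec fun p => (r p : ℂ) * φ (pl p) (a (e p).1)) =
          ∑ i, OrtB_act pl φ (a i) (w i) := by
      intro a
      funext u
      rw [Finset.sum_apply]
      show ∑ p, g u p * ((r p : ℂ) * φ (pl p) (a (e p).1)) = ∑ i, φ (pl u) (a i) * w i u
      obtain ⟨G, hGd⟩ : ∃ G : Fin n × S → ℂ,
          G = fun x => if pl u = x.2 then w x.1 u * φ x.2 (a x.1) else 0 := ⟨_, rfl⟩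
      have h1 : ∀ p, g u p * ((r p : ℂ) * φ (pl p) (a (e p).1)) = G (e p) := by
        intro p
        rw [hGd]
        change _ = if pl u = (e p).2 then w (e p).1 u * φ (e p).2 (a (e p).1) else 0
        rw [he2, hg, Matrix.of_apply]
        split_ifs with h
        · have h11 : (r p : ℂ) ≠ 0 := by exact_mod_cast (hr0 p).ne'
          field_simp
        · rw [zero_mul]
      rw [Finset.sum_congr rfl fun p _ => h1 p, Equiv.sum_comp e G, Fintype.sum_prod_type, hGd]
      refine Finset.sum_congr rfl fun i _ => ?_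
      change (∑ x, if pl u = x then w i u * φ x (a i) else 0) = _
      rw [Finset.sum_ite_eq, if_pos (Finset.mem_univ _), mul_comm]
    intro v
    constructor
    · intro hv
      obtain ⟨a, ha⟩ := hexp v hv
      exact ⟨a, by rw [hmv, ha]⟩
    · rintro ⟨a, ha⟩
      rw [ha, hmv]
      exact W.sum_mem fun i _ => hK' _ _ (hwW _)

end WPP
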