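import Pool.Agent.WPP.StC
import Pool.Agent.PST.All

/-!
# WPP: module PtsB, choice of the points of odd order
-/

set_option autoImplicit false

namespace WPP

open scoped ComplexConjugate
open GAM (H E F pd pdl PLat IsTh OddTor IsDel Gro IsLat)
open PST DWC

theorem thm_PtsB : St_PtsB := by
  classical
  intro α β μ S _ _ _ _ _ _ _ pl s L χ θ k hP hT hne
  have h1 : St_DetPt := PST.All.DetPt_
  have h2 : St_Ind3 := PST.All.Ind3_
  have h3 : St_EllZ := PST.All.EllZ_
  obtain ⟨x, hx, hxd⟩ : ∃ x : Pa pl s → Ix α β μ → ℂ, (∀ b, OddTor L (x b)) ∧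
      fpB pl s k θ 0 x ≠ 0 := by
    obtain ⟨x, hx, hd⟩ := Pts_det1 h1 L χ θ hP hT hne
      (fun i : Pa pl s => ((Sum.inl i.1, k) : Ix α β μ))
      (fun i i' h => Subtype.ext (Sum.inl_injective (congrArg Prod.fst h)))
    refine ⟨x, hx, ?_⟩
    unfold fpB
    have e1 : (Matrix.of fun i b : Pa pl s => dpsi (Sum.inl i.1, k) θ 0 (x b)) =
        Matrix.of fun i b : Pa pl s => pd ((Sum.inl i.1, k) : Ix α β μ) (F θ (x b)) 0 := by
      ext i b
      exact Pts_dpsi h3 L χ θ hP hT _ _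
    rw [e1]
    exact hd
  obtain ⟨x', hx', hxd'⟩ : ∃ x : Pb pl s → Ix α β μ → ℂ, (∀ b, OddTor L (x b)) ∧
      fmB pl s k θ 0 x ≠ 0 := by
    obtain ⟨x, hx, hd⟩ := Pts_det1 h1 L χ θ hP hT hne
      (fun i : Pb pl s => ((Sum.inr i.1, k) : Ix α β μ))
      (fun i i' h => Subtype.ext (Sum.inr_injective (congrArg Prod.fst h)))
    refine ⟨x, hx, ?_⟩
    unfold fmB
    have e1 : (Matrix.of fun i b : Pb pl s => dpsi (Sum.inr i.1, k) θ 0 (x b)) =
        Matrix.of fun i b : Pb pl s => pd ((Sum.inr i.1, k) : Ix α β μ) (F θ (x b)) 0 := by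
      ext i b
      exact Pts_dpsi h3 L χ θ hP hT _ _
    rw [e1]
    exact hd
  obtain ⟨y, hy, hyd⟩ := h1 (Ix α β μ → ℂ) (Option (Ga pl)) {x | OddTor L x}
    (fun j x => Option.elim j (F θ x 0) fun p => Dij p.1 (F θ x) 0) (by
    intro c hc
    obtain ⟨x, hx, hx'⟩ := h2 α β μ L χ θ ⟨k⟩ hP hT hne (c none)
      (ex0 pl fun p => c (some p)) (by
      rintro ⟨h4, h5⟩
      apply hc
      funext o
      cases o with
      | none => exact h4
      | some p =>
        have h6 := congrFun h5 p.1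
        rw [ex0, dif_pos p.2] at h6
        exact h6)
    refine ⟨x, hx, ?_⟩
    rw [Fintype.sum_option]
    have e2 : ∑ p : α × β, ex0 pl (fun p => c (some p)) p * Dij p (F θ x) 0 =
        ∑ p : Ga pl, c (some p) * Dij p.1 (F θ x) 0 := by
      rw [← Finset.sum_filter_of_ne
        (p := fun p : α × β => pl (Sum.inl p.1) = pl (Sum.inr p.2))
        (f := fun p : α × β => ex0 pl (fun p => c (some p)) p * Dij p (F θ x) 0)
        (s := Finset.univ) (fun p _ hp => by
          by_contra h7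
          apply hp
          rw [ex0, dif_neg h7, zero_mul])]
      rw [Finset.sum_subtype (p := fun p : α × β => pl (Sum.inl p.1) = pl (Sum.inr p.2))
        _ (fun p => by simp)]
      refine Finset.sum_congr rfl fun p _ => ?_
      rw [ex0, dif_pos p.2]
    rw [e2] at hx'
    exact hx')
  obtain ⟨t, hs1, hs2⟩ := Pts_swap (fun (x : Ix α β μ → ℂ) (j : Option (Ga pl)) =>
    Option.elim j (F θ x 0) fun p => Dij p.1 (F θ x) 0) y hyd
  refine ⟨fun i => y (t i), x, x', fun i => hy _, hx, hx', ?_, hxd, hxd', hs2⟩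
  rw [Pts_psi h3 L χ θ hP hT]
  exact hs1

end WPP
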