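import Pool.Agent.WPP.StC
import Pool.Agent.PST.Rel

/-!
# WPP [RelB]: the algebraic relation
-/

set_option autoImplicit false

namespace WPP

open scoped ComplexConjugate
open GAM (H E F pd pdl PLat IsTh OddTor IsDel Gro IsLat)
open PST DWC

/-- continuity at zero of the determinant -/
theorem RelB_fm {α β μ S : Type} [Fintype α] [Fintype β] [Fintype μ] [DecidableEq α]
    [DecidableEq β] [DecidableEq μ] [DecidableEq S] (pl : α ⊕ β → S) (s : S) (h4 : St_EllS)
    (h5 : St_OmBT) {L : Submodule ℤ (Ix α β μ → ℂ)}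
    {χ θ : (Ix α β μ → ℂ) → ℂ} (hP : PLat L χ) (hT : IsTh L χ θ) (k : μ)
    (x' : Pb pl s → Ix α β μ → ℂ) :
    ContinuousAt (fun w : Ga pl → ℂ => fmB pl s k θ (ex0 pl w) x') 0 := by
  obtain ⟨ho, -, h0, -⟩ := h5 α β S pl
  obtain ⟨g1, g2, -⟩ := GAM.thm_GroF GAM.thm_GroU GAM.thm_GroC (Ix α β μ)
  have hG : ∀ x, Gro (F θ x) := g1 L χ θ hP hT
  have h1 : ContinuousAt (fun w : Ga pl → ℂ =>
      (Matrix.of fun j b : Pb pl s => dpsi (Sum.inr j.1, k) θ (ex0 pl w) (x' b) :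
        Matrix (Pb pl s) (Pb pl s) ℂ)) 0 := by
    refine continuousAt_pi.2 fun j => continuousAt_pi.2 fun b => ?_
    have h2 := (h4 α β μ S pl (pd (Sum.inr j.1, k) (F θ (x' b))) (g2 _ (hG _) _)).1
    exact ((h2 0 h0).differentiableAt (ho.mem_nhds h0)).continuousAt
  exact ContinuousAt.comp (g := fun M : Matrix (Pb pl s) (Pb pl s) ℂ => M.det)
    (f := fun w : Ga pl → ℂ =>
      (Matrix.of fun j b : Pb pl s => dpsi (Sum.inr j.1, k) θ (ex0 pl w) (x' b) :
        Matrix (Pb pl s) (Pb pl s) ℂ))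
    (Continuous.matrix_det continuous_id).continuousAt h1

theorem thm_RelB (h1 : St_SieB) (h2 : St_EllS) (h3 : St_OmBT) (h4 : PST.St_MinP)
    (h5 : PST.St_HomI) (h6 : PST.St_Ell) : St_RelB := by
  classical
  intro α β μ S _ _ _ _ _ _ _ _ pl s L χ θ e k y x x' hP hT hne hC hy hx hx' hy0 hfp hfm hdet
  obtain ⟨ho, -, h0, -, -, -, -, hex0, -⟩ := h3 α β S pl
  obtain ⟨g1, g2, -⟩ := GAM.thm_GroF GAM.thm_GroU GAM.thm_GroC (Ix α β μ)
  have hG : ∀ x, Gro (F θ x) := g1 L χ θ hP hT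
  have hE := fun i => h2 α β μ S pl (F θ (y i)) (hG (y i))
  have hz : ∀ G : (Ix α β μ → ℂ) → ℂ, Gro G → ell (ex0 pl (0 : Ga pl → ℂ)) G = G 0 := by
    intro G hG'
    rw [hex0]
    exact (h6 α β μ G hG').2.1
  have han : ∀ i, AnalyticAt ℂ (fun w : Ga pl → ℂ => psi θ (ex0 pl w) (y i)) 0 := fun i =>
    GAM.analyticOnNhd_of_differentiableOn ho (hE i).1 0 h0
  have hM := h1 α β μ S pl s L χ θ e k y x x' hP hT hne hC hy hx hx'
  refine h4 (Ga pl → ℂ) (Option (Ga pl)) (fun i w => XFB pl s e k θ y x x' w i) (OmB pl) ?_ hM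
  intro m P hPm hPz
  refine h5 (Ga pl) (fun i w => psi θ (ex0 pl w) (y i)) han ?_ m P hPm ?_
  · -- the determinant
    have e1 : (Matrix.of fun i j : Option (Ga pl) =>
        Option.elim j (psi θ (ex0 pl (0 : Ga pl → ℂ)) (y i)) fun p =>
          pd p (fun w : Ga pl → ℂ => psi θ (ex0 pl w) (y i)) 0) =
        Matrix.of fun i j : Option (Ga pl) =>
          (Option.elim j 1 fun _ => (1 / Real.pi : ℂ)) * (Matrix.of fun i j : Option (Ga pl) =>
            Option.elim j (F θ (y i) 0) fun p => Dij p.1 (F θ (y i)) 0) i j := by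
      ext i j
      cases j with
      | none =>
        show psi θ (ex0 pl (0 : Ga pl → ℂ)) (y i) = 1 * F θ (y i) 0
        rw [one_mul]
        exact hz _ (hG (y i))
      | some p =>
        show pd p (fun w : Ga pl → ℂ => psi θ (ex0 pl w) (y i)) 0 =
          (1 / Real.pi : ℂ) * Dij p.1 (F θ (y i)) 0
        rw [← hz _ (Rel_gro_Dij (hG (y i)) p.1)]
        exact (hE i).2 0 h0 p
    rw [e1, Matrix.det_mul_row]
    refine mul_ne_zero ?_ hdet
    refine Finset.prod_ne_zero_iff.mpr fun j _ => ?_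
    cases j with
    | none => exact one_ne_zero
    | some p =>
      show (1 / Real.pi : ℂ) ≠ 0
      exact one_div_ne_zero (by exact_mod_cast Real.pi_ne_zero)
  · -- the relation near zero
    have hnz : ∀ᶠ w in nhds (0 : Ga pl → ℂ), psi θ (ex0 pl w) (y none) ≠ 0 := by
      refine (han none).continuousAt.eventually_ne ?_
      show psi θ (ex0 pl (0 : Ga pl → ℂ)) (y none) ≠ 0
      rw [hex0]
      exact hy0
    have hnz' : ∀ᶠ w in nhds (0 : Ga pl → ℂ), fmB pl s k θ (ex0 pl w) x' ≠ 0 := by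
      refine (RelB_fm pl s h2 h3 hP hT k x').eventually_ne ?_
      show fmB pl s k θ (ex0 pl (0 : Ga pl → ℂ)) x' ≠ 0
      rw [hex0]
      exact hfm
    filter_upwards [hnz, hnz', ho.mem_nhds h0] with w hw1 hw2 hw3
    have h := hPz w hw3
    have h' : (fun i : Option (Ga pl) => XFB pl s e k θ y x x' w (some i)) = fun i =>
        (psi θ (ex0 pl w) (y none) ^ (e * Fintype.card (Pa pl s)) *
          fmB pl s k θ (ex0 pl w) x' ^ e) * psi θ (ex0 pl w) (y i) := by
      funext i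
      show psi θ (ex0 pl w) (y i) * psi θ (ex0 pl w) (y none) ^ (e * Fintype.card (Pa pl s)) *
        fmB pl s k θ (ex0 pl w) x' ^ e = _
      ring
    rw [h', GAM.Rel_scale hPm] at h
    exact (mul_eq_zero.mp h).resolve_left
      (pow_ne_zero _ (mul_ne_zero (pow_ne_zero _ hw1) (pow_ne_zero _ hw2)))

end WPP
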