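import Pool.Agent.WPP.StC
import Pool.Agent.DWC.StG
import Pool.Agent.PST.StF
import Pool.Agent.GAM.GroF
import Pool.Agent.GAM.GroC
import Pool.Agent.GAM.GroU
import Pool.Agent.GAM.Sieg

/-!
# WPP [SieB]: existence of an algebraic relation, from the half planes, on the product domain

Port of `Pool/Agent/DWC/SieH.lean`.
-/

set_option autoImplicit false

namespace WPP

open scoped ComplexConjugate
open GAM (H E F pd pdl PLat IsTh OddTor IsDel Gro IsLat)
open PST DWC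

section

variable {α β μ S : Type} [Fintype α] [Fintype β] [Fintype μ]
  [DecidableEq α] [DecidableEq β] [DecidableEq μ] [DecidableEq S]

private theorem SieB_F {L : Submodule ℤ (Ix α β μ → ℂ)} {χ θ : (Ix α β μ → ℂ) → ℂ}
    (hL : PLat L χ) (hθ : IsTh L χ θ) (x : Ix α β μ → ℂ) : Gro (F θ x) :=
  (GAM.thm_GroF GAM.thm_GroU GAM.thm_GroC (Ix α β μ)).1 L χ θ hL hθ x

private theorem SieB_psi (h3 : St_EllS) (pl : α ⊕ β → S) {L : Submodule ℤ (Ix α β μ → ℂ)}
    {χ θ : (Ix α β μ → ℂ) → ℂ} (hL : PLat L χ) (hθ : IsTh L χ θ) (x : Ix α β μ → ℂ) :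
    DifferentiableOn ℂ (fun w : Ga pl → ℂ => psi θ (ex0 pl w) x) (OmB pl) :=
  (h3 α β μ S pl (F θ x) (SieB_F hL hθ x)).1

private theorem SieB_dpsi (h3 : St_EllS) (pl : α ⊕ β → S) {L : Submodule ℤ (Ix α β μ → ℂ)}
    {χ θ : (Ix α β μ → ℂ) → ℂ} (hL : PLat L χ) (hθ : IsTh L χ θ) (p : Ix α β μ)
    (x : Ix α β μ → ℂ) :
    DifferentiableOn ℂ (fun w : Ga pl → ℂ => dpsi p θ (ex0 pl w) x) (OmB pl) :=
  (h3 α β μ S pl (pd p (F θ x)) ((GAM.thm_GroC (Ix α β μ)).1 _ (SieB_F hL hθ x) p)).1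

private theorem SieB_prod {V : Type} [NormedAddCommGroup V] [NormedSpace ℂ V] {T : Set V}
    {γ : Type} [DecidableEq γ] (s : Finset γ) (M : γ → V → ℂ)
    (hM : ∀ i, DifferentiableOn ℂ (M i) T) :
    DifferentiableOn ℂ (fun w => ∏ i ∈ s, M i w) T := by
  induction s using Finset.induction_on with
  | empty => simp
  | insert a s ha ih =>
    simp only [Finset.prod_insert ha]
    exact (hM a).fun_mul ih

private theorem SieB_det {V : Type} [NormedAddCommGroup V] [NormedSpace ℂ V] {T : Set V}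
    {γ : Type} [Fintype γ] [DecidableEq γ] (M : γ → γ → V → ℂ)
    (hM : ∀ i j, DifferentiableOn ℂ (M i j) T) :
    DifferentiableOn ℂ (fun w => (Matrix.of fun i j => M i j w).det) T := by
  simp only [Matrix.det_apply, Matrix.of_apply]
  refine DifferentiableOn.fun_sum fun σ _ => ?_
  refine DifferentiableOn.const_smul ?_ _
  exact SieB_prod _ _ fun i => hM _ _

private theorem SieB_XF (h3 : St_EllS) (pl : α ⊕ β → S) (s : S)
    {L : Submodule ℤ (Ix α β μ → ℂ)}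
    {χ θ : (Ix α β μ → ℂ) → ℂ} (hL : PLat L χ) (hθ : IsTh L χ θ) (e : ℕ) (k : μ)
    (y : Option (Ga pl) → Ix α β μ → ℂ) (x : Pa pl s → Ix α β μ → ℂ)
    (x' : Pb pl s → Ix α β μ → ℂ) (o : Option (Option (Ga pl))) :
    DifferentiableOn ℂ (fun w : Ga pl → ℂ => XFB pl s e k θ y x x' w o) (OmB pl) := by
  have hp := SieB_psi h3 pl hL hθ
  have hd := SieB_dpsi h3 pl hL hθ
  rcases o with _ | i
  · show DifferentiableOn ℂ (fun w : Ga pl → ℂ => psi θ (ex0 pl w) (y none) *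
      psi θ (ex0 pl w) (y none) ^ (e * Fintype.card (Pb pl s)) *
        fpB pl s k θ (ex0 pl w) x ^ e) (OmB pl)
    refine ((hp _).fun_mul ((hp _).fun_pow _)).fun_mul (DifferentiableOn.fun_pow ?_ _)
    exact SieB_det (fun (i b : Pa pl s) (w : Ga pl → ℂ) =>
      dpsi (Sum.inl i.1, k) θ (ex0 pl w) (x b)) fun i b => hd _ _
  · show DifferentiableOn ℂ (fun w : Ga pl → ℂ => psi θ (ex0 pl w) (y i) *
      psi θ (ex0 pl w) (y none) ^ (e * Fintype.card (Pa pl s)) *
        fmB pl s k θ (ex0 pl w) x' ^ e) (OmB pl)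
    refine ((hp _).fun_mul ((hp _).fun_pow _)).fun_mul (DifferentiableOn.fun_pow ?_ _)
    exact SieB_det (fun (i b : Pb pl s) (w : Ga pl → ℂ) =>
      dpsi (Sum.inr i.1, k) θ (ex0 pl w) (x' b)) fun i b => hd _ _

/-- the action is surjective -/
private theorem SieB_surj (h5 : St_UGr) {g : Matrix (α ⊕ β) (α ⊕ β) ℂ} (hg : IsU g)
    (x : Ix α β μ → ℂ) : ∃ y : Ix α β μ → ℂ, act g y = x := by
  obtain ⟨-, hmul, hone, -, -, hinv, -⟩ := h5 α β μ
  obtain ⟨-, -, hr, -, -⟩ := hinv g hg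
  exact ⟨act (Jm α β * g.conjTranspose * Jm α β) x, by rw [← hmul, hr, hone]⟩

/-- the growth of a determinant -/
private theorem SieB_detB {γ : Type} [Fintype γ] [DecidableEq γ] (M : γ → γ → ℂ) {B : ℝ}
    (hM : ∀ i j, ‖M i j‖ ≤ B) :
    ‖(Matrix.of fun i j => M i j).det‖ ≤ (Fintype.card γ).factorial * B ^ Fintype.card γ := by
  rw [Matrix.det_apply]
  have h1 : ∀ σ : Equiv.Perm γ,
      ‖Equiv.Perm.sign σ • ∏ i, (Matrix.of fun i j => M i j) (σ i) i‖ ≤
        B ^ Fintype.card γ := by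
    intro σ
    have h2 : ‖Equiv.Perm.sign σ • ∏ i, (Matrix.of fun i j => M i j) (σ i) i‖ =
        ∏ i, ‖M (σ i) i‖ := by
      rcases Int.units_eq_one_or (Equiv.Perm.sign σ) with h | h
      · rw [h, one_smul, norm_prod]
        rfl
      · rw [h, Units.neg_smul, one_smul, norm_neg, norm_prod]
        rfl
    rw [h2]
    calc ∏ i, ‖M (σ i) i‖ ≤ ∏ _i : γ, B :=
          Finset.prod_le_prod (fun i _ => norm_nonneg _) fun i _ => hM _ _
      _ = B ^ Fintype.card γ := by rw [Finset.prod_const, Finset.card_univ]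
  refine (norm_sum_le _ _).trans ?_
  refine (Finset.sum_le_sum fun σ _ => h1 σ).trans ?_
  rw [Finset.sum_const, Finset.card_univ, Fintype.card_perm, nsmul_eq_mul]

/-- the growth of the functions `XF` and of the exponents -/
private theorem SieB_grow (pl : α ⊕ β → S) (s : S) {θ : (Ix α β μ → ℂ) → ℂ} {w : Ga pl → ℂ}
    {B : ℝ} (hB : 0 ≤ B)
    (hp : ∀ x, ‖psi θ (ex0 pl w) x‖ ≤ B) (hd : ∀ x p, ‖dpsi p θ (ex0 pl w) x‖ ≤ B) (e : ℕ)
    (k : μ) (y : Option (Ga pl) → Ix α β μ → ℂ) (x : Pa pl s → Ix α β μ → ℂ)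
    (x' : Pb pl s → Ix α β μ → ℂ)
    {a b : ℝ} (ha : IsLUB (Set.range fun x => ‖psi θ (ex0 pl w) x‖) a)
    (hb : IsLUB (Set.range fun x => ‖fmB pl s k θ (ex0 pl w) x‖) b) (ha0 : 0 ≤ a)
    (hb0 : 0 ≤ b) :
    a ^ (1 + e * Fintype.card (Pa pl s)) * b ^ e ≤
      ((Fintype.card (Pa pl s)).factorial ^ e + (Fintype.card (Pb pl s)).factorial ^ e : ℝ) *
        B ^ (1 + e * (Fintype.card (Pa pl s) + Fintype.card (Pb pl s))) ∧
    ∀ o, ‖XFB pl s e k θ y x x' w o‖ ≤
      ((Fintype.card (Pa pl s)).factorial ^ e + (Fintype.card (Pb pl s)).factorial ^ e : ℝ) *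
        B ^ (1 + e * (Fintype.card (Pa pl s) + Fintype.card (Pb pl s))) := by
  have hfm : ∀ t, ‖fmB pl s k θ (ex0 pl w) t‖ ≤ (Fintype.card (Pb pl s)).factorial * B ^ Fintype.card (Pb pl s) :=
    fun t => SieB_detB (fun j b : Pb pl s => dpsi (Sum.inr j.1, k) θ (ex0 pl w) (t b))
      fun i j => hd _ _
  have hfp : ∀ t, ‖fpB pl s k θ (ex0 pl w) t‖ ≤ (Fintype.card (Pa pl s)).factorial * B ^ Fintype.card (Pa pl s) :=
    fun t => SieB_detB (fun j b : Pa pl s => dpsi (Sum.inl j.1, k) θ (ex0 pl w) (t b))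
      fun i j => hd _ _
  have haB : a ≤ B := ha.2 (by rintro _ ⟨t, rfl⟩; exact hp t)
  have hbB : b ≤ (Fintype.card (Pb pl s)).factorial * B ^ Fintype.card (Pb pl s) :=
    hb.2 (by rintro _ ⟨t, rfl⟩; exact hfm t)
  have hA : (0 : ℝ) ≤ (Fintype.card (Pa pl s)).factorial ^ e := by positivity
  have hB' : (0 : ℝ) ≤ (Fintype.card (Pb pl s)).factorial ^ e := by positivity
  have hBD : 0 ≤ B ^ (1 + e * (Fintype.card (Pa pl s) + Fintype.card (Pb pl s))) := pow_nonneg hB _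
  have hβ0 : (0 : ℝ) ≤ (Fintype.card (Pb pl s)).factorial * B ^ Fintype.card (Pb pl s) := by positivity
  have hα0 : (0 : ℝ) ≤ (Fintype.card (Pa pl s)).factorial * B ^ Fintype.card (Pa pl s) := by positivity
  have e1 : B ^ (1 + e * Fintype.card (Pa pl s)) *
      ((Fintype.card (Pb pl s)).factorial * B ^ Fintype.card (Pb pl s)) ^ e =
      (Fintype.card (Pb pl s)).factorial ^ e * B ^ (1 + e * (Fintype.card (Pa pl s) + Fintype.card (Pb pl s))) := by
    rw [mul_pow, ← pow_mul]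
    have : 1 + e * (Fintype.card (Pa pl s) + Fintype.card (Pb pl s)) =
        (1 + e * Fintype.card (Pa pl s)) + Fintype.card (Pb pl s) * e := by ring
    rw [this, pow_add B (1 + e * Fintype.card (Pa pl s))]
    ring
  have e2 : B * B ^ (e * Fintype.card (Pb pl s)) *
      ((Fintype.card (Pa pl s)).factorial * B ^ Fintype.card (Pa pl s)) ^ e =
      (Fintype.card (Pa pl s)).factorial ^ e * B ^ (1 + e * (Fintype.card (Pa pl s) + Fintype.card (Pb pl s))) := by
    rw [mul_pow, ← pow_mul]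
    have : 1 + e * (Fintype.card (Pa pl s) + Fintype.card (Pb pl s)) =
        1 + e * Fintype.card (Pb pl s) + Fintype.card (Pa pl s) * e := by ring
    rw [this, pow_add B (1 + e * Fintype.card (Pb pl s)), pow_add B 1, pow_one]
    ring
  refine ⟨?_, ?_⟩
  · calc a ^ (1 + e * Fintype.card (Pa pl s)) * b ^ e
        ≤ B ^ (1 + e * Fintype.card (Pa pl s)) *
          ((Fintype.card (Pb pl s)).factorial * B ^ Fintype.card (Pb pl s)) ^ e :=
          mul_le_mul (pow_le_pow_left₀ ha0 haB _) (pow_le_pow_left₀ hb0 hbB _)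
            (pow_nonneg hb0 _) (pow_nonneg hB _)
      _ ≤ _ := by
          rw [e1]
          exact mul_le_mul_of_nonneg_right (by linarith) hBD
  · intro o
    rcases o with _ | i
    · show ‖psi θ (ex0 pl w) (y none) * psi θ (ex0 pl w) (y none) ^ (e * Fintype.card (Pb pl s)) * fpB pl s k θ (ex0 pl w) x ^ e‖ ≤ _
      rw [norm_mul, norm_mul, norm_pow, norm_pow]
      calc ‖psi θ (ex0 pl w) (y none)‖ * ‖psi θ (ex0 pl w) (y none)‖ ^ (e * Fintype.card (Pb pl s)) * ‖fpB pl s k θ (ex0 pl w) x‖ ^ e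
          ≤ B * B ^ (e * Fintype.card (Pb pl s)) *
            ((Fintype.card (Pa pl s)).factorial * B ^ Fintype.card (Pa pl s)) ^ e := by
            refine mul_le_mul ?_ (pow_le_pow_left₀ (norm_nonneg _) (hfp x) _)
              (pow_nonneg (norm_nonneg _) _) (by positivity)
            exact mul_le_mul (hp _) (pow_le_pow_left₀ (norm_nonneg _) (hp _) _)
              (pow_nonneg (norm_nonneg _) _) hB
        _ ≤ _ := by
            rw [e2]
            exact mul_le_mul_of_nonneg_right (by linarith) hBD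
    · show ‖psi θ (ex0 pl w) (y i) * psi θ (ex0 pl w) (y none) ^ (e * Fintype.card (Pa pl s)) * fmB pl s k θ (ex0 pl w) x' ^ e‖ ≤ _
      rw [norm_mul, norm_mul, norm_pow, norm_pow]
      calc ‖psi θ (ex0 pl w) (y i)‖ * ‖psi θ (ex0 pl w) (y none)‖ ^ (e * Fintype.card (Pa pl s)) * ‖fmB pl s k θ (ex0 pl w) x'‖ ^ e
          ≤ B ^ (1 + e * Fintype.card (Pa pl s)) *
            ((Fintype.card (Pb pl s)).factorial * B ^ Fintype.card (Pb pl s)) ^ e := by
            refine mul_le_mul ?_ (pow_le_pow_left₀ (norm_nonneg _) (hfm x') _)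
              (pow_nonneg (norm_nonneg _) _) (by positivity)
            rw [pow_add, pow_one]
            exact mul_le_mul (hp _) (pow_le_pow_left₀ (norm_nonneg _) (hp _) _)
              (pow_nonneg (norm_nonneg _) _) hB
        _ ≤ _ := by
            rw [e1]
            exact mul_le_mul_of_nonneg_right (by linarith) hBD

end

/-- comparison of suprema -/
private theorem SieB_lub {X : Type} (f f' : X → ℂ) (s : X → X) (hs : Function.Surjective s)
    (a b : ℂ) (ha : a ≠ 0) (h : ∀ x, a * f' (s x) = b * f x) {M M' : ℝ}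
    (hM : IsLUB (Set.range fun x => ‖f x‖) M) (hM' : IsLUB (Set.range fun x => ‖f' x‖) M')
    (hb : b ≠ 0) : ‖a‖ * M' = ‖b‖ * M := by
  have ha' : 0 < ‖a‖ := norm_pos_iff.2 ha
  have hb' : 0 < ‖b‖ := norm_pos_iff.2 hb
  apply le_antisymm
  · rw [← le_div_iff₀' ha']
    apply hM'.2
    rintro _ ⟨t, rfl⟩
    obtain ⟨t, rfl⟩ := hs t
    show ‖f' (s t)‖ ≤ _
    rw [le_div_iff₀' ha', ← norm_mul, h, norm_mul]
    exact mul_le_mul_of_nonneg_left (hM.1 ⟨t, rfl⟩) hb'.le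
  · rw [← le_div_iff₀' hb']
    apply hM.2
    rintro _ ⟨t, rfl⟩
    show ‖f t‖ ≤ _
    rw [le_div_iff₀' hb', ← norm_mul, ← h, norm_mul]
    exact mul_le_mul_of_nonneg_left (hM'.1 ⟨s t, rfl⟩) ha'.le

/-- The module SieB. -/
theorem thm_SieB (h1 : St_GamS) (h2 : St_Sup) (h2' : St_SupB) (h3 : St_EllS) (h4 : St_OmBT)
    (h5 : St_UGr) (h6 : St_SieA) (h7 : St_BndB) (h8 : St_Grw) : St_SieB := by
  intro α β μ S _ _ _ _ _ _ _ _ pl s L χ θ e k y x x' hL hθ hne hcoc hy hx hx'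
  -- the common order
  obtain ⟨n, hn, hc⟩ := GAM.exists_common_order (L := L)
    (κ := (Option (Ga pl)) ⊕ (Pa pl s ⊕ Pb pl s))
    (Sum.elim y (Sum.elim x x')) (by
      rintro (o | i | j)
      · exact hy o
      · exact hx i
      · exact hx' j)
  have hn0 : n ≠ 0 := by
    rintro rfl
    simp at hn
  obtain ⟨K, C, hK, hKne, hKΩ, hcoc⟩ := hcoc (2 * n ^ 2) (by positivity)
  obtain ⟨⟨NP, hNP, hlubP⟩, -⟩ := h2 α β μ L χ θ hL hθ hne
  obtain ⟨NM, hNM, hlubM⟩ := h2' α β μ S pl L χ θ hL hθ hne s k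
  obtain ⟨hopen, hconv, -, hcomp, -, hex, -⟩ := h4 α β S pl
  obtain ⟨C₀, k₀, hC₀, hgr⟩ := h8 α β μ L χ θ hL hθ
  have hmaps : Set.MapsTo (ex0 pl : (Ga pl → ℂ) → α × β → ℂ) (OmB pl) (Om α β) :=
    fun w hw => hw
  obtain ⟨N, hN⟩ : ∃ N : (Ga pl → ℂ) → ℝ, N = fun w =>
      (1 + e * Fintype.card (Pa pl s) : ℕ) * NP (ex0 pl w) + (e : ℕ) * NM (ex0 pl w) := ⟨_, rfl⟩
  have hNc : ContinuousOn N (OmB pl) := by
    rw [hN]
    exact (continuousOn_const.mul (hNP.comp hex.continuousOn hmaps)).add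
      (continuousOn_const.mul (hNM.comp hex.continuousOn hmaps))
  have hNe : ∀ w : Ga pl → ℂ, Real.exp (N w) =
      Real.exp (NP (ex0 pl w)) ^ (1 + e * Fintype.card (Pa pl s)) *
        Real.exp (NM (ex0 pl w)) ^ e := by
    intro w
    rw [hN]
    show Real.exp ((1 + e * Fintype.card (Pa pl s) : ℕ) * NP (ex0 pl w) +
      (e : ℕ) * NM (ex0 pl w)) = _
    rw [Real.exp_add, Real.exp_nat_mul, Real.exp_nat_mul]
  obtain ⟨A, hA⟩ : ∃ A : ℝ, A =
    ((Fintype.card (Pa pl s)).factorial ^ e + (Fintype.card (Pb pl s)).factorial ^ e : ℝ) :=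
    ⟨_, rfl⟩
  obtain ⟨D, hD⟩ : ∃ D : ℕ, D = 1 + e * (Fintype.card (Pa pl s) + Fintype.card (Pb pl s)) :=
    ⟨_, rfl⟩
  obtain ⟨C₁, hC₁⟩ := h7 α β S (Option (Option (Ga pl))) pl K C (A * C₀ ^ D) (k₀ * D) N
    (fun i w => XFB pl s e k θ y x x' w i) hK hKΩ hNc
    (fun i => SieB_XF h3 pl s hL hθ e k y x x' i) (by
      intro ρ hρ hρ1 w hw
      have hwΩ : w ∈ OmB pl := (hcomp ρ hρ hρ1).2 hw
      have hwΩ' : ex0 pl w ∈ Om α β := hwΩ
      have hw' : ex0 pl w ∈ OmC α β ρ := hw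
      have hq : 0 < (1 - ρ) ^ k₀ := pow_pos (by linarith) _
      have hp' : ∀ t, ‖psi θ (ex0 pl w) t‖ ≤ C₀ / (1 - ρ) ^ k₀ := fun t => by
        rw [le_div_iff₀ hq]
        exact (hgr ρ hρ hρ1 _ hw' t).1
      have hd' : ∀ t p, ‖dpsi p θ (ex0 pl w) t‖ ≤ C₀ / (1 - ρ) ^ k₀ := fun t p => by
        rw [le_div_iff₀ hq]
        exact (hgr ρ hρ hρ1 _ hw' t).2 p
      have hG := SieB_grow pl s (θ := θ) (w := w) (div_nonneg hC₀.le hq.le) hp' hd' e k y x x'
        (hlubP _ hwΩ') (hlubM _ hwΩ') (Real.exp_pos _).le (Real.exp_pos _).le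
      rw [← hA, ← hD, div_pow, ← pow_mul, ← mul_div_assoc] at hG
      have hq' : 0 < (1 - ρ) ^ (k₀ * D) := pow_pos (by linarith) _
      refine ⟨?_, fun o => ?_⟩
      · rw [hNe, ← le_div_iff₀ hq']
        exact hG.1
      · rw [← le_div_iff₀ hq']
        exact hG.2 o) (by
      intro p hp
      obtain ⟨U, hU, hz⟩ := hcoc p hp
      refine ⟨U, hU, fun w hw => ?_⟩
      obtain ⟨z, hz1, hz2, hz3, hz4, hz5⟩ := hz w hw
      refine ⟨z, hz1, hz2, hz3, hz4, fun t => ?_⟩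
      obtain ⟨g, hg, hgK⟩ := hz5 t
      have hzt : z t ∈ OmB pl := by
        obtain ⟨ρ, hρ, hρ1, hzρ, -⟩ := hz4 t (by simp)
        exact (hcomp ρ hρ hρ1).2 hzρ
      have hzt' : ex0 pl (z t) ∈ Om α β := hzt
      have hgK' : ex0 pl (mobB pl g (z t)) ∈ Om α β := hKΩ hgK
      obtain ⟨j, mm, hj0, hm0, hj1, hj2, hj3⟩ := h1 α β μ S pl s g L χ θ n e k y x x' hL hθ hne
        (fun i => hc (Sum.inl i)) (fun i => hc (Sum.inr (Sum.inl i)))
        (fun i => hc (Sum.inr (Sum.inr i))) hn0 hg (z t) hzt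
      have hsurj : Function.Surjective (fun t : Ix α β μ → ℂ => act g t) :=
        fun t => SieB_surj h5 hg.uni t
      have hsurjβ : Function.Surjective
          (fun (t : Pb pl s → Ix α β μ → ℂ) (b : Pb pl s) => act g (t b)) := by
        intro t
        choose t' ht' using fun b => SieB_surj h5 hg.uni (t b)
        exact ⟨t', funext ht'⟩
      refine ⟨mobB pl g (z t), hgK,
        mm ^ e * (j ^ (1 + e * (Fintype.card (Pa pl s) + Fintype.card (Pb pl s))))⁻¹, ?_, ?_⟩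
      · have h7 := SieB_lub (fun s => psi θ (ex0 pl (z t)) s)
          (fun s => psi θ (ex0 pl (mobB pl g (z t))) s) _ hsurj 1 j
          one_ne_zero (fun s => by rw [one_mul]; exact hj1 s) (hlubP _ hzt')
          (hlubP _ hgK') hj0
        have h8 := SieB_lub (fun u => fmB pl s k θ (ex0 pl (z t)) u)
          (fun u => fmB pl s k θ (ex0 pl (mobB pl g (z t))) u) _ hsurjβ
          mm (j ^ Fintype.card (Pb pl s)) hm0 hj2 (hlubM _ hzt') (hlubM _ hgK')
          (pow_ne_zero _ hj0)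
        rw [norm_one, one_mul] at h7
        rw [norm_pow] at h8
        have hjn : 0 < ‖j‖ := norm_pos_iff.2 hj0
        have hmn : 0 < ‖mm‖ := norm_pos_iff.2 hm0
        rw [hNe, hNe, h7]
        have h9 : Real.exp (NM (ex0 pl (mobB pl g (z t)))) =
            ‖j‖ ^ Fintype.card (Pb pl s) * Real.exp (NM (ex0 pl (z t))) / ‖mm‖ := by
          rw [eq_div_iff hmn.ne', mul_comm, h8]
        rw [h9, norm_mul, norm_inv, norm_pow, norm_pow, mul_pow, div_pow, mul_pow, ← pow_mul]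
        have e1 : 1 + e * (Fintype.card (Pa pl s) + Fintype.card (Pb pl s)) =
            (1 + e * Fintype.card (Pa pl s)) + Fintype.card (Pb pl s) * e := by ring
        rw [e1, pow_add ‖j‖]
        field_simp
      · intro i
        have h7 := hj3 i
        have hj' : j ^ (1 + e * (Fintype.card (Pa pl s) + Fintype.card (Pb pl s))) ≠ 0 :=
          pow_ne_zero _ hj0
        show XFB pl s e k θ y x x' (z t) i = _ * XFB pl s e k θ y x x' (mobB pl g (z t)) i
        rw [mul_right_comm, h7]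
        field_simp)
  exact h6 (Ga pl) (Option (Option (Ga pl))) (by simp) (OmB pl) K C₁
    (fun i w => XFB pl s e k θ y x x' w i) hopen hconv hK hKne hKΩ
    (fun i => SieB_XF h3 pl s hL hθ e k y x x' i) hC₁

end WPP
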