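import Pool.Agent.WPP.StC

/-!
# WPP / SupB: the suprema of `|fmB|` are continuous in `w`
-/

set_option autoImplicit false
set_option linter.unusedVariables false

namespace WPP

open scoped ComplexConjugate
open GAM (H E F pd pdl PLat IsTh OddTor IsDel Gro IsLat)
open PST DWC

/-- the general statement: the supremum over a compact set of representatives -/
private theorem SupB_gen {W V : Type} [TopologicalSpace W] [TopologicalSpace V] (D : Set W)
    (f : W → V → ℂ) (K : Set V) (hKc : IsCompact K) (hKne : K.Nonempty)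
    (hrep : ∀ z x, ∃ q ∈ K, ‖f z x‖ = ‖f z q‖)
    (hJ : ContinuousOn (fun p : W × V => f p.1 p.2) (D ×ˢ Set.univ))
    (hne : ∀ z ∈ D, ∃ x, f z x ≠ 0) :
    ∃ N : W → ℝ, ContinuousOn N D ∧
      ∀ z ∈ D, IsLUB (Set.range fun x => ‖f z x‖) (Real.exp (N z)) := by
  set M : W → ℝ := fun z => sSup ((fun x => ‖f z x‖) '' K) with hM
  have hMc : ContinuousOn M D := by
    rw [continuousOn_iff_continuous_domRestrict]
    have hf : Continuous (Function.uncurry fun (z : D) (x : V) => ‖f z x‖) := by
      apply Continuous.norm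
      have : Continuous ((fun p : W × V => f p.1 p.2) ∘
            (fun q : D × V => ((q.1 : W), q.2))) := by
        apply hJ.comp_continuous
        · exact (continuous_subtype_val.comp continuous_fst).prodMk continuous_snd
        · intro q
          exact ⟨q.1.2, Set.mem_univ _⟩
      exact this
    exact hKc.continuous_sSup hf
  have hcx : ∀ z ∈ D, Continuous fun x => ‖f z x‖ := by
    intro z hz
    apply Continuous.norm
    have : Continuous ((fun p : W × V => f p.1 p.2) ∘ (fun x : V => (z, x))) := by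
      apply hJ.comp_continuous
      · exact continuous_const.prodMk continuous_id
      · intro q
        exact ⟨hz, Set.mem_univ _⟩
    exact this
  have hbdd : ∀ z ∈ D, BddAbove ((fun x => ‖f z x‖) '' K) := by
    intro z hz
    exact (hKc.image (hcx z hz)).bddAbove
  have hlub : ∀ z ∈ D, IsLUB (Set.range fun x => ‖f z x‖) (M z) := by
    intro z hz
    constructor
    · rintro _ ⟨x, rfl⟩
      obtain ⟨q, hq, hxq⟩ := hrep z x
      simp only
      rw [hxq]
      exact le_csSup (hbdd z hz) ⟨q, hq, rfl⟩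
    · intro B hB
      apply csSup_le (hKne.image _)
      rintro _ ⟨x, _, rfl⟩
      exact hB ⟨x, rfl⟩
  have hpos : ∀ z ∈ D, 0 < M z := by
    intro z hz
    obtain ⟨x, hx⟩ := hne z hz
    exact (norm_pos_iff.mpr hx).trans_le ((hlub z hz).1 ⟨x, rfl⟩)
  refine ⟨fun z => Real.log (M z), ?_, ?_⟩
  · exact hMc.log (fun z hz => (hpos z hz).ne')
  · intro z hz
    rw [Real.exp_log (hpos z hz)]
    exact hlub z hz

theorem thm_SupB (h1 : St_PsiJ) (h2 : St_PsiL) (h4 : St_NonB) : St_SupB := by
  intro α β μ S _ _ _ _ _ _ _ pl L χ θ hL hθ hne s k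
  obtain ⟨b, hb⟩ := hL.basis
  set K : Set (Ix α β μ → ℂ) := closure (ZSpan.fundamentalDomain b) with hK
  have hKc : IsCompact K := (ZSpan.fundamentalDomain_isBounded b).isCompact_closure
  have hKne : K.Nonempty :=
    ⟨ZSpan.fract b 0, subset_closure (ZSpan.fract_mem_fundamentalDomain b 0)⟩
  -- the multiplier
  have hmul : ∀ l ∈ L, ∀ x : Ix α β μ → ℂ,
      ‖χ l * Complex.exp (Real.pi * Complex.I * E x l)‖ = 1 := by
    intro l hl x
    rw [norm_mul]
    have e1 : ‖χ l‖ = 1 := by
      rcases hL.pm l hl with h | h <;> rw [h] <;> simp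
    have e2 : ‖Complex.exp (Real.pi * Complex.I * E x l)‖ = 1 := by
      rw [Complex.norm_exp]
      simp
    rw [e1, e2, one_mul]
  have hfl : ∀ x : Ix α β μ → ℂ, ∃ l ∈ L, ∃ q ∈ K, x = q + l := by
    intro x
    refine ⟨((ZSpan.floor b x : Submodule.span ℤ (Set.range b)) : Ix α β μ → ℂ), ?_,
      ZSpan.fract b x, subset_closure (ZSpan.fract_mem_fundamentalDomain b x), ?_⟩
    · rw [hb]
      exact (ZSpan.floor b x).2
    · rw [ZSpan.fract_apply]
      abel
  have hQ := h2 α β μ L χ θ hL hθ
  obtain ⟨hJ, hJd⟩ := h1 α β μ L χ θ hL hθ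
  refine SupB_gen (Om α β) (fun w x => fmB pl s k θ w x) (Set.univ.pi fun _ : Pb pl s => K)
    (isCompact_univ_pi fun _ => hKc) (Set.univ_pi_nonempty_iff.2 fun _ => hKne) ?_ ?_
    fun w hw => h4 α β μ S pl L χ θ hL hθ hne w hw s k
  · intro w x
    choose l hl q hq hx using hfl
    refine ⟨fun i => q (x i), fun i _ => hq (x i), ?_⟩
    have e1 : fmB pl s k θ w x = (∏ i, (χ (l (x i)) *
        Complex.exp (Real.pi * Complex.I * E (q (x i)) (l (x i))))) *
          fmB pl s k θ w (fun i => q (x i)) := by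
      unfold fmB
      rw [← Matrix.det_mul_row]
      congr 1
      ext i j
      simp only [Matrix.of_apply]
      rw [← (hQ w (l (x j)) (hl (x j)) (q (x j))).2, ← hx (x j)]
    rw [e1, norm_mul, norm_prod, Finset.prod_eq_one fun i _ => hmul _ (hl (x i)) _, one_mul]
  · have hM : ∀ j i : Pb pl s, ContinuousOn
        (fun p : (α × β → ℂ) × (Pb pl s → Ix α β μ → ℂ) =>
        dpsi (Sum.inr j.1, k) θ p.1 (p.2 i)) (Om α β ×ˢ Set.univ) := by
      intro j i
      have h6 := hJd (Sum.inr j.1, k)
      have h7 : ContinuousOn (fun p : (α × β → ℂ) × (Pb pl s → Ix α β μ → ℂ) => (p.1, p.2 i))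
          (Om α β ×ˢ Set.univ) := by
        apply Continuous.continuousOn
        exact continuous_fst.prodMk ((continuous_apply i).comp continuous_snd)
      have h8 : ContinuousOn ((fun p : (α × β → ℂ) × (Ix α β μ → ℂ) =>
          dpsi (Sum.inr j.1, k) θ p.1 p.2) ∘
          fun p : (α × β → ℂ) × (Pb pl s → Ix α β μ → ℂ) => (p.1, p.2 i))
          (Om α β ×ˢ Set.univ) :=
        ContinuousOn.comp h6 h7 fun p hp => ⟨hp.1, Set.mem_univ _⟩
      exact h8
    have e2 : (fun p : (α × β → ℂ) × (Pb pl s → Ix α β μ → ℂ) => fmB pl s k θ p.1 p.2) =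
        fun p => ∑ σ : Equiv.Perm (Pb pl s), ((Equiv.Perm.sign σ : ℤ) : ℂ) *
          ∏ i, dpsi (Sum.inr (σ i).1, k) θ p.1 (p.2 i) := by
      funext p
      unfold fmB
      rw [Matrix.det_apply']
      rfl
    rw [e2]
    refine continuousOn_finsetSum _ fun σ _ => continuousOn_const.mul
      (continuousOn_finsetProd _ fun i _ => hM (σ i) i)

end WPP
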