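import Pool.Agent.WPP.StC

/-!
# WPP, module GrB: block diagonal matrices
-/

set_option autoImplicit false
set_option linter.unusedVariables false

namespace WPP

open scoped ComplexConjugate
open PST DWC

section

variable {α β S : Type} [Fintype α] [Fintype β] [Fintype S] [DecidableEq α]
  [DecidableEq β] [DecidableEq S] {pl : α ⊕ β → S}

private theorem GrB_mul {g h : Matrix (α ⊕ β) (α ⊕ β) ℂ} (hg : IsB pl g) (hh : IsB pl h) :
    IsB pl (g * h) := by
  intro p q hpq
  rw [Matrix.mul_apply]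
  refine Finset.sum_eq_zero fun r _ => ?_
  by_cases h1 : pl p = pl r
  · rw [hh r q (fun h2 => hpq (h1.trans h2)), mul_zero]
  · rw [hg p r h1, zero_mul]

private theorem GrB_bk_mul {g h : Matrix (α ⊕ β) (α ⊕ β) ℂ} (hg : IsB pl g) (s : S) :
    bk pl s (g * h) = bk pl s g * bk pl s h := by
  ext p q
  rw [Matrix.mul_apply]
  show (g * h) p.1 q.1 = ∑ r : {p : α ⊕ β // pl p = s}, g p.1 r.1 * h r.1 q.1
  rw [Matrix.mul_apply, ← Finset.sum_subtype (Finset.univ.filter fun r => pl r = s)
    (fun r => by simp) (fun r => g p.1 r * h r q.1)]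
  symm
  refine Finset.sum_subset (Finset.filter_subset _ _) fun r _ hr => ?_
  have h1 : pl r ≠ s := by simpa using hr
  rw [hg p.1 r (fun h2 => h1 (h2.symm.trans p.2)), zero_mul]

private theorem GrB_dt_mul {g h : Matrix (α ⊕ β) (α ⊕ β) ℂ} (hg : IsB pl g) (s : S) :
    dt pl s (g * h) = dt pl s g * dt pl s h := by
  unfold dt
  rw [GrB_bk_mul hg s, Matrix.det_mul]

private theorem GrB_one : IsB pl (1 : Matrix (α ⊕ β) (α ⊕ β) ℂ) :=
  fun p q hpq => Matrix.one_apply_ne (fun h => hpq (congrArg pl h))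

private theorem GrB_dt_one (s : S) : dt pl s (1 : Matrix (α ⊕ β) (α ⊕ β) ℂ) = 1 := by
  unfold dt bk
  rw [Matrix.submatrix_one _ Subtype.val_injective, Matrix.det_one]

private theorem GrB_ct {g : Matrix (α ⊕ β) (α ⊕ β) ℂ} (hg : IsB pl g) :
    IsB pl g.conjTranspose := by
  intro p q hpq
  rw [Matrix.conjTranspose_apply, hg q p (Ne.symm hpq), star_zero]

private theorem GrB_J : IsB pl (Jm α β) := by
  intro p q hpq
  have hne : p ≠ q := fun h => hpq (congrArg pl h)
  unfold Jm
  rcases p with i | i <;> rcases q with j | j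
  · rw [Matrix.fromBlocks_apply₁₁]
    exact Matrix.one_apply_ne (fun h => hne (by rw [h]))
  · rw [Matrix.fromBlocks_apply₁₂]
    rfl
  · rw [Matrix.fromBlocks_apply₂₁]
    rfl
  · rw [Matrix.fromBlocks_apply₂₂, Matrix.neg_apply, Matrix.one_apply_ne (fun h => hne (by rw [h])),
      neg_zero]

private theorem GrB_JJ : Jm α β * Jm α β = 1 := by
  unfold Jm
  rw [Matrix.fromBlocks_multiply]
  simp

private theorem GrB_dt_ct (g : Matrix (α ⊕ β) (α ⊕ β) ℂ) (s : S) :
    dt pl s g.conjTranspose = conj (dt pl s g) := by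
  unfold dt
  have h : bk pl s g.conjTranspose = (bk pl s g).conjTranspose := rfl
  rw [h, Matrix.det_conjTranspose]
  rfl

end

/-- **GrB** -/
theorem thm_GrB : St_GrB := by
  intro α β S _ _ _ _ _ _ pl
  refine ⟨fun g h hg hh => ⟨GrB_mul hg hh, fun s => GrB_dt_mul hg s⟩, GrB_one, GrB_dt_one,
    fun g hg => GrB_mul (GrB_mul GrB_J (GrB_ct hg)) GrB_J, fun g hg hU s => ?_, fun g hg => ?_⟩
  · have h1 : dt pl s (g.conjTranspose * Jm α β * g) = dt pl s (Jm α β) := by
      have hU' : g.conjTranspose * Jm α β * g = Jm α β := hU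
      rw [hU']
    rw [GrB_dt_mul (GrB_mul (GrB_ct hg) GrB_J), GrB_dt_mul (GrB_ct hg), GrB_dt_ct] at h1
    have h2 : dt pl s (Jm α β) * dt pl s (Jm α β) = 1 := by
      rw [← GrB_dt_mul GrB_J, GrB_JJ, GrB_dt_one]
    have h3 : dt pl s (Jm α β) ≠ 0 := by
      intro h
      rw [h, zero_mul] at h2
      exact zero_ne_one h2
    have h4 : conj (dt pl s g) * dt pl s g = 1 := by
      apply mul_right_cancel₀ h3
      rw [one_mul]
      linear_combination h1
    rw [← Complex.normSq_eq_conj_mul_self] at h4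
    have h5 : Complex.normSq (dt pl s g) = 1 := by exact_mod_cast h4
    rw [Complex.normSq_eq_norm_sq] at h5
    exact (pow_eq_one_iff_of_nonneg (norm_nonneg _) two_ne_zero).1 h5
  · letI : LinearOrder S := LinearOrder.lift' (Fintype.equivFin S) (Fintype.equivFin S).injective
    have hb : Matrix.BlockTriangular g pl := fun p q hpq => hg p q (ne_of_gt hpq)
    exact hb.det_fintype

end WPP
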