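import Pool.Agent.WPP.Defs
import Pool.Agent.GAM.StC
import Pool.Agent.Helper7.AFT.Defs

/-!
# WPP: frozen statements, abelian varieties with multiplication by a CM field

Architect helper99. Every `def St_X : Prop` is a module; its docstring is the proof. Prove it in a
file `Pool/Agent/WPP/X.lean` as `theorem thm_X : St_X` (namespace `WPP`); other statements of the
campaign which are used are hypotheses of the theorem. Most modules are ports of landed files of
`Pool/Agent/DWC` (there `K` is imaginary quadratic, `√-d` for the elements of `K`). Statements of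
`PST`, `DWC`, `GAM` are used as `PST.All.X_`, `DWC.All.X_`, `GAM.All.X_`.

Two systems of coordinates on `ℂ^(α ⊕ β)`: `x` and `X = sw x` (conjugate at the indices of the
second kind). The field acts on the coordinate `X_p` by `φ (pl p)`.
-/

set_option autoImplicit false
set_option linter.unusedVariables false

namespace WPP

open scoped ComplexConjugate
open GAM (H E F pd pdl PLat IsTh OddTor IsDel Gro IsLat HasExp CMF CMT IsExp IsCM)
open Pool.Agent.GPC (AbVar hermForm bilForm)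
open Module
open PST DWC

section defs

variable {α β S : Type} [Fintype α] [Fintype β] [DecidableEq α] [DecidableEq β] [DecidableEq S]

/-- The action of an element of the field with the conjugates `th s` on the coordinates `x`. -/
noncomputable def rgB (pl : α ⊕ β → S) (th : S → ℂ) : Matrix (Ix α β Unit) (Ix α β Unit) ℂ :=
  Matrix.diagonal fun p => Sum.elim (fun i => th (pl (Sum.inl i)))
    (fun j => conj (th (pl (Sum.inr j)))) p.1

/-- The point of `ℂ^(α ⊕ β)` with the coordinates `X_p = r_p φ_(pl p) (a_(e p))`. -/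
noncomputable def vc {K : Type} [Field K] (pl : α ⊕ β → S) (φ : S → K →+* ℂ) {n : ℕ}
    (e : α ⊕ β ≃ Fin n × S) (r : α ⊕ β → ℝ) (a : Fin n → K) : Ix α β Unit → ℂ :=
  sw fun p => (r p.1 : ℂ) * φ (pl p.1) (a (e p.1).1)

/-- The CM type of the `j`-th line. -/
noncomputable def Ty {K : Type} [Field K] (c : K →+* K) (φ : S → K →+* ℂ) {n : ℕ}
    (e : α ⊕ β ≃ Fin n × S) (j : Fin n) (s : S) : K →+* ℂ :=
  Sum.elim (fun _ => φ s) (fun _ => (φ s).comp c) (e.symm (j, s))

end defs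

/-- `K` acts on `X` (up to isogeny), the Rosati involution is complex conjugation on `K`. -/
structure IsKr (X : AbVar) (K : Type) [Field K] [NumberField K] (c : K →+* K)
    (ρ : K →+* Module.End ℂ X.H1) : Prop where
  endo : ∀ x, X.IsEnd (ρ x)
  adj : ∀ x u v, X.pol (ρ x u) v = X.pol u (ρ (c x) v)

/-- The analytic representation. -/
structure LKr (g : ℕ) (K : Type) [Field K] [NumberField K] (c : K →+* K)
    (Hm : Matrix (Fin g) (Fin g) ℂ) (W : Submodule ℚ (Fin g → ℂ))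
    (R : K →+* Matrix (Fin g) (Fin g) ℂ) : Prop where
  herm : Hm.IsHermitian
  pd : ∀ z, z ≠ 0 → 0 < (hermForm Hm z z).re
  alg : ∀ x i j, IsAlgebraic ℚ (R x i j)
  adj : ∀ x z w, hermForm Hm ((R x).mulVec z) w = hermForm Hm z ((R (c x)).mulVec w)
  stab : ∀ x, ∀ w ∈ W, (R x).mulVec w ∈ W
  basis : ∃ b : Basis (Fin g ⊕ Fin g) ℚ W, LinearIndependent ℝ fun i => (b i : Fin g → ℂ)
  rat : ∀ w ∈ W, ∀ w' ∈ W, ∃ q : ℚ, (hermForm Hm w w').im = q

/-- [AnB] the analytic representation. PROOF. As `Pool/Agent/DWC/AnK.lean` for every `x : K`; the map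
`x ↦ R x` is a ring homomorphism because `R x` is determined by `X.zz (ρ x v) = (R x) (X.zz v)` and
`X.zz` is onto. -/
def St_AnB : Prop := ∀ (X : AbVar) (K : Type) [Field K] [NumberField K] (c : K →+* K)
  (ρ : K →+* Module.End ℂ X.H1), IsKr X K c ρ →
  ∃ (W : Submodule ℚ (Fin X.g → ℂ)) (R : K →+* Matrix (Fin X.g) (Fin X.g) ℂ),
    LKr X.g K c X.H W R ∧ (∀ z, z ∈ W ↔ ∃ n : ℕ, n ≠ 0 ∧ (n : ℤ) • z ∈ X.Λ) ∧
    ∀ x v, X.zz (ρ x v) = (R x).mulVec (X.zz v)

/-- Coordinates adapted to the eigenspaces of `K`. -/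
structure CrB {g : ℕ} (K : Type) [Field K] [NumberField K] {S : Type} [DecidableEq S]
    (φ : S → K →+* ℂ) (Hm : Matrix (Fin g) (Fin g) ℂ) (R : K →+* Matrix (Fin g) (Fin g) ℂ)
    (α β : Type) [Fintype α] [Fintype β] [DecidableEq α] [DecidableEq β] (pl : α ⊕ β → S)
    (T : Matrix (Ix α β Unit) (Fin g) ℂ) (U : Matrix (Fin g) (Ix α β Unit) ℂ)
    (Tp : Matrix α α ℂ) (Tm : Matrix β β ℂ) (Ta : Matrix (Ix α β Unit) (Fin g) ℂ) : Prop where
  ts : T * U = 1
  st : U * T = 1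
  herm : ∀ z w, hermForm Hm z w = H (T.mulVec z) (T.mulVec w)
  dp : Tp.det ≠ 0
  dm : Tm.det ≠ 0
  bp : ∀ i i', pl (Sum.inl i) ≠ pl (Sum.inl i') → Tp i i' = 0
  bm : ∀ j j', pl (Sum.inr j) ≠ pl (Sum.inr j') → Tm j j' = 0
  fac : T = blk Unit Tp Tm * Ta
  alg : ∀ q a, IsAlgebraic ℚ (Ta q a)
  jj : ∀ x z, T.mulVec ((R x).mulVec z) = (rgB pl fun s => φ s x).mulVec (T.mulVec z)

/-- [BasB] adapted coordinates. PROOF. As `Pool/Agent/DWC/BasK.lean`. The commuting matrices `R x` are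
diagonalisable (`K` is generated by `t` whose minimal polynomial is separable); the eigenvalue
characters are embeddings `σ` of `K`, and for the Hermitian form eigenspaces of different `σ` are
orthogonal (`hermForm (R x z) w = hermForm z (R (c x) w)`, `conj (σ (c x)) = σ x`). The eigenspaces are
defined over the algebraic numbers (the entries of `R t` and `φ s t` are algebraic): take a basis over
the algebraic numbers of every eigenspace of the transposed matrices (rows `v` with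
`v * R x = σ x • v`): these are the rows of `Ta`; the indices of the rows for `σ = φ s` form the part of
`α` at the place `s`, those for `σ = φ s ∘ c` the part of `β` at the place `s` (`CMT`: every `σ` is one of
these). Gram-Schmidt in every eigenspace: block diagonal `Tp`, `Tm` with `herm`. -/
def St_BasB : Prop := ∀ (g : ℕ) (K : Type) [Field K] [NumberField K] (c : K →+* K) (S : Type)
  [Fintype S] [DecidableEq S] (φ : S → K →+* ℂ) (t : K) (Hm : Matrix (Fin g) (Fin g) ℂ)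
  (W : Submodule ℚ (Fin g → ℂ)) (R : K →+* Matrix (Fin g) (Fin g) ℂ), GenK S K c φ t →
  LKr g K c Hm W R →
  ∃ (α β : Type) (_ : Fintype α) (_ : Fintype β) (_ : DecidableEq α) (_ : DecidableEq β)
    (pl : α ⊕ β → S) (T : Matrix (Ix α β Unit) (Fin g) ℂ) (U : Matrix (Fin g) (Ix α β Unit) ℂ)
    (Tp : Matrix α α ℂ) (Tm : Matrix β β ℂ) (Ta : Matrix (Ix α β Unit) (Fin g) ℂ),
    CrB K φ Hm R α β pl T U Tp Tm Ta

/-- [OrtB] orthogonal bases of Hermitian spaces over a CM field. PROOF (compare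
`Pool/Agent/DWC/OrtK.lean`). `W ⊆ ℂ^(α ⊕ β)` (coordinates `X`) is a `K`-space, `x • w = diag (φ (pl p) x) w`.
`E(w, w') = (star w' ⬝ᵥ Jm w).im` is rational on `W`, alternating, `E(x w, w') = E(w, (c x) w')`. The
functional `x ↦ E(x w, w')` on `K` is `x ↦ Tr (x h(w, w'))` with `h : W × W → K` `K`-linear in `w`,
`h(w', w) = - c (h(w, w'))`, nondegenerate (`E` is nondegenerate on `ℂ^(α ⊕ β)`, which is spanned over `ℝ`
by `W`). Choose an orthogonal `K`-basis `w_1, …, w_n` of `W` for `h` (a skew Hermitian form: there is `w`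
with `h(w, w) ≠ 0` unless `h = 0`, because `c ≠ id`; induction on the orthogonal complement). For
`x : K` the real number `(star (x w_i)) Jm w_j` etc.: for a place `s` let `h_s(w, w') = ∑ (p at s)
conj(w'_p) Jm_pp w_p`; then `E(x w, w') = ∑_s Im (φ_s(x) h_s(w, w'))` for all `x : K`, hence (`Tr y =
∑_s 2 Re φ_s(y)`) `h_s(w, w') = 2 i φ_s(h(w, w'))`. So the vectors `(w_1)_s, …, (w_n)_s` are orthogonal for
`h_s`, `h_s(w_j, w_j) = 2 i φ_s(η_j)` is real, not zero, algebraic; they are a basis of the coordinate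
space at `s` (they span it over `ℂ` because `W` spans everything over `ℝ`; so the number of indices at
`s` is `n` for every `s`). By Sylvester the number of `j` with `2 i φ_s(η_j) > 0` is the number of indices
of the first kind at `s`. Choose a bijection `e` such that `e p = (j, pl p)` with `p` of the first kind
iff `2 i φ_(pl p)(η_j) > 0`; `r_p = √|2 i φ_(pl p)(η_j)|`, and the column `p` of `g` is
`r_p⁻¹ (w_j)_(pl p)` (zero outside of the block). `IsU g`: the columns are orthonormal for `Jm`. -/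
def St_OrtB : Prop := ∀ (α β : Type) [Fintype α] [Fintype β] [DecidableEq α] [DecidableEq β]
  (K : Type) [Field K] [NumberField K] (c : K →+* K) (S : Type) [Fintype S] [DecidableEq S]
  (φ : S → K →+* ℂ) (t : K) (pl : α ⊕ β → S) (W : Submodule ℚ (α ⊕ β → ℂ)), GenK S K c φ t →
  (∀ x, ∀ w ∈ W, (fun p => φ (pl p) x * w p) ∈ W) →
  (∃ b : Basis ((α ⊕ β) ⊕ (α ⊕ β)) ℚ W, LinearIndependent ℝ fun i => (b i : α ⊕ β → ℂ)) →
  (∀ w ∈ W, ∀ w' ∈ W, ∃ q : ℚ, (star w' ⬝ᵥ (Jm α β).mulVec w).im = q) →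
  ∃ (g : Matrix (α ⊕ β) (α ⊕ β) ℂ) (n : ℕ) (e : α ⊕ β ≃ Fin n × S) (r : α ⊕ β → ℝ), IsU g ∧
    IsB pl g ∧ (∀ p, (e p).2 = pl p) ∧ (∀ p, 0 < r p) ∧ (∀ p, IsAlgebraic ℚ (r p : ℂ)) ∧
    ∀ w, w ∈ W ↔ ∃ a : Fin n → K,
      w = g.mulVec fun p => (r p : ℂ) * φ (pl p) (a (e p).1)

/-- Normal form. -/
structure NFB (X : AbVar) (K : Type) [Field K] [NumberField K] {S : Type} [DecidableEq S]
    (φ : S → K →+* ℂ) (ρ : K →+* Module.End ℂ X.H1) (α β : Type) [Fintype α] [Fintype β]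
    [DecidableEq α] [DecidableEq β] (pl : α ⊕ β → S) (T : Matrix (Ix α β Unit) (Fin X.g) ℂ)
    (U : Matrix (Fin X.g) (Ix α β Unit) ℂ) (Tp : Matrix α α ℂ) (Tm : Matrix β β ℂ)
    (Ta : Matrix (Ix α β Unit) (Fin X.g) ℂ) (g : Matrix (α ⊕ β) (α ⊕ β) ℂ) (n : ℕ)
    (e : α ⊕ β ≃ Fin n × S) (r : α ⊕ β → ℝ) : Prop where
  ts : T * U = 1
  st : U * T = 1
  herm : ∀ z w, hermForm X.H z w = H (T.mulVec z) (T.mulVec w)
  dp : Tp.det ≠ 0
  dm : Tm.det ≠ 0
  bp : ∀ i i', pl (Sum.inl i) ≠ pl (Sum.inl i') → Tp i i' = 0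
  bm : ∀ j j', pl (Sum.inr j) ≠ pl (Sum.inr j') → Tm j j' = 0
  fac : T = blk Unit Tp Tm * Ta
  alg : ∀ q a, IsAlgebraic ℚ (Ta q a)
  jj : ∀ x v, T.mulVec (X.zz (ρ x v)) =
    (rgB pl fun s => φ s x).mulVec (T.mulVec (X.zz v))
  uni : IsU g
  blk : IsB pl g
  det : ∀ s, dt pl s g = 1
  ep : ∀ p, (e p).2 = pl p
  rpos : ∀ p, 0 < r p
  ralg : ∀ p, IsAlgebraic ℚ (r p : ℂ)
  lat : ∀ z, (∃ m : ℕ, m ≠ 0 ∧ (m : ℤ) • z ∈ X.Λ) ↔ ∃ a : Fin n → K,
    T.mulVec z = act g (vc pl φ e r a)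

/-- [NFX] the normal form exists. PROOF (from `St_AnB`, `St_BasB`, `St_OrtB`). As
`Pool/Agent/DWC/NFK.lean`. `W' =` the image of `W` in the coordinates `X` (`sw (T z)`), `g₀` from `St_OrtB`.
The determinants: `‖dt pl s g₀‖ = 1` (`St_GrB`); let `u` be the diagonal matrix which for every place `s` at
which there is an index has the entry `(dt pl s g₀)⁻¹` at one index `p_s` at `s` and `1` at all others
(at a place without indices `dt = 1`), `g = u g₀`, and replace `T` by its product with the corresponding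
diagonal matrix (conjugate at the indices of the second kind), `Tp`, `Tm`, `U` accordingly. -/
def St_NFX : Prop := ∀ (X : AbVar) (K : Type) [Field K] [NumberField K] (c : K →+* K) (S : Type)
  [Fintype S] [DecidableEq S] (φ : S → K →+* ℂ) (t : K) (ρ : K →+* Module.End ℂ X.H1),
  GenK S K c φ t → IsKr X K c ρ →
  ∃ (α β : Type) (_ : Fintype α) (_ : Fintype β) (_ : DecidableEq α) (_ : DecidableEq β)
    (pl : α ⊕ β → S) (T : Matrix (Ix α β Unit) (Fin X.g) ℂ)
    (U : Matrix (Fin X.g) (Ix α β Unit) ℂ) (Tp : Matrix α α ℂ) (Tm : Matrix β β ℂ)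
    (Ta : Matrix (Ix α β Unit) (Fin X.g) ℂ) (g : Matrix (α ⊕ β) (α ⊕ β) ℂ) (n : ℕ)
    (e : α ⊕ β ≃ Fin n × S) (r : α ⊕ β → ℝ), NFB X K φ ρ α β pl T U Tp Tm Ta g n e r

/-- [HatB] the operator in the normal form. PROOF (from `PST.St_HatA`, `PST.St_QRel`). As
`Pool/Agent/DWC/HatK.lean`. `PST.St_HatA` gives `HasGop δ L θ k (T * U.map δ) C` with `C` symmetric; from
`fac` `T * U.map δ = blk Unit (Tp * Tp⁻¹.map δ) (Tm * Tm⁻¹.map δ)` (`δ` kills the entries of `Ta` and of its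
inverse). `Tp⁻¹` is block diagonal, so both blocks are. By `PST.St_QRel` for `f = ρ x`, `f' = ρ (c x)`:
`C * rgB(x) = (rgB(c x))ᵀ * C`, so `C_pq ≠ 0` implies that the eigenvalue of `rgB(x)` at `q` is that of
`rgB(c x)` at `p`, for all `x`: for `p = inl i`, `q = inl i'` this is `φ_s'(x) = conj (φ_s(x))` for all `x`,
impossible (`CMT`), the same for two indices of the second kind; for `p = inl i`, `q = inr j` it is
`conj φ_s'(x) = conj φ_s(x)`: the same place. So `gop k (blk Unit Bp Bm) C = hop k Bp Bm c` with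
`c i j = 2 C_(i,j)` or so (see `Pool/Agent/PST/HatC.lean` for the constant), block diagonal. -/
def St_HatB : Prop := ∀ (X : AbVar) (K : Type) [Field K] [NumberField K] (c : K →+* K) (S : Type)
  [Fintype S] [DecidableEq S] (φ : S → K →+* ℂ) (t : K) (ρ : K →+* Module.End ℂ X.H1)
  (α β : Type) [Fintype α] [Fintype β] [DecidableEq α] [DecidableEq β] (pl : α ⊕ β → S)
  (T : Matrix (Ix α β Unit) (Fin X.g) ℂ) (U : Matrix (Fin X.g) (Ix α β Unit) ℂ)
  (Tp : Matrix α α ℂ) (Tm : Matrix β β ℂ) (Ta : Matrix (Ix α β Unit) (Fin X.g) ℂ)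
  (g : Matrix (α ⊕ β) (α ⊕ β) ℂ) (n : ℕ) (e : α ⊕ β ≃ Fin n × S) (r : α ⊕ β → ℝ)
  (L : Submodule ℤ (Ix α β Unit → ℂ)) (χ θ : (Ix α β Unit → ℂ) → ℂ) (δ : Derivation ℚ ℂ ℂ),
  GenK S K c φ t → IsKr X K c ρ → NFB X K φ ρ α β pl T U Tp Tm Ta g n e r → PLat L χ →
  IsTh L χ θ → (∃ v, θ v ≠ 0) → (∀ l ∈ L, ∃ a : Fin n → K, l = act g (vc pl φ e r a)) →
  ∃ (k : ℂ) (cc : Matrix α β ℂ), HasHat δ L θ k (Tp * Tp⁻¹.map δ) (Tm * Tm⁻¹.map δ) cc ∧
    Bds pl (Tp * Tp⁻¹.map δ) (Tm * Tm⁻¹.map δ) cc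

/-- [TrB] the traces of the comparison operator. PROOF. As `Pool/Agent/DWC/TrK.lean`, with the
diagonal matrices `rgB pl (φ · x)` for `rgt α β (zd d • 1)`; for `c x = -x` the entry at `inl i` is
`φ_s x`, at `inr j` it is `conj (φ_s x) = - φ_s x`, `s` the place of the index. The answer is
`∑ (over the indices) (± φ_s x) (2 B_pp - δπ/π)`. -/
def St_TrB : Prop := ∀ (X : AbVar) (K : Type) [Field K] [NumberField K] (c : K →+* K) (S : Type)
  [Fintype S] [DecidableEq S] (φ : S → K →+* ℂ) (t : K) (ρ : K →+* Module.End ℂ X.H1)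
  (α β : Type) [Fintype α] [Fintype β] [DecidableEq α] [DecidableEq β] (pl : α ⊕ β → S)
  (T : Matrix (Ix α β Unit) (Fin X.g) ℂ) (U : Matrix (Fin X.g) (Ix α β Unit) ℂ)
  (Tp : Matrix α α ℂ) (Tm : Matrix β β ℂ) (Ta : Matrix (Ix α β Unit) (Fin X.g) ℂ)
  (g : Matrix (α ⊕ β) (α ⊕ β) ℂ) (n : ℕ) (e : α ⊕ β ≃ Fin n × S) (r : α ⊕ β → ℝ)
  (δ : Derivation ℚ ℂ ℂ) (x : K), GenK S K c φ t → IsKr X K c ρ →
  NFB X K φ ρ α β pl T U Tp Tm Ta g n e r → c x = -x →
  LinearMap.trace ℂ X.H1 ((Pool.Agent.Helper7.pData X).N δ * ρ x) =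
    ∑ s, φ s x * (2 * (trA pl s (Tp * Tp⁻¹.map δ) - trB pl s (Tm * Tm⁻¹.map δ)) -
      ((Fintype.card (Pa pl s) : ℂ) - Fintype.card (Pb pl s)) * (δ Real.pi / Real.pi))

/-- [TrR] the trace of the analytic representation. PROOF. The trace of `ρ x` on `H_1 / F^0`, i.e. of
`z ↦ X.zz (ρ x v)`: in the coordinates `T z` it is the trace of the diagonal matrix `rgB`. -/
def St_TrR : Prop := ∀ (X : AbVar) (K : Type) [Field K] [NumberField K] (c : K →+* K) (S : Type)
  [Fintype S] [DecidableEq S] (φ : S → K →+* ℂ) (t : K) (ρ : K →+* Module.End ℂ X.H1)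
  (α β : Type) [Fintype α] [Fintype β] [DecidableEq α] [DecidableEq β] (pl : α ⊕ β → S)
  (T : Matrix (Ix α β Unit) (Fin X.g) ℂ) (U : Matrix (Fin X.g) (Ix α β Unit) ℂ)
  (Tp : Matrix α α ℂ) (Tm : Matrix β β ℂ) (Ta : Matrix (Ix α β Unit) (Fin X.g) ℂ)
  (g : Matrix (α ⊕ β) (α ⊕ β) ℂ) (n : ℕ) (e : α ⊕ β ≃ Fin n × S) (r : α ⊕ β → ℝ) (x : K)
  (M : Matrix (Fin X.g) (Fin X.g) ℂ), GenK S K c φ t → IsKr X K c ρ →
  NFB X K φ ρ α β pl T U Tp Tm Ta g n e r → (∀ v, X.zz (ρ x v) = M.mulVec (X.zz v)) →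
  M.trace = ∑ j, ∑ s, Ty c φ e j s x

/-! ## The CM point -/

/-- The lattice of the CM point. -/
structure LCM {α β S : Type} [Fintype α] [Fintype β] [DecidableEq α] [DecidableEq β]
    [DecidableEq S] (K : Type) [Field K] [NumberField K] (pl : α ⊕ β → S) (φ : S → K →+* ℂ)
    {n : ℕ} (e : α ⊕ β ≃ Fin n × S) (r : α ⊕ β → ℝ) (L : Submodule ℤ (Ix α β Unit → ℂ)) :
    Prop where
  sub : ∀ l ∈ L, ∃ a : Fin n → K, l = vc pl φ e r a
  com : ∀ a : Fin n → K, ∃ M : ℕ, M ≠ 0 ∧ (M : ℤ) • vc pl φ e r a ∈ L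

/-- [LatB] a principal lattice. PROOF. `E` is rational and nondegenerate on the rational space
`W = {vc a}` of dimension `2 (|α| + |β|) = n [K : ℚ]` (`vc` is injective and additive in `a`; the real
span of `W` is everything because that of the `φ_s(x)` is `ℂ^S`, so a `ℚ`-basis of `W` is a real
basis). Take a symplectic basis of `W` over `ℚ` (`E` alternating, nondegenerate): `L` = its `ℤ`-span,
`χ (∑ a_i e_i + b_i f_i) = (-1)^(∑ a_i b_i)`. `PLat.self`: a vector with integral `E`-products with a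
symplectic basis is an integral combination of it. (Compare `Pool/Agent/GAM/Symp.lean`, `GAM/LatK.lean`,
`GAM/TorK.lean`, `Pool/Agent/PST/Prin.lean`, `Pool/Agent/DWC/LatK.lean` for the construction of `PLat` and `χ`.)
`N`: `N θ` maps the finitely many generators into `L` for a common denominator `N`. -/
def St_LatB : Prop := ∀ (α β : Type) [Fintype α] [Fintype β] [DecidableEq α] [DecidableEq β]
  (K : Type) [Field K] [NumberField K] (c : K →+* K) (S : Type) [Fintype S] [DecidableEq S]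
  (φ : S → K →+* ℂ) (t : K) (pl : α ⊕ β → S) (n : ℕ) (e : α ⊕ β ≃ Fin n × S)
  (r : α ⊕ β → ℝ), GenK S K c φ t → (∀ p, (e p).2 = pl p) → (∀ p, 0 < r p) →
  (∀ a b : Fin n → K, ∃ q : ℚ, E (vc pl φ e r a) (vc pl φ e r b) = q) →
  ∃ (L : Submodule ℤ (Ix α β Unit → ℂ)) (χ : (Ix α β Unit → ℂ) → ℂ) (N : ℕ), PLat L χ ∧
    LCM K pl φ e r L ∧ N ≠ 0 ∧ KLB pl (fun s => φ s t) N L

/-- [CMB] complex multiplication at the CM point. PROOF (compare `Pool/Agent/DWC/CMK.lean`). On the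
`j`-th line use `x_j = N (t + m_j)`, `m_j = j B` with an integer `B > 2 max |σ t|` over the embeddings `σ`, and
`N` such that `(a_j) ↦ (x_j a_j)` maps the finitely many generators of `L` into `L`. In the coordinates `x`
this is the multiplication by `s_p = Ty c φ e j s (x_j)` for `p = e⁻¹(j, s)` (`vc (x a)_p = s_p (vc a)_p`). The
numbers `N (σ t + m_j)` are different for different pairs `(σ, j)` (`GenK.gen`, choice of `B`), and
`conj s_p` is the number for the embedding conjugate to `Ty c φ e j s`, which is not one of the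
`Ty c φ e j s'`. -/
def St_CMB : Prop := ∀ (α β : Type) [Fintype α] [Fintype β] [DecidableEq α] [DecidableEq β]
  (K : Type) [Field K] [NumberField K] (c : K →+* K) (S : Type) [Fintype S] [DecidableEq S]
  (φ : S → K →+* ℂ) (t : K) (pl : α ⊕ β → S) (n : ℕ) (e : α ⊕ β ≃ Fin n × S)
  (r : α ⊕ β → ℝ) (L : Submodule ℤ (Ix α β Unit → ℂ)) (χ : (Ix α β Unit → ℂ) → ℂ),
  GenK S K c φ t → (∀ p, (e p).2 = pl p) → PLat L χ → LCM K pl φ e r L → ∃ s, IsCM L s

/-- [ExpB] the exponents of the CM point. PROOF (from `St_CMB`, `GAM.St_CM`, `GAM.St_ExpT`).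
`GAM.All.CM_` gives `HasExp δ L θ A' k`; put `A p = A' (p, ())`. `HasHat` with diagonal matrices: as in
`Pool/Agent/DWC/EqK.lean` (`hop` with diagonal matrices and `c = 0` is `k + eul`). For the line `j`:
`GAM.All.ExpT_` with `φ := Ty c φ e j` (a CM type: `φ s` or its conjugate for every `s`), the injection
`s ↦ (e⁻¹(j, s), ())`, `r := r (e⁻¹(j, s))`, and `M` such that `vc` of `a = M x` on the line `j`, `0` on the
others, is in `L` for all integers `x` of `K` (`LCM.com` for an integral basis). -/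
def St_ExpB : Prop := ∀ (α β : Type) [Fintype α] [Fintype β] [DecidableEq α] [DecidableEq β]
  (K : Type) [Field K] [NumberField K] (c : K →+* K) (S : Type) [Fintype S] [DecidableEq S]
  (φ : S → K →+* ℂ) (t : K) (pl : α ⊕ β → S) (n : ℕ) (e : α ⊕ β ≃ Fin n × S)
  (r : α ⊕ β → ℝ) (L : Submodule ℤ (Ix α β Unit → ℂ)) (χ θ : (Ix α β Unit → ℂ) → ℂ),
  GenK S K c φ t → (∀ p, (e p).2 = pl p) → (∀ p, 0 < r p) →
  (∀ p, IsAlgebraic ℚ (r p : ℂ)) → PLat L χ → IsTh L χ θ → (∃ v, θ v ≠ 0) →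
  LCM K pl φ e r L → ∃ A : Derivation ℚ ℂ ℂ → α ⊕ β → ℂ, ∀ δ,
    (∀ j : Fin n, CMT K c (Ty c φ e j) ∧
      IsExp δ K (Ty c φ e j) (fun s => A δ (e.symm (j, s)))) ∧
    ∃ k : ℂ, HasHat δ L θ k (Matrix.diagonal fun i => A δ (Sum.inl i))
      (Matrix.diagonal fun j => A δ (Sum.inr j)) 0

/-- [TorB] the torus part. PROOF (from `St_NFX`, `St_CoreB`, `St_CoB` (StR), `St_LatB`, `St_ExpB`,
`St_HatB`, `St_TrB`, `St_TrR`, `PST.St_MapE`, `PST.St_UGr`). As `Pool/Agent/DWC/TorK.lean`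
(`TorK_trace`): `L₁` from `St_LatB` (the rationality of `E` on the `vc a`: by `NFB.lat`, `NFB.herm`
`E (act g u) (act g v) = E u v` is `Im hermForm` of elements of `ℚ Λ`), `L₀ = g L₁`; `θ₀`, `θ₁` from
`GAM.thm_ThEx`; `St_HatB` at `L₀`, `St_ExpB` at `L₁`; `St_CoreB` for every place `s`
(`δ (dt pl s g) = δ 1 = 0`). Reindex the sums over the indices by `e`: `Φ j = Ty c φ e j`, and
`A δ j s = A δ (e⁻¹(j, s))`; `Φ j s x = φ s x` for an index of the first kind, `φ s (c x) = - φ s x` for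
the second kind. `N = n [K : ℚ] = 2 g` is the bijection `e` and `T`. The existence of `S, φ, t`:
`GAM.All.Base_` and the primitive element theorem (multiplied by a common denominator). -/
def St_TorB : Prop := ∀ (X : AbVar) (K : Type) [Field K] [NumberField K] (c : K →+* K)
  (ρ : K →+* Module.End ℂ X.H1), CMF K c → IsKr X K c ρ →
  ∃ (S : Type) (_ : Fintype S) (_ : DecidableEq S) (n : ℕ) (Φ : Fin n → S → K →+* ℂ)
    (A : Derivation ℚ ℂ ℂ → Fin n → S → ℂ), (∀ j, CMT K c (Φ j)) ∧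
    (∀ δ j, IsExp δ K (Φ j) (A δ j)) ∧
    (∀ δ x, c x = -x → LinearMap.trace ℂ X.H1 ((Pool.Agent.Helper7.pData X).N δ * ρ x) =
      ∑ j, ∑ s, Φ j s x * (2 * A δ j s - δ Real.pi / Real.pi)) ∧
    ∀ (x : K) (M : Matrix (Fin X.g) (Fin X.g) ℂ),
      (∀ v, X.zz (ρ x v) = M.mulVec (X.zz v)) → M.trace = ∑ j, ∑ s, Φ j s x

end WPP
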