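import Pool.Agent.WPP.Defs

/-!
# WPP: frozen statements, geometry of numbers on a product domain

Author helper4 (architects helper99, helper59). `μ = Unit` as in `DWC` (Geometry of numbers). Only
`ResB`, `DetB`, `CoB` know the field `K`; the other statements need only that the numbers `th s` and
their conjugates are pairwise distinct (`Dis`). The statements `Rk`, `Gn`, `Bdf`, `Op2`, `Trv`, `Zt` of
`DWC` are used verbatim (`DWC.All.Gn_`, ... ; import `Pool.Agent.DWC.All`, `Pool.Agent.PST.All`).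

Conventions. `X = sw x`; `act g x` is `X ↦ g X`; `κ = kapB pl th N` multiplies `X_p` by
`D_p = N th (pl p)`; `κ` commutes with every block diagonal matrix (entries).
-/

set_option autoImplicit false
set_option linter.unusedVariables false

namespace WPP

open scoped ComplexConjugate
open GAM (H E F pd pdl PLat IsTh OddTor IsDel Gro IsLat)
open PST DWC

/-- The numbers `th s` and their conjugates are pairwise distinct. -/
structure Dis {S : Type} (th : S → ℂ) : Prop where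
  inj : ∀ s s', th s = th s' → s = s'
  nc : ∀ s s', th s ≠ conj (th s')

/-! ## Determinants of automorphisms -/

/-- [ResB] the determinants of the blocks come from one element of `K`. PROOF (from `St_GrB`).
Let `b : ι → ℂ^n` (`ι = Ix ⊕ Ix`, `n = Ix`) be the basis of `L` (`PLat.basis`), `X_k = sw (b k)`,
and `G`, `T` the integer `ι × ι` matrices `act γ (b k) = ∑ G_jk b_j`, `act κ (b k) = ∑ T_jk b_j`. Let `B` be the complex matrix
`(α ⊕ β) ⊕ (α ⊕ β)` by `ι` with the columns `(X_k, conj X_k)`. `B` is invertible (square; `B v = 0`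
gives `∑ v_k X_k = 0 = ∑ conj v_k X_k`, so the real and the imaginary part of `v` are zero), and
`B G = diag(γ, conj γ) B`, `B T = diag(D, conj D) B`, `D = diagonal (N φ_{pl p}(t))`.
Let `z = N t : K`, `h = minpolyDiv ℚ z` and `d = aeval z (derivative (minpoly ℚ z))`, `d ≠ 0`. Put
`Π = d⁻¹ h(T)`, `Q = Π G + 1 - Π` (matrices over `K`), `u = Q.det`. Under `φ s` the matrix `Π` becomes
`B⁻¹ diag(f(D), f(conj D)) B`, `f = (φ s)(h) / (φ s)(d)`. By `eval₂_minpolyDiv_of_eval₂_eq_zero` (the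
numbers `D_p = φ_{pl p}(z)` and `conj D_p = φ_{pl p}(c z)` are images of `z` under embeddings, so
roots of `minpoly ℚ z`), `f(D_p) = 1` if `pl p = s`, and `0` if not, `f(conj D_p) = 0` (`gen`, `ty`). So
`φ s (u) = det (1_s γ + 1 - 1_s) = dt pl s γ` (the matrix is block diagonal, the blocks are `bk pl s γ`
and `1`; last part of `St_GrB`). No number field except `K`, no `K`-vector space is needed. -/
def St_ResB : Prop := ∀ (α β S K : Type) [Fintype α] [Fintype β] [Fintype S] [DecidableEq α]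
  [DecidableEq β] [DecidableEq S] [Field K] [NumberField K] (pl : α ⊕ β → S) (c : K →+* K)
  (φ : S → K →+* ℂ) (t : K) (N : ℕ) (L : Submodule ℤ (Ix α β Unit → ℂ))
  (χ : (Ix α β Unit → ℂ) → ℂ) (γ : Matrix (α ⊕ β) (α ⊕ β) ℂ), GenK S K c φ t → N ≠ 0 →
  PLat L χ → KLB pl (fun s => φ s t) N L → IsB pl γ → (∀ x ∈ L, act γ x ∈ L) →
  ∃ u : K, ∀ s, φ s u = dt pl s γ

/-- [DetB] the determinants of the blocks of an automorphism are roots of unity, of an order which
depends only on `K`. PROOF (from `St_ResB`, `St_GrB`). `dt pl s γ` is an algebraic integer: the block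
`bk pl s γ` preserves the projection of the lattice `{sw x : x ∈ L}` on the coordinates of `s`, a finitely
generated group which spans over `ℂ` (`DetK_int` in `Pool/Agent/DWC/DetK.lean`, copy it). So the `u` of
`St_ResB` is integral (`φ s` is injective; if `S` is empty there is no embedding of `K` in `ℂ`, which
contradicts `Nonempty (K →+* ℂ)`), `‖φ_s(u)‖ = ‖dt pl s γ‖ = 1` by `St_GrB`, and
`φ_s(c u) = conj (φ_s u)` (`cm.cc`), so `‖σ u‖ = 1` for every embedding `σ` (`ty`). The set of such `u` is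
finite (`NumberField.Embeddings.finite_of_norm_le`), each of them is a root of unity
(`NumberField.Embeddings.pow_eq_one_of_norm_eq_one`); `e` is the product of the orders over this finite
set. -/
def St_DetB : Prop := ∀ (S K : Type) [Fintype S] [DecidableEq S] [Field K] [NumberField K]
  (c : K →+* K) (φ : S → K →+* ℂ) (t : K), GenK S K c φ t → ∃ e : ℕ, e ≠ 0 ∧
  ∀ (α β : Type) [Fintype α] [Fintype β] [DecidableEq α] [DecidableEq β] (pl : α ⊕ β → S)
    (N : ℕ) (L : Submodule ℤ (Ix α β Unit → ℂ)) (χ : (Ix α β Unit → ℂ) → ℂ)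
    (γ : Matrix (α ⊕ β) (α ⊕ β) ℂ), N ≠ 0 → PLat L χ → KLB pl (fun s => φ s t) N L → IsU γ →
    IsB pl γ → (∀ x : Ix α β Unit → ℂ, x ∈ L ↔ act γ x ∈ L) → ∀ s, dt pl s γ ^ e = 1

/-! ## Reduction theory -/

/-- [ExtB] an isometry from Gram matrices. PROOF (as `Pool/Agent/DWC/Ext.lean`, with `act κ` for `Ext_J`;
`κ = kapB pl th N`). As there, there is a real linear map `T` with `T (b i) = c i`, `E (T x) (T y) =
E x y`, bijective, and `T L = L`; the second Gram condition gives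
`E (T (act κ x) - act κ (T x)) (T y) = E (act κ x) y - E (act κ (T x)) (T y) = 0` for all `x`, `y`, so
`T (act κ x) = act κ (T x)`. In the coordinates `X` write `T` as `X ↦ A X + A' (conj X)` with complex
matrices `A`, `A'` (unique). Commutation with `D = diagonal (D_p)`, `D_p = N th (pl p)`, gives
`A_pq D_q = D_p A_pq` and `A'_pq conj D_q = D_p A'_pq`; by `Dis`, `N ≠ 0`: `A_pq = 0` if `pl p ≠ pl q`, and
`A' = 0`. So `T = act A`, `A` is block diagonal, and `IsU A` follows from `E (act A x) (act A y) = E x y`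
as at the end of `DWC/Ext.lean` (there `T` commutes with `i` in the coordinates `X`, here it does because
`A' = 0`). The other conclusions are as in `DWC/Ext.lean`. -/
def St_ExtB : Prop := ∀ (α β S : Type) [Fintype α] [Fintype β] [Fintype S] [DecidableEq α]
  [DecidableEq β] [DecidableEq S] (pl : α ⊕ β → S) (th : S → ℂ) (N n M : ℕ)
  (L : Submodule ℤ (Ix α β Unit → ℂ)) (χ : (Ix α β Unit → ℂ) → ℂ)
  (b c : Fin M → Ix α β Unit → ℂ), Dis th → N ≠ 0 → PLat L χ → KLB pl th N L →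
  Submodule.span ℤ (Set.range b) = L → Submodule.span ℤ (Set.range c) = L →
  (∀ i j, E (b i) (b j) = E (c i) (c j)) →
  (∀ i j, E (act (kapB pl th N) (b i)) (b j) = E (act (kapB pl th N) (c i)) (c j)) →
  (∀ i, ∃ m ∈ L, c i = b i + (n : ℤ) • m) →
  ∃ γ : Matrix (α ⊕ β) (α ⊕ β) ℂ, IsU γ ∧ IsB pl γ ∧
    (∀ x : Ix α β Unit → ℂ, x ∈ L ↔ act γ x ∈ L) ∧
    (∀ l ∈ L, ∃ m ∈ L, act γ l = l + (n : ℤ) • m) ∧ ∀ i, act γ (b i) = c i

/-- [MahB] reduction theory: Mahler's criterion, with congruence subgroups. PROOF (from `DWC.St_Gn`,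
`St_ExtB`, `DWC.St_Bdf`, `PST.St_UGr`, as `Pool/Agent/DWC/Mah.lean`). The data of `g` are the Gram matrices
`E (b i) (b j)`, `E (act κ (b i)) (b j)` of the short generators `act g (b i)` of `L` and their classes
modulo `n`; `κ` commutes with the block diagonal `g`, and `nq (act κ x) ≤ (N max ‖th s‖)^2 nq x`, so
the data take finitely many values. `Gn` and `Bdf` are applied as they stand (to `g` in the group of all
isometries). The isometry `γ` of `St_ExtB` is block diagonal; the condition on the determinants is the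
last hypothesis. -/
def St_MahB : Prop := ∀ (α β S : Type) [Fintype α] [Fintype β] [Fintype S] [DecidableEq α]
  [DecidableEq β] [DecidableEq S] (pl : α ⊕ β → S) (th : S → ℂ) (e N n : ℕ)
  (L : Submodule ℤ (Ix α β Unit → ℂ)) (χ : (Ix α β Unit → ℂ) → ℂ) (ε : ℝ), Dis th → N ≠ 0 →
  n ≠ 0 → PLat L χ → KLB pl th N L → 0 < ε →
  (∀ γ : Matrix (α ⊕ β) (α ⊕ β) ℂ, IsU γ → IsB pl γ →
    (∀ x : Ix α β Unit → ℂ, x ∈ L ↔ act γ x ∈ L) → ∀ s, dt pl s γ ^ e = 1) →
  ∃ R : ℝ, ∀ g : Matrix (α ⊕ β) (α ⊕ β) ℂ, IsU g → IsB pl g → Sh L g ε →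
    ∃ γ : Matrix (α ⊕ β) (α ⊕ β) ℂ, GamB pl e n L γ ∧ ∀ i j, ‖(γ * g) i j‖ ≤ R

/-- [GapB] the gap in the sequence of the minima. PROOF (as `Pool/Agent/DWC/Gap.lean`; design of
helper59). Coordinates `X`, `V = ℂ^(α ⊕ β)` with the euclidean norm, `nq x = ‖X‖^2`,
`D = diagonal (N th (pl p))`, `c ≥ 1` a bound of the `|N th s|`, `m = 2 card S`, `n = card (α ⊕ β)`,
`h (X, Y) = ∑ J_p X_p conj Y_p`, `E x y = Im h (X, Y)`. For `δ > 0` let `W_δ` be the REAL span of
`S_δ = {D^j X : x ∈ L, nq x ≤ δ^2, j ≤ m}`.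
(a) `D W_δ ≤ W_δ`: `q(D) = 0` for the real monic polynomial `q = ∏ s, (Z - N th s) (Z - N conj (th s))` of
degree `m`. So `W_δ` is stable under `r(D)`, `r ∈ ℝ[Z]`. By `Dis`, for `λ : S → ℂ` there is a real
polynomial `r` with `r(N th s) = λ s` for all `s` (Lagrange interpolation in the `2 card S` distinct nodes
`N th s`, `N conj (th s)` with the values `λ s`, `conj (λ s)`; the coefficients are real by uniqueness, or
take `(r + conj r) / 2`). So `W_δ` is stable under `diagonal (λ (pl p))`: it is a complex subspace, stable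
under the projections `1_s` on the blocks. Its orthogonal projection `P` is Hermitian, commutes with
`1_s`, so `IsB pl P`.
(b) If `c^(2m) δ^2 < 1`: `E (κ^j x) (κ^k y)` is an integer (`KLB`) of absolute value
`≤ ‖D^j X‖ ‖D^k Y‖ < 1` for `x`, `y` short, `j, k ≤ m`; so `E = 0`, hence `h = 0` on `W_δ` (a complex
subspace), `P J P = 0`.
(c) `δ_0 = 2 ε`, `δ_(k+1) = 2 ε + 2 n c^m δ_k`. The `W_(δ_k)` increase, real dimension `≤ 2 n`, so
`W_(δ_k) = W_(δ_(k+1))` for some `k ≤ 2 n`; `ε₀` such that `c^(2m) δ_(2n+1)^2 < 1` for `ε ≤ ε₀`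
(`δ_k = ε` times a constant). Let `W = W_(δ_k)`, `x ∈ L`, `nq (act (1 - P) x) < (2 ε)^2`. `W` has a real
basis of at most `2 n` elements `D^(j_i) X_i` of `S_(δ_k)` (of norm `≤ c^m δ_k`; a spanning set contains
a basis), `P X = ∑ c_i D^(j_i) X_i`, `c_i` real, `x' = x - ∑ ⌊c_i⌋ κ^(j_i) x_i ∈ L` has
`‖X'‖ ≤ 2 ε + 2 n c^m δ_k = δ_(k+1)`, so `X' ∈ W_(δ_(k+1)) = W`, `X ∈ W`, `act P x = x`. -/
def St_GapB : Prop := ∀ (α β S : Type) [Fintype α] [Fintype β] [Fintype S] [DecidableEq α]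
  [DecidableEq β] [DecidableEq S] (pl : α ⊕ β → S) (th : S → ℂ) (N : ℕ), Dis th → N ≠ 0 →
  ∃ ε₀ : ℝ, 0 < ε₀ ∧ ∀ ε : ℝ, 0 < ε → ε ≤ ε₀ →
  ∀ L : Submodule ℤ (Ix α β Unit → ℂ), (∀ x ∈ L, ∀ y ∈ L, ∃ k : ℤ, E x y = k) →
  KLB pl th N L → ∃ P : Matrix (α ⊕ β) (α ⊕ β) ℂ, IsoP P ∧ IsB pl P ∧
    ∀ x ∈ L, act P x = x ∨ (2 * ε) ^ 2 ≤ nq (act (1 - P) x)

/-- [ZtB] the half plane in the product domain. PROOF (from `DWC.St_Zt`, `St_OmBT`). `Jm α β` and `P` are
block diagonal, so is `Bt P t` (products, sums, `St_GrB`), so is `h = g * Bt P t`. For a block diagonal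
`h` the block `h.toBlocks₂₂` commutes with the matrices `diagonal (fun j => x (pl (inr j)))`, so does its
inverse, which is block diagonal (if the determinant is zero the inverse is `0`); so
`mob h 0 = h.toBlocks₁₂ * (h.toBlocks₂₂)⁻¹` is supported on `Ga pl`: `ex0 pl (mobB pl h 0) = mob h 0`
(`ex0 pl 0 = 0`). So the assertions are those of `DWC.St_Zt`, with the same `C`, for the restrictions `rs`
(continuous, linear) to the coordinates `Ga pl`. -/
def St_ZtB : Prop := ∀ (α β S : Type) [Fintype α] [Fintype β] [Fintype S] [DecidableEq α]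
  [DecidableEq β] [DecidableEq S] (pl : α ⊕ β → S) (R : ℝ), ∃ C : ℝ,
  ∀ g P : Matrix (α ⊕ β) (α ⊕ β) ℂ, IsU g → IsB pl g → (∀ i j, ‖g i j‖ ≤ R) → IsoP P →
  IsB pl P → (∀ t, IsB pl (Bt P t)) ∧ mobB pl (g * Bt P Complex.I) 0 = mobB pl g 0 ∧
    DifferentiableOn ℂ (fun t => mobB pl (g * Bt P t) 0) {t | 0 < t.im} ∧
    ContinuousOn (fun t => mobB pl (g * Bt P t) 0) {t | 0 ≤ t.im} ∧
    ∀ t : ℂ, 0 ≤ t.im → ∃ ρ : ℝ, 0 ≤ ρ ∧ ρ < 1 ∧ mobB pl (g * Bt P t) 0 ∈ OmBC pl ρ ∧
      1 ≤ C * (1 - ρ) * (1 + ‖t‖) ^ 2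

/-- [CptB] the compact set and its neighbourhoods. PROOF (from `DWC.St_Op2`, `PST.St_UGr`, `PST.St_UAl`,
`PST.St_OmT`, `St_UTrB`, `St_OmBT`, `St_GrB`, `St_MobB`, as `Pool/Agent/DWC/Cpt.lean`). The set of the block
diagonal `g` with `IsU g`, entries at most `R` and `Sh L g ε` is compact (the conditions `IsB` are
closed), `KcB` is its image under the continuous map `g ↦ mobB pl g 0`. Neighbourhoods: as there, an
element `w` near `p = mobB pl g 0` is `mobB pl (g h) 0`, `h` block diagonal (`St_UTrB`) with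
`mobB pl h 0 = mobB pl g⁻¹ w` small, so `DWC.St_Op2` applies to `h` (`mob h 0 = ex0 pl (mobB pl h 0)`). -/
def St_CptB : Prop := ∀ (α β S : Type) [Fintype α] [Fintype β] [Fintype S] [DecidableEq α]
  [DecidableEq β] [DecidableEq S] (pl : α ⊕ β → S) (L : Submodule ℤ (Ix α β Unit → ℂ))
  (χ : (Ix α β Unit → ℂ) → ℂ) (ε R : ℝ), PLat L χ → 0 < ε →
  IsCompact (KcB pl L ε R) ∧ KcB pl L ε R ⊆ OmB pl ∧ ∃ R' : ℝ, ∀ p ∈ KcB pl L ε R,
    ∃ U ∈ nhds p, U ⊆ KcB pl L (ε / 2) R'

/-- [CoB] cocompactness up to half planes. PROOF (from `St_DetB`, `St_MahB`, `St_GapB`, `DWC.St_Trv`,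
`St_ZtB`, `St_CptB`, `St_GrB`, `St_MobB`, `PST.St_UGr`, `PST.St_UAl`, `PST.St_MapE`, as
`Pool/Agent/DWC/CocK.lean`). `e` is that of `St_DetB`. `Dis (fun s => φ s t)`: `φ s t = φ s' t` gives
`φ s = φ s'` (`gen`), `s = s'` (`ty`, injectivity of `Sum.elim`), and `φ s t = conj (φ s' t) =
φ s' (c t)` gives `φ s = (φ s').comp c`, which contradicts `ty`. The compact set is
`KcB pl L ε R` with the `R` of `St_MahB`; a point near it is `mobB pl g 0` (`St_CptB`); `L' = g⁻¹ L`
(`PST.St_MapE`) is stable under `κ` because `g` is block diagonal; `P` is that of `St_GapB` for `L'`; the half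
plane is `t ↦ mobB pl (g * Bt P t) 0` (`St_ZtB`); for real `t` the matrix `g * Bt P t` is in the group, block
diagonal, `Sh L (g * Bt P t) ε` (`DWC.St_Trv`, last part), and `St_MahB` gives the element of the
congruence subgroup. -/
def St_CoB : Prop := ∀ (S K : Type) [Fintype S] [DecidableEq S] [Field K] [NumberField K]
  (c : K →+* K) (φ : S → K →+* ℂ) (t : K), GenK S K c φ t → ∃ e : ℕ, e ≠ 0 ∧
  ∀ (α β : Type) [Fintype α] [Fintype β] [DecidableEq α] [DecidableEq β] (pl : α ⊕ β → S)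
    (N : ℕ) (L : Submodule ℤ (Ix α β Unit → ℂ)) (χ : (Ix α β Unit → ℂ) → ℂ), N ≠ 0 →
    PLat L χ → KLB pl (fun s => φ s t) N L → CocB pl e L

end WPP
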