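import Pool.Agent.WPP.StC
import Pool.Agent.WPP.StN
import Pool.Agent.WPP.StR
import Pool.Agent.WPP.GrB
import Pool.Agent.GAM.ThEx
import Pool.Agent.GAM.Base
import Pool.Agent.GAM.TorC
import Pool.Agent.PST.MapE
import Pool.Agent.PST.UGr

/-!
# WPP, module TorB: the torus part
-/

set_option autoImplicit false

namespace WPP

open scoped ComplexConjugate
open GAM (H E F pd pdl PLat IsTh OddTor IsDel Gro IsLat HasExp CMF CMT IsExp IsCM)
open Pool.Agent.GPC (AbVar hermForm bilForm)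
open Module
open PST DWC

/-- Integral generators. -/
private theorem TorB_gen (K : Type) [Field K] [NumberField K] (c : K →+* K) (hK : CMF K c) :
    ∃ (S : Type) (_ : Fintype S) (_ : DecidableEq S) (φ : S → K →+* ℂ) (t : K),
      GenK S K c φ t := by
  obtain ⟨t₀⟩ : Nonempty (K →+* ℂ) := inferInstance
  obtain ⟨S, i1, i2, φ, _, hφ, _⟩ := GAM.thm_Base K c hK t₀
  obtain ⟨α, hα⟩ := GAM.TorC_prim K
  have h1 : IsAlgebraic ℤ α :=
    (IsFractionRing.isAlgebraic_iff ℤ ℚ K).2 (Algebra.IsAlgebraic.isAlgebraic α)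
  obtain ⟨y, hy, hy'⟩ := h1.exists_integral_multiple
  refine ⟨S, i1, i2, φ, y • α, hK, hφ, hy', fun σ τ h => hα σ τ ?_⟩
  rw [zsmul_eq_mul, map_mul, map_mul, map_intCast, map_intCast] at h
  exact mul_left_cancel₀ (by exact_mod_cast hy) h

private theorem TorB_herm {g : ℕ} (Hm : Matrix (Fin g) (Fin g) ℂ) (z w : Fin g → ℂ) (m n : ℕ) :
    hermForm Hm ((m : ℤ) • z) ((n : ℤ) • w) = (m : ℂ) * n * hermForm Hm z w := by
  unfold Pool.Agent.GPC.hermForm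
  rw [Finset.mul_sum]
  refine Finset.sum_congr rfl fun a _ => ?_
  rw [Finset.mul_sum]
  refine Finset.sum_congr rfl fun b _ => ?_
  rw [Pi.smul_apply, Pi.smul_apply, zsmul_eq_mul, zsmul_eq_mul, map_mul, map_intCast]
  push_cast
  ring

private theorem TorB_fib {γ S : Type} [Fintype γ] [Fintype S] [DecidableEq S] (q : γ → S)
    (f : S → γ → ℂ) : ∑ s, ∑ i : {i : γ // q i = s}, f s i.1 = ∑ i, f (q i) i := by
  have h1 : ∀ s, ∑ i : {i : γ // q i = s}, f s i.1 = ∑ i, if q i = s then f s i else 0 := by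
    intro s
    rw [← Finset.sum_filter]
    exact (Finset.sum_subtype (Finset.univ.filter fun i => q i = s) (fun i => by simp)
      (fun i => f s i)).symm
  rw [Finset.sum_congr rfl fun s _ => h1 s, Finset.sum_comm]
  refine Finset.sum_congr rfl fun i _ => ?_
  rw [Finset.sum_ite_eq, if_pos (Finset.mem_univ _)]

section

variable {X : AbVar} {K : Type} [Field K] [NumberField K] {c : K →+* K} {S : Type} [Fintype S]
  [DecidableEq S] {φ : S → K →+* ℂ} {ρ : K →+* Module.End ℂ X.H1} {α β : Type} [Fintype α]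
  [Fintype β] [DecidableEq α] [DecidableEq β] {pl : α ⊕ β → S}
  {T : Matrix (Ix α β Unit) (Fin X.g) ℂ} {U : Matrix (Fin X.g) (Ix α β Unit) ℂ}
  {Tp : Matrix α α ℂ} {Tm : Matrix β β ℂ} {Ta : Matrix (Ix α β Unit) (Fin X.g) ℂ}
  {g : Matrix (α ⊕ β) (α ⊕ β) ℂ} {n : ℕ} {e : α ⊕ β ≃ Fin n × S} {r : α ⊕ β → ℝ}

/-- The form is rational. -/
private theorem TorB_rat (hN : NFB X K φ ρ α β pl T U Tp Tm Ta g n e r) (a b : Fin n → K) :
    ∃ q : ℚ, E (vc pl φ e r a) (vc pl φ e r b) = q := by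
  obtain ⟨-, -, -, -, -, -, u7⟩ := PST.thm_UGr α β Unit
  have key : ∀ a, ∃ z, T.mulVec z = act g (vc pl φ e r a) ∧
      ∃ m : ℕ, m ≠ 0 ∧ (m : ℤ) • z ∈ X.Λ := by
    intro a
    have h1 : T.mulVec (U.mulVec (act g (vc pl φ e r a))) = act g (vc pl φ e r a) := by
      rw [Matrix.mulVec_mulVec, hN.ts, Matrix.one_mulVec]
    exact ⟨U.mulVec (act g (vc pl φ e r a)), h1, (hN.lat _).2 ⟨a, h1⟩⟩
  obtain ⟨z, hz, m, hm, hzm⟩ := key a
  obtain ⟨w, hw, m', hm', hwm⟩ := key b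
  have h1 : E (vc pl φ e r a) (vc pl φ e r b) = (hermForm X.H z w).im := by
    rw [← u7 g hN.uni, ← hz, ← hw, E, ← hN.herm]
  obtain ⟨k, hk⟩ := X.appellHumbert.integral _ hzm _ hwm
  rw [TorB_herm] at hk
  have h2 : ((m : ℂ) * m' * hermForm X.H z w).im = (m : ℝ) * m' * (hermForm X.H z w).im := by
    have h3 : (m : ℂ) * m' * hermForm X.H z w =
        (((m : ℝ) * m' : ℝ) : ℂ) * hermForm X.H z w := by push_cast; ring
    rw [h3, Complex.im_ofReal_mul]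
  rw [h2] at hk
  refine ⟨(k : ℚ) / ((m : ℚ) * m'), ?_⟩
  have h4 : (m : ℝ) ≠ 0 := by exact_mod_cast hm
  have h5 : (m' : ℝ) ≠ 0 := by exact_mod_cast hm'
  rw [h1]
  push_cast
  rw [← hk]
  field_simp

/-- The torus part in coordinates. -/
private theorem TorB_main (h2 : St_CoreB) (h3 : St_CoB) (h4 : St_LatB) (h5 : St_ExpB)
    (h6 : St_HatB) (h7 : St_TrB) {t : K} (hG : GenK S K c φ t) (hK : IsKr X K c ρ)
    (hN : NFB X K φ ρ α β pl T U Tp Tm Ta g n e r) :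
    ∃ A : Derivation ℚ ℂ ℂ → α ⊕ β → ℂ,
      (∀ δ, ∀ j : Fin n, CMT K c (Ty c φ e j) ∧
        IsExp δ K (Ty c φ e j) (fun s => A δ (e.symm (j, s)))) ∧
      ∀ δ x, c x = -x → LinearMap.trace ℂ X.H1 ((Pool.Agent.Helper7.pData X).N δ * ρ x) =
        ∑ s, φ s x * (2 * (∑ i : Pa pl s, A δ (Sum.inl i.1) - ∑ j : Pb pl s, A δ (Sum.inr j.1)) -
          ((Fintype.card (Pa pl s) : ℂ) - Fintype.card (Pb pl s)) * (δ Real.pi / Real.pi)) := by
  obtain ⟨L₁, χ₁, N, hP₁, hL₁, hN0, hK₁⟩ := h4 α β K c S φ t pl n e r hG hN.ep hN.rpos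
    (fun a b => TorB_rat hN a b)
  obtain ⟨-, u2, u3, -, -, u6, -⟩ := PST.thm_UGr α β Unit
  obtain ⟨hiU, hig, hgi, -, -⟩ := u6 g hN.uni
  obtain ⟨-, -, -, b4, -⟩ := thm_GrB α β S pl
  have hgB : IsB pl (Jm α β * g.conjTranspose * Jm α β) := b4 g hN.blk
  obtain ⟨gi, hgie⟩ : ∃ gi, gi = Jm α β * g.conjTranspose * Jm α β := ⟨_, rfl⟩
  rw [← hgie] at hiU hig hgi hgB
  have e1 : ∀ x : Ix α β Unit → ℂ, act gi (act g x) = x := fun x => by rw [← u2, hig, u3]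
  have e2 : ∀ x : Ix α β Unit → ℂ, act g (act gi x) = x := fun x => by rw [← u2, hgi, u3]
  obtain ⟨L₀, χ₀, hP₀, hM'⟩ := PST.thm_MapE PST.thm_UGr α β Unit gi L₁ χ₁ hiU hP₁
  have hM : Maps g L₁ L₀ χ₁ χ₀ := by
    refine ⟨hN.uni, fun x => ?_, fun l hl => ?_⟩
    · rw [hM'.lat (act g x), e1]
    · have h11 : act g l ∈ L₀ := by rw [hM'.lat, e1]; exact hl
      have h12 := hM'.chi (act g l) h11
      rw [e1] at h12
      exact h12.symm
  have hcm : kapB pl (fun s => φ s t) N * gi = gi * kapB pl (fun s => φ s t) N := by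
    ext p q
    rw [kapB, Matrix.diagonal_mul, Matrix.mul_diagonal]
    by_cases h : pl p = pl q
    · rw [h, mul_comm]
    · rw [hgB p q h, mul_zero, zero_mul]
  have hK₀ : KLB pl (fun s => φ s t) N L₀ := by
    intro l hl
    rw [hM'.lat] at hl ⊢
    rw [← u2, ← hcm, u2]
    exact hK₁ _ hl
  obtain ⟨θ₀, hT₀, hz₀⟩ := GAM.thm_ThEx (Ix α β Unit) L₀ χ₀ hP₀
  obtain ⟨θ₁, hT₁, hz₁⟩ := GAM.thm_ThEx (Ix α β Unit) L₁ χ₁ hP₁
  obtain ⟨e₀, he₀, hCo⟩ := h3 S K c φ t hG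
  have hC : CocB pl e₀ L₀ := hCo α β pl N L₀ χ₀ hN0 hP₀ hK₀
  obtain ⟨A, hA⟩ := h5 α β K c S φ t pl n e r L₁ χ₁ θ₁ hG hN.ep hN.rpos hN.ralg hP₁ hT₁ hz₁ hL₁
  refine ⟨A, fun δ => (hA δ).1, fun δ x hx => ?_⟩
  obtain ⟨k₀, c₀, hh₀, hb₀⟩ := h6 X K c S φ t ρ α β pl T U Tp Tm Ta g n e r L₀ χ₀ θ₀ δ hG hK hN
    hP₀ hT₀ hz₀ (by
      intro l hl
      rw [hM'.lat] at hl
      obtain ⟨a, ha⟩ := hL₁.sub _ hl
      exact ⟨a, by rw [← ha, e2]⟩)
  obtain ⟨k₁, hh₁⟩ := (hA δ).2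
  have hb₁ : Bds pl (Matrix.diagonal fun i => A δ (Sum.inl i))
      (Matrix.diagonal fun j => A δ (Sum.inr j)) (0 : Matrix α β ℂ) := by
    refine ⟨fun i i' h => ?_, fun j j' h => ?_, fun i j _ => rfl⟩
    · exact Matrix.diagonal_apply_ne _ fun h' => h (by rw [h'])
    · exact Matrix.diagonal_apply_ne _ fun h' => h (by rw [h'])
  rw [h7 X K c S φ t ρ α β pl T U Tp Tm Ta g n e r δ x hG hK hN hx]
  refine Finset.sum_congr rfl fun s _ => ?_
  have hdet : δ (dt pl s g) = 0 := by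
    rw [hN.det]
    exact Derivation.map_one_eq_zero δ
  have key := h2 α β Unit S pl s δ g L₀ L₁ χ₀ θ₀ χ₁ θ₁ e₀ k₀ k₁ _ _ _ _ c₀ 0 ⟨()⟩ he₀ hP₀ hP₁
    hT₀ hT₁ hz₀ hz₁ hM hN.blk hdet hC hb₀ hb₁ hh₀ hh₁
  have t1 : trA pl s (Matrix.diagonal fun i => A δ (Sum.inl i)) =
      ∑ i : Pa pl s, A δ (Sum.inl i.1) :=
    Finset.sum_congr rfl fun i _ => Matrix.diagonal_apply_eq _ _
  have t2 : trB pl s (Matrix.diagonal fun j => A δ (Sum.inr j)) =
      ∑ j : Pb pl s, A δ (Sum.inr j.1) :=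
    Finset.sum_congr rfl fun j _ => Matrix.diagonal_apply_eq _ _
  rw [key, t1, t2]

end

theorem thm_TorB (h1 : St_NFX) (h2 : St_CoreB) (h3 : St_CoB) (h4 : St_LatB) (h5 : St_ExpB)
    (h6 : St_HatB) (h7 : St_TrB) (h8 : St_TrR) : St_TorB := by
  intro X K _ _ c ρ hK hρ
  obtain ⟨S, i1, i2, φ, t, hG⟩ := TorB_gen K c hK
  obtain ⟨α, β, _, _, _, _, pl, T, U, Tp, Tm, Ta, g, n, e, r, hN⟩ := h1 X K c S φ t ρ hG hρ
  obtain ⟨A, hA1, hA2⟩ := TorB_main h2 h3 h4 h5 h6 h7 hG hρ hN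
  refine ⟨S, i1, i2, n, Ty c φ e, fun δ j s => A δ (e.symm (j, s)), fun j => (hA1 0 j).1,
    fun δ j => (hA1 δ j).2, ?_, ?_⟩
  · intro δ x hx
    rw [hA2 δ x hx]
    have e1 : ∀ q : Fin n × S, Ty c φ e q.1 q.2 x * (2 * A δ (e.symm q) - δ Real.pi / Real.pi) =
        (fun p : α ⊕ β => Sum.elim
          (fun i => φ (pl (Sum.inl i)) x * (2 * A δ (Sum.inl i) - δ Real.pi / Real.pi))
          (fun j => -(φ (pl (Sum.inr j)) x * (2 * A δ (Sum.inr j) - δ Real.pi / Real.pi))) p)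
          (e.symm q) := by
      intro q
      have h11 : pl (e.symm q) = q.2 := by rw [← hN.ep, Equiv.apply_symm_apply]
      unfold Ty
      rw [Prod.mk.eta]
      rcases h12 : e.symm q with i | j
      · rw [h12] at h11
        simp only [Sum.elim_inl, h11]
      · rw [h12] at h11
        simp only [Sum.elim_inr, h11, RingHom.comp_apply, hx, map_neg]
        ring
    have e2 : ∑ j, ∑ s, Ty c φ e j s x * (2 * A δ (e.symm (j, s)) - δ Real.pi / Real.pi) =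
        ∑ q : Fin n × S, Ty c φ e q.1 q.2 x * (2 * A δ (e.symm q) - δ Real.pi / Real.pi) :=
      (Fintype.sum_prod_type fun q : Fin n × S =>
        Ty c φ e q.1 q.2 x * (2 * A δ (e.symm q) - δ Real.pi / Real.pi)).symm
    rw [e2, Finset.sum_congr rfl fun q _ => e1 q, Equiv.sum_comp e.symm, Fintype.sum_sum_type]
    simp only [Sum.elim_inl, Sum.elim_inr]
    rw [← TorB_fib (fun i : α => pl (Sum.inl i))
        (fun s i => φ s x * (2 * A δ (Sum.inl i) - δ Real.pi / Real.pi)),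
      ← TorB_fib (fun j : β => pl (Sum.inr j))
        (fun s j => -(φ s x * (2 * A δ (Sum.inr j) - δ Real.pi / Real.pi))),
      ← Finset.sum_add_distrib]
    refine Finset.sum_congr rfl fun s _ => ?_
    rw [Finset.sum_neg_distrib, ← Finset.mul_sum, ← Finset.mul_sum, Finset.sum_sub_distrib,
      Finset.sum_sub_distrib, ← Finset.mul_sum, ← Finset.mul_sum, Finset.sum_const,
      Finset.sum_const, Finset.card_univ, Finset.card_univ, nsmul_eq_mul, nsmul_eq_mul]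
    ring
  · intro x M hM
    exact h8 X K c S φ t ρ α β pl T U Tp Tm Ta g n e r x M hG hρ hN hM

end WPP
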