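import Pool.Agent.WPP.StN
import Pool.Agent.PST.AnR

/-!
# WPP: the trace of the comparison operator times an element of the field
-/

set_option autoImplicit false
set_option linter.unusedSectionVars false

namespace WPP

open scoped ComplexConjugate
open GAM (H E F pd pdl PLat IsTh OddTor IsDel Gro IsLat Pre QD qd jac HasExp CMF CMT IsExp IsCM)
open Pool.Agent.GPC (AbVar hermForm bilForm)
open Module
open PST DWC
open Pool.Agent.Helper7 (PData pData isAlg_sum periodHom period_add isBetti_iff mem_pData_Q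
  derivation_eq_zero nabla_eq_zero opN_apply)
open Pool.Agent.Helper71.AF (VR zz_period period_VR VR_period VR_map)

/-! ## Derivations and determinants -/

section det

variable {ν : Type} [Fintype ν] [DecidableEq ν] (δ : Derivation ℚ ℂ ℂ)

private theorem TrB_prod (s : Finset ν) (g : ν → ℂ) :
    δ (∏ i ∈ s, g i) = ∑ b ∈ s, ∏ i ∈ s, if i = b then δ (g i) else g i := by
  induction s using Finset.induction_on with
  | empty => simp
  | insert a s ha ih =>
    rw [Finset.prod_insert ha, Derivation.leibniz, ih, Finset.sum_insert ha,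
      Finset.prod_insert ha, if_pos rfl, smul_eq_mul, smul_eq_mul, add_comm, Finset.mul_sum,
      mul_comm (δ (g a))]
    congr 1
    · congr 1
      refine Finset.prod_congr rfl fun i hi => ?_
      rw [if_neg]
      rintro rfl
      exact ha hi
    · refine Finset.sum_congr rfl fun b hb => ?_
      rw [Finset.prod_insert ha, if_neg]
      rintro rfl
      exact ha hb

private theorem TrB_adj (M V : Matrix ν ν ℂ) :
    ∑ σ : Equiv.Perm ν, ((Equiv.Perm.sign σ : ℤ) : ℂ) *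
      ∑ b, ∏ i, (if i = b then V (σ i) i else M (σ i) i) = (M.adjugate * V).trace := by
  have h1 : ∀ b, (M.adjugate * V) b b = ∑ σ : Equiv.Perm ν, ((Equiv.Perm.sign σ : ℤ) : ℂ) *
      ∏ i, (if i = b then V (σ i) i else M (σ i) i) := by
    intro b
    have h2 : (M.adjugate * V) b b = (M.adjugate.mulVec fun i => V i b) b := rfl
    rw [h2, ← Matrix.cramer_eq_adjugate_mulVec, Matrix.cramer_apply, Matrix.det_apply']
    refine Finset.sum_congr rfl fun σ _ => ?_
    congr 1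
    refine Finset.prod_congr rfl fun i _ => ?_
    rw [Matrix.updateCol_apply]
    split_ifs with h
    · rw [h]
    · rfl
  unfold Matrix.trace
  simp only [Matrix.diag_apply]
  rw [Finset.sum_congr rfl fun b _ => h1 b, Finset.sum_comm]
  refine Finset.sum_congr rfl fun σ _ => ?_
  rw [Finset.mul_sum]

private theorem TrB_det (M : Matrix ν ν ℂ) : δ M.det = (M.adjugate * M.map δ).trace := by
  rw [← TrB_adj, Matrix.det_apply', map_sum]
  refine Finset.sum_congr rfl fun σ _ => ?_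
  rw [Derivation.leibniz, TrB_prod, derivation_eq_zero δ _ (isAlgebraic_intCast _), smul_zero,
    add_zero, smul_eq_mul]
  rfl

private theorem TrB_tr (M : Matrix ν ν ℂ) (h : IsAlgebraic ℚ M.det) :
    (M.map δ * M⁻¹).trace = 0 := by
  rw [Matrix.inv_def, Matrix.mul_smul, Matrix.trace_smul, Matrix.trace_mul_comm, ← TrB_det,
    derivation_eq_zero δ _ h, smul_zero]

private theorem TrB_conj (x : ℂ) (h : IsAlgebraic ℚ x) : IsAlgebraic ℚ (conj x) :=
  h.algHom (Complex.conjAe.toAlgHom.restrictScalars ℚ)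

private theorem TrB_prodalg (f : ν → ℂ) (h : ∀ s, IsAlgebraic ℚ (f s)) :
    IsAlgebraic ℚ (∏ s, f s) := by
  classical
  have h1 : ∀ t : Finset ν, IsAlgebraic ℚ (∏ s ∈ t, f s) := by
    intro t
    induction t using Finset.induction_on with
    | empty => simpa using isAlgebraic_one
    | insert a s ha ih =>
      rw [Finset.prod_insert ha]
      exact (h a).mul ih
  exact h1 _

private theorem TrB_kalg {K : Type} [Field K] [NumberField K] (σ : K →+* ℂ) (x : K) :
    IsAlgebraic ℚ (σ x) :=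
  (Algebra.IsAlgebraic.isAlgebraic (R := ℚ) x).algHom (RingHom.toRatAlgHom σ)

end det

/-! ## Leibniz rules for matrices -/

section mat

variable {l m n : Type} [Fintype l] [Fintype m] [Fintype n] (δ : Derivation ℚ ℂ ℂ)

private theorem TrB_mul (M : Matrix l m ℂ) (N : Matrix m n ℂ) :
    (M * N).map δ = M.map δ * N + M * N.map δ := by
  ext i j
  simp only [Matrix.map_apply, Matrix.mul_apply, Matrix.add_apply, map_sum,
    ← Finset.sum_add_distrib]
  refine Finset.sum_congr rfl fun k _ => ?_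
  rw [Derivation.leibniz, smul_eq_mul, smul_eq_mul]
  ring

private theorem TrB_mulVec (M : Matrix l m ℂ) (v : m → ℂ) :
    (fun i => δ (M.mulVec v i)) = (M.map δ).mulVec v + M.mulVec fun i => δ (v i) := by
  funext i
  simp only [Matrix.mulVec, dotProduct, Matrix.map_apply, Pi.add_apply, map_sum,
    ← Finset.sum_add_distrib]
  refine Finset.sum_congr rfl fun k _ => ?_
  rw [Derivation.leibniz, smul_eq_mul, smul_eq_mul]
  ring

private theorem TrB_trB (A : Matrix l l ℂ) (B : Matrix l m ℂ) (C : Matrix m l ℂ)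
    (D : Matrix m m ℂ) : (Matrix.fromBlocks A B C D).trace = A.trace + D.trace := by
  simp only [Matrix.trace, Matrix.diag_apply, Fintype.sum_sum_type]
  rfl

private theorem TrB_alg (M : Matrix l m ℂ) (h : ∀ i j, IsAlgebraic ℚ (M i j)) : M.map δ = 0 := by
  ext i j
  exact derivation_eq_zero δ _ (h i j)

end mat

/-! ## Coordinates -/

section coord

variable {α β : Type} [Fintype α] [Fintype β] [DecidableEq α] [DecidableEq β]

/-- exchange of the coordinates of the second kind -/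
private def TrB_pi : Ix α β Unit ⊕ Ix α β Unit → Ix α β Unit ⊕ Ix α β Unit
  | Sum.inl (Sum.inl i, k) => Sum.inl (Sum.inl i, k)
  | Sum.inl (Sum.inr j, k) => Sum.inr (Sum.inr j, k)
  | Sum.inr (Sum.inl i, k) => Sum.inr (Sum.inl i, k)
  | Sum.inr (Sum.inr j, k) => Sum.inl (Sum.inr j, k)

private theorem TrB_pi2 (s : Ix α β Unit ⊕ Ix α β Unit) : TrB_pi (TrB_pi s) = s := by
  rcases s with ⟨i | j, k⟩ | ⟨i | j, k⟩ <;> rfl

/-- the same as a permutation -/
private def TrB_e : (Ix α β Unit ⊕ Ix α β Unit) ≃ (Ix α β Unit ⊕ Ix α β Unit) :=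
  ⟨TrB_pi, TrB_pi, TrB_pi2, TrB_pi2⟩

/-- left multiplication -/
private def TrB_lm (A : Matrix (α ⊕ β) (α ⊕ β) ℂ) :
    Matrix (Ix α β Unit) (Ix α β Unit) ℂ :=
  Matrix.of fun p q => if p.2 = q.2 then A p.1 q.1 else 0

private theorem TrB_lm_mulVec (A : Matrix (α ⊕ β) (α ⊕ β) ℂ) (y : α ⊕ β → ℂ) :
    (TrB_lm A).mulVec (fun p : Ix α β Unit => y p.1) = fun p => A.mulVec y p.1 := by
  funext p
  simp [Matrix.mulVec, dotProduct, TrB_lm, Matrix.of_apply, Fintype.sum_prod_type]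

/-- the signs of the coordinates -/
private noncomputable def TrB_sg (h : α ⊕ β → ℂ) (p : Ix α β Unit) : ℂ :=
  Sum.elim (fun i => h (Sum.inl i)) (fun j => -h (Sum.inr j)) p.1

/-- the same as a matrix -/
private noncomputable def TrB_Ds (h : α ⊕ β → ℂ) : Matrix (Ix α β Unit) (Ix α β Unit) ℂ :=
  Matrix.diagonal (TrB_sg h)

private theorem TrB_blk_mul (P P' : Matrix α α ℂ) (Q Q' : Matrix β β ℂ) :
    blk Unit P Q * blk Unit P' Q' = blk Unit (P * P') (Q * Q') := by
  ext p q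
  have h1 : Matrix.fromBlocks (P * P') 0 0 (Q * Q') =
      Matrix.fromBlocks P 0 0 Q * Matrix.fromBlocks P' 0 0 Q' := by
    rw [Matrix.fromBlocks_multiply]
    simp
  have h2 : blk Unit (P * P') (Q * Q') p q =
      (Matrix.fromBlocks (P * P') 0 0 (Q * Q') : Matrix (α ⊕ β) (α ⊕ β) ℂ) p.1 q.1 := by
    simp [blk]
  rw [h2, h1, Matrix.mul_apply, Matrix.mul_apply, Fintype.sum_prod_type]
  refine Finset.sum_congr rfl fun s _ => ?_
  simp [blk]

private theorem TrB_blk_one :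
    blk Unit (1 : Matrix α α ℂ) (1 : Matrix β β ℂ) = 1 := by
  ext p q
  have h2 : blk Unit (1 : Matrix α α ℂ) (1 : Matrix β β ℂ) p q =
      (Matrix.fromBlocks 1 0 0 1 : Matrix (α ⊕ β) (α ⊕ β) ℂ) p.1 q.1 := by
    simp [blk]
  rw [h2, Matrix.fromBlocks_one, Matrix.one_apply, Matrix.one_apply]
  by_cases h : p = q
  · rw [if_pos h, if_pos (by rw [h])]
  · rw [if_neg h, if_neg fun h1 => h (Prod.ext h1 (Subsingleton.elim _ _))]

private theorem TrB_blk_map (δ : Derivation ℚ ℂ ℂ) (P : Matrix α α ℂ) (Q : Matrix β β ℂ) :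
    (blk Unit P Q).map δ = blk Unit (P.map δ) (Q.map δ) := by
  ext p q
  obtain ⟨i | i, k⟩ := p <;> obtain ⟨j | j, l⟩ := q <;> by_cases h : k = l <;>
    simp [blk, h]

private theorem TrB_blk_tr (h : α ⊕ β → ℂ) (P : Matrix α α ℂ) (Q : Matrix β β ℂ) :
    (blk Unit P Q * TrB_Ds h).trace =
      ∑ i, P i i * h (Sum.inl i) - ∑ j, Q j j * h (Sum.inr j) := by
  have h1 : ∀ p : Ix α β Unit, (blk Unit P Q * TrB_Ds h :
      Matrix (Ix α β Unit) (Ix α β Unit) ℂ) p p =
      Matrix.fromBlocks P 0 0 Q p.1 p.1 * TrB_sg h p := by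
    intro p
    rw [TrB_Ds, Matrix.mul_diagonal]
    simp [blk]
  rw [Matrix.trace]
  simp only [Matrix.diag_apply, h1, Fintype.sum_prod_type]
  have h2 : ∀ s : α ⊕ β, ∑ k : Unit, Matrix.fromBlocks P 0 0 Q s s *
      TrB_sg h ((s, k) : Ix α β Unit) =
        Matrix.fromBlocks P 0 0 Q s s *
          Sum.elim (fun i => h (Sum.inl i)) (fun j => -h (Sum.inr j)) s := by
    intro s
    simp only [TrB_sg, Finset.univ_unique, Finset.sum_singleton]
  simp only [h2]
  rw [Fintype.sum_sum_type]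
  simp only [Matrix.fromBlocks_apply₁₁, Matrix.fromBlocks_apply₂₂, Sum.elim_inl, Sum.elim_inr,
    mul_neg, Finset.sum_neg_distrib]
  rw [sub_eq_add_neg]

private theorem TrB_sg_tr (h : α ⊕ β → ℂ) :
    (TrB_Ds h : Matrix (Ix α β Unit) (Ix α β Unit) ℂ).trace =
      ∑ i, h (Sum.inl i) - ∑ j, h (Sum.inr j) := by
  have h0 := TrB_blk_tr h (1 : Matrix α α ℂ) (1 : Matrix β β ℂ)
  rw [TrB_blk_one, Matrix.one_mul] at h0
  simp only [Matrix.one_apply_eq, one_mul] at h0
  exact h0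

/-- the derivation of the lattice vectors -/
private noncomputable def TrB_N (δ : Derivation ℚ ℂ ℂ) (X₀ : Matrix (α ⊕ β) (α ⊕ β) ℂ) :
    Matrix (Ix α β Unit ⊕ Ix α β Unit) (Ix α β Unit ⊕ Ix α β Unit) ℂ :=
  (Matrix.fromBlocks (TrB_lm (X₀.map δ * X₀⁻¹)) 0 0
    (TrB_lm ((X₀.map conj).map δ * (X₀.map conj)⁻¹))).submatrix TrB_e TrB_e

/-- the diagonal matrix of `J` -/
private noncomputable def TrB_J (h : α ⊕ β → ℂ) : Ix α β Unit ⊕ Ix α β Unit → ℂ :=
  Sum.elim (TrB_sg h) fun p => -TrB_sg h p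

/-- the same as a matrix -/
private noncomputable def TrB_D (h : α ⊕ β → ℂ) :
    Matrix (Ix α β Unit ⊕ Ix α β Unit) (Ix α β Unit ⊕ Ix α β Unit) ℂ :=
  Matrix.diagonal (TrB_J h)

private theorem TrB_bk_mul {S : Type} [DecidableEq S] (pl : α ⊕ β → S) (s : S)
    (A B : Matrix (α ⊕ β) (α ⊕ β) ℂ) (hA : IsB pl A) :
    bk pl s (A * B) = bk pl s A * bk pl s B := by
  ext p q
  show ∑ r, A p.1 r * B r q.1 = ∑ r : {p : α ⊕ β // pl p = s}, A p.1 r.1 * B r.1 q.1
  rw [← Finset.sum_subtype (Finset.univ.filter fun r => pl r = s)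
    (fun r => by simp only [Finset.mem_filter, Finset.mem_univ, true_and])
    (fun r => A p.1 r * B r q.1), Finset.sum_filter]
  refine Finset.sum_congr rfl fun r _ => ?_
  split_ifs with hr
  · rfl
  · rw [hA p.1 r (by rw [p.2]; exact fun h => hr h.symm), zero_mul]

private theorem TrB_bk_tr {S : Type} [Fintype S] [DecidableEq S] (pl : α ⊕ β → S)
    (δ : Derivation ℚ ℂ ℂ) (Y : Matrix (α ⊕ β) (α ⊕ β) ℂ) (hY : IsB pl Y) (hd : Y.det ≠ 0)
    (ha : ∀ s, IsAlgebraic ℚ (dt pl s Y)) (f : S → ℂ) :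
    ∑ p, (Y.map δ * Y⁻¹) p p * f (pl p) = 0 := by
  rw [← Finset.sum_fiberwise Finset.univ pl]
  refine Finset.sum_eq_zero fun s _ => ?_
  have hYd : IsB pl (Y.map δ) := by
    intro p q h
    rw [Matrix.map_apply, hY p q h, map_zero]
  have h1 : bk pl s (Y⁻¹) = (bk pl s Y)⁻¹ := by
    refine (Matrix.inv_eq_right_inv ?_).symm
    rw [← TrB_bk_mul pl s Y Y⁻¹ hY, Matrix.mul_nonsing_inv Y (IsUnit.mk0 _ hd)]
    ext p q
    show (1 : Matrix (α ⊕ β) (α ⊕ β) ℂ) p.1 q.1 = _
    rw [Matrix.one_apply, Matrix.one_apply]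
    simp only [Subtype.ext_iff]
  have h2 : (bk pl s (Y.map δ * Y⁻¹)).trace = 0 := by
    rw [TrB_bk_mul pl s _ _ hYd, h1]
    exact TrB_tr δ (bk pl s Y) (ha s)
  have h3 : (bk pl s (Y.map δ * Y⁻¹)).trace =
      ∑ p ∈ Finset.univ.filter (fun p => pl p = s), (Y.map δ * Y⁻¹) p p := by
    rw [Finset.sum_subtype (p := fun r => pl r = s) (Finset.univ.filter fun r => pl r = s)
      (fun r => by simp only [Finset.mem_filter, Finset.mem_univ, true_and])]
    rfl
  rw [Finset.sum_congr rfl fun p hp => by rw [(Finset.mem_filter.1 hp).2], ← Finset.sum_mul,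
    ← h3, h2, zero_mul]

private theorem TrB_N_tr {S : Type} [Fintype S] [DecidableEq S] (pl : α ⊕ β → S)
    (δ : Derivation ℚ ℂ ℂ) (f : S → ℂ) (X₀ : Matrix (α ⊕ β) (α ⊕ β) ℂ) (hB : IsB pl X₀)
    (hd : X₀.det ≠ 0) (h : ∀ s, IsAlgebraic ℚ (dt pl s X₀)) :
    (TrB_N δ X₀ * TrB_D fun p => f (pl p)).trace = 0 := by
  have hA := TrB_bk_tr pl δ X₀ hB hd h f
  have hB := TrB_bk_tr pl δ (X₀.map conj) (fun p q h => by
      rw [Matrix.map_apply, hB p q h, map_zero]) (by
      have h1 : (X₀.map conj).det = conj X₀.det := (RingHom.map_det _ _).symm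
      rw [h1]
      exact fun h3 => hd ((map_eq_zero _).mp h3)) (fun s => by
      have h1 : dt pl s (X₀.map conj) = conj (dt pl s X₀) := by
        unfold dt
        rw [RingHom.map_det]
        rfl
      rw [h1]
      exact TrB_conj _ (h s)) f
  obtain ⟨g, hg⟩ : ∃ g : Ix α β Unit ⊕ Ix α β Unit → ℂ, g =
      fun t => (Matrix.fromBlocks (TrB_lm (X₀.map δ * X₀⁻¹)) 0 0
        (TrB_lm ((X₀.map conj).map δ * (X₀.map conj)⁻¹)) :
        Matrix (Ix α β Unit ⊕ Ix α β Unit) (Ix α β Unit ⊕ Ix α β Unit) ℂ) t t *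
        (Sum.elim (fun p => f (pl p.1)) (fun p => -f (pl p.1)) t : ℂ) := ⟨_, rfl⟩
  have h1 : ∀ s, (TrB_N δ X₀ * TrB_D fun p => f (pl p) :
      Matrix (Ix α β Unit ⊕ Ix α β Unit) (Ix α β Unit ⊕ Ix α β Unit) ℂ) s s =
      g (TrB_e s) := by
    intro s
    rw [TrB_D, Matrix.mul_diagonal, hg]
    show _ * TrB_J _ s = _ * _
    congr 1
    rcases s with ⟨i | j, k⟩ | ⟨i | j, k⟩
    · rfl
    · rfl
    · rfl
    · exact neg_neg _
  have h3 : (TrB_N δ X₀ * TrB_D fun p => f (pl p)).trace = ∑ t, g t :=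
    (Finset.sum_congr rfl fun s _ => h1 s).trans (Equiv.sum_comp TrB_e g)
  rw [h3, Fintype.sum_sum_type, hg]
  simp only [Matrix.fromBlocks_apply₁₁, Matrix.fromBlocks_apply₂₂, Sum.elim_inl, Sum.elim_inr,
    Fintype.sum_prod_type]
  have h2 : ∀ Y : Matrix (α ⊕ β) (α ⊕ β) ℂ, ∑ p, Y p p * f (pl p) = 0 →
      ∑ s : α ⊕ β, ∑ k : Unit, TrB_lm Y (s, k) (s, k) * f (pl s) = 0 := by
    intro Y hY
    have h3 : ∀ (s : α ⊕ β) (k : Unit), TrB_lm Y (s, k) (s, k) = Y s s := by
      intro s k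
      simp [TrB_lm]
    simp only [h3]
    rw [Finset.sum_comm]
    refine Finset.sum_eq_zero fun k _ => hY
  simp only [mul_neg, Finset.sum_neg_distrib]
  rw [h2 _ hA, h2 _ hB, neg_zero, add_zero]

/-- the vector of the coordinates and their conjugates -/
private def TrB_v (x : Ix α β Unit → ℂ) : Ix α β Unit ⊕ Ix α β Unit → ℂ :=
  Sum.elim x fun p => conj (x p)

private theorem TrB_del (δ : Derivation ℚ ℂ ℂ) (X₀ : Matrix (α ⊕ β) (α ⊕ β) ℂ)
    (κ : α ⊕ β → ℂ) (h0 : X₀.det ≠ 0) (hr : ∀ i, IsAlgebraic ℚ (κ i)) :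
    (fun s => δ (TrB_v (sw fun p : Ix α β Unit => X₀.mulVec κ p.1) s)) =
      (TrB_N δ X₀).mulVec (TrB_v (sw fun p : Ix α β Unit => X₀.mulVec κ p.1)) := by
  have hY : ∀ (Y : Matrix (α ⊕ β) (α ⊕ β) ℂ) (y : α ⊕ β → ℂ), Y.det ≠ 0 →
      (∀ i, IsAlgebraic ℚ (y i)) →
      (Y.map δ * Y⁻¹).mulVec (Y.mulVec y) = fun i => δ (Y.mulVec y i) := by
    intro Y y h1 h2
    have h3 : (fun i => δ (y i)) = 0 := by
      funext i
      exact derivation_eq_zero δ _ (h2 i)
    rw [TrB_mulVec, h3, Matrix.mulVec_zero, add_zero, Matrix.mulVec_mulVec, Matrix.mul_assoc,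
      Matrix.nonsing_inv_mul Y (IsUnit.mk0 _ h1), Matrix.mul_one]
  have h1 : TrB_v (sw fun p : Ix α β Unit => X₀.mulVec κ p.1) ∘ TrB_e.symm =
      Sum.elim (fun p : Ix α β Unit => X₀.mulVec κ p.1)
        (fun p => (X₀.map conj).mulVec (fun i => conj (κ i)) p.1) := by
    have hc : ∀ i, (X₀.map conj).mulVec (fun i => conj (κ i)) i = conj (X₀.mulVec κ i) := by
      intro i
      simp only [Matrix.mulVec, dotProduct, Matrix.map_apply, map_sum, map_mul]
    funext s
    rcases s with ⟨i | j, k⟩ | ⟨i | j, k⟩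
    · rfl
    · show conj (conj (X₀.mulVec κ (Sum.inr j))) = _
      rw [Complex.conj_conj]
      rfl
    · show conj (X₀.mulVec κ (Sum.inl i)) = _
      rw [Sum.elim_inr, hc]
    · show conj (X₀.mulVec κ (Sum.inr j)) = _
      rw [Sum.elim_inr, hc]
  have h0' : (X₀.map conj).det ≠ 0 := by
    have h2 : (X₀.map conj).det = conj X₀.det := (RingHom.map_det _ _).symm
    rw [h2]
    exact fun h3 => h0 ((map_eq_zero _).mp h3)
  rw [TrB_N, Matrix.submatrix_mulVec_equiv, h1, Matrix.fromBlocks_mulVec]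
  simp only [Sum.elim_comp_inl, Sum.elim_comp_inr, Matrix.zero_mulVec, add_zero, zero_add]
  rw [TrB_lm_mulVec, TrB_lm_mulVec, hY X₀ κ h0 hr,
    hY (X₀.map conj) (fun i => conj (κ i)) h0' fun i => TrB_conj _ (hr i)]
  funext s
  have h2 := congrFun h1 (TrB_e s)
  rw [Function.comp_apply, Equiv.symm_apply_apply] at h2
  rw [h2, Function.comp_apply]
  rcases TrB_e s with t | t
  · rfl
  · rfl

end coord

/-! ## The comparison operator on periods -/

section per

variable (X : AbVar)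

private theorem TrB_per (δ : Derivation ℚ ℂ ℂ) (u : X.H1) (hu : X.IsBetti u) :
    (pData X).N δ u = fun j => δ (u j) := by
  have h1 : (pData X).N δ u = Pool.Agent.Helper7.nabla (Pi.basisFun ℂ (Fin X.g ⊕ Fin X.g)) δ u -
      Pool.Agent.Helper7.nabla (pData X).bB δ u := rfl
  rw [h1, nabla_eq_zero (pData X).bB δ u (fun k => by
    obtain ⟨q, hq⟩ := (pData X).repr_rat u ((mem_pData_Q X u).mpr hu) k
    rw [hq]
    exact isAlgebraic_ratCast ℚ q), sub_zero]
  funext j
  have h2 := Pool.Agent.Helper7.repr_nabla (Pi.basisFun ℂ (Fin X.g ⊕ Fin X.g)) δ u j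
  rwa [Pi.basisFun_repr, Pi.basisFun_repr] at h2

variable {α β : Type} [Fintype α] [Fintype β] [DecidableEq α] [DecidableEq β]
  (T : Matrix (Ix α β Unit) (Fin X.g) ℂ) (S : Matrix (Fin X.g) (Ix α β Unit) ℂ)

/-- the period matrix in the coordinates -/
private noncomputable def TrB_Phi :
    Matrix (Fin X.g ⊕ Fin X.g) (Ix α β Unit ⊕ Ix α β Unit) ℂ :=
  Matrix.fromBlocks S 0 (X.q * S) ((Real.pi : ℂ) • T.transpose)

/-- its inverse -/
private noncomputable def TrB_Psi :
    Matrix (Ix α β Unit ⊕ Ix α β Unit) (Fin X.g ⊕ Fin X.g) ℂ :=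
  Matrix.fromBlocks T 0 (-((Real.pi : ℂ)⁻¹ • (S.transpose * X.q)))
    ((Real.pi : ℂ)⁻¹ • S.transpose)

private theorem TrB_pi0 : (Real.pi : ℂ) ≠ 0 := by exact_mod_cast Real.pi_ne_zero

private theorem TrB_PsiPhi (hts : T * S = 1) : TrB_Psi X T S * TrB_Phi X T S = 1 := by
  rw [TrB_Psi, TrB_Phi, Matrix.fromBlocks_multiply, ← Matrix.fromBlocks_one]
  have h1 : S.transpose * T.transpose = 1 := by
    rw [← Matrix.transpose_mul, hts, Matrix.transpose_one]
  congr 1
  · rw [hts, Matrix.zero_mul, add_zero]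
  · rw [Matrix.mul_zero, Matrix.zero_mul, add_zero]
  · rw [Matrix.neg_mul, Matrix.smul_mul, Matrix.smul_mul, Matrix.mul_assoc, neg_add_cancel]
  · rw [Matrix.mul_zero, zero_add, Matrix.smul_mul, Matrix.mul_smul, smul_smul,
      inv_mul_cancel₀ TrB_pi0, one_smul, h1]

private theorem TrB_PhiPsi (hst : S * T = 1) : TrB_Phi X T S * TrB_Psi X T S = 1 := by
  rw [TrB_Psi, TrB_Phi, Matrix.fromBlocks_multiply, ← Matrix.fromBlocks_one]
  have h1 : T.transpose * S.transpose = 1 := by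
    rw [← Matrix.transpose_mul, hst, Matrix.transpose_one]
  congr 1
  · rw [hst, Matrix.zero_mul, add_zero]
  · rw [Matrix.mul_zero, Matrix.zero_mul, add_zero]
  · rw [Matrix.mul_assoc, hst, Matrix.mul_one, Matrix.mul_neg, Matrix.smul_mul, Matrix.mul_smul,
      smul_smul, mul_inv_cancel₀ TrB_pi0, one_smul, ← Matrix.mul_assoc, h1, Matrix.one_mul,
      add_neg_cancel]
  · rw [Matrix.mul_zero, zero_add, Matrix.smul_mul, Matrix.mul_smul, smul_smul,
      mul_inv_cancel₀ TrB_pi0, one_smul, h1]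

private theorem TrB_period (hst : S * T = 1)
    (hherm : ∀ z w, hermForm X.H z w = H (T.mulVec z) (T.mulVec w)) (z : Fin X.g → ℂ) :
    X.period z = (TrB_Phi X T S).mulVec (TrB_v (T.mulVec z)) := by
  rw [TrB_Phi, Matrix.fromBlocks_mulVec]
  have e1 : TrB_v (T.mulVec z) ∘ Sum.inl = T.mulVec z := rfl
  have e2 : TrB_v (T.mulVec z) ∘ Sum.inr = fun p => conj (T.mulVec z p) := rfl
  rw [e1, e2, Matrix.zero_mulVec, add_zero, Matrix.mulVec_mulVec, Matrix.mulVec_mulVec, hst,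
    Matrix.one_mulVec, Matrix.mul_assoc, hst, Matrix.mul_one]
  funext j
  rcases j with a | a
  · rfl
  · show X.eta z a = (X.q.mulVec z + ((Real.pi : ℂ) • T.transpose).mulVec _) a
    rw [AbVar.eta, hherm, Pool.Agent.Helper7.bilForm_single, Matrix.smul_mulVec, Pi.add_apply,
      Pi.smul_apply, smul_eq_mul, add_comm]
    congr 1
    congr 1
    rw [H, Matrix.mulVec_single_one]
    rfl

private theorem TrB_span (hts : T * S = 1) (hst : S * T = 1)
    (hherm : ∀ z w, hermForm X.H z w = H (T.mulVec z) (T.mulVec w))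
    (M : Matrix (Fin X.g ⊕ Fin X.g) (Ix α β Unit ⊕ Ix α β Unit) ℂ)
    (hM : ∀ z, X.IsBetti (X.period z) → M.mulVec (TrB_v (T.mulVec z)) = 0) : M = 0 := by
  have h1 : M * TrB_Psi X T S = 0 := by
    apply Matrix.toLin'.injective
    rw [map_zero]
    apply LinearMap.ext
    intro u
    rw [Matrix.toLin'_apply, LinearMap.zero_apply]
    have hu := Pool.Agent.GPC.span_betti X u
    induction hu using Submodule.span_induction with
    | mem u hu =>
      have h2 := VR_period X (Pool.Agent.Helper71.AF.betti_VR X hu)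
      rw [← h2] at hu
      rw [← h2, TrB_period X T S hst hherm, Matrix.mulVec_mulVec, Matrix.mul_assoc,
        TrB_PsiPhi X T S hts, Matrix.mul_one]
      exact hM _ hu
    | zero => exact Matrix.mulVec_zero _
    | add x y _ _ hx hy => rw [Matrix.mulVec_add, hx, hy, add_zero]
    | smul c x _ hx => rw [Matrix.mulVec_smul, hx, smul_zero]
  rw [← Matrix.mul_one M, ← TrB_PsiPhi X T S hts, ← Matrix.mul_assoc, h1, Matrix.zero_mul]

private theorem TrB_sgconj (h : α ⊕ β → ℂ) (hh : ∀ p, conj (h p) = -h p)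
    (p : Ix α β Unit) : conj (TrB_sg h p) = -TrB_sg h p := by
  obtain ⟨i | j, k⟩ := p
  · exact hh _
  · show conj (-h (Sum.inr j)) = -(-h (Sum.inr j))
    rw [map_neg, hh]

private theorem TrB_fac (δ : Derivation ℚ ℂ ℂ) (Tp : Matrix α α ℂ) (Tm : Matrix β β ℂ)
    (Ta : Matrix (Ix α β Unit) (Fin X.g) ℂ) (hts : T * S = 1) (dp : Tp.det ≠ 0)
    (dm : Tm.det ≠ 0) (fac : T = blk Unit Tp Tm * Ta) (alg : ∀ q a, IsAlgebraic ℚ (Ta q a)) :
    T * S.map δ = blk Unit (Tp * Tp⁻¹.map δ) (Tm * Tm⁻¹.map δ) := by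
  have hb : blk Unit Tp Tm * blk Unit Tp⁻¹ Tm⁻¹ = 1 := by
    rw [TrB_blk_mul, Matrix.mul_nonsing_inv _ (IsUnit.mk0 _ dp),
      Matrix.mul_nonsing_inv _ (IsUnit.mk0 _ dm), TrB_blk_one]
  have hb' : blk Unit Tp⁻¹ Tm⁻¹ * blk Unit Tp Tm = 1 := by
    rw [TrB_blk_mul, Matrix.nonsing_inv_mul _ (IsUnit.mk0 _ dp),
      Matrix.nonsing_inv_mul _ (IsUnit.mk0 _ dm), TrB_blk_one]
  -- `Ta S = blk⁻¹`
  have h1 : Ta * S = blk Unit Tp⁻¹ Tm⁻¹ := by
    have h2 : blk Unit Tp⁻¹ Tm⁻¹ * (T * S) = Ta * S := by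
      rw [fac, ← Matrix.mul_assoc, ← Matrix.mul_assoc, hb', Matrix.one_mul]
    rw [← h2, hts, Matrix.mul_one]
  -- `Ta δS = δ (blk⁻¹)`
  have h3 : Ta * S.map δ = (blk Unit Tp⁻¹ Tm⁻¹).map δ := by
    rw [← h1, TrB_mul, TrB_alg δ Ta alg, Matrix.zero_mul, zero_add]
  rw [fac, Matrix.mul_assoc, h3, TrB_blk_map, TrB_blk_mul]

private theorem TrB_main (h : α ⊕ β → ℂ) (δ : Derivation ℚ ℂ ℂ) (hts : T * S = 1) :
    (TrB_Psi X T S * (TrB_Phi X T S).map δ * TrB_D h).trace =
      2 * (T * S.map δ * TrB_Ds h).trace -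
        δ Real.pi / Real.pi * (TrB_Ds h : Matrix (Ix α β Unit) (Ix α β Unit) ℂ).trace := by
  have h0 : S.transpose * T.transpose = 1 := by
    rw [← Matrix.transpose_mul, hts, Matrix.transpose_one]
  have hD : (TrB_D h : Matrix (Ix α β Unit ⊕ Ix α β Unit)
      (Ix α β Unit ⊕ Ix α β Unit) ℂ) = Matrix.fromBlocks
      (TrB_Ds h : Matrix (Ix α β Unit) (Ix α β Unit) ℂ) 0 0
      (-(TrB_Ds h : Matrix (Ix α β Unit) (Ix α β Unit) ℂ)) := by
    rw [TrB_Ds, Matrix.diagonal_neg, Matrix.fromBlocks_diagonal]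
    rfl
  have hT : (T.map δ) * S = -(T * S.map δ) := by
    have h1 := TrB_mul δ T S
    rw [hts] at h1
    have h2 : (1 : Matrix (Ix α β Unit) (Ix α β Unit) ℂ).map δ = 0 := by
      apply TrB_alg
      intro i j
      by_cases h : i = j
      · subst h
        rw [Matrix.one_apply_eq]
        exact isAlgebraic_one
      · rw [Matrix.one_apply_ne h]
        exact isAlgebraic_zero
    rw [h2] at h1
    exact eq_neg_of_add_eq_zero_left h1.symm
  have h4 : ((Real.pi : ℂ)⁻¹ • S.transpose) * ((Real.pi : ℂ) • T.transpose).map δ =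
      (δ Real.pi / Real.pi) • 1 - (T * S.map δ).transpose := by
    have h5 : ((Real.pi : ℂ) • T.transpose).map δ =
        (δ Real.pi) • T.transpose + (Real.pi : ℂ) • (T.map δ).transpose := by
      ext i j
      simp only [Matrix.map_apply, Matrix.smul_apply, Matrix.transpose_apply, Matrix.add_apply,
        smul_eq_mul, Derivation.leibniz]
      ring
    rw [h5, Matrix.mul_add, Matrix.smul_mul, Matrix.mul_smul, h0, Matrix.smul_mul,
      Matrix.mul_smul, smul_smul, smul_smul, inv_mul_cancel₀ TrB_pi0, one_smul,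
      ← Matrix.transpose_mul, hT, Matrix.transpose_neg, ← sub_eq_add_neg, mul_comm, div_eq_mul_inv]
  rw [hD, TrB_Psi, TrB_Phi, Matrix.fromBlocks_map, Matrix.fromBlocks_multiply,
    Matrix.fromBlocks_multiply, TrB_trB, h4]
  simp only [Matrix.zero_mul, Matrix.mul_zero, add_zero, zero_add]
  have h6 : (0 : Matrix (Fin X.g) (Ix α β Unit) ℂ).map δ = 0 :=
    TrB_alg δ _ fun i j => isAlgebraic_zero
  rw [h6, Matrix.mul_zero, zero_add, Matrix.mul_neg, Matrix.sub_mul, Matrix.smul_mul,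
    Matrix.one_mul, Matrix.trace_neg, Matrix.trace_sub, Matrix.trace_smul, smul_eq_mul]
  have h7 : ((T * S.map δ).transpose * TrB_Ds h).trace =
      (T * S.map δ * TrB_Ds h).trace := by
    rw [← Matrix.trace_transpose, Matrix.transpose_mul, Matrix.transpose_transpose, TrB_Ds,
      Matrix.diagonal_transpose, Matrix.trace_mul_comm]
  rw [h7]
  ring

end per

/-- lattice vectors in the normal form -/
private theorem TrB_act {α β : Type} [Fintype α] [Fintype β] [DecidableEq α] [DecidableEq β]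
    (g : Matrix (α ⊕ β) (α ⊕ β) ℂ) (r : α ⊕ β → ℝ) (κ : α ⊕ β → ℂ) :
    act g (sw fun p : Ix α β Unit => (r p.1 : ℂ) * κ p.1) =
      sw fun p : Ix α β Unit => (g * Matrix.diagonal fun s => (r s : ℂ)).mulVec κ p.1 := by
  have h1 : sw (sw fun p : Ix α β Unit => (r p.1 : ℂ) * κ p.1) =
      fun p : Ix α β Unit => (r p.1 : ℂ) * κ p.1 := by
    funext p
    rcases p with ⟨i | j, k⟩
    · rfl
    · show conj (conj _) = _
      rw [Complex.conj_conj]
  rw [act, h1]
  congr 1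
  funext p
  rw [← Matrix.mulVec_mulVec]
  simp only [mu, Matrix.mulVec, dotProduct, Matrix.diagonal_apply, ite_mul, zero_mul,
    Finset.sum_ite_eq, Finset.mem_univ, if_true]

/-- a sum over the indices as a sum over the places -/
private theorem TrB_fib {κ S : Type} [Fintype κ] [Fintype S] [DecidableEq S] (q : κ → S)
    (a : κ → ℂ) (f : S → ℂ) :
    ∑ i, a i * f (q i) = ∑ s, f s * ∑ i : {i : κ // q i = s}, a i.1 := by
  rw [← Finset.sum_fiberwise Finset.univ q]
  refine Finset.sum_congr rfl fun s _ => ?_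
  rw [← Finset.sum_subtype (Finset.univ.filter fun i => q i = s)
    (fun r => by simp only [Finset.mem_filter, Finset.mem_univ, true_and]) a, Finset.mul_sum]
  refine Finset.sum_congr rfl fun i hi => ?_
  rw [(Finset.mem_filter.1 hi).2, mul_comm]

theorem thm_TrB : St_TrB := by
  intro X K _ _ c S _ _ φ t ρ α β _ _ _ _ pl T U Tp Tm Ta g n e r δ x hG hJ hN hx
  obtain ⟨X₀, hX₀⟩ : ∃ X₀ : Matrix (α ⊕ β) (α ⊕ β) ℂ,
      X₀ = g * Matrix.diagonal fun s => (r s : ℂ) := ⟨_, rfl⟩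
  have hB₀ : IsB pl X₀ := by
    intro p q hpq
    rw [hX₀, Matrix.mul_diagonal, hN.blk p q hpq, zero_mul]
  have hdt : ∀ s, dt pl s X₀ = ∏ p : {p : α ⊕ β // pl p = s}, (r p.1 : ℂ) := by
    intro s
    have h1 : bk pl s X₀ = bk pl s g * Matrix.diagonal fun p => (r p.1 : ℂ) := by
      ext p q
      rw [Matrix.mul_diagonal]
      show X₀ p.1 q.1 = _
      rw [hX₀, Matrix.mul_diagonal]
      rfl
    show (bk pl s X₀).det = _
    rw [h1, Matrix.det_mul, Matrix.det_diagonal]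
    have h2 : (bk pl s g).det = 1 := hN.det s
    rw [h2, one_mul]
  have hdtA : ∀ s, IsAlgebraic ℚ (dt pl s X₀) := by
    intro s
    rw [hdt]
    exact TrB_prodalg _ fun p => hN.ralg p.1
  have hdet0 : X₀.det ≠ 0 := by
    rw [hX₀, Matrix.det_mul, Matrix.det_diagonal]
    refine mul_ne_zero ?_ (Finset.prod_ne_zero_iff.2 fun s _ => ?_)
    · have h1 := congrArg Matrix.det hN.uni
      rw [Matrix.det_mul, Matrix.det_mul] at h1
      intro h2
      rw [h2, mul_zero] at h1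
      have h3 : (Jm α β).det ≠ 0 := by
        rw [Jm, Matrix.det_fromBlocks_zero₂₁, Matrix.det_one, Matrix.det_neg, Matrix.det_one,
          one_mul, mul_one]
        exact pow_ne_zero _ (neg_ne_zero.2 one_ne_zero)
      exact h3 h1.symm
    · exact_mod_cast (hN.rpos s).ne'
  have hts := hN.ts
  have hst := hN.st
  have hherm := hN.herm
  have hper := TrB_period X T U hst hherm
  have hcx : ∀ s, conj (φ s x) = -φ s x := by
    intro s
    rw [hG.cm.cc, hx, map_neg]
  obtain ⟨h, hh⟩ : ∃ h : α ⊕ β → ℂ, h = fun p => φ (pl p) x := ⟨_, rfl⟩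
  obtain ⟨J, hJd⟩ : ∃ J, J = ρ x := ⟨_, rfl⟩
  obtain ⟨Nm, hNm⟩ : ∃ Nm, Nm = LinearMap.toMatrix' ((pData X).N δ) := ⟨_, rfl⟩
  obtain ⟨Jm', hJm⟩ : ∃ Jm', Jm' = LinearMap.toMatrix' J := ⟨_, rfl⟩
  obtain ⟨Dm, hDm⟩ : ∃ Dm : Matrix (Ix α β Unit ⊕ Ix α β Unit)
      (Ix α β Unit ⊕ Ix α β Unit) ℂ, Dm = TrB_D h := ⟨_, rfl⟩
  -- the operator in the coordinates
  have hE1 : Nm * TrB_Phi X T U = (TrB_Phi X T U).map δ + TrB_Phi X T U * TrB_N δ X₀ := by
    rw [← sub_eq_zero]
    apply TrB_span X T U hts hst hherm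
    intro z hz
    obtain ⟨a, hzr⟩ := (hN.lat z).1 ((AnR_W_iff X z).1 ((AnR_memW X z).2 hz))
    rw [vc, TrB_act g r (fun p => φ (pl p) (a (e p).1)), ← hX₀] at hzr
    have h1 : Nm.mulVec (X.period z) = fun j => δ (X.period z j) := by
      rw [hNm, LinearMap.toMatrix'_mulVec]
      exact TrB_per X δ _ hz
    rw [Matrix.sub_mulVec, Matrix.add_mulVec, ← Matrix.mulVec_mulVec, ← Matrix.mulVec_mulVec,
      ← hper, h1]
    have h2 : (fun j => δ (X.period z j)) =
        fun j => δ ((TrB_Phi X T U).mulVec (TrB_v (T.mulVec z)) j) := by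
      rw [← hper]
    rw [h2, TrB_mulVec, hzr, TrB_del δ X₀ _ hdet0 fun i => TrB_kalg _ _, sub_self]
  have hE2 : Jm' * TrB_Phi X T U = TrB_Phi X T U * Dm := by
    rw [← sub_eq_zero]
    apply TrB_span X T U hts hst hherm
    intro z hz
    rw [Matrix.sub_mulVec, ← Matrix.mulVec_mulVec, ← Matrix.mulVec_mulVec, ← hper, hJm,
      LinearMap.toMatrix'_mulVec]
    have h1 := VR_map X J (by rw [hJd]; exact (hJ.endo x).betti) (period_VR X z)
    rw [← VR_period X h1, hper]
    have h2 : T.mulVec (X.zz (J (X.period z))) = fun q => TrB_sg h q * T.mulVec z q := by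
      rw [hJd, hN.jj, zz_period]
      funext q
      rw [rgB, Matrix.mulVec_diagonal]
      congr 1
      obtain ⟨i | j, k⟩ := q
      · rw [hh]
        rfl
      · rw [hh]
        exact hcx _
    have h3 : TrB_v (T.mulVec (X.zz (J (X.period z)))) =
        Dm.mulVec (TrB_v (T.mulVec z)) := by
      rw [h2]
      funext s
      rw [hDm, TrB_D, Matrix.mulVec_diagonal]
      rcases s with s | s
      · rfl
      · show conj (TrB_sg h s * T.mulVec z s) = -TrB_sg h s * conj (T.mulVec z s)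
        rw [map_mul, TrB_sgconj h (fun p => by rw [hh]; exact hcx _)]
    rw [h3, sub_self]
  have hF := TrB_PhiPsi X T U hst
  have hGG := TrB_PsiPhi X T U hts
  have htr : LinearMap.trace ℂ X.H1 ((pData X).N δ * J) = (Nm * Jm').trace := by
    rw [LinearMap.trace_eq_matrix_trace ℂ (Pi.basisFun ℂ (Fin X.g ⊕ Fin X.g)),
      LinearMap.toMatrix_eq_toMatrix', LinearMap.toMatrix'_mul, hNm, hJm]
  have h1 : (Nm * Jm').trace = ((TrB_Psi X T U * (TrB_Phi X T U).map δ *
      Dm).trace + (TrB_N δ X₀ * Dm).trace) := by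
    have h2 : Nm * Jm' = ((TrB_Phi X T U).map δ + TrB_Phi X T U * TrB_N δ X₀) *
        Dm * TrB_Psi X T U := by
      rw [← hE1, Matrix.mul_assoc Nm, ← hE2, Matrix.mul_assoc, Matrix.mul_assoc, hF,
        Matrix.mul_one]
    rw [h2, Matrix.trace_mul_comm, ← Matrix.mul_assoc, Matrix.mul_add, ← Matrix.mul_assoc, hGG,
      Matrix.one_mul, Matrix.add_mul, Matrix.trace_add]
  have hz0 : (TrB_N δ X₀ * TrB_D h).trace = 0 := by
    rw [hh]
    exact TrB_N_tr pl δ (fun s => φ s x) X₀ hB₀ hdet0 hdtA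
  rw [← hJd, htr, h1, hDm, hz0, add_zero, TrB_main X T U h δ hts,
    TrB_fac X T U δ Tp Tm Ta hts hN.dp hN.dm hN.fac hN.alg, TrB_blk_tr, TrB_sg_tr, hh]
  have e1 := TrB_fib (fun i : α => pl (Sum.inl i)) (fun i => (Tp * Tp⁻¹.map δ) i i)
    (fun s => φ s x)
  have e2 := TrB_fib (fun i : β => pl (Sum.inr i)) (fun i => (Tm * Tm⁻¹.map δ) i i)
    (fun s => φ s x)
  have e3 := TrB_fib (fun i : α => pl (Sum.inl i)) (fun _ => (1 : ℂ)) (fun s => φ s x)
  have e4 := TrB_fib (fun i : β => pl (Sum.inr i)) (fun _ => (1 : ℂ)) (fun s => φ s x)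
  simp only [one_mul, Finset.sum_const, Finset.card_univ, nsmul_eq_mul, mul_one] at e3 e4
  rw [e1, e2, e3, e4, ← Finset.sum_sub_distrib, ← Finset.sum_sub_distrib, Finset.mul_sum,
    Finset.mul_sum, ← Finset.sum_sub_distrib]
  refine Finset.sum_congr rfl fun s _ => ?_
  unfold trA trB
  ring

end WPP
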