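import Pool.Agent.WPP.StN
import Pool.Agent.PST.AnR

/-!
# WPP: the trace of the analytic representation
-/

set_option autoImplicit false

namespace WPP

open scoped ComplexConjugate
open Pool.Agent.GPC (AbVar hermForm bilForm)
open PST
open Pool.Agent.Helper71.AF (zz_period)

theorem thm_TrR : St_TrR := by
  intro X K _ _ c S _ _ φ t ρ α β _ _ _ _ pl T U Tp Tm Ta g n e r x M hG hK hN hM
  have h1 : T * M = rgB pl (fun s => φ s x) * T := by
    apply Matrix.toLin'.injective
    apply LinearMap.ext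
    intro z
    rw [Matrix.toLin'_apply, Matrix.toLin'_apply, ← Matrix.mulVec_mulVec, ← Matrix.mulVec_mulVec]
    have h2 := hN.jj x (X.period z)
    rw [hM, zz_period] at h2
    exact h2
  have h2 : M.trace = (rgB pl fun s => φ s x : Matrix (Ix α β Unit) (Ix α β Unit) ℂ).trace := by
    calc M.trace = (U * (T * M)).trace := by rw [← Matrix.mul_assoc, hN.st, Matrix.one_mul]
      _ = _ := by rw [h1, Matrix.trace_mul_comm, Matrix.mul_assoc, hN.ts, Matrix.mul_one]
  rw [h2]
  unfold rgB
  rw [Matrix.trace_diagonal, Fintype.sum_prod_type]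
  have h3 : ∀ p : α ⊕ β, (∑ _y : Unit, Sum.elim (fun i => φ (pl (Sum.inl i)) x)
      (fun j => conj (φ (pl (Sum.inr j)) x)) p) = Ty c φ e (e p).1 (e p).2 x := by
    intro p
    rw [Fintype.sum_unique]
    unfold Ty
    rw [Prod.mk.eta, Equiv.symm_apply_apply, hN.ep]
    rcases p with i | j
    · rfl
    · exact hG.cm.cc _ _
  calc _ = ∑ p : α ⊕ β, Ty c φ e (e p).1 (e p).2 x := Finset.sum_congr rfl fun p _ => h3 p
    _ = ∑ q : Fin n × S, Ty c φ e q.1 q.2 x :=
        Equiv.sum_comp e fun q : Fin n × S => Ty c φ e q.1 q.2 x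
    _ = _ := Fintype.sum_prod_type _

end WPP
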