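import Pool.Agent.WPP.AllR
import Pool.Agent.WPP.EllS
import Pool.Agent.WPP.NonB
import Pool.Agent.WPP.SupB
import Pool.Agent.WPP.EquB
import Pool.Agent.WPP.GamS
import Pool.Agent.WPP.BndB
import Pool.Agent.WPP.SieB
import Pool.Agent.WPP.RelB
import Pool.Agent.WPP.PtsB
import Pool.Agent.WPP.DelS
import Pool.Agent.WPP.DelB
import Pool.Agent.WPP.CoreB
import Pool.Agent.WPP.AnB
import Pool.Agent.WPP.BasB
import Pool.Agent.WPP.OrtB
import Pool.Agent.WPP.NFX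
import Pool.Agent.WPP.HatB
import Pool.Agent.WPP.TrB
import Pool.Agent.WPP.TrR
import Pool.Agent.WPP.LatB
import Pool.Agent.WPP.CMB
import Pool.Agent.WPP.ExpB
import Pool.Agent.WPP.TorB
import Pool.Agent.WPP.BalF

/-!
# WPP: assembly of the torus part
-/

set_option autoImplicit false

namespace WPP

namespace All

open AllR

theorem EllS_ : St_EllS := thm_EllS PST.All.Ell_ PST.All.OmT_
theorem NonB_ : St_NonB := thm_NonB PST.All.NonM_ PST.All.DetPt_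
theorem SupB_ : St_SupB := thm_SupB PST.All.PsiJ_ PST.All.PsiL_ NonB_
theorem EquB_ : St_EquB := thm_EquB PST.All.EquP_ PST.All.EquD_ MobB_
theorem GamS_ : St_GamS := thm_GamS PST.All.UGr_ EquB_ PST.All.PsiL_
theorem BndB_ : St_BndB := thm_BndB
theorem SieB_ : St_SieB :=
  thm_SieB GamS_ PST.All.Sup_ SupB_ EllS_ OmBT_ PST.All.UGr_ DWC.All.SieA_ BndB_ DWC.All.Grw_
theorem RelB_ : St_RelB := thm_RelB SieB_ EllS_ OmBT_ PST.All.MinP_ PST.All.HomI_ PST.All.Ell_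
theorem PtsB_ : St_PtsB := thm_PtsB
theorem DelS_ : St_DelS := thm_DelS
theorem DelB_ : St_DelB := thm_DelB DelS_
theorem CoreB_ : St_CoreB := thm_CoreB RelB_ PtsB_ DelB_ PST.All.DelPG_ PST.All.DelGR_ EquB_
  PST.All.UGr_ MobB_ GrB_ EllS_ OmBT_
theorem AnB_ : St_AnB := thm_AnB
theorem BasB_ : St_BasB := thm_BasB
theorem OrtB_ : St_OrtB := thm_OrtB
theorem NFX_ : St_NFX := thm_NFX AnB_ BasB_ OrtB_
theorem HatB_ : St_HatB := thm_HatB PST.All.HatA_ PST.All.QRel_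
theorem TrB_ : St_TrB := thm_TrB
theorem TrR_ : St_TrR := thm_TrR
theorem LatB_ : St_LatB := thm_LatB
theorem CMB_ : St_CMB := thm_CMB
theorem ExpB_ : St_ExpB := thm_ExpB CMB_ GAM.All.CM_ GAM.All.ExpT_
theorem TorB_ : St_TorB := thm_TorB NFX_ CoreB_ CoB_ LatB_ ExpB_ HatB_ TrB_ TrR_

end All

end WPP
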