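import Pool.Agent.WPP.StA

/-!
# WPP, [EgF]: the dimension of `F^0` in an eigenspace
-/

set_option autoImplicit false

namespace WPP

open Module
open Pool.Agent.GPC
open Pool.Agent.Helper7 (pData proj lift hod hod_idem hod_fil hod_comm_end rho_mul_proj
  proj_mul_proj sum_dbas_bas bas dbas rho_eq_sum)

/-- membership in the eigenspace in `F^0` -/
theorem EgF_mem (A : AbVar) {K : Type} [Field K] [NumberField K]
    (ρ : K →+* Module.End ℂ A.H1) (σ : K →+* ℂ) (v : A.H1) :
    v ∈ A.eigenFil (fun x v => ρ x v) σ ↔ (∀ x, ρ x v = σ x • v) ∧ A.IsFil v := by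
  constructor
  · intro h
    unfold AbVar.eigenFil at h
    induction h using Submodule.span_induction with
    | mem v hv => exact hv
    | zero => exact ⟨fun x => by rw [map_zero, smul_zero], fun _ => rfl⟩
    | add u v _ _ hu hv => exact ⟨fun x => by
        rw [map_add, hu.1, hv.1, smul_add], fun a => by
        rw [Pi.add_apply, hu.2 a, hv.2 a, add_zero]⟩
    | smul c v _ hv => exact ⟨fun x => by
        rw [map_smul, hv.1, smul_comm], fun a => by
        rw [Pi.smul_apply, hv.2 a, smul_zero]⟩
  · intro h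
    exact Submodule.subset_span h

/-- an eigenvector of `σ` is fixed by the projector -/
theorem EgF_fix {V : Type*} [AddCommGroup V] [Module ℂ V] {K : Type} [Field K] [NumberField K]
    (ρ : K →+* Module.End ℂ V) (σ : K →+* ℂ) (v : V) (hv : ∀ x, ρ x v = σ x • v) :
    proj ρ σ v = v := by
  classical
  have h := sum_dbas_bas (L := K) σ σ
  rw [if_pos rfl] at h
  have e : proj ρ σ v = ∑ b, (σ (dbas K b) * σ (bas K b)) • v := by
    unfold Pool.Agent.Helper7.proj
    rw [LinearMap.sum_apply]
    refine Finset.sum_congr rfl fun b _ => ?_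
    rw [LinearMap.smul_apply, hv, smul_smul]
  rw [e, ← Finset.sum_smul, h, one_smul]

/-- the projector on the eigenspace commutes with the Hodge projector -/
theorem EgF_comm (A : AbVar) {K : Type} [Field K] [NumberField K]
    (ρ : K →+* Module.End ℂ A.H1) (σ : K →+* ℂ) (hE : ∀ x, A.IsEnd (ρ x)) :
    hod A * proj ρ σ = proj ρ σ * hod A := by
  have hcx : ∀ x, hod A * ρ x = ρ x * hod A := fun x =>
    LinearMap.ext fun v => (hod_comm_end A (ρ x) (hE x) v).symm
  unfold Pool.Agent.Helper7.proj
  rw [Finset.mul_sum, Finset.sum_mul]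
  refine Finset.sum_congr rfl fun b _ => ?_
  rw [mul_smul_comm, smul_mul_assoc, hcx]

/-- the projector on the eigenspace in `F^0` -/
theorem EgF_proj (A : AbVar) {K : Type} [Field K] [NumberField K]
    (ρ : K →+* Module.End ℂ A.H1) (σ : K →+* ℂ) (hE : ∀ x, A.IsEnd (ρ x)) :
    LinearMap.IsProj (A.eigenFil (fun x v => ρ x v) σ) ((1 - hod A) * proj ρ σ) := by
  have hcx : ∀ x, hod A * ρ x = ρ x * hod A := fun x =>
    LinearMap.ext fun v => (hod_comm_end A (ρ x) (hE x) v).symm
  have hhh : hod A * hod A = hod A := LinearMap.ext fun v => hod_idem A v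
  refine ⟨fun v => ?_, fun v hv => ?_⟩
  · rw [EgF_mem]
    constructor
    · intro x
      have h1 : ρ x * ((1 - hod A) * proj ρ σ) = σ x • ((1 - hod A) * proj ρ σ) := by
        have h2 : ρ x * (1 - hod A) = (1 - hod A) * ρ x := by
          rw [mul_sub, sub_mul, mul_one, one_mul, hcx]
        rw [← mul_assoc, h2, mul_assoc, rho_mul_proj, mul_smul_comm]
      exact LinearMap.congr_fun h1 v
    · rw [hod_fil]
      have h1 : hod A * ((1 - hod A) * proj ρ σ) = 0 := by
        rw [← mul_assoc, mul_sub, mul_one, hhh, sub_self, zero_mul]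
      exact LinearMap.congr_fun h1 v
  · rw [EgF_mem] at hv
    have h1 := EgF_fix ρ σ v hv.1
    have h2 := (hod_fil A).mp hv.2
    change (1 - hod A) (proj ρ σ v) = v
    rw [h1, LinearMap.sub_apply, h2, sub_zero]
    rfl

/-- [EgF] the dimension of `F^0` in an eigenspace -/
theorem thm_EgF : St_EgF := by
  intro A K _ _ ρ σ hE
  have h := (EgF_proj A ρ σ hE).trace
  rw [sub_mul, one_mul, map_sub] at h
  rw [← h]
  ring

end WPP
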