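import Pool.Agent.WPP.StA

/-!
# WPP: [PrT] traces and adjoints of the projectors
-/

set_option autoImplicit false

namespace WPP

open Pool.Agent.GPC
open Pool.Agent.Helper7
open Module

section

variable {κ : Type} [Fintype κ] [DecidableEq κ] {ϖ : ℂ} (P : PData κ ϖ)

/-- The trace of the adjoint. -/
theorem PrT_trace_adj (T T' : Module.End ℂ (κ → ℂ)) (h : ∀ u v, P.ψ (T u) v = P.ψ u (T' v)) :
    LinearMap.trace ℂ (κ → ℂ) T = LinearMap.trace ℂ (κ → ℂ) T' := by
  have hinj : Function.Injective P.ψ := by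
    intro u u' huu
    have h1 : u - u' = 0 := by
      apply P.hψnd
      intro v
      rw [map_sub, LinearMap.sub_apply, huu, sub_self]
    exact sub_eq_zero.1 h1
  let e : (κ → ℂ) ≃ₗ[ℂ] Module.Dual ℂ (κ → ℂ) :=
    LinearMap.linearEquivOfInjective P.ψ hinj (Subspace.dual_finrank_eq (K := ℂ)
      (V := κ → ℂ)).symm
  have he : ∀ u, e u = P.ψ u := fun u => rfl
  have h1 : e.conj T = Module.Dual.transpose (R := ℂ) T' := by
    apply LinearMap.ext
    intro φ
    obtain ⟨u, rfl⟩ := e.surjective φ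
    apply LinearMap.ext
    intro v
    rw [LinearEquiv.conj_apply_apply, e.symm_apply_apply, he, he, Module.Dual.transpose_apply,
      LinearMap.comp_apply, h]
  rw [← LinearMap.trace_transpose' T', ← h1, LinearMap.trace_conj']

variable {K : Type} [Field K] [NumberField K] (ρ : K →+* Module.End ℂ (κ → ℂ))

omit [Fintype κ] [DecidableEq κ] in
/-- The trace of a projector. -/
theorem PrT_trace (r : ℕ) (lam : Fin r → (κ → ℂ)) (eb : Basis ((K →+* ℂ) × Fin r) ℂ (κ → ℂ))
    (heb : ∀ σ j, eb (σ, j) = proj ρ σ (lam j)) (σ : K →+* ℂ) :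
    LinearMap.trace ℂ (κ → ℂ) (proj ρ σ) = r := by
  classical
  rw [LinearMap.trace_eq_matrix_trace ℂ eb, Matrix.trace]
  have h : ∀ τ j, Matrix.diag (LinearMap.toMatrix eb eb (proj ρ σ)) (τ, j) =
      if σ = τ then (1 : ℂ) else 0 := by
    intro τ j
    rw [Matrix.diag_apply, LinearMap.toMatrix_apply, heb]
    have h1 := congrArg (fun f : Module.End ℂ (κ → ℂ) => f (lam j)) (proj_mul_proj ρ σ τ)
    simp only [Module.End.mul_apply] at h1
    rw [h1]
    split_ifs with h2
    · rw [← heb, Basis.repr_self, Finsupp.single_eq_same]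
    · rw [LinearMap.zero_apply, map_zero, Finsupp.zero_apply]
  rw [Fintype.sum_prod_type]
  simp only [h]
  simp

/-- Adjoint of a projector. -/
theorem PrT_adj (c : K →+* K) (hc : ∀ x, c (c x) = x)
    (h : ∀ x u v, P.ψ (ρ x u) v = P.ψ u (ρ (c x) v)) (σ : K →+* ℂ) (u v : κ → ℂ) :
    P.ψ (proj ρ σ u) v = P.ψ u (proj ρ (σ.comp c) v) := by
  classical
  have h1 : ∑ b, σ (dbas K b) • ρ (c (bas K b)) = proj ρ (σ.comp c) := by
    have h2 : ∀ b, σ (dbas K b) • ρ (c (bas K b)) =
        ∑ τ : K →+* ℂ, (σ (dbas K b) * (τ.comp c) (bas K b)) • proj ρ τ := by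
      intro b
      rw [rho_eq_sum ρ (c (bas K b)), Finset.smul_sum]
      refine Finset.sum_congr rfl (fun τ _ => ?_)
      rw [smul_smul]
      rfl
    simp only [h2]
    rw [Finset.sum_comm]
    simp only [← Finset.sum_smul, sum_dbas_bas]
    have h3 : ∀ τ : K →+* ℂ, (σ = τ.comp c) ↔ (τ = σ.comp c) := by
      intro τ
      constructor
      · intro h4
        apply RingHom.ext
        intro x
        rw [h4, RingHom.comp_apply, RingHom.comp_apply, hc]
      · intro h4
        apply RingHom.ext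
        intro x
        rw [h4, RingHom.comp_apply, RingHom.comp_apply, hc]
    simp only [h3]
    simp
  rw [← h1, proj, LinearMap.sum_apply, LinearMap.sum_apply, map_sum, map_sum, LinearMap.sum_apply]
  refine Finset.sum_congr rfl fun b _ => ?_
  rw [LinearMap.smul_apply, LinearMap.smul_apply, map_smul, map_smul, LinearMap.smul_apply, h]

end

theorem thm_PrT : St_PrT := by
  classical
  intro A K _ _ c ρ hK
  have hQ : ∀ x, ∀ v ∈ (pData A).Q, ρ x v ∈ (pData A).Q := fun x v hv =>
    (isDRB_of_isEnd A (ρ x) (hK.endo x)).rat v hv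
  obtain ⟨r, hr⟩ := exists_rank (pData A) ρ hQ
  obtain ⟨lam, -, -, eb, heb⟩ := exists_Kbasis (pData A) ρ hQ r hr
  have htr : ∀ σ, LinearMap.trace ℂ A.H1 (proj ρ σ) = r := fun σ => PrT_trace ρ r lam eb heb σ
  have hadj : ∀ x u v, (pData A).ψ (ρ x u) v = (pData A).ψ u (ρ (c x) v) := hK.adj
  have hpadj : ∀ (σ : K →+* ℂ) u v, (pData A).ψ (proj ρ σ u) v =
      (pData A).ψ u (proj ρ (σ.comp c) v) := by
    by_cases hg : A.g = 0
    · intro σ u v
      have he : IsEmpty (Fin A.g ⊕ Fin A.g) := by
        rw [hg]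
        infer_instance
      have hs : ∀ w : (Fin A.g ⊕ Fin A.g) → ℂ, w = 0 := fun w => Subsingleton.elim w 0
      rw [hs (proj ρ σ u), hs u, map_zero, LinearMap.zero_apply, LinearMap.zero_apply]
    · have hinj : Function.Injective ρ := by
        have : Nonempty (Fin A.g) := ⟨⟨0, Nat.pos_of_ne_zero hg⟩⟩
        have : Nontrivial A.H1 := by
          show Nontrivial ((Fin A.g ⊕ Fin A.g) → ℂ)
          infer_instance
        exact ρ.injective
      have hc : ∀ x, c (c x) = x := by
        intro x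
        apply hinj
        apply LinearMap.ext
        intro v
        have h0 : ρ (c (c x)) v - ρ x v = 0 := by
          apply (pData A).hψnd
          intro w
          rw [map_sub, LinearMap.sub_apply, hadj x v w, (pData A).hψalt (ρ (c (c x)) v) w,
            ← hadj (c x) w v, ← (pData A).hψalt v (ρ (c x) w), sub_self]
        exact sub_eq_zero.1 h0
      exact fun σ u v => PrT_adj (pData A) ρ c hc hadj σ u v
  refine ⟨r, ?_, htr, hpadj, ?_⟩
  · rw [← card_index, ← hr, mul_comm]
  · intro f μ hf hμ σ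
    have hfp : ∀ (τ : K →+* ℂ) v, f (proj ρ τ v) = proj ρ τ (f v) := by
      intro τ v
      rw [proj, LinearMap.sum_apply, LinearMap.sum_apply, map_sum]
      refine Finset.sum_congr rfl fun b _ => ?_
      rw [LinearMap.smul_apply, LinearMap.smul_apply, map_smul, hf]
    have h1 : LinearMap.trace ℂ A.H1 (f * proj ρ σ) =
        LinearMap.trace ℂ A.H1 (proj ρ (σ.comp c) * (μ • 1 - f)) := by
      refine PrT_trace_adj (pData A) (f * proj ρ σ) (proj ρ (σ.comp c) * (μ • 1 - f)) ?_
      intro u v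
      rw [Module.End.mul_apply, Module.End.mul_apply, ← hpadj]
      have h2 : (pData A).ψ (f (proj ρ σ u)) v + (pData A).ψ (proj ρ σ u) (f v) =
          μ * (pData A).ψ (proj ρ σ u) v := hμ _ _
      rw [LinearMap.sub_apply, LinearMap.smul_apply, Module.End.one_apply, map_sub, map_smul,
        smul_eq_mul, ← h2]
      ring
    rw [h1, mul_sub, map_sub, mul_smul_comm, mul_one, map_smul, htr, smul_eq_mul,
      LinearMap.trace_mul_comm]
    ring

end WPP
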