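import Pool.Agent.WPP.StA

/-!
# WPP, module TorA: one CM field, abelian over the rational numbers
-/

set_option autoImplicit false

namespace WPP

open scoped ComplexConjugate
open GAM (CMF CMT IsExp)
open Pool.Agent.GPC
open Pool.Agent.Helper7 (pData proj lift hod)
open Module

/-- Complex conjugation of a CM field as a ring homomorphism. -/
noncomputable def TorA_c (Z : Type) [Field Z] [NumberField Z] [NumberField.IsCMField Z] :
    Z →+* Z := (NumberField.IsCMField.complexConj Z : Z →+* Z)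

theorem TorA_c_apply (Z : Type) [Field Z] [NumberField Z] [NumberField.IsCMField Z] (x : Z) :
    TorA_c Z x = cmConj Z x := rfl

theorem TorA_comp (Z : Type) [Field Z] [NumberField Z] [NumberField.IsCMField Z] (s : Z →+* ℂ) :
    s.comp (TorA_c Z) = NumberField.ComplexEmbedding.conjugate s := by
  ext x
  exact NumberField.IsCMField.complexEmbedding_complexConj Z s x

theorem TorA_cmf (Z : Type) [Field Z] [NumberField Z] [NumberField.IsCMField Z] :
    CMF Z (TorA_c Z) := by
  refine ⟨fun σ x => (NumberField.IsCMField.complexEmbedding_complexConj Z σ x).symm, ?_⟩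
  intro h
  obtain ⟨s⟩ : Nonempty (Z →+* ℂ) := inferInstance
  refine NumberField.IsTotallyComplex.complexEmbedding_not_isReal s ?_
  rw [NumberField.ComplexEmbedding.isReal_iff, ← TorA_comp Z s, h, RingHom.comp_id]

theorem TorA_isKr (A : AbVar) (Z : Type) [Field Z] [NumberField Z] [NumberField.IsCMField Z]
    (R : Z →+* Module.End ℂ A.H1) (hE : ∀ x, A.IsEnd (R x))
    (hR : ∀ x, A.IsAdjoint (R x) (R (cmConj Z x))) : IsKr A Z (TorA_c Z) R :=
  ⟨hE, fun x u v => hR x u v⟩

/-- Odd functions on the embeddings have sum zero. -/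
theorem TorA_odd (Z : Type) [Field Z] [NumberField Z] (w : (Z →+* ℂ) → ℤ)
    (hw : ∀ s, w (NumberField.ComplexEmbedding.conjugate s) = - w s) : ∑ s, w s = 0 := by
  have h1 : ∑ s, w (NumberField.ComplexEmbedding.conjugate s) = ∑ s, w s := by
    have h2 : Function.Involutive
        (NumberField.ComplexEmbedding.conjugate : (Z →+* ℂ) → (Z →+* ℂ)) := fun s => by
      ext x
      simp
    exact Equiv.sum_comp h2.toPerm w
  have h3 : ∑ s, w (NumberField.ComplexEmbedding.conjugate s) = - ∑ s, w s := by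
    rw [← Finset.sum_neg_distrib]
    exact Finset.sum_congr rfl fun s _ => hw s
  omega

/-- The sum of the weights times the dimensions of `F^0` in the eigenspaces. -/
theorem TorA_eig (hEg : St_EgF) (hPr : St_PrT) (A : AbVar) (Z : Type) [Field Z] [NumberField Z]
    [NumberField.IsCMField Z] (R : Z →+* Module.End ℂ A.H1) (hE : ∀ x, A.IsEnd (R x))
    (hR : ∀ x, A.IsAdjoint (R x) (R (cmConj Z x))) (w : (Z →+* ℂ) → ℤ)
    (hw : ∀ s, w (NumberField.ComplexEmbedding.conjugate s) = - w s) :
    ∑ s, (w s : ℂ) * LinearMap.trace ℂ A.H1 (hod A * proj R s) =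
      - ((∑ s, w s * (finrank ℂ (A.eigenFil (fun x v => R x v) s) : ℤ) : ℤ) : ℂ) := by
  obtain ⟨d, _, hd, _⟩ := hPr A Z (TorA_c Z) R (TorA_isKr A Z R hE hR)
  have h1 : ∀ s, LinearMap.trace ℂ A.H1 (hod A * proj R s) =
      (d : ℂ) - (finrank ℂ (A.eigenFil (fun x v => R x v) s) : ℂ) := fun s => by
    rw [← hd s, ← hEg A Z R s hE]
    ring
  have h2 : (∑ s, (w s : ℂ)) = 0 := by
    have h3 := TorA_odd Z w hw
    exact_mod_cast h3
  rw [Finset.sum_congr rfl fun s _ => by rw [h1 s, mul_sub], Finset.sum_sub_distrib,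
    ← Finset.sum_mul, h2, zero_mul, zero_sub]
  push_cast
  rfl

/-- **TorA**: one CM field, abelian over `ℚ`. -/
theorem thm_TorA (hI : St_TorI) (hEg : St_EgF) (hPr : St_PrT) : St_TorA := by
  intro A Z _ _ _ _ hab R hE hR w hw hN
  have hk := TorA_isKr A Z R hE hR
  have h1 := hI Unit (fun _ => A) (fun _ => Z) (fun _ => TorA_c Z) (fun _ => R)
    (fun t => w t.2) (fun _ => hk) (fun _ => Or.inr (TorA_cmf Z))
    (fun t => by
      show w (t.2.comp (TorA_c Z)) = - w t.2
      rw [TorA_comp]
      exact hw t.2)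
    (fun τ δ => by
      rw [Fintype.sum_sigma, Fintype.sum_unique]
      exact hN τ δ)
    (Or.inl fun _ _ => ⟨inferInstance, hab⟩)
  rw [Fintype.sum_sigma, Fintype.sum_unique] at h1
  have h2 := TorA_eig hEg hPr A Z R hE hR w hw
  have h3 : - ((∑ s, w s * (finrank ℂ (A.eigenFil (fun x v => R x v) s) : ℤ) : ℤ) : ℂ) = 0 :=
    h2.symm.trans h1
  have h4 := neg_eq_zero.1 h3
  exact_mod_cast h4

end WPP
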