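import Pool.Agent.WPP.StA
import Pool.Agent.WPP.BalF

/-!
# WPP: [TorI] families
-/

set_option autoImplicit false

namespace WPP

open GAM (CMF CMT IsExp)
open Pool.Agent.GPC
open Pool.Agent.Helper7 (pData proj lift hod)
open Module

theorem TorI_split {I : Type} [Fintype I] (K : I → Type) [∀ i, Field (K i)]
    [∀ i, NumberField (K i)] (p : I → Prop) [DecidablePred p] (f : Lb K → ℂ)
    (h : ∀ i, ¬ p i → ∀ σ, f ⟨i, σ⟩ = 0) :
    ∑ t, f t = ∑ i : {i // p i}, ∑ σ : K i.1 →+* ℂ, f ⟨i.1, σ⟩ := by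
  rw [Fintype.sum_sigma, ← Fintype.sum_subtype_add_sum_subtype p
    (fun i => ∑ σ : K i →+* ℂ, f ⟨i, σ⟩)]
  rw [add_eq_left]
  exact Finset.sum_eq_zero fun i _ => Finset.sum_eq_zero fun σ _ => h i.1 i.2 σ

theorem thm_TorI (h : St_TorP) : St_TorI := by
  classical
  intro I _ A K _ _ c ρ z hkr hc hz hN halt
  have hP := fun i : {i // CMF (K i) (c i)} => h (A i.1) (K i.1) (c i.1) (ρ i.1) i.2 (hkr i.1)
  choose S fS dS n Φ Ae hcmt hexp hfi hse using hP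
  have hz0 : ∀ i, ¬ CMF (K i) (c i) → ∀ σ, z ⟨i, σ⟩ = 0 := by
    intro i hi σ
    have h1 : c i = RingHom.id (K i) := (hc i).resolve_right hi
    have h2 := hz ⟨i, σ⟩
    have h3 : cj K c ⟨i, σ⟩ = ⟨i, σ⟩ := by
      unfold cj
      simp only [h1, RingHom.comp_id]
    rw [h3] at h2
    linarith
  have hodd : ∀ (τ : ℂ ≃+* ℂ) (i : {i // CMF (K i) (c i)}) (σ : K i.1 →+* ℂ),
      z (tw K τ ⟨i.1, σ.comp (c i.1)⟩) = - z (tw K τ ⟨i.1, σ⟩) := by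
    intro τ i σ
    exact hz (tw K τ ⟨i.1, σ⟩)
  let J := Σ i : {i // CMF (K i) (c i)}, Fin (n i)
  let z' : (Σ j : J, (K j.1.1 →+* ℂ)) → ℤ := fun x => z ⟨x.1.1.1, x.2⟩
  have hfir : ∀ (τ : ℂ ≃+* ℂ) (δ : Derivation ℚ ℂ ℂ),
      ∑ j : J, ∑ s, (z' ⟨j, (τ : ℂ →+* ℂ).comp (Φ j.1 j.2 s)⟩ : ℂ) *
        (2 * Ae j.1 δ j.2 s - δ Real.pi / Real.pi) = 0 := by
    intro τ δ
    have h1 := hN τ δ
    rw [TorI_split K (fun i => CMF (K i) (c i))] at h1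
    · rw [Fintype.sum_sigma]
      rw [← h1]
      refine Finset.sum_congr rfl fun i _ => ?_
      exact (hfi i δ (fun σ => z (tw K τ ⟨i.1, σ⟩)) (hodd τ i)).symm
    · intro i hi σ
      have : z (tw K τ ⟨i, σ⟩) = 0 := hz0 i hi _
      rw [this]
      simp
  have hsec : ∀ (τ : ℂ ≃+* ℂ),
      ((∑ j : J, ∑ s, z' ⟨j, (τ : ℂ →+* ℂ).comp (Φ j.1 j.2 s)⟩ : ℤ) : ℂ) =
      ∑ t : Lb K, (z (tw K τ t) : ℂ) *
        LinearMap.trace ℂ (A t.1).H1 (hod (A t.1) * proj (ρ t.1) t.2) := by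
    intro τ
    rw [TorI_split K (fun i => CMF (K i) (c i))]
    · rw [Fintype.sum_sigma]
      push_cast
      refine Finset.sum_congr rfl fun i _ => ?_
      exact (hse i (fun σ => z (tw K τ ⟨i.1, σ⟩))).symm
    · intro i hi σ
      have : z (tw K τ ⟨i, σ⟩) = 0 := hz0 i hi _
      rw [this]
      simp
  have htw : ∀ t : Lb K, tw K (RingEquiv.refl ℂ) t = t := by
    rintro ⟨i, σ⟩
    rfl
  have hgoal : (∑ j : J, ∑ s, z' ⟨j, Φ j.1 j.2 s⟩ : ℤ) = 0 → ∑ t : Lb K, (z t : ℂ) *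
      LinearMap.trace ℂ (A t.1).H1 (hod (A t.1) * proj (ρ t.1) t.2) = 0 := by
    intro h0
    have h1 := hsec (RingEquiv.refl ℂ)
    simp only [htw] at h1
    rw [← h1]
    have h2 : (∑ j : J, ∑ s, z' ⟨j, ((RingEquiv.refl ℂ : ℂ ≃+* ℂ) : ℂ →+* ℂ).comp
        (Φ j.1 j.2 s)⟩ : ℤ) = ∑ j : J, ∑ s, z' ⟨j, Φ j.1 j.2 s⟩ := rfl
    rw [h2, h0, Int.cast_zero]
  apply hgoal
  rcases halt with hab | ⟨N, hN3⟩
  · exact GAM.All.Bal_ J (fun j => K j.1.1) (fun j => c j.1.1) (fun j => S j.1)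
      (fun j => Φ j.1 j.2) (fun δ j => Ae j.1 δ j.2) z'
      (fun j => (hab j.1.1 j.1.2).1) (fun j => (hab j.1.1 j.1.2).2) (fun j => j.1.2)
      (fun j => hcmt j.1 j.2) (fun δ j => hexp j.1 δ j.2)
      (fun j σ => hz ⟨j.1.1, σ⟩) hfir
  · refine BalF_ J (fun j => K j.1.1) (fun j => c j.1.1) (fun j => S j.1)
      (fun j => Φ j.1 j.2) (fun δ j => Ae j.1 δ j.2) z' N (fun j => j.1.2)
      (fun j => hcmt j.1 j.2) (fun δ j => hexp j.1 δ j.2)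
      (fun j σ => hz ⟨j.1.1, σ⟩) hfir ?_
    intro τ
    obtain ⟨e, he, h1⟩ := hN3 τ
    rw [← hsec τ] at h1
    have h2 : (∑ j : J, ∑ s, z' ⟨j, (τ : ℂ →+* ℂ).comp (Φ j.1 j.2 s)⟩ : ℤ) = e := by
      exact_mod_cast h1
    rcases he with he | he | he
    · exact Or.inl (h2.trans he)
    · exact Or.inr (Or.inl (h2.trans he))
    · exact Or.inr (Or.inr (h2.trans he))

end WPP
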