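import Pool.Agent.WPP.StA

/-!
# WPP: [TorP] the torus part in terms of the projectors
-/

set_option autoImplicit false

namespace WPP

open GAM (CMF CMT IsExp)
open Pool.Agent.GPC
open Pool.Agent.Helper7
open Module

section lin

variable {K : Type} [Field K] [NumberField K]

/-- The coefficients of a function on the embeddings. -/
noncomputable def TorP_ze (z : (K →+* ℂ) → ℂ) (b : Fin (finrank ℚ K)) : ℂ :=
  ∑ σ : K →+* ℂ, z σ * σ (dbas K b)

theorem TorP_z (z : (K →+* ℂ) → ℂ) (τ : K →+* ℂ) :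
    ∑ b, TorP_ze z b * τ (bas K b) = z τ := by
  classical
  have h : ∀ b, TorP_ze z b * τ (bas K b) =
      ∑ σ : K →+* ℂ, z σ * (σ (dbas K b) * τ (bas K b)) := by
    intro b
    unfold TorP_ze
    rw [Finset.sum_mul]
    exact Finset.sum_congr rfl fun σ _ => by ring
  simp only [h]
  rw [Finset.sum_comm]
  simp only [← Finset.mul_sum, sum_dbas_bas]
  simp

theorem TorP_lin {ι : Type} [Fintype ι] (τ : ι → K →+* ℂ) (u : ι → ℂ) (z : (K →+* ℂ) → ℂ) :
    ∑ b, TorP_ze z b * ∑ i, u i * τ i (bas K b) = ∑ i, u i * z (τ i) := by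
  have h : ∀ b, TorP_ze z b * ∑ i, u i * τ i (bas K b) =
      ∑ i, u i * (TorP_ze z b * τ i (bas K b)) := by
    intro b
    rw [Finset.mul_sum]
    exact Finset.sum_congr rfl fun i _ => by ring
  simp only [h]
  rw [Finset.sum_comm]
  simp only [← Finset.mul_sum, TorP_z]

end lin

theorem TorP_cc {K : Type} [Field K] [NumberField K] {c : K →+* K} (hc : CMF K c) (x : K) :
    c (c x) = x := by
  obtain ⟨σ⟩ : Nonempty (K →+* ℂ) := inferInstance
  apply σ.injective
  rw [← hc.cc, ← hc.cc, Complex.conj_conj]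

section hodge

variable (X : AbVar)

/-- The section of `zz`. -/
noncomputable def TorP_s : (Fin X.g → ℂ) →ₗ[ℂ] X.H1 where
  toFun w := Sum.elim w (fun a => bilForm X.q (Pi.single a 1) w)
  map_add' u v := by
    funext s
    rcases s with a | a
    · rfl
    · change bilForm X.q (Pi.single a 1) (u + v) =
        bilForm X.q (Pi.single a 1) u + bilForm X.q (Pi.single a 1) v
      rw [bilForm_add_right]
  map_smul' c v := by
    funext s
    rcases s with a | a
    · rfl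
    · change bilForm X.q (Pi.single a 1) (c • v) = c * bilForm X.q (Pi.single a 1) v
      rw [bilForm_smul_right]

theorem TorP_trace (f : Module.End ℂ X.H1) (M : Matrix (Fin X.g) (Fin X.g) ℂ)
    (h : ∀ v, X.zz (f v) = M.mulVec (X.zz v)) :
    LinearMap.trace ℂ X.H1 (hod X * f) = M.trace := by
  have h1 : hod X * f = TorP_s X ∘ₗ ((X.zz : X.H1 →ₗ[ℂ] (Fin X.g → ℂ)) ∘ₗ f) := by
    apply LinearMap.ext
    intro v
    rfl
  have h2 : ((X.zz : X.H1 →ₗ[ℂ] (Fin X.g → ℂ)) ∘ₗ f) ∘ₗ TorP_s X = Matrix.toLin' M := by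
    apply LinearMap.ext
    intro w
    rw [LinearMap.comp_apply, LinearMap.comp_apply, Matrix.toLin'_apply]
    exact h (TorP_s X w)
  rw [h1, LinearMap.trace_comp_comm', h2, Matrix.trace_toLin'_eq]

end hodge

theorem thm_TorP (h1 : St_TorB) (_h2 : St_PrT) (h3 : St_AnB) : St_TorP := by
  classical
  intro X K _ _ c ρ hc hK
  obtain ⟨S, fS, dS, n, Φ, A, hΦ, hA, hN, hM⟩ := h1 X K c ρ hc hK
  obtain ⟨W, R, -, -, hR⟩ := h3 X K c ρ hK
  have hcc := TorP_cc hc
  have hinv : Function.Involutive (fun σ : K →+* ℂ => σ.comp c) := by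
    intro σ
    apply RingHom.ext
    intro x
    rw [RingHom.comp_apply, RingHom.comp_apply, hcc]
  have hexp : ∀ (T : Module.End ℂ X.H1) (x : K), LinearMap.trace ℂ X.H1 (T * ρ x) =
      ∑ σ : K →+* ℂ, LinearMap.trace ℂ X.H1 (T * proj ρ σ) * σ x := by
    intro T x
    rw [rho_eq_sum ρ x, Finset.mul_sum, map_sum]
    refine Finset.sum_congr rfl fun σ _ => ?_
    rw [mul_smul_comm, map_smul, smul_eq_mul, mul_comm]
  refine ⟨S, fS, dS, n, Φ, A, hΦ, hA, ?_, ?_⟩
  · intro δ z hz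
    set t : (K →+* ℂ) → ℂ := fun σ => LinearMap.trace ℂ X.H1 ((pData X).N δ * proj ρ σ) with ht
    set a : Fin n × S → ℂ := fun p => 2 * A δ p.1 p.2 - δ Real.pi / Real.pi with ha
    have key : ∀ y : K, (∑ σ : K →+* ℂ, t σ * σ y) - ∑ σ : K →+* ℂ, t σ * (σ.comp c) y =
        (∑ p : Fin n × S, a p * Φ p.1 p.2 y) - ∑ p : Fin n × S, a p * ((Φ p.1 p.2).comp c) y := by
      intro y
      have h4 := hN δ (y - c y) (by rw [map_sub, hcc, neg_sub])
      rw [hexp] at h4
      rw [← Finset.sum_sub_distrib, ← Finset.sum_sub_distrib]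
      have h5 : ∀ σ : K →+* ℂ, t σ * σ y - t σ * (σ.comp c) y = t σ * σ (y - c y) := by
        intro σ
        rw [RingHom.comp_apply, map_sub]
        ring
      have h6 : ∀ p : Fin n × S, a p * Φ p.1 p.2 y - a p * ((Φ p.1 p.2).comp c) y =
          Φ p.1 p.2 (y - c y) * a p := by
        intro p
        rw [RingHom.comp_apply, map_sub]
        ring
      simp only [h5, h6]
      rw [Fintype.sum_prod_type]
      exact h4
    have h7 : ∑ b, TorP_ze (fun σ => (z σ : ℂ)) b *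
        ((∑ σ : K →+* ℂ, t σ * σ (bas K b)) - ∑ σ : K →+* ℂ, t σ * (σ.comp c) (bas K b)) =
        ∑ b, TorP_ze (fun σ => (z σ : ℂ)) b *
        ((∑ p : Fin n × S, a p * Φ p.1 p.2 (bas K b)) -
          ∑ p : Fin n × S, a p * ((Φ p.1 p.2).comp c) (bas K b)) :=
      Finset.sum_congr rfl fun b _ => by rw [key]
    simp only [mul_sub, Finset.sum_sub_distrib] at h7
    rw [TorP_lin (fun σ => σ), TorP_lin (fun σ : K →+* ℂ => σ.comp c),
      TorP_lin (fun p : Fin n × S => Φ p.1 p.2),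
      TorP_lin (fun p : Fin n × S => (Φ p.1 p.2).comp c)] at h7
    simp only [hz, Int.cast_neg, mul_neg, Finset.sum_neg_distrib, sub_neg_eq_add] at h7
    have h8 : ∑ σ, (z σ : ℂ) * LinearMap.trace ℂ X.H1 ((pData X).N δ * proj ρ σ) =
        ∑ σ, t σ * (z σ : ℂ) := Finset.sum_congr rfl fun σ _ => mul_comm _ _
    have h9 : ∑ j, ∑ s, (z (Φ j s) : ℂ) * (2 * A δ j s - δ Real.pi / Real.pi) =
        ∑ p : Fin n × S, a p * (z (Φ p.1 p.2) : ℂ) := by
      rw [Fintype.sum_prod_type]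
      exact Finset.sum_congr rfl fun j _ => Finset.sum_congr rfl fun s _ => mul_comm _ _
    rw [h8, h9]
    linear_combination h7 / 2
  · intro z
    have key : ∀ y : K, ∑ σ : K →+* ℂ, LinearMap.trace ℂ X.H1 (hod X * proj ρ σ) * σ y =
        ∑ p : Fin n × S, (1 : ℂ) * Φ p.1 p.2 y := by
      intro y
      rw [← hexp, TorP_trace X (ρ y) (R y) (hR y), hM y (R y) (hR y), Fintype.sum_prod_type]
      simp only [one_mul]
    have h7 : ∑ b, TorP_ze (fun σ => (z σ : ℂ)) b *
        (∑ σ : K →+* ℂ, LinearMap.trace ℂ X.H1 (hod X * proj ρ σ) * σ (bas K b)) =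
        ∑ b, TorP_ze (fun σ => (z σ : ℂ)) b * ∑ p : Fin n × S, (1 : ℂ) * Φ p.1 p.2 (bas K b) :=
      Finset.sum_congr rfl fun b _ => by rw [key]
    rw [TorP_lin (fun σ => σ), TorP_lin (fun p : Fin n × S => Φ p.1 p.2)] at h7
    have h8 : ∑ σ, (z σ : ℂ) * LinearMap.trace ℂ X.H1 (hod X * proj ρ σ) =
        ∑ σ, LinearMap.trace ℂ X.H1 (hod X * proj ρ σ) * (z σ : ℂ) :=
      Finset.sum_congr rfl fun σ _ => mul_comm _ _
    rw [h8, h7, Fintype.sum_prod_type]
    simp only [one_mul]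

end WPP
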