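import Pool.Agent.WPP.StZ
import Pool.Agent.Helper71.AF.Cases
import Pool.Agent.Helper39.AF.Mor

/-!
# WPP / AlgZ: the decomposition for a Rosati stable commutative algebra of endomorphisms
-/

set_option autoImplicit false

namespace WPP

open scoped ComplexConjugate
open Pool.Agent.GPC
open Pool.Agent.Helper7 (pData)
open Pool.Agent.Helper71.AF (ndr exists_eig eig_conj)
open Pool.Agent.Helper39.AF (isMor_comp isEnd_iff sub_abVar)

private theorem AlgZ_nf (R : Type) [CommRing R] [Algebra ℚ R] [FiniteDimensional ℚ R] (K : Type)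
    [Field K] (f : R →+* K) (hf : Function.Surjective f) : NumberField K := by
  have hc : CharZero K := charZero_of_injective_ringHom (f.comp (algebraMap ℚ R)).injective
  have h1 : FiniteDimensional ℚ K := by
    have h2 : Function.Surjective f.toRatAlgHom.toLinearMap := hf
    exact Module.Finite.of_surjective _ h2
  exact ⟨⟩

private theorem AlgZ_comm (R : Type) [CommRing R] [Algebra ℚ R] [FiniteDimensional ℚ R]
    (hred : ∀ z : R, z * z = 0 → z = 0) :
    ∃ (I : Type) (_ : Fintype I) (K : I → Type) (_ : ∀ i, Field (K i))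
      (_ : ∀ i, NumberField (K i)) (φ : ∀ i, R →+* K i) (ε : ∀ i, K i → R),
      (∀ i x, φ i (ε i x) = x) ∧ (∀ i x y, ε i (x + y) = ε i x + ε i y) ∧
      (∀ i x y, ε i (x * y) = ε i x * ε i y) ∧ (∀ i j, i ≠ j → ∀ x y, ε i x * ε j y = 0) ∧
      ∑ i, ε i 1 = 1 ∧ ∀ i z, z * ε i 1 = ε i (φ i z) := by
  classical
  have hart : IsArtinianRing R := IsArtinianRing.of_finite ℚ R
  have hR : IsReduced R := by
    rw [isReduced_iff_pow_one_lt 2 one_lt_two]
    intro x hx
    exact hred x (by rw [← sq, hx])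
  let e := IsArtinianRing.equivPi R
  have hfin : Fintype (MaximalSpectrum R) := Fintype.ofFinite _
  let F : ∀ i : MaximalSpectrum R, Field (R ⧸ i.asIdeal) := fun i => Ideal.Quotient.field i.asIdeal
  let f : ∀ i : MaximalSpectrum R, R →+* R ⧸ i.asIdeal := fun i => Ideal.Quotient.mk i.asIdeal
  have hN : ∀ i : MaximalSpectrum R, NumberField (R ⧸ i.asIdeal) := by
    intro i
    exact AlgZ_nf R (R ⧸ i.asIdeal) (f i) fun x => Ideal.Quotient.mk_surjective x
  refine ⟨MaximalSpectrum R, hfin, fun i => R ⧸ i.asIdeal, F, hN, f,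
    fun i x => e.symm (Pi.single i x), ?_, ?_, ?_, ?_, ?_, ?_⟩
  · intro i x
    have h1 := congrFun (e.apply_symm_apply (Pi.single i x)) i
    rw [Pi.single_eq_same] at h1
    exact h1
  · intro i x y
    rw [← map_add, ← Pi.single_add]
  · intro i x y
    rw [← map_mul, ← Pi.single_mul]
  · intro i j hij x y
    rw [← map_mul]
    have h1 : (Pi.single i x * Pi.single j y : ∀ i : MaximalSpectrum R, R ⧸ i.asIdeal) = 0 := by
      funext k
      rw [Pi.mul_apply, Pi.zero_apply]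
      by_cases hk : k = i
      · subst hk
        rw [Pi.single_eq_of_ne hij, mul_zero]
      · rw [Pi.single_eq_of_ne hk, zero_mul]
    rw [h1, map_zero]
  · rw [← map_sum]
    have h1 : (∑ i, Pi.single i 1 : ∀ i : MaximalSpectrum R, R ⧸ i.asIdeal) = 1 :=
      Finset.univ_sum_single 1
    rw [h1, map_one]
  · intro i z
    apply e.injective
    rw [map_mul, e.apply_symm_apply, e.apply_symm_apply]
    funext k
    rw [Pi.mul_apply]
    by_cases hk : k = i
    · subst hk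
      rw [Pi.single_eq_same, Pi.single_eq_same, mul_one]
      rfl
    · rw [Pi.single_eq_of_ne hk, Pi.single_eq_of_ne hk, mul_zero]

private theorem AlgZ_ring (R : Type) [Ring R] [Algebra ℚ R] [FiniteDimensional ℚ R]
    (hcomm : ∀ x y : R, x * y = y * x) (hred : ∀ z : R, z * z = 0 → z = 0) :
    ∃ (I : Type) (_ : Fintype I) (K : I → Type) (_ : ∀ i, Field (K i))
      (_ : ∀ i, NumberField (K i)) (φ : ∀ i, R →ₐ[ℚ] K i) (ε : ∀ i, K i → R),
      (∀ i x, φ i (ε i x) = x) ∧ (∀ i x y, ε i (x + y) = ε i x + ε i y) ∧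
      (∀ i x y, ε i (x * y) = ε i x * ε i y) ∧ (∀ i j, i ≠ j → ∀ x y, ε i x * ε j y = 0) ∧
      ∑ i, ε i 1 = 1 ∧ ∀ i z, z * ε i 1 = ε i (φ i z) := by
  let _ : CommRing R := { ‹Ring R› with mul_comm := hcomm }
  obtain ⟨I, h1, K, h2, h3, φ, ε, h⟩ := AlgZ_comm R hred
  exact ⟨I, h1, K, h2, h3, fun i => (φ i).toRatAlgHom, ε, h⟩

theorem thm_AlgZ (hIdZ : St_IdZ) : St_AlgZ := by
  intro X Z hZ
  obtain ⟨hred, hsym, hfd, s, hs⟩ := hIdZ X Z hZ
  obtain ⟨I, hI, K, hK, hNF, φ, ε, hφε, hadd, hmul, horth, hsum, hφ⟩ := AlgZ_ring Z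
    (fun x y => Subtype.ext (hZ.comm x x.2 y y.2))
    (fun z hz => Subtype.ext (hred z z.2 (congrArg Subtype.val hz)))
  have hE : ∀ z : Z, X.IsEnd (z : Module.End ℂ X.H1) := fun z => hZ.endo z z.2
  have hMul : ∀ (z w : Z) v, ((z * w : Z) : Module.End ℂ X.H1) v =
      (z : Module.End ℂ X.H1) ((w : Module.End ℂ X.H1) v) := fun _ _ _ => rfl
  have hid : ∀ i v, ((ε i 1 : Z) : Module.End ℂ X.H1) (((ε i 1 : Z) : Module.End ℂ X.H1) v) =
      ((ε i 1 : Z) : Module.End ℂ X.H1) v := by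
    intro i v
    rw [← hMul, ← hmul, mul_one]
  have hadj : ∀ i, X.IsAdjoint ((ε i 1 : Z) : Module.End ℂ X.H1)
      ((ε i 1 : Z) : Module.End ℂ X.H1) := by
    intro i
    refine hsym _ (ε i 1).2 ?_
    have h1 := congrArg Subtype.val (hmul i 1 1)
    rw [mul_one] at h1
    exact h1.symm
  have hsub := fun i => sub_abVar X ((ε i 1 : Z) : Module.End ℂ X.H1) (hE _) (hid i) (hadj i)
  choose A ι₀ π₀ hι₀ hπ₀ hπι₀ hιπ₀ hpol₀ using hsub
  obtain ⟨ι, hι⟩ : ∃ ι : ∀ i, (A i).H1 →ₗ[ℂ] X.H1, ∀ i v, ι i v = ι₀ i v :=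
    ⟨fun i => (hι₀ i).linear.mk' _, fun _ _ => rfl⟩
  obtain ⟨π, hπ⟩ : ∃ π : ∀ i, X.H1 →ₗ[ℂ] (A i).H1, ∀ i v, π i v = π₀ i v :=
    ⟨fun i => (hπ₀ i).linear.mk' _, fun _ _ => rfl⟩
  have morι : ∀ i, (A i).IsMor X (ι i) := fun i => by
    have h1 : (ι i : (A i).H1 → X.H1) = ι₀ i := funext (hι i)
    rw [h1]
    exact hι₀ i
  have morπ : ∀ i, X.IsMor (A i) (π i) := fun i => by
    have h1 : (π i : X.H1 → (A i).H1) = π₀ i := funext (hπ i)
    rw [h1]
    exact hπ₀ i
  have πι : ∀ i y, π i (ι i y) = y := fun i y => by rw [hι, hπ]; exact hπι₀ i y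
  have ιπ : ∀ i x, ι i (π i x) = ((ε i 1 : Z) : Module.End ℂ X.H1) x := fun i x => by
    rw [hι, hπ]; exact hιπ₀ i x
  have hpol : ∀ i u v, X.pol (ι i u) (ι i v) = (A i).pol u v := fun i u v => by
    rw [hι, hι]; exact hpol₀ i u v
  clear hι hπ hι₀ hπ₀ hπι₀ hιπ₀ hpol₀ ι₀ π₀
  have eι : ∀ i y, ((ε i 1 : Z) : Module.End ℂ X.H1) (ι i y) = ι i y := fun i y => by
    rw [← ιπ, πι]
  have πe : ∀ i v, π i (((ε i 1 : Z) : Module.End ℂ X.H1) v) = π i v := fun i v => by
    rw [← ιπ, πι]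
  have εe : ∀ i x v, ((ε i x : Z) : Module.End ℂ X.H1) (((ε i 1 : Z) : Module.End ℂ X.H1) v) =
      ((ε i x : Z) : Module.End ℂ X.H1) v := fun i x v => by
    rw [← hMul, ← hmul, mul_one]
  have eε : ∀ i x v, ((ε i 1 : Z) : Module.End ℂ X.H1) (((ε i x : Z) : Module.End ℂ X.H1) v) =
      ((ε i x : Z) : Module.End ℂ X.H1) v := fun i x v => by
    rw [← hMul, ← hmul, one_mul]
  obtain ⟨ρ, hρ⟩ : ∃ ρ : ∀ i, K i →+* Module.End ℂ (A i).H1, ∀ i x v,
      ρ i x v = π i (((ε i x : Z) : Module.End ℂ X.H1) (ι i v)) := by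
    refine ⟨fun i => RingHom.mk' ({
      toFun := fun x => π i ∘ₗ ((ε i x : Z) : Module.End ℂ X.H1) ∘ₗ ι i
      map_one' := LinearMap.ext fun v => ?_
      map_mul' := fun x y => LinearMap.ext fun v => ?_ } : K i →* Module.End ℂ (A i).H1)
      (fun x y => LinearMap.ext fun v => ?_), fun i x v => rfl⟩
    · show π i (((ε i 1 : Z) : Module.End ℂ X.H1) (ι i v)) = v
      rw [πe, πι]
    · show π i (((ε i (x * y) : Z) : Module.End ℂ X.H1) (ι i v)) =
        π i (((ε i x : Z) : Module.End ℂ X.H1) (ι i (π i (((ε i y : Z) : Module.End ℂ X.H1)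
          (ι i v)))))
      rw [ιπ, eε, ← hMul, ← hmul]
    · show π i (((ε i (x + y) : Z) : Module.End ℂ X.H1) (ι i v)) =
        π i (((ε i x : Z) : Module.End ℂ X.H1) (ι i v)) +
          π i (((ε i y : Z) : Module.End ℂ X.H1) (ι i v))
      rw [hadd, ← map_add]
      rfl
  have huniq : ∀ f g : Module.End ℂ X.H1, (∀ u v, X.pol u (f v) = X.pol u (g v)) →
      ∀ v, f v = g v := by
    intro f g h v
    rw [← sub_eq_zero]
    apply ndr (pData X)
    intro u
    rw [map_sub, sub_eq_zero]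
    exact h u v
  have hse : ∀ i, s (ε i 1) = ε i 1 := by
    intro i
    apply Subtype.ext
    apply LinearMap.ext
    apply huniq
    intro u v
    rw [← hs, hadj i]
  have hsε : ∀ i x, ε i (φ i (s (ε i x))) = s (ε i x) := by
    intro i x
    rw [← hφ, ← hse i, ← map_mul, ← hmul, mul_one]
  obtain ⟨c, hc⟩ : ∃ c : ∀ i, K i →+* K i, ∀ i x, c i x = φ i (s (ε i x)) := by
    refine ⟨fun i => RingHom.mk' ({
      toFun := fun x => φ i (s (ε i x))
      map_one' := ?_
      map_mul' := fun x y => ?_ } : K i →* K i)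
      (fun x y => ?_), fun i x => rfl⟩
    · rw [hse, hφε]
    · rw [hmul, map_mul, map_mul]
    · show φ i (s (ε i (x + y))) = φ i (s (ε i x)) + φ i (s (ε i y))
      rw [hadd, map_add, map_add]
  have hend : ∀ i x, (A i).IsEnd (ρ i x) := by
    intro i x
    rw [isEnd_iff]
    have h1 := isMor_comp (morπ i) (isMor_comp ((isEnd_iff X _).1 (hE (ε i x))) (morι i))
    have h2 : (ρ i x : (A i).H1 → (A i).H1) =
      fun v => π i (((ε i x : Z) : Module.End ℂ X.H1) (ι i v)) := funext (hρ i x)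
    rw [h2]
    exact h1
  have hKadj : ∀ i x u v, (A i).pol (ρ i x u) v = (A i).pol u (ρ i (c i x) v) := by
    intro i x u v
    rw [← hpol, ← hpol, hρ, hρ, ιπ, ιπ, eε, eε, hc, hsε]
    exact hs (ε i x) _ _
  have hpos : ∀ i, (A i).g ≠ 0 := by
    intro i hg
    have h1 : ∀ y : (A i).H1, y = 0 := by
      intro y
      funext j
      rcases j with j | j
      · exact (Fin.cast hg j).elim0
      · exact (Fin.cast hg j).elim0
    have h2 : ε i 1 = 0 := by
      apply Subtype.ext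
      apply LinearMap.ext
      intro v
      rw [← ιπ, h1 (π i v), map_zero]
      rfl
    have h3 := hφε i 1
    rw [h2, map_zero] at h3
    exact zero_ne_one h3
  refine ⟨I, hI, A, K, hK, hNF, c, ρ, φ, ι, π, ⟨fun i x => ⟨ε i x, hφε i x⟩, morι, morπ, πι, ?_,
    ?_, hpol, ?_, ?_, fun i => ⟨ε i 1, fun v => (ιπ i v).symm⟩, hpos,
    fun i => ⟨⟨hend i, hKadj i⟩, ?_⟩⟩⟩
  · intro x
    have h1 := congrArg (fun z : Z => (z : Module.End ℂ X.H1) x) hsum
    have h2 : ((∑ i, ε i 1 : Z) : Module.End ℂ X.H1) x = ∑ i, ι i (π i x) := by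
      rw [AddSubmonoidClass.coe_finsetSum, LinearMap.sum_apply]
      exact Finset.sum_congr rfl fun i _ => (ιπ i x).symm
    rw [← h2]
    exact h1
  · intro i j hij y
    rw [← πe, ← eι j, ← hMul, horth i j hij]
    exact map_zero _
  · intro i j hij u v
    rw [← eι i, hadj i, ← eι j v, ← hMul, horth i j hij]
    exact map_zero ((pData X).ψ (ι i u))
  · intro i z v
    rw [hρ, ιπ, εe, ← hφ, hMul]
    have h1 : (z : Module.End ℂ X.H1) (((ε i 1 : Z) : Module.End ℂ X.H1) v) =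
        ((ε i 1 : Z) : Module.End ℂ X.H1) ((z : Module.End ℂ X.H1) v) := by
      rw [← hMul, ← hMul]
      exact congrArg (fun w : Module.End ℂ X.H1 => w v) (hZ.comm z z.2 _ (ε i 1).2)
    rw [h1, πe]
  · intro σ x
    obtain ⟨v, hv, hev⟩ := exists_eig (A i) (Nat.pos_of_ne_zero (hpos i)) (ρ i) (hend i) σ
    exact (eig_conj (A i) (ρ i x) (ρ i (c i x)) (hend i x) (hend i _) (hKadj i x) hv (hev x)
      (hev _)).symm

end WPP
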