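import Pool.Agent.WPP.StA
import Pool.Agent.Helper71.AF.Cases

/-!
# WPP, module Cen: the centre of the algebra of endomorphisms
-/

set_option autoImplicit false

namespace WPP

open Pool.Agent.GPC
open Pool.Agent.Helper7 (pData isEnd_of_isDRB isDRB_of_isEnd)
open Pool.Agent.Helper71.AF (DD finite_DD field_of_subfield isDomain_DD)
open Module

/-- the centre of a division ring, as a subfield -/
private def Cen_cen (D : Type) [DivisionRing D] : Subfield D where
  carrier := {f | ∀ j, f * j = j * f}
  mul_mem' := by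
    intro a b ha hb j
    have ha' : a * j = j * a := ha j
    have hb' : b * j = j * b := hb j
    rw [mul_assoc, hb', ← mul_assoc, ha', mul_assoc]
  one_mem' := by
    intro j
    rw [one_mul, mul_one]
  add_mem' := by
    intro a b ha hb j
    have ha' : a * j = j * a := ha j
    have hb' : b * j = j * b := hb j
    rw [add_mul, mul_add, ha', hb']
  zero_mem' := by
    intro j
    rw [zero_mul, mul_zero]
  neg_mem' := by
    intro a ha j
    have ha' : a * j = j * a := ha j
    rw [neg_mul, mul_neg, ha']
  inv_mem' := by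
    intro a ha j
    have ha' : a * j = j * a := ha j
    by_cases h0 : a = 0
    · rw [h0, _root_.inv_zero, zero_mul, mul_zero]
    · have h1 : a * (a⁻¹ * j) = a * (j * a⁻¹) := by
        rw [← mul_assoc, mul_inv_cancel₀ h0, one_mul, ← mul_assoc, ha', mul_assoc,
          mul_inv_cancel₀ h0, mul_one]
      exact mul_left_cancel₀ h0 h1

/-- the centre is a number field -/
private theorem Cen_abs {D : Type} [Ring D] [IsDomain D] [Algebra ℚ D]
    [hfin : Module.Finite ℚ D] :
    ∃ (K : Type) (_ : Field K) (_ : NumberField K) (e : K →+* D),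
      ∀ z, (∀ j, z * j = j * z) ↔ ∃ x, e x = z := by
  let _ : DivisionRing D := divisionRingOfFiniteDimensional ℚ D
  have h0 : CharZero D := charZero_of_injective_algebraMap (algebraMap ℚ D).injective
  have h1 : @Module.Finite ℚ D _ _ (DivisionRing.toRatAlgebra : Algebra ℚ D).toModule := by
    have h2 : (DivisionRing.toRatAlgebra : Algebra ℚ D).toModule = Algebra.toModule :=
      Subsingleton.elim _ _
    rw [h2]
    exact hfin
  exact field_of_subfield (Cen_cen D) fun x hx y _ => hx y

/-- **Cen**: the centre. -/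
theorem thm_Cen : St_Cen := by
  intro A hs hg
  have hg' : 0 < A.g := Nat.pos_of_ne_zero hg
  have hdom := isDomain_DD A hg' hs
  have hfin := finite_DD (pData A)
  obtain ⟨K, i1, i2, e, he⟩ := Cen_abs (D := DD (pData A))
  have hmulD : ∀ (f g : DD (pData A)) v, ((f * g : DD (pData A)) : Module.End ℂ A.H1) v =
    (f : Module.End ℂ A.H1) ((g : Module.End ℂ A.H1) v) := fun _ _ _ => rfl
  have hD : ∀ f, A.IsEnd f → ∃ F : DD (pData A), ∀ v, (F : Module.End ℂ A.H1) v = f v := by
    intro f hf
    exact ⟨⟨IsLinearMap.mk' f hf.linear, isDRB_of_isEnd A _ hf⟩, fun _ => rfl⟩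
  refine ⟨K, i1, i2, fun x v => (e x : Module.End ℂ A.H1) v, ?_, ?_, ?_, ?_, ?_, ?_⟩
  · intro v
    show ((e 1 : DD (pData A)) : Module.End ℂ A.H1) v = v
    rw [map_one]
    rfl
  · intro x y v
    show ((e (x * y) : DD (pData A)) : Module.End ℂ A.H1) v = _
    rw [map_mul]
    rfl
  · intro x y v
    show ((e (x + y) : DD (pData A)) : Module.End ℂ A.H1) v = _
    rw [map_add]
    rfl
  · exact fun x => isEnd_of_isDRB A _ (e x).2
  · intro x f hf v
    obtain ⟨F, hF⟩ := hD f hf
    have h1 := (he (e x)).2 ⟨x, rfl⟩ F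
    have h2 := congrArg (fun F : DD (pData A) => (F : Module.End ℂ A.H1) v) h1
    simp only [hmulD, hF] at h2
    exact h2.symm
  · intro h hh hc
    obtain ⟨F, hF⟩ := hD h hh
    obtain ⟨x, hx⟩ := (he F).1 fun j => by
      refine Subtype.ext (LinearMap.ext fun v => ?_)
      rw [hmulD, hmulD, hF, hF]
      exact hc _ (isEnd_of_isDRB A _ j.2) v
    exact ⟨x, fun v => by rw [← hF v, hx]⟩

end WPP
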