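import Pool.Agent.WPP.StA
import Pool.Agent.Helper8.T1.Gal

/-!
# WPP, module FamF: classes in `F^(k-1)`
-/

set_option autoImplicit false

namespace WPP

open scoped ComplexConjugate
open GAM (CMF CMT IsExp)
open Pool.Agent.GPC
open Pool.Agent.Helper7 (pData proj lift hod dbas bas)
open Module

section

variable {I : Type} [Fintype I] [DecidableEq I] {A : I → AbVar} {n : I → ℕ}
  {K : I → Type} [∀ i, Field (K i)] [∀ i, NumberField (K i)] {c : ∀ i, K i →+* K i}
  {ρ : ∀ i, K i →+* Module.End ℂ (A i).H1} {d : I → ℕ} {k : ℕ} {α : Form A n (2 * k)}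

/-- The value of the Hodge projector at a tuple of labels. -/
private noncomputable def nuF (ρ : ∀ i, K i →+* Module.End ℂ (A i).H1) (d : I → ℕ) {m : ℕ}
    (w : Fin m → Lb K) : ℂ :=
  ∑ r, LinearMap.trace ℂ (A (w r).1).H1 (hod (A (w r).1) * proj (ρ (w r).1) (w r).2) / d (w r).1

private theorem FamF_proj {B : AbVar} {L : Type} [Field L] [NumberField L]
    (r : L →+* Module.End ℂ B.H1) (f : Module.End ℂ B.H1) (h : ∀ x v, f (r x v) = r x (f v))
    (σ : L →+* ℂ) (v : B.H1) : f (proj r σ v) = proj r σ (f v) := by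
  unfold Pool.Agent.Helper7.proj
  rw [LinearMap.sum_apply, LinearMap.sum_apply, map_sum]
  refine Finset.sum_congr rfl fun b _ => ?_
  rw [LinearMap.smul_apply, LinearMap.smul_apply, map_smul, h]

/-- The Hodge projector commutes with the projectors to the labels. -/
private theorem FamF_comm (hD : FamD A n K c ρ d k α) (hM : ∀ A : AbVar, IsMTo A (hod A) 1)
    (t : Lb K) (v : H1 A n) :
    lift n (fun i => hod (A i)) (prE A n K ρ t v) =
      prE A n K ρ t (lift n (fun i => hod (A i)) v) := by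
  obtain ⟨i₀, σ⟩ := t
  funext i m
  show hod (A i) ((Function.update (fun _ => 0) i₀ (proj (ρ i₀) σ) :
      ∀ i, Module.End ℂ (A i).H1) i (v i m)) =
    (Function.update (fun _ => 0) i₀ (proj (ρ i₀) σ) : ∀ i, Module.End ℂ (A i).H1) i
      (hod (A i) (v i m))
  by_cases h : i = i₀
  · subst h
    rw [Function.update_self]
    exact FamF_proj (ρ i) (hod (A i))
      (fun x u => (hM (A i)).comm _ ((hD.cen i).kr.endo x) u) σ _
  · rw [Function.update_of_ne h, LinearMap.zero_apply, LinearMap.zero_apply, map_zero]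

private theorem FamF_ge (hScA : St_ScA) (hM : ∀ A : AbVar, IsMTo A (hod A) 1)
    (hD : FamD A n K c ρ d k α)
    (hfil : ∀ v : Fin (2 * k) → H1 A n, (∃ s : Finset (Fin (2 * k)), k + 1 < s.card ∧
      ∀ r ∈ s, IsFil A n (v r)) → α v = 0) (w : Fin (2 * k) → Lb K) (hw : Occ A n K ρ α w) :
    ∃ m : ℕ, nuF ρ d w = m ∧ 2 * k ≤ m + (k + 1) := by
  classical
  obtain ⟨T, u, h1, h2, -, h4⟩ := Pool.Agent.Helper8.T1.count_of_weight
    (α.toMultilinearMap.compLinearMap (fun r => prE A n K ρ (w r)))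
    (lift n (fun i => hod (A i))) (fun v => by
      funext i m
      exact Pool.Agent.Helper7.hod_idem (A i) _) (nuF ρ d w) (fun v => by
      have h5 := hScA I A n K c ρ d k α (fun i => hod (A i)) 1 hD (fun i => hM (A i)) w v
        (fun r => prE A n K ρ (w r) (v r)) (fun r => rfl)
      refine Eq.trans ?_ h5
      refine Finset.sum_congr rfl fun r _ => ?_
      rw [MultilinearMap.compLinearMap_apply]
      show α _ = α _
      congr 1
      funext s
      by_cases hs : s = r
      · subst hs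
        rw [Function.update_self, Function.update_self, FamF_comm hD hM]
      · rw [Function.update_of_ne hs, Function.update_of_ne hs]) hw
  refine ⟨T.card, h2.symm, ?_⟩
  by_contra hcon
  push Not at hcon
  apply h1
  rw [MultilinearMap.compLinearMap_apply]
  refine hfil _ ⟨Tᶜ, ?_, fun r hr i m => ?_⟩
  · rw [Finset.card_compl, Fintype.card_fin]
    omega
  · rw [Finset.mem_compl] at hr
    rw [Pool.Agent.Helper7.hod_fil]
    have h6 : lift n (fun i => hod (A i)) (prE A n K ρ (w r) (u r)) = 0 := by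
      rw [FamF_comm hD hM, h4 r hr, map_zero]
    exact congrFun (congrFun h6 i) m

private theorem FamF_conj (hPrT : St_PrT) (hM : ∀ A : AbVar, IsMTo A (hod A) 1)
    (hD : FamD A n K c ρ d k α) (w : Fin (2 * k) → Lb K) :
    nuF ρ d (fun r => tw K starRingAut (w r)) = 2 * k - nuF ρ d w := by
  have h1 : ∀ t : Lb K, LinearMap.trace ℂ (A (tw K starRingAut t).1).H1
      (hod (A (tw K starRingAut t).1) * proj (ρ (tw K starRingAut t).1) (tw K starRingAut t).2) /
        d (tw K starRingAut t).1 =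
      1 - LinearMap.trace ℂ (A t.1).H1 (hod (A t.1) * proj (ρ t.1) t.2) / d t.1 := by
    rintro ⟨i, σ⟩
    obtain ⟨d', -, p1, -, p3⟩ := hPrT (A i) (K i) (c i) (ρ i) (hD.cen i).kr
    have h2 := p3 (hod (A i)) 1 (fun x v => (hM (A i)).comm _ ((hD.cen i).kr.endo x) v)
      (hM (A i)).pol σ
    have h3 : (d' : ℂ) = d i := (p1 σ).symm.trans (hD.tr i σ)
    have h4 : tw K starRingAut ⟨i, σ⟩ = (⟨i, σ.comp (c i)⟩ : Lb K) := by
      unfold tw
      congr 1
      ext x
      exact (hD.cen i).cc σ x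
    rw [h4]
    have h5 : (d i : ℂ) ≠ 0 := Nat.cast_ne_zero.2 (hD.pos i)
    have h6 : LinearMap.trace ℂ (A i).H1 (hod (A i) * proj (ρ i) (σ.comp (c i))) =
        d i - LinearMap.trace ℂ (A i).H1 (hod (A i) * proj (ρ i) σ) := by
      rw [← h3]
      linear_combination h2
    show LinearMap.trace ℂ (A i).H1 (hod (A i) * proj (ρ i) (σ.comp (c i))) / d i =
      1 - LinearMap.trace ℂ (A i).H1 (hod (A i) * proj (ρ i) σ) / d i
    rw [h6]
    field_simp
  unfold nuF
  rw [Finset.sum_congr rfl fun r _ => h1 (w r), Finset.sum_sub_distrib]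
  simp

end

theorem thm_FamF (h1 : St_PrT) (h2 : St_ScA) (h3 : St_FamR) (h4 : St_GalE) (h5 : St_MTN) :
    St_FamF := by
  intro I _ _ A n K _ _ c ρ d k α hD hfil w hw
  have hM := h5.2.1
  obtain ⟨m, hm, hm1⟩ := FamF_ge h2 hM hD hfil w hw
  have hw' := h4 I A n K ρ k α (fun i x => (hD.cen i).kr.endo x) hD.gr.2 starRingAut w hw
  obtain ⟨m', hm', hm1'⟩ := FamF_ge h2 hM hD hfil _ hw'
  rw [FamF_conj h1 hM hD w, hm] at hm'
  have h6 : ((m' + m : ℕ) : ℂ) = ((2 * k : ℕ) : ℂ) := by
    push_cast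
    rw [← hm']
    ring
  have h7 : m' + m = 2 * k := by exact_mod_cast h6
  have h8 := ((h3 I A n K c ρ d k α hD).2 w hw).2
  refine ⟨2 * (∏ i, (d i : ℤ)) * ((m : ℤ) - k), ?_, ?_⟩
  · have h9 : (m : ℤ) - k = 0 ∨ (m : ℤ) - k = 1 ∨ (m : ℤ) - k = -1 := by omega
    rcases h9 with h9 | h9 | h9
    · left
      rw [h9, mul_zero]
    · right
      left
      rw [h9, mul_one]
    · right
      right
      rw [h9]
      ring
  · rw [h8]
    have h10 : ∑ r, LinearMap.trace ℂ (A (w r).1).H1
        (hod (A (w r).1) * proj (ρ (w r).1) (w r).2) / d (w r).1 = (m : ℂ) := hm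
    rw [h10]
    push_cast
    ring

end WPP
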