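import Pool.Agent.WPP.StA

/-!
# WPP [GalE]: conjugate labels occur together
-/

set_option autoImplicit false

namespace WPP

open scoped ComplexConjugate
open Pool.Agent.GPC
open Pool.Agent.Helper7 (pData proj lift bas dbas FBP FBP_isRatP mem_pData_Q)
open Module

section gal

variable {I : Type} [Fintype I] [DecidableEq I] (A : I → AbVar) (n : I → ℕ)
  {K : I → Type} [∀ i, Field (K i)] [∀ i, NumberField (K i)]
  (ρ : ∀ i, K i →+* Module.End ℂ (A i).H1)

/-- a term of the projector to a label -/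
noncomputable def GalE_T (t : Lb K) (b : Fin (finrank ℚ (K t.1))) : Module.End ℂ (H1 A n) :=
  lift n (Function.update (fun _ => 0) t.1 (ρ t.1 (bas (K t.1) b)))

omit [Fintype I] in
lemma GalE_sum (t : Lb K) (v : H1 A n) :
    prE A n K ρ t v = ∑ b, t.2 (dbas (K t.1) b) • GalE_T A n ρ t b v := by
  funext i m
  rw [Finset.sum_apply, Finset.sum_apply]
  change Function.update (fun i => (0 : Module.End ℂ (A i).H1)) t.1 (proj (ρ t.1) t.2) i (v i m) =
    ∑ b, t.2 (dbas (K t.1) b) •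
      (Function.update (fun i => (0 : Module.End ℂ (A i).H1)) t.1
        (ρ t.1 (bas (K t.1) b)) i (v i m))
  by_cases h : i = t.1
  · subst h
    simp only [Function.update_self]
    unfold Pool.Agent.Helper7.proj
    rw [LinearMap.sum_apply]
    rfl
  · rw [Function.update_of_ne h]
    symm
    refine Finset.sum_eq_zero fun b _ => ?_
    rw [Function.update_of_ne h]
    exact smul_zero _

omit [Fintype I] in
lemma GalE_rat (hE : ∀ i x, (A i).IsEnd (ρ i x)) (t : Lb K) (b : Fin (finrank ℚ (K t.1)))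
    (v : H1 A n) (hv : IsBetti A n v) : IsBetti A n (GalE_T A n ρ t b v) := by
  intro i m
  change (A i).IsBetti (Function.update (fun i => (0 : Module.End ℂ (A i).H1)) t.1
        (ρ t.1 (bas (K t.1) b)) i (v i m))
  by_cases h : i = t.1
  · subst h
    rw [Function.update_self]
    exact (hE _ _).betti _ (hv _ _)
  · rw [Function.update_of_ne h, ← mem_pData_Q]
    exact Submodule.zero_mem _

omit [Fintype I] in
lemma GalE_form {k : ℕ} (α : MultilinearMap ℂ (fun _ : Fin (2 * k) => H1 A n) ℂ)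
    (w : Fin (2 * k) → Lb K) (v : Fin (2 * k) → H1 A n) :
    α (fun r => prE A n K ρ (w r) (v r)) =
      ∑ c : (∀ r, Fin (finrank ℚ (K (w r).1))),
        (∏ r, (w r).2 (dbas (K (w r).1) (c r))) *
          α (fun r => GalE_T A n ρ (w r) (c r) (v r)) := by
  classical
  simp only [GalE_sum]
  rw [α.map_sum]
  refine Finset.sum_congr rfl fun c _ => ?_
  rw [α.map_smul_univ, smul_eq_mul]

omit [Fintype I] in
lemma GalE_tau {k : ℕ} (α : MultilinearMap ℂ (fun _ : Fin (2 * k) => H1 A n) ℂ)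
    (hE : ∀ i x, (A i).IsEnd (ρ i x)) {ϖ : ℂ} (hϖ : ϖ ≠ 0)
    (hB : ∀ v : Fin (2 * k) → H1 A n, (∀ r, IsBetti A n (v r)) → ∃ q : ℚ, α v = ϖ ^ k * q)
    (τ : ℂ ≃+* ℂ) (w : Fin (2 * k) → Lb K) (v : Fin (2 * k) → H1 A n)
    (hv : ∀ r, IsBetti A n (v r)) :
    α (fun r => prE A n K ρ (tw K τ (w r)) (v r)) =
      ϖ ^ k * τ (α (fun r => prE A n K ρ (w r) (v r)) / ϖ ^ k) := by
  classical
  have hk : ϖ ^ k ≠ 0 := pow_ne_zero _ hϖ
  have h1 : ∀ c : (∀ r, Fin (finrank ℚ (K (w r).1))), ∃ q : ℚ,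
      α (fun r => GalE_T A n ρ (w r) (c r) (v r)) = ϖ ^ k * q := fun c =>
    hB _ fun r => GalE_rat A n ρ hE (w r) (c r) (v r) (hv r)
  choose q hq using h1
  have h2 : α (fun r => prE A n K ρ (w r) (v r)) / ϖ ^ k =
      ∑ c : (∀ r, Fin (finrank ℚ (K (w r).1))),
        (∏ r, (w r).2 (dbas (K (w r).1) (c r))) * (q c : ℂ) := by
    rw [GalE_form, Finset.sum_div]
    refine Finset.sum_congr rfl fun c _ => ?_
    rw [hq]
    field_simp
  have h3 : α (fun r => prE A n K ρ (tw K τ (w r)) (v r)) =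
      ∑ c : (∀ r, Fin (finrank ℚ (K (w r).1))),
        (∏ r, τ ((w r).2 (dbas (K (w r).1) (c r)))) *
          α (fun r => GalE_T A n ρ (w r) (c r) (v r)) :=
    GalE_form A n ρ α (fun r => tw K τ (w r)) v
  rw [h3, h2, map_sum, Finset.mul_sum]
  refine Finset.sum_congr rfl fun c _ => ?_
  rw [hq, map_mul, map_prod, map_ratCast]
  ring

end gal

/-- [GalE] conjugate labels occur together -/
theorem thm_GalE : St_GalE := by
  intro I _ _ A n K _ _ ρ k α hE hB τ w h
  classical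
  have hϖ : (2 * Real.pi * Complex.I : ℂ) ≠ 0 := Complex.two_pi_I_ne_zero
  have hk : (2 * Real.pi * Complex.I : ℂ) ^ k ≠ 0 := pow_ne_zero _ hϖ
  let a : MultilinearMap ℂ (fun _ : Fin (2 * k) => H1 A n) ℂ := α.toMultilinearMap
  let P := fun i => pData (A i)
  have hrat : ∀ s, IsBetti A n (FBP n P s) := fun s i m =>
    (mem_pData_Q _ _).1 (FBP_isRatP n P s i m)
  obtain ⟨s, hs⟩ : ∃ s : Fin (2 * k) → (Σ i, Σ (_ : Fin (n i)), (P i).ι),
      a (fun r => prE A n K ρ (w r) (FBP n P (s r))) ≠ 0 := by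
    by_contra hcon
    push Not at hcon
    obtain ⟨v, hv⟩ := h
    have h1 : a.compLinearMap (fun r => prE A n K ρ (w r)) = 0 := by
      refine Basis.ext_multilinear (fun _ => FBP n P) fun s => ?_
      exact hcon s
    apply hv
    exact congrArg (fun g => g v) h1
  refine ⟨fun r => FBP n P (s r), ?_⟩
  have h2 := GalE_tau A n ρ a hE hϖ hB τ w _ fun r => hrat (s r)
  change a (fun r => prE A n K ρ (tw K τ (w r)) (FBP n P (s r))) ≠ 0
  rw [h2]
  refine mul_ne_zero hk ?_
  rw [ne_eq, map_eq_zero τ]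
  exact div_ne_zero hs hk

end WPP
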