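import Pool.Agent.WPP.StA
import Pool.Agent.Helper39.AF.Mor

/-!
# WPP, Lft: lifting derivations of the factors to the product
-/

set_option autoImplicit false
set_option linter.unusedSectionVars false

namespace WPP

open Pool.Agent.GPC
open Pool.Agent.Helper7 (pData proj lift hod slotL prL sum_slot lift_slot prL_slotL prL_slotL_ne
  prL_slotL_ne' isBetti_iff)
open Pool.Agent.Helper39.AF (isMor_comp isEnd_iff exists_adj_mor isMor_id)
open Module

section

variable {X : AbVar} {I : Type} [Fintype I] [DecidableEq I] {A : I → AbVar}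
  {n : I → ℕ} {Φ : X.H1 ≃ₗ[ℂ] H1 A n}

/-- the inclusion of a factor -/
private noncomputable def Lft_s (Φ : X.H1 ≃ₗ[ℂ] H1 A n) (i : I) (m : Fin (n i)) :
    (A i).H1 →ₗ[ℂ] X.H1 := 
    Φ.symm.toLinearMap ∘ₗ slotL (κ := fun i => Fin (A i).g ⊕ Fin (A i).g) n i m

/-- the projection to a factor -/
private noncomputable def Lft_q (Φ : X.H1 ≃ₗ[ℂ] H1 A n) (i : I) (m : Fin (n i)) :
    X.H1 →ₗ[ℂ] (A i).H1 := prL n i m ∘ₗ Φ.toLinearMap

private lemma Lft_q_apply (i : I) (m : Fin (n i)) (v : X.H1) : Lft_q Φ i m v = Φ v i m := rfl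

private lemma Lft_s_apply (i : I) (m : Fin (n i)) (u : (A i).H1) :
    Lft_s Φ i m u =
      Φ.symm (slotL (κ := fun i => Fin (A i).g ⊕ Fin (A i).g) n i m u) := rfl

private lemma Lft_zero_betti (B : AbVar) : B.IsBetti 0 := by
  rw [isBetti_iff]
  exact Submodule.zero_mem _

private lemma Lft_zero_deRham (B : AbVar) : B.IsDeRham 0 := fun _ => isAlgebraic_zero

private lemma Lft_zero_fil (B : AbVar) : B.IsFil 0 := fun _ => rfl

/-- the entries of a slot -/
private lemma Lft_slot_entry (i : I) (m : Fin (n i)) (u : (A i).H1)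
    (p : ∀ j, (A j).H1 → Prop) (h0 : ∀ j, p j 0) (h : p i u) (j : I) (m' : Fin (n j)) :
    p j (slotL (κ := fun i => Fin (A i).g ⊕ Fin (A i).g) n i m u j m') := by
  by_cases hj : j = i
  · subst hj
    by_cases hm : m' = m
    · subst hm
      have h1 := prL_slotL (κ := fun i => Fin (A i).g ⊕ Fin (A i).g) n j m' u
      change slotL (κ := fun i => Fin (A i).g ⊕ Fin (A i).g) n j m' u j m' = u at h1
      rw [h1]
      exact h
    · have h1 := prL_slotL_ne (κ := fun i => Fin (A i).g ⊕ Fin (A i).g) n j m m' hm u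
      change slotL (κ := fun i => Fin (A i).g ⊕ Fin (A i).g) n j m u j m' = 0 at h1
      rw [h1]
      exact h0 j
  · have h1 := prL_slotL_ne' (κ := fun i => Fin (A i).g ⊕ Fin (A i).g) n i j m m' hj u
    change slotL (κ := fun i => Fin (A i).g ⊕ Fin (A i).g) n i m u j m' = 0 at h1
    rw [h1]
    exact h0 j

private lemma Lft_s_mor (hΦ : IsIsogeny X A n Φ) (i : I) (m : Fin (n i)) :
    (A i).IsMor X (Lft_s Φ i m) := by
  refine ⟨(Lft_s Φ i m).isLinear, fun v hv => ?_, fun v hv => ?_, fun v hv => ?_⟩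
  · rw [Lft_s_apply, hΦ.betti, Φ.apply_symm_apply]
    exact fun j m' => Lft_slot_entry i m v (fun j w => (A j).IsBetti w)
      (fun j => Lft_zero_betti _) hv j m'
  · rw [Lft_s_apply, hΦ.deRham, Φ.apply_symm_apply]
    exact fun j m' => Lft_slot_entry i m v (fun j w => (A j).IsDeRham w)
      (fun j => Lft_zero_deRham _) hv j m'
  · rw [Lft_s_apply, hΦ.fil, Φ.apply_symm_apply]
    exact fun j m' => Lft_slot_entry i m v (fun j w => (A j).IsFil w)
      (fun j => Lft_zero_fil _) hv j m'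

private lemma Lft_q_mor (hΦ : IsIsogeny X A n Φ) (i : I) (m : Fin (n i)) :
    X.IsMor (A i) (Lft_q Φ i m) :=
  ⟨(Lft_q Φ i m).isLinear, fun v hv => (hΦ.betti v).mp hv i m,
    fun v hv => (hΦ.deRham v).mp hv i m, fun v hv => (hΦ.fil v).mp hv i m⟩

private lemma Lft_qs (i : I) (m : Fin (n i)) (u : (A i).H1) : Lft_q Φ i m (Lft_s Φ i m u) = u := by
  rw [Lft_q_apply, Lft_s_apply, Φ.apply_symm_apply]
  exact prL_slotL (κ := fun i => Fin (A i).g ⊕ Fin (A i).g) n i m u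

private lemma Lft_sum (v : X.H1) : ∑ i, ∑ m, Lft_s Φ i m (Lft_q Φ i m v) = v := by
  have h1 := congrArg Φ.symm (sum_slot (κ := fun i => Fin (A i).g ⊕ Fin (A i).g) n (Φ v))
  rw [Φ.symm_apply_apply, map_sum] at h1
  conv_rhs => rw [← h1]
  refine Finset.sum_congr rfl fun i _ => ?_
  rw [map_sum]
  rfl

/-- two linear maps from `X` which agree on the factors are equal -/
private lemma Lft_ext {V : Type} [AddCommGroup V] [Module ℂ V] (a b : X.H1 →ₗ[ℂ] V)
    (h : ∀ i m u, a (Lft_s Φ i m u) = b (Lft_s Φ i m u)) (v : X.H1) : a v = b v := by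
  rw [← Lft_sum (Φ := Φ) v, map_sum, map_sum]
  refine Finset.sum_congr rfl fun i _ => ?_
  rw [map_sum, map_sum]
  exact Finset.sum_congr rfl fun m _ => h i m _

private lemma Lft_q_ext {u v : X.H1} (h : ∀ i m, Lft_q Φ i m u = Lft_q Φ i m v) : u = v := by
  rw [← Lft_sum (Φ := Φ) u, ← Lft_sum (Φ := Φ) v]
  exact Finset.sum_congr rfl fun i _ => Finset.sum_congr rfl fun m _ => by rw [h i m]

private lemma Lft_qg (f : ∀ i, Module.End ℂ (A i).H1) (i : I) (m : Fin (n i)) (v : X.H1) :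
    Lft_q Φ i m ((Φ.symm.toLinearMap ∘ₗ lift n f ∘ₗ Φ.toLinearMap) v) = f i (Lft_q Φ i m v) := by
  rw [Lft_q_apply, LinearMap.comp_apply, LinearMap.comp_apply, LinearEquiv.coe_coe,
    LinearEquiv.coe_coe, Φ.apply_symm_apply]
  rfl

private lemma Lft_gs (f : ∀ i, Module.End ℂ (A i).H1) (i : I) (m : Fin (n i)) (u : (A i).H1) :
    (Φ.symm.toLinearMap ∘ₗ lift n f ∘ₗ Φ.toLinearMap) (Lft_s Φ i m u) = Lft_s Φ i m (f i u) := by
  rw [Lft_s_apply, Lft_s_apply, LinearMap.comp_apply, LinearMap.comp_apply, LinearEquiv.coe_coe,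
    LinearEquiv.coe_coe, Φ.apply_symm_apply, lift_slot]

/-- the derivations commute with morphisms -/
private lemma Lft_mor (hz : ∀ i j, i ≠ j → ∀ f, (A i).IsMor (A j) f → ∀ v, f v = 0)
    (f : ∀ i, Module.End ℂ (A i).H1) (hf : ∀ i, (A i).IsLefDer (f i)) (i j : I)
    (h : (A i).H1 → (A j).H1) (hh : (A i).IsMor (A j) h) (u : (A i).H1) :
    f j (h u) = h (f i u) := by
  by_cases hij : i = j
  · subst hij
    exact (hf i).comm h ((isEnd_iff _ _).mpr hh) u
  · rw [hz i j hij h hh, hz i j hij h hh, map_zero]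

end

theorem thm_Lft : St_Lft := by
  intro X I _ _ A n Φ hΦ hz f hf
  obtain ⟨g, hg⟩ : ∃ g : X.H1 →ₗ[ℂ] X.H1,
    g = Φ.symm.toLinearMap ∘ₗ lift n f ∘ₗ Φ.toLinearMap := ⟨_, rfl⟩
  rw [← hg]
  have hqg : ∀ i m v, Lft_q Φ i m (g v) = f i (Lft_q Φ i m v) := fun i m v => by
    rw [hg]
    exact Lft_qg f i m v
  have hgs : ∀ i m u, g (Lft_s Φ i m u) = Lft_s Φ i m (f i u) := fun i m u => by
    rw [hg]
    exact Lft_gs f i m u
  have hcomm : ∀ h, X.IsEnd h → ∀ v, g (h v) = h (g v) := by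
    intro h hh v
    have hm := (isEnd_iff _ _).mp hh
    obtain ⟨hl, hhl⟩ : ∃ hl : X.H1 →ₗ[ℂ] X.H1, ∀ v, hl v = h v :=
      ⟨IsLinearMap.mk' h hh.linear, fun _ => rfl⟩
    have key := Lft_ext (Φ := Φ) (g ∘ₗ hl) (hl ∘ₗ g) (fun i m u => ?_) v
    · change g (hl v) = hl (g v) at key
      rw [hhl, hhl] at key
      exact key
    · change g (hl (Lft_s Φ i m u)) = hl (g (Lft_s Φ i m u))
      rw [hgs, hhl, hhl]
      apply Lft_q_ext (Φ := Φ)
      intro j m'
      rw [hqg]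
      exact Lft_mor hz f hf i j (fun u => Lft_q Φ j m' (h (Lft_s Φ i m u)))
        (isMor_comp (Lft_q_mor hΦ j m') (isMor_comp hm (Lft_s_mor hΦ i m))) u
  refine ⟨hcomm, fun u v => ?_, fun h hh hc => ?_⟩
  · -- skew
    have key : ∀ i m a j m' b, (pData X).ψ (g (Lft_s Φ i m a)) (Lft_s Φ j m' b) +
        (pData X).ψ (Lft_s Φ i m a) (g (Lft_s Φ j m' b)) = 0 := by
      intro i m a j m' b
      rw [hgs, hgs]
      obtain ⟨s', hs', hadj⟩ := exists_adj_mor (A i) X _ (Lft_s_mor hΦ i m)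
      have h1 : (pData X).ψ (Lft_s Φ i m (f i a)) (Lft_s Φ j m' b) =
          (A i).pol (f i a) (s' (Lft_s Φ j m' b)) := hadj _ _
      have h2 : (pData X).ψ (Lft_s Φ i m a) (Lft_s Φ j m' (f j b)) =
          (A i).pol a (s' (Lft_s Φ j m' (f j b))) := hadj _ _
      have h3 : f i (s' (Lft_s Φ j m' b)) = s' (Lft_s Φ j m' (f j b)) :=
        Lft_mor hz f hf j i (fun u => s' (Lft_s Φ j m' u))
          (isMor_comp hs' (Lft_s_mor hΦ j m')) b
      rw [h1, h2, ← h3]
      exact (hf i).skew _ _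
    have h1 := Lft_ext (Φ := Φ) ((pData X).ψ.flip v ∘ₗ g + (pData X).ψ.flip (g v)) 0
      (fun i m a => ?_) u
    · exact h1
    · have h2 := Lft_ext (Φ := Φ)
        ((pData X).ψ (g (Lft_s Φ i m a)) + (pData X).ψ (Lft_s Φ i m a) ∘ₗ g) 0
        (fun j m' b => key i m a j m' b) v
      exact h2
  · -- trace
    have h1 : g ∘ₗ h = ∑ i, ∑ m, Lft_s Φ i m ∘ₗ (f i ∘ₗ Lft_q Φ i m ∘ₗ h) := by
      refine LinearMap.ext fun v => ?_
      rw [LinearMap.comp_apply, ← Lft_sum (Φ := Φ) (g (h v)), LinearMap.sum_apply]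
      refine Finset.sum_congr rfl fun i _ => ?_
      rw [LinearMap.sum_apply]
      refine Finset.sum_congr rfl fun m _ => ?_
      rw [hqg]
      rfl
    rw [h1, map_sum]
    refine Finset.sum_eq_zero fun i _ => ?_
    rw [map_sum]
    refine Finset.sum_eq_zero fun m _ => ?_
    rw [LinearMap.trace_comp_comm']
    refine (hf i).trace (Lft_q Φ i m ∘ₗ h ∘ₗ Lft_s Φ i m) ?_ ?_
    · have h2 : (A i).IsMor (A i) (fun v => Lft_q Φ i m (h (Lft_s Φ i m v))) :=
        isMor_comp (Lft_q_mor hΦ i m) (isMor_comp ((isEnd_iff _ _).mp hh) (Lft_s_mor hΦ i m))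
      exact (isEnd_iff _ _).mpr h2
    · intro e he v
      have h2 := hc (fun x => Lft_s Φ i m (e (Lft_q Φ i m x))) ((isEnd_iff _ _).mpr
        (isMor_comp (Lft_s_mor hΦ i m) (isMor_comp ((isEnd_iff _ _).mp he) (Lft_q_mor hΦ i m))))
        (Lft_s Φ i m v)
      have h3 := congrArg (Lft_q Φ i m) h2
      beta_reduce at h3
      rw [Lft_qs, Lft_qs] at h3
      exact h3

end WPP
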