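import Pool.Agent.WPP.StA

/-!
# WPP [MTN]: the comparison operators
-/

set_option autoImplicit false

namespace WPP

open scoped ComplexConjugate
open Pool.Agent.GPC
open Pool.Agent.Helper7 (pData proj lift hod actForm)
open Module

private theorem MTN_polN (A : AbVar) (δ : Derivation ℚ ℂ ℂ) (u v : A.H1) :
    A.pol ((pData A).N δ u) v + A.pol u ((pData A).N δ v) =
      (δ (2 * Real.pi * Complex.I) / (2 * Real.pi * Complex.I)) * A.pol u v :=
  (Pool.Agent.Helper7.isInv_N (I := Unit) (fun _ => 1) (fun _ => pData A) (k := 0) 0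
      Complex.two_pi_I_ne_zero (fun v _ => ⟨0, by simp⟩)
      (fun v _ => by simpa using isAlgebraic_zero) δ).pol () u v

/-- The module MTN. -/
theorem thm_MTN : St_MTN := by
  refine ⟨fun A δ => ⟨fun h hh v => ?_, MTN_polN A δ⟩, fun A => ⟨fun h hh v => ?_, fun u v => ?_⟩,
    ?_⟩
  · obtain ⟨h', rfl⟩ : ∃ h' : A.H1 →ₗ[ℂ] A.H1, h = h' := ⟨IsLinearMap.mk' _ hh.linear, rfl⟩
    exact (Pool.Agent.Helper7.isDRB_of_isEnd A h' hh).comm_N δ v
  · obtain ⟨h', rfl⟩ : ∃ h' : A.H1 →ₗ[ℂ] A.H1, h = h' := ⟨IsLinearMap.mk' _ hh.linear, rfl⟩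
    exact (Pool.Agent.Helper7.hod_comm_end A h' hh v).symm
  · rw [one_mul]
    exact Pool.Agent.Helper7.psi_hod A u v
  · intro I _ _ A n k α hα δ v
    have h := (Pool.Agent.Helper7.isInv_N (I := I) n (fun i => pData (A i)) (k := k)
      α.toMultilinearMap Complex.two_pi_I_ne_zero (fun v hv => hα.2 v fun r i m =>
        (Pool.Agent.Helper7.mem_pData_Q _ _).1 (hv r i m))
      (fun v hv => hα.1 v fun r i m j => hv r i m j) δ).form
    have h2 := congrArg (fun g => g v) h
    simp only [Pool.Agent.Helper7.actForm_apply, _root_.smul_apply, smul_eq_mul] at h2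
    exact h2

end WPP
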