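import Pool.Agent.WPP.StA
import Pool.Agent.Helper71.AF.Cases

/-!
# WPP / Ros: the Rosati involution on the centre

Module of helper99, written by helper2.
-/

set_option autoImplicit false

namespace WPP

open scoped ComplexConjugate
open Pool.Agent.GPC
open Pool.Agent.Helper7 (pData isEnd_of_isDRB isDRB_of_isEnd)
open Pool.Agent.Helper71.AF (exists_adj ndr exists_eig eig_conj)

private theorem Ros_uniq (A : AbVar) (f g : A.H1 → A.H1)
    (h : ∀ u v, (pData A).ψ u (f v) = (pData A).ψ u (g v)) (v : A.H1) : f v = g v := by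
  rw [← sub_eq_zero]
  apply ndr (pData A)
  intro u
  rw [map_sub, h, sub_self]

private theorem Ros_adj (A : AbVar) (f : A.H1 →ₗ[ℂ] A.H1) (hf : A.IsEnd f) :
    ∃ f' : A.H1 →ₗ[ℂ] A.H1, A.IsEnd f' ∧
      (∀ u v, (pData A).ψ (f u) v = (pData A).ψ u (f' v)) ∧
      ∀ u v, (pData A).ψ (f' u) v = (pData A).ψ u (f v) := by
  obtain ⟨f', h1, h2⟩ := exists_adj (pData A) Complex.two_pi_I_ne_zero f (isDRB_of_isEnd A f hf)
  refine ⟨f', isEnd_of_isDRB A f' h1, h2, fun u v => ?_⟩
  rw [(pData A).hψalt, ← h2, (pData A).hψalt, neg_neg]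

theorem thm_Ros : St_Ros := by
  intro A K _ _ ρ hg hC
  obtain ⟨ρ', hρ'⟩ : ∃ ρ' : K →+* Module.End ℂ A.H1, ∀ x v, ρ' x v = ρ x v := by
    refine ⟨RingHom.mk' ({
      toFun := fun x => IsLinearMap.mk' (ρ x) (hC.endo x).linear
      map_one' := LinearMap.ext fun v => hC.one v
      map_mul' := fun x y => LinearMap.ext fun v => hC.mul x y v } : K →* Module.End ℂ A.H1)
      (fun x y => LinearMap.ext fun v => hC.add x y v), fun x v => rfl⟩
  have hend : ∀ x, A.IsEnd (ρ' x) := by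
    intro x
    have : (ρ' x : A.H1 → A.H1) = ρ x := funext fun v => hρ' x v
    rw [this]
    exact hC.endo x
  have hcen : ∀ x f, A.IsEnd f → ∀ v, f (ρ' x v) = ρ' x (f v) := by
    intro x f hf v
    rw [hρ', hρ']
    exact hC.cen x f hf v
  have hc : ∀ x, ∃ y, ∀ u v, (pData A).ψ (ρ' x u) v = (pData A).ψ u (ρ' y v) := by
    intro x
    obtain ⟨f', h1, h2, -⟩ := Ros_adj A (ρ' x) (hend x)
    obtain ⟨y, hy⟩ := hC.all f' h1 (by
      intro f hf v
      obtain ⟨g', h3, -, h5⟩ := Ros_adj A (IsLinearMap.mk' f hf.linear) hf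
      refine Ros_uniq A (fun v => f' (f v)) (fun v => f (f' v)) (fun u v => ?_) v
      have e1 : (pData A).ψ u (f' (f v)) = (pData A).ψ (g' (ρ' x u)) v := by
        rw [← h2, h5]
        rfl
      have e2 : (pData A).ψ u (f (f' v)) = (pData A).ψ (ρ' x (g' u)) v := by
        rw [h2, h5]
        rfl
      rw [e1, e2, hcen x g' h3])
    refine ⟨y, fun u v => ?_⟩
    rw [h2, hy, hρ']
  choose c hc using hc
  have hinj : ∀ x y, (∀ v, ρ' x v = ρ' y v) → x = y := by
    intro x y h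
    obtain ⟨σ⟩ : Nonempty (K →+* ℂ) := inferInstance
    obtain ⟨v, hv, hev⟩ := exists_eig A (Nat.pos_of_ne_zero hg) ρ' hend σ
    apply σ.injective
    have h1 := h v
    rw [hev, hev] at h1
    exact smul_left_injective ℂ hv h1
  have hext : ∀ x y, (∀ u v, (pData A).ψ u (ρ' x v) = (pData A).ψ u (ρ' y v)) → x = y :=
    fun x y h => hinj x y fun v => Ros_uniq A (ρ' x) (ρ' y) h v
  obtain ⟨c', hc'⟩ : ∃ c' : K →+* K, ∀ x, c' x = c x := by
    refine ⟨RingHom.mk' ({
      toFun := c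
      map_one' := hext _ _ fun u v => by rw [← hc, map_one]; rfl
      map_mul' := fun x y => hext _ _ fun u v => by
        rw [← hc, mul_comm (c x), map_mul, map_mul]
        show (pData A).ψ (ρ' x (ρ' y u)) v = (pData A).ψ u (ρ' (c y) (ρ' (c x) v))
        rw [hc, hc] } : K →* K)
      (fun x y => hext _ _ fun u v => by
        show (pData A).ψ u (ρ' (c (x + y)) v) = (pData A).ψ u (ρ' (c x + c y) v)
        rw [← hc, map_add, map_add]
        show (pData A).ψ (ρ' x u + ρ' y u) v = (pData A).ψ u (ρ' (c x) v + ρ' (c y) v)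
        rw [map_add, LinearMap.add_apply, map_add, hc, hc]), fun x => rfl⟩
  refine ⟨c', ρ', hρ', ⟨hend, fun x u v => ?_⟩, hcen, fun h hh hcom => ?_, fun σ x => ?_⟩
  · rw [hc']
    exact hc x u v
  · obtain ⟨x, hx⟩ := hC.all h hh hcom
    exact ⟨x, fun v => by rw [hρ']; exact hx v⟩
  · obtain ⟨v, hv, hev⟩ := exists_eig A (Nat.pos_of_ne_zero hg) ρ' hend σ
    rw [hc']
    exact (eig_conj A (ρ' x) (ρ' (c x)) (hend x) (hend _) (hc x) hv (hev x) (hev _)).symm

end WPP
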