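import Pool.Agent.WPP.StA
import Pool.Agent.WPP.BalF
import Pool.Agent.Helper84.Sign
import Pool.Agent.Helper83.Ball.Types

/-!
# WPP: the torus theorem for one CM field, three values
-/

set_option autoImplicit false
set_option linter.unusedSectionVars false

namespace WPP

open scoped ComplexConjugate
open GAM (CMF CMT IsExp)
open Pool.Agent.GPC (AbVar)
open Module NumberField Pool.Agent.Helper7

section emb

variable {Z : Type} [Field Z] [NumberField Z]

/-- independence of the embeddings -/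
theorem TorF_ind (a b : (Z →+* ℂ) → ℂ)
    (h : ∀ x : Z, ∑ σ : Z →+* ℂ, a σ * σ x = ∑ σ : Z →+* ℂ, b σ * σ x) : a = b := by
  classical
  have key : ∀ (f : (Z →+* ℂ) → ℂ) (τ : Z →+* ℂ),
      ∑ k, τ (dbas Z k) * ∑ σ : Z →+* ℂ, f σ * σ (bas Z k) = f τ := by
    intro f τ
    have h1 : ∀ k, τ (dbas Z k) * ∑ σ : Z →+* ℂ, f σ * σ (bas Z k) =
        ∑ σ : Z →+* ℂ, f σ * (τ (dbas Z k) * σ (bas Z k)) := by
      intro k
      rw [Finset.mul_sum]
      exact Finset.sum_congr rfl fun σ _ => by ring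
    rw [Finset.sum_congr rfl fun k _ => h1 k, Finset.sum_comm]
    simp only [← Finset.mul_sum, sum_dbas_bas]
    simp
  funext τ
  rw [← key a τ, ← key b τ]
  exact Finset.sum_congr rfl fun k _ => by rw [h]

/-- complex conjugation as a permutation of the embeddings -/
noncomputable def TorF_cj (c : Z →+* Z) (hc : ∀ x, c (c x) = x) : (Z →+* ℂ) ≃ (Z →+* ℂ) where
  toFun σ := σ.comp c
  invFun σ := σ.comp c
  left_inv σ := by
    ext x
    simp [hc]
  right_inv σ := by
    ext x
    simp [hc]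

end emb

section fil

variable (A : AbVar)

/-- trace on the quotient by `F^0` -/
noncomputable def TorF_tM : Module.End ℂ A.H1 →ₗ[ℂ] ℂ where
  toFun X := ∑ a, X (Pi.single (Sum.inl a) 1) (Sum.inl a)
  map_add' X Y := by
    rw [← Finset.sum_add_distrib]
    rfl
  map_smul' r X := by
    rw [RingHom.id_apply, smul_eq_mul, Finset.mul_sum]
    rfl

/-- trace on `F^0` -/
noncomputable def TorF_tF : Module.End ℂ A.H1 →ₗ[ℂ] ℂ where
  toFun X := ∑ a, X (Pi.single (Sum.inr a) 1) (Sum.inr a)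
  map_add' X Y := by
    rw [← Finset.sum_add_distrib]
    rfl
  map_smul' r X := by
    rw [RingHom.id_apply, smul_eq_mul, Finset.mul_sum]
    rfl

theorem TorF_pol_l (a : Fin A.g) (v : A.H1) :
    A.pol (Pi.single (Sum.inl a) 1) v = v (Sum.inr a) := by
  unfold AbVar.pol
  rw [Finset.sum_eq_single a]
  · simp
  · intro b _ hb
    simp [hb]
  · simp

theorem TorF_pol_r (a : Fin A.g) (v : A.H1) :
    A.pol (Pi.single (Sum.inr a) 1) v = - v (Sum.inl a) := by
  unfold AbVar.pol
  rw [Finset.sum_eq_single a]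
  · simp
  · intro b _ hb
    simp [hb]
  · simp

theorem TorF_pol_anti (u v : A.H1) : A.pol u v = - A.pol v u := by
  unfold AbVar.pol
  rw [← Finset.sum_neg_distrib]
  exact Finset.sum_congr rfl fun a _ => by ring

theorem TorF_adj (X Y : Module.End ℂ A.H1) (h : ∀ u v, A.pol (X u) v = A.pol u (Y v)) :
    TorF_tM A X = TorF_tF A Y := by
  show ∑ a, X (Pi.single (Sum.inl a) 1) (Sum.inl a) = ∑ a, Y (Pi.single (Sum.inr a) 1) (Sum.inr a)
  refine Finset.sum_congr rfl fun a _ => ?_
  rw [← TorF_pol_l A a (Y (Pi.single (Sum.inr a) 1)), ← h, TorF_pol_anti, TorF_pol_r, neg_neg]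

/-- the inclusion of the coordinates of `F^0` -/
noncomputable def TorF_in : (Fin A.g → ℂ) →ₗ[ℂ] A.H1 where
  toFun x := Sum.elim (fun _ => 0) x
  map_add' x y := by
    funext s
    rcases s with a | a <;> simp
  map_smul' r x := by
    funext s
    rcases s with a | a <;> simp

/-- the projection to these coordinates -/
noncomputable def TorF_pr : A.H1 →ₗ[ℂ] (Fin A.g → ℂ) where
  toFun v a := v (Sum.inr a)
  map_add' _ _ := rfl
  map_smul' _ _ := rfl

theorem TorF_in_fil (x : Fin A.g → ℂ) : A.IsFil (TorF_in A x) := fun _ => rfl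

theorem TorF_in_pr (v : A.H1) (hv : A.IsFil v) : TorF_in A (TorF_pr A v) = v := by
  funext s
  rcases s with a | a
  · exact (hv a).symm
  · rfl

theorem TorF_pr_in (x : Fin A.g → ℂ) : TorF_pr A (TorF_in A x) = x := rfl

theorem TorF_tF_eq (X : Module.End ℂ A.H1) :
    TorF_tF A X = LinearMap.trace ℂ _ ((TorF_pr A).comp (X.comp (TorF_in A))) := by
  rw [LinearMap.trace_eq_matrix_trace ℂ (Pi.basisFun ℂ (Fin A.g))]
  show ∑ a, X (Pi.single (Sum.inr a) 1) (Sum.inr a) = ∑ a, _
  refine Finset.sum_congr rfl fun a _ => ?_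
  rw [Matrix.diag_apply, LinearMap.toMatrix_apply]
  have h1 : TorF_in A ((Pi.basisFun ℂ (Fin A.g)) a) = Pi.single (Sum.inr a) 1 := by
    funext s
    rw [Pi.basisFun_apply]
    rcases s with b | b
    · show (0 : ℂ) = _
      rw [Pi.single_eq_of_ne (by simp)]
    · show (Pi.single a (1 : ℂ) : Fin A.g → ℂ) b = _
      by_cases hb : b = a
      · subst hb
        rw [Pi.single_eq_same, Pi.single_eq_same]
      · rw [Pi.single_eq_of_ne hb, Pi.single_eq_of_ne (by simpa using hb)]
  rw [LinearMap.comp_apply, LinearMap.comp_apply, h1]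
  rfl

variable {Z : Type} [Field Z] [NumberField Z] (R : Z →+* Module.End ℂ A.H1)

theorem TorF_mem (σ : Z →+* ℂ) (v : A.H1) : v ∈ A.eigenFil (fun x v => R x v) σ ↔
    (∀ x, R x v = σ x • v) ∧ A.IsFil v := by
  constructor
  · intro h
    unfold AbVar.eigenFil at h
    induction h using Submodule.span_induction with
    | mem v hv => exact hv
    | zero => exact ⟨fun x => by rw [map_zero, smul_zero], fun _ => rfl⟩
    | add u v _ _ hu hv => exact ⟨fun x => by
        rw [map_add, hu.1, hv.1, smul_add], fun a => by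
        rw [Pi.add_apply, hu.2 a, hv.2 a, add_zero]⟩
    | smul c v _ hv => exact ⟨fun x => by
        rw [map_smul, hv.1, smul_comm], fun a => by
        rw [Pi.smul_apply, hv.2 a, smul_zero]⟩
  · intro h
    exact Submodule.subset_span h

/-- the dimension of the eigenspace in `F^0` is the trace of the projector -/
theorem TorF_dim (hE : ∀ x, A.IsEnd (R x)) (σ : Z →+* ℂ) :
    TorF_tF A (proj R σ) = (finrank ℂ (A.eigenFil (fun x v => R x v) σ) : ℂ) := by
  classical
  obtain ⟨P, hP⟩ : ∃ P, P = (TorF_pr A).comp ((proj R σ).comp (TorF_in A)) := ⟨_, rfl⟩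
  have hfil : ∀ v, A.IsFil v → A.IsFil (proj R σ v) := fun v hv =>
    proj_fil A R hE σ hv
  have hPin : ∀ x, TorF_in A (P x) = proj R σ (TorF_in A x) := by
    intro x
    rw [hP]
    exact TorF_in_pr A _ (hfil _ (TorF_in_fil A x))
  have hpp : ∀ v, proj R σ (proj R σ v) = proj R σ v := by
    intro v
    have h1 := proj_mul_proj R σ σ
    rw [if_pos rfl] at h1
    exact congrArg (fun f : Module.End ℂ A.H1 => f v) h1
  have hR : ∀ x v, R x (proj R σ v) = σ x • proj R σ v := fun x v =>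
    congrArg (fun f : Module.End ℂ A.H1 => f v) (rho_mul_proj R x σ)
  have hfix : ∀ v, (∀ x, R x v = σ x • v) → proj R σ v = v := by
    intro v hv
    rw [proj, LinearMap.sum_apply]
    have h1 : ∀ b, (σ (dbas Z b) • R (bas Z b)) v = (σ (dbas Z b) * σ (bas Z b)) • v := by
      intro b
      rw [LinearMap.smul_apply, hv, smul_smul]
    rw [Finset.sum_congr rfl fun b _ => h1 b, ← Finset.sum_smul, sum_dbas_bas, if_pos rfl,
      one_smul]
  have hproj : LinearMap.IsProj (LinearMap.range P) P := by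
    refine ⟨fun x => ⟨x, rfl⟩, ?_⟩
    rintro _ ⟨x, rfl⟩
    have h1 : TorF_in A (P (P x)) = TorF_in A (P x) := by rw [hPin, hPin, hpp]
    have h2 := congrArg (TorF_pr A) h1
    rwa [TorF_pr_in, TorF_pr_in] at h2
  rw [TorF_tF_eq, ← hP, hproj.trace]
  congr 1
  -- the range is the eigenspace
  have hinj : Function.Injective (TorF_in A) := fun x y h => by
    have h2 := congrArg (TorF_pr A) h
    rwa [TorF_pr_in, TorF_pr_in] at h2
  have hmap : (LinearMap.range P).map (TorF_in A) = A.eigenFil (fun x v => R x v) σ := by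
    apply le_antisymm
    · rintro _ ⟨_, ⟨x, rfl⟩, rfl⟩
      rw [TorF_mem, hPin]
      exact ⟨fun y => hR y _, hfil _ (TorF_in_fil A x)⟩
    · intro v hv
      rw [TorF_mem] at hv
      refine ⟨P (TorF_pr A v), ⟨_, rfl⟩, ?_⟩
      rw [hPin, TorF_in_pr A v hv.2, hfix v hv.1]
  rw [← hmap]
  exact (Submodule.equivMapOfInjective (TorF_in A) hinj (LinearMap.range P)).finrank_eq

end fil

/-- the torus part for one CM field: odd combinations of the traces of the comparison operators and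
of the dimensions of the eigenspaces in `F^0` in terms of the exponents -/
theorem TorF_core (hT : St_TorB) (A : AbVar) (Z : Type) [Field Z]
    [NumberField Z] [IsCMField Z]
    (R : Z →+* Module.End ℂ A.H1) (hE : ∀ x, A.IsEnd (R x))
    (hadj : ∀ x, A.IsAdjoint (R x) (R (Pool.Agent.GPC.cmConj Z x))) :
    ∃ (c₀ : Z →+* Z) (S : Type) (_ : Fintype S) (_ : DecidableEq S) (n : ℕ)
      (Φ : Fin n → S → Z →+* ℂ) (A' : Derivation ℚ ℂ ℂ → Fin n → S → ℂ), CMF Z c₀ ∧
      (∀ σ : Z →+* ℂ, ComplexEmbedding.conjugate σ = σ.comp c₀) ∧ (∀ j, CMT Z c₀ (Φ j)) ∧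
      (∀ δ j, IsExp δ Z (Φ j) (A' δ j)) ∧
      (∀ (c : (Z →+* ℂ) → ℤ), (∀ s, c (s.comp c₀) = - c s) → ∀ D : Derivation ℚ ℂ ℂ,
        ∑ s, (c s : ℂ) * LinearMap.trace ℂ A.H1 ((pData A).N D * proj R s) =
          ∑ j, ∑ s, (c (Φ j s) : ℂ) * (2 * A' D j s - D Real.pi / Real.pi)) ∧
      ∀ (c : (Z →+* ℂ) → ℤ), (∀ s, c (s.comp c₀) = - c s) →
        ∑ s, c s * (finrank ℂ (A.eigenFil (fun x v => R x v) s) : ℤ) = - ∑ j, ∑ s, c (Φ j s) := by
  classical
  obtain ⟨c₀, hc₀⟩ : ∃ c₀ : Z →+* Z, c₀ = (IsCMField.complexConj Z : Z →+* Z) := ⟨_, rfl⟩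
  have hc₀v : ∀ x, c₀ x = Pool.Agent.GPC.cmConj Z x := fun x => by rw [hc₀]; rfl
  have hcc : ∀ (σ : Z →+* ℂ) (x : Z), conj (σ x) = σ (c₀ x) := by
    intro σ x
    rw [hc₀]
    exact (IsCMField.complexEmbedding_complexConj Z σ x).symm
  have hM : CMF Z c₀ := by
    refine ⟨hcc, fun h => ?_⟩
    apply IsCMField.complexConj_ne_one Z
    ext x
    have h1 := congrArg (fun f : Z →+* Z => f x) h
    rw [hc₀] at h1
    exact h1
  have σ₀ : Z →+* ℂ := Classical.choice inferInstance
  have hc2 : ∀ x, c₀ (c₀ x) = x := by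
    intro x
    apply σ₀.injective
    rw [← hcc, ← hcc, Complex.conj_conj]
  have hcj : ∀ σ : Z →+* ℂ, ComplexEmbedding.conjugate σ = σ.comp c₀ := by
    intro σ
    ext x
    exact hcc σ x
  obtain ⟨S, _, _, n, Φ, A', hΦ, hA', htr, hM'⟩ := hT A Z c₀ R hM
    ⟨hE, fun x u v => by
      rw [hc₀v]
      exact hadj x u v⟩
  -- the traces
  let t : Derivation ℚ ℂ ℂ → (Z →+* ℂ) → ℂ := fun D s =>
    LinearMap.trace ℂ A.H1 ((pData A).N D * proj R s)
  let B : Derivation ℚ ℂ ℂ → Fin n → S → ℂ := fun D j s => 2 * A' D j s - D Real.pi / Real.pi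
  let t' : Derivation ℚ ℂ ℂ → (Z →+* ℂ) → ℂ := fun D σ =>
    ∑ j, ∑ s, if Φ j s = σ then B D j s else 0
  have ht1 : ∀ D x, LinearMap.trace ℂ A.H1 ((pData A).N D * R x) = ∑ σ : Z →+* ℂ, t D σ * σ x := by
    intro D x
    rw [rho_eq_sum R x, Finset.mul_sum, map_sum]
    refine Finset.sum_congr rfl fun σ _ => ?_
    rw [mul_smul_comm, map_smul, smul_eq_mul, mul_comm]
  have ht2 : ∀ (D : Derivation ℚ ℂ ℂ) (f : (Z →+* ℂ) → ℂ),
      ∑ σ : Z →+* ℂ, t' D σ * f σ = ∑ j, ∑ s, f (Φ j s) * B D j s := by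
    intro D f
    have h1 : ∀ σ : Z →+* ℂ, t' D σ * f σ =
        ∑ j, ∑ s, if Φ j s = σ then f (Φ j s) * B D j s else 0 := by
      intro σ
      show (∑ j, ∑ s, if Φ j s = σ then B D j s else 0) * f σ = _
      rw [Finset.sum_mul]
      refine Finset.sum_congr rfl fun j _ => ?_
      rw [Finset.sum_mul]
      refine Finset.sum_congr rfl fun s _ => ?_
      by_cases h : Φ j s = σ
      · rw [if_pos h, if_pos h, h, mul_comm]
      · rw [if_neg h, if_neg h, zero_mul]
    rw [Finset.sum_congr rfl fun σ _ => h1 σ, Finset.sum_comm]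
    refine Finset.sum_congr rfl fun j _ => ?_
    rw [Finset.sum_comm]
    refine Finset.sum_congr rfl fun s _ => ?_
    rw [Finset.sum_ite_eq]
    simp
  have hodd : ∀ D (σ : Z →+* ℂ), t D σ - t' D σ = t D (σ.comp c₀) - t' D (σ.comp c₀) := by
    intro D
    have h1 := TorF_ind (fun σ : Z →+* ℂ => t D σ - t' D σ)
      (fun σ => t D (σ.comp c₀) - t' D (σ.comp c₀)) (by
      intro y
      have h2 : ∀ x, c₀ x = -x → ∑ σ : Z →+* ℂ, (t D σ - t' D σ) * σ x = 0 := by
        intro x hx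
        have h3 := htr D x hx
        rw [ht1 D x] at h3
        have h4 := ht2 D (fun σ => σ x)
        simp only [sub_mul, Finset.sum_sub_distrib]
        rw [h3, h4, sub_self]
      have h5 := h2 (y - c₀ y) (by rw [map_sub, hc2]; ring)
      simp only [map_sub, mul_sub, Finset.sum_sub_distrib] at h5
      rw [sub_eq_zero] at h5
      rw [h5]
      refine (Equiv.sum_comp (TorF_cj c₀ hc2) (fun σ : Z →+* ℂ =>
        (t D (σ.comp c₀) - t' D (σ.comp c₀)) * σ y)).symm.trans ?_ |>.symm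
      refine Finset.sum_congr rfl fun σ _ => ?_
      show (t D ((σ.comp c₀).comp c₀) - t' D ((σ.comp c₀).comp c₀)) * (σ.comp c₀) y = _
      have h6 : (σ.comp c₀).comp c₀ = σ := by
        ext x
        simp [hc2]
      rw [h6]
      rfl)
    exact fun σ => congrFun h1 σ
  -- the relations
  have hrel : ∀ (c : (Z →+* ℂ) → ℤ), (∀ s, c (s.comp c₀) = - c s) → ∀ D : Derivation ℚ ℂ ℂ,
      ∑ s, (c s : ℂ) * t D s = ∑ j, ∑ s, (c (Φ j s) : ℂ) * B D j s := by
    intro c hc' D
    rw [← ht2 D (fun σ => (c σ : ℂ))]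
    have h1 : ∑ σ : Z →+* ℂ, (t D σ - t' D σ) * (c σ : ℂ) = 0 := by
      have h2 : ∑ σ : Z →+* ℂ, (t D σ - t' D σ) * (c σ : ℂ) =
          ∑ σ : Z →+* ℂ, -((t D σ - t' D σ) * (c σ : ℂ)) := by
        refine (Equiv.sum_comp (TorF_cj c₀ hc2) (fun σ : Z →+* ℂ =>
          (t D σ - t' D σ) * (c σ : ℂ))).symm.trans ?_
        refine Finset.sum_congr rfl fun σ _ => ?_
        show (t D (σ.comp c₀) - t' D (σ.comp c₀)) * (c (σ.comp c₀) : ℂ) = _
        rw [← hodd, hc']
        push_cast
        ring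
      rw [Finset.sum_neg_distrib] at h2
      exact self_eq_neg.mp h2
    simp only [sub_mul, Finset.sum_sub_distrib] at h1
    rw [← sub_eq_zero.mp h1]
    exact Finset.sum_congr rfl fun σ _ => mul_comm _ _
  -- the multiplicities
  have hq : ∀ σ : Z →+* ℂ, (finrank ℂ (A.eigenFil (fun x v => R x v) (σ.comp c₀)) : ℂ) =
      ∑ j, ∑ s, if Φ j s = σ then (1 : ℂ) else 0 := by
    have h1 := TorF_ind
      (fun σ : Z →+* ℂ => (finrank ℂ (A.eigenFil (fun x v => R x v) (σ.comp c₀)) : ℂ))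
      (fun σ => ∑ j, ∑ s, if Φ j s = σ then (1 : ℂ) else 0) (by
      intro x
      let M : Matrix (Fin A.g) (Fin A.g) ℂ := Matrix.of fun a b =>
        R x (Pi.single (Sum.inl b) 1) (Sum.inl a)
      have hMz : ∀ v, A.zz (R x v) = M.mulVec (A.zz v) := by
        intro v
        have h2 : v = (∑ b, v (Sum.inl b) • (Pi.single (Sum.inl b) 1 : A.H1)) +
            TorF_in A (TorF_pr A v) := by
          funext s
          rw [Pi.add_apply, Finset.sum_apply]
          rcases s with a | a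
          · rw [Finset.sum_eq_single a]
            · rw [Pi.smul_apply, Pi.single_eq_same, smul_eq_mul, mul_one]
              exact (add_zero _).symm
            · intro b _ hb
              rw [Pi.smul_apply, Pi.single_eq_of_ne (by simpa using hb.symm), smul_zero]
            · simp
          · rw [Finset.sum_eq_zero]
            · exact (zero_add _).symm
            · intro b _
              rw [Pi.smul_apply, Pi.single_eq_of_ne (by simp), smul_zero]
        have h3 : A.IsFil (R x (TorF_in A (TorF_pr A v))) :=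
          (hE x).hodge _ (TorF_in_fil A _)
        funext a
        rw [AbVar.zz_apply]
        conv_lhs => rw [h2]
        rw [map_add, map_sum, Pi.add_apply, h3 a, add_zero, Finset.sum_apply]
        show _ = ∑ b, M a b * A.zz v b
        refine Finset.sum_congr rfl fun b _ => ?_
        rw [map_smul, Pi.smul_apply, smul_eq_mul, mul_comm]
        rfl
      have h4 := hM' x M hMz
      have h5 : M.trace = TorF_tM A (R x) := rfl
      rw [h5, TorF_adj A (R x) (R (c₀ x)) (fun u v => by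
        rw [hc₀v]
        exact hadj x u v), rho_eq_sum R (c₀ x), map_sum] at h4
      have h6 : ∀ σ : Z →+* ℂ, TorF_tF A (σ (c₀ x) • proj R σ) =
          (finrank ℂ (A.eigenFil (fun x v => R x v) σ) : ℂ) * (σ.comp c₀) x := by
        intro σ
        rw [map_smul, TorF_dim A R hE σ, smul_eq_mul, mul_comm]
        rfl
      rw [Finset.sum_congr rfl fun σ _ => h6 σ] at h4
      have h7 : ∑ σ : Z →+* ℂ,
          (finrank ℂ (A.eigenFil (fun x v => R x v) (σ.comp c₀)) : ℂ) * σ x =
          ∑ σ : Z →+* ℂ, (finrank ℂ (A.eigenFil (fun x v => R x v) σ) : ℂ) *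
            (σ.comp c₀) x := by
        refine (Equiv.sum_comp (TorF_cj c₀ hc2) (fun σ : Z →+* ℂ =>
          (finrank ℂ (A.eigenFil (fun x v => R x v) (σ.comp c₀)) : ℂ) * σ x)).symm.trans ?_
        refine Finset.sum_congr rfl fun σ _ => ?_
        show (finrank ℂ (A.eigenFil (fun x v => R x v) ((σ.comp c₀).comp c₀)) : ℂ) *
          (σ.comp c₀) x = _
        have h8 : (σ.comp c₀).comp c₀ = σ := by
          ext x
          simp [hc2]
        rw [h8]
      rw [h7, h4]
      have h9 : ∀ σ : Z →+* ℂ, (∑ j, ∑ s, if Φ j s = σ then (1 : ℂ) else 0) * σ x =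
          ∑ j, ∑ s, if Φ j s = σ then Φ j s x else 0 := by
        intro σ
        rw [Finset.sum_mul]
        refine Finset.sum_congr rfl fun j _ => ?_
        rw [Finset.sum_mul]
        refine Finset.sum_congr rfl fun s _ => ?_
        by_cases h : Φ j s = σ
        · rw [if_pos h, if_pos h, h, one_mul]
        · rw [if_neg h, if_neg h, zero_mul]
      symm
      rw [Finset.sum_congr rfl fun σ _ => h9 σ, Finset.sum_comm]
      refine Finset.sum_congr rfl fun j _ => ?_
      rw [Finset.sum_comm]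
      refine Finset.sum_congr rfl fun s _ => ?_
      rw [Finset.sum_ite_eq]
      simp)
    exact fun σ => congrFun h1 σ
  refine ⟨c₀, S, inferInstance, inferInstance, n, Φ, A', hM, hcj, hΦ, hA', hrel, ?_⟩
  intro c hc'
  have hfin : (((∑ s, c s * (finrank ℂ (A.eigenFil (fun x v => R x v) s) : ℤ) : ℤ)) : ℂ) =
      ((- ∑ j, ∑ s, c (Φ j s) : ℤ) : ℂ) := by
    have h1 : ∑ s : Z →+* ℂ, (c s : ℂ) * (finrank ℂ (A.eigenFil (fun x v => R x v) s) : ℂ) =
        ∑ s : Z →+* ℂ, -((c s : ℂ) * ∑ j, ∑ s', if Φ j s' = s then (1 : ℂ) else 0) := by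
      refine (Equiv.sum_comp (TorF_cj c₀ hc2) (fun s : Z →+* ℂ =>
        (c s : ℂ) * (finrank ℂ (A.eigenFil (fun x v => R x v) s) : ℂ))).symm.trans ?_
      refine Finset.sum_congr rfl fun σ _ => ?_
      show (c (σ.comp c₀) : ℂ) *
        (finrank ℂ (A.eigenFil (fun x v => R x v) (σ.comp c₀)) : ℂ) = _
      rw [hq, hc']
      push_cast
      ring
    have h2 : ∀ s : Z →+* ℂ, (c s : ℂ) * (∑ j, ∑ s', if Φ j s' = s then (1 : ℂ) else 0) =
        ∑ j, ∑ s', if Φ j s' = s then (c (Φ j s') : ℂ) else 0 := by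
      intro σ
      rw [Finset.mul_sum]
      refine Finset.sum_congr rfl fun j _ => ?_
      rw [Finset.mul_sum]
      refine Finset.sum_congr rfl fun s _ => ?_
      by_cases h : Φ j s = σ
      · rw [if_pos h, if_pos h, h, mul_one]
      · rw [if_neg h, if_neg h, mul_zero]
    push_cast
    rw [h1, Finset.sum_neg_distrib, Finset.sum_congr rfl fun σ _ => h2 σ, Finset.sum_comm]
    congr 1
    refine Finset.sum_congr rfl fun j _ => ?_
    rw [Finset.sum_comm]
    refine Finset.sum_congr rfl fun s _ => ?_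
    rw [Finset.sum_ite_eq]
    simp
  exact_mod_cast hfin

/-- [TorF] one CM field, three values -/
theorem thm_TorF (hT : St_TorB) (hB : St_BalF) : St_TorF := by
  intro A Z _ _ _ R hE hadj w N hw hN hval
  obtain ⟨c₀, S, _, _, n, Φ, A', hM, hcj, hΦ, hA', h1, h2⟩ := TorF_core hT A Z R hE hadj
  have hw' : ∀ s : Z →+* ℂ, w (s.comp c₀) = - w s := fun s => by rw [← hcj]; exact hw s
  have hbal := hB (Fin n) (fun _ => Z) (fun _ => c₀) (fun _ => S) Φ A' (fun p => w p.2) N
    (fun _ => hM) hΦ (fun D j => hA' D j) (fun _ σ => hw' σ)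
    (fun τ D => by
      have h3 := h1 (fun σ => w ((τ : ℂ →+* ℂ).comp σ)) (fun s => by
        show w ((τ : ℂ →+* ℂ).comp (s.comp c₀)) = _
        rw [← RingHom.comp_assoc, hw']) D
      rw [← h3]
      exact hN τ D)
    (fun τ => by
      obtain ⟨e, he, hs⟩ := hval τ
      have h3 := h2 (fun σ => w ((τ : ℂ →+* ℂ).comp σ)) (fun s => by
        show w ((τ : ℂ →+* ℂ).comp (s.comp c₀)) = _
        rw [← RingHom.comp_assoc, hw'])
      have h4 : ∑ j, ∑ s, w ((τ : ℂ →+* ℂ).comp (Φ j s)) = -e := by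
        rw [← hs, h3, neg_neg]
      show ∑ j, ∑ s, w ((τ : ℂ →+* ℂ).comp (Φ j s)) = 0 ∨
        ∑ j, ∑ s, w ((τ : ℂ →+* ℂ).comp (Φ j s)) = N ∨
        ∑ j, ∑ s, w ((τ : ℂ →+* ℂ).comp (Φ j s)) = -N
      rw [h4]
      rcases he with rfl | rfl | rfl
      · exact Or.inl neg_zero
      · exact Or.inr (Or.inr rfl)
      · exact Or.inr (Or.inl (neg_neg N)))
  rw [h2 w hw', neg_eq_zero]
  exact hbal

end WPP
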