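import Pool.Agent.WPP.StA
import Pool.Agent.Helper84.AutC

/-!
# WPP / WeG: all eigenspaces occur in a Weil class

Written by helper65.
-/

set_option autoImplicit false

namespace WPP

open scoped ComplexConjugate
open GAM (CMF CMT IsExp)
open Pool.Agent.GPC
open Pool.Agent.Helper7 (pData proj lift hod bas dbas)
open Module

private theorem WeG_const {X : AbVar} {K : Type} [Field K] [NumberField K]
    {ρ : K →+* Module.End ℂ X.H1} {k : ℕ} {α : X.Class (2 * k)}
    (hlin : ∀ x v r s, α (Function.update v r (ρ x (v r))) = α (Function.update v s (ρ x (v s))))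
    (s : Fin (2 * k) → (K →+* ℂ)) (v : Fin (2 * k) → X.H1) (r r' : Fin (2 * k))
    (h : s r ≠ s r') : α (fun r => proj ρ (s r) (v r)) = 0 := by
  obtain ⟨x, hx⟩ : ∃ x, s r x ≠ s r' x := by
    by_contra hcon
    push Not at hcon
    exact h (RingHom.ext hcon)
  set w : Fin (2 * k) → X.H1 := fun r => proj ρ (s r) (v r) with hw
  have h1 : ∀ r, ρ x (w r) = s r x • w r := by
    intro r
    have h2 := congrArg (fun g : Module.End ℂ X.H1 => g (v r))
      (Pool.Agent.Helper7.rho_mul_proj ρ x (s r))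
    exact h2
  have h2 := hlin x w r r'
  rw [h1, h1, AlternatingMap.map_update_smul, AlternatingMap.map_update_smul,
    Function.update_eq_self, Function.update_eq_self, smul_eq_mul, smul_eq_mul,
    ← sub_eq_zero, ← sub_mul] at h2
  exact (mul_eq_zero.1 h2).resolve_left (sub_ne_zero.2 hx)

private theorem WeG_sum {X : AbVar} {K : Type} [Field K] [NumberField K]
    {ρ : K →+* Module.End ℂ X.H1} {k : ℕ} {α : X.Class (2 * k)} (hk : k ≠ 0)
    (hlin : ∀ x v r s, α (Function.update v r (ρ x (v r))) = α (Function.update v s (ρ x (v s))))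
    (v : Fin (2 * k) → X.H1) : α v = ∑ σ, α (fun r => proj ρ σ (v r)) := by
  classical
  have h1 : v = fun r => ∑ σ, proj ρ σ (v r) := by
    funext r
    have h2 := congrArg (fun g : Module.End ℂ X.H1 => g (v r)) (Pool.Agent.Helper7.sum_proj ρ)
    simp only [LinearMap.sum_apply, Module.End.one_apply] at h2
    exact h2.symm
  have h3 : α v = ∑ s : Fin (2 * k) → (K →+* ℂ), α (fun r => proj ρ (s r) (v r)) := by
    conv_lhs => rw [h1]
    exact α.toMultilinearMap.map_sum _
  rw [h3]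
  have hinj : Function.Injective fun (σ : K →+* ℂ) => (fun _ : Fin (2 * k) => σ) := by
    intro σ σ' h
    exact congrFun h ⟨0, by omega⟩
  rw [← Finset.sum_image (s := (Finset.univ : Finset (K →+* ℂ)))
    (g := fun (σ : K →+* ℂ) => (fun _ : Fin (2 * k) => σ))
    (f := fun s : Fin (2 * k) → (K →+* ℂ) => α (fun r => proj ρ (s r) (v r)))
    (fun a _ b _ hab => hinj hab)]
  symm
  refine Finset.sum_subset (Finset.subset_univ _) ?_
  intro s _ hs
  by_contra hne
  apply hs
  rw [Finset.mem_image]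
  refine ⟨s ⟨0, by omega⟩, Finset.mem_univ _, ?_⟩
  funext r
  by_contra hr
  exact hne (WeG_const hlin s v _ _ hr)

private theorem WeG_form {X : AbVar} {K : Type} [Field K] [NumberField K]
    (ρ : K →+* Module.End ℂ X.H1) {k : ℕ} (α : X.Class (2 * k)) (σ : K →+* ℂ)
    (v : Fin (2 * k) → X.H1) : α (fun r => proj ρ σ (v r)) =
      ∑ c : Fin (2 * k) → Fin (finrank ℚ K), (∏ r, σ (dbas K (c r))) *
        α (fun r => ρ (bas K (c r)) (v r)) := by
  classical
  have h1 : (fun r => proj ρ σ (v r)) = fun r => ∑ b, σ (dbas K b) • ρ (bas K b) (v r) := by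
    funext r
    unfold proj
    rw [LinearMap.sum_apply]
    rfl
  rw [h1]
  have h2 := α.toMultilinearMap.map_sum (fun r (b : Fin (finrank ℚ K)) =>
    σ (dbas K b) • ρ (bas K b) (v r))
  refine h2.trans (Finset.sum_congr rfl fun c _ => ?_)
  have h3 := α.toMultilinearMap.map_smul_univ (fun r => σ (dbas K (c r)))
    (fun r => ρ (bas K (c r)) (v r))
  exact h3

theorem thm_WeG : St_WeG := by
  intro X K _ _ ρ k α hE hk hlin hrat
  have h1 := WeG_sum hk hlin
  refine ⟨h1, ?_⟩
  intro hne σ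
  have hϖ : (2 * Real.pi * Complex.I) ^ k ≠ (0 : ℂ) :=
    pow_ne_zero _ Complex.two_pi_I_ne_zero
  obtain ⟨v, hv⟩ : ∃ v, α v ≠ 0 := by
    by_contra hcon
    push Not at hcon
    exact hne (AlternatingMap.ext hcon)
  obtain ⟨σ₀, hσ₀⟩ : ∃ σ₀ : K →+* ℂ, α (fun r => proj ρ σ₀ (v r)) ≠ 0 := by
    by_contra hcon
    push Not at hcon
    exact hv ((h1 v).trans (Finset.sum_eq_zero fun σ _ => hcon σ))
  -- a vector of the Betti basis
  obtain ⟨s, hs⟩ : ∃ s : Fin (2 * k) → (pData X).ι,
      α (fun r => proj ρ σ₀ ((pData X).bB (s r))) ≠ 0 := by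
    by_contra hcon
    push Not at hcon
    have h2 : α.toMultilinearMap.compLinearMap (fun _ => proj ρ σ₀) = 0 := by
      refine Basis.ext_multilinear (fun _ => (pData X).bB) fun s => ?_
      exact hcon s
    apply hσ₀
    exact congrArg (fun g => g v) h2
  obtain ⟨τ, hτ⟩ := Pool.Agent.Helper84.exists_aut σ₀ σ
  refine ⟨fun r => (pData X).bB (s r), ?_⟩
  have hb : ∀ r, X.IsBetti ((pData X).bB (s r)) := fun r =>
    (Pool.Agent.Helper7.mem_pData_Q X _).1 ((pData X).basis_mem (s r))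
  have hq : ∀ c : Fin (2 * k) → Fin (finrank ℚ K), ∃ q : ℚ,
      α (fun r => ρ (bas K (c r)) ((pData X).bB (s r))) = (2 * Real.pi * Complex.I) ^ k * q :=
    fun c => hrat _ fun r => (hE (bas K (c r))).betti _ (hb r)
  choose q hq using hq
  have e1 := WeG_form ρ α σ₀ (fun r => (pData X).bB (s r))
  have e2 := WeG_form ρ α σ (fun r => (pData X).bB (s r))
  have e3 : α (fun r => proj ρ σ₀ ((pData X).bB (s r))) = (2 * Real.pi * Complex.I) ^ k *
      ∑ c : Fin (2 * k) → Fin (finrank ℚ K), (∏ r, σ₀ (dbas K (c r))) * (q c : ℂ) := by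
    rw [e1, Finset.mul_sum]
    refine Finset.sum_congr rfl fun c _ => ?_
    rw [hq]
    ring
  have e4 : α (fun r => proj ρ σ ((pData X).bB (s r))) = (2 * Real.pi * Complex.I) ^ k *
      τ (∑ c : Fin (2 * k) → Fin (finrank ℚ K), (∏ r, σ₀ (dbas K (c r))) * (q c : ℂ)) := by
    rw [e2, map_sum, Finset.mul_sum]
    refine Finset.sum_congr rfl fun c _ => ?_
    rw [hq, map_mul, map_prod, map_ratCast]
    have h5 : ∏ r, τ (σ₀ (dbas K (c r))) = ∏ r, σ (dbas K (c r)) :=
      Finset.prod_congr rfl fun r _ => congrArg (fun g : K →+* ℂ => g (dbas K (c r))) hτ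
    rw [h5]
    ring
  rw [e4]
  refine mul_ne_zero hϖ ?_
  rw [ne_eq, map_eq_zero τ]
  intro h6
  apply hs
  rw [e3, h6, mul_zero]

end WPP
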