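import Pool.Agent.WPP.StA
import Pool.Agent.Helper8.D.HodgeStep
import Pool.Agent.Helper8.T1.Gal
import Pool.Agent.Helper83.Ball.Final

/-!
# WPP, module WeM: Weil classes
-/

set_option autoImplicit false
set_option linter.unusedVariables false

namespace WPP

open scoped ComplexConjugate
open GAM (CMF CMT IsExp)
open Pool.Agent.GPC
open Pool.Agent.Helper7 (pData proj lift hod)
open Module

/-- the action as ring homomorphism -/
private noncomputable def WeM_rho {X : AbVar} {K : Type} [Field K] [NumberField K]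
    [NumberField.IsCMField K] {ρ : K → X.H1 → X.H1} (C : X.IsCMAction K ρ) :
    K →+* Module.End ℂ X.H1 where
  toFun x := IsLinearMap.mk' _ (C.endo x).linear
  map_one' := LinearMap.ext C.one
  map_mul' x y := LinearMap.ext (C.mul x y)
  map_add' x y := LinearMap.ext (C.add x y)
  map_zero' := LinearMap.ext fun v => by
    have h := C.add 0 0 v
    rw [add_zero] at h
    have h2 : ρ 0 v = 0 := by
      have h3 := congrArg (fun w => w - ρ 0 v) h
      simp only [sub_self, add_sub_cancel_right] at h3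
      exact h3.symm
    exact h2

/-- complex conjugation as ring homomorphism -/
private noncomputable def WeM_c (K : Type) [Field K] [NumberField K] [NumberField.IsCMField K] :
    K →+* K := (NumberField.IsCMField.complexConj K : K →+* K)

private lemma WeM_c_apply (K : Type) [Field K] [NumberField K] [NumberField.IsCMField K] (x : K) :
    WeM_c K x = cmConj K x := rfl

private lemma WeM_cmf (K : Type) [Field K] [NumberField K] [NumberField.IsCMField K] :
    CMF K (WeM_c K) := by
  refine ⟨fun σ x => ?_, fun h => ?_⟩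
  · exact (NumberField.IsCMField.complexEmbedding_complexConj K σ x).symm
  · have σ : K →+* ℂ := Classical.arbitrary _
    refine NumberField.IsTotallyComplex.complexEmbedding_not_isReal σ ?_
    rw [NumberField.ComplexEmbedding.isReal_iff]
    ext x
    rw [NumberField.ComplexEmbedding.conjugate_coe_eq]
    have h1 := NumberField.IsCMField.complexEmbedding_complexConj K σ x
    have h2 : NumberField.IsCMField.complexConj K x = x := congrArg (fun f => f x) h
    rw [h2] at h1
    exact h1.symm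

private lemma WeM_cc (K : Type) [Field K] [NumberField K] [NumberField.IsCMField K]
    (σ : K →+* ℂ) : (σ.comp (WeM_c K)).comp (WeM_c K) = σ := by
  ext x
  have h := (WeM_cmf K).cc
  rw [RingHom.comp_apply, RingHom.comp_apply, ← h, ← h, Complex.conj_conj]

private lemma WeM_comp_eq (K : Type) [Field K] [NumberField K] [NumberField.IsCMField K]
    (σ σ' : K →+* ℂ) : σ.comp (WeM_c K) = σ' ↔ σ = σ'.comp (WeM_c K) := by
  constructor
  · rintro rfl
    rw [WeM_cc]
  · rintro rfl
    rw [WeM_cc]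

/-- the weight -/
private noncomputable def WeM_z {K : Type} [Field K] [NumberField K] [NumberField.IsCMField K]
    (σ₀ : K →+* ℂ) (σ : K →+* ℂ) : ℤ := by
  classical
  exact (if σ = σ₀ then 1 else 0) - (if σ = σ₀.comp (WeM_c K) then 1 else 0)

private lemma WeM_z_odd {K : Type} [Field K] [NumberField K] [NumberField.IsCMField K]
    (σ₀ σ : K →+* ℂ) : WeM_z σ₀ (σ.comp (WeM_c K)) = - WeM_z σ₀ σ := by
  classical
  unfold WeM_z
  rw [neg_sub]
  congr 1
  · by_cases h : σ = σ₀.comp (WeM_c K)
    · rw [if_pos h, if_pos ((WeM_comp_eq K σ σ₀).mpr h)]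
    · rw [if_neg h, if_neg fun h' => h ((WeM_comp_eq K σ σ₀).mp h')]
  · by_cases h : σ = σ₀
    · rw [if_pos h, if_pos (by rw [h])]
    · rw [if_neg h, if_neg fun h' => h ?_]
      rw [WeM_comp_eq, WeM_cc] at h'
      exact h'

/-- the sum of the weight against a function -/
private lemma WeM_z_sum {K : Type} [Field K] [NumberField K] [NumberField.IsCMField K]
    (σ₀ : K →+* ℂ) (τ : ℂ ≃+* ℂ) (m : (K →+* ℂ) → ℂ) :
    ∑ σ : K →+* ℂ, (WeM_z σ₀ ((τ : ℂ →+* ℂ).comp σ) : ℂ) * m σ =
      m ((τ.symm : ℂ →+* ℂ).comp σ₀) - m (((τ.symm : ℂ →+* ℂ).comp σ₀).comp (WeM_c K)) := by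
  classical
  have h1 : ∀ σ σ' : K →+* ℂ, (τ : ℂ →+* ℂ).comp σ = σ' ↔ σ = (τ.symm : ℂ →+* ℂ).comp σ' := by
    intro σ σ'
    constructor
    · rintro rfl
      ext x
      simp
    · rintro rfl
      ext x
      simp
  have h2 : ∀ σ : K →+* ℂ, (WeM_z σ₀ ((τ : ℂ →+* ℂ).comp σ) : ℂ) * m σ =
      (if σ = (τ.symm : ℂ →+* ℂ).comp σ₀ then m σ else 0) -
      (if σ = ((τ.symm : ℂ →+* ℂ).comp σ₀).comp (WeM_c K) then m σ else 0) := by
    intro σ
    unfold WeM_z
    push_cast
    rw [sub_mul]
    congr 1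
    · by_cases h : σ = (τ.symm : ℂ →+* ℂ).comp σ₀
      · rw [if_pos h, if_pos ((h1 _ _).mpr h), one_mul]
      · rw [if_neg h, if_neg fun h' => h ((h1 _ _).mp h'), zero_mul]
    · by_cases h : σ = ((τ.symm : ℂ →+* ℂ).comp σ₀).comp (WeM_c K)
      · rw [if_pos h, if_pos ((h1 _ _).mpr (by rw [h, RingHom.comp_assoc])), one_mul]
      · rw [if_neg h, if_neg fun h' => h ?_, zero_mul]
        rw [(h1 _ _).mp h', RingHom.comp_assoc]
  rw [Finset.sum_congr rfl fun σ _ => h2 σ, Finset.sum_sub_distrib, Finset.sum_ite_eq',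
    Finset.sum_ite_eq', if_pos (Finset.mem_univ _), if_pos (Finset.mem_univ _)]

private lemma WeM_sum_unit {K : Type} [Field K] [NumberField K] (g : (K →+* ℂ) → ℂ) :
    ∑ t : Lb (fun _ : Unit => K), g t.2 = ∑ σ : K →+* ℂ, g σ := by
  rw [Fintype.sum_sigma]
  simp

private lemma WeM_upd {X : AbVar} {m : ℕ} (p f : Module.End ℂ X.H1)
    (hpf : ∀ v, p (f v) = f (p v)) (v : Fin m → X.H1) (r : Fin m) :
    (fun r' => p (Function.update v r (f (v r)) r')) =
      Function.update (fun r' => p (v r')) r (f (p (v r))) := by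
  funext r'
  by_cases h : r' = r
  · subst h
    rw [Function.update_self, Function.update_self, hpf]
  · rw [Function.update_of_ne h, Function.update_of_ne h]

private lemma WeM_proj_comm {X : AbVar} {K : Type} [Field K] [NumberField K]
    (ρ : K →+* Module.End ℂ X.H1) (f : Module.End ℂ X.H1)
    (hf : ∀ x v, f (ρ x v) = ρ x (f v)) (σ : K →+* ℂ) (v : X.H1) :
    proj ρ σ (f v) = f (proj ρ σ v) := by
  unfold proj
  rw [LinearMap.sum_apply, LinearMap.sum_apply, map_sum]
  refine Finset.sum_congr rfl fun b _ => ?_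
  rw [LinearMap.smul_apply, LinearMap.smul_apply, map_smul, hf]

/-- [WeM] Weil classes. -/
theorem thm_WeM (hPrT : St_PrT) (hTorI : St_TorI) (hWeG : St_WeG) (hWeT : St_WeT)
    (hMTN : St_MTN) : St_WeM := by
  classical
  intro X K _ _ _ ρ k α C W hG hor
  obtain ⟨R, hR⟩ : ∃ R : K →+* Module.End ℂ X.H1, ∀ x v, R x v = ρ x v :=
    ⟨WeM_rho C, fun _ _ => rfl⟩
  -- trivial cases
  by_cases hk : k = 0
  · subst hk
    rintro v ⟨s, hs, -⟩
    exfalso
    have h1 := Finset.card_le_univ s
    rw [Fintype.card_fin] at h1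
    omega
  by_cases hα : α = 0
  · rintro v -
    rw [hα]
    rfl
  have hend : ∀ x, X.IsEnd (R x) := by
    intro x
    have h1 : (R x : X.H1 → X.H1) = ρ x := funext (hR x)
    rw [h1]
    exact C.endo x
  have hcmf := WeM_cmf K
  have hkr : IsKr X K (WeM_c K) R := by
    refine ⟨hend, fun x u v => ?_⟩
    rw [hR, hR]
    exact C.rosati x u v
  have hlin : ∀ x v r s, α (Function.update v r (R x (v r))) =
      α (Function.update v s (R x (v s))) := by
    intro x v r s
    rw [hR, hR]
    exact W.lin x v r s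
  obtain ⟨hsum, hne⟩ := hWeG X K R k α hend hk hlin hG.2
  have hne := hne hα
  obtain ⟨d, hd, htr, -, hadd⟩ := hPrT X K (WeM_c K) R hkr
  have hfin : 0 < finrank ℚ K := finrank_pos
  have hdk : d = 2 * k := by
    have h1 := W.rank
    have h2 : d * finrank ℚ K = 2 * k * finrank ℚ K := by rw [hd, ← h1, mul_assoc]
    exact Nat.eq_of_mul_eq_mul_right hfin h2
  -- the operators commute
  have hcommN : ∀ δ : Derivation ℚ ℂ ℂ, ∀ x v, (pData X).N δ (R x v) = R x ((pData X).N δ v) :=
    fun δ x v => (hMTN.1 X δ).comm (R x) (hend x) v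
  have hcommH : ∀ x v, hod X (R x v) = R x (hod X v) :=
    fun x v => (hMTN.2.1 X).comm (R x) (hend x) v
  -- the action on the parts
  have hpart : ∀ (f : Module.End ℂ X.H1), (∀ x v, f (R x v) = R x (f v)) → ∀ (σ : K →+* ℂ)
      (v : Fin (2 * k) → X.H1),
      ∑ r, α (fun r' => proj R σ (Function.update v r (f (v r)) r')) =
        LinearMap.trace ℂ X.H1 (f * proj R σ) * α (fun r => proj R σ (v r)) := by
    intro f hf σ v
    rw [← hWeT X K (WeM_c K) R k α σ f v (fun r => proj R σ (v r)) hkr W.rank hf fun _ => rfl]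
    refine Finset.sum_congr rfl fun r _ => ?_
    rw [WeM_upd (proj R σ) f (WeM_proj_comm R f hf σ) v r]
  -- the traces of the comparison operators
  have hgr : ∀ (δ : Derivation ℚ ℂ ℂ) (v : Fin (2 * k) → X.H1),
      ∑ r, α (Function.update v r ((pData X).N δ (v r))) =
        k * (δ (2 * Real.pi * Complex.I) / (2 * Real.pi * Complex.I)) * α v := by
    intro δ v
    have h1 := hMTN.2.2 Unit (fun _ => X) (fun _ => 1) k
      (α.compLinearMap (Pool.Agent.Helper83.Ball.one X).symm.toLinearMap)
      (Pool.Agent.Helper39.AF.grothendieck_transfer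
        (Pool.Agent.Helper83.Ball.isIsogeny_one X) α hG) δ
      (fun r => Pool.Agent.Helper83.Ball.one X (v r))
    have h2 : ∀ u : Fin (2 * k) → X.H1,
        (α.compLinearMap (Pool.Agent.Helper83.Ball.one X).symm.toLinearMap)
          (fun r => Pool.Agent.Helper83.Ball.one X (u r)) = α u := fun u => rfl
    rw [h2 v] at h1
    rw [← h1]
    refine Finset.sum_congr rfl fun r _ => ?_
    rw [← h2]
    congr 1
    funext r'
    by_cases h : r' = r
    · subst h
      rw [Function.update_self, Function.update_self]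
      rfl
    · rw [Function.update_of_ne h, Function.update_of_ne h]
  have htrN : ∀ (δ : Derivation ℚ ℂ ℂ) (σ : K →+* ℂ),
      LinearMap.trace ℂ X.H1 ((pData X).N δ * proj R σ) =
        k * (δ (2 * Real.pi * Complex.I) / (2 * Real.pi * Complex.I)) := by
    intro δ σ
    obtain ⟨v, hv⟩ := hne σ
    have h1 := hWeT X K (WeM_c K) R k α σ ((pData X).N δ) v (fun r => proj R σ (v r)) hkr W.rank
      (hcommN δ) fun _ => rfl
    rw [hgr δ] at h1
    exact (mul_right_cancel₀ hv h1).symm
  -- the numbers `m σ`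
  obtain ⟨m, hm⟩ : ∃ m : (K →+* ℂ) → ℂ, ∀ σ, m σ = LinearMap.trace ℂ X.H1 (hod X * proj R σ) :=
    ⟨_, fun _ => rfl⟩
  have hmm : ∀ σ, m σ + m (σ.comp (WeM_c K)) = 2 * k := by
    intro σ
    rw [hm, hm, hadd (hod X) 1 hcommH (hMTN.2.1 X).pol σ, hdk]
    push_cast
    ring
  have hkey : ∀ σ₀ : K →+* ℂ, m σ₀ = k := by
    intro σ₀
    have h1 := hTorI Unit (fun _ => X) (fun _ => K) (fun _ => WeM_c K) (fun _ => R)
      (fun t => WeM_z σ₀ t.2) (fun _ => hkr) (fun _ => Or.inr hcmf)
      (fun t => WeM_z_odd σ₀ t.2) ?_ ?_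
    · have h2 := WeM_z_sum σ₀ (RingEquiv.refl ℂ) m
      have h3 : ∀ σ : K →+* ℂ, ((RingEquiv.refl ℂ : ℂ ≃+* ℂ) : ℂ →+* ℂ).comp σ = σ := by
        intro σ
        ext x
        rfl
      have h4 : (((RingEquiv.refl ℂ).symm : ℂ ≃+* ℂ) : ℂ →+* ℂ).comp σ₀ = σ₀ := by
        ext x
        rfl
      rw [h4] at h2
      simp only [h3] at h2
      have h5 : ∑ t : Lb (fun _ : Unit => K), (WeM_z σ₀ t.2 : ℂ) * m t.2 = 0 := by
        rw [← h1]
        refine Finset.sum_congr rfl fun t _ => ?_
        rw [hm]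
      rw [WeM_sum_unit (fun σ => (WeM_z σ₀ σ : ℂ) * m σ), h2] at h5
      have h6 := hmm σ₀
      linear_combination (1 / 2 : ℂ) * h5 + (1 / 2 : ℂ) * h6
    · intro τ δ
      have h2 := WeM_z_sum σ₀ τ (fun _ => (k * (δ (2 * Real.pi * Complex.I) /
        (2 * Real.pi * Complex.I)) : ℂ))
      rw [sub_self] at h2
      rw [← h2, ← WeM_sum_unit]
      refine Finset.sum_congr rfl fun t _ => ?_
      rw [htrN]
      rfl
    · rcases hor with hfil | hab
      · right
        -- the number of slots
        have hnat : ∀ σ : K →+* ℂ, ∃ a : ℕ, m σ = a ∧ k ≤ a + 1 := by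
          intro σ
          obtain ⟨T, w, hw, hT, hT1, hT0⟩ := Pool.Agent.Helper8.T1.count_of_weight
            ((α.toMultilinearMap).compLinearMap fun _ : Fin (2 * k) => proj R σ) (hod X)
            (Pool.Agent.Helper7.hod_idem X) (m σ) (fun v => by
              rw [hm σ]
              exact hpart (hod X) hcommH σ v) (hne σ)
          refine ⟨T.card, hT.symm, ?_⟩
          by_contra hcon
          apply hw
          refine hfil (fun r => proj R σ (w r)) ⟨Tᶜ, ?_, fun r hr => ?_⟩
          · rw [Finset.card_compl, Fintype.card_fin]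
            omega
          · rw [Pool.Agent.Helper7.hod_fil, ← WeM_proj_comm R (hod X) hcommH σ,
              hT0 r (Finset.mem_compl.mp hr), map_zero]
        refine ⟨2, fun τ => ?_⟩
        have h2 := WeM_z_sum σ₀ τ m
        obtain ⟨σ₁, hσ₁⟩ : ∃ σ₁, σ₁ = (τ.symm : ℂ →+* ℂ).comp σ₀ := ⟨_, rfl⟩
        rw [← hσ₁] at h2
        obtain ⟨a, ha, ha'⟩ := hnat σ₁
        obtain ⟨b, hb, hb'⟩ := hnat (σ₁.comp (WeM_c K))
        have h3 : a + b = 2 * k := by
          have h4 := hmm σ₁
          rw [ha, hb] at h4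
          exact_mod_cast h4
        refine ⟨(a : ℤ) - b, by omega, ?_⟩
        have h5 : ∑ t : Lb (fun _ : Unit => K), (WeM_z σ₀ (tw (fun _ : Unit => K) τ t).2 : ℂ) *
            LinearMap.trace ℂ X.H1 (hod X * proj R t.2) =
            ∑ σ : K →+* ℂ, (WeM_z σ₀ ((τ : ℂ →+* ℂ).comp σ) : ℂ) * m σ := by
          rw [← WeM_sum_unit]
          refine Finset.sum_congr rfl fun t _ => ?_
          rw [hm]
          rfl
        rw [h5, h2, ha, hb]
        push_cast
        ring
      · left
        intro _ _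
        have := hab
        refine ⟨inferInstance, fun g g' => ?_⟩
        exact IsMulCommutative.is_comm.comm g g'
  -- the action of the Hodge projector
  have hact : ∀ v, ∑ r, α (Function.update v r (hod X (v r))) = k * α v := by
    intro v
    rw [hsum v, Finset.mul_sum]
    have h1 : ∀ r, α (Function.update v r (hod X (v r))) =
        ∑ σ, α (fun r' => proj R σ (Function.update v r (hod X (v r)) r')) :=
      fun r => hsum _
    rw [Finset.sum_congr rfl fun r _ => h1 r, Finset.sum_comm]
    refine Finset.sum_congr rfl fun σ _ => ?_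
    rw [hpart (hod X) hcommH σ v, ← hm, hkey]
  rintro v ⟨s, hs, hs'⟩
  refine Pool.Agent.Helper8.zero_of_type α.toMultilinearMap (hod X)
    (Pool.Agent.Helper7.hod_idem X) ?_ v s hs fun r hr => (Pool.Agent.Helper7.hod_fil X).mp (hs' r hr)
  refine MultilinearMap.ext fun v => ?_
  rw [Pool.Agent.Helper7.actForm_apply]
  exact hact v

end WPP
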