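import Pool.Agent.WPP.StA

/-!
# WPP: [WeT] an operator acts on a form of top degree by its trace (helper63)
-/

set_option autoImplicit false

namespace WPP

open Pool.Agent.GPC
open Pool.Agent.Helper7 (proj)
open Module

private theorem WeT_top {W : Type} [AddCommGroup W] [Module ℂ W] {m : ℕ}
    (e : Basis (Fin m) ℂ W) (α : W [⋀^Fin m]→ₗ[ℂ] ℂ) (f : Module.End ℂ W) (w : Fin m → W) :
    ∑ r, α (Function.update w r (f (w r))) = LinearMap.trace ℂ W f * α w := by
  have hα : ∀ u, α u = α e * (e.toMatrix u).det := by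
    intro u
    conv_lhs => rw [AlternatingMap.eq_smul_basis_det e α]
    rfl
  have h1 : ∀ r, (e.toMatrix (Function.update w r (f (w r)))).det =
      ((e.toMatrix w).adjugate * LinearMap.toMatrix e e f * e.toMatrix w) r r := by
    intro r
    rw [Basis.toMatrix_update, ← Matrix.cramer_apply, Matrix.cramer_eq_adjugate_mulVec,
      ← LinearMap.toMatrix_mulVec_repr e e f (w r), Matrix.mulVec_mulVec]
    rfl
  have h2 : ∑ r, ((e.toMatrix w).adjugate * LinearMap.toMatrix e e f * e.toMatrix w) r r =
      (e.toMatrix w).det * LinearMap.trace ℂ W f := by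
    have h3 : ∑ r, ((e.toMatrix w).adjugate * LinearMap.toMatrix e e f * e.toMatrix w) r r =
        Matrix.trace ((e.toMatrix w).adjugate * LinearMap.toMatrix e e f * e.toMatrix w) := rfl
    rw [h3, Matrix.trace_mul_comm, ← Matrix.mul_assoc, Matrix.mul_adjugate, Matrix.smul_mul,
      Matrix.one_mul, Matrix.trace_smul, smul_eq_mul, LinearMap.trace_eq_matrix_trace ℂ e]
  calc ∑ r, α (Function.update w r (f (w r))) =
      ∑ r, α e * ((e.toMatrix w).adjugate * LinearMap.toMatrix e e f * e.toMatrix w) r r := by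
        refine Finset.sum_congr rfl fun r _ => ?_
        rw [hα, h1]
    _ = LinearMap.trace ℂ W f * α w := by
        rw [← Finset.mul_sum, h2, hα w]
        ring

theorem thm_WeT (hPrT : St_PrT) : St_WeT := by
  classical
  intro X K _ _ c ρ k α σ f v v' hX hk hf hv
  obtain ⟨d, hd, htr, -, -⟩ := hPrT X K c ρ hX
  set P : Module.End ℂ X.H1 := proj ρ σ with hP
  have hPP : ∀ x, P (P x) = P x := by
    intro x
    have h := Pool.Agent.Helper7.proj_mul_proj ρ σ σ
    rw [if_pos rfl] at h
    exact LinearMap.congr_fun h x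
  have hfP : ∀ x, f (P x) = P (f x) := by
    intro x
    rw [hP]
    simp only [proj, LinearMap.sum_apply, LinearMap.smul_apply, map_sum, map_smul, hf]
  set W : Submodule ℂ X.H1 := LinearMap.range P with hW
  have hPW : ∀ x ∈ W, P x = x := by
    rintro _ ⟨x, rfl⟩
    exact hPP x
  have hd2 : d = 2 * k := by
    have h1 : 0 < finrank ℚ K := finrank_pos
    have h2 : d * finrank ℚ K = 2 * k * finrank ℚ K := by
      rw [hd, ← hk, mul_assoc]
    exact Nat.eq_of_mul_eq_mul_right h1 h2
  have hPm : ∀ x, P x ∈ W := fun x => ⟨x, rfl⟩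
  have hfin : finrank ℂ W = 2 * k := by
    have h1 := LinearMap.trace_restrict_eq_of_forall_mem W P hPm
    have h2 : P.restrict (fun x _ => hPm x) = LinearMap.id :=
      LinearMap.ext fun x => Subtype.ext (hPW _ x.2)
    rw [h2, LinearMap.trace_id, htr σ, hd2] at h1
    exact_mod_cast h1
  have hfW : ∀ x ∈ W, f x ∈ W := by
    rintro _ ⟨x, rfl⟩
    exact ⟨f x, (hfP x).symm⟩
  have htf : LinearMap.trace ℂ W (f.restrict hfW) = LinearMap.trace ℂ X.H1 (f * P) := by
    have h0 : ∀ x, (f * P) x ∈ W := fun x => hfW _ ⟨x, rfl⟩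
    rw [← LinearMap.trace_restrict_eq_of_forall_mem W (f * P) h0]
    congr 1
    refine LinearMap.ext fun x => Subtype.ext ?_
    show f x = f (P x)
    rw [hPW _ x.2]
  have hv' : ∀ r, v' r ∈ W := fun r => by
    rw [hv r]
    exact ⟨v r, rfl⟩
  have hmain := WeT_top (finBasisOfFinrankEq ℂ W hfin) (α.compLinearMap W.subtype) (f.restrict hfW)
    (fun r => ⟨v' r, hv' r⟩)
  rw [htf] at hmain
  have h1 : (α.compLinearMap W.subtype) (fun r => (⟨v' r, hv' r⟩ : W)) = α v' := rfl
  rw [h1] at hmain
  rw [← hmain]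
  refine Finset.sum_congr rfl fun r _ => ?_
  rw [AlternatingMap.compLinearMap_apply]
  congr 1
  funext i
  by_cases h : i = r
  · subst h
    rw [Function.update_self, Function.update_self]
    rfl
  · rw [Function.update_of_ne h, Function.update_of_ne h]
    rfl

end WPP
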