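import Pool.Agent.WPP.StA

/-!
# WPP, Wei: the weights
-/

set_option autoImplicit false
set_option linter.unusedVariables false

namespace WPP

open Module

section

variable {I : Type} [Fintype I] [DecidableEq I] {K : I → Type} [∀ i, Field (K i)]
  [∀ i, NumberField (K i)]

open Classical in
/-- the number of the indices with the label `x` -/
noncomputable def Wei_T {m : ℕ} (w : Fin m → Lb K) (x : Lb K) : ℕ :=
  (Finset.univ.filter fun r => w r = x).card

theorem Wei_zw (c : ∀ i, K i →+* K i) (d : I → ℕ) {m : ℕ} (w : Fin m → Lb K) (x : Lb K) :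
    zw c d w x = (∏ j ∈ Finset.univ.erase x.1, (d j : ℤ)) *
      ((Wei_T w x : ℤ) - (Wei_T w (cj K c x) : ℤ)) := by
  unfold zw Wei_T
  rfl

theorem Wei_sum {m : ℕ} (w : Fin m → Lb K) (g : Lb K → ℂ) :
    ∑ x, (Wei_T w x : ℂ) * g x = ∑ r, g (w r) := by
  classical
  have h1 : ∀ x : Lb K, (Wei_T w x : ℂ) * g x = ∑ r, if w r = x then g x else 0 := by
    intro x
    unfold Wei_T
    rw [Finset.card_filter]
    push_cast
    rw [Finset.sum_mul]
    refine Finset.sum_congr rfl fun r _ => ?_
    by_cases h : w r = x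
    · rw [if_pos h, if_pos h, one_mul]
    · rw [if_neg h, if_neg h, zero_mul]
  simp only [h1]
  rw [Finset.sum_comm]
  refine Finset.sum_congr rfl fun r _ => ?_
  rw [Finset.sum_ite_eq]
  exact if_pos (Finset.mem_univ _)

end

theorem thm_Wei : St_Wei := by
  intro I _ _ K _ _ c d k w hd hc
  have hfst : ∀ t : Lb K, (cj K c t).1 = t.1 := fun t => rfl
  refine ⟨?_, ?_, ?_⟩
  · intro t
    rw [Wei_zw, Wei_zw, hc t]
    change (∏ j ∈ Finset.univ.erase t.1, (d j : ℤ)) * _ = _
    ring
  · intro τ t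
    have h1 : ∀ x : Lb K, Wei_T w (tw K τ x) = Wei_T (fun r => tw K τ.symm (w r)) x := by
      intro x
      classical
      unfold Wei_T
      congr 1
      ext r
      simp only [Finset.mem_filter, Finset.mem_univ, true_and]
      constructor
      · intro h
        rw [h]
        unfold tw
        refine Sigma.ext rfl (heq_of_eq ?_)
        ext z
        simp
      · intro h
        rw [← h]
        unfold tw
        refine Sigma.ext rfl (heq_of_eq ?_)
        ext z
        simp
    rw [Wei_zw, Wei_zw]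
    have h2 : cj K c (tw K τ t) = tw K τ (cj K c t) := rfl
    rw [h2, h1, h1]
    rfl
  · intro μ t ht
    have hD : ∀ x : Lb K, (∏ i, (d i : ℂ)) = (d x.1 : ℂ) * ∏ j ∈ Finset.univ.erase x.1, (d j : ℂ) :=
      fun x => (Finset.mul_prod_erase Finset.univ (fun i => (d i : ℂ)) (Finset.mem_univ x.1)).symm
    have hd0 : ∀ i, (d i : ℂ) ≠ 0 := fun i => Nat.cast_ne_zero.2 (hd i)
    have hD0 : (∏ i, (d i : ℂ)) ≠ 0 := Finset.prod_ne_zero_iff.2 fun i _ => hd0 i
    set D : ℂ := ∏ i, (d i : ℂ) with hDdef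
    have hz : ∀ x : Lb K, (zw c d w x : ℂ) = D / (d x.1 : ℂ) *
        ((Wei_T w x : ℂ) - (Wei_T w (cj K c x) : ℂ)) := by
      intro x
      rw [Wei_zw, hD x, mul_div_cancel_left₀ _ (hd0 x.1)]
      push_cast
      ring
    let e : Lb K ≃ Lb K := ⟨cj K c, cj K c, hc, hc⟩
    have h1 : ∑ x, D / (d x.1 : ℂ) * (Wei_T w (cj K c x) : ℂ) * t x =
        ∑ x, D / (d x.1 : ℂ) * (Wei_T w x : ℂ) * t (cj K c x) := by
      refine Fintype.sum_equiv e _ _ fun x => ?_
      change _ = D / (d (cj K c x).1 : ℂ) * (Wei_T w (cj K c x) : ℂ) * t (cj K c (cj K c x))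
      rw [hc x]
      rfl
    have h2 : ∑ x, (zw c d w x : ℂ) * t x = 2 * D * (∑ r, t (w r) / (d (w r).1 : ℂ)) -
        D * μ * (2 * k) := by
      have h3 : ∀ x : Lb K, (zw c d w x : ℂ) * t x = D / (d x.1 : ℂ) * (Wei_T w x : ℂ) * t x -
          D / (d x.1 : ℂ) * (Wei_T w (cj K c x) : ℂ) * t x := by
        intro x
        rw [hz]
        ring
      simp only [h3]
      rw [Finset.sum_sub_distrib, h1, ← Finset.sum_sub_distrib]
      have h4 : ∀ x : Lb K, D / (d x.1 : ℂ) * (Wei_T w x : ℂ) * t x -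
          D / (d x.1 : ℂ) * (Wei_T w x : ℂ) * t (cj K c x) =
          2 * D * ((Wei_T w x : ℂ) * (t x / (d x.1 : ℂ))) - D * μ * ((Wei_T w x : ℂ) * 1) := by
        intro x
        have h5 : t (cj K c x) = μ * d x.1 - t x := by
          rw [← ht x]
          ring
        have h6 := hd0 x.1
        rw [h5]
        field_simp
        ring
      simp only [h4]
      rw [Finset.sum_sub_distrib, ← Finset.mul_sum, ← Finset.mul_sum, Wei_sum,
        Wei_sum w (fun _ => 1), Finset.sum_const, Finset.card_univ, Fintype.card_fin]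
      simp only [nsmul_eq_mul, mul_one]
      push_cast
      ring
    rw [h2]
    field_simp
    ring

end WPP
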