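import Pool.Agent.WPP.StA
import Pool.Agent.Helper39.AF.Decomp
import Pool.Agent.Helper8.T1.Transfer

/-!
# WPP: the theorem on classes invariant under the Lefschetz derivations
-/

set_option autoImplicit false

namespace WPP

open Module Pool.Agent.GPC
open Pool.Agent.Helper7 (pData proj lift hod)

private lemma Wpp_factor {X : AbVar} {A : AbVar} (hg : A.g ≠ 0) (hs : A.IsSimple)
    (ι : A.H1 → X.H1) (hι : A.IsMor X ι ∧ ∀ u v, X.pol (ι u) (ι v) = A.pol u v) :
    A.IsSimpleFactor X := by
  refine ⟨hs, ι, hι.1, ?_⟩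
  by_contra hcon
  push Not at hcon
  let u : A.H1 := Pi.single (Sum.inl ⟨0, Nat.pos_of_ne_zero hg⟩) 1
  have h1 : ∀ v, (pData A).ψ u v = 0 := by
    intro v
    have h2 := hι.2 u v
    have h3 : X.pol (ι u) (ι v) = 0 := by
      rw [hcon u, hcon v]
      simp [AbVar.pol]
    rw [h3] at h2
    exact h2.symm
  have h4 := congrFun ((pData A).hψnd u h1) (Sum.inl ⟨0, Nat.pos_of_ne_zero hg⟩)
  have h5 : u (Sum.inl ⟨0, Nat.pos_of_ne_zero hg⟩) = 1 := Pi.single_eq_same _ _
  rw [h5] at h4
  exact one_ne_zero h4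

/-- Grothendieck classes which are invariant under the Lefschetz derivations and lie in the step
`k - 1` of the Hodge filtration (or: the centres are abelian number fields) are Hodge classes. -/
theorem thm_Wpp (hFamH : St_FamH) (hLft : St_Lft) (hCen : St_Cen) (hRos : St_Ros) : St_Wpp := by
  classical
  intro X k α hα hlef hcase
  obtain ⟨I, _, A, n, Φ, ι, hΦ, hg, hs, hA, hn, -, hι⟩ := Pool.Agent.Helper39.AF.exists_decomp X
  have hfac : ∀ i, (A i).IsSimpleFactor X := fun i => Wpp_factor (hg i) (hs i) (ι i) (hι i)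
  have hK : ∀ i, ∃ (K : Type) (_ : Field K) (_ : NumberField K)
      (ρ : K → (A i).H1 → (A i).H1), (A i).IsCentre K ρ ∧
      (X.HasAbelianCentre → IsAbelianGalois ℚ K) := by
    intro i
    by_cases h : X.HasAbelianCentre
    · obtain ⟨K, h1, h2, ρ, h3, h4⟩ := h (A i) (hfac i)
      exact ⟨K, h1, h2, ρ, h4, fun _ => h3⟩
    · obtain ⟨K, h1, h2, ρ, h3⟩ := hCen (A i) (hs i) (hg i)
      exact ⟨K, h1, h2, ρ, h3, fun h' => absurd h' h⟩
  choose K iF iN ρ0 hρ0 using hK
  have hR := fun i => hRos (A i) (K i) (ρ0 i) (hg i) (hρ0 i).1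
  choose c ρ hρ hcen using hR
  refine Pool.Agent.Helper8.T1.inFil_of_hodge hΦ α
    (hFamH I A n K c ρ k _ hcen hg ?_ (Pool.Agent.Helper39.AF.grothendieck_transfer hΦ α hα) ?_)
  · intro f hf v
    have h1 := hlef _ (hLft X I A n Φ hΦ hA f hf) (fun r => Φ.symm (v r))
    rw [← h1]
    refine Finset.sum_congr rfl fun r _ => ?_
    rw [AlternatingMap.compLinearMap_apply]
    congr 1
    funext s
    change Φ.symm (Function.update v r (lift n f (v r)) s) = _
    by_cases hs' : s = r
    · subst hs'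
      rw [Function.update_self, Function.update_self]
      change _ = Φ.symm (lift n f (Φ (Φ.symm (v s))))
      rw [Φ.apply_symm_apply]
    · rw [Function.update_of_ne hs', Function.update_of_ne hs']
  · rcases hcase with h | h
    · exact Or.inr (Pool.Agent.Helper8.T1.filPred_transfer hΦ α h)
    · refine Or.inl fun i _ => ?_
      have h1 := (hρ0 i).2 h
      exact ⟨h1.toIsGalois, fun g g' => IsMulCommutative.is_comm.comm g g'⟩

end WPP
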