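import Pool.Agent.WPP.StA

/-!
# WPP: subtracting the central part (module Zer)
-/

set_option autoImplicit false

namespace WPP

open scoped ComplexConjugate
open Pool.Agent.GPC
open Pool.Agent.Helper7 (pData proj lift hod)
open Module

variable {A : AbVar} {K : Type} [Field K] [NumberField K]

theorem Zer_invol {c : K →+* K} {ρ : K →+* Module.End ℂ A.H1} (hC : CenR A K c ρ)
    (σ : K →+* ℂ) : (σ.comp c).comp c = σ := by
  refine RingHom.ext fun x => ?_
  show σ (c (c x)) = σ x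
  rw [← hC.cc σ (c x), ← hC.cc σ x, Complex.conj_conj]

theorem Zer_comm {ρ : K →+* Module.End ℂ A.H1} {h : A.H1 → A.H1} (hl : IsLinearMap ℂ h)
    (hc : ∀ x v, h (ρ x v) = ρ x (h v)) (σ : K →+* ℂ) (v : A.H1) :
    proj ρ σ (h v) = h (proj ρ σ v) := by
  unfold proj
  rw [LinearMap.sum_apply, LinearMap.sum_apply]
  show _ = hl.mk' h (∑ b, _)
  rw [map_sum]
  refine Finset.sum_congr rfl fun b _ => ?_
  rw [LinearMap.smul_apply, LinearMap.smul_apply, map_smul]
  congr 1
  exact (hc _ v).symm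

theorem thm_Zer (hPrT : St_PrT) : St_Zer := by
  intro A K _ _ c ρ d f μ hC hd htr hf
  classical
  obtain ⟨d', _, h1, h2, h3⟩ := hPrT A K c ρ hC.kr
  have hdC : (d : ℂ) ≠ 0 := Nat.cast_ne_zero.2 hd
  obtain ⟨t, ht⟩ : ∃ t : (K →+* ℂ) → ℂ, t = fun σ => LinearMap.trace ℂ A.H1 (f * proj ρ σ) :=
    ⟨_, rfl⟩
  have htt : ∀ σ, t σ + t (σ.comp c) = μ * d := by
    intro σ
    have h4 : (d' : ℂ) = d := by rw [← h1 σ, htr σ]
    rw [ht, ← h4]
    exact h3 f μ (fun x v => hf.comm (ρ x) (hC.kr.endo x) v) hf.pol σ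
  have hgoal : (f - ∑ σ, (LinearMap.trace ℂ A.H1 (f * proj ρ σ) / d) • proj ρ σ) =
      f - ∑ σ, (t σ / d) • proj ρ σ := by rw [ht]
  rw [hgoal]
  refine ⟨?_, ?_, ?_⟩
  · intro h hh v
    have hl := hh.linear
    have e1 : (∑ σ, (t σ / d) • proj ρ σ) (h v) = h ((∑ σ, (t σ / d) • proj ρ σ) v) := by
      rw [LinearMap.sum_apply, LinearMap.sum_apply]
      show _ = hl.mk' h (∑ σ, _)
      rw [map_sum]
      refine Finset.sum_congr rfl fun σ _ => ?_
      rw [LinearMap.smul_apply, LinearMap.smul_apply, map_smul]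
      congr 1
      exact Zer_comm hl (fun x v => hC.cen x h hh v) σ v
    rw [LinearMap.sub_apply, LinearMap.sub_apply, e1, hf.comm h hh v, hl.map_sub]
  · intro u v
    have hL : ∀ (g : (K →+* ℂ) → ℂ) (u v : A.H1),
        A.pol ((∑ σ, g σ • proj ρ σ) u) v = ∑ σ, g σ * A.pol (proj ρ σ u) v := by
      intro g u v
      show A.polForm ((∑ σ, g σ • proj ρ σ) u) v = ∑ σ, g σ * A.polForm (proj ρ σ u) v
      rw [LinearMap.sum_apply, map_sum, LinearMap.sum_apply]
      refine Finset.sum_congr rfl fun σ _ => ?_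
      rw [LinearMap.smul_apply, map_smul, LinearMap.smul_apply, smul_eq_mul]
    have hR : ∀ (g : (K →+* ℂ) → ℂ) (u v : A.H1),
        A.pol u ((∑ σ, g σ • proj ρ σ) v) = ∑ σ, g σ * A.pol u (proj ρ σ v) := by
      intro g u v
      show A.polForm u ((∑ σ, g σ • proj ρ σ) v) = ∑ σ, g σ * A.polForm u (proj ρ σ v)
      rw [LinearMap.sum_apply, map_sum]
      refine Finset.sum_congr rfl fun σ _ => ?_
      rw [LinearMap.smul_apply, map_smul, smul_eq_mul]
    have e2 : A.pol u ((∑ σ, (t σ / d) • proj ρ σ) v) =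
        ∑ σ, (t (σ.comp c) / d) * A.pol (proj ρ σ u) v := by
      rw [hR]
      refine Finset.sum_bij' (fun σ _ => σ.comp c) (fun σ _ => σ.comp c)
        (fun _ _ => Finset.mem_univ _) (fun _ _ => Finset.mem_univ _)
        (fun σ _ => Zer_invol hC σ) (fun σ _ => Zer_invol hC σ) fun σ _ => ?_
      rw [Zer_invol hC σ, h2 (σ.comp c) u v, Zer_invol hC σ]
    have e3 : A.pol ((∑ σ, (t σ / d) • proj ρ σ) u) v +
        A.pol u ((∑ σ, (t σ / d) • proj ρ σ) v) = μ * A.pol u v := by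
      rw [e2, hL, ← Finset.sum_add_distrib]
      have e4 : ∀ σ : K →+* ℂ, t σ / d * A.pol (proj ρ σ u) v +
          t (σ.comp c) / d * A.pol (proj ρ σ u) v = μ * A.pol (proj ρ σ u) v := by
        intro σ
        rw [← add_mul, ← add_div, htt σ, mul_div_assoc, div_self hdC, mul_one]
      rw [Finset.sum_congr rfl fun σ _ => e4 σ]
      have e5 := hL (fun _ => μ) u v
      rw [← e5, ← Finset.smul_sum, Pool.Agent.Helper7.sum_proj]
      show A.polForm ((μ • (1 : Module.End ℂ A.H1)) u) v = μ * A.polForm u v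
      rw [LinearMap.smul_apply, map_smul, LinearMap.smul_apply, smul_eq_mul]
      rfl
    have e6 : A.pol ((f - ∑ σ, (t σ / d) • proj ρ σ) u) v =
        A.pol (f u) v - A.pol ((∑ σ, (t σ / d) • proj ρ σ) u) v := by
      show A.polForm ((f - ∑ σ, (t σ / d) • proj ρ σ) u) v = A.polForm (f u) v -
        A.polForm ((∑ σ, (t σ / d) • proj ρ σ) u) v
      rw [LinearMap.sub_apply, map_sub, LinearMap.sub_apply]
    have e7 : A.pol u ((f - ∑ σ, (t σ / d) • proj ρ σ) v) =
        A.pol u (f v) - A.pol u ((∑ σ, (t σ / d) • proj ρ σ) v) := by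
      show A.polForm u ((f - ∑ σ, (t σ / d) • proj ρ σ) v) = A.polForm u (f v) -
        A.polForm u ((∑ σ, (t σ / d) • proj ρ σ) v)
      rw [LinearMap.sub_apply, map_sub]
    have e8 := hf.pol u v
    rw [e6, e7]
    linear_combination e8 - e3
  · intro h hh hcen
    obtain ⟨x, hx⟩ := hC.all h hh (fun g hg v => hcen g hg v)
    have e1 : h = ρ x := LinearMap.ext hx
    rw [e1]
    show LinearMap.trace ℂ A.H1 ((f - ∑ σ, (t σ / d) • proj ρ σ) * ρ x) = 0
    rw [Pool.Agent.Helper7.rho_eq_sum ρ x, Finset.mul_sum, map_sum]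
    refine Finset.sum_eq_zero fun σ _ => ?_
    rw [mul_smul_comm, map_smul, sub_mul, map_sub, Finset.sum_mul]
    have e2 : ∀ τ : K →+* ℂ, (t τ / d) • proj ρ τ * proj ρ σ =
        if τ = σ then (t τ / d) • proj ρ σ else 0 := by
      intro τ
      rw [smul_mul_assoc, Pool.Agent.Helper7.proj_mul_proj]
      split_ifs
      · rfl
      · exact smul_zero _
    rw [Finset.sum_congr rfl fun τ _ => e2 τ, Finset.sum_ite_eq' Finset.univ σ,
      if_pos (Finset.mem_univ σ), map_smul, htr σ, smul_eq_mul, smul_eq_mul,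
      div_mul_cancel₀ _ hdC, ht]
    show σ x * (LinearMap.trace ℂ A.H1 (f * proj ρ σ) -
      LinearMap.trace ℂ A.H1 (f * proj ρ σ)) = 0
    rw [sub_self, mul_zero]

end WPP
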