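import Pool.Agent.WPP.AllC
import Pool.Agent.WPP.PrT
import Pool.Agent.WPP.EgF
import Pool.Agent.WPP.TorP
import Pool.Agent.WPP.TorI
import Pool.Agent.WPP.TorA
import Pool.Agent.WPP.TorF
import Pool.Agent.WPP.Cen
import Pool.Agent.WPP.Ros
import Pool.Agent.WPP.Zer
import Pool.Agent.WPP.Lft
import Pool.Agent.WPP.GalE
import Pool.Agent.WPP.ScA
import Pool.Agent.WPP.Wei
import Pool.Agent.WPP.MTN
import Pool.Agent.WPP.FamR
import Pool.Agent.WPP.FamF
import Pool.Agent.WPP.FamH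
import Pool.Agent.WPP.Wpp
import Pool.Agent.WPP.WeT
import Pool.Agent.WPP.WeG
import Pool.Agent.WPP.WeM

/-!
# WPP: assembly of the geometric part
-/

set_option autoImplicit false

namespace WPP

namespace All

theorem PrT_ : St_PrT := thm_PrT
theorem EgF_ : St_EgF := thm_EgF
theorem TorP_ : St_TorP := thm_TorP TorB_ PrT_ AnB_
theorem TorI_ : St_TorI := thm_TorI TorP_
theorem TorA_ : St_TorA := thm_TorA TorI_ EgF_ PrT_
theorem TorF_ : St_TorF := thm_TorF TorB_ BalF_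
theorem Cen_ : St_Cen := thm_Cen
theorem Ros_ : St_Ros := thm_Ros
theorem Zer_ : St_Zer := thm_Zer PrT_
theorem Lft_ : St_Lft := thm_Lft
theorem GalE_ : St_GalE := thm_GalE
theorem ScA_ : St_ScA := thm_ScA Zer_
theorem Wei_ : St_Wei := thm_Wei
theorem MTN_ : St_MTN := thm_MTN
theorem FamR_ : St_FamR := thm_FamR PrT_ ScA_ Wei_ MTN_
theorem FamF_ : St_FamF := thm_FamF PrT_ ScA_ FamR_ GalE_ MTN_
theorem FamH_ : St_FamH := thm_FamH PrT_ TorI_ GalE_ ScA_ Wei_ MTN_ FamR_ FamF_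
theorem Wpp_ : St_Wpp := thm_Wpp FamH_ Lft_ Cen_ Ros_
theorem WeT_ : St_WeT := thm_WeT PrT_
theorem WeG_ : St_WeG := thm_WeG
theorem WeM_ : St_WeM := thm_WeM PrT_ TorI_ WeG_ WeT_ MTN_

end All

end WPP
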