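import Pool.Agent.WPP.StR
import Pool.Agent.WPP.StC

/-!
# WPP [CoB]: cocompactness up to half planes, assembly of the geometry
-/

set_option autoImplicit false

namespace WPP

open scoped ComplexConjugate
open GAM (H E F pd pdl PLat IsTh OddTor IsDel Gro IsLat)
open PST DWC

/-- A lattice has a shortest vector. -/
private theorem CoB_short {ι : Type} [Fintype ι] [DecidableEq ι] (L : Submodule ℤ (ι → ℂ))
    (χ : (ι → ℂ) → ℂ) (hL : PLat L χ) : ∃ ε : ℝ, 0 < ε ∧ ∀ x ∈ L, x ≠ 0 → ε ^ 2 ≤ nq x := by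
  obtain ⟨b, hb⟩ := hL.basis
  have hcont : ∀ i, ∃ C : ℝ, 0 < C ∧ ∀ x : ι → ℂ, |b.repr x i| ≤ C * ‖x‖ := by
    intro i
    let f : (ι → ℂ) →ₗ[ℝ] ℝ := b.coord i
    obtain ⟨C, hC, h⟩ := (LinearMap.toContinuousLinearMap f).bound
    exact ⟨C, hC, fun x => h x⟩
  choose C hC0 hC using hcont
  obtain ⟨D, hD0, hD⟩ : ∃ D : ℝ, 0 < D ∧ ∀ i, C i ≤ D := by
    refine ⟨1 + ∑ i, C i, ?_, fun i => ?_⟩
    · have : 0 ≤ ∑ i, C i := Finset.sum_nonneg fun i _ => (hC0 i).le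
      linarith
    · have := Finset.single_le_sum (f := C) (fun i _ => (hC0 i).le) (Finset.mem_univ i)
      linarith
  refine ⟨1 / D, by positivity, fun x hx hx0 => ?_⟩
  have hint : ∀ i, ∃ k : ℤ, b.repr x i = k := by
    intro i
    rw [hb] at hx
    exact (b.mem_span_iff_repr_mem ℤ x).1 hx i |>.imp fun k hk => by simpa using hk.symm
  have hne : ∃ i, b.repr x i ≠ 0 := by
    by_contra hcon
    push Not at hcon
    apply hx0
    have : b.repr x = 0 := by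
      ext i
      simpa using hcon i
    simpa using this
  obtain ⟨i, hi⟩ := hne
  obtain ⟨k, hk⟩ := hint i
  have h1 : (1 : ℝ) ≤ |b.repr x i| := by
    rw [hk] at hi ⊢
    have hk0 : k ≠ 0 := by
      rintro rfl
      simp at hi
    have := Int.one_le_abs hk0
    exact_mod_cast this
  have h2 : 1 ≤ D * ‖x‖ := h1.trans ((hC i x).trans
    (mul_le_mul_of_nonneg_right (hD i) (norm_nonneg x)))
  have h3 : 1 / D ≤ ‖x‖ := by
    rw [div_le_iff₀ hD0]
    linarith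
  have h4 : ‖x‖ ^ 2 ≤ nq x := by
    have hn : 0 ≤ nq x := Finset.sum_nonneg fun i _ => by positivity
    have : ‖x‖ ≤ Real.sqrt (nq x) := by
      refine (pi_norm_le_iff_of_nonneg (Real.sqrt_nonneg _)).2 fun j => ?_
      refine Real.le_sqrt_of_sq_le ?_
      exact Finset.single_le_sum (f := fun j => ‖x j‖ ^ 2) (fun i _ => by positivity)
        (Finset.mem_univ j)
    calc ‖x‖ ^ 2 ≤ (Real.sqrt (nq x)) ^ 2 := by
          exact pow_le_pow_left₀ (norm_nonneg _) this 2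
      _ = nq x := Real.sq_sqrt hn
  calc (1 / D) ^ 2 ≤ ‖x‖ ^ 2 := pow_le_pow_left₀ (by positivity) h3 2
    _ ≤ nq x := h4

private theorem CoB_one {α β : Type} [Fintype α] [Fintype β] [DecidableEq α]
    [DecidableEq β] : IsU (1 : Matrix (α ⊕ β) (α ⊕ β) ℂ) := by
  unfold IsU
  simp

/-- the conjugates of a generator are distinct -/
private theorem CoB_dis (S K : Type) [Field K] [NumberField K] (c : K →+* K)
    (φ : S → K →+* ℂ) (t : K) (h : GenK S K c φ t) : Dis (fun s => φ s t) := by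
  constructor
  · intro s s' hs
    have h1 : φ s = φ s' := h.gen _ _ hs
    have h2 := h.ty.1 (a₁ := Sum.inl s) (a₂ := Sum.inl s') h1
    exact Sum.inl_injective h2
  · intro s s' hs
    have h1 : φ s = (φ s').comp c := h.gen _ _ (by
      rw [hs]
      exact h.cm.cc (φ s') t)
    have h2 := h.ty.1 (a₁ := Sum.inl s) (a₂ := Sum.inr s') h1
    exact absurd h2 Sum.inl_ne_inr

/-- [CoB] cocompactness up to half planes -/
theorem thm_CoB (h0 : St_DetB) (h1 : St_MahB) (h2 : St_GapB) (h3 : DWC.St_Trv) (h4 : St_ZtB)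
    (h5 : St_CptB) (h6 : PST.St_UGr) (h7 : St_MobB) (h8 : PST.St_MapE) (h9 : St_GrB)
    (h10 : St_OmBT) : St_CoB := by
  intro S K _ _ _ _ c φ t hG
  obtain ⟨e, he, hdet⟩ := h0 S K c φ t hG
  refine ⟨e, he, ?_⟩
  intro α β _ _ _ _ pl N L χ hN hL hK n hn
  have hDis := CoB_dis S K c φ t hG
  obtain ⟨th, hth⟩ : ∃ th : S → ℂ, th = fun s => φ s t := ⟨_, rfl⟩
  have hdet' := hdet α β pl N L χ
  rw [← hth] at hK hDis hdet'
  obtain ⟨-, hmul, hone, hlin, hUmul, hUinv, -⟩ := h6 α β Unit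
  obtain ⟨hBmul, hBone, -, -, -, -⟩ := h9 α β S pl
  obtain ⟨-, -, hzero, -, -, -, -, -, -⟩ := h10 α β S pl
  have hact0 : ∀ g : Matrix (α ⊕ β) (α ⊕ β) ℂ, act g (0 : Ix α β Unit → ℂ) = 0 := by
    intro g
    have := (hlin g 0 0 0).2
    simpa using this
  obtain ⟨ε₀, hε₀, hgap⟩ := h2 α β S pl th N hDis hN
  obtain ⟨ε₁, hε₁, hshort⟩ := CoB_short L χ hL
  obtain ⟨ε, hε, hεε₀, hεε₁⟩ : ∃ ε : ℝ, 0 < ε ∧ ε ≤ ε₀ ∧ ε ≤ ε₁ :=
    ⟨min ε₀ ε₁, lt_min hε₀ hε₁, min_le_left _ _, min_le_right _ _⟩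
  have hSh1 : Sh L (1 : Matrix (α ⊕ β) (α ⊕ β) ℂ) ε := by
    intro x hx0 hx
    rw [hone] at hx
    exact (pow_le_pow_left₀ hε.le hεε₁ 2).trans (hshort x hx hx0)
  obtain ⟨R, hR⟩ := h1 α β S pl th e N n L χ ε hDis hN hn hL hK hε
    (fun γ hγ1 hγ2 hγ3 => hdet' γ hN hL hK hγ1 hγ2 hγ3)
  obtain ⟨hKc, hKO, R', hR'⟩ := h5 α β S pl L χ ε R hL hε
  obtain ⟨C, hC⟩ := h4 α β S pl R'
  have hShm : ∀ γ g : Matrix (α ⊕ β) (α ⊕ β) ℂ, GamB pl e n L γ → Sh L g ε →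
      Sh L (γ * g) ε := by
    intro γ g hγ hg x hx0 hx
    rw [hmul] at hx
    exact hg x hx0 ((hγ.lat _).2 hx)
  refine ⟨KcB pl L ε R, C, hKc, ?_, hKO, fun p hp => ?_⟩
  · obtain ⟨γ, hγ, hγR⟩ := hR 1 CoB_one hBone hSh1
    exact ⟨mobB pl (γ * 1) 0, γ * 1, hUmul _ _ hγ.uni CoB_one, (hBmul _ _ hγ.blk hBone).1, hγR,
      hShm _ _ hγ hSh1, rfl⟩
  · obtain ⟨U, hU, hUK⟩ := hR' p hp
    refine ⟨U, hU, fun w hw => ?_⟩
    obtain ⟨g, hg, hgB, hgR, hgS, hgw⟩ := hUK hw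
    obtain ⟨L', χ', hL', hM⟩ := h8 α β Unit g L χ hg hL
    have hKL' : KLB pl th N L' := by
      intro l hl
      rw [hM.lat] at hl ⊢
      have hcomm : g * kapB pl th N = kapB pl th N * g := by
        ext p q
        unfold kapB
        rw [Matrix.diagonal_mul, Matrix.mul_diagonal]
        by_cases hpq : pl p = pl q
        · rw [hpq, mul_comm]
        · rw [hgB p q hpq, mul_zero, zero_mul]
      rw [← hmul, hcomm, hmul]
      exact hK _ hl
    obtain ⟨P, hP, hPB, hPL⟩ := hgap ε hε hεε₀ L' (fun x hx y hy => hL'.int x hx y hy) hKL'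
    obtain ⟨-, -, hBU, hBS⟩ := h3 α β P hP
    obtain ⟨hBB, hzI, hzD, hzC, hzG⟩ := hC g P hg hgB hgR hP hPB
    refine ⟨fun t => mobB pl (g * Bt P t) 0, hzI.trans hgw, hzD, hzC, hzG, fun t => ?_⟩
    have hA : IsU (g * Bt P t) := hUmul _ _ hg (hBU t)
    have hAB : IsB pl (g * Bt P t) := (hBmul _ _ hgB (hBB t)).1
    have hAS : Sh L (g * Bt P t) ε := by
      intro x hx0 hx
      rw [hmul] at hx
      have hy : act (Bt P t) x ∈ L' := (hM.lat _).2 hx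
      have hy0 : act (Bt P t) x ≠ 0 := by
        intro h0
        apply hx0
        have hinv := (hUinv _ (hBU t)).2.1
        have := congrArg (act (Jm α β * (Bt P t).conjTranspose * Jm α β)) h0
        rw [← hmul, hinv, hone, hact0] at this
        exact this
      exact hBS t ε x hε (hgS _ hy0 hx) (hPL _ hy)
    obtain ⟨γ, hγ, hγR⟩ := hR _ hA hAB hAS
    refine ⟨γ, hγ, ?_⟩
    refine ⟨γ * (g * Bt P t), hUmul _ _ hγ.uni hA, (hBmul _ _ hγ.blk hAB).1, hγR,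
      hShm _ _ hγ hAS, ?_⟩
    exact (h7 α β S pl _ hA hAB 0 hzero).2.2.2.2.2 γ hγ.uni hγ.blk

end WPP
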