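import Mathlib
import Pool.Agent.WPP.StR
import Pool.Agent.WPP.StC

/-!
# WPP / CptB: the compact set and its neighbourhoods on the product domain

Port of `Pool/Agent/DWC/Cpt.lean`, written by helper65.
-/

set_option autoImplicit false

namespace WPP

open scoped ComplexConjugate
open GAM (H E F pd pdl PLat IsTh OddTor IsDel Gro IsLat)
open PST DWC

section

variable {α β : Type} [Fintype α] [Fintype β] [DecidableEq α] [DecidableEq β]

omit [DecidableEq α] [DecidableEq β] in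
private theorem CptB_nq (A : Matrix (α ⊕ β) (α ⊕ β) ℂ) (x : Ix α β Unit → ℂ) :
    nq (act A x) = ∑ p : Ix α β Unit, ‖∑ q, A p.1 q * sw x (q, p.2)‖ ^ 2 := by
  unfold nq act
  refine Finset.sum_congr rfl fun p _ => ?_
  obtain ⟨i | j, u⟩ := p
  · rfl
  · show ‖conj (mu A (sw x) (Sum.inr j, u))‖ ^ 2 = _
    rw [RCLike.norm_conj]
    rfl

private theorem CptB_cont (x : Ix α β Unit → ℂ) :
    Continuous fun g : Matrix (α ⊕ β) (α ⊕ β) ℂ =>
      nq (act (Jm α β * g.conjTranspose * Jm α β) x) := by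
  simp_rw [CptB_nq]
  refine continuous_finsetSum _ fun p _ => ?_
  refine Continuous.pow (Continuous.norm (continuous_finsetSum _ fun q _ => ?_)) 2
  refine Continuous.mul ?_ continuous_const
  exact Continuous.matrix_elem (Continuous.matrix_mul (Continuous.matrix_mul continuous_const
    (Continuous.matrix_conjTranspose continuous_id)) continuous_const) _ _

omit [Fintype α] [Fintype β] [DecidableEq α] [DecidableEq β] in
private theorem CptB_bdd (R : ℝ) : IsCompact {g : Matrix (α ⊕ β) (α ⊕ β) ℂ |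
    ∀ i j, ‖g i j‖ ≤ R} := by
  have h := isCompact_univ_pi (X := fun _ : α ⊕ β => α ⊕ β → ℂ)
    (s := fun _ => Set.pi Set.univ fun _ => Metric.closedBall (0 : ℂ) R)
    (fun _ => isCompact_univ_pi fun _ => isCompact_closedBall (0 : ℂ) R)
  have e : {g : Matrix (α ⊕ β) (α ⊕ β) ℂ | ∀ i j, ‖g i j‖ ≤ R} =
      Set.pi Set.univ fun _ : α ⊕ β => Set.pi Set.univ fun _ : α ⊕ β =>
        Metric.closedBall (0 : ℂ) R := by
    ext g
    constructor
    · intro hg i _ j _
      rw [mem_closedBall_zero_iff]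
      exact hg i j
    · intro hg i j
      have := hg i trivial j trivial
      rwa [mem_closedBall_zero_iff] at this
  rw [e]
  exact h

/-- `act g x = l` means `x = act g⁻¹ l` -/
private theorem CptB_inv (h2 : St_UGr) {g : Matrix (α ⊕ β) (α ⊕ β) ℂ} (hg : IsU g)
    (x : Ix α β Unit → ℂ) : act (Jm α β * g.conjTranspose * Jm α β) (act g x) = x ∧
      act g (act (Jm α β * g.conjTranspose * Jm α β) x) = x := by
  obtain ⟨-, hmul, hone, -, -, hi, -⟩ := h2 α β Unit
  obtain ⟨-, e1, e2, -, -⟩ := hi g hg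
  constructor
  · rw [← hmul, e1, hone]
  · rw [← hmul, e2, hone]

private theorem CptB_zero (h2 : St_UGr) (g : Matrix (α ⊕ β) (α ⊕ β) ℂ) :
    act g (0 : Ix α β Unit → ℂ) = 0 := by
  have h := ((h2 α β Unit).2.2.2.1 g 0 0 0).2
  simpa using h

private theorem CptB_Sh (h2 : St_UGr) (L : Submodule ℤ (Ix α β Unit → ℂ)) (ε : ℝ)
    {g : Matrix (α ⊕ β) (α ⊕ β) ℂ} (hg : IsU g) :
    Sh L g ε ↔ ∀ l ∈ L, l ≠ 0 → ε ^ 2 ≤ nq (act (Jm α β * g.conjTranspose * Jm α β) l) := by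
  constructor
  · intro h l hl hl0
    refine h _ ?_ ?_
    · intro h0
      apply hl0
      rw [← (CptB_inv h2 hg l).2, h0, CptB_zero h2]
    · rw [(CptB_inv h2 hg l).2]
      exact hl
  · intro h x hx hxL
    have := h _ hxL ?_
    · rwa [(CptB_inv h2 hg x).1] at this
    · intro h0
      apply hx
      rw [← (CptB_inv h2 hg x).1, h0, CptB_zero h2]

/-- the compact set of matrices -/
private theorem CptB_set (h2 : St_UGr) (L : Submodule ℤ (Ix α β Unit → ℂ)) (ε R : ℝ) :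
    IsCompact {g : Matrix (α ⊕ β) (α ⊕ β) ℂ | IsU g ∧ (∀ i j, ‖g i j‖ ≤ R) ∧ Sh L g ε} := by
  have e : {g : Matrix (α ⊕ β) (α ⊕ β) ℂ | IsU g ∧ (∀ i j, ‖g i j‖ ≤ R) ∧ Sh L g ε} =
      {g : Matrix (α ⊕ β) (α ⊕ β) ℂ | ∀ i j, ‖g i j‖ ≤ R} ∩
        ({g | g.conjTranspose * Jm α β * g = Jm α β} ∩
          ⋂ l : {l : Ix α β Unit → ℂ // l ∈ L ∧ l ≠ 0},
            {g | ε ^ 2 ≤ nq (act (Jm α β * g.conjTranspose * Jm α β) l.1)}) := by
    ext g
    constructor
    · rintro ⟨hU, hR, hS⟩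
      refine ⟨hR, hU, ?_⟩
      rw [Set.mem_iInter]
      intro l
      exact (CptB_Sh h2 L ε hU).1 hS l.1 l.2.1 l.2.2
    · rintro ⟨hR, hU, hS⟩
      refine ⟨hU, hR, (CptB_Sh h2 L ε hU).2 ?_⟩
      rw [Set.mem_iInter] at hS
      intro l hl hl0
      exact hS ⟨l, hl, hl0⟩
  rw [e]
  refine (CptB_bdd R).inter_right (IsClosed.inter ?_ ?_)
  · exact isClosed_eq (Continuous.matrix_mul (Continuous.matrix_mul
      (Continuous.matrix_conjTranspose continuous_id) continuous_const) continuous_id)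
      continuous_const
  · exact isClosed_iInter fun l => isClosed_le continuous_const (CptB_cont l.1)

omit [DecidableEq α] in
/-- continuity of the action in both variables, as a function of the matrix and the point -/
private theorem CptB_mob (s : Set ((Matrix (α ⊕ β) (α ⊕ β) ℂ) × (α × β → ℂ)))
    (hs : ∀ x ∈ s, IsUnit (cd x.1 x.2).det) : ContinuousOn (fun x => mob x.1 x.2) s := by
  have hm : Continuous fun x : (Matrix (α ⊕ β) (α ⊕ β) ℂ) × (α × β → ℂ) => PST.mt x.2 := by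
    refine continuous_matrix fun i j => ?_
    exact (continuous_apply (i, j)).comp continuous_snd
  have b11 : Continuous fun x : (Matrix (α ⊕ β) (α ⊕ β) ℂ) × (α × β → ℂ) => x.1.toBlocks₁₁ :=
    continuous_matrix fun i j => Continuous.matrix_elem continuous_fst _ _
  have b12 : Continuous fun x : (Matrix (α ⊕ β) (α ⊕ β) ℂ) × (α × β → ℂ) => x.1.toBlocks₁₂ :=
    continuous_matrix fun i j => Continuous.matrix_elem continuous_fst _ _
  have b21 : Continuous fun x : (Matrix (α ⊕ β) (α ⊕ β) ℂ) × (α × β → ℂ) => x.1.toBlocks₂₁ :=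
    continuous_matrix fun i j => Continuous.matrix_elem continuous_fst _ _
  have b22 : Continuous fun x : (Matrix (α ⊕ β) (α ⊕ β) ℂ) × (α × β → ℂ) => x.1.toBlocks₂₂ :=
    continuous_matrix fun i j => Continuous.matrix_elem continuous_fst _ _
  have hcd : Continuous fun x : (Matrix (α ⊕ β) (α ⊕ β) ℂ) × (α × β → ℂ) => cd x.1 x.2 :=
    (b21.matrix_mul hm).add b22
  have hN : Continuous fun x : (Matrix (α ⊕ β) (α ⊕ β) ℂ) × (α × β → ℂ) =>
      x.1.toBlocks₁₁ * PST.mt x.2 + x.1.toBlocks₁₂ := (b11.matrix_mul hm).add b12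
  have key : ContinuousOn (fun x : (Matrix (α ⊕ β) (α ⊕ β) ℂ) × (α × β → ℂ) =>
      fun p : α × β => ((cd x.1 x.2).det)⁻¹ *
        ((x.1.toBlocks₁₁ * PST.mt x.2 + x.1.toBlocks₁₂) * (cd x.1 x.2).adjugate) p.1 p.2) s := by
    rw [continuousOn_pi]
    intro p
    refine ContinuousOn.mul ?_ ?_
    · refine ContinuousOn.inv₀ (Continuous.matrix_det hcd).continuousOn fun x hx => ?_
      exact (hs x hx).ne_zero
    · exact (Continuous.matrix_elem (hN.matrix_mul (Continuous.matrix_adjugate hcd)) _ _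
        ).continuousOn
  refine key.congr fun x hx => ?_
  funext p
  show ((x.1.toBlocks₁₁ * PST.mt x.2 + x.1.toBlocks₁₂) * (cd x.1 x.2)⁻¹) p.1 p.2 = _
  rw [Matrix.inv_def, Matrix.mul_smul, Matrix.smul_apply, Ring.inverse_eq_inv', smul_eq_mul]

omit [DecidableEq α] [DecidableEq β] in
/-- small matrices -/
private theorem CptB_small {ρ : ℝ} (hρ : 0 < ρ) : OmC α β ρ ∈ nhds (0 : α × β → ℂ) := by
  set n : ℝ := (Fintype.card α : ℝ) * (Fintype.card β : ℝ) + 1 with hn
  have hn0 : 0 < n := by positivity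
  have hδ : 0 < ρ / n := by positivity
  refine Filter.mem_of_superset (Metric.ball_mem_nhds (0 : α × β → ℂ) hδ) ?_
  intro w hw y
  have hw' : ∀ p, ‖w p‖ ≤ ρ / n := by
    intro p
    have h1 := norm_le_pi_norm w p
    have h2 : ‖w‖ < ρ / n := by simpa using hw
    linarith
  have hy : ∀ i, ‖∑ j, w (i, j) * y j‖ ^ 2 ≤
      (ρ / n) ^ 2 * (Fintype.card β * ∑ j, ‖y j‖ ^ 2) := by
    intro i
    have h1 : ‖∑ j, w (i, j) * y j‖ ≤ (ρ / n) * ∑ j, ‖y j‖ := by
      refine (norm_sum_le _ _).trans ?_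
      rw [Finset.mul_sum]
      refine Finset.sum_le_sum fun j _ => ?_
      rw [norm_mul]
      exact mul_le_mul_of_nonneg_right (hw' _) (norm_nonneg _)
    have h2 : (∑ j, ‖y j‖) ^ 2 ≤ (Fintype.card β : ℝ) * ∑ j, ‖y j‖ ^ 2 := by
      have := sq_sum_le_card_mul_sum_sq (s := (Finset.univ : Finset β)) (f := fun j => ‖y j‖)
      simpa using this
    calc ‖∑ j, w (i, j) * y j‖ ^ 2 ≤ ((ρ / n) * ∑ j, ‖y j‖) ^ 2 :=
          pow_le_pow_left₀ (norm_nonneg _) h1 2
      _ = (ρ / n) ^ 2 * (∑ j, ‖y j‖) ^ 2 := by ring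
      _ ≤ _ := mul_le_mul_of_nonneg_left h2 (by positivity)
  have hS : 0 ≤ ∑ j, ‖y j‖ ^ 2 := by positivity
  calc ∑ i, ‖∑ j, w (i, j) * y j‖ ^ 2
      ≤ ∑ _i : α, (ρ / n) ^ 2 * (Fintype.card β * ∑ j, ‖y j‖ ^ 2) :=
        Finset.sum_le_sum fun i _ => hy i
    _ = (Fintype.card α : ℝ) * Fintype.card β * (ρ / n) ^ 2 * ∑ j, ‖y j‖ ^ 2 := by
        rw [Finset.sum_const, Finset.card_univ, nsmul_eq_mul]
        ring
    _ ≤ ρ ^ 2 * ∑ j, ‖y j‖ ^ 2 := by
        refine mul_le_mul_of_nonneg_right ?_ hS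
        have e : (Fintype.card α : ℝ) * Fintype.card β * (ρ / n) ^ 2 =
            ρ ^ 2 * ((n - 1) / n ^ 2) := by
          rw [hn]
          field_simp
          ring
        rw [e]
        have h3 : (n - 1) / n ^ 2 ≤ 1 := by
          rw [div_le_one (by positivity)]
          nlinarith
        nlinarith [sq_nonneg ρ]

end


theorem thm_CptB (h1 : DWC.St_Op2) (h2 : PST.St_UGr) (h3 : PST.St_UAl) (h5 : PST.St_OmT)
    (h6 : St_UTrB) (h7 : St_OmBT) (h8 : St_GrB) (h9 : St_MobB) : St_CptB := by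
  intro α β S _ _ _ _ _ _ pl L χ ε R _ hε
  obtain ⟨-, -, h0, -, -, -⟩ := h5 α β
  obtain ⟨hopen, -, hB0, -, -, hexc, hrs, hex0, -⟩ := h7 α β S pl
  obtain ⟨hBmul, -, -, hBinv, -, -⟩ := h8 α β S pl
  have hrsc : Continuous (rs pl : (α × β → ℂ) → Ga pl → ℂ) :=
    continuous_pi fun p => continuous_apply p.1
  have hmob0 : ∀ g : Matrix (α ⊕ β) (α ⊕ β) ℂ, mobB pl g 0 = rs pl (mob g 0) := by
    intro g
    show rs pl (mob g (ex0 pl 0)) = _
    rw [hex0]
  have hsub : KcB pl L ε R ⊆ OmB pl := by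
    rintro w ⟨g, hg, hgB, -, -, rfl⟩
    exact (h9 α β S pl g hg hgB 0 hB0).1
  have himg : KcB pl L ε R = (fun g : Matrix (α ⊕ β) (α ⊕ β) ℂ => rs pl (mob g 0)) ''
      ({g | IsU g ∧ (∀ i j, ‖g i j‖ ≤ R) ∧ Sh L g ε} ∩ {g | IsB pl g}) := by
    ext w
    constructor
    · rintro ⟨g, a, a', b, c, d⟩
      exact ⟨g, ⟨⟨a, b, c⟩, a'⟩, (hmob0 g).symm.trans d⟩
    · rintro ⟨g, ⟨⟨a, b, c⟩, a'⟩, d⟩
      exact ⟨g, a, a', b, c, (hmob0 g).trans d⟩
  refine ⟨?_, hsub, ?_⟩
  · rw [himg]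
    have hBcl : IsClosed {g : Matrix (α ⊕ β) (α ⊕ β) ℂ | IsB pl g} := by
      have e : {g : Matrix (α ⊕ β) (α ⊕ β) ℂ | IsB pl g} =
          ⋂ p : α ⊕ β, ⋂ q : α ⊕ β, ⋂ _ : pl p ≠ pl q, {g | g p q = 0} := by
        ext g
        simp only [Set.mem_iInter]
        exact Iff.rfl
      rw [e]
      exact isClosed_iInter fun p => isClosed_iInter fun q => isClosed_iInter fun _ =>
        isClosed_eq (Continuous.matrix_elem continuous_id p q) continuous_const
    refine ((CptB_set h2 L ε R).inter_right hBcl).image_of_continuousOn ?_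
    have hc := CptB_mob (α := α) (β := β) {x | IsU x.1 ∧ x.2 = 0} (by
      rintro ⟨g, w⟩ ⟨hg, hw⟩
      simp only at hg hw
      subst hw
      exact (h3 α β Unit g hg 0 h0).2.1)
    refine hrsc.comp_continuousOn (hc.comp
      (f := fun g : Matrix (α ⊕ β) (α ⊕ β) ℂ => (g, (0 : α × β → ℂ))) ?_ ?_)
    · exact (Continuous.prodMk continuous_id continuous_const).continuousOn
    · intro g hg
      exact ⟨hg.1.1, rfl⟩
  · set n : ℝ := (Fintype.card (α ⊕ β) : ℝ) with hn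
    refine ⟨n * (|R| * 2), ?_⟩
    rintro p ⟨g, hg, hgB, hgR, hgS, hgp⟩
    obtain ⟨-, hmul, hone, -, hUmul, hinv, -⟩ := h2 α β Unit
    obtain ⟨hg', e1, e2, -, -⟩ := hinv g hg
    have hg'B := hBinv g hgB
    set g' := Jm α β * g.conjTranspose * Jm α β with hg'def
    have hp : p ∈ OmB pl := by rw [← hgp]; exact (h9 α β S pl g hg hgB 0 hB0).1
    have hmobone : ∀ w : α × β → ℂ, mob (1 : Matrix (α ⊕ β) (α ⊕ β) ℂ) w = w := by
      intro w
      funext q
      have a1 : (1 : Matrix (α ⊕ β) (α ⊕ β) ℂ).toBlocks₁₁ = 1 := by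
        ext i j; simp [Matrix.toBlocks₁₁, Matrix.one_apply]
      have a2 : (1 : Matrix (α ⊕ β) (α ⊕ β) ℂ).toBlocks₁₂ = 0 := by
        ext i j; simp [Matrix.toBlocks₁₂]
      have a3 : (1 : Matrix (α ⊕ β) (α ⊕ β) ℂ).toBlocks₂₁ = 0 := by
        ext i j; simp [Matrix.toBlocks₂₁]
      have a4 : (1 : Matrix (α ⊕ β) (α ⊕ β) ℂ).toBlocks₂₂ = 1 := by
        ext i j; simp [Matrix.toBlocks₂₂, Matrix.one_apply]
      simp [mob, a1, a2, a3, a4, PST.mt]
    have hmobBone : ∀ w : Ga pl → ℂ, mobB pl (1 : Matrix (α ⊕ β) (α ⊕ β) ℂ) w = w := by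
      intro w
      show rs pl (mob 1 (ex0 pl w)) = w
      rw [hmobone, hrs]
    have hgp0 : mobB pl g' p = 0 := by
      rw [← hgp, ← (h9 α β S pl g hg hgB 0 hB0).2.2.2.2.2 g' hg' hg'B, e1, hmobBone]
    have hcont : ContinuousAt (fun w => mobB pl g' w) p := by
      have hc := CptB_mob (α := α) (β := β) {x | x.1 = g' ∧ x.2 ∈ Om α β} (by
        rintro ⟨a, w⟩ ⟨ha, hw⟩
        simp only at ha hw
        subst ha
        exact (h3 α β Unit _ hg' w hw).2.1)
      have hc2 : ContinuousOn (fun w => mobB pl g' w) (OmB pl) := by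
        refine hrsc.comp_continuousOn (hc.comp
          (f := fun w : Ga pl → ℂ => (g', ex0 pl w)) ?_ ?_)
        · exact (Continuous.prodMk continuous_const hexc).continuousOn
        · intro w hw
          exact ⟨rfl, hw⟩
      exact hc2.continuousAt (hopen.mem_nhds hp)
    have hU1 : {w | mobB pl g' w ∈ OmBC pl (1 / 4)} ∈ nhds p := by
      apply hcont
      show OmBC pl (1 / 4) ∈ nhds (mobB pl g' p)
      rw [hgp0]
      have h10 : (ex0 pl : (Ga pl → ℂ) → α × β → ℂ) ⁻¹' OmC α β (1 / 4) ∈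
          nhds (0 : Ga pl → ℂ) := by
        apply hexc.continuousAt
        rw [hex0]
        exact CptB_small (by norm_num)
      exact h10
    refine ⟨{w | mobB pl g' w ∈ OmBC pl (1 / 4)} ∩ OmB pl,
      Filter.inter_mem hU1 (hopen.mem_nhds hp), ?_⟩
    rintro w ⟨hw1, hw2⟩
    have hw3 : mobB pl g' w ∈ OmB pl := (h9 α β S pl g' hg' hg'B w hw2).1
    obtain ⟨h, hh, hhB, hhw⟩ := h6 α β S pl (mobB pl g' w) hw3
    have hh4 : mob h 0 ∈ OmC α β (1 / 4) := by
      have h11 := (h9 α β S pl h hh hhB 0 hB0).2.1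
      rw [hex0] at h11
      rw [← h11, hhw]
      exact hw1
    obtain ⟨b1, b2⟩ := h1 α β h hh hh4
    refine ⟨g * h, hUmul g h hg hh, (hBmul g h hgB hhB).1, ?_, ?_, ?_⟩
    · intro i j
      rw [Matrix.mul_apply]
      refine (norm_sum_le _ _).trans ?_
      have : ∀ k ∈ (Finset.univ : Finset (α ⊕ β)), ‖g i k * h k j‖ ≤ |R| * 2 := by
        intro k _
        rw [norm_mul]
        exact mul_le_mul ((hgR i k).trans (le_abs_self R)) (b2 k j) (norm_nonneg _)
          (abs_nonneg R)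
      refine (Finset.sum_le_sum this).trans ?_
      rw [Finset.sum_const, Finset.card_univ, nsmul_eq_mul]
    · intro x hx hxL
      have hx1 : act h x ≠ 0 := by
        intro hx0
        apply hx
        rw [← (CptB_inv h2 hh x).1, hx0, CptB_zero h2]
      rw [hmul] at hxL
      have h5 := hgS _ hx1 hxL
      have h6 := b1 x
      nlinarith
    · rw [(h9 α β S pl h hh hhB 0 hB0).2.2.2.2.2 g hg hgB, hhw,
        ← (h9 α β S pl g' hg' hg'B w hw2).2.2.2.2.2 g hg hgB, e2, hmobBone]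

end WPP
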