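import Pool.Agent.WPP.StR
import Pool.Agent.WPP.StC
import Pool.Agent.PST.UGr

/-!
# WPP, module DetB: the block determinants of automorphisms are roots of unity
-/

set_option autoImplicit false
set_option linter.unusedVariables false

namespace WPP

open scoped ComplexConjugate
open GAM (H E F pd pdl PLat IsTh OddTor IsDel Gro IsLat)
open PST DWC
open Module

section

variable {ι : Type} [Fintype ι] [DecidableEq ι]

/-- the determinant of a matrix preserving a lattice is integral -/
private theorem DetB_int (g : Matrix ι ι ℂ) (Λ : Submodule ℤ (ι → ℂ)) [Module.Finite ℤ Λ]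
    (hsp : Submodule.span ℂ (Λ : Set (ι → ℂ)) = ⊤)
    (hg : ∀ x ∈ Λ, g.mulVec x ∈ Λ) : IsIntegral ℤ g.det := by
  classical
  let T : Module.End ℤ Λ :=
    { toFun := fun x => ⟨g.mulVec x, hg x x.2⟩
      map_add' := fun x y => Subtype.ext (by
        show g.mulVec ((x : ι → ℂ) + y) = g.mulVec x + g.mulVec y
        rw [Matrix.mulVec_add])
      map_smul' := fun m x => Subtype.ext (by
        show g.mulVec (m • (x : ι → ℂ)) = m • g.mulVec x
        exact Matrix.mulVec_smul g m (x : ι → ℂ)) }
  obtain ⟨p, hp, hp0⟩ := (Module.End.isIntegral (R := ℤ) (M := Λ)).isIntegral T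
  have hpow : ∀ (k : ℕ) (x : Λ), (((T ^ k) x : Λ) : ι → ℂ) = (g ^ k).mulVec x := by
    intro k
    induction k with
    | zero => intro x; simp
    | succ k ih =>
      intro x
      rw [pow_succ', Module.End.mul_apply]
      show g.mulVec (((T ^ k) x : Λ) : ι → ℂ) = _
      rw [ih, pow_succ', Matrix.mulVec_mulVec]
  have hae : ∀ (q : Polynomial ℤ) (x : Λ),
      (((Polynomial.aeval T q) x : Λ) : ι → ℂ) = (Polynomial.aeval g q).mulVec x := by
    intro q
    induction q using Polynomial.induction_on' with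
    | add p q hp hq =>
      intro x
      rw [map_add, map_add, LinearMap.add_apply, Submodule.coe_add, hp, hq, Matrix.add_mulVec]
    | monomial n a =>
      intro x
      rw [Polynomial.aeval_monomial, Polynomial.aeval_monomial, Module.End.mul_apply,
        Module.algebraMap_end_apply, Submodule.coe_smul, hpow, ← Algebra.smul_def,
        Matrix.smul_mulVec]
  have h1 : Polynomial.aeval g p = 0 := by
    have h2 : ∀ x : ι → ℂ, (Polynomial.aeval g p).mulVec x = 0 := by
      intro x
      have hx : x ∈ Submodule.span ℂ (Λ : Set (ι → ℂ)) := by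
        rw [hsp]
        exact Submodule.mem_top
      induction hx using Submodule.span_induction with
      | mem y hy =>
        rw [← hae p ⟨y, hy⟩]
        have h3 : Polynomial.aeval T p = 0 := hp0
        rw [h3]
        rfl
      | zero => rw [Matrix.mulVec_zero]
      | add y z _ _ hy hz => rw [Matrix.mulVec_add, hy, hz, add_zero]
      | smul a y _ hy => rw [Matrix.mulVec_smul, hy, smul_zero]
    ext i j
    have h3 := congrFun (h2 (Pi.single j 1)) i
    rw [Matrix.mulVec_single_one] at h3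
    exact h3
  rw [Matrix.det_eq_prod_roots_charpoly]
  refine IsIntegral.multiset_prod fun μ hμ => ?_
  have hroot : g.charpoly.IsRoot μ := (Polynomial.mem_roots'.1 hμ).2
  have hs := Matrix.mem_spectrum_of_isRoot_charpoly hroot
  have h2 := spectrum.subset_polynomial_aeval g (p.map (Int.castRingHom ℂ)) ⟨μ, hs, rfl⟩
  have h3 : Polynomial.aeval g (p.map (Int.castRingHom ℂ)) = 0 := by
    rw [← h1]
    exact Polynomial.aeval_map_algebraMap ℂ g p
  have hne : Nontrivial (Matrix ι ι ℂ) := by
    by_contra hn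
    rw [not_nontrivial_iff_subsingleton] at hn
    have h5 : IsEmpty ι := by
      by_contra hne
      rw [not_isEmpty_iff] at hne
      obtain ⟨i⟩ := hne
      have h6 := congrFun (congrFun (Subsingleton.elim (1 : Matrix ι ι ℂ) 0) i) i
      rw [Matrix.one_apply_eq, Matrix.zero_apply] at h6
      exact one_ne_zero h6
    rw [Matrix.charpoly_isEmpty] at hroot
    simp at hroot
  rw [h3, spectrum.zero_eq] at h2
  refine ⟨p, hp, ?_⟩
  have h4 : Polynomial.eval μ (p.map (Int.castRingHom ℂ)) = 0 := h2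
  rw [Polynomial.eval_map] at h4
  exact h4

end

section

variable {α β : Type} [Fintype α] [Fintype β] [DecidableEq α] [DecidableEq β]

/-- the coordinates `X` -/
private noncomputable def DetB_phi (α β : Type) [Fintype α] [Fintype β] [DecidableEq α]
    [DecidableEq β] : (Ix α β Unit → ℂ) →ₗ[ℝ] (α ⊕ β → ℂ) where
  toFun x := fun p => sw x (p, ())
  map_add' x y := by
    funext p
    rw [UGr_sw_add]
    rfl
  map_smul' r x := by
    funext p
    have h1 : (r • x : Ix α β Unit → ℂ) = (r : ℂ) • x := by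
      funext q
      simp
    rw [h1, UGr_sw_smul]
    simp

private theorem DetB_phi_act (g : Matrix (α ⊕ β) (α ⊕ β) ℂ) (x : Ix α β Unit → ℂ) :
    DetB_phi α β (act g x) = g.mulVec (DetB_phi α β x) := by
  funext p
  show sw (act g x) (p, ()) = _
  unfold act
  rw [UGr_sw_sw]
  rfl

private theorem DetB_phi_surj : Function.Surjective (DetB_phi α β) := by
  intro X
  refine ⟨sw fun p => X p.1, ?_⟩
  funext p
  show sw (sw fun p : Ix α β Unit => X p.1) (p, ()) = _
  rw [UGr_sw_sw]


/-- the block of a block diagonal matrix acts on the coordinates of the block -/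
private theorem DetB_blk {S : Type} [DecidableEq S] {pl : α ⊕ β → S} {γ : Matrix (α ⊕ β) (α ⊕ β) ℂ}
    (hB : IsB pl γ) (s : S) (X : α ⊕ β → ℂ) :
    (bk pl s γ).mulVec (fun p => X p.1) = fun p => γ.mulVec X p.1 := by
  funext p
  show ∑ q : {p : α ⊕ β // pl p = s}, γ p.1 q.1 * X q.1 = ∑ q, γ p.1 q * X q
  rw [← Finset.sum_subtype (Finset.univ.filter fun r => pl r = s)
    (fun r => by simp) (fun r => γ p.1 r * X r)]
  refine Finset.sum_subset (Finset.filter_subset _ _) fun r _ hr => ?_
  have h1 : pl r ≠ s := by simpa using hr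
  rw [hB p.1 r (fun h2 => h1 (h2.symm.trans p.2)), zero_mul]

/-- the determinant of a block is integral -/
private theorem DetB_integral {S : Type} [DecidableEq S] {pl : α ⊕ β → S}
    {γ : Matrix (α ⊕ β) (α ⊕ β) ℂ} {L : Submodule ℤ (Ix α β Unit → ℂ)}
    {χ : (Ix α β Unit → ℂ) → ℂ} (hL : PLat L χ) (hB : IsB pl γ) (hγ : ∀ x ∈ L, act γ x ∈ L)
    (s : S) : IsIntegral ℤ (dt pl s γ) := by
  obtain ⟨b, hb⟩ := hL.basis
  set r : (α ⊕ β → ℂ) →ₗ[ℝ] ({p : α ⊕ β // pl p = s} → ℂ) :=
    { toFun := fun X p => X p.1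
      map_add' := fun _ _ => rfl
      map_smul' := fun _ _ => rfl } with hr
  set u : Ix α β Unit ⊕ Ix α β Unit → ({p : α ⊕ β // pl p = s} → ℂ) :=
    fun k => r (DetB_phi α β (b k)) with hu
  set Λ : Submodule ℤ ({p : α ⊕ β // pl p = s} → ℂ) := Submodule.span ℤ (Set.range u) with hΛ
  have hfin : Module.Finite ℤ Λ := Module.Finite.span_of_finite ℤ (Set.finite_range u)
  have hmem : ∀ x ∈ L, r (DetB_phi α β x) ∈ Λ := by
    intro x hx
    rw [hb] at hx
    induction hx using Submodule.span_induction with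
    | mem y hy =>
      obtain ⟨k, rfl⟩ := hy
      exact Submodule.subset_span ⟨k, rfl⟩
    | zero => rw [map_zero, map_zero]; exact zero_mem _
    | add y z _ _ hy hz => rw [map_add, map_add]; exact add_mem hy hz
    | smul a y _ hy => rw [map_zsmul, map_zsmul]; exact Submodule.smul_mem _ _ hy
  have hbL : ∀ k, b k ∈ L := fun k => by
    rw [hb]
    exact Submodule.subset_span ⟨k, rfl⟩
  have hstab : ∀ x ∈ Λ, (bk pl s γ).mulVec x ∈ Λ := by
    intro x hx
    induction hx using Submodule.span_induction with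
    | mem y hy =>
      obtain ⟨k, rfl⟩ := hy
      have h1 : (bk pl s γ).mulVec (u k) = r (DetB_phi α β (act γ (b k))) := by
        rw [DetB_phi_act]
        exact DetB_blk hB s (DetB_phi α β (b k))
      rw [h1]
      exact hmem _ (hγ _ (hbL k))
    | zero => rw [Matrix.mulVec_zero]; exact zero_mem _
    | add y z _ _ hy hz => rw [Matrix.mulVec_add]; exact add_mem hy hz
    | smul a y _ hy => rw [Matrix.mulVec_smul]; exact Submodule.smul_mem _ _ hy
  have hrs : Function.Surjective r := by
    classical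
    intro Y
    refine ⟨fun p => if h : pl p = s then Y ⟨p, h⟩ else 0, ?_⟩
    funext p
    show (if h : pl p.1 = s then Y ⟨p.1, h⟩ else 0) = Y p
    rw [dif_pos p.2]
  have hspR : Submodule.span ℝ (Set.range u) = ⊤ := by
    have h1 : Set.range u = (r ∘ₗ DetB_phi α β) '' Set.range b := by
      rw [← Set.range_comp]
      rfl
    rw [h1, ← Submodule.map_span, b.span_eq, Submodule.map_top, LinearMap.range_eq_top]
    exact hrs.comp DetB_phi_surj
  have hspC : Submodule.span ℂ (Set.range u) = ⊤ := by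
    rw [eq_top_iff]
    intro x _
    have h1 : x ∈ Submodule.span ℝ (Set.range u) := by
      rw [hspR]
      exact Submodule.mem_top
    exact Submodule.span_subset_span ℝ ℂ _ h1
  have hspL : Submodule.span ℂ (Λ : Set ({p : α ⊕ β // pl p = s} → ℂ)) = ⊤ := by
    rw [eq_top_iff, ← hspC]
    exact Submodule.span_mono Submodule.subset_span
  exact DetB_int (bk pl s γ) Λ hspL hstab

end

/-- the exponent -/
private theorem DetB_exp (K : Type) [Field K] [NumberField K] : ∃ e : ℕ, e ≠ 0 ∧
    ∀ u : K, IsIntegral ℤ u → (∀ σ : K →+* ℂ, ‖σ u‖ = 1) → u ^ e = 1 := by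
  classical
  have hfin := NumberField.Embeddings.finite_of_norm_le K ℂ 1
  have hex : ∀ u : K, ∃ n : ℕ, n ≠ 0 ∧ (IsIntegral ℤ u → (∀ σ : K →+* ℂ, ‖σ u‖ = 1) →
      u ^ n = 1) := by
    intro u
    by_cases h : IsIntegral ℤ u ∧ ∀ σ : K →+* ℂ, ‖σ u‖ = 1
    · obtain ⟨n, hn, hn2⟩ := NumberField.Embeddings.pow_eq_one_of_norm_eq_one K ℂ h.1 h.2
      exact ⟨n, by omega, fun _ _ => hn2⟩
    · exact ⟨1, one_ne_zero, fun h1 h2 => absurd ⟨h1, h2⟩ h⟩
  choose n hn hn2 using hex
  refine ⟨∏ u ∈ hfin.toFinset, n u, Finset.prod_ne_zero_iff.2 fun u _ => hn u,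
    fun u hu hσ => ?_⟩
  have hmem : u ∈ hfin.toFinset := by
    rw [Set.Finite.mem_toFinset]
    exact ⟨hu, fun σ => (hσ σ).le⟩
  obtain ⟨m, hm⟩ := Finset.dvd_prod_of_mem n hmem
  rw [hm, pow_mul, hn2 u hu hσ, one_pow]

/-- **DetB** -/
theorem thm_DetB : St_GrB → St_ResB → St_DetB := by
  intro hGrB hResB S K _ _ _ _ c φ t hK
  obtain ⟨e, he, he2⟩ := DetB_exp K
  refine ⟨e, he, ?_⟩
  intro α β _ _ _ _ pl N L χ γ hN hL hKL hU hB hγ s
  have hγ' : ∀ x ∈ L, act γ x ∈ L := fun x hx => (hγ x).1 hx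
  obtain ⟨u, hu⟩ := hResB α β S K pl c φ t N L χ γ hK hN hL hKL hB hγ'
  have hnorm : ∀ s, ‖dt pl s γ‖ = 1 := (hGrB α β S pl).2.2.2.2.1 γ hB hU
  have hint : IsIntegral ℤ u := by
    have h1 := DetB_integral hL hB hγ' s
    rw [← hu s] at h1
    exact (isIntegral_algHom_iff (φ s).toIntAlgHom (φ s).injective).1 h1
  have hσ : ∀ σ : K →+* ℂ, ‖σ u‖ = 1 := by
    intro σ
    obtain ⟨x, hx⟩ := hK.ty.2 σ
    rcases x with s' | s'
    · have h1 : φ s' = σ := hx
      rw [← h1, hu]
      exact hnorm s'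
    · have h1 : (φ s').comp c = σ := hx
      rw [← h1, RingHom.comp_apply, ← hK.cm.cc, RCLike.norm_conj, hu]
      exact hnorm s'
  have h1 := he2 u hint hσ
  rw [← hu s, ← map_pow, h1, map_one]

end WPP
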