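import Pool.Agent.WPP.StR
import Pool.Agent.GAM.Bas
import Pool.Agent.PST.UGr

/-!
# WPP [ExtB]: a block diagonal isometry from Gram matrices
-/

set_option autoImplicit false
set_option linter.unusedSectionVars false

namespace WPP

open scoped ComplexConjugate
open GAM (H E F pd pdl PLat IsTh OddTor IsDel Gro IsLat)
open PST DWC

section

variable {α β : Type} [Fintype α] [Fintype β] [DecidableEq α] [DecidableEq β]

private theorem ExtB_E_sum_left {ι κ : Type} [Fintype ι] (s : Finset κ) (a : κ → ℝ)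
    (x : κ → ι → ℂ) (y : ι → ℂ) : E (∑ i ∈ s, a i • x i) y = ∑ i ∈ s, a i * E (x i) y := by
  classical
  induction s using Finset.induction_on with
  | empty => rw [Finset.sum_empty, Finset.sum_empty, GAM.E_zero_left]
  | insert i s hi ih =>
    rw [Finset.sum_insert hi, Finset.sum_insert hi, GAM.E_add_left, GAM.E_rsmul_left, ih]

private theorem ExtB_E_sum_right {ι κ : Type} [Fintype ι] (s : Finset κ) (a : κ → ℝ)
    (x : κ → ι → ℂ) (y : ι → ℂ) : E y (∑ i ∈ s, a i • x i) = ∑ i ∈ s, a i * E y (x i) := by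
  classical
  induction s using Finset.induction_on with
  | empty => rw [Finset.sum_empty, Finset.sum_empty, GAM.E_zero_right]
  | insert i s hi ih =>
    rw [Finset.sum_insert hi, Finset.sum_insert hi, GAM.E_add_right, GAM.E_rsmul_right, ih]

private theorem ExtB_nondeg {ι : Type} [Fintype ι] (x : ι → ℂ) (h : ∀ y, E x y = 0) : x = 0 := by
  have h1 := h (Complex.I • x)
  unfold E at h1
  rw [GAM.H_smul_right, Complex.conj_I] at h1
  have h2 : (-Complex.I * H x x).im = -(H x x).re := by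
    rw [Complex.mul_im]
    simp
  rw [h2] at h1
  exact GAM.H_self_eq_zero (by linarith)

/-- the linear map attached to a family -/
private noncomputable def ExtB_B {M : ℕ} (b : Fin M → Ix α β Unit → ℂ) :
    (Fin M → ℝ) →ₗ[ℝ] (Ix α β Unit → ℂ) where
  toFun a := ∑ i, a i • b i
  map_add' a a' := by
    simp only [Pi.add_apply, add_smul, Finset.sum_add_distrib]
  map_smul' r a := by
    simp only [Pi.smul_apply, smul_eq_mul, mul_smul, Finset.smul_sum, RingHom.id_apply]

private theorem ExtB_B_apply {M : ℕ} (b : Fin M → Ix α β Unit → ℂ) (a : Fin M → ℝ) :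
    ExtB_B b a = ∑ i, a i • b i := rfl

private theorem ExtB_int {M : ℕ} (b : Fin M → Ix α β Unit → ℂ) (a : Fin M → ℤ) :
    ∑ i, a i • b i = ExtB_B b (fun i => (a i : ℝ)) := by
  rw [ExtB_B_apply]
  refine Finset.sum_congr rfl fun i _ => ?_
  rw [Int.cast_smul_eq_zsmul]

private theorem ExtB_surj {M : ℕ} (L : Submodule ℤ (Ix α β Unit → ℂ))
    (χ : (Ix α β Unit → ℂ) → ℂ) (b : Fin M → Ix α β Unit → ℂ) (hL : PLat L χ)
    (hb : Submodule.span ℤ (Set.range b) = L) : Function.Surjective (ExtB_B b) := by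
  rw [← LinearMap.range_eq_top]
  obtain ⟨e, he⟩ := hL.basis
  rw [eq_top_iff, ← e.span_eq, Submodule.span_le]
  rintro _ ⟨k, rfl⟩
  have h1 : e k ∈ L := by
    rw [he]
    exact Submodule.subset_span ⟨k, rfl⟩
  rw [← hb, Submodule.mem_span_range_iff_exists_fun] at h1
  obtain ⟨a, ha⟩ := h1
  exact ⟨fun i => (a i : ℝ), by rw [← ExtB_int, ha]⟩

private theorem ExtB_ker {M : ℕ} (b c : Fin M → Ix α β Unit → ℂ)
    (hc : Function.Surjective (ExtB_B c))
    (hE : ∀ i j, E (b i) (b j) = E (c i) (c j)) (a : Fin M → ℝ) (ha : ExtB_B b a = 0) :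
    ExtB_B c a = 0 := by
  apply ExtB_nondeg
  intro y
  obtain ⟨a', rfl⟩ := hc y
  rw [ExtB_B_apply, ExtB_B_apply, ExtB_E_sum_right]
  apply Finset.sum_eq_zero
  intro j _
  have h1 : E (∑ i, a i • c i) (c j) = E (∑ i, a i • b i) (b j) := by
    rw [ExtB_E_sum_left, ExtB_E_sum_left]
    exact Finset.sum_congr rfl fun i _ => by rw [hE i j]
  rw [h1, ← ExtB_B_apply, ha, GAM.E_zero_left, mul_zero]

private theorem ExtB_mu (D : α ⊕ β → ℂ) (X : Ix α β Unit → ℂ) :
    mu (Matrix.diagonal D) X = fun p => D p.1 * X p := by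
  funext p
  obtain ⟨q, k⟩ := p
  simp only [mu]
  rw [Finset.sum_eq_single q]
  · rw [Matrix.diagonal_apply_eq]
  · intro b _ hb
    rw [Matrix.diagonal_apply_ne _ hb.symm, zero_mul]
  · intro h
    exact absurd (Finset.mem_univ _) h

/-- a real linear function of a complex variable which intertwines two multiplications -/
private theorem ExtB_fun (f : ℂ → ℂ) (hadd : ∀ x y, f (x + y) = f x + f y)
    (hr : ∀ (r : ℝ) (x : ℂ), f ((r : ℂ) * x) = (r : ℂ) * f x) (p q : ℂ) (hpq : p ≠ conj q)
    (hc : ∀ z, f (q * z) = p * f z) : (∀ z, f z = z * f 1) ∧ (p ≠ q → f 1 = 0) := by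
  obtain ⟨A, hA⟩ : ∃ A : ℂ, A = (f 1 - Complex.I * f Complex.I) / 2 := ⟨_, rfl⟩
  obtain ⟨B, hB⟩ : ∃ B : ℂ, B = (f 1 + Complex.I * f Complex.I) / 2 := ⟨_, rfl⟩
  have hI : Complex.I * Complex.I = -1 := Complex.I_mul_I
  have hf : ∀ z, f z = A * z + B * conj z := by
    intro z
    have h1 : z = (z.re : ℂ) * 1 + (z.im : ℂ) * Complex.I := by
      rw [mul_one]
      exact (Complex.re_add_im z).symm
    have h2 : conj z = (z.re : ℂ) - (z.im : ℂ) * Complex.I := by
      conv_lhs => rw [h1]
      rw [map_add, map_mul, map_mul, Complex.conj_ofReal, Complex.conj_ofReal, map_one,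
        Complex.conj_I]
      ring
    have h3 : f z = (z.re : ℂ) * f 1 + (z.im : ℂ) * f Complex.I := by
      conv_lhs => rw [h1]
      rw [hadd, hr, hr]
    rw [h3, h2, hA, hB]
    have h4 : z = (z.re : ℂ) + (z.im : ℂ) * Complex.I := (Complex.re_add_im z).symm
    have h5 : (f 1 - Complex.I * f Complex.I) / 2 * z =
        (f 1 - Complex.I * f Complex.I) / 2 * ((z.re : ℂ) + (z.im : ℂ) * Complex.I) := by
      rw [← h4]
    rw [h5]
    linear_combination ((z.im : ℂ) * f Complex.I) * hI
  have e1 := hc 1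
  have e2 := hc Complex.I
  rw [hf, hf 1, map_mul, map_one] at e1
  rw [hf, hf Complex.I, map_mul, Complex.conj_I] at e2
  have e3 : A * (q - p) + B * (conj q - p) = 0 := by linear_combination e1
  have e4 : A * (q - p) - B * (conj q - p) = 0 := by
    linear_combination (-Complex.I) * e2 + (A * (q - p) - B * (conj q - p)) * hI
  have e5 : A * (q - p) = 0 := by linear_combination (e3 + e4) / 2
  have e6 : B * (conj q - p) = 0 := by linear_combination (e3 - e4) / 2
  have hB0 : B = 0 := by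
    rcases mul_eq_zero.1 e6 with h | h
    · exact h
    · exact absurd (sub_eq_zero.1 h).symm hpq
  refine ⟨fun z => ?_, fun h => ?_⟩
  · rw [hf z, hf 1, hB0]
    ring
  · have hA0 : A = 0 := by
      rcases mul_eq_zero.1 e5 with h' | h'
      · exact h'
      · exact absurd (sub_eq_zero.1 h').symm h
    rw [hf 1, hA0, hB0]
    ring

end

theorem thm_ExtB : St_ExtB := by
  intro α β S _ _ _ _ _ _ pl th N n M L χ b c hd hN hL hK hb hc hE hEK hcong
  have hsb := ExtB_surj L χ b hL hb
  have hsc := ExtB_surj L χ c hL hc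
  obtain ⟨s, hs⟩ := (ExtB_B b).exists_rightInverse_of_surjective (LinearMap.range_eq_top.mpr hsb)
  obtain ⟨T, hT⟩ : ∃ T : (Ix α β Unit → ℂ) →ₗ[ℝ] (Ix α β Unit → ℂ), T = (ExtB_B c).comp s :=
    ⟨_, rfl⟩
  have hTB : ∀ a, T (ExtB_B b a) = ExtB_B c a := by
    intro a
    have h1 : ExtB_B b (s (ExtB_B b a)) = ExtB_B b a := LinearMap.congr_fun hs (ExtB_B b a)
    have h2 : ExtB_B b (s (ExtB_B b a) - a) = 0 := by rw [map_sub, h1, sub_self]
    have h3 := ExtB_ker b c hsc hE _ h2
    rw [map_sub, sub_eq_zero] at h3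
    rw [hT]
    exact h3
  have hTb : ∀ i, T (b i) = c i := by
    intro i
    have h1 : ∀ e : Fin M → Ix α β Unit → ℂ, ExtB_B e (Pi.single i 1) = e i := by
      intro e
      rw [ExtB_B_apply, Finset.sum_eq_single i]
      · rw [Pi.single_eq_same, one_smul]
      · intro j _ hj
        rw [Pi.single_eq_of_ne hj, zero_smul]
      · intro h
        exact absurd (Finset.mem_univ _) h
    rw [← h1 b, hTB, h1 c]
  have hTE : ∀ x y, E (T x) (T y) = E x y := by
    intro x y
    obtain ⟨a, rfl⟩ := hsb x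
    obtain ⟨a', rfl⟩ := hsb y
    rw [hTB, hTB, ExtB_B_apply, ExtB_B_apply, ExtB_B_apply, ExtB_B_apply, ExtB_E_sum_left,
      ExtB_E_sum_left]
    refine Finset.sum_congr rfl fun i _ => ?_
    rw [ExtB_E_sum_right, ExtB_E_sum_right]
    congr 1
    exact Finset.sum_congr rfl fun j _ => by rw [hE i j]
  have hTinj : ∀ x, T x = 0 → x = 0 := by
    intro x hx
    apply ExtB_nondeg
    intro y
    rw [← hTE, hx, GAM.E_zero_left]
  -- `T` commutes with `κ`
  obtain ⟨D, hD⟩ : ∃ D : α ⊕ β → ℂ, D = fun p => (N : ℂ) * th (pl p) := ⟨_, rfl⟩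
  have hκ : kapB pl th N = Matrix.diagonal D := by
    rw [hD]
    rfl
  obtain ⟨Kl, hKl⟩ : ∃ Kl : (Ix α β Unit → ℂ) →ₗ[ℝ] (Ix α β Unit → ℂ),
      ∀ x, Kl x = act (kapB pl th N) x := by
    refine ⟨{ toFun := act (kapB pl th N), map_add' := fun x y => ?_, map_smul' := fun r x => ?_ },
      fun _ => rfl⟩
    · exact ((PST.thm_UGr α β Unit).2.2.2.1 (kapB pl th N) x y 1).1
    · have h := ((PST.thm_UGr α β Unit).2.2.2.1 (kapB pl th N) x x r).2
      have h4 : ∀ y : Ix α β Unit → ℂ, r • y = (r : ℂ) • y := fun y => by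
        funext p
        simp
      rw [RingHom.id_apply, h4, h4]
      exact h
  have hKb : ∀ i, T (act (kapB pl th N) (b i)) = act (kapB pl th N) (c i) := by
    intro i
    rw [← sub_eq_zero]
    apply ExtB_nondeg
    intro y
    obtain ⟨a, rfl⟩ := hsc y
    rw [ExtB_B_apply, ExtB_E_sum_right]
    apply Finset.sum_eq_zero
    intro j _
    have h2 : E (T (act (kapB pl th N) (b i))) (c j) = E (act (kapB pl th N) (b i)) (b j) := by
      rw [← hTb j, hTE]
    rw [GAM.E_sub_left, h2, hEK i j, sub_self, mul_zero]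
  have hKT : ∀ x, T (act (kapB pl th N) x) = act (kapB pl th N) (T x) := by
    intro x
    obtain ⟨a, rfl⟩ := hsb x
    rw [hTB, ← hKl, ← hKl, ExtB_B_apply, ExtB_B_apply, map_sum, map_sum, map_sum]
    refine Finset.sum_congr rfl fun i _ => ?_
    rw [map_smul, map_smul, map_smul, hKl, hKl, hKb]
  -- the matrix
  obtain ⟨T', hT'⟩ : ∃ T' : (Ix α β Unit → ℂ) → (Ix α β Unit → ℂ), T' = fun X => sw (T (sw X)) :=
    ⟨_, rfl⟩
  have hT'add : ∀ X Y, T' (X + Y) = T' X + T' Y := by
    intro X Y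
    simp only [hT']
    rw [UGr_sw_add, map_add, UGr_sw_add]
  have hT'r : ∀ (r : ℝ) (X : Ix α β Unit → ℂ), T' ((r : ℂ) • X) = (r : ℂ) • T' X := by
    intro r X
    have h4 : ∀ y : Ix α β Unit → ℂ, (r : ℂ) • y = r • y := fun y => by
      funext p
      simp
    simp only [hT']
    rw [UGr_sw_smul, h4, map_smul, ← h4, UGr_sw_smul]
  have hT'D : ∀ X : Ix α β Unit → ℂ, T' (fun p => D p.1 * X p) = fun p => D p.1 * T' X p := by
    intro X
    have h1 : sw (fun p => D p.1 * X p) = act (kapB pl th N) (sw X) := by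
      unfold act
      rw [UGr_sw_sw, hκ, ExtB_mu]
    simp only [hT']
    rw [h1, hKT]
    unfold act
    rw [UGr_sw_sw, hκ, ExtB_mu]
  have hDne : ∀ p q, D p ≠ conj (D q) := by
    intro p q h
    rw [hD] at h
    simp only [map_mul, map_natCast] at h
    exact hd.nc _ _ (mul_left_cancel₀ (Nat.cast_ne_zero.2 hN) h)
  have hDeq : ∀ p q, pl p ≠ pl q → D p ≠ D q := by
    intro p q h h1
    rw [hD] at h1
    exact h (hd.inj _ _ (mul_left_cancel₀ (Nat.cast_ne_zero.2 hN) h1))
  have hfun : ∀ p q : α ⊕ β, (∀ z : ℂ, T' (z • Pi.single (q, ()) 1) (p, ()) =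
      z * T' (Pi.single (q, ()) 1) (p, ())) ∧
      (D p ≠ D q → T' (Pi.single (q, ()) 1) (p, ()) = 0) := by
    intro p q
    have h := ExtB_fun (fun z => T' (z • Pi.single (q, ()) 1) (p, ()))
      (fun x y => by rw [add_smul, hT'add]; rfl)
      (fun r x => by rw [mul_smul, hT'r]; rfl) (D p) (D q) (hDne p q) (fun z => by
        have h1 : ((D q * z) • (Pi.single (q, ()) 1 : Ix α β Unit → ℂ)) =
            fun r => D r.1 * (z • (Pi.single (q, ()) 1 : Ix α β Unit → ℂ)) r := by
          funext r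
          obtain ⟨r, k⟩ := r
          by_cases hr : r = q
          · subst hr
            simp
          · have h2 : (Pi.single (q, ()) 1 : Ix α β Unit → ℂ) (r, k) = 0 := by
              rw [Pi.single_eq_of_ne]
              intro h3
              exact hr (congrArg Prod.fst h3)
            rw [Pi.smul_apply, Pi.smul_apply, h2]
            simp
        show T' ((D q * z) • Pi.single (q, ()) 1) (p, ()) = _
        rw [h1, hT'D])
    simp only [one_smul] at h
    exact h
  have hsg : ∀ X : Ix α β Unit → ℂ,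
      X = ∑ r : α ⊕ β, X (r, ()) • (Pi.single (r, ()) 1 : Ix α β Unit → ℂ) := by
    intro X
    funext p'
    obtain ⟨q', k'⟩ := p'
    rw [Finset.sum_apply, Finset.sum_eq_single q']
    · simp
    · intro r _ hr
      rw [Pi.smul_apply, Pi.single_eq_of_ne, smul_zero]
      intro h
      exact hr (congrArg Prod.fst h).symm
    · intro h
      exact absurd (Finset.mem_univ _) h
  have hT'sum : ∀ (s : Finset (α ⊕ β)) (g : α ⊕ β → Ix α β Unit → ℂ),
      T' (∑ r ∈ s, g r) = ∑ r ∈ s, T' (g r) := by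
    intro s g
    induction s using Finset.induction_on with
    | empty =>
      rw [Finset.sum_empty, Finset.sum_empty]
      have h := hT'r 0 0
      simpa using h
    | insert i s hi ih => rw [Finset.sum_insert hi, Finset.sum_insert hi, hT'add, ih]
  obtain ⟨γ, hγ⟩ : ∃ γ : Matrix (α ⊕ β) (α ⊕ β) ℂ,
      γ = Matrix.of fun q r => T' (Pi.single (r, ()) 1) (q, ()) := ⟨_, rfl⟩
  have hmu : ∀ X : Ix α β Unit → ℂ, mu γ X = T' X := by
    intro X
    funext p
    obtain ⟨q, k⟩ := p
    conv_rhs => rw [hsg X]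
    rw [hT'sum, Finset.sum_apply]
    simp only [mu]
    refine Finset.sum_congr rfl fun r _ => ?_
    have h := (hfun q r).1 (X (r, ()))
    rw [h, hγ, Matrix.of_apply]
    exact mul_comm _ _
  have hact : ∀ x : Ix α β Unit → ℂ, act γ x = T x := by
    intro x
    unfold act
    rw [hmu]
    simp only [hT']
    rw [UGr_sw_sw, UGr_sw_sw]
  have hlat : ∀ x : Ix α β Unit → ℂ, x ∈ L ↔ act γ x ∈ L := by
    intro x
    rw [hact]
    constructor
    · intro hx
      rw [← hb, Submodule.mem_span_range_iff_exists_fun] at hx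
      obtain ⟨a, ha⟩ := hx
      rw [← ha, ExtB_int, hTB, ← ExtB_int, ← hc]
      exact Submodule.mem_span_range_iff_exists_fun ℤ |>.mpr ⟨a, rfl⟩
    · intro hx
      rw [← hc, Submodule.mem_span_range_iff_exists_fun] at hx
      obtain ⟨a, ha⟩ := hx
      rw [ExtB_int, ← hTB, ← sub_eq_zero, ← map_sub] at ha
      have h1 := hTinj _ ha
      rw [sub_eq_zero] at h1
      rw [← h1, ← ExtB_int, ← hb]
      exact Submodule.mem_span_range_iff_exists_fun ℤ |>.mpr ⟨a, rfl⟩
  have hblk : IsB pl γ := by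
    intro p q hpq
    rw [hγ, Matrix.of_apply]
    exact (hfun p q).2 (hDeq p q hpq)
  refine ⟨γ, ?_, hblk, hlat, ?_, fun i => by rw [hact, hTb]⟩
  · -- unitarity
    have hform : ∀ X Y : α ⊕ β → ℂ,
        (star Y ⬝ᵥ (γ.conjTranspose * Jm α β * γ).mulVec X).im =
          (star Y ⬝ᵥ (Jm α β).mulVec X).im := by
      intro X Y
      have h1 := hTE (sw (fun p : Ix α β Unit => X p.1)) (sw (fun p : Ix α β Unit => Y p.1))
      rw [← hact, ← hact, UGr_E, UGr_E] at h1
      have h2 : ∀ Z : α ⊕ β → ℂ, (fun q => sw (act γ (sw fun p : Ix α β Unit => Z p.1)) (q, ())) =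
          γ.mulVec Z := by
        intro Z
        funext q
        unfold act
        rw [UGr_sw_sw, UGr_sw_sw]
        rfl
      have h3 : ∀ Z : α ⊕ β → ℂ, (fun q => sw (sw fun p : Ix α β Unit => Z p.1) (q, ())) = Z := by
        intro Z
        funext q
        rw [UGr_sw_sw]
      rw [Fintype.sum_unique, Fintype.sum_unique] at h1
      have hdef : (default : Unit) = () := rfl
      rw [hdef, h2, h2, h3, h3] at h1
      rw [← h1, Matrix.star_mulVec, ← Matrix.dotProduct_mulVec, Matrix.mulVec_mulVec,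
        Matrix.mulVec_mulVec]
    have hform2 : ∀ X Y : α ⊕ β → ℂ,
        star Y ⬝ᵥ (γ.conjTranspose * Jm α β * γ).mulVec X = star Y ⬝ᵥ (Jm α β).mulVec X := by
      intro X Y
      apply Complex.ext
      · have h1 := hform (Complex.I • X) Y
        rw [Matrix.mulVec_smul, Matrix.mulVec_smul, dotProduct_smul, dotProduct_smul,
          smul_eq_mul, smul_eq_mul, Complex.mul_im, Complex.mul_im] at h1
        simpa using h1
      · exact hform X Y
    show γ.conjTranspose * Jm α β * γ = Jm α β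
    ext i j
    have h1 := hform2 (Pi.single j 1) (Pi.single i 1)
    have h2 : ∀ A : Matrix (α ⊕ β) (α ⊕ β) ℂ,
        star (Pi.single i (1 : ℂ) : α ⊕ β → ℂ) ⬝ᵥ A.mulVec (Pi.single j 1) = A i j := by
      intro A
      rw [Matrix.mulVec_single_one]
      unfold dotProduct
      rw [Finset.sum_eq_single i]
      · simp
      · intro k _ hk
        rw [Pi.star_apply, Pi.single_eq_of_ne hk, star_zero, zero_mul]
      · intro h
        exact absurd (Finset.mem_univ _) h
    rw [h2, h2] at h1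
    exact h1
  · -- congruence
    intro l hl
    rw [← hb, Submodule.mem_span_range_iff_exists_fun] at hl
    obtain ⟨a, ha⟩ := hl
    choose m hmL hm using hcong
    refine ⟨∑ i, a i • m i, Submodule.sum_mem _ fun i _ => Submodule.smul_mem _ _ (hmL i), ?_⟩
    rw [hact, ← ha, ExtB_int, hTB, ← ExtB_int, ← ExtB_int, Finset.smul_sum,
      ← Finset.sum_add_distrib]
    refine Finset.sum_congr rfl fun i _ => ?_
    rw [hm i, smul_add, smul_comm]

end WPP
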