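import Pool.Agent.WPP.StR

/-!
# WPP: the gap in the sequence of the minima, product domain
-/

set_option autoImplicit false

namespace WPP

open scoped ComplexConjugate
open GAM (H E F pd pdl PLat IsTh OddTor IsDel Gro IsLat)
open PST DWC

section core

variable {ι : Type} [Fintype ι] [DecidableEq ι]

/-- the form -/
private noncomputable def GapB_h (J : ι → ℂ) (X Y : EuclideanSpace ℂ ι) : ℂ :=
  ∑ s, J s * X s * conj (Y s)

omit [DecidableEq ι] in
private theorem GapB_add_left (J : ι → ℂ) (X X' Y : EuclideanSpace ℂ ι) :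
    GapB_h J (X + X') Y = GapB_h J X Y + GapB_h J X' Y := by
  unfold GapB_h
  rw [← Finset.sum_add_distrib]
  refine Finset.sum_congr rfl fun s _ => ?_
  rw [PiLp.add_apply]
  ring

omit [DecidableEq ι] in
private theorem GapB_add_right (J : ι → ℂ) (X Y Y' : EuclideanSpace ℂ ι) :
    GapB_h J X (Y + Y') = GapB_h J X Y + GapB_h J X Y' := by
  unfold GapB_h
  rw [← Finset.sum_add_distrib]
  refine Finset.sum_congr rfl fun s _ => ?_
  rw [PiLp.add_apply, map_add]
  ring

omit [DecidableEq ι] in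
private theorem GapB_smul_left (J : ι → ℂ) (c : ℂ) (X Y : EuclideanSpace ℂ ι) :
    GapB_h J (c • X) Y = c * GapB_h J X Y := by
  unfold GapB_h
  rw [Finset.mul_sum]
  refine Finset.sum_congr rfl fun s _ => ?_
  rw [PiLp.smul_apply, smul_eq_mul]
  ring

omit [DecidableEq ι] in
private theorem GapB_smul_right (J : ι → ℂ) (c : ℂ) (X Y : EuclideanSpace ℂ ι) :
    GapB_h J X (c • Y) = conj c * GapB_h J X Y := by
  unfold GapB_h
  rw [Finset.mul_sum]
  refine Finset.sum_congr rfl fun s _ => ?_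
  rw [PiLp.smul_apply, smul_eq_mul, map_mul]
  ring

omit [DecidableEq ι] in
private theorem GapB_zero_left (J : ι → ℂ) (Y : EuclideanSpace ℂ ι) : GapB_h J 0 Y = 0 := by
  have h := GapB_smul_left J 0 (0 : EuclideanSpace ℂ ι) Y
  rwa [zero_smul, zero_mul] at h

omit [DecidableEq ι] in
private theorem GapB_zero_right (J : ι → ℂ) (Y : EuclideanSpace ℂ ι) : GapB_h J Y 0 = 0 := by
  have h := GapB_smul_right J 0 Y (0 : EuclideanSpace ℂ ι)
  rwa [zero_smul, map_zero, zero_mul] at h

omit [DecidableEq ι] in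
private theorem GapB_norm (J : ι → ℂ) (hJ : ∀ s, ‖J s‖ ≤ 1) (X Y : EuclideanSpace ℂ ι) :
    ‖GapB_h J X Y‖ ≤ ‖X‖ * ‖Y‖ := by
  unfold GapB_h
  calc ‖∑ s, J s * X s * conj (Y s)‖ ≤ ∑ s, ‖J s * X s * conj (Y s)‖ := norm_sum_le _ _
    _ ≤ ∑ s, ‖X s‖ * ‖Y s‖ := by
        refine Finset.sum_le_sum fun s _ => ?_
        rw [norm_mul, norm_mul, RCLike.norm_conj]
        have h := mul_le_mul_of_nonneg_right (hJ s) (norm_nonneg (X s))
        rw [one_mul] at h
        exact mul_le_mul_of_nonneg_right h (norm_nonneg _)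
    _ ≤ √(∑ s, ‖X s‖ ^ 2) * √(∑ s, ‖Y s‖ ^ 2) := Real.sum_mul_le_sqrt_mul_sqrt _ _ _
    _ = ‖X‖ * ‖Y‖ := by rw [EuclideanSpace.norm_eq, EuclideanSpace.norm_eq]

omit [DecidableEq ι] in
private theorem GapB_iso (J : ι → ℂ) (S : Set (EuclideanSpace ℂ ι))
    (hS : ∀ X ∈ S, ∀ Y ∈ S, GapB_h J X Y = 0) :
    ∀ X ∈ Submodule.span ℂ S, ∀ Y ∈ Submodule.span ℂ S, GapB_h J X Y = 0 := by
  have h1 : ∀ X ∈ S, ∀ Y ∈ Submodule.span ℂ S, GapB_h J X Y = 0 := by
    intro X hX Y hY
    induction hY using Submodule.span_induction with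
    | mem Y hY => exact hS X hX Y hY
    | zero => exact GapB_zero_right J X
    | add Y Y' _ _ h h' => rw [GapB_add_right, h, h', add_zero]
    | smul c Y _ h => rw [GapB_smul_right, h, mul_zero]
  intro X hX Y hY
  induction hX using Submodule.span_induction with
  | mem X hX => exact h1 X hX Y hY
  | zero => exact GapB_zero_left J Y
  | add X X' _ _ h h' => rw [GapB_add_left, h, h', add_zero]
  | smul c X _ h => rw [GapB_smul_left, h, mul_zero]

omit [DecidableEq ι] in
private theorem GapB_chain (W : ℕ → Submodule ℂ (EuclideanSpace ℂ ι)) (hW : ∀ k, W k ≤ W (k + 1)) :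
    ∃ k, k ≤ Fintype.card ι ∧ W k = W (k + 1) := by
  by_contra hcon
  have h0 : ∀ k, k ≤ Fintype.card ι → W k < W (k + 1) := fun k hk =>
    lt_of_le_of_ne (hW k) fun h => hcon ⟨k, hk, h⟩
  have h1 : ∀ k, k ≤ Fintype.card ι + 1 → k ≤ Module.finrank ℂ (W k) := by
    intro k
    induction k with
    | zero => intro _; exact Nat.zero_le _
    | succ k ih =>
      intro hk
      have h2 := ih (by omega)
      have h3 := Submodule.finrank_lt_finrank_of_lt (h0 k (by omega))
      omega
  have h4 := h1 _ le_rfl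
  have h5 := Submodule.finrank_le (W (Fintype.card ι + 1))
  rw [finrank_euclideanSpace] at h5
  omega

omit [DecidableEq ι] in
private theorem GapB_coef (S : Set (EuclideanSpace ℂ ι)) (X : EuclideanSpace ℂ ι)
    (hX : X ∈ Submodule.span ℂ S) : ∃ b : Finset (EuclideanSpace ℂ ι), (∀ s ∈ b, s ∈ S) ∧
    b.card ≤ Fintype.card ι ∧ ∃ c : EuclideanSpace ℂ ι → ℂ, ∑ s ∈ b, c s • s = X := by
  obtain ⟨b, hbS, hspan, hli⟩ := exists_linearIndependent ℂ S
  have hfin : b.Finite := hli.setFinite
  refine ⟨hfin.toFinset, fun s hs => hbS (hfin.mem_toFinset.1 hs), ?_, ?_⟩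
  · have h1 : Module.finrank ℂ (Submodule.span ℂ b) = hfin.toFinset.card := by
      have h2 := hfin.fintype
      rw [finrank_span_set_eq_card hli]
      congr 1
      ext x
      simp
    have h3 := Submodule.finrank_le (Submodule.span ℂ b)
    rw [finrank_euclideanSpace, h1] at h3
    exact h3
  · rw [← hspan] at hX
    have h2 : X ∈ Submodule.span ℂ ((hfin.toFinset : Finset _) : Set (EuclideanSpace ℂ ι)) := by
      rw [hfin.coe_toFinset]
      exact hX
    obtain ⟨c, -, hc⟩ := Submodule.mem_span_finset.1 h2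
    exact ⟨c, hc⟩

/-- diagonal operators -/
private noncomputable def GapB_d (l : ι → ℂ) : EuclideanSpace ℂ ι →ₗ[ℂ] EuclideanSpace ℂ ι where
  toFun X := WithLp.toLp 2 fun p => l p * X p
  map_add' X Y := by
    ext p
    simp [mul_add]
  map_smul' c X := by
    ext p
    simp [mul_left_comm]

omit [Fintype ι] [DecidableEq ι] in
private theorem GapB_d_apply (l : ι → ℂ) (X : EuclideanSpace ℂ ι) (p : ι) :
    GapB_d l X p = l p * X p := rfl

omit [DecidableEq ι] in
private theorem GapB_d_norm (l : ι → ℂ) (c : ℝ) (hc : 0 ≤ c) (hl : ∀ p, ‖l p‖ ≤ c)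
    (X : EuclideanSpace ℂ ι) : ‖GapB_d l X‖ ≤ c * ‖X‖ := by
  rw [EuclideanSpace.norm_eq, EuclideanSpace.norm_eq]
  have h1 : c = √(c ^ 2) := (Real.sqrt_sq hc).symm
  rw [h1, ← Real.sqrt_mul (by positivity)]
  refine Real.sqrt_le_sqrt ?_
  rw [Finset.mul_sum]
  refine Finset.sum_le_sum fun p _ => ?_
  rw [GapB_d_apply, norm_mul, mul_pow]
  exact mul_le_mul_of_nonneg_right (pow_le_pow_left₀ (norm_nonneg _) (hl p) 2) (by positivity)

/-- interpolation by real polynomials -/
private theorem GapB_interp {S : Type} [Fintype S] [DecidableEq S] (w : S → ℂ)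
    (hw : ∀ s s', w s = w s' → s = s') (hc : ∀ s s', w s ≠ conj (w s')) (l : S → ℂ) :
    ∃ r : ℕ → ℝ, ∀ s, ∑ k ∈ Finset.range (Fintype.card (S ⊕ S) + 1),
      ((r k : ℝ) : ℂ) * w s ^ k = l s := by
  let v : S ⊕ S → ℂ := Sum.elim w fun s => conj (w s)
  let y : S ⊕ S → ℂ := Sum.elim l fun s => conj (l s)
  have hv : Set.InjOn v (Finset.univ : Finset (S ⊕ S)) := by
    intro a _ b _ hab
    rcases a with a | a <;> rcases b with b | b
    · exact congrArg Sum.inl (hw a b hab)
    · exact absurd hab (hc a b)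
    · exact absurd hab.symm (hc b a)
    · have h1 : conj (w a) = conj (w b) := hab
      exact congrArg Sum.inr (hw a b (star_injective h1))
  set p := Lagrange.interpolate Finset.univ v y with hp
  have hdeg : p.natDegree < Fintype.card (S ⊕ S) + 1 := by
    have h1 := Lagrange.degree_interpolate_lt y hv
    have h2 : p.natDegree ≤ Fintype.card (S ⊕ S) := by
      refine Polynomial.natDegree_le_of_degree_le ?_
      exact h1.le
    omega
  have h1 : ∀ s, ∑ k ∈ Finset.range (Fintype.card (S ⊕ S) + 1), p.coeff k * w s ^ k = l s := by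
    intro s
    rw [← Polynomial.eval_eq_sum_range' hdeg]
    exact Lagrange.eval_interpolate_at_node y hv (Finset.mem_univ (Sum.inl s))
  have h2 : ∀ s, ∑ k ∈ Finset.range (Fintype.card (S ⊕ S) + 1), conj (p.coeff k) * w s ^ k =
      l s := by
    intro s
    have h3 : ∑ k ∈ Finset.range (Fintype.card (S ⊕ S) + 1), p.coeff k * (conj (w s)) ^ k =
        conj (l s) := by
      rw [← Polynomial.eval_eq_sum_range' hdeg]
      exact Lagrange.eval_interpolate_at_node y hv (Finset.mem_univ (Sum.inr s))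
    have h4 := congrArg conj h3
    rw [Complex.conj_conj, map_sum] at h4
    rw [← h4]
    refine Finset.sum_congr rfl fun k _ => ?_
    rw [map_mul, map_pow, Complex.conj_conj]
  refine ⟨fun k => (p.coeff k).re, fun s => ?_⟩
  have h5 : ∑ k ∈ Finset.range (Fintype.card (S ⊕ S) + 1), (((p.coeff k).re : ℝ) : ℂ) * w s ^ k =
      (l s + l s) / 2 := by
    nth_rewrite 1 [← h1 s]
    rw [← h2 s, ← Finset.sum_add_distrib, Finset.sum_div]
    refine Finset.sum_congr rfl fun k _ => ?_
    rw [Complex.re_eq_add_conj]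
    ring
  rw [h5]
  ring

/-- the constants -/
private noncomputable def GapB_c (A : ℝ) : ℕ → ℝ
  | 0 => 1
  | k + 1 => 2 + (A + 1) * GapB_c A k

private theorem GapB_c_pos (A : ℝ) (hA : 0 ≤ A) : ∀ k, 1 ≤ GapB_c A k
  | 0 => le_rfl
  | k + 1 => by
    have h := GapB_c_pos A hA k
    have h1 : 0 ≤ (A + 1) * GapB_c A k := by positivity
    show 1 ≤ 2 + (A + 1) * GapB_c A k
    linarith

private theorem GapB_c_succ (A : ℝ) (hA : 0 ≤ A) (k : ℕ) : GapB_c A k ≤ GapB_c A (k + 1) := by
  have h := GapB_c_pos A hA k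
  have h1 : 0 ≤ A * GapB_c A k := by positivity
  show GapB_c A k ≤ 2 + (A + 1) * GapB_c A k
  linarith

private theorem GapB_c_mono (A : ℝ) (hA : 0 ≤ A) : Monotone (GapB_c A) :=
  monotone_nat_of_le_succ (GapB_c_succ A hA)

private theorem GapB_int (x : ℝ) (k : ℤ) (hk : x = k) (hx : |x| < 1) : x = 0 := by
  rw [hk] at hx ⊢
  rw [← Int.cast_abs] at hx
  have h : |k| < 1 := by exact_mod_cast hx
  rw [Int.abs_lt_one_iff.1 h, Int.cast_zero]

/-- indicator of a block -/
private noncomputable def GapB_i {S : Type} [DecidableEq S] (pl : ι → S) (s : S) (p : ι) : ℂ :=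
  if pl p = s then 1 else 0

omit [DecidableEq ι] in
private theorem GapB_core {S : Type} [Fintype S] [DecidableEq S] (pl : ι → S) (w : S → ℂ)
    (hw : ∀ s s', w s = w s' → s = s') (hcj : ∀ s s', w s ≠ conj (w s')) :
    ∃ ε₀ : ℝ, 0 < ε₀ ∧ ∀ ε : ℝ, 0 < ε → ε ≤ ε₀ →
    ∀ J : ι → ℂ, (∀ s, ‖J s‖ ≤ 1) → ∀ Λ : AddSubgroup (EuclideanSpace ℂ ι),
    (∀ X ∈ Λ, GapB_d (fun p => w (pl p)) X ∈ Λ) →
    (∀ X ∈ Λ, ∀ Y ∈ Λ, ∃ k : ℤ, (GapB_h J X Y).im = k) →
    ∃ W : Submodule ℂ (EuclideanSpace ℂ ι), (∀ X ∈ W, ∀ Y ∈ W, GapB_h J X Y = 0) ∧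
      (∀ s, ∀ X ∈ W, GapB_d (GapB_i pl s) X ∈ W) ∧
      ∀ X ∈ Λ, X ∈ W ∨ 2 * ε ≤ ‖X - W.starProjection X‖ := by
  set n := Fintype.card ι with hn
  set M := Fintype.card (S ⊕ S) + 1 with hM
  obtain ⟨c, hc1, hcw⟩ : ∃ c : ℝ, 1 ≤ c ∧ ∀ s, ‖w s‖ ≤ c := by
    refine ⟨1 + ∑ s, ‖w s‖, ?_, fun s => ?_⟩
    · have h : 0 ≤ ∑ s, ‖w s‖ := Finset.sum_nonneg fun s _ => norm_nonneg _
      linarith
    · have h := Finset.single_le_sum (f := fun s => ‖w s‖) (fun s _ => norm_nonneg _)
        (Finset.mem_univ s)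
      have h2 : ‖w s‖ ≤ ∑ s, ‖w s‖ := h
      linarith
  set C := c ^ M with hC
  have hC1 : 1 ≤ C := one_le_pow₀ hc1
  set A : ℝ := n * (M * C) with hA
  have hA0 : 0 ≤ A := by positivity
  set D := GapB_c A (n + 1) with hD
  have hD1 : 1 ≤ D := GapB_c_pos A hA0 (n + 1)
  have hD0 : 0 < D := by linarith
  refine ⟨1 / (D * (1 + C)), by positivity, ?_⟩
  intro ε hε hε0 J hJ Λ hΛκ hΛi
  have hDε : (D * ε) * (1 + C) ≤ 1 := by
    rw [le_div_iff₀ (by positivity)] at hε0
    linarith
  have hDε0 : 0 < D * ε := by positivity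
  have hsq : C * ((D * ε) * (D * ε)) < 1 := by
    have h1 : D * ε < 1 := by nlinarith
    have h2 : (D * ε) * C < 1 := by nlinarith
    have h3 : (D * ε) * ((D * ε) * C) < 1 * 1 :=
      mul_lt_mul'' h1 h2 hDε0.le (by positivity)
    linarith
  -- the powers
  have hpow : ∀ j : ℕ, ∀ X ∈ Λ, GapB_d (fun p => w (pl p) ^ j) X ∈ Λ := by
    intro j
    induction j with
    | zero =>
      intro X hX
      have h : GapB_d (fun p => w (pl p) ^ 0) X = X := by
        ext p
        rw [GapB_d_apply, pow_zero, one_mul]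
      rw [h]
      exact hX
    | succ j ih =>
      intro X hX
      have h : GapB_d (fun p => w (pl p) ^ (j + 1)) X =
          GapB_d (fun p => w (pl p)) (GapB_d (fun p => w (pl p) ^ j) X) := by
        ext p
        rw [GapB_d_apply, GapB_d_apply, GapB_d_apply]
        ring
      rw [h]
      exact hΛκ _ (ih X hX)
  have hpn : ∀ j ∈ Finset.range M, ∀ X : EuclideanSpace ℂ ι,
      ‖GapB_d (fun p => w (pl p) ^ j) X‖ ≤ C * ‖X‖ := by
    intro j hj X
    refine GapB_d_norm _ C (by linarith) (fun p => ?_) X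
    rw [norm_pow]
    exact (pow_le_pow_left₀ (norm_nonneg _) (hcw _) j).trans
      (pow_le_pow_right₀ hc1 (Finset.mem_range.1 hj).le)
  -- the filtration
  let S₀ : ℕ → Set (EuclideanSpace ℂ ι) := fun k => {Z | ∃ s : S, ∃ X ∈ Λ,
    ‖X‖ ≤ GapB_c A k * ε ∧ Z = GapB_d (GapB_i pl s) X}
  let W : ℕ → Submodule ℂ (EuclideanSpace ℂ ι) := fun k => Submodule.span ℂ (S₀ k)
  have hSmono : ∀ k, S₀ k ⊆ S₀ (k + 1) := by
    rintro k Z ⟨s, X, hX, hXn, rfl⟩
    exact ⟨s, X, hX, hXn.trans (mul_le_mul_of_nonneg_right (GapB_c_succ A hA0 k) hε.le), rfl⟩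
  obtain ⟨k, hk, hWk⟩ := GapB_chain W fun k => Submodule.span_mono (hSmono k)
  have hshort : ∀ j, ∀ X ∈ Λ, ‖X‖ ≤ GapB_c A j * ε → X ∈ W j := by
    intro j X hX hXn
    have h : X = ∑ s, GapB_d (GapB_i pl s) X := by
      ext p
      have h1 : (∑ s, GapB_d (GapB_i pl s) X) p = ∑ s, (GapB_d (GapB_i pl s) X) p := by
        simp
      rw [h1]
      have h2 : ∀ s, (GapB_d (GapB_i pl s) X) p = if pl p = s then X p else 0 := by
        intro s
        rw [GapB_d_apply]
        unfold GapB_i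
        split_ifs
        · rw [one_mul]
        · rw [zero_mul]
      rw [Finset.sum_congr rfl fun s _ => h2 s, Finset.sum_ite_eq]
      simp
    rw [h]
    exact Submodule.sum_mem _ fun s _ => Submodule.subset_span ⟨s, X, hX, hXn, rfl⟩
  have hiso : ∀ X ∈ S₀ k, ∀ Y ∈ S₀ k, GapB_h J X Y = 0 := by
    rintro _ ⟨s, X, hX, hXn, rfl⟩ _ ⟨t, Y, hY, hYn, rfl⟩
    have hck : GapB_c A k ≤ D := GapB_c_mono A hA0 (by omega)
    have hXn' : ‖X‖ ≤ D * ε := hXn.trans (mul_le_mul_of_nonneg_right hck hε.le)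
    have hYn' : ‖Y‖ ≤ D * ε := hYn.trans (mul_le_mul_of_nonneg_right hck hε.le)
    -- all powers
    have h0 : ∀ j ∈ Finset.range M,
        (∑ p, w (pl p) ^ j * (J p * X p * conj (Y p))).im = 0 := by
      intro j hj
      have h1 : GapB_h J (GapB_d (fun p => w (pl p) ^ j) X) Y =
          ∑ p, w (pl p) ^ j * (J p * X p * conj (Y p)) := by
        unfold GapB_h
        refine Finset.sum_congr rfl fun p _ => ?_
        rw [GapB_d_apply]
        ring
      rw [← h1]
      obtain ⟨m, hm⟩ := hΛi _ (hpow j X hX) Y hY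
      refine GapB_int _ m hm ?_
      refine lt_of_le_of_lt (Complex.abs_im_le_norm _) ?_
      refine lt_of_le_of_lt (GapB_norm J hJ _ _) ?_
      refine lt_of_le_of_lt ?_ hsq
      calc ‖GapB_d (fun p => w (pl p) ^ j) X‖ * ‖Y‖ ≤ (C * (D * ε)) * (D * ε) := by
            refine mul_le_mul ((hpn j hj X).trans ?_) hYn' (norm_nonneg _) (by positivity)
            exact mul_le_mul_of_nonneg_left hXn' (by linarith)
        _ = C * ((D * ε) * (D * ε)) := by ring
    -- all functions on `S`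
    have h2 : ∀ l : S → ℂ, (∑ p, l (pl p) * (J p * X p * conj (Y p))).im = 0 := by
      intro l
      obtain ⟨r, hr⟩ := GapB_interp w hw hcj l
      have h3 : ∑ p, l (pl p) * (J p * X p * conj (Y p)) = ∑ j ∈ Finset.range M,
          ((r j : ℝ) : ℂ) * ∑ p, w (pl p) ^ j * (J p * X p * conj (Y p)) := by
        have h4 : ∀ p, l (pl p) * (J p * X p * conj (Y p)) = ∑ j ∈ Finset.range M,
            ((r j : ℝ) : ℂ) * (w (pl p) ^ j * (J p * X p * conj (Y p))) := by
          intro p
          rw [← hr (pl p), Finset.sum_mul]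
          refine Finset.sum_congr rfl fun j _ => ?_
          ring
        rw [Finset.sum_congr rfl fun p _ => h4 p, Finset.sum_comm]
        refine Finset.sum_congr rfl fun j _ => ?_
        rw [Finset.mul_sum]
      rw [h3, Complex.im_sum]
      refine Finset.sum_eq_zero fun j hj => ?_
      rw [Complex.im_ofReal_mul, h0 j hj, mul_zero]
    have h5 : ∀ z : ℂ, (z * GapB_h J (GapB_d (GapB_i pl s) X) (GapB_d (GapB_i pl t) Y)).im = 0 := by
      intro z
      have h6 := h2 fun u => z * ((if u = s then 1 else 0) * (if u = t then 1 else 0))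
      rw [← h6]
      congr 1
      unfold GapB_h
      rw [Finset.mul_sum]
      refine Finset.sum_congr rfl fun p _ => ?_
      rw [GapB_d_apply, GapB_d_apply]
      unfold GapB_i
      split_ifs <;> simp
    have h7 := h5 1
    have h8 := h5 Complex.I
    rw [one_mul] at h7
    rw [Complex.I_mul_im] at h8
    exact Complex.ext h8 h7
  refine ⟨W k, GapB_iso J (S₀ k) hiso, ?_, ?_⟩
  · intro s X hX
    induction hX using Submodule.span_induction with
    | mem Z hZ =>
      obtain ⟨t, X, hX, hXn, rfl⟩ := hZ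
      by_cases hst : s = t
      · have h : GapB_d (GapB_i pl s) (GapB_d (GapB_i pl t) X) = GapB_d (GapB_i pl t) X := by
          subst hst
          ext p
          rw [GapB_d_apply, GapB_d_apply]
          unfold GapB_i
          split_ifs <;> simp
        rw [h]
        exact Submodule.subset_span ⟨t, X, hX, hXn, rfl⟩
      · have h : GapB_d (GapB_i pl s) (GapB_d (GapB_i pl t) X) = 0 := by
          ext p
          rw [GapB_d_apply, GapB_d_apply]
          unfold GapB_i
          by_cases h1 : pl p = s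
          · have h2 : pl p ≠ t := fun h2 => hst (h1.symm.trans h2)
            rw [if_neg h2, zero_mul, mul_zero]
            rfl
          · rw [if_neg h1, zero_mul]
            rfl
        rw [h]
        exact Submodule.zero_mem _
    | zero => rw [map_zero]; exact Submodule.zero_mem _
    | add Y Y' _ _ h h' => rw [map_add]; exact Submodule.add_mem _ h h'
    | smul c Y _ h => rw [map_smul]; exact Submodule.smul_mem _ _ h
  intro X hX
  by_cases hlt : 2 * ε ≤ ‖X - (W k).starProjection X‖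
  · exact Or.inr hlt
  left
  have hlt' : ‖X - (W k).starProjection X‖ < 2 * ε := lt_of_not_ge hlt
  have hPX : (W k).starProjection X ∈ W k := Submodule.starProjection_apply_mem _ _
  obtain ⟨b, hbS, hbc, a, ha⟩ := GapB_coef (S₀ k) _ hPX
  -- every element of the basis times a complex number
  have hel : ∀ Z ∈ b, ∃ T ∈ Λ, T ∈ W k ∧ ‖a Z • Z - T‖ ≤ M * C * (GapB_c A k * ε) := by
    intro Z hZ
    obtain ⟨s, Y, hY, hYn, rfl⟩ := hbS Z hZ
    set z := a (GapB_d (GapB_i pl s) Y) with hz
    obtain ⟨r, hr⟩ := GapB_interp w hw hcj fun u => if u = s then z else 0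
    have h1 : z • GapB_d (GapB_i pl s) Y = ∑ j ∈ Finset.range M,
        ((r j : ℝ) : ℂ) • GapB_d (fun p => w (pl p) ^ j) Y := by
      ext p
      have h2 : (∑ j ∈ Finset.range M, ((r j : ℝ) : ℂ) • GapB_d (fun p => w (pl p) ^ j) Y) p =
          ∑ j ∈ Finset.range M, ((r j : ℝ) : ℂ) * (w (pl p) ^ j * Y p) := by
        simp [GapB_d_apply]
      rw [h2, PiLp.smul_apply, GapB_d_apply, smul_eq_mul]
      have h3 := hr (pl p)
      have h4 : ∑ j ∈ Finset.range M, ((r j : ℝ) : ℂ) * (w (pl p) ^ j * Y p) =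
          (if pl p = s then z else 0) * Y p := by
        rw [← h3, Finset.sum_mul]
        refine Finset.sum_congr rfl fun j _ => ?_
        ring
      rw [h4]
      unfold GapB_i
      split_ifs <;> ring
    refine ⟨∑ j ∈ Finset.range M, ⌊r j⌋ • GapB_d (fun p => w (pl p) ^ j) Y, ?_, ?_, ?_⟩
    · exact Λ.sum_mem fun j _ => Λ.zsmul_mem (hpow j Y hY) _
    · refine Submodule.sum_mem _ fun j _ => zsmul_mem ?_ _
      have h5 : GapB_d (fun p => w (pl p) ^ j) Y = ∑ u, (w u ^ j) • GapB_d (GapB_i pl u) Y := by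
        ext p
        have h6 : (∑ u, (w u ^ j) • GapB_d (GapB_i pl u) Y) p =
            ∑ u, w u ^ j * ((if pl p = u then 1 else 0) * Y p) := by
          simp [GapB_d_apply, GapB_i]
        rw [h6, GapB_d_apply]
        have h7 : ∀ u, w u ^ j * ((if pl p = u then 1 else 0) * Y p) =
            if pl p = u then w u ^ j * Y p else 0 := by
          intro u
          split_ifs <;> ring
        rw [Finset.sum_congr rfl fun u _ => h7 u, Finset.sum_ite_eq]
        simp
      rw [h5]
      exact Submodule.sum_mem _ fun u _ => Submodule.smul_mem _ _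
        (Submodule.subset_span ⟨u, Y, hY, hYn, rfl⟩)
    · rw [h1, ← Finset.sum_sub_distrib]
      refine (norm_sum_le _ _).trans ?_
      have h8 : ∀ j ∈ Finset.range M, ‖((r j : ℝ) : ℂ) • GapB_d (fun p => w (pl p) ^ j) Y -
          ⌊r j⌋ • GapB_d (fun p => w (pl p) ^ j) Y‖ ≤ C * (GapB_c A k * ε) := by
        intro j hj
        rw [← Int.cast_smul_eq_zsmul ℂ, ← sub_smul, norm_smul]
        have h9 : ‖((r j : ℝ) : ℂ) - (⌊r j⌋ : ℂ)‖ ≤ 1 := by
          have h10 : ((r j : ℝ) : ℂ) - (⌊r j⌋ : ℂ) = ((Int.fract (r j) : ℝ) : ℂ) := by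
            rw [← Int.self_sub_floor]
            push_cast
            ring
          rw [h10, Complex.norm_real, Real.norm_of_nonneg (Int.fract_nonneg _)]
          exact (Int.fract_lt_one _).le
        calc _ ≤ 1 * (C * ‖Y‖) := mul_le_mul h9 (hpn j hj Y) (norm_nonneg _) zero_le_one
          _ ≤ C * (GapB_c A k * ε) := by
            rw [one_mul]
            exact mul_le_mul_of_nonneg_left hYn (by linarith)
      refine (Finset.sum_le_card_nsmul _ _ _ h8).trans ?_
      rw [Finset.card_range, nsmul_eq_mul, mul_assoc]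
  choose! T hTΛ hTW hTn using hel
  have hTΛ' : ∑ Z ∈ b, T Z ∈ Λ := Λ.sum_mem fun Z hZ => hTΛ Z hZ
  have hTW' : ∑ Z ∈ b, T Z ∈ W k := Submodule.sum_mem _ fun Z hZ => hTW Z hZ
  have hdiff : X - ∑ Z ∈ b, T Z = (X - (W k).starProjection X) + ∑ Z ∈ b, (a Z • Z - T Z) := by
    rw [Finset.sum_sub_distrib, ha]
    abel
  have hXT : ‖X - ∑ Z ∈ b, T Z‖ ≤ GapB_c A (k + 1) * ε := by
    have h0 := GapB_c_pos A hA0 k
    rw [hdiff]
    refine (norm_add_le _ _).trans ?_
    have h1 : ‖∑ Z ∈ b, (a Z • Z - T Z)‖ ≤ n * (M * C * (GapB_c A k * ε)) := by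
      refine (norm_sum_le _ _).trans ?_
      refine (Finset.sum_le_card_nsmul b _ _ hTn).trans ?_
      rw [nsmul_eq_mul]
      have h3 : (b.card : ℝ) ≤ n := by exact_mod_cast hbc
      exact mul_le_mul_of_nonneg_right h3 (by positivity)
    have h4 : 0 ≤ GapB_c A k * ε := by positivity
    have h5 : (n : ℝ) * (M * C * (GapB_c A k * ε)) = A * (GapB_c A k * ε) := by
      rw [hA]
      ring
    show _ ≤ (2 + (A + 1) * GapB_c A k) * ε
    rw [h5] at h1
    nlinarith
  have hXTW : X - ∑ Z ∈ b, T Z ∈ W k := by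
    rw [hWk]
    exact hshort (k + 1) _ (Λ.sub_mem hX hTΛ') hXT
  have h := Submodule.add_mem _ hXTW hTW'
  rwa [sub_add_cancel] at h

end core

section final

variable {α β : Type} [Fintype α] [Fintype β] [DecidableEq α] [DecidableEq β]

/-- the coordinates `X` -/
private def GapB_v (x : Ix α β Unit → ℂ) : EuclideanSpace ℂ (α ⊕ β) :=
  WithLp.toLp 2 fun s => sw x (s, ())

/-- the signs -/
private def GapB_J (α β : Type) (s : α ⊕ β) : ℂ := Sum.elim (fun _ => 1) (fun _ => -1) s

omit [Fintype α] [Fintype β] [DecidableEq α] [DecidableEq β] in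
private theorem GapB_v_apply (x : Ix α β Unit → ℂ) (s : α ⊕ β) : GapB_v x s = sw x (s, ()) := rfl

omit [Fintype α] [Fintype β] [DecidableEq α] [DecidableEq β] in
private theorem GapB_v_add (x y : Ix α β Unit → ℂ) : GapB_v (x + y) = GapB_v x + GapB_v y := by
  ext s
  rcases s with i | j
  · simp [GapB_v, sw]
  · simp [GapB_v, sw]

omit [Fintype α] [Fintype β] [DecidableEq α] [DecidableEq β] in
private theorem GapB_v_inj (x y : Ix α β Unit → ℂ) (h : GapB_v x = GapB_v y) : x = y := by
  funext p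
  obtain ⟨s, u⟩ := p
  have h1 : GapB_v x s = GapB_v y s := by rw [h]
  rw [GapB_v_apply, GapB_v_apply] at h1
  rcases s with i | j
  · exact h1
  · exact star_injective h1

omit [DecidableEq α] [DecidableEq β] in
private theorem GapB_nq (x : Ix α β Unit → ℂ) : nq x = ‖GapB_v x‖ ^ 2 := by
  rw [EuclideanSpace.norm_sq_eq, nq, Fintype.sum_prod_type]
  refine Finset.sum_congr rfl fun s _ => ?_
  rw [Fintype.sum_unique]
  rcases s with i | j
  · rfl
  · rw [GapB_v_apply]
    show _ = ‖conj (x (Sum.inr j, ()))‖ ^ 2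
    rw [RCLike.norm_conj]

omit [DecidableEq α] [DecidableEq β] in
private theorem GapB_E (x y : Ix α β Unit → ℂ) :
    E x y = (GapB_h (GapB_J α β) (GapB_v x) (GapB_v y)).im := by
  unfold E H GapB_h
  rw [Complex.im_sum, Complex.im_sum, Fintype.sum_prod_type]
  refine Finset.sum_congr rfl fun s _ => ?_
  rw [Fintype.sum_unique]
  rcases s with i | j
  · rw [GapB_v_apply, GapB_v_apply]
    show (x (Sum.inl i, ()) * conj (y (Sum.inl i, ()))).im =
      (1 * x (Sum.inl i, ()) * conj (y (Sum.inl i, ()))).im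
    rw [one_mul]
  · rw [GapB_v_apply, GapB_v_apply]
    show (x (Sum.inr j, ()) * conj (y (Sum.inr j, ()))).im =
      (-1 * conj (x (Sum.inr j, ())) * conj (conj (y (Sum.inr j, ())))).im
    simp only [Complex.mul_im, Complex.mul_re, Complex.conj_re, Complex.conj_im, Complex.neg_re,
      Complex.neg_im, Complex.one_re, Complex.one_im]
    ring

private theorem GapB_act (g : Matrix (α ⊕ β) (α ⊕ β) ℂ) (x : Ix α β Unit → ℂ) :
    GapB_v (act g x) = Matrix.toEuclideanCLM (n := α ⊕ β) (𝕜 := ℂ) g (GapB_v x) := by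
  ext s
  rw [Matrix.ofLp_toEuclideanCLM, GapB_v_apply]
  have h : sw (act g x) = mu g (sw x) := by
    funext p
    obtain ⟨t, u⟩ := p
    rcases t with i | j
    · rfl
    · show conj (conj (mu g (sw x) (Sum.inr j, u))) = _
      rw [Complex.conj_conj]
  rw [h]
  rfl

end final

theorem thm_GapB : St_GapB := by
  intro α β S _ _ _ _ _ _ pl th N hth hN
  have hN0 : (N : ℂ) ≠ 0 := Nat.cast_ne_zero.2 hN
  obtain ⟨ε₀, hε₀, hcore⟩ := GapB_core (ι := α ⊕ β) pl (fun s => (N : ℂ) * th s)
    (fun s s' h => hth.inj s s' (mul_left_cancel₀ hN0 h)) (fun s s' h => by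
      have h' : (N : ℂ) * th s = conj ((N : ℂ) * th s') := h
      rw [map_mul, Complex.conj_natCast] at h'
      exact hth.nc s s' (mul_left_cancel₀ hN0 h'))
  refine ⟨ε₀, hε₀, fun ε hε hεε L hint hKL => ?_⟩
  let f : (Ix α β Unit → ℂ) →+ EuclideanSpace ℂ (α ⊕ β) := AddMonoidHom.mk' GapB_v GapB_v_add
  let Λ : AddSubgroup (EuclideanSpace ℂ (α ⊕ β)) := L.toAddSubgroup.map f
  have hJ : ∀ s, ‖GapB_J α β s‖ ≤ 1 := by
    intro s
    rcases s with i | j
    · simp [GapB_J]
    · simp [GapB_J]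
  obtain ⟨W, hW, hWs, hgap⟩ := hcore ε hε hεε (GapB_J α β) hJ Λ (by
    rintro _ ⟨x, hx, rfl⟩
    refine ⟨act (kapB pl th N) x, hKL x hx, ?_⟩
    show GapB_v (act (kapB pl th N) x) = GapB_d _ (GapB_v x)
    rw [GapB_act]
    ext s
    rw [Matrix.ofLp_toEuclideanCLM, GapB_d_apply]
    unfold kapB
    rw [Matrix.mulVec_diagonal]) (by
    rintro _ ⟨x, hx, rfl⟩ _ ⟨y, hy, rfl⟩
    obtain ⟨k, hk⟩ := hint x hx y hy
    exact ⟨k, by rw [← hk]; exact (GapB_E x y).symm⟩)
  set Φ := Matrix.toEuclideanCLM (n := α ⊕ β) (𝕜 := ℂ) with hΦ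
  set P : Matrix (α ⊕ β) (α ⊕ β) ℂ := Φ.symm W.starProjection with hP
  have hΦP : Φ P = W.starProjection := Φ.apply_symm_apply _
  have hinj : ∀ A B : Matrix (α ⊕ β) (α ⊕ β) ℂ, Φ A = Φ B → A = B := fun A B h =>
    Φ.injective h
  have hmul : ∀ A B : Matrix (α ⊕ β) (α ⊕ β) ℂ, Φ (A * B) = Φ A * Φ B := fun A B =>
    Φ.map_mul' A B
  have hst : ∀ A : Matrix (α ⊕ β) (α ⊕ β) ℂ, Φ (star A) = star (Φ A) := fun A =>
    Φ.map_star' A
  have hstar : P.conjTranspose = P := by
    apply hinj
    show Φ (star P) = Φ P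
    rw [hst, hΦP]
    exact (isSelfAdjoint_starProjection W).star_eq
  have hcol : ∀ b s, P s b = (W.starProjection (EuclideanSpace.single b 1)) s := by
    intro b s
    rw [← hΦP, Matrix.ofLp_toEuclideanCLM]
    show P s b = (P.mulVec (Pi.single b 1)) s
    rw [Matrix.mulVec_single_one]
    rfl
  refine ⟨P, ⟨hstar, ?_, ?_⟩, ?_, ?_⟩
  · apply hinj
    rw [hmul, hΦP]
    exact Submodule.isIdempotentElem_starProjection W
  · ext a b
    rw [Matrix.mul_assoc, Matrix.mul_apply, Matrix.zero_apply]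
    have h1 := hW _ (Submodule.starProjection_apply_mem W (EuclideanSpace.single b 1)) _
      (Submodule.starProjection_apply_mem W (EuclideanSpace.single a 1))
    rw [← h1]
    unfold GapB_h
    refine Finset.sum_congr rfl fun s _ => ?_
    rw [← hcol, ← hcol]
    have h2 : P a s = conj (P s a) := by
      have h3 : P.conjTranspose a s = P a s := by rw [hstar]
      rw [← h3]
      rfl
    have h4 : (Jm α β * P) s b = GapB_J α β s * P s b := by
      have h5 : Jm α β = Matrix.diagonal (GapB_J α β) := by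
        ext i j
        rcases i with i | i <;> rcases j with j | j
        · simp [Jm, GapB_J, Matrix.one_apply, Matrix.diagonal_apply]
        · simp [Jm, GapB_J, Matrix.diagonal_apply]
        · simp [Jm, GapB_J, Matrix.diagonal_apply]
        · by_cases hij : i = j
          · simp [Jm, GapB_J, Matrix.one_apply, Matrix.diagonal_apply, hij]
          · simp [Jm, GapB_J, Matrix.one_apply, Matrix.diagonal_apply, hij]
      rw [h5, Matrix.diagonal_mul]
    rw [h2, h4]
    ring
  · -- the projection is block diagonal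
    intro p q hpq
    set u : EuclideanSpace ℂ (α ⊕ β) := EuclideanSpace.single q 1 with hu
    have hQu : GapB_d (GapB_i pl (pl q)) u = u := by
      ext t
      rw [GapB_d_apply]
      unfold GapB_i
      by_cases ht : pl t = pl q
      · rw [if_pos ht, one_mul]
      · have h1 : u t = 0 := by
          have h2 : t ≠ q := fun h2 => ht (by rw [h2])
          rw [hu]
          simp [h2]
        rw [h1, mul_zero]
    have hPu : W.starProjection u = GapB_d (GapB_i pl (pl q)) (W.starProjection u) := by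
      refine Submodule.eq_starProjection_of_mem_of_inner_eq_zero
        (hWs _ _ (Submodule.starProjection_apply_mem W u)) ?_
      intro v hv
      have h1 : u - GapB_d (GapB_i pl (pl q)) (W.starProjection u) =
          GapB_d (GapB_i pl (pl q)) (u - W.starProjection u) := by
        rw [map_sub, hQu]
      have h2 : inner ℂ (GapB_d (GapB_i pl (pl q)) (u - W.starProjection u)) v =
          inner ℂ (u - W.starProjection u) (GapB_d (GapB_i pl (pl q)) v) := by
        rw [PiLp.inner_apply, PiLp.inner_apply]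
        refine Finset.sum_congr rfl fun t _ => ?_
        rw [GapB_d_apply, GapB_d_apply]
        unfold GapB_i
        split_ifs
        · rw [one_mul, one_mul]
        · rw [zero_mul, zero_mul, inner_zero_left, inner_zero_right]
      rw [h1, h2]
      exact Submodule.starProjection_inner_eq_zero u _ (hWs _ v hv)
    rw [hcol, ← hu, hPu, GapB_d_apply]
    unfold GapB_i
    rw [if_neg hpq, zero_mul]
  · intro x hx
    rcases hgap (GapB_v x) ⟨x, hx, rfl⟩ with h | h
    · left
      apply GapB_v_inj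
      rw [GapB_act, ← hΦ, hΦP]
      exact Submodule.starProjection_eq_self_iff.2 h
    · right
      rw [GapB_nq, GapB_act, ← hΦ, map_sub, map_one, hΦP]
      have h1 : (1 - W.starProjection) (GapB_v x) = GapB_v x - W.starProjection (GapB_v x) := rfl
      rw [h1]
      exact pow_le_pow_left₀ (by positivity) h 2

end WPP
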