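import Pool.Agent.WPP.StR

/-!
# WPP [MahB]: reduction theory, Mahler's criterion with congruence subgroups
-/

set_option autoImplicit false

namespace WPP

open scoped ComplexConjugate
open GAM (H E F pd pdl PLat IsTh OddTor IsDel Gro IsLat)
open PST DWC

private theorem MahB_E {ι : Type} [Fintype ι] (x y : ι → ℂ) :
    |E x y| ≤ (nq x + nq y) / 2 := by
  have h1 : |E x y| ≤ ‖H x y‖ := Complex.abs_im_le_norm _
  have h2 : ‖H x y‖ ≤ ∑ a, ‖x a * conj (y a)‖ := by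
    unfold H
    exact norm_sum_le _ _
  have h3 : ∑ a, ‖x a * conj (y a)‖ ≤ ∑ a, (‖x a‖ ^ 2 + ‖y a‖ ^ 2) / 2 := by
    refine Finset.sum_le_sum fun a _ => ?_
    rw [norm_mul, RCLike.norm_conj]
    nlinarith [sq_nonneg (‖x a‖ - ‖y a‖)]
  have h4 : ∑ a, (‖x a‖ ^ 2 + ‖y a‖ ^ 2) / 2 = (nq x + nq y) / 2 := by
    unfold nq
    rw [← Finset.sum_add_distrib, Finset.sum_div]
  linarith

section

variable {α β S : Type} [Fintype α] [Fintype β] [DecidableEq α] [DecidableEq β]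

private theorem MahB_nsw (x : Ix α β Unit → ℂ) (p : Ix α β Unit) : ‖sw x p‖ = ‖x p‖ := by
  obtain ⟨s, u⟩ := p
  cases s with
  | inl i => simp [sw]
  | inr j => simp [sw]

private theorem MahB_mu (D : α ⊕ β → ℂ) (X : Ix α β Unit → ℂ) :
    mu (Matrix.diagonal D) X = fun p => D p.1 * X p := by
  funext p
  unfold mu
  rw [Finset.sum_eq_single p.1]
  · rw [Matrix.diagonal_apply_eq]
  · intro q _ hq
    rw [Matrix.diagonal_apply_ne _ (Ne.symm hq), zero_mul]
  · intro h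
    exact absurd (Finset.mem_univ _) h

private theorem MahB_nq (D : α ⊕ β → ℂ) (x : Ix α β Unit → ℂ) :
    nq (act (Matrix.diagonal D) x) ≤ (∑ p, ‖D p‖ ^ 2) * nq x := by
  unfold nq act
  rw [Finset.mul_sum]
  refine Finset.sum_le_sum fun p _ => ?_
  rw [MahB_nsw, MahB_mu]
  simp only
  rw [norm_mul, MahB_nsw, mul_pow]
  refine mul_le_mul_of_nonneg_right ?_ (by positivity)
  exact Finset.single_le_sum (f := fun p => ‖D p‖ ^ 2) (fun i _ => by positivity)
    (Finset.mem_univ p.1)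

private theorem MahB_comm (h5 : St_UGr) (pl : α ⊕ β → S) (th : S → ℂ) (N : ℕ)
    (g : Matrix (α ⊕ β) (α ⊕ β) ℂ) (hg : IsB pl g)
    (x : Ix α β Unit → ℂ) : act (kapB pl th N) (act g x) = act g (act (kapB pl th N) x) := by
  obtain ⟨-, h, -⟩ := h5 α β Unit
  rw [← h, ← h]
  congr 1
  ext p q
  unfold kapB
  rw [Matrix.diagonal_mul, Matrix.mul_diagonal]
  by_cases hpq : pl p = pl q
  · rw [hpq, mul_comm]
  · rw [hg p q hpq, mul_zero, zero_mul]

/-- the additive map of a matrix -/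
private noncomputable def MahB_hom (h5 : St_UGr) (g : Matrix (α ⊕ β) (α ⊕ β) ℂ) :
    (Ix α β Unit → ℂ) →+ (Ix α β Unit → ℂ) :=
  AddMonoidHom.mk' (act g) fun x y => ((h5 α β Unit).2.2.2.1 g x y 1).1

private theorem MahB_span (h5 : St_UGr) {M : ℕ} (L : Submodule ℤ (Ix α β Unit → ℂ))
    (g : Matrix (α ⊕ β) (α ⊕ β) ℂ) (hg : IsU g) (b : Fin M → Ix α β Unit → ℂ)
    (hb : ∀ i, act g (b i) ∈ L)
    (hs : ∀ x, act g x ∈ L → x ∈ Submodule.span ℤ (Set.range b)) :
    Submodule.span ℤ (Set.range fun i => act g (b i)) = L := by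
  apply le_antisymm
  · rw [Submodule.span_le]
    rintro _ ⟨i, rfl⟩
    exact hb i
  · intro l hl
    obtain ⟨-, h2, h3, -, -, h6, -⟩ := h5 α β Unit
    have hinv := (h6 g hg).2.2.1
    have e1 : act g (act (Jm α β * g.conjTranspose * Jm α β) l) = l := by
      rw [← h2, hinv, h3]
    have hy : act (Jm α β * g.conjTranspose * Jm α β) l ∈ Submodule.span ℤ (Set.range b) :=
      hs _ (by rw [e1]; exact hl)
    rw [← e1]
    have hmap : Submodule.map (MahB_hom h5 g).toIntLinearMap (Submodule.span ℤ (Set.range b)) =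
        Submodule.span ℤ (Set.range fun i => act g (b i)) := by
      rw [Submodule.map_span, ← Set.range_comp]
      rfl
    rw [← hmap]
    exact Submodule.mem_map_of_mem hy

end

private theorem MahB_int (B : ℝ) : Set.Finite {r : ℝ | (∃ k : ℤ, r = k) ∧ |r| ≤ B} := by
  refine Set.Finite.subset ((Set.finite_Icc (-⌈B⌉) ⌈B⌉).image (fun k : ℤ => (k : ℝ))) ?_
  rintro r ⟨⟨k, rfl⟩, hk⟩
  refine ⟨k, ?_, rfl⟩
  have h := abs_le.mp hk
  have hc := Int.le_ceil B
  constructor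
  · have : (-⌈B⌉ : ℝ) ≤ k := by linarith [h.1]
    exact_mod_cast this
  · have : (k : ℝ) ≤ ⌈B⌉ := by linarith [h.2]
    exact_mod_cast this

/-- classes modulo `n` -/
private theorem MahB_cls {V κ : Type} [AddCommGroup V] [Module ℝ V] [Fintype κ] (n : ℕ)
    (b : Module.Basis κ ℝ V) :
    ∃ cl : V → κ → ZMod n, ∀ l ∈ Submodule.span ℤ (Set.range b),
      ∀ l' ∈ Submodule.span ℤ (Set.range b), cl l = cl l' →
      ∃ m ∈ Submodule.span ℤ (Set.range b), l' = l + (n : ℤ) • m := by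
  classical
  refine ⟨fun l s => ((⌊b.repr l s⌋ : ℤ) : ZMod n), ?_⟩
  intro l hl l' hl' h
  rw [b.mem_span_iff_repr_mem ℤ] at hl hl'
  have key : ∀ s, ∃ k : ℤ, b.repr l' s = b.repr l s + (n : ℝ) * k := by
    intro s
    obtain ⟨u, hu⟩ := hl s
    obtain ⟨u', hu'⟩ := hl' s
    have hu2 : b.repr l s = (u : ℝ) := by rw [← hu]; simp
    have hu2' : b.repr l' s = (u' : ℝ) := by rw [← hu']; simp
    have h2 := congrFun h s
    simp only [hu2, hu2', Int.floor_intCast] at h2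
    rw [ZMod.intCast_eq_intCast_iff_dvd_sub] at h2
    obtain ⟨k, hk⟩ := h2
    refine ⟨k, ?_⟩
    rw [hu2, hu2']
    have : u' = u + (n : ℤ) * k := by linarith
    rw [this]
    push_cast
    ring
  choose k hk using key
  refine ⟨∑ s, k s • b s, ?_, ?_⟩
  · exact Submodule.sum_mem _ fun s _ =>
      Submodule.smul_mem _ _ (Submodule.subset_span ⟨s, rfl⟩)
  · apply b.repr.injective
    ext s
    rw [hk s, map_add, Finsupp.add_apply, map_zsmul, map_sum]
    congr 1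
    have : (∑ x, b.repr (k x • b x)) s = (k s : ℝ) := by
      rw [Finsupp.finsetSum_apply]
      rw [Finset.sum_eq_single s]
      · rw [map_zsmul, b.repr_self]
        simp
      · intro t _ ht
        rw [map_zsmul, b.repr_self]
        simp [ht]
      · intro h
        exact absurd (Finset.mem_univ _) h
    rw [Finsupp.smul_apply, this]
    simp

theorem thm_MahB (h1 : DWC.St_Gn) (h2 : St_ExtB) (h3 : DWC.St_Bdf) (h5 : PST.St_UGr) :
    St_MahB := by
  classical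
  intro α β S _ _ _ _ _ _ pl th e N n L χ ε hd hN hn hL hK hε h4
  obtain ⟨R₀, M, hG⟩ := h1 α β L χ ε hL hε
  have : NeZero n := ⟨hn⟩
  obtain ⟨b₀, hb₀⟩ := hL.basis
  obtain ⟨cl, hcl⟩ := MahB_cls n b₀
  have hUG := h5 α β Unit
  let Gt : Type := {g : Matrix (α ⊕ β) (α ⊕ β) ℂ // IsU g ∧ IsB pl g ∧ Sh L g ε}
  have hS : ∀ g : Gt, ∃ b : Fin M → Ix α β Unit → ℂ, (∀ i, act g.1 (b i) ∈ L ∧ nq (b i) ≤ R₀) ∧
      ∀ x, act g.1 x ∈ L → x ∈ Submodule.span ℤ (Set.range b) :=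
    fun g => hG g.1 g.2.1 g.2.2.2
  choose b hb hbs using hS
  let D : Gt → (Fin M → Fin M → ℝ) × (Fin M → Fin M → ℝ) ×
      (Fin M → (Ix α β Unit ⊕ Ix α β Unit) → ZMod n) := fun g =>
    (fun i j => E (act g.1 (b g i)) (act g.1 (b g j)),
      fun i j => E (act (kapB pl th N) (act g.1 (b g i))) (act g.1 (b g j)),
      fun i => cl (act g.1 (b g i)))
  obtain ⟨c, hc⟩ : ∃ c : ℝ, c = ∑ p, ‖(N : ℂ) * th (pl p)‖ ^ 2 := ⟨_, rfl⟩
  have hc0 : 0 ≤ c := by
    rw [hc]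
    exact Finset.sum_nonneg fun i _ => by positivity
  -- finiteness of the data
  have hfin : Set.Finite (Set.range D) := by
    have hT1 : Set.Finite {r : ℝ | (∃ k : ℤ, r = k) ∧ |r| ≤ R₀} := MahB_int R₀
    have hT2 : Set.Finite {r : ℝ | (∃ k : ℤ, r = k) ∧ |r| ≤ (c * R₀ + R₀) / 2} :=
      MahB_int _
    have hP1 : Set.Finite (Set.pi Set.univ fun _ : Fin M => Set.pi Set.univ fun _ : Fin M =>
        {r : ℝ | (∃ k : ℤ, r = k) ∧ |r| ≤ R₀}) :=
      Set.Finite.pi fun _ => Set.Finite.pi fun _ => hT1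
    have hP2 : Set.Finite (Set.pi Set.univ fun _ : Fin M => Set.pi Set.univ fun _ : Fin M =>
        {r : ℝ | (∃ k : ℤ, r = k) ∧ |r| ≤ (c * R₀ + R₀) / 2}) :=
      Set.Finite.pi fun _ => Set.Finite.pi fun _ => hT2
    refine Set.Finite.subset (hP1.prod (hP2.prod (Set.finite_univ))) ?_
    rintro _ ⟨g, rfl⟩
    refine ⟨?_, ?_, Set.mem_univ _⟩
    · intro i _ j _
      refine ⟨hL.int _ (hb g i).1 _ (hb g j).1, ?_⟩
      show |E (act g.1 (b g i)) (act g.1 (b g j))| ≤ R₀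
      rw [hUG.2.2.2.2.2.2 g.1 g.2.1]
      have h := MahB_E (b g i) (b g j)
      have h' := (hb g i).2
      have h'' := (hb g j).2
      linarith
    · intro i _ j _
      refine ⟨hL.int _ (hK _ (hb g i).1) _ (hb g j).1, ?_⟩
      show |E (act (kapB pl th N) (act g.1 (b g i))) (act g.1 (b g j))| ≤
        (c * R₀ + R₀) / 2
      rw [MahB_comm h5 pl th N g.1 g.2.2.1, hUG.2.2.2.2.2.2 g.1 g.2.1]
      have h := MahB_E (act (kapB pl th N) (b g i)) (b g j)
      have h' : nq (act (kapB pl th N) (b g i)) ≤ c * R₀ := by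
        have h0 := MahB_nq (fun p => (N : ℂ) * th (pl p)) (b g i)
        rw [← hc] at h0
        exact h0.trans (mul_le_mul_of_nonneg_left (hb g i).2 hc0)
      have h'' := (hb g j).2
      linarith
  -- a bound for every value of the data
  have hval : ∀ x : (Fin M → Fin M → ℝ) × (Fin M → Fin M → ℝ) ×
      (Fin M → (Ix α β Unit ⊕ Ix α β Unit) → ZMod n), ∃ R : ℝ, ∀ g : Gt, D g = x →
      ∃ γ : Matrix (α ⊕ β) (α ⊕ β) ℂ, GamB pl e n L γ ∧ ∀ i j, ‖(γ * g.1) i j‖ ≤ R := by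
    intro x
    by_cases hx : ∃ g₀ : Gt, D g₀ = x
    · obtain ⟨g₀, rfl⟩ := hx
      have hsp : Submodule.span ℤ (Set.range fun i => act g₀.1 (b g₀ i)) = L :=
        MahB_span h5 L g₀.1 g₀.2.1 (b g₀) (fun i => (hb g₀ i).1) (hbs g₀)
      obtain ⟨C, hC, hB⟩ := h3 α β M L χ (fun i => act g₀.1 (b g₀ i)) hL hsp
      refine ⟨Real.sqrt (C * R₀), fun g hg => ?_⟩
      have hsp' : Submodule.span ℤ (Set.range fun i => act g.1 (b g i)) = L :=
        MahB_span h5 L g.1 g.2.1 (b g) (fun i => (hb g i).1) (hbs g)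
      have hD1 := congrArg Prod.fst hg
      have hD2 := congrArg Prod.fst (congrArg Prod.snd hg)
      have hD3 := congrArg Prod.snd (congrArg Prod.snd hg)
      obtain ⟨γ, hγ1, hγB, hγ2, hγ3, hγ4⟩ := h2 α β S pl th N n M L χ (fun i => act g.1 (b g i))
        (fun i => act g₀.1 (b g₀ i)) hd hN hL hK hsp' hsp
        (fun i j => congrFun (congrFun hD1 i) j) (fun i j => congrFun (congrFun hD2 i) j)
        (fun i => by
          have h := hcl (act g.1 (b g i)) (by rw [← hb₀]; exact (hb g i).1)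
            (act g₀.1 (b g₀ i)) (by rw [← hb₀]; exact (hb g₀ i).1) (congrFun hD3 i)
          rw [← hb₀] at h
          exact h)
      refine ⟨γ, ⟨hγ1, hγB, h4 γ hγ1 hγB hγ2, hγ2, hγ3⟩, fun i j => ?_⟩
      have hU : IsU (γ * g.1) := hUG.2.2.2.2.1 γ g.1 hγ1 g.2.1
      have h := hB (γ * g.1) (b g) R₀ hU (fun i => (hb g i).2)
        (fun i => by rw [hUG.2.1]; exact hγ4 i) i j
      exact Real.le_sqrt_of_sq_le h
    · exact ⟨0, fun g hg => absurd ⟨g, hg⟩ hx⟩
  choose Rf hRf using hval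
  obtain ⟨R, hR⟩ := (hfin.image Rf).bddAbove
  refine ⟨R, fun g hg hgB hsh => ?_⟩
  obtain ⟨γ, hγ, hγR⟩ := hRf (D ⟨g, hg, hgB, hsh⟩) ⟨g, hg, hgB, hsh⟩ rfl
  refine ⟨γ, hγ, fun i j => (hγR i j).trans ?_⟩
  exact hR ⟨D ⟨g, hg, hgB, hsh⟩, ⟨⟨g, hg, hgB, hsh⟩, rfl⟩, rfl⟩

end WPP
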