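import Pool.Agent.WPP.StC
import Pool.Agent.PST.UAl
import Pool.Agent.PST.UGr

/-!
# WPP, module MobB: the action on the product domain
-/

set_option autoImplicit false

namespace WPP

open scoped ComplexConjugate
open GAM (H E F pd pdl PLat IsTh OddTor IsDel Gro IsLat)
open PST DWC
open Matrix

/-! ### Block diagonal matrices -/

section blk

variable {ι κ μ S : Type} {f : ι → S} {f' : κ → S} {f'' : μ → S}

/-- Block diagonal rectangular matrices. -/
private def RB (f : ι → S) (f' : κ → S) (M : Matrix ι κ ℂ) : Prop := ∀ i k, f i ≠ f' k → M i k = 0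

private theorem RB.add {M N : Matrix ι κ ℂ} (hM : RB f f' M) (hN : RB f f' N) :
    RB f f' (M + N) := fun i k h => by
  rw [Matrix.add_apply, hM i k h, hN i k h, add_zero]

private theorem RB.sub {M N : Matrix ι κ ℂ} (hM : RB f f' M) (hN : RB f f' N) :
    RB f f' (M - N) := fun i k h => by
  rw [Matrix.sub_apply, hM i k h, hN i k h, sub_zero]

private theorem RB.neg {M : Matrix ι κ ℂ} (hM : RB f f' M) : RB f f' (-M) := fun i k h => by
  rw [Matrix.neg_apply, hM i k h, neg_zero]

private theorem RB.mul [Fintype κ] {M : Matrix ι κ ℂ} {N : Matrix κ μ ℂ} (hM : RB f f' M)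
    (hN : RB f' f'' N) : RB f f'' (M * N) := by
  intro i k h
  rw [Matrix.mul_apply]
  refine Finset.sum_eq_zero fun j _ => ?_
  by_cases h1 : f i = f' j
  · have h2 : f' j ≠ f'' k := fun h3 => h (h1.trans h3)
    rw [hN j k h2, mul_zero]
  · rw [hM i j h1, zero_mul]

private theorem RB.one [DecidableEq ι] : RB f f (1 : Matrix ι ι ℂ) := fun i k h =>
  Matrix.one_apply_ne fun h' => h (by rw [h'])

/-- The blocks of a product. -/
private theorem RB.smul [Fintype κ] [DecidableEq S] {M : Matrix ι κ ℂ} (hM : RB f f' M)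
    (N : Matrix κ μ ℂ) (s : S) :
    (M * N).submatrix (Subtype.val : {i // f i = s} → ι) (Subtype.val : {k // f'' k = s} → μ) =
      M.submatrix (Subtype.val : {i // f i = s} → ι) (Subtype.val : {k // f' k = s} → κ) *
        N.submatrix (Subtype.val : {k // f' k = s} → κ) (Subtype.val : {k // f'' k = s} → μ) := by
  ext i k
  rw [Matrix.submatrix_apply, Matrix.mul_apply, Matrix.mul_apply]
  have h1 : ∑ j : {k // f' k = s}, M i.1 j.1 * N j.1 k.1 =
      ∑ j ∈ Finset.univ.filter (fun j => f' j = s), M i.1 j * N j k.1 :=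
    (Finset.sum_subtype (Finset.univ.filter fun j => f' j = s) (fun j => by simp)
      (fun j => M i.1 j * N j k.1)).symm
  refine Eq.trans ?_ h1.symm
  rw [Finset.sum_filter]
  refine Finset.sum_congr rfl fun j _ => ?_
  by_cases h2 : f' j = s
  · rw [if_pos h2]
  · rw [if_neg h2, hM i.1 j (fun h3 => h2 (h3.symm.trans i.2)), zero_mul]

/-- The inverse of a block diagonal matrix. -/
private theorem RB.inv [Fintype ι] [DecidableEq ι] [DecidableEq S] {M : Matrix ι ι ℂ}
    (hM : RB f f M) (hu : IsUnit M.det) : RB f f M⁻¹ := by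
  intro i k h
  have h1 : M * Matrix.diagonal (fun j => if f j = f i then (1 : ℂ) else 0) =
      Matrix.diagonal (fun j => if f j = f i then (1 : ℂ) else 0) * M := by
    ext a b
    rw [Matrix.mul_diagonal, Matrix.diagonal_mul]
    by_cases h2 : f a = f b
    · rw [h2, mul_comm]
    · rw [hM a b h2, zero_mul, mul_zero]
  have h2 : Matrix.diagonal (fun j => if f j = f i then (1 : ℂ) else 0) * M⁻¹ =
      M⁻¹ * Matrix.diagonal (fun j => if f j = f i then (1 : ℂ) else 0) := by
    have h3 : M⁻¹ * (M * Matrix.diagonal (fun j => if f j = f i then (1 : ℂ) else 0)) * M⁻¹ =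
        M⁻¹ * (Matrix.diagonal (fun j => if f j = f i then (1 : ℂ) else 0) * M) * M⁻¹ := by
      rw [h1]
    rw [← Matrix.mul_assoc, Matrix.nonsing_inv_mul _ hu, Matrix.one_mul, Matrix.mul_assoc M⁻¹,
      Matrix.mul_assoc _ M, Matrix.mul_nonsing_inv _ hu, Matrix.mul_one] at h3
    exact h3
  have h3 := congrFun (congrFun h2 i) k
  rw [Matrix.mul_diagonal, Matrix.diagonal_mul, if_pos rfl, if_neg (Ne.symm h), one_mul,
    mul_zero] at h3
  exact h3

private theorem RB.det_inv [Fintype ι] [DecidableEq ι] [DecidableEq S] {M : Matrix ι ι ℂ}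
    (hM : RB f f M) (hu : IsUnit M.det) (s : S) :
    (M⁻¹.submatrix (Subtype.val : {i // f i = s} → ι) Subtype.val).det *
      (M.submatrix (Subtype.val : {i // f i = s} → ι) Subtype.val).det = 1 := by
  have h1 := (hM.inv hu).smul (f'' := f) M s
  rw [Matrix.nonsing_inv_mul _ hu, Matrix.submatrix_one _ Subtype.val_injective] at h1
  rw [← Matrix.det_mul, ← h1, Matrix.det_one]

end blk

/-! ### Blocks of matrices over `α ⊕ β` -/

section two

variable {α β S : Type} [Fintype α] [Fintype β] [DecidableEq α] [DecidableEq β] [DecidableEq S]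

private theorem bkB (pl : α ⊕ β → S) (A : Matrix α α ℂ) (B : Matrix α β ℂ) (C : Matrix β α ℂ)
    (D : Matrix β β ℂ) (s : S) :
    (bk pl s (fromBlocks A B C D)).det =
      (fromBlocks (A.submatrix (Subtype.val : Pa pl s → α) Subtype.val)
        (B.submatrix (Subtype.val : Pa pl s → α) (Subtype.val : Pb pl s → β))
        (C.submatrix (Subtype.val : Pb pl s → β) (Subtype.val : Pa pl s → α))
        (D.submatrix (Subtype.val : Pb pl s → β) Subtype.val)).det := by
  rw [← Matrix.det_submatrix_equiv_self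
    (Equiv.subtypeSum (p := fun x : α ⊕ β => pl x = s)).symm (bk pl s (fromBlocks A B C D))]
  congr 1
  ext x y
  rcases x with x | x <;> rcases y with y | y <;> rfl

/-- The unipotent matrices. -/
private theorem dtU (pl : α ⊕ β → S) (B : Matrix α β ℂ) (s : S) :
    (bk pl s (fromBlocks 1 B 0 1)).det = 1 := by
  have h0 : (0 : Matrix β α ℂ).submatrix (Subtype.val : Pb pl s → β)
      (Subtype.val : Pa pl s → α) = 0 := rfl
  rw [bkB, h0, Matrix.det_fromBlocks_zero₂₁,
    Matrix.submatrix_one _ Subtype.val_injective, Matrix.submatrix_one _ Subtype.val_injective,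
    Matrix.det_one, Matrix.det_one, one_mul]

private theorem dtL (pl : α ⊕ β → S) (A : Matrix α α ℂ) (C : Matrix β α ℂ)
    (D : Matrix β β ℂ) (s : S) : (bk pl s (fromBlocks A 0 C D)).det =
      (A.submatrix (Subtype.val : Pa pl s → α) Subtype.val).det *
      (D.submatrix (Subtype.val : Pb pl s → β) Subtype.val).det := by
  have h0 : (0 : Matrix α β ℂ).submatrix (Subtype.val : Pa pl s → α)
      (Subtype.val : Pb pl s → β) = 0 := rfl
  rw [bkB, h0, Matrix.det_fromBlocks_zero₁₂]

end two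

theorem thm_MobB : St_MobB := by
  intro α β S _ _ _ _ _ _ pl g hg hB w hw
  have hw' : ex0 pl w ∈ Om α β := hw
  obtain ⟨hOm, hud, hua, _, _, _, _, hco⟩ :=
    PST.thm_UAl PST.thm_UGr α β Unit g hg (ex0 pl w) hw'
  obtain ⟨a, ha⟩ : ∃ a, a = g.toBlocks₁₁ := ⟨_, rfl⟩
  obtain ⟨b, hb⟩ : ∃ b, b = g.toBlocks₁₂ := ⟨_, rfl⟩
  obtain ⟨c, hc⟩ : ∃ c, c = g.toBlocks₂₁ := ⟨_, rfl⟩
  obtain ⟨d, hd⟩ : ∃ d, d = g.toBlocks₂₂ := ⟨_, rfl⟩
  obtain ⟨W, hW⟩ : ∃ W, W = PST.mt (ex0 pl w) := ⟨_, rfl⟩
  obtain ⟨fa, hfa⟩ : ∃ fa : α → S, fa = fun i => pl (Sum.inl i) := ⟨_, rfl⟩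
  obtain ⟨fb, hfb⟩ : ∃ fb : β → S, fb = fun i => pl (Sum.inr i) := ⟨_, rfl⟩
  have hgabcd : g = fromBlocks a b c d := by
    rw [ha, hb, hc, hd, Matrix.fromBlocks_toBlocks]
  have rg : RB pl pl g := hB
  have ra : RB fa fa a := fun i k h => by rw [ha]; exact hB _ _ (by rw [hfa] at h; exact h)
  have rb : RB fa fb b := fun i k h => by rw [hb]; exact hB _ _ (by rw [hfa, hfb] at h; exact h)
  have rc : RB fb fa c := fun i k h => by rw [hc]; exact hB _ _ (by rw [hfa, hfb] at h; exact h)
  have rd : RB fb fb d := fun i k h => by rw [hd]; exact hB _ _ (by rw [hfb] at h; exact h)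
  have rW : RB fa fb W := fun i k h => by
    rw [hfa, hfb] at h
    rw [hW]
    exact dif_neg h
  have hD : cd g (ex0 pl w) = c * W + d := by rw [hc, hd, hW]; rfl
  have rD : RB fb fb (cd g (ex0 pl w)) := by
    rw [hD]
    exact (rc.mul rW).add rd
  have rDi : RB fb fb (cd g (ex0 pl w))⁻¹ := rD.inv hud
  have hW' : PST.mt (mob g (ex0 pl w)) = (a * W + b) * (cd g (ex0 pl w))⁻¹ := by
    rw [ha, hb, hW]
    rfl
  have rW' : RB fa fb (PST.mt (mob g (ex0 pl w))) := by
    rw [hW']
    exact ((ra.mul rW).add rb).mul rDi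
  have hA : ca g (ex0 pl w) = a - PST.mt (mob g (ex0 pl w)) * c := by rw [ha, hc]; rfl
  have rA : RB fa fa (ca g (ex0 pl w)) := by
    rw [hA]
    exact ra.sub (rW'.mul rc)
  have hex : ex0 pl (mobB pl g w) = mob g (ex0 pl w) := by
    funext p
    unfold ex0
    by_cases h : pl (Sum.inl p.1) = pl (Sum.inr p.2)
    · rw [dif_pos h]
      rfl
    · rw [dif_neg h]
      have h1 := rW' p.1 p.2 (by rw [hfa, hfb]; exact h)
      exact h1.symm
  have hsd : ∀ s, ((ca g (ex0 pl w)).submatrix (Subtype.val : Pa pl s → α) Subtype.val).det *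
      ((cd g (ex0 pl w)).submatrix (Subtype.val : Pb pl s → β) Subtype.val).det = dt pl s g := by
    intro s
    have h1 : fromBlocks 1 (-PST.mt (mob g (ex0 pl w))) 0 1 * (g * fromBlocks 1 W 0 1) =
        fromBlocks (ca g (ex0 pl w)) 0 c (cd g (ex0 pl w)) := by
      have h3 : PST.mt (mob g (ex0 pl w)) * (c * W + d) = a * W + b := by
        rw [hW', ← hD, Matrix.mul_assoc, Matrix.nonsing_inv_mul _ hud, Matrix.mul_one]
      rw [hA, hD, hgabcd, fromBlocks_multiply, fromBlocks_multiply]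
      rw [← hgabcd]
      simp only [Matrix.mul_one, Matrix.mul_zero, add_zero, zero_add, Matrix.one_mul,
        Matrix.zero_mul, Matrix.neg_mul]
      rw [h3]
      congr 1
      abel
    have rU : RB pl pl (fromBlocks 1 (-PST.mt (mob g (ex0 pl w))) 0 1 :
        Matrix (α ⊕ β) (α ⊕ β) ℂ) := by
      rintro (i | i) (k | k) h
      · exact Matrix.one_apply_ne fun h' => h (by rw [h'])
      · show -(PST.mt (mob g (ex0 pl w)) i k) = 0
        rw [rW' i k (by rw [hfa, hfb]; exact h), neg_zero]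
      · rfl
      · exact Matrix.one_apply_ne fun h' => h (by rw [h'])
    have h2 := rU.smul (f'' := pl) (g * fromBlocks 1 W 0 1) s
    rw [rg.smul (f'' := pl) (fromBlocks 1 W 0 1) s, h1] at h2
    have h3 := congrArg Matrix.det h2
    rw [Matrix.det_mul, Matrix.det_mul] at h3
    have h4 := dtU pl (-PST.mt (mob g (ex0 pl w))) s
    have h5 := dtU pl W s
    have h6 := dtL pl (ca g (ex0 pl w)) c (cd g (ex0 pl w)) s
    unfold bk at h4 h5 h6
    rw [h4, h5, h6, one_mul, mul_one] at h3
    exact h3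
  refine ⟨?_, hex, ?_, ?_, ?_, ?_⟩
  · show ex0 pl (mobB pl g w) ∈ Om α β
    rw [hex]
    exact hOm
  · intro i i' h
    exact rA i i' (by rw [hfa]; exact h)
  · intro j j' h
    exact ⟨rD j j' (by rw [hfb]; exact h), rDi j j' (by rw [hfb]; exact h)⟩
  · intro s
    have h1 := rA.det_inv hua s
    have h2 := rD.det_inv hud s
    rw [hfa] at h1
    rw [hfb] at h2
    exact ⟨hsd s, right_ne_zero_of_mul_eq_one h1, right_ne_zero_of_mul_eq_one h2,
      eq_inv_of_mul_eq_one_left h2⟩
  · intro h hh _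
    unfold mobB at hex ⊢
    rw [hex, hco h hh]

end WPP
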