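import Pool.Agent.WPP.StC

/-!
# WPP, OmBT: the topology of the product domain
-/

set_option autoImplicit false

namespace WPP

open scoped ComplexConjugate
open GAM (H E F pd pdl PLat IsTh OddTor IsDel Gro IsLat)
open PST DWC

section

variable {α β S : Type} [DecidableEq S] (pl : α ⊕ β → S)

/-- `ex0` as a linear map. -/
def OmBT_lin : (Ga pl → ℂ) →ₗ[ℂ] (α × β → ℂ) where
  toFun := ex0 pl
  map_add' x y := by
    funext p
    simp only [ex0, Pi.add_apply]
    split_ifs
    · rfl
    · rw [add_zero]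
  map_smul' c x := by
    funext p
    simp only [ex0, Pi.smul_apply, RingHom.id_apply, smul_eq_mul]
    split_ifs
    · rfl
    · rw [mul_zero]

theorem OmBT_lin_apply (w : Ga pl → ℂ) : OmBT_lin pl w = ex0 pl w := rfl

theorem OmBT_rs (w : Ga pl → ℂ) : rs pl (ex0 pl w) = w := by
  funext p
  simp only [rs, ex0]
  rw [dif_pos p.2]

theorem OmBT_cont : Continuous (ex0 pl : (Ga pl → ℂ) → α × β → ℂ) := by
  refine continuous_pi fun p => ?_
  unfold ex0
  split_ifs with h
  · exact continuous_apply _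
  · exact continuous_const

theorem OmBT_zero : ex0 pl (0 : Ga pl → ℂ) = 0 := (OmBT_lin pl).map_zero

end

theorem thm_OmBT (hO : PST.St_OmT) : St_OmBT := by
  intro α β S _ _ _ _ _ pl
  obtain ⟨h1, h2, h3, h4, h5, -⟩ := hO α β
  have hc := OmBT_cont pl
  have hr : Continuous (rs pl : (α × β → ℂ) → Ga pl → ℂ) :=
    continuous_pi fun p => continuous_apply _
  have hce : Topology.IsClosedEmbedding (ex0 pl : (Ga pl → ℂ) → α × β → ℂ) :=
    Function.LeftInverse.isClosedEmbedding (OmBT_rs pl) hr hc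
  refine ⟨h1.preimage hc, ?_, ?_, ?_, ?_, hc, OmBT_rs pl, OmBT_zero pl, ?_⟩
  · exact h2.is_linear_preimage ((OmBT_lin pl).restrictScalars ℝ).isLinear
  · show ex0 pl 0 ∈ Om α β
    rw [OmBT_zero]
    exact h3
  · intro ρ hρ0 hρ1
    exact ⟨hce.isCompact_preimage (h4 ρ hρ0 hρ1).1, fun w hw => (h4 ρ hρ0 hρ1).2 hw⟩
  · intro w hw
    obtain ⟨ρ, hρ0, hρ1, h6⟩ := h5 (ex0 pl w) hw
    exact ⟨ρ, hρ0, hρ1, hc.continuousAt h6⟩
  · intro w
    refine differentiableAt_pi.2 fun p => ?_
    unfold ex0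
    split_ifs with h
    · exact differentiableAt_apply _ _
    · exact differentiableAt_const _

end WPP
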