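import Pool.Agent.WPP.StR
import Pool.Agent.WPP.StC
import Pool.Agent.PST.UGr

/-!
# WPP, module ResB: the determinants of the blocks come from one element of the field
-/

set_option autoImplicit false
set_option linter.unusedSectionVars false

namespace WPP

open scoped ComplexConjugate
open GAM (H E F pd pdl PLat IsTh OddTor IsDel Gro IsLat)
open PST DWC

section lin

variable {J : Type} [Fintype J] [DecidableEq J]

private theorem ResB_semi (B T D : Matrix J J ℂ) (h : B * T = D * B) (R : Polynomial ℂ) :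
    B * Polynomial.aeval T R = Polynomial.aeval D R * B := by
  induction R using Polynomial.induction_on' with
  | add p q hp hq => rw [map_add, map_add, mul_add, add_mul, hp, hq]
  | monomial n a =>
    have h1 : SemiconjBy B T D := h
    have h2 : B * T ^ n = D ^ n * B := (h1.pow_right n).eq
    rw [Polynomial.aeval_monomial, Polynomial.aeval_monomial, ← Algebra.smul_def,
      ← Algebra.smul_def, Matrix.mul_smul, h2, Matrix.smul_mul]

private theorem ResB_diag (v : J → ℂ) (R : Polynomial ℂ) :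
    Polynomial.aeval (Matrix.diagonal v) R = Matrix.diagonal fun p => R.eval (v p) := by
  have h1 := Polynomial.aeval_algHom_apply (Matrix.diagonalAlgHom ℂ : (J → ℂ) →ₐ[ℂ] Matrix J J ℂ)
    v R
  have h2 : (Matrix.diagonalAlgHom ℂ : (J → ℂ) →ₐ[ℂ] Matrix J J ℂ) v = Matrix.diagonal v := rfl
  rw [h2] at h1
  rw [h1]
  show Matrix.diagonal (Polynomial.aeval v R) = _
  congr 1
  funext p
  rw [Polynomial.aeval_pi_apply₂, Polynomial.coe_aeval_eq_eval]

end lin

section poly

variable {K : Type} [Field K] [NumberField K]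

/-- The polynomial which separates the conjugates of a generator. -/
private noncomputable def ResB_P (z : K) : Polynomial K :=
  Polynomial.C ((Polynomial.aeval z (Polynomial.derivative (minpoly ℚ z)))⁻¹) * minpolyDiv ℚ z

private theorem ResB_P_eval (z : K) (σ τ : K →+* ℂ) :
    (ResB_P z).eval₂ σ (τ z) = if σ z = τ z then 1 else 0 := by
  classical
  have hz : IsIntegral ℚ z := Algebra.IsIntegral.isIntegral z
  have hd : Polynomial.aeval z (Polynomial.derivative (minpoly ℚ z)) ≠ 0 :=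
    (minpoly.irreducible hz).separable.aeval_derivative_ne_zero (minpoly.aeval _ _)
  have h1 : Polynomial.eval₂ (σ.comp (algebraMap ℚ K)) (τ z) (minpoly ℚ z) = 0 := by
    have h2 : σ.comp (algebraMap ℚ K) = τ.comp (algebraMap ℚ K) := RingHom.ext_rat _ _
    rw [h2, ← Polynomial.hom_eval₂]
    have h3 : Polynomial.eval₂ (algebraMap ℚ K) z (minpoly ℚ z) = 0 := minpoly.aeval ℚ z
    rw [h3, map_zero]
  unfold ResB_P
  rw [Polynomial.eval₂_mul, Polynomial.eval₂_C, eval₂_minpolyDiv_of_eval₂_eq_zero σ h1]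
  split_ifs
  · rw [← map_mul, inv_mul_cancel₀ hd, map_one]
  · rw [mul_zero]

end poly

section main

variable {α β S : Type} [Fintype α] [Fintype β] [Fintype S] [DecidableEq α]
  [DecidableEq β] [DecidableEq S]

/-- The matrix `g` on the index set with `Unit`. -/
private def ResB_g (g : Matrix (α ⊕ β) (α ⊕ β) ℂ) : Matrix (Ix α β Unit) (Ix α β Unit) ℂ :=
  Matrix.of fun p q => g p.1 q.1

private theorem ResB_sw_act (g : Matrix (α ⊕ β) (α ⊕ β) ℂ) (x : Ix α β Unit → ℂ) :
    sw (act g x) = (ResB_g g).mulVec (sw x) := by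
  unfold act
  rw [UGr_sw_sw]
  funext p
  unfold mu
  rw [Matrix.mulVec, dotProduct, Fintype.sum_prod_type]
  refine Finset.sum_congr rfl fun q _ => ?_
  rw [Fintype.sum_unique]
  rfl

private theorem ResB_sw_zero : sw (0 : Ix α β Unit → ℂ) = 0 := by
  have h := UGr_sw_smul (0 : ℝ) (0 : Ix α β Unit → ℂ)
  simpa using h

private theorem ResB_sw_sum {J : Type} (s : Finset J) (f : J → Ix α β Unit → ℂ) :
    sw (∑ j ∈ s, f j) = ∑ j ∈ s, sw (f j) := by
  classical
  induction s using Finset.induction_on with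
  | empty => rw [Finset.sum_empty, Finset.sum_empty, ResB_sw_zero]
  | insert a s ha ih => rw [Finset.sum_insert ha, Finset.sum_insert ha, UGr_sw_add, ih]

private theorem ResB_sw_real {J : Type} [Fintype J] (r : J → ℝ) (b : J → Ix α β Unit → ℂ) :
    sw (∑ j, r j • b j) = ∑ j, (r j : ℂ) • sw (b j) := by
  rw [ResB_sw_sum]
  refine Finset.sum_congr rfl fun j _ => ?_
  rw [← UGr_sw_smul]
  congr 1

variable (b : Module.Basis (Ix α β Unit ⊕ Ix α β Unit) ℝ (Ix α β Unit → ℂ))

/-- The matrix of the basis and its conjugate. -/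
private noncomputable def ResB_B : Matrix (Ix α β Unit ⊕ Ix α β Unit) (Ix α β Unit ⊕ Ix α β Unit) ℂ :=
  Matrix.of fun p k => Sum.elim (fun p => sw (b k) p) (fun p => conj (sw (b k) p)) p

private theorem ResB_det : (ResB_B b).det ≠ 0 := by
  intro h0
  obtain ⟨v, hv, hv0⟩ := Matrix.exists_mulVec_eq_zero_iff.2 h0
  have h1 : ∀ p, ∑ k, sw (b k) p * v k = 0 := fun p => congrFun hv0 (Sum.inl p)
  have h2 : ∀ p, ∑ k, sw (b k) p * conj (v k) = 0 := fun p => by
    have h3 : ∑ k, conj (sw (b k) p) * v k = 0 := congrFun hv0 (Sum.inr p)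
    have h4 := congrArg conj h3
    rw [map_sum, map_zero] at h4
    rw [← h4]
    refine Finset.sum_congr rfl fun k _ => ?_
    rw [map_mul, Complex.conj_conj]
  have h5 : ∀ r : (Ix α β Unit ⊕ Ix α β Unit) → ℝ, (∀ p, ∑ k, sw (b k) p * (r k : ℂ) = 0) →
      ∀ k, r k = 0 := by
    intro r hr
    have h6 : ∑ k, r k • b k = 0 := by
      rw [← UGr_sw_sw (∑ k, r k • b k), ResB_sw_real]
      have h7 : ∑ j, (r j : ℂ) • sw (b j) = 0 := by
        funext p
        rw [Finset.sum_apply, Pi.zero_apply, ← hr p]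
        refine Finset.sum_congr rfl fun k _ => ?_
        rw [Pi.smul_apply, smul_eq_mul, mul_comm]
      rw [h7, ResB_sw_zero]
    exact Fintype.linearIndependent_iff.1 b.linearIndependent r h6
  apply hv
  funext k
  have hre := h5 (fun k => (v k).re) (fun p => by
    have h6 : ∑ k, sw (b k) p * ((v k).re : ℂ) =
        (∑ k, sw (b k) p * v k + ∑ k, sw (b k) p * conj (v k)) / 2 := by
      rw [← Finset.sum_add_distrib, Finset.sum_div]
      refine Finset.sum_congr rfl fun k _ => ?_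
      rw [← mul_add, Complex.add_conj]
      push_cast
      ring
    rw [h6, h1, h2, add_zero, zero_div]) k
  have him := h5 (fun k => (v k).im) (fun p => by
    have h6 : ∑ k, sw (b k) p * ((v k).im : ℂ) =
        (∑ k, sw (b k) p * v k - ∑ k, sw (b k) p * conj (v k)) / (2 * Complex.I) := by
      rw [← Finset.sum_sub_distrib, Finset.sum_div]
      refine Finset.sum_congr rfl fun k _ => ?_
      rw [← mul_sub, Complex.sub_conj]
      field_simp
      push_cast
      ring
    rw [h6, h1, h2, sub_zero, zero_div]) k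
  exact Complex.ext hre him

private theorem ResB_rel (g : Matrix (α ⊕ β) (α ⊕ β) ℂ)
    (G : Matrix (Ix α β Unit ⊕ Ix α β Unit) (Ix α β Unit ⊕ Ix α β Unit) ℤ)
    (hG : ∀ k, ∑ j, G j k • b j = act g (b k)) :
    ResB_B b * G.map (Int.cast : ℤ → ℂ) =
      Matrix.fromBlocks (ResB_g g) 0 0 ((ResB_g g).map conj) * ResB_B b := by
  have h1 : ∀ p k, ∑ j, sw (b j) p * ((G j k : ℤ) : ℂ) = ∑ q, ResB_g g p q * sw (b k) q := by
    intro p k
    have h2 := congrFun (ResB_sw_act g (b k)) p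
    rw [← hG k] at h2
    have h3 : ∑ j, G j k • b j = ∑ j, ((G j k : ℤ) : ℝ) • b j :=
      Finset.sum_congr rfl fun j _ => (Int.cast_smul_eq_zsmul ℝ _ _).symm
    rw [h3, ResB_sw_real, Finset.sum_apply] at h2
    rw [show ∑ q, ResB_g g p q * sw (b k) q = (ResB_g g).mulVec (sw (b k)) p from rfl, ← h2]
    refine Finset.sum_congr rfl fun j _ => ?_
    rw [Pi.smul_apply, smul_eq_mul, mul_comm]
    push_cast
    rfl
  ext p k
  rw [Matrix.mul_apply, Matrix.mul_apply]
  conv_rhs => rw [Fintype.sum_sum_type]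
  rcases p with p | p
  · simp only [ResB_B, Matrix.of_apply, Sum.elim_inl, Sum.elim_inr, Matrix.map_apply,
      Matrix.fromBlocks_apply₁₁, Matrix.fromBlocks_apply₁₂, Matrix.zero_apply, zero_mul,
      Finset.sum_const_zero, add_zero]
    exact h1 p k
  · simp only [ResB_B, Matrix.of_apply, Sum.elim_inl, Sum.elim_inr, Matrix.map_apply,
      Matrix.fromBlocks_apply₂₁, Matrix.fromBlocks_apply₂₂, Matrix.zero_apply, zero_mul,
      Finset.sum_const_zero, zero_add]
    have h2 := congrArg conj (h1 p k)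
    rw [map_sum, map_sum] at h2
    simp only [map_mul, map_intCast] at h2
    exact h2

/-- The determinant of a block at the place `s`. -/
private theorem ResB_blk (hB : St_GrB) (pl : α ⊕ β → S) (g : Matrix (α ⊕ β) (α ⊕ β) ℂ)
    (hg : IsB pl g) (s : S) :
    (Matrix.diagonal (fun p : Ix α β Unit => if pl p.1 = s then (1 : ℂ) else 0) * ResB_g g +
      1 - Matrix.diagonal (fun p : Ix α β Unit => if pl p.1 = s then (1 : ℂ) else 0)).det =
      dt pl s g := by
  obtain ⟨h, hh⟩ : ∃ h : Matrix (α ⊕ β) (α ⊕ β) ℂ, h =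
    Matrix.diagonal (fun p : α ⊕ β => if pl p = s then (1 : ℂ) else 0) * g +
      1 - Matrix.diagonal (fun p : α ⊕ β => if pl p = s then (1 : ℂ) else 0) := ⟨_, rfl⟩
  have h1 : (Matrix.diagonal (fun p : Ix α β Unit => if pl p.1 = s then (1 : ℂ) else 0) *
      ResB_g g + 1 - Matrix.diagonal (fun p : Ix α β Unit => if pl p.1 = s then (1 : ℂ) else 0)) =
      h.submatrix (Equiv.prodPUnit (α ⊕ β)) (Equiv.prodPUnit (α ⊕ β)) := by
    ext ⟨p, _⟩ ⟨q, _⟩
    rw [hh]
    simp only [Matrix.sub_apply, Matrix.add_apply, Matrix.diagonal_mul, Matrix.submatrix_apply,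
      Equiv.prodPUnit_apply, ResB_g, Matrix.of_apply, Matrix.one_apply, Matrix.diagonal_apply,
      Prod.mk.injEq, and_true]
  have hap : ∀ p q, h p q = (if pl p = s then (1 : ℂ) else 0) * g p q +
      (if p = q then 1 else 0) - (if p = q then (if pl p = s then (1 : ℂ) else 0) else 0) := by
    intro p q
    rw [hh]
    simp only [Matrix.sub_apply, Matrix.add_apply, Matrix.diagonal_mul, Matrix.one_apply,
      Matrix.diagonal_apply]
  have hIs : IsB pl h := by
    intro p q hpq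
    have hne : p ≠ q := fun e => hpq (congrArg pl e)
    rw [hap, hg p q hpq, if_neg hne, if_neg hne]
    ring
  rw [h1, Matrix.det_submatrix_equiv_self, (hB α β S pl).2.2.2.2.2 h hIs,
    Finset.prod_eq_single s]
  · unfold dt
    congr 1
    ext ⟨p, hp⟩ ⟨q, hq⟩
    show h p q = g p q
    rw [hap, if_pos hp]
    split_ifs <;> ring
  · intro s' _ hs'
    unfold dt
    have h2 : bk pl s' h = 1 := by
      ext ⟨p, hp⟩ ⟨q, hq⟩
      show h p q = (1 : Matrix {p : α ⊕ β // pl p = s'} {p : α ⊕ β // pl p = s'} ℂ) ⟨p, hp⟩ ⟨q, hq⟩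
      have hps : pl p ≠ s := fun e => hs' (hp.symm.trans e)
      rw [hap, if_neg hps, Matrix.one_apply]
      simp only [Subtype.mk.injEq]
      split_ifs <;> ring
    rw [h2, Matrix.det_one]
  · intro h0
    exact absurd (Finset.mem_univ _) h0

end main

theorem thm_ResB (hGr : St_GrB) : St_ResB := by
  classical
  intro α β S K _ _ _ _ _ _ _ _ pl c φ t N L χ γ hK hN hL hkap hγ hγL
  obtain ⟨b, hb⟩ := hL.basis
  have hex : ∀ g : Matrix (α ⊕ β) (α ⊕ β) ℂ, (∀ x ∈ L, act g x ∈ L) →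
      ∃ G : Matrix (Ix α β Unit ⊕ Ix α β Unit) (Ix α β Unit ⊕ Ix α β Unit) ℤ,
        ∀ k, ∑ j, G j k • b j = act g (b k) := by
    intro g hg
    have h1 : ∀ k, ∃ a : Ix α β Unit ⊕ Ix α β Unit → ℤ, ∑ j, a j • b j = act g (b k) := by
      intro k
      have h2 : act g (b k) ∈ L := hg _ (by rw [hb]; exact Submodule.subset_span ⟨k, rfl⟩)
      rw [hb] at h2
      exact (Submodule.mem_span_range_iff_exists_fun ℤ).1 h2
    choose a ha using h1
    exact ⟨Matrix.of fun j k => a k j, ha⟩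
  obtain ⟨G, hG⟩ := hex γ hγL
  obtain ⟨T, hT⟩ := hex _ hkap
  have hBG := ResB_rel b γ G hG
  have hBT := ResB_rel b _ T hT
  set z : K := (N : K) * t with hz
  set PK : Matrix (Ix α β Unit ⊕ Ix α β Unit) (Ix α β Unit ⊕ Ix α β Unit) K :=
    Polynomial.aeval (T.map (Int.cast : ℤ → K)) (ResB_P z) with hPK
  refine ⟨(PK * G.map (Int.cast : ℤ → K) + 1 - PK).det, fun s => ?_⟩
  -- the element under `φ s`
  have hmapc : ∀ M : Matrix (Ix α β Unit ⊕ Ix α β Unit) (Ix α β Unit ⊕ Ix α β Unit) ℤ,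
      (φ s).mapMatrix (M.map (Int.cast : ℤ → K)) = M.map (Int.cast : ℤ → ℂ) := by
    intro M
    ext p q
    simp
  set R : Polynomial ℂ := (ResB_P z).map (φ s) with hR
  set TC : Matrix (Ix α β Unit ⊕ Ix α β Unit) (Ix α β Unit ⊕ Ix α β Unit) ℂ :=
    T.map (Int.cast : ℤ → ℂ) with hTC
  have hPC : (φ s).mapMatrix PK = Polynomial.aeval TC R := by
    rw [hPK, Polynomial.map_aeval_eq_aeval_map (φ := φ s), hmapc]
    ext a p q
    simp only [RingHom.comp_apply, Matrix.algebraMap_eq_diagonal, RingHom.mapMatrix_apply]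
    by_cases hpq : p = q
    · subst hpq
      simp
    · simp [Matrix.diagonal_apply_ne _ hpq]
  rw [RingHom.map_det, map_sub, map_add, map_mul, map_one, hPC, hmapc]
  -- conjugation
  obtain ⟨v, hv⟩ : ∃ v : Ix α β Unit ⊕ Ix α β Unit → ℂ, v = Sum.elim
    (fun p => (N : ℂ) * φ (pl p.1) t) (fun p => conj ((N : ℂ) * φ (pl p.1) t)) := ⟨_, rfl⟩
  have hDd : Matrix.fromBlocks (ResB_g (kapB pl (fun s => φ s t) N)) 0 0
      ((ResB_g (kapB pl (fun s => φ s t) N)).map conj) = Matrix.diagonal v := by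
    have h1 : (ResB_g (kapB pl (fun s => φ s t) N) : Matrix (Ix α β Unit) (Ix α β Unit) ℂ) =
        Matrix.diagonal fun p => (N : ℂ) * φ (pl p.1) t := by
      ext ⟨p, _⟩ ⟨q, _⟩
      simp only [ResB_g, kapB, Matrix.of_apply, Matrix.diagonal_apply, Prod.mk.injEq, and_true]
    rw [h1, hv, ← Matrix.fromBlocks_diagonal]
    congr 1
    rw [Matrix.diagonal_map (map_zero _)]
  rw [hDd] at hBT
  have hBP := ResB_semi _ _ _ hBT R
  rw [ResB_diag] at hBP
  obtain ⟨e₁, he₁⟩ : ∃ e₁ : Ix α β Unit → ℂ, e₁ = fun p => if pl p.1 = s then (1 : ℂ) else 0 :=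
    ⟨_, rfl⟩
  have hinj := hK.ty.1
  have hcs : ∀ σ τ : K →+* ℂ, σ z = τ z ↔ σ = τ := by
    intro σ τ
    refine ⟨fun h => ?_, fun h => by rw [h]⟩
    have hN' : (N : ℂ) ≠ 0 := by exact_mod_cast hN
    have h1 : (N : ℂ) * σ t = (N : ℂ) * τ t := by
      rw [hz, map_mul, map_mul, map_natCast, map_natCast] at h
      exact h
    have h2 := hK.gen σ τ (mul_left_cancel₀ hN' h1)
    exact h2
  have hev : (fun p => R.eval (v p)) = Sum.elim e₁ (fun _ => 0) := by
    funext p
    rw [hR, Polynomial.eval_map]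
    rcases p with p | p
    · have h1 : v (Sum.inl p) = φ (pl p.1) z := by
        rw [hv, hz, map_mul, map_natCast]
        rfl
      rw [h1, ResB_P_eval]
      have he : Sum.elim e₁ (fun _ : Ix α β Unit => (0 : ℂ)) (Sum.inl p) =
          if pl p.1 = s then (1 : ℂ) else 0 := by
        rw [Sum.elim_inl, he₁]
      rw [he]
      by_cases h2 : pl p.1 = s
      · rw [if_pos (by rw [h2]), if_pos h2]
      · rw [if_neg, if_neg h2]
        rw [hcs]
        intro h3
        have h4 := hinj (a₁ := Sum.inl s) (a₂ := Sum.inl (pl p.1)) h3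
        exact h2 (Sum.inl.inj h4).symm
    · have h1 : v (Sum.inr p) = ((φ (pl p.1)).comp c) z := by
        rw [hv, hz]
        show conj ((N : ℂ) * φ (pl p.1) t) = φ (pl p.1) (c ((N : K) * t))
        rw [← hK.cm.cc, map_mul (φ (pl p.1)), map_natCast]
      rw [h1, ResB_P_eval, if_neg]
      · rfl
      · rw [hcs]
        intro h3
        have h4 := hinj (a₁ := Sum.inl s) (a₂ := Sum.inr (pl p.1)) h3
        cases h4
  rw [hev] at hBP
  have hdet := ResB_det b
  obtain ⟨PC, hPCd⟩ : ∃ PC, PC = Polynomial.aeval TC R := ⟨_, rfl⟩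
  rw [← hPCd] at hBP ⊢
  obtain ⟨Γ, hΓ⟩ : ∃ Γ, Γ = Matrix.fromBlocks (ResB_g γ) 0 0 ((ResB_g γ).map conj) := ⟨_, rfl⟩
  rw [← hΓ] at hBG
  obtain ⟨Ee, hEe⟩ : ∃ Ee : Matrix (Ix α β Unit ⊕ Ix α β Unit) (Ix α β Unit ⊕ Ix α β Unit) ℂ,
    Ee = Matrix.diagonal (Sum.elim e₁ (fun _ => 0)) := ⟨_, rfl⟩
  rw [← hEe] at hBP
  have hQ : ResB_B b * (PC * G.map (Int.cast : ℤ → ℂ) + 1 - PC) =
      (Ee * Γ + 1 - Ee) * ResB_B b := by
    rw [mul_sub, mul_add, ← mul_assoc, hBP, mul_assoc, hBG, mul_one, sub_mul, add_mul, one_mul,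
      mul_assoc]
  have h1 := congrArg Matrix.det hQ
  rw [Matrix.det_mul, Matrix.det_mul, mul_comm] at h1
  rw [mul_right_cancel₀ hdet h1, hEe, hΓ]
  have h2 : (Matrix.diagonal (Sum.elim e₁ (fun _ : Ix α β Unit => (0 : ℂ)))) =
      Matrix.fromBlocks (Matrix.diagonal e₁) 0 0 (0 : Matrix (Ix α β Unit) (Ix α β Unit) ℂ) := by
    rw [← Matrix.fromBlocks_diagonal, Matrix.diagonal_zero]
  rw [h2, Matrix.fromBlocks_multiply, ← Matrix.fromBlocks_one, Matrix.fromBlocks_add,
    sub_eq_add_neg, Matrix.fromBlocks_neg, Matrix.fromBlocks_add]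
  simp only [Matrix.mul_zero, Matrix.zero_mul, add_zero, zero_add, neg_zero]
  rw [Matrix.det_fromBlocks_zero₂₁, Matrix.det_one, mul_one, ← sub_eq_add_neg, he₁]
  exact ResB_blk hGr pl γ hγ s

end WPP
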