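import Pool.Agent.WPP.StC
import Pool.Agent.PST.UTr

/-!
# WPP, UTrB: transitivity of the block diagonal group
-/

set_option autoImplicit false

namespace WPP

open scoped ComplexConjugate ComplexOrder MatrixOrder
open GAM (H E F pd pdl PLat IsTh OddTor IsDel Gro IsLat)
open PST DWC

theorem UTrB_root {n : Type} [Fintype n] [DecidableEq n] (M : Matrix n n ℂ) (hM : M.PosDef) :
    ∃ a : Matrix n n ℂ, a.conjTranspose * M * a = 1 ∧ IsUnit a ∧
      ∀ D : Matrix n n ℂ, Commute M D → Commute a D := by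
  obtain ⟨B, hBd⟩ : ∃ B, B = CFC.sqrt M := ⟨_, rfl⟩
  have hB : B * B = M := by
    rw [hBd]
    exact CFC.sqrt_mul_sqrt_self M hM.posSemidef.nonneg
  have hBh : B.conjTranspose = B := by
    have h1 : (0 : Matrix n n ℂ) ≤ B := by
      rw [hBd]
      exact CFC.sqrt_nonneg M
    exact (Matrix.nonneg_iff_posSemidef.1 h1).1
  have hu : IsUnit B.det := by
    have h1 : IsUnit M.det := (Matrix.isUnit_iff_isUnit_det M).1 hM.isUnit
    rw [← hB, Matrix.det_mul] at h1
    exact isUnit_of_mul_isUnit_right h1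
  have h2 : B * B⁻¹ = 1 := Matrix.mul_nonsing_inv B hu
  have h3 : B⁻¹ * B = 1 := Matrix.nonsing_inv_mul B hu
  refine ⟨B⁻¹, ?_, ?_, ?_⟩
  · have h4 : (B⁻¹).conjTranspose = B⁻¹ := by
      rw [Matrix.conjTranspose_nonsing_inv, hBh]
    rw [h4, ← hB]
    calc B⁻¹ * (B * B) * B⁻¹ = (B⁻¹ * B) * (B * B⁻¹) := by simp only [Matrix.mul_assoc]
      _ = 1 := by rw [h2, h3, Matrix.one_mul]
  · rw [Matrix.isUnit_iff_isUnit_det]
    exact Matrix.isUnit_nonsing_inv_det B hu
  · intro D hD
    have h5 : Commute B D := by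
      rw [hBd]
      exact hD.cfcₙ_nnreal _
    show B⁻¹ * D = D * B⁻¹
    calc B⁻¹ * D = B⁻¹ * (D * B) * B⁻¹ := by
          rw [Matrix.mul_assoc, Matrix.mul_assoc, h2, Matrix.mul_one]
      _ = B⁻¹ * (B * D) * B⁻¹ := by rw [h5.eq]
      _ = D * B⁻¹ := by rw [← Matrix.mul_assoc, h3, Matrix.one_mul]

/-- vanishing of the entries from commutation with indicator matrices -/
theorem UTrB_zero {m n S : Type} [Fintype m] [Fintype n] [DecidableEq m] [DecidableEq n]
    [DecidableEq S] (f : m → S) (g : n → S) (A : Matrix m n ℂ)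
    (h : ∀ s : S, Matrix.diagonal (fun i => if f i = s then (1 : ℂ) else 0) * A =
      A * Matrix.diagonal (fun j => if g j = s then (1 : ℂ) else 0)) (i : m) (j : n)
    (hij : f i ≠ g j) : A i j = 0 := by
  have h1 := congrFun (congrFun (h (f i)) i) j
  rw [Matrix.diagonal_mul, Matrix.mul_diagonal, if_pos rfl, if_neg (Ne.symm hij), one_mul,
    mul_zero] at h1
  exact h1

theorem UTrB_of {m n S : Type} [Fintype m] [Fintype n] [DecidableEq m] [DecidableEq n]
    [DecidableEq S] (f : m → S) (g : n → S) (A : Matrix m n ℂ)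
    (h : ∀ i j, f i ≠ g j → A i j = 0) (s : S) :
    Matrix.diagonal (fun i => if f i = s then (1 : ℂ) else 0) * A =
      A * Matrix.diagonal (fun j => if g j = s then (1 : ℂ) else 0) := by
  ext i j
  rw [Matrix.diagonal_mul, Matrix.mul_diagonal]
  by_cases h1 : f i = g j
  · rw [h1, mul_comm]
  · rw [h i j h1, mul_zero, zero_mul]

theorem thm_UTrB : St_UTrB := by
  intro α β S _ _ _ _ _ _ pl w hw
  obtain ⟨ρ, hρ0, hρ1, hw⟩ := hw
  obtain ⟨W, hW⟩ : ∃ W : Matrix α β ℂ, W = mt (ex0 pl w) := ⟨_, rfl⟩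
  have hW0 : ∀ i j, pl (Sum.inl i) ≠ pl (Sum.inr j) → W i j = 0 := by
    intro i j hij
    rw [hW]
    show ex0 pl w (i, j) = 0
    unfold ex0
    rw [dif_neg hij]
  obtain ⟨P, hP⟩ : ∃ P : S → Matrix α α ℂ, P = fun s =>
    Matrix.diagonal (fun i => if pl (Sum.inl i) = s then (1 : ℂ) else 0) := ⟨_, rfl⟩
  obtain ⟨Q, hQ⟩ : ∃ Q : S → Matrix β β ℂ, Q = fun s =>
    Matrix.diagonal (fun j => if pl (Sum.inr j) = s then (1 : ℂ) else 0) := ⟨_, rfl⟩
  have hPQ : ∀ s, P s * W = W * Q s := by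
    intro s
    rw [hP, hQ]
    exact UTrB_of (fun i => pl (Sum.inl i)) (fun j => pl (Sum.inr j)) W hW0 s
  have hQP : ∀ s, Q s * W.conjTranspose = W.conjTranspose * P s := by
    intro s
    rw [hP, hQ]
    refine UTrB_of (fun j => pl (Sum.inr j)) (fun i => pl (Sum.inl i)) W.conjTranspose ?_ s
    intro j i hij
    rw [Matrix.conjTranspose_apply, hW0 i j (Ne.symm hij), star_zero]
  have h1 : ∀ y : β → ℂ, ∑ i, ‖W.mulVec y i‖ ^ 2 ≤ ρ ^ 2 * ∑ j, ‖y j‖ ^ 2 := by
    intro y
    rw [hW]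
    exact hw y
  have hlt : ∀ N : ℝ, 0 < N → ρ ^ 2 * N < N := by
    intro N hN
    have : ρ ^ 2 < 1 := by nlinarith
    nlinarith
  have hd := UTr_pos W fun y hy => (h1 y).trans_lt (hlt _ (UTr_nz hy))
  have ha : (1 - W * W.conjTranspose : Matrix α α ℂ).PosDef := by
    have h2 := UTr_pos W.conjTranspose fun y hy => (UTr_adj W ρ h1 y).trans_lt (hlt _ (UTr_nz hy))
    rwa [Matrix.conjTranspose_conjTranspose] at h2
  obtain ⟨a, ha1, -, ha3⟩ := UTrB_root _ ha
  obtain ⟨d, hd1, hd2, hd3⟩ := UTrB_root _ hd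
  have haP : ∀ s, a * P s = P s * a := by
    intro s
    refine (ha3 (P s) ?_).eq
    show (1 - W * W.conjTranspose) * P s = P s * (1 - W * W.conjTranspose)
    rw [Matrix.sub_mul, Matrix.mul_sub, Matrix.one_mul, Matrix.mul_one, Matrix.mul_assoc, ← hQP,
      ← Matrix.mul_assoc, ← hPQ, Matrix.mul_assoc]
  have hdQ : ∀ s, d * Q s = Q s * d := by
    intro s
    refine (hd3 (Q s) ?_).eq
    show (1 - W.conjTranspose * W) * Q s = Q s * (1 - W.conjTranspose * W)
    rw [Matrix.sub_mul, Matrix.mul_sub, Matrix.one_mul, Matrix.mul_one, Matrix.mul_assoc, ← hPQ,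
      ← Matrix.mul_assoc, ← hQP, Matrix.mul_assoc]
  refine ⟨Matrix.fromBlocks a (W * d) (W.conjTranspose * a) d, ?_, ?_, ?_⟩
  · show (Matrix.fromBlocks a (W * d) (W.conjTranspose * a) d).conjTranspose * Jm α β *
      Matrix.fromBlocks a (W * d) (W.conjTranspose * a) d = Jm α β
    unfold Jm
    rw [Matrix.fromBlocks_conjTranspose, Matrix.fromBlocks_multiply, Matrix.fromBlocks_multiply]
    have e1 : a.conjTranspose * a - a.conjTranspose * W * (W.conjTranspose * a) = 1 := by
      rw [← ha1, Matrix.mul_sub, Matrix.sub_mul]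
      simp only [Matrix.mul_assoc, Matrix.one_mul]
    have e2 : d.conjTranspose * d - d.conjTranspose * W.conjTranspose * (W * d) = 1 := by
      rw [← hd1, Matrix.mul_sub, Matrix.sub_mul]
      simp only [Matrix.mul_assoc, Matrix.one_mul]
    rw [Matrix.fromBlocks_inj]
    simp only [Matrix.conjTranspose_mul, Matrix.conjTranspose_conjTranspose, Matrix.mul_one,
      Matrix.mul_zero, add_zero, zero_add, Matrix.mul_neg, Matrix.neg_mul]
    refine ⟨?_, ?_, ?_, ?_⟩
    · rw [← sub_eq_add_neg]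
      exact e1
    · simp only [Matrix.mul_assoc]
      exact add_neg_cancel _
    · simp only [Matrix.mul_assoc]
      exact add_neg_cancel _
    · rw [← e2]
      abel
  · have z1 : ∀ i i', pl (Sum.inl i) ≠ pl (Sum.inl i') → a i i' = 0 := by
      refine UTrB_zero (fun i => pl (Sum.inl i)) (fun i => pl (Sum.inl i)) a fun s => ?_
      have := (haP s).symm
      rwa [hP] at this
    have z2 : ∀ j j', pl (Sum.inr j) ≠ pl (Sum.inr j') → d j j' = 0 := by
      refine UTrB_zero (fun j => pl (Sum.inr j)) (fun j => pl (Sum.inr j)) d fun s => ?_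
      have := (hdQ s).symm
      rwa [hQ] at this
    have z3 : ∀ i j, pl (Sum.inl i) ≠ pl (Sum.inr j) → (W * d) i j = 0 := by
      refine UTrB_zero (fun i => pl (Sum.inl i)) (fun j => pl (Sum.inr j)) (W * d) fun s => ?_
      have h5 : P s * (W * d) = W * d * Q s := by
        rw [← Matrix.mul_assoc, hPQ, Matrix.mul_assoc, ← hdQ, Matrix.mul_assoc]
      rwa [hP, hQ] at h5
    have z4 : ∀ j i, pl (Sum.inr j) ≠ pl (Sum.inl i) → (W.conjTranspose * a) j i = 0 := by
      refine UTrB_zero (fun j => pl (Sum.inr j)) (fun i => pl (Sum.inl i)) (W.conjTranspose * a)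
        fun s => ?_
      have h5 : Q s * (W.conjTranspose * a) = W.conjTranspose * a * P s := by
        rw [← Matrix.mul_assoc, hQP, Matrix.mul_assoc, ← haP, Matrix.mul_assoc]
      rwa [hP, hQ] at h5
    rintro (i | j) (i' | j') h
    · rw [Matrix.fromBlocks_apply₁₁]
      exact z1 i i' h
    · rw [Matrix.fromBlocks_apply₁₂]
      exact z3 i j' h
    · rw [Matrix.fromBlocks_apply₂₁]
      exact z4 j i' h
    · rw [Matrix.fromBlocks_apply₂₂]
      exact z2 j j' h
  · have h0 : ex0 pl (0 : Ga pl → ℂ) = 0 := by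
      funext p
      unfold ex0
      split_ifs <;> rfl
    have hm : mob (Matrix.fromBlocks a (W * d) (W.conjTranspose * a) d) 0 = ex0 pl w := by
      funext p
      unfold mob
      rw [Matrix.toBlocks_fromBlocks₁₁, Matrix.toBlocks_fromBlocks₁₂, Matrix.toBlocks_fromBlocks₂₁,
        Matrix.toBlocks_fromBlocks₂₂]
      have h0 : mt (0 : α × β → ℂ) = 0 := rfl
      rw [h0, Matrix.mul_zero, Matrix.mul_zero, zero_add, zero_add, Matrix.mul_assoc,
        Matrix.mul_nonsing_inv d ((Matrix.isUnit_iff_isUnit_det d).1 hd2), Matrix.mul_one, hW]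
      rfl
    unfold mobB
    rw [h0, hm]
    funext p
    unfold rs ex0
    rw [dif_pos p.2]

end WPP
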