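import Pool.Agent.WPP.StR
import Pool.Agent.WPP.StC

/-!
# WPP [ZtB]: the half plane in the product domain
-/

set_option autoImplicit false
set_option linter.unusedSectionVars false

namespace WPP

open scoped ComplexConjugate
open GAM (H E F pd pdl PLat IsTh OddTor IsDel Gro IsLat)
open PST DWC

section

variable {α β S : Type} [Fintype α] [Fintype β] [Fintype S] [DecidableEq α] [DecidableEq β]
  [DecidableEq S]

private theorem ZtB_J (pl : α ⊕ β → S) : IsB pl (Jm α β) := by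
  intro p q hpq
  have hne : p ≠ q := fun h => hpq (by rw [h])
  unfold Jm
  rcases p with i | i <;> rcases q with j | j
  · rw [Matrix.fromBlocks_apply₁₁, Matrix.one_apply_ne]
    intro h
    exact hne (by rw [h])
  · rw [Matrix.fromBlocks_apply₁₂, Matrix.zero_apply]
  · rw [Matrix.fromBlocks_apply₂₁, Matrix.zero_apply]
  · rw [Matrix.fromBlocks_apply₂₂, Matrix.neg_apply, Matrix.one_apply_ne, neg_zero]
    intro h
    exact hne (by rw [h])

private theorem ZtB_add {pl : α ⊕ β → S} {A B : Matrix (α ⊕ β) (α ⊕ β) ℂ} (hA : IsB pl A)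
    (hB : IsB pl B) : IsB pl (A + B) := by
  intro p q h
  rw [Matrix.add_apply, hA p q h, hB p q h, add_zero]

private theorem ZtB_sub {pl : α ⊕ β → S} {A B : Matrix (α ⊕ β) (α ⊕ β) ℂ} (hA : IsB pl A)
    (hB : IsB pl B) : IsB pl (A - B) := by
  intro p q h
  rw [Matrix.sub_apply, hA p q h, hB p q h, sub_zero]

private theorem ZtB_smul {pl : α ⊕ β → S} {A : Matrix (α ⊕ β) (α ⊕ β) ℂ} (c : ℂ)
    (hA : IsB pl A) : IsB pl (c • A) := by
  intro p q h
  rw [Matrix.smul_apply, hA p q h, smul_zero]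

/-- the block `d` of a block diagonal matrix has a block diagonal inverse -/
private theorem ZtB_inv (pl : α ⊕ β → S) (h : Matrix (α ⊕ β) (α ⊕ β) ℂ) (hh : IsB pl h)
    (j j' : β) (hj : pl (Sum.inr j) ≠ pl (Sum.inr j')) : (h.toBlocks₂₂)⁻¹ j j' = 0 := by
  by_cases hu : IsUnit h.toBlocks₂₂.det
  · obtain ⟨x, hx⟩ : ∃ x : β → ℂ, x = fun k => if pl (Sum.inr k) = pl (Sum.inr j) then 1 else 0 :=
      ⟨_, rfl⟩
    have h1 : h.toBlocks₂₂ * Matrix.diagonal x = Matrix.diagonal x * h.toBlocks₂₂ := by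
      ext a b
      rw [Matrix.mul_diagonal, Matrix.diagonal_mul]
      by_cases hab : pl (Sum.inr a) = pl (Sum.inr b)
      · rw [hx]
        simp only [hab]
        exact mul_comm _ _
      · have h2 : h.toBlocks₂₂ a b = 0 := hh (Sum.inr a) (Sum.inr b) hab
        rw [h2, zero_mul, mul_zero]
    have h3 : Matrix.diagonal x * (h.toBlocks₂₂)⁻¹ = (h.toBlocks₂₂)⁻¹ * Matrix.diagonal x := by
      calc Matrix.diagonal x * (h.toBlocks₂₂)⁻¹
          = (h.toBlocks₂₂)⁻¹ * h.toBlocks₂₂ * Matrix.diagonal x * (h.toBlocks₂₂)⁻¹ := by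
            rw [Matrix.nonsing_inv_mul _ hu, Matrix.one_mul]
        _ = (h.toBlocks₂₂)⁻¹ * (Matrix.diagonal x * h.toBlocks₂₂) * (h.toBlocks₂₂)⁻¹ := by
            rw [Matrix.mul_assoc (h.toBlocks₂₂)⁻¹, h1]
        _ = (h.toBlocks₂₂)⁻¹ * Matrix.diagonal x := by
            rw [Matrix.mul_assoc, Matrix.mul_assoc (Matrix.diagonal x), Matrix.mul_nonsing_inv _ hu,
              Matrix.mul_one]
    have h4 := congrFun (congrFun h3 j) j'
    rw [Matrix.diagonal_mul, Matrix.mul_diagonal, hx] at h4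
    simp only [if_true, one_mul] at h4
    rw [h4, if_neg (fun h => hj h.symm), mul_zero]
  · rw [Matrix.nonsing_inv_apply_not_isUnit _ hu]
    rfl

private theorem ZtB_zero (pl : α ⊕ β → S) : ex0 pl (0 : Ga pl → ℂ) = 0 := by
  funext p
  unfold ex0
  split <;> rfl

private theorem ZtB_mob (pl : α ⊕ β → S) (h : Matrix (α ⊕ β) (α ⊕ β) ℂ) (hh : IsB pl h) :
    ex0 pl (mobB pl h 0) = mob h 0 := by
  funext p
  obtain ⟨i, j⟩ := p
  unfold mobB
  rw [ZtB_zero]
  by_cases hp : pl (Sum.inl i) = pl (Sum.inr j)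
  · unfold ex0 rs
    rw [dif_pos hp]
  · unfold ex0
    rw [dif_neg hp]
    unfold mob
    have h0 : mt (0 : α × β → ℂ) = 0 := by
      ext a b
      rfl
    rw [h0, Matrix.mul_zero, Matrix.mul_zero, zero_add, zero_add]
    symm
    show (h.toBlocks₁₂ * (h.toBlocks₂₂)⁻¹) i j = 0
    rw [Matrix.mul_apply]
    refine Finset.sum_eq_zero fun k _ => ?_
    by_cases hk : pl (Sum.inl i) = pl (Sum.inr k)
    · rw [ZtB_inv pl h hh k j (fun h' => hp (hk.trans h')), mul_zero]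
    · have h2 : h.toBlocks₁₂ i k = 0 := hh (Sum.inl i) (Sum.inr k) hk
      rw [h2, zero_mul]

end

theorem thm_ZtB (h1 : DWC.St_Zt) (h2 : St_GrB) : St_ZtB := by
  intro α β S _ _ _ _ _ _ pl R
  obtain ⟨C, hC⟩ := h1 α β R
  obtain ⟨hmul, hone, -, -, -, -⟩ := h2 α β S pl
  refine ⟨C, fun g P hg hgB hgR hP hPB => ?_⟩
  have hB : ∀ t, IsB pl (Bt P t) := by
    intro t
    have hJPJ : IsB pl (Jm α β * P * Jm α β) :=
      (hmul _ _ (hmul _ _ (ZtB_J pl) hPB).1 (ZtB_J pl)).1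
    unfold Bt
    refine (hmul _ _ (ZtB_add hone (ZtB_smul _ (hmul _ _ hPB (ZtB_J pl)).1)) ?_).1
    exact ZtB_add (ZtB_add (ZtB_smul _ hPB) (ZtB_smul _ hJPJ)) (ZtB_sub (ZtB_sub hone hPB) hJPJ)
  obtain ⟨hI, hD, hCo, hG⟩ := hC g P hg hgR hP
  have hgt : ∀ t, IsB pl (g * Bt P t) := fun t => (hmul _ _ hgB (hB t)).1
  have hval : ∀ (h : Matrix (α ⊕ β) (α ⊕ β) ℂ) (p : Ga pl), mobB pl h 0 p = mob h 0 p.1 := by
    intro h p
    unfold mobB rs
    rw [ZtB_zero]
  refine ⟨hB, ?_, ?_, ?_, ?_⟩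
  · funext p
    rw [hval, hval, hI]
  · rw [differentiableOn_pi]
    intro p
    have h3 := (differentiableOn_pi.1 hD) p.1
    refine h3.congr fun t _ => ?_
    exact hval _ p
  · rw [continuousOn_pi]
    intro p
    have h3 := (continuousOn_pi.1 hCo) p.1
    refine h3.congr fun t _ => ?_
    exact hval _ p
  · intro t ht
    obtain ⟨ρ, hρ0, hρ1, hρ, hρC⟩ := hG t ht
    refine ⟨ρ, hρ0, hρ1, ?_, hρC⟩
    show ex0 pl (mobB pl (g * Bt P t) 0) ∈ OmC α β ρ
    rw [ZtB_mob pl _ (hgt t)]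
    exact hρ

end WPP
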