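import Pool.Agent.DWC.All
import Pool.Agent.WPP.GrB
import Pool.Agent.WPP.MobB
import Pool.Agent.WPP.OmBT
import Pool.Agent.WPP.UTrB
import Pool.Agent.WPP.ResB
import Pool.Agent.WPP.DetB
import Pool.Agent.WPP.ExtB
import Pool.Agent.WPP.MahB
import Pool.Agent.WPP.GapB
import Pool.Agent.WPP.ZtB
import Pool.Agent.WPP.CptB
import Pool.Agent.WPP.CoB

/-!
# WPP: assembly of the reduction theory
-/

set_option autoImplicit false

namespace WPP

namespace AllR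

theorem GrB_ : St_GrB := thm_GrB
theorem MobB_ : St_MobB := thm_MobB
theorem OmBT_ : St_OmBT := thm_OmBT PST.All.OmT_
theorem UTrB_ : St_UTrB := thm_UTrB
theorem ResB_ : St_ResB := thm_ResB GrB_
theorem DetB_ : St_DetB := thm_DetB GrB_ ResB_
theorem ExtB_ : St_ExtB := thm_ExtB
theorem MahB_ : St_MahB := thm_MahB DWC.All.Gn_ ExtB_ DWC.All.Bdf_ PST.All.UGr_
theorem GapB_ : St_GapB := thm_GapB
theorem ZtB_ : St_ZtB := thm_ZtB DWC.All.Zt_ GrB_
theorem CptB_ : St_CptB :=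
  thm_CptB DWC.All.Op2_ PST.All.UGr_ PST.All.UAl_ PST.All.OmT_ UTrB_ OmBT_ GrB_ MobB_
theorem CoB_ : St_CoB := thm_CoB DetB_ MahB_ GapB_ DWC.All.Trv_ ZtB_ CptB_ PST.All.UGr_ MobB_
  PST.All.MapE_ GrB_ OmBT_

end AllR

end WPP
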