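import Pool.Agent.WPP.StZ
import Pool.Agent.Helper71.AF.Alg

/-!
# WPP, module ConH: the image of the Hodge projector
-/

set_option autoImplicit false
set_option linter.unusedVariables false

namespace WPP

open scoped ComplexConjugate
open Pool.Agent.GPC
open Pool.Agent.Helper7 (pData proj lift hod cB cB_add cB_smul cB_period fil_cB_hod)
open Module

/-- complex conjugation fixes the real vectors -/
theorem ConH_cB_real (A : AbVar) (a : A.H1) (ha : A.IsReal a) : cB (pData A) a = a := by
  have h : A.period (A.zz a) = a := Pool.Agent.Helper71.AF.VR_period A ha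
  rw [← h, cB_period]

/-- complex conjugation is `cB` -/
theorem ConH_cB (A : AbVar) (v v' : A.H1) (h : A.IsConj v v') : cB (pData A) v = v' := by
  obtain ⟨a, b, ha, hb, h1, h2⟩ := h
  rw [h1, h2, cB_add, cB_smul, ConH_cB_real A a ha, ConH_cB_real A b hb, Complex.conj_I,
    neg_smul, sub_eq_add_neg]

/-- every vector has a conjugate -/
theorem ConH_isConj (A : AbVar) (v : A.H1) : A.IsConj v (cB (pData A) v) := by
  obtain ⟨a, ha, b, hb, h⟩ := Pool.Agent.Helper71.AF.exists_decomp A v
  refine ⟨a, b, ha, hb, h, ?_⟩
  exact ConH_cB A v (a - Complex.I • b) ⟨a, b, ha, hb, h, rfl⟩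

/-- [ConH] the image of the Hodge projector. -/
theorem thm_ConH : St_ConH := by
  intro A v hv
  refine ⟨cB (pData A) v, ConH_isConj A v, ?_⟩
  have h := fil_cB_hod A v
  rw [hv] at h
  exact h

end WPP
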