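import Pool.Agent.WPP.StZ
import Pool.Agent.Helper8.T1.Gal

/-!
# WPP, module FamFK: classes with three Hodge types
-/

set_option autoImplicit false

namespace WPP

open scoped ComplexConjugate
open GAM (CMF CMT IsExp)
open Pool.Agent.GPC
open Pool.Agent.Helper7 (pData proj lift hod dbas bas)
open Module

section

variable {I : Type} [Fintype I] [DecidableEq I] {A : I → AbVar} {n : I → ℕ}
  {K : I → Type} [∀ i, Field (K i)] [∀ i, NumberField (K i)] {c : ∀ i, K i →+* K i}
  {ρ : ∀ i, K i →+* Module.End ℂ (A i).H1} {d : I → ℕ} {k : ℕ} {α : Form A n (2 * k)}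

/-- The value of the Hodge projector at a tuple of labels. -/
private noncomputable def nuFK (ρ : ∀ i, K i →+* Module.End ℂ (A i).H1) (d : I → ℕ) {m : ℕ}
    (w : Fin m → Lb K) : ℂ :=
  ∑ r, LinearMap.trace ℂ (A (w r).1).H1 (hod (A (w r).1) * proj (ρ (w r).1) (w r).2) / d (w r).1

private theorem FamFK_proj {B : AbVar} {L : Type} [Field L] [NumberField L]
    (r : L →+* Module.End ℂ B.H1) (f : Module.End ℂ B.H1) (h : ∀ x v, f (r x v) = r x (f v))
    (σ : L →+* ℂ) (v : B.H1) : f (proj r σ v) = proj r σ (f v) := by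
  unfold Pool.Agent.Helper7.proj
  rw [LinearMap.sum_apply, LinearMap.sum_apply, map_sum]
  refine Finset.sum_congr rfl fun b _ => ?_
  rw [LinearMap.smul_apply, LinearMap.smul_apply, map_smul, h]

/-- The Hodge projector commutes with the projectors to the labels. -/
private theorem FamFK_comm (hD : FamK A n K c ρ d k α) (hM : ∀ A : AbVar, IsMTo A (hod A) 1)
    (t : Lb K) (v : H1 A n) :
    lift n (fun i => hod (A i)) (prE A n K ρ t v) =
      prE A n K ρ t (lift n (fun i => hod (A i)) v) := by
  obtain ⟨i₀, σ⟩ := t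
  funext i m
  show hod (A i) ((Function.update (fun _ => 0) i₀ (proj (ρ i₀) σ) :
      ∀ i, Module.End ℂ (A i).H1) i (v i m)) =
    (Function.update (fun _ => 0) i₀ (proj (ρ i₀) σ) : ∀ i, Module.End ℂ (A i).H1) i
      (hod (A i) (v i m))
  by_cases h : i = i₀
  · subst h
    rw [Function.update_self]
    exact FamFK_proj (ρ i) (hod (A i))
      (fun x u => (hM (A i)).comm _ ((hD.cen i).kr.endo x) u) σ _
  · rw [Function.update_of_ne h, LinearMap.zero_apply, LinearMap.zero_apply, map_zero]

private theorem FamFK_types (hCon : St_ConH) (hScA : St_ScAK) (hM : ∀ A : AbVar, IsMTo A (hod A) 1)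
    {j : ℕ} (hD : FamK A n K c ρ d k α) (htyp : TypF A n k j α) (w : Fin (2 * k) → Lb K)
    (hw : Occ A n K ρ α w) :
    ∃ m : ℕ, nuFK ρ d w = m ∧ (m = k ∨ m = k + j ∨ m + j = k) := by
  classical
  obtain ⟨T, u, h1, h2, h3, h4⟩ := Pool.Agent.Helper8.T1.count_of_weight
    (α.toMultilinearMap.compLinearMap (fun r => prE A n K ρ (w r)))
    (lift n (fun i => hod (A i))) (fun v => by
      funext i m
      exact Pool.Agent.Helper7.hod_idem (A i) _) (nuFK ρ d w) (fun v => by
      have h5 := hScA I A n K c ρ d k α (fun i => hod (A i)) 1 hD (fun i => hM (A i)) w v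
        (fun r => prE A n K ρ (w r) (v r)) (fun r => rfl)
      refine Eq.trans ?_ h5
      refine Finset.sum_congr rfl fun r _ => ?_
      rw [MultilinearMap.compLinearMap_apply]
      show α _ = α _
      congr 1
      funext s
      by_cases hs : s = r
      · subst hs
        rw [Function.update_self, Function.update_self, FamFK_comm hD hM]
      · rw [Function.update_of_ne hs, Function.update_of_ne hs]) hw
  refine ⟨T.card, h2.symm, ?_⟩
  have hle : T.card ≤ 2 * k := by
    have := T.card_le_univ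
    rwa [Fintype.card_fin] at this
  by_contra hcon
  push Not at hcon
  obtain ⟨c1, c2, c3⟩ := hcon
  have hcc : Tᶜ.card = 2 * k - T.card := by
    rw [Finset.card_compl, Fintype.card_fin]
  apply h1
  rw [MultilinearMap.compLinearMap_apply]
  refine htyp _ Tᶜ (fun r hr i m => ?_) (fun r hr i m => ?_) ?_ ?_ ?_
  · rw [Finset.mem_compl] at hr
    rw [Pool.Agent.Helper7.hod_fil]
    have h6 : lift n (fun i => hod (A i)) (prE A n K ρ (w r) (u r)) = 0 := by
      rw [FamFK_comm hD hM, h4 r hr, map_zero]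
    exact congrFun (congrFun h6 i) m
  · rw [Finset.mem_compl, not_not] at hr
    refine hCon (A i) _ ?_
    have h6 : lift n (fun i => hod (A i)) (prE A n K ρ (w r) (u r)) =
        prE A n K ρ (w r) (u r) := by
      rw [FamFK_comm hD hM, h3 r hr]
    exact congrFun (congrFun h6 i) m
  · omega
  · omega
  · omega

end

theorem thm_FamFK (h1 : St_ConH) (h2 : St_ScAK) (h3 : St_FamRK) (h5 : St_MTN) : St_FamFK := by
  intro I _ _ A n K _ _ c ρ d k j α hD htyp w hw
  obtain ⟨m, hm, hm1⟩ := FamFK_types h1 h2 h5.2.1 hD htyp w hw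
  have h8 := ((h3 I A n K c ρ d k α hD).2 w hw).2
  refine ⟨2 * (∏ i, (d i : ℤ)) * ((m : ℤ) - k), ?_, ?_⟩
  · have h9 : (m : ℤ) - k = 0 ∨ (m : ℤ) - k = j ∨ (m : ℤ) - k = -j := by omega
    rcases h9 with h9 | h9 | h9
    · left
      rw [h9, mul_zero]
    · right
      left
      rw [h9]
    · right
      right
      rw [h9]
      ring
  · rw [h8]
    have h10 : ∑ r, LinearMap.trace ℂ (A (w r).1).H1
        (hod (A (w r).1) * proj (ρ (w r).1) (w r).2) / d (w r).1 = (m : ℂ) := hm
    rw [h10]
    push_cast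
    ring

end WPP
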