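import Pool.Agent.WPP.StZ
import Pool.Agent.Helper8.D.HodgeStep

/-!
# WPP [FamHK]: the theorem for families
-/

set_option autoImplicit false

namespace WPP

open scoped ComplexConjugate
open GAM (CMF CMT IsExp)
open Pool.Agent.GPC
open Pool.Agent.Helper7 (pData proj lift hod actForm)
open Module

section

variable {I : Type} [Fintype I] [DecidableEq I] (A : I → AbVar) (n : I → ℕ) (K : I → Type)
  [∀ i, Field (K i)] [∀ i, NumberField (K i)] (ρ : ∀ i, K i →+* Module.End ℂ (A i).H1)

/-- the projectors add up to the identity -/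
private theorem FamHK_one (v : H1 A n) : ∑ t : Lb K, prE A n K ρ t v = v := by
  funext i m
  rw [Finset.sum_apply, Finset.sum_apply]
  have h1 : ∀ t : Lb K, prE A n K ρ t v i m =
      (Function.update (fun _ => 0) t.1 (proj (ρ t.1) t.2) :
        (i : I) → Module.End ℂ (A i).H1) i (v i m) := fun t => rfl
  simp only [h1]
  rw [Fintype.sum_sigma]
  rw [Finset.sum_eq_single i]
  · simp only [Function.update_self]
    have h2 := congrArg (fun f : Module.End ℂ (A i).H1 => f (v i m))
      (Pool.Agent.Helper7.sum_proj (ρ i))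
    simp only [LinearMap.sum_apply, Module.End.one_apply] at h2
    exact h2
  · intro j _ hj
    refine Finset.sum_eq_zero fun σ _ => ?_
    rw [Function.update_of_ne hj.symm]
    rfl
  · intro h
    exact absurd (Finset.mem_univ i) h

private theorem FamHK_exp {m : ℕ} (β : MultilinearMap ℂ (fun _ : Fin m => H1 A n) ℂ)
    (v : Fin m → H1 A n) :
    β v = ∑ w : Fin m → Lb K, β (fun r => prE A n K ρ (w r) (v r)) := by
  classical
  have h1 : v = fun r => ∑ t : Lb K, prE A n K ρ t (v r) :=
    funext fun r => (FamHK_one A n K ρ (v r)).symm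
  conv_lhs => rw [h1]
  exact β.map_sum fun r t => prE A n K ρ t (v r)

end

/-- The module FamHK. -/
theorem thm_FamHK (hPrT : St_PrT) (hTorI : St_TorI) (hGal : St_GalE) (hScA : St_ScAK)
    (hWei : St_Wei) (hMTN : St_MTN) (hFamR : St_FamRK) (hFamF : St_FamFK) : St_FamHK := by
  intro I _ _ A n K _ _ c ρ k α hcen hg hlef hgr halt
  choose d hd1 hd2 _ _ using fun i => hPrT (A i) (K i) (c i) (ρ i) (hcen i).kr
  have hpos : ∀ i, d i ≠ 0 := by
    intro i h0
    have := hd1 i
    rw [h0, zero_mul] at this
    exact hg i (by omega)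
  have hD : FamK A n K c ρ d k α := ⟨hcen, hpos, hd2, hlef, hgr⟩
  obtain ⟨hinv, hR⟩ := hFamR I A n K c ρ d k α hD
  have hgal : ∀ (τ : ℂ ≃+* ℂ) (w : Fin (2 * k) → Lb K), Occ A n K ρ α w →
      Occ A n K ρ α (fun r => tw K τ (w r)) :=
    hGal I A n K ρ k α (fun i x => (hcen i).kr.endo x) hgr.2
  -- the weight of the tuples of labels which occur
  have hwt : ∀ w : Fin (2 * k) → Lb K, Occ A n K ρ α w →
      ∑ r, LinearMap.trace ℂ (A (w r).1).H1 (hod (A (w r).1) * proj (ρ (w r).1) (w r).2) /
        d (w r).1 = k := by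
    intro w hw
    obtain ⟨w1, w2, -⟩ := hWei I K c d k w hpos hinv
    have hz := hTorI I A K c ρ (zw c d w) (fun i => (hcen i).kr) (fun i => by
      by_cases h : c i = RingHom.id (K i)
      · exact Or.inl h
      · exact Or.inr ⟨fun σ x => (hcen i).cc σ x, h⟩) w1 (fun τ δ => by
        simp only [w2]
        exact (hR _ (hgal τ.symm w hw)).1 δ) (by
        rcases halt with h | ⟨j, h⟩
        · exact Or.inl h
        · refine Or.inr ⟨2 * (∏ i, (d i : ℤ)) * j, fun τ => ?_⟩
          simp only [w2]
          exact hFamF I A n K c ρ d k j α hD h _ (hgal τ.symm w hw))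
    have h2 := (hR w hw).2
    rw [hz] at h2
    have h3 : (2 * (∏ i, (d i : ℂ))) ≠ 0 := by
      refine mul_ne_zero two_ne_zero (Finset.prod_ne_zero_iff.2 fun i _ => ?_)
      exact_mod_cast hpos i
    have h4 := (mul_eq_zero.1 h2.symm).resolve_left h3
    exact sub_eq_zero.1 h4
  -- the action of the Hodge projector
  have hact : actForm (lift n fun i => hod (A i)) α.toMultilinearMap =
      (k : ℂ) • α.toMultilinearMap := by
    refine MultilinearMap.ext fun v => ?_
    rw [FamHK_exp A n K ρ (actForm (lift n fun i => hod (A i)) α.toMultilinearMap) v,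
      _root_.smul_apply, FamHK_exp A n K ρ α.toMultilinearMap v, Finset.smul_sum]
    refine Finset.sum_congr rfl fun w _ => ?_
    rw [Pool.Agent.Helper7.actForm_apply]
    have h1 := hScA I A n K c ρ d k α (fun i => hod (A i)) 1 hD (fun i => hMTN.2.1 (A i)) w v
      (fun r => prE A n K ρ (w r) (v r)) (fun r => rfl)
    refine h1.trans ?_
    show _ = (k : ℂ) * α (fun r => prE A n K ρ (w r) (v r))
    by_cases h0 : α (fun r => prE A n K ρ (w r) (v r)) = 0
    · rw [h0, mul_zero, mul_zero]
    · rw [hwt w ⟨v, h0⟩]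
  refine ⟨hgr.2, fun v J hJ hv => ?_⟩
  refine Pool.Agent.Helper8.zero_of_type α.toMultilinearMap (lift n fun i => hod (A i)) ?_ hact v
    J hJ ?_
  · intro u
    funext i m
    exact Pool.Agent.Helper7.hod_idem (A i) (u i m)
  · intro r hr
    funext i m
    exact (Pool.Agent.Helper7.hod_fil (A i)).1 (hv r hr i m)

end WPP
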