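import Pool.Agent.WPP.StZ

/-!
# WPP, FamRK: the relations for an occurring tuple of labels
-/

set_option autoImplicit false

namespace WPP

open scoped ComplexConjugate
open GAM (CMF CMT IsExp)
open Pool.Agent.GPC
open Pool.Agent.Helper7 (pData proj lift hod)
open Module

/-- The sum of a trace over a label and its conjugate. -/
private lemma FamRK_pair (hP : St_PrT) {I : Type} [Fintype I] [DecidableEq I] {A : I → AbVar} {n : I → ℕ}
    {K : I → Type} [∀ i, Field (K i)] [∀ i, NumberField (K i)] {c : ∀ i, K i →+* K i}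
    {ρ : ∀ i, K i →+* Module.End ℂ (A i).H1} {d : I → ℕ} {k : ℕ} {α : Form A n (2 * k)}
    (h : FamK A n K c ρ d k α) (f : ∀ i, Module.End ℂ (A i).H1) (μ : ℂ)
    (hf : ∀ i, IsMTo (A i) (f i) μ) (x : Lb K) :
    LinearMap.trace ℂ (A x.1).H1 (f x.1 * proj (ρ x.1) x.2) +
      LinearMap.trace ℂ (A (cj K c x).1).H1 (f (cj K c x).1 * proj (ρ (cj K c x).1) (cj K c x).2) =
      μ * d x.1 := by
  obtain ⟨i, σ⟩ := x
  obtain ⟨d', -, h1, -, h2⟩ := hP (A i) (K i) (c i) (ρ i) (h.cen i).kr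
  have h3 : (d' : ℂ) = d i := by rw [← h1 σ, h.tr i σ]
  have h4 := h2 (f i) μ (fun y v => (hf i).comm (ρ i y) ((h.cen i).kr.endo y) v) (hf i).pol σ
  rw [h3] at h4
  exact h4

theorem thm_FamRK (hP : St_PrT) (hS : St_ScAK) (hW : St_Wei) (hM : St_MTN) : St_FamRK := by
  intro I _ _ A n K _ _ c ρ d k α h
  have hcj : ∀ t : Lb K, cj K c (cj K c t) = t := by
    rintro ⟨i, σ⟩
    have h1 : (σ.comp (c i)).comp (c i) = σ := by
      ext x
      rw [RingHom.comp_apply, RingHom.comp_apply, ← (h.cen i).cc σ, ← (h.cen i).cc σ, Complex.conj_conj]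
    change (⟨i, (σ.comp (c i)).comp (c i)⟩ : Lb K) = ⟨i, σ⟩
    rw [h1]
  refine ⟨hcj, ?_⟩
  rintro w ⟨v, hv⟩
  obtain ⟨-, -, hw⟩ := hW I K c d k w h.pos hcj
  obtain ⟨hM1, hM2, hM3⟩ := hM
  have hD : (2 * ∏ i, (d i : ℂ)) ≠ 0 := by
    refine mul_ne_zero two_ne_zero (Finset.prod_ne_zero_iff.2 fun i _ => ?_)
    exact Nat.cast_ne_zero.2 (h.pos i)
  refine ⟨fun δ => ?_, ?_⟩
  · have e1 := hS I A n K c ρ d k α (fun i => (pData (A i)).N δ) _ h (fun i => hM1 (A i) δ) w v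
      (fun r => prE A n K ρ (w r) (v r)) (fun _ => rfl)
    have e2 := hM3 I A n k α h.gr δ (fun r => prE A n K ρ (w r) (v r))
    rw [e2] at e1
    have e3 := mul_right_cancel₀ hv e1
    have e4 := hw (δ (2 * Real.pi * Complex.I) / (2 * Real.pi * Complex.I))
      (fun x : Lb K => LinearMap.trace ℂ (A x.1).H1 ((pData (A x.1)).N δ * proj (ρ x.1) x.2))
      (fun x => FamRK_pair hP h (fun i => (pData (A i)).N δ) _ (fun i => hM1 (A i) δ) x)
    rw [← e3] at e4
    have e5 := (left_eq_add.1 e4)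
    rcases div_eq_zero_iff.1 e5 with e6 | e6
    · exact e6
    · exact absurd e6 hD
  · have e4 := hw 1
      (fun x : Lb K => LinearMap.trace ℂ (A x.1).H1 (hod (A x.1) * proj (ρ x.1) x.2))
      (fun x => FamRK_pair hP h (fun i => hod (A i)) 1 (fun i => hM2 (A i)) x)
    rw [mul_one] at e4
    have e5 : (∑ x : Lb K, (zw c d w x : ℂ) *
        LinearMap.trace ℂ (A x.1).H1 (hod (A x.1) * proj (ρ x.1) x.2)) / (2 * ∏ i, (d i : ℂ)) =
        (∑ r, LinearMap.trace ℂ (A (w r).1).H1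
          (hod (A (w r).1) * proj (ρ (w r).1) (w r).2) / d (w r).1) - k := by
      rw [e4]
      ring
    rw [← e5]
    exact (mul_div_cancel₀ _ hD).symm

end WPP
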