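import Pool.Agent.WPP.StZ
import Pool.Agent.Helper71.AF.Alg
import Pool.Agent.Helper7.Bridge2

/-!
# WPP: the algebra `Z`

Module `IdZ` (`St_IdZ`). Architect helper99.
-/

set_option autoImplicit false

namespace WPP

open scoped ComplexConjugate
open Pool.Agent.GPC
open Pool.Agent.Helper7 (pData isDRB_of_isEnd)
open Pool.Agent.Helper71.AF
open Module

private lemma IdZ_psi (X : AbVar) (f g : X.H1 → X.H1) :
    X.IsAdjoint f g ↔ ∀ u v, (pData X).ψ (f u) v = (pData X).ψ u (g v) := Iff.rfl

private lemma IdZ_hf_zero (X : AbVar) (a : X.H1) : hf X a 0 = 0 := by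
  have h4 : hf X a 0 = conj (hf X 0 a) := hf_symm X 0 a
  have h5 : hf X 0 a = 0 := by
    show hermForm X.H (X.zz 0) (X.zz a) = 0
    rw [map_zero]
    simp [hermForm]
  rw [h4, h5, map_zero]

private lemma IdZ_zero (X : AbVar) (f g : Module.End ℂ X.H1) (hf1 : X.IsEnd f) (hg : X.IsEnd g)
    (h : X.IsAdjoint f g) (h0 : ∀ v, g (f v) = 0) : f = 0 := by
  have hk : ∀ a ∈ VR X, f a = 0 := by
    intro a ha
    by_contra hne
    have h1 := hf_adj X f g hf1 hg h (u := a) (v := f a) ha (VR_map X f hf1.betti ha)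
    rw [h0, IdZ_hf_zero] at h1
    have h6 := hf_pos X (VR_map X f hf1.betti ha) hne
    rw [h1] at h6
    simp at h6
  refine LinearMap.ext fun v => ?_
  obtain ⟨a, ha, b, hb, rfl⟩ := exists_decomp X v
  rw [map_add, map_smul, hk a ha, hk b hb, smul_zero, add_zero, LinearMap.zero_apply]

private lemma IdZ_uniq (X : AbVar) (f : X.H1 → X.H1) (g g' : Module.End ℂ X.H1)
    (h : X.IsAdjoint f g) (h' : X.IsAdjoint f g') : g = g' := by
  refine LinearMap.ext fun v => ?_
  rw [← sub_eq_zero]
  apply ndr (pData X)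
  intro u
  have h1 := (IdZ_psi X f g).1 h u v
  have h2 := (IdZ_psi X f g').1 h' u v
  rw [map_sub, ← h1, ← h2, sub_self]

private lemma IdZ_symm (X : AbVar) (f g : X.H1 → X.H1) (h : X.IsAdjoint f g) :
    X.IsAdjoint g f := by
  intro u v
  change (pData X).ψ (g u) v = (pData X).ψ u (f v)
  rw [(pData X).hψalt, ← (IdZ_psi X f g).1 h, (pData X).hψalt, neg_neg]

private lemma IdZ_mul (X : AbVar) (f f' g g' : Module.End ℂ X.H1) (h : X.IsAdjoint f g)
    (h' : X.IsAdjoint f' g') : X.IsAdjoint (f * f' : Module.End ℂ X.H1) (g' * g : Module.End ℂ X.H1) := by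
  intro u v
  change (pData X).ψ (f (f' u)) v = (pData X).ψ u (g' (g v))
  rw [(IdZ_psi X f g).1 h, (IdZ_psi X f' g').1 h']

private lemma IdZ_add (X : AbVar) (f f' g g' : Module.End ℂ X.H1) (h : X.IsAdjoint f g)
    (h' : X.IsAdjoint f' g') : X.IsAdjoint (f + f' : Module.End ℂ X.H1) (g + g' : Module.End ℂ X.H1) := by
  intro u v
  change (pData X).ψ (f u + f' u) v = (pData X).ψ u (g v + g' v)
  rw [map_add, map_add, LinearMap.add_apply, (IdZ_psi X f g).1 h, (IdZ_psi X f' g').1 h']

private lemma IdZ_sub (X : AbVar) (f f' g g' : Module.End ℂ X.H1) (h : X.IsAdjoint f g)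
    (h' : X.IsAdjoint f' g') : X.IsAdjoint (f - f' : Module.End ℂ X.H1) (g - g' : Module.End ℂ X.H1) := by
  intro u v
  change (pData X).ψ (f u - f' u) v = (pData X).ψ u (g v - g' v)
  rw [map_sub, map_sub, LinearMap.sub_apply, (IdZ_psi X f g).1 h, (IdZ_psi X f' g').1 h']

private lemma IdZ_alg (X : AbVar) (q : ℚ) : X.IsAdjoint (algebraMap ℚ (Module.End ℂ X.H1) q)
    (algebraMap ℚ (Module.End ℂ X.H1) q) := by
  intro u v
  have h1 : ∀ w : X.H1, (algebraMap ℚ (Module.End ℂ X.H1) q) w = (q : ℂ) • w := by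
    intro w
    rw [Algebra.algebraMap_eq_smul_one, LinearMap.smul_apply, Module.End.one_apply]
    funext j
    simp [Rat.smul_def]
  change (pData X).ψ ((algebraMap ℚ (Module.End ℂ X.H1) q) u) v =
    (pData X).ψ u ((algebraMap ℚ (Module.End ℂ X.H1) q) v)
  rw [h1, h1, map_smul, map_smul, LinearMap.smul_apply]

theorem thm_IdZ : St_IdZ := by
  intro X Z hZ
  have hend := hZ.endo
  have hcomm := hZ.comm
  have hadj := hZ.adj
  refine ⟨?_, ?_, ?_, ?_⟩
  · intro z hz hzz
    obtain ⟨g, hg, hzg⟩ := hadj z hz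
    have hw : g * z ∈ Z := Z.mul_mem hg hz
    have h1 : X.IsAdjoint (g * z : Module.End ℂ X.H1) (g * z : Module.End ℂ X.H1) :=
      IdZ_mul X g z z g (IdZ_symm X _ _ hzg) hzg
    have h2 : g * z = 0 := by
      refine IdZ_zero X _ _ (hend _ hw) (hend _ hw) h1 ?_
      intro v
      have h3 : g * z * (g * z) = 0 := by
        rw [mul_assoc, ← mul_assoc z g z, ← hcomm g hg z hz, mul_assoc g z z, hzz, mul_zero,
          mul_zero]
      exact congrArg (fun F : Module.End ℂ X.H1 => F v) h3
    refine IdZ_zero X z g (hend _ hz) (hend _ hg) hzg ?_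
    intro v
    exact congrArg (fun F : Module.End ℂ X.H1 => F v) h2
  · intro e he hee
    obtain ⟨g, hg, heg⟩ := hadj e he
    have hge : X.IsAdjoint g e := IdZ_symm X _ _ heg
    have hgg : g * g = g := by
      refine IdZ_uniq X (e * e : Module.End ℂ X.H1) _ _ (IdZ_mul X e e g g heg heg) ?_
      rw [hee]
      exact heg
    have hc : g * e = e * g := hcomm g hg e he
    have hp : X.IsAdjoint (g * e : Module.End ℂ X.H1) (g * e : Module.End ℂ X.H1) :=
      IdZ_mul X g e e g hge heg
    have h1 : (g - g * e) * (e - g * e) = 0 := by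
      have e1 : g * (g * e) = g * e := by rw [← mul_assoc, hgg]
      have e2 : g * e * e = g * e := by rw [mul_assoc, hee]
      have e3 : g * e * (g * e) = g * e := by rw [← mul_assoc, mul_assoc g e g, ← hc, ← mul_assoc,
        hgg, e2]
      rw [sub_mul, mul_sub, mul_sub, e1, e2, e3]
      abel
    have h1' : (e - g * e) * (g - g * e) = 0 := by
      have h3 : (e - g * e) * (g - g * e) = (g - g * e) * (e - g * e) :=
        hcomm _ (Z.sub_mem he (Z.mul_mem hg he)) _ (Z.sub_mem hg (Z.mul_mem hg he))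
      rw [h3, h1]
    have h2 : e - g * e = 0 := by
      refine IdZ_zero X (e - g * e) (g - g * e) (hend _ (Z.sub_mem he (Z.mul_mem hg he)))
        (hend _ (Z.sub_mem hg (Z.mul_mem hg he))) (IdZ_sub X _ _ _ _ heg hp) ?_
      intro v
      exact congrArg (fun F : Module.End ℂ X.H1 => F v) h1
    have h2' : g - g * e = 0 := by
      refine IdZ_zero X (g - g * e) (e - g * e) (hend _ (Z.sub_mem hg (Z.mul_mem hg he)))
        (hend _ (Z.sub_mem he (Z.mul_mem hg he))) (IdZ_sub X _ _ _ _ hge hp) ?_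
      intro v
      exact congrArg (fun F : Module.End ℂ X.H1 => F v) h1'
    have h3 : g = e := (sub_eq_zero.1 h2').trans (sub_eq_zero.1 h2).symm
    rw [h3] at heg
    exact heg
  · have hle : Z ≤ DD (pData X) := fun f hf => (mem_DD (pData X) f).2 (isDRB_of_isEnd X f (hend f hf))
    have hfin : FiniteDimensional ℚ (Subalgebra.toSubmodule (DD (pData X))) :=
      finite_DD (pData X)
    have hle' : Subalgebra.toSubmodule Z ≤ Subalgebra.toSubmodule (DD (pData X)) := hle
    exact Submodule.finiteDimensional_of_le hle'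
  · choose! st hst1 hst2 using hadj
    refine ⟨{ toFun := fun z => ⟨st z, hst1 z z.2⟩
              map_one' := ?_
              map_mul' := ?_
              map_zero' := ?_
              map_add' := ?_
              commutes' := ?_ }, ?_⟩
    · apply Subtype.ext
      refine IdZ_uniq X (1 : Module.End ℂ X.H1) _ _ (hst2 1 Z.one_mem) ?_
      have h1 := IdZ_alg X 1
      rw [map_one] at h1
      exact h1
    · intro a b
      apply Subtype.ext
      change st (a * b : Module.End ℂ X.H1) = st a * st b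
      refine IdZ_uniq X (a * b : Module.End ℂ X.H1) _ _ (hst2 _ (Z.mul_mem a.2 b.2)) ?_
      rw [hcomm (st a) (hst1 a a.2) (st b) (hst1 b b.2)]
      exact IdZ_mul X a b _ _ (hst2 _ a.2) (hst2 _ b.2)
    · apply Subtype.ext
      refine IdZ_uniq X (0 : Module.End ℂ X.H1) _ _ (hst2 0 Z.zero_mem) ?_
      have h1 := IdZ_alg X 0
      rw [map_zero] at h1
      exact h1
    · intro a b
      apply Subtype.ext
      change st (a + b : Module.End ℂ X.H1) = st a + st b
      exact IdZ_uniq X (a + b : Module.End ℂ X.H1) _ _ (hst2 _ (Z.add_mem a.2 b.2))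
        (IdZ_add X a b _ _ (hst2 _ a.2) (hst2 _ b.2))
    · intro q
      apply Subtype.ext
      exact IdZ_uniq X (algebraMap ℚ (Module.End ℂ X.H1) q) _ _
        (hst2 _ (Z.algebraMap_mem q)) (IdZ_alg X q)
    · intro z
      exact hst2 z z.2

end WPP
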