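import Pool.Agent.WPP.StZ
import Pool.Agent.Helper39.AF.Mor

/-!
# WPP, LftZ: lifting derivations of the factors, for an algebra `Z`
-/

set_option autoImplicit false
set_option linter.unusedSectionVars false

namespace WPP

open Pool.Agent.GPC
open Pool.Agent.Helper7 (pData)
open Pool.Agent.Helper39.AF (isMor_comp isEnd_iff)
open Module

theorem thm_LftZ : St_LftZ := by
  intro X Z I _ A K _ _ c ρ φ ι π hZ f hf
  classical
  -- the operator
  have hF : ∀ v, (∑ i, ι i ∘ₗ f i ∘ₗ π i) v = ∑ i, ι i (f i (π i v)) := by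
    intro v
    rw [LinearMap.sum_apply]
    rfl
  -- the polarisation
  have hψ : ∀ u v, X.pol u v = (pData X).ψ u v := fun _ _ => rfl
  have hp1 : ∀ i a v, X.pol (ι i a) v = (A i).pol a (π i v) := by
    intro i a v
    conv_lhs => rw [← hZ.sum v]
    rw [hψ, map_sum, Finset.sum_eq_single i]
    · exact hZ.pol i _ _
    · intro j _ hj
      exact hZ.polo i j hj.symm _ _
    · intro h
      exact absurd (Finset.mem_univ i) h
  have hp2 : ∀ i u b, X.pol u (ι i b) = (A i).pol (π i u) b := by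
    intro i u b
    conv_lhs => rw [← hZ.sum u]
    rw [hψ, map_sum, LinearMap.sum_apply, Finset.sum_eq_single i]
    · exact hZ.pol i _ _
    · intro j _ hj
      exact hZ.polo j i hj _ _
    · intro h
      exact absurd (Finset.mem_univ i) h
  refine ⟨?_, ?_, ?_⟩
  · intro h hh hc v
    have hm := (isEnd_iff X h).mp hh
    obtain ⟨hl, hhl⟩ : ∃ hl : X.H1 →ₗ[ℂ] X.H1, ∀ v, hl v = h v :=
      ⟨IsLinearMap.mk' h hh.linear, fun _ => rfl⟩
    have e1 : ∀ i v, h (ι i (π i v)) = ι i (π i (h v)) := by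
      intro i v
      obtain ⟨z, hz⟩ := hZ.idem i
      rw [← hz v, hc _ z.2 v, hz]
    have e2 : ∀ i u, h (ι i u) = ι i (π i (h (ι i u))) := by
      intro i u
      have := e1 i (ι i u)
      rwa [hZ.πι] at this
    have e3 : ∀ i v, π i (h (ι i (π i v))) = π i (h v) := by
      intro i v
      rw [e1, hZ.πι]
    have e4 : ∀ i u, f i (π i (h (ι i u))) = π i (h (ι i (f i u))) := by
      intro i u
      refine (hf i).comm (fun u => π i (h (ι i u))) ?_ ?_ u
      · exact (isEnd_iff (A i) _).mpr (isMor_comp (hZ.morπ i) (isMor_comp hm (hZ.morι i)))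
      · intro x w
        obtain ⟨z, rfl⟩ := hZ.surj i x
        have e5 : ρ i (φ i z) w = π i ((z : Module.End ℂ X.H1) (ι i w)) := by
          rw [hZ.act, hZ.πι]
        change π i (h (ι i (ρ i (φ i z) w))) = ρ i (φ i z) (π i (h (ι i w)))
        rw [e5, e3, hc _ z.2, hZ.act]
    rw [hF, hF, ← hhl (∑ i, ι i (f i (π i v))), map_sum]
    refine Finset.sum_congr rfl fun i _ => ?_
    rw [hhl, e2 i (f i (π i v)), ← e4, e3]
  · intro u v
    rw [hF, hF, hψ, hψ, map_sum, LinearMap.sum_apply, map_sum, ← Finset.sum_add_distrib]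
    refine Finset.sum_eq_zero fun i _ => ?_
    rw [← hψ, ← hψ, hp1, hp2]
    exact (hf i).skew _ _
  · intro z hz
    rw [Finset.sum_mul, map_sum]
    refine Finset.sum_eq_zero fun i _ => ?_
    have e1 : (ι i ∘ₗ f i ∘ₗ π i) * z = ι i ∘ₗ (f i ∘ₗ π i ∘ₗ z) := rfl
    rw [e1, LinearMap.trace_comp_comm']
    have e2 : (f i ∘ₗ π i ∘ₗ z) ∘ₗ ι i = f i * ρ i (φ i ⟨z, hz⟩) := by
      apply LinearMap.ext
      intro w
      show f i (π i (z (ι i w))) = f i (ρ i (φ i ⟨z, hz⟩) w)
      have := hZ.act i ⟨z, hz⟩ (ι i w)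
      rw [hZ.πι] at this
      rw [← this]
    rw [e2]
    exact (hf i).trace _

end WPP
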