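import Pool.Agent.WPP.StZ

/-!
# WPP: the scalar action (module ScAK)
-/

set_option autoImplicit false

namespace WPP

open scoped ComplexConjugate
open Pool.Agent.GPC
open Pool.Agent.Helper7 (pData proj lift hod)
open Module

section

variable {I : Type} [Fintype I] [DecidableEq I]

theorem ScAK_lift (A : I → AbVar) (n : I → ℕ) (K : I → Type) [∀ i, Field (K i)]
    [∀ i, NumberField (K i)] (ρ : ∀ i, K i →+* Module.End ℂ (A i).H1)
    (s : ∀ i, Module.End ℂ (A i).H1) (t : Lb K) (a : ℂ)
    (h : s t.1 * proj (ρ t.1) t.2 = a • proj (ρ t.1) t.2) (v : H1 A n) :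
    lift n s (prE A n K ρ t v) = a • prE A n K ρ t v := by
  funext i m
  show s i ((Function.update (fun _ => 0) t.1 (proj (ρ t.1) t.2) :
    ∀ i, Module.End ℂ (A i).H1) i (v i m)) =
    a • ((Function.update (fun _ => 0) t.1 (proj (ρ t.1) t.2) :
      ∀ i, Module.End ℂ (A i).H1) i (v i m))
  by_cases hi : i = t.1
  · subst hi
    rw [Function.update_self]
    exact LinearMap.congr_fun h (v t.1 m)
  · rw [Function.update_of_ne hi]
    show s i 0 = a • (0 : (A i).H1)
    rw [map_zero, smul_zero]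

end

theorem thm_ScAK (hZer : St_ZerK) : St_ScAK := by
  intro I _ _ A n K _ _ c ρ d k α f μ hF hf w v v' hv'
  classical
  obtain ⟨a, ha⟩ : ∃ a : ∀ i, (K i →+* ℂ) → ℂ, a = fun i σ =>
      LinearMap.trace ℂ (A i).H1 (f i * proj (ρ i) σ) / d i := ⟨_, rfl⟩
  obtain ⟨s, hs⟩ : ∃ s : ∀ i, Module.End ℂ (A i).H1, s = fun i =>
      ∑ σ, a i σ • proj (ρ i) σ := ⟨_, rfl⟩
  have hlef : ∀ i, LefK (A i) (K i) (ρ i) (f i - s i) := by
    intro i
    have h1 := hZer (A i) (K i) (c i) (ρ i) (d i) (f i) μ (hF.cen i) (hF.pos i) (hF.tr i) (hf i)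
    rw [hs, ha]
    exact h1
  have h0 := hF.lef (fun i => f i - s i) hlef v'
  have h1 : ∀ r, lift n f (v' r) = lift n (fun i => f i - s i) (v' r) + lift n s (v' r) := by
    intro r
    funext i m
    show f i (v' r i m) = (f i - s i) (v' r i m) + s i (v' r i m)
    rw [LinearMap.sub_apply, sub_add_cancel]
  have h2 : ∀ r, lift n s (v' r) = a (w r).1 (w r).2 • v' r := by
    intro r
    rw [hv' r]
    refine ScAK_lift A n K ρ s (w r) _ ?_ (v r)
    rw [hs]
    show (∑ σ, a (w r).1 σ • proj (ρ (w r).1) σ) * proj (ρ (w r).1) (w r).2 =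
      a (w r).1 (w r).2 • proj (ρ (w r).1) (w r).2
    rw [Finset.sum_mul]
    have h3 : ∀ τ : K (w r).1 →+* ℂ, a (w r).1 τ • proj (ρ (w r).1) τ *
        proj (ρ (w r).1) (w r).2 =
        if τ = (w r).2 then a (w r).1 τ • proj (ρ (w r).1) (w r).2 else 0 := by
      intro τ
      rw [smul_mul_assoc, Pool.Agent.Helper7.proj_mul_proj]
      split_ifs
      · rfl
      · exact smul_zero _
    rw [Finset.sum_congr rfl fun τ _ => h3 τ, Finset.sum_ite_eq' Finset.univ (w r).2,
      if_pos (Finset.mem_univ _)]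
  have h4 : ∀ r, α (Function.update v' r (lift n f (v' r))) =
      α (Function.update v' r (lift n (fun i => f i - s i) (v' r))) +
        a (w r).1 (w r).2 * α v' := by
    intro r
    rw [h1 r, AlternatingMap.map_update_add, h2 r, AlternatingMap.map_update_smul,
      Function.update_eq_self, smul_eq_mul]
  rw [Finset.sum_congr rfl fun r _ => h4 r, Finset.sum_add_distrib, h0, zero_add,
    ← Finset.sum_mul, ha]

end WPP
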