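import Pool.Agent.WPP.StZ
import Pool.Agent.Helper84.Sign

/-!
# WPP, module TypZ (MP_bf54cf_ag): Hodge types of a rational class in `F^(k-1)`
-/

set_option autoImplicit false

namespace WPP

open scoped ComplexConjugate
open Pool.Agent.GPC
open Pool.Agent.Helper7 (pData proj lift hod cB cB_add cB_smul cB_sub cB_of_mem cB_basis
  mem_pData_Q)

private lemma TypZ_real (X : AbVar) {a : X.H1} (ha : X.IsReal a) : cB (pData X) a = a := by
  unfold AbVar.IsReal at ha
  induction ha using Submodule.span_induction with
  | mem x hx => exact cB_of_mem _ _ ((mem_pData_Q X x).2 hx)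
  | zero => exact Pool.Agent.Helper7.cB_zero _
  | add x y _ _ hx hy => rw [cB_add, hx, hy]
  | smul r x _ hx =>
    have e : r • x = (r : ℂ) • x := by
      ext i
      simp
    rw [e, cB_smul, hx, Complex.conj_ofReal]

private lemma TypZ_conj (X : AbVar) {v v' : X.H1} (h : X.IsConj v v') : cB (pData X) v = v' := by
  obtain ⟨a, b, ha, hb, rfl, rfl⟩ := h
  rw [cB_add, cB_smul, TypZ_real X ha, TypZ_real X hb, Complex.conj_I, neg_smul, sub_eq_add_neg]

/-- the conjugate form -/
private noncomputable def TypZ_cf (X : AbVar) {m : ℕ} (α : X.Class m) :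
    MultilinearMap ℂ (fun _ : Fin m => X.H1) ℂ where
  toFun v := conj (α fun r => cB (pData X) (v r))
  map_update_add' := by
    intro _ v i x y
    have e : ∀ z : X.H1, (fun r => cB (pData X) (Function.update v i z r)) =
        Function.update (fun r => cB (pData X) (v r)) i (cB (pData X) z) := by
      intro z
      funext r
      by_cases h : r = i
      · subst h
        simp
      · simp [h]
    rw [e, e, e, cB_add, α.map_update_add, map_add]
  map_update_smul' := by
    intro _ v i c x
    have e : ∀ z : X.H1, (fun r => cB (pData X) (Function.update v i z r)) =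
        Function.update (fun r => cB (pData X) (v r)) i (cB (pData X) z) := by
      intro z
      funext r
      by_cases h : r = i
      · subst h
        simp
      · simp [h]
    rw [e, e, cB_smul, α.map_update_smul, smul_eq_mul, smul_eq_mul, map_mul, Complex.conj_conj]

private lemma TypZ_eq (X : AbVar) {m : ℕ} (k : ℕ) (α : X.Class m) (hα : X.IsRational k α) :
    TypZ_cf X α = (-1 : ℂ) ^ k • (α : MultilinearMap ℂ (fun _ : Fin m => X.H1) ℂ) := by
  refine Module.Basis.ext_multilinear (fun _ => (pData X).bB) fun w => ?_
  obtain ⟨q, hq⟩ := hα (fun r => (pData X).bB (w r))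
    (fun r => (mem_pData_Q X _).1 ((pData X).basis_mem (w r)))
  have e : (fun r => cB (pData X) ((pData X).bB (w r))) = fun r => (pData X).bB (w r) := by
    funext r
    exact cB_basis _ _
  change conj (α fun r => cB (pData X) ((pData X).bB (w r))) =
    (-1 : ℂ) ^ k • α (fun r => (pData X).bB (w r))
  rw [e, hq, map_mul, map_pow, map_mul, map_mul, Complex.conj_I, map_ratCast, Complex.conj_ofReal,
    smul_eq_mul, ← mul_assoc, ← mul_pow]
  congr 2
  simp only [map_ofNat]
  ring

theorem thm_TypZ : St_TypZ := by
  intro X k α hα hF v s hs hns h0 h1 h2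
  rcases Nat.lt_or_ge (k + 1) s.card with h | h
  · exact hF v ⟨s, h, hs⟩
  · have h3 : s.card + 1 < k := by omega
    have hz : α (fun r => cB (pData X) (v r)) = 0 := by
      refine hF _ ⟨sᶜ, ?_, fun r hr => ?_⟩
      · rw [Finset.card_compl, Fintype.card_fin]
        omega
      · obtain ⟨v', hv', hf⟩ := hns r (Finset.mem_compl.1 hr)
        rw [TypZ_conj X hv']
        exact hf
    have h4 := congrArg (fun f => f v) (TypZ_eq X k α hα)
    have h5 : conj (α fun r => cB (pData X) (v r)) = (-1 : ℂ) ^ k * α v := h4
    rw [hz, map_zero] at h5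
    rcases mul_eq_zero.1 h5.symm with h6 | h6
    · exact absurd h6 (pow_ne_zero _ (by norm_num))
    · exact h6

end WPP
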