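import Pool.Agent.WPP.StZ

/-!
# WPP, module WeZ: Weil classes for a Rosati stable algebra
-/

set_option autoImplicit false
set_option linter.unusedVariables false

namespace WPP

open scoped ComplexConjugate
open GAM (CMF CMT IsExp)
open Pool.Agent.GPC
open Pool.Agent.Helper7 (pData proj lift hod)
open Module

/-- the action as ring homomorphism -/
private noncomputable def WeZ_rho {X : AbVar} {K : Type} [Field K] [NumberField K]
    [NumberField.IsCMField K] {ρ : K → X.H1 → X.H1} (C : X.IsCMAction K ρ) :
    K →+* Module.End ℂ X.H1 where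
  toFun x := IsLinearMap.mk' _ (C.endo x).linear
  map_one' := LinearMap.ext C.one
  map_mul' x y := LinearMap.ext (C.mul x y)
  map_add' x y := LinearMap.ext (C.add x y)
  map_zero' := LinearMap.ext fun v => by
    have h := C.add 0 0 v
    rw [add_zero] at h
    have h2 : ρ 0 v = 0 := by
      have h3 := congrArg (fun w => w - ρ 0 v) h
      simp only [sub_self, add_sub_cancel_right] at h3
      exact h3.symm
    exact h2

private lemma WeZ_upd {X : AbVar} {m : ℕ} (p f : Module.End ℂ X.H1)
    (hpf : ∀ v, p (f v) = f (p v)) (v : Fin m → X.H1) (r : Fin m) :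
    (fun r' => p (Function.update v r (f (v r)) r')) =
      Function.update (fun r' => p (v r')) r (f (p (v r))) := by
  funext r'
  by_cases h : r' = r
  · subst h
    rw [Function.update_self, Function.update_self, hpf]
  · rw [Function.update_of_ne h, Function.update_of_ne h]

private lemma WeZ_proj_comm {X : AbVar} {K : Type} [Field K] [NumberField K]
    (ρ : K →+* Module.End ℂ X.H1) (f : Module.End ℂ X.H1)
    (hf : ∀ x v, f (ρ x v) = ρ x (f v)) (σ : K →+* ℂ) (v : X.H1) :
    proj ρ σ (f v) = f (proj ρ σ v) := by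
  unfold proj
  rw [LinearMap.sum_apply, LinearMap.sum_apply, map_sum]
  refine Finset.sum_congr rfl fun b _ => ?_
  rw [LinearMap.smul_apply, LinearMap.smul_apply, map_smul, hf]

/-- [WeZ] Weil classes. -/
theorem thm_WeZ (hWzz : St_Wzz) (hWeG : St_WeG) (hWeT : St_WeT) : St_WeZ := by
  classical
  intro X K _ _ _ ρ k α C W hG hor
  obtain ⟨R, hR⟩ : ∃ R : K →+* Module.End ℂ X.H1, ∀ x v, R x v = ρ x v :=
    ⟨WeZ_rho C, fun _ _ => rfl⟩
  have hend : ∀ x, X.IsEnd (R x) := by
    intro x
    have h1 : (R x : X.H1 → X.H1) = ρ x := funext (hR x)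
    rw [h1]
    exact C.endo x
  have hadj : ∀ x, X.IsAdjoint (R x) (R (cmConj K x)) := by
    intro x u v
    rw [hR, hR]
    exact C.rosati x u v
  have hmc : ∀ x y, R x * R y = R y * R x := fun x y => by rw [← map_mul, ← map_mul, mul_comm]
  refine hWzz X (R.toRatAlgHom).range k α ⟨?_, ?_, ?_⟩ hG ?_ ?_
  · rintro f ⟨x, rfl⟩
    exact hend x
  · rintro f ⟨x, rfl⟩ g ⟨y, rfl⟩
    exact hmc x y
  · rintro f ⟨x, rfl⟩
    exact ⟨R (cmConj K x), ⟨cmConj K x, rfl⟩, hadj x⟩
  · intro f hf v
    by_cases hk : k = 0
    · subst hk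
      exact Finset.sum_eq_zero fun r _ => absurd r.2 (by omega)
    have hmem : ∀ x, R x ∈ (R.toRatAlgHom).range := fun x => ⟨x, rfl⟩
    have hcomm : ∀ x v, f (R x v) = R x (f v) := by
      intro x v
      refine hf.comm (R x) (hend x) ?_ v
      rintro z ⟨y, rfl⟩ w
      exact LinearMap.congr_fun (hmc x y) w
    have hlin : ∀ x v r s, α (Function.update v r (R x (v r))) =
        α (Function.update v s (R x (v s))) := by
      intro x v r s
      rw [hR, hR]
      exact W.lin x v r s
    obtain ⟨hsum, -⟩ := hWeG X K R k α hend hk hlin hG.2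
    have hkr : IsKr X K (NumberField.IsCMField.complexConj K : K →+* K) R :=
      ⟨hend, fun x => hadj x⟩
    have htr : ∀ σ : K →+* ℂ, LinearMap.trace ℂ X.H1 (f * proj R σ) = 0 := by
      intro σ
      unfold proj
      rw [Finset.mul_sum, map_sum]
      refine Finset.sum_eq_zero fun b _ => ?_
      rw [mul_smul_comm, map_smul, hf.trace _ (hmem _), smul_zero]
    have hpart : ∀ σ : K →+* ℂ,
        ∑ r, α (fun r' => proj R σ (Function.update v r (f (v r)) r')) = 0 := by
      intro σ
      have h1 := hWeT X K _ R k α σ f v (fun r => proj R σ (v r)) hkr W.rank hcomm fun _ => rfl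
      rw [htr σ, zero_mul] at h1
      rw [← h1]
      refine Finset.sum_congr rfl fun r _ => ?_
      rw [WeZ_upd (proj R σ) f (WeZ_proj_comm R f hcomm σ) v r]
    rw [Finset.sum_congr rfl fun r _ => hsum (Function.update v r (f (v r))), Finset.sum_comm]
    exact Finset.sum_eq_zero fun σ _ => hpart σ
  · rcases hor with h | h
    · exact Or.inl h
    · refine Or.inr ?_
      intro L _ _ φ hφ
      right
      have hs : Function.Surjective (φ.comp (R.toRatAlgHom).rangeRestrict) :=
        hφ.comp (R.toRatAlgHom).rangeRestrict_surjective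
      have hi : Function.Injective (φ.comp (R.toRatAlgHom).rangeRestrict) :=
        RingHom.injective _
      exact IsAbelianGalois.of_algHom (AlgEquiv.ofBijective _ ⟨hi, hs⟩).symm.toAlgHom

end WPP
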