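import Pool.Agent.WPP.StZ
import Pool.Agent.Helper39.AF.Decomp
import Pool.Agent.Helper8.T1.Transfer

/-!
# WPP: the theorem on classes invariant under the derived algebra of a commutative algebra
-/

set_option autoImplicit false

namespace WPP

open Module Pool.Agent.GPC
open Pool.Agent.Helper7 (pData proj lift hod)

section Wzz

variable {X : AbVar} {Z : Subalgebra ℚ (Module.End ℂ X.H1)} {I : Type} [Fintype I] {A : I → AbVar}
  {K : I → Type} [∀ i, Field (K i)] [∀ i, NumberField (K i)] {c : ∀ i, K i →+* K i}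
  {ρ : ∀ i, K i →+* Module.End ℂ (A i).H1} {φ : ∀ i, Z →ₐ[ℚ] K i}
  {ι : ∀ i, (A i).H1 →ₗ[ℂ] X.H1} {π : ∀ i, X.H1 →ₗ[ℂ] (A i).H1}

/-- the isogeny -/
private noncomputable def Wzz_iso (h : ZDec X Z A K c ρ φ ι π) : X.H1 ≃ₗ[ℂ] H1 A (fun _ => 1) :=
  LinearEquiv.ofLinearMap (LinearMap.pi fun i => LinearMap.pi fun _ => π i)
    (∑ i, ι i ∘ₗ (LinearMap.proj (0 : Fin 1) ∘ₗ LinearMap.proj i))
    (by
      refine LinearMap.ext fun y => ?_
      funext i m
      have hm : m = 0 := Subsingleton.elim m 0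
      subst hm
      simp only [LinearMap.comp_apply, LinearMap.sum_apply, LinearMap.pi_apply, LinearMap.proj_apply,
        LinearMap.id_apply, map_sum]
      rw [Finset.sum_eq_single i, h.πι]
      · intro j _ hj
        exact h.orth i j (Ne.symm hj) _
      · intro hi; exact absurd (Finset.mem_univ _) hi)
    (by
      refine LinearMap.ext fun v => ?_
      simp only [LinearMap.comp_apply, LinearMap.sum_apply, LinearMap.pi_apply, LinearMap.proj_apply,
        LinearMap.id_apply]
      exact h.sum v)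

private lemma Wzz_iso_apply (h : ZDec X Z A K c ρ φ ι π) (v : X.H1) (i : I) (m : Fin 1) :
    Wzz_iso h v i m = π i v := rfl

private lemma Wzz_iso_symm (h : ZDec X Z A K c ρ φ ι π) (y : H1 A (fun _ => 1)) :
    (Wzz_iso h).symm y = ∑ i, ι i (y i 0) := by
  change (∑ i, ι i ∘ₗ (LinearMap.proj (0 : Fin 1) ∘ₗ LinearMap.proj i)) y = _
  simp only [LinearMap.comp_apply, LinearMap.sum_apply, LinearMap.proj_apply]

private lemma Wzz_sumFil {J : Type} (s : Finset J) (f : J → X.H1) (hf : ∀ i ∈ s, X.IsFil (f i)) :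
    X.IsFil (∑ i ∈ s, f i) := by
  intro a
  rw [Finset.sum_apply]
  exact Finset.sum_eq_zero fun i hi => hf i hi a

private lemma Wzz_isog (h : ZDec X Z A K c ρ φ ι π) : IsIsogeny X A (fun _ => 1) (Wzz_iso h) := by
  refine ⟨fun v => ⟨fun hv i m => (h.morπ i).betti v hv, fun hv => ?_⟩,
    fun v => ⟨fun hv i m => (h.morπ i).deRham v hv, fun hv => ?_⟩,
    fun v => ⟨fun hv i m => (h.morπ i).hodge v hv, fun hv => ?_⟩⟩
  · rw [← h.sum v, Pool.Agent.Helper7.isBetti_iff]
    refine Submodule.sum_mem _ fun i _ => ?_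
    rw [← Pool.Agent.Helper7.isBetti_iff]
    exact (h.morι i).betti _ (hv i 0)
  · rw [← h.sum v]
    intro j
    rw [Finset.sum_apply]
    exact Pool.Agent.Helper7.isAlg_sum _ _ fun i _ => (h.morι i).deRham _ (hv i 0) j
  · rw [← h.sum v]
    exact Wzz_sumFil _ _ fun i _ => (h.morι i).hodge _ (hv i 0)

private lemma Wzz_typ (h : ZDec X Z A K c ρ φ ι π) {k j : ℕ} (α : X.Class (2 * k))
    (hα : X.HasTypes k j α) :
    TypF A (fun _ => 1) k j (α.compLinearMap (Wzz_iso h).symm.toLinearMap) := by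
  intro v s h1 h2 c1 c2 c3
  rw [AlternatingMap.compLinearMap_apply]
  refine hα (fun r => (Wzz_iso h).symm (v r)) s ?_ ?_ c1 c2 c3
  · intro r hr
    exact (Pool.Agent.Helper39.AF.fil_symm (Wzz_isog h) _).mpr (h1 r hr)
  · intro r hr
    choose v' hv' using fun i => h2 r hr i 0
    choose a b ha hb e1 e2 using fun i => (hv' i).1
    refine ⟨∑ i, ι i (v' i), ⟨∑ i, ι i (a i), ∑ i, ι i (b i), ?_, ?_, ?_, ?_⟩, ?_⟩
    · exact Submodule.sum_mem _ fun i _ => Pool.Agent.Helper39.AF.VR_mor (h.morι i) (ha i)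
    · exact Submodule.sum_mem _ fun i _ => Pool.Agent.Helper39.AF.VR_mor (h.morι i) (hb i)
    · rw [Wzz_iso_symm, Finset.smul_sum, ← Finset.sum_add_distrib]
      exact Finset.sum_congr rfl fun i _ => by rw [e1 i, map_add, map_smul]
    · rw [Finset.smul_sum, ← Finset.sum_sub_distrib]
      exact Finset.sum_congr rfl fun i _ => by rw [e2 i, map_sub, map_smul]
    · exact Wzz_sumFil _ _ fun i _ => (h.morι i).hodge _ (hv' i).2

private lemma Wzz_inv (h : ZDec X Z A K c ρ φ ι π) (f : ∀ i, Module.End ℂ (A i).H1)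
    (y : H1 A (fun _ => 1)) :
    (Wzz_iso h).symm (lift (fun _ => 1) f y) =
      (∑ i, ι i ∘ₗ f i ∘ₗ π i) ((Wzz_iso h).symm y) := by
  rw [Wzz_iso_symm, LinearMap.sum_apply]
  refine Finset.sum_congr rfl fun i _ => ?_
  have h1 : π i ((Wzz_iso h).symm y) = y i 0 := by
    rw [← Wzz_iso_apply h _ i 0, LinearEquiv.apply_symm_apply]
  change ι i (f i (y i 0)) = ι i (f i (π i ((Wzz_iso h).symm y)))
  rw [h1]

end Wzz

/-- Grothendieck classes which are killed by the derived algebra of the Lefschetz Lie algebra for the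
commutative Rosati stable algebra `Z`, and have at most three Hodge types `(k, k)`, `(k ± j, k ∓ j)` (or: all
fields which are quotients of `Z` are totally real or abelian), are Hodge classes. -/
theorem thm_Wzz (hAlgZ : St_AlgZ) (hLftZ : St_LftZ) (hFamHK : St_FamHK) : St_Wzz := by
  classical
  intro X Z k α hZ hα hinv hcase
  obtain ⟨I, _, A, K, _, _, c, ρ, φ, ι, π, h⟩ := hAlgZ X Z hZ
  refine Pool.Agent.Helper8.T1.inFil_of_hodge (Wzz_isog h) α
    (hFamHK I A (fun _ => 1) K c ρ k _ h.cen h.pos ?_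
      (Pool.Agent.Helper39.AF.grothendieck_transfer (Wzz_isog h) α hα) ?_)
  · intro f hf v
    have h1 := hinv _ (hLftZ X Z I A K c ρ φ ι π h f hf) (fun r => (Wzz_iso h).symm (v r))
    rw [← h1]
    refine Finset.sum_congr rfl fun r _ => ?_
    rw [AlternatingMap.compLinearMap_apply]
    congr 1
    funext s
    change (Wzz_iso h).symm (Function.update v r (lift (fun _ => 1) f (v r)) s) = _
    by_cases hs' : s = r
    · subst hs'
      rw [Function.update_self, Function.update_self, Wzz_inv]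
    · rw [Function.update_of_ne hs', Function.update_of_ne hs']
  · rcases hcase with ⟨j, hj⟩ | hab
    · exact Or.inr ⟨j, Wzz_typ h α hj⟩
    · refine Or.inl fun i hcm => ?_
      rcases hab (K i) (φ i) (h.surj i) with hr | ha
      · exfalso
        apply hcm.ne
        refine RingHom.ext fun x => ?_
        obtain ⟨σ⟩ : Nonempty (K i →+* ℂ) := inferInstance
        have h2 := NumberField.IsTotallyReal.complexEmbedding_isReal σ
        have h3 : (starRingEnd ℂ) (σ x) = σ x := by
          have h4 := congrArg (fun τ : K i →+* ℂ => τ x) h2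
          exact h4
        rw [hcm.cc σ x] at h3
        exact σ.injective h3
      · exact ⟨ha.toIsGalois, fun g g' => IsMulCommutative.is_comm.comm g g'⟩

end WPP
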