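import Pool.Agent.WPP.AllA
import Pool.Agent.WPP.ConH
import Pool.Agent.WPP.IdZ
import Pool.Agent.WPP.AlgZ
import Pool.Agent.WPP.LftZ
import Pool.Agent.WPP.TypZ
import Pool.Agent.WPP.ZerK
import Pool.Agent.WPP.ScAK
import Pool.Agent.WPP.FamRK
import Pool.Agent.WPP.FamFK
import Pool.Agent.WPP.FamHK
import Pool.Agent.WPP.Wzz
import Pool.Agent.WPP.WeZ

/-!
# WPP: assembly, Rosati stable algebras of endomorphisms
-/

set_option autoImplicit false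

namespace WPP

namespace All

theorem ConH_ : St_ConH := thm_ConH
theorem IdZ_ : St_IdZ := thm_IdZ
theorem AlgZ_ : St_AlgZ := thm_AlgZ IdZ_
theorem LftZ_ : St_LftZ := thm_LftZ
theorem TypZ_ : St_TypZ := thm_TypZ
theorem ZerK_ : St_ZerK := thm_ZerK PrT_
theorem ScAK_ : St_ScAK := thm_ScAK ZerK_
theorem FamRK_ : St_FamRK := thm_FamRK PrT_ ScAK_ Wei_ MTN_
theorem FamFK_ : St_FamFK := thm_FamFK ConH_ ScAK_ FamRK_ MTN_
theorem FamHK_ : St_FamHK := thm_FamHK PrT_ TorI_ GalE_ ScAK_ Wei_ MTN_ FamRK_ FamFK_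
theorem Wzz_ : St_Wzz := thm_Wzz AlgZ_ LftZ_ FamHK_
theorem WeZ_ : St_WeZ := thm_WeZ Wzz_ WeG_ WeT_

end All

end WPP
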