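import Pool.Agent.DWC.StG
import Pool.Agent.DWC.StK

/-!
# WPP: determinants of periods for multiplication by a CM field (definitions)

Campaign WeilAndBall (MP_bf54cf_ag), architect helper99. The theory of `PST` and `DWC` (domain of
type `I_{p,q}`, one place) on a product of such domains, one for every place of a CM field.

`pl : α ⊕ β → S` gives the place of a coordinate. The product of the domains is the set of the block
diagonal points of `Om α β`; its coordinates are the `w (i, j)` with `pl i = pl j`.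
-/

set_option autoImplicit false

namespace WPP

open scoped ComplexConjugate
open GAM (H E F pd pdl PLat IsTh OddTor IsDel Gro IsLat)
open PST DWC

section defs

variable {α β μ S : Type} [Fintype α] [Fintype β] [Fintype μ] [DecidableEq α] [DecidableEq β]
  [DecidableEq μ] [DecidableEq S]

/-- Coordinates of the product domain. -/
abbrev Ga (pl : α ⊕ β → S) : Type := {p : α × β // pl (Sum.inl p.1) = pl (Sum.inr p.2)}

/-- Extension by zero. -/
def ex0 (pl : α ⊕ β → S) (w : Ga pl → ℂ) : α × β → ℂ := fun p =>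
  if h : pl (Sum.inl p.1) = pl (Sum.inr p.2) then w ⟨p, h⟩ else 0

/-- Restriction. -/
def rs (pl : α ⊕ β → S) (w : α × β → ℂ) : Ga pl → ℂ := fun p => w p.1

/-- Block diagonal matrices. -/
def IsB (pl : α ⊕ β → S) (g : Matrix (α ⊕ β) (α ⊕ β) ℂ) : Prop := ∀ p q, pl p ≠ pl q → g p q = 0

/-- The indices of the first kind at the place `s`. -/
abbrev Pa (pl : α ⊕ β → S) (s : S) : Type := {i : α // pl (Sum.inl i) = s}

/-- The indices of the second kind at the place `s`. -/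
abbrev Pb (pl : α ⊕ β → S) (s : S) : Type := {j : β // pl (Sum.inr j) = s}

/-- The block of a matrix at the place `s`. -/
def bk (pl : α ⊕ β → S) (s : S) (g : Matrix (α ⊕ β) (α ⊕ β) ℂ) :
    Matrix {p : α ⊕ β // pl p = s} {p : α ⊕ β // pl p = s} ℂ :=
  g.submatrix Subtype.val Subtype.val

/-- The determinant of the block at the place `s`. -/
noncomputable def dt (pl : α ⊕ β → S) (s : S) (g : Matrix (α ⊕ β) (α ⊕ β) ℂ) : ℂ :=
  (bk pl s g).det

/-- The product domain. -/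
def OmB (pl : α ⊕ β → S) : Set (Ga pl → ℂ) := {w | ex0 pl w ∈ Om α β}

/-- Its closed parts. -/
def OmBC (pl : α ⊕ β → S) (ρ : ℝ) : Set (Ga pl → ℂ) := {w | ex0 pl w ∈ OmC α β ρ}

/-- The action on the product domain. -/
noncomputable def mobB (pl : α ⊕ β → S) (g : Matrix (α ⊕ β) (α ⊕ β) ℂ) (w : Ga pl → ℂ) :
    Ga pl → ℂ := rs pl (mob g (ex0 pl w))

/-- The determinant of derivatives at the place `s`, first kind. -/
noncomputable def fpB (pl : α ⊕ β → S) (s : S) (k : μ) (θ : (Ix α β μ → ℂ) → ℂ) (w : α × β → ℂ)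
    (x : Pa pl s → Ix α β μ → ℂ) : ℂ :=
  (Matrix.of fun i b : Pa pl s => dpsi (Sum.inl i.1, k) θ w (x b)).det

/-- The determinant of derivatives at the place `s`, second kind. -/
noncomputable def fmB (pl : α ⊕ β → S) (s : S) (k : μ) (θ : (Ix α β μ → ℂ) → ℂ) (w : α × β → ℂ)
    (x : Pb pl s → Ix α β μ → ℂ) : ℂ :=
  (Matrix.of fun j b : Pb pl s => dpsi (Sum.inr j.1, k) θ w (x b)).det

/-- The functions to which Siegel's lemma is applied, for the place `s`: `ψ(y_i) ψ(y)^(e|α_s|) f_-^e`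
for `i ≠ ∗`, and `ψ(y) ψ(y)^(e|β_s|) f_+^e`. -/
noncomputable def XFB (pl : α ⊕ β → S) (s : S) (e : ℕ) (k : μ) (θ : (Ix α β μ → ℂ) → ℂ)
    (y : Option (Ga pl) → Ix α β μ → ℂ) (x : Pa pl s → Ix α β μ → ℂ)
    (x' : Pb pl s → Ix α β μ → ℂ) (w : Ga pl → ℂ) : Option (Option (Ga pl)) → ℂ
  | some i => psi θ (ex0 pl w) (y i) * psi θ (ex0 pl w) (y none) ^ (e * Fintype.card (Pa pl s)) *
      fmB pl s k θ (ex0 pl w) x' ^ e
  | none => psi θ (ex0 pl w) (y none) * psi θ (ex0 pl w) (y none) ^ (e * Fintype.card (Pb pl s)) *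
      fpB pl s k θ (ex0 pl w) x ^ e

/-- The diagonal matrix of the elements `N σ_s(t)`. -/
noncomputable def kapB (pl : α ⊕ β → S) (th : S → ℂ) (N : ℕ) : Matrix (α ⊕ β) (α ⊕ β) ℂ :=
  Matrix.diagonal fun p => (N : ℂ) * th (pl p)

/-- `L` is stable under `N t`. -/
def KLB (pl : α ⊕ β → S) (th : S → ℂ) (N : ℕ) (L : Submodule ℤ (Ix α β μ → ℂ)) : Prop :=
  ∀ l ∈ L, act (kapB pl th N) l ∈ L

/-- The congruence subgroup: block diagonal matrices, the determinants of all blocks are roots of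
unity of order dividing `e`. -/
structure GamB (pl : α ⊕ β → S) (e n : ℕ) (L : Submodule ℤ (Ix α β μ → ℂ))
    (γ : Matrix (α ⊕ β) (α ⊕ β) ℂ) : Prop where
  uni : IsU γ
  blk : IsB pl γ
  det : ∀ s, dt pl s γ ^ e = 1
  lat : ∀ x : Ix α β μ → ℂ, x ∈ L ↔ act γ x ∈ L
  cong : ∀ l ∈ L, ∃ m ∈ L, act γ l = l + (n : ℤ) • m

/-- Cocompactness of the product domain up to half planes. -/
def CocB (pl : α ⊕ β → S) (e : ℕ) (L : Submodule ℤ (Ix α β μ → ℂ)) : Prop :=
  ∀ n : ℕ, n ≠ 0 → ∃ (K : Set (Ga pl → ℂ)) (C : ℝ), IsCompact K ∧ K.Nonempty ∧ K ⊆ OmB pl ∧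
    ∀ p ∈ K, ∃ U ∈ nhds p, ∀ w ∈ U, ∃ z : ℂ → Ga pl → ℂ, z Complex.I = w ∧
      DifferentiableOn ℂ z {t | 0 < t.im} ∧ ContinuousOn z {t | 0 ≤ t.im} ∧
      (∀ t : ℂ, 0 ≤ t.im → ∃ ρ : ℝ, 0 ≤ ρ ∧ ρ < 1 ∧ z t ∈ OmBC pl ρ ∧
        1 ≤ C * (1 - ρ) * (1 + ‖t‖) ^ 2) ∧
      ∀ t : ℝ, ∃ g : Matrix (α ⊕ β) (α ⊕ β) ℂ, GamB pl e n L g ∧ mobB pl g (z t) ∈ K

/-- The compact set. -/
def KcB (pl : α ⊕ β → S) (L : Submodule ℤ (Ix α β μ → ℂ)) (ε R : ℝ) : Set (Ga pl → ℂ) :=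
  {w | ∃ g : Matrix (α ⊕ β) (α ⊕ β) ℂ, IsU g ∧ IsB pl g ∧ (∀ i j, ‖g i j‖ ≤ R) ∧ Sh L g ε ∧
    mobB pl g 0 = w}

/-- `θ` is an integral generator of the CM field `K`, `φ` a CM type of `K` indexed by the places. -/
structure GenK (S : Type) (K : Type) [Field K] [NumberField K] (c : K →+* K) (φ : S → K →+* ℂ)
    (t : K) : Prop where
  cm : GAM.CMF K c
  ty : GAM.CMT K c φ
  int : IsIntegral ℤ t
  gen : ∀ σ σ' : K →+* ℂ, σ t = σ' t → σ = σ'

/-- Trace of the block at the place `s`, first kind. -/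
def trA (pl : α ⊕ β → S) (s : S) (B : Matrix α α ℂ) : ℂ := ∑ i : Pa pl s, B i.1 i.1

/-- Trace of the block at the place `s`, second kind. -/
def trB (pl : α ⊕ β → S) (s : S) (B : Matrix β β ℂ) : ℂ := ∑ j : Pb pl s, B j.1 j.1

/-- The matrices of the operator `hop` are block diagonal. -/
structure Bds (pl : α ⊕ β → S) (Bp : Matrix α α ℂ) (Bm : Matrix β β ℂ) (c : Matrix α β ℂ) :
    Prop where
  bp : ∀ i i', pl (Sum.inl i) ≠ pl (Sum.inl i') → Bp i i' = 0
  bm : ∀ j j', pl (Sum.inr j) ≠ pl (Sum.inr j') → Bm j j' = 0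
  bc : ∀ i j, pl (Sum.inl i) ≠ pl (Sum.inr j) → c i j = 0

end defs

end WPP
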