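import Pool.Agent.WPP.StZ
import Pool.Agent.Helper8.D.HodgeStep

/-!
# WPP [FamT]: the theorem for families, characters with three weights
-/

set_option autoImplicit false

namespace WPP

open scoped ComplexConjugate
open GAM (CMF CMT IsExp)
open Pool.Agent.GPC
open Pool.Agent.Helper7 (pData proj lift hod actForm)
open Module

section

variable {I : Type} [Fintype I] [DecidableEq I] (A : I → AbVar) (n : I → ℕ) (K : I → Type)
  [∀ i, Field (K i)] [∀ i, NumberField (K i)] (ρ : ∀ i, K i →+* Module.End ℂ (A i).H1)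

/-- the projectors add up to the identity -/
private theorem FamT_one (v : H1 A n) : ∑ t : Lb K, prE A n K ρ t v = v := by
  funext i m
  rw [Finset.sum_apply, Finset.sum_apply]
  have h1 : ∀ t : Lb K, prE A n K ρ t v i m =
      (Function.update (fun _ => 0) t.1 (proj (ρ t.1) t.2) :
        (i : I) → Module.End ℂ (A i).H1) i (v i m) := fun t => rfl
  simp only [h1]
  rw [Fintype.sum_sigma]
  rw [Finset.sum_eq_single i]
  · simp only [Function.update_self]
    have h2 := congrArg (fun f : Module.End ℂ (A i).H1 => f (v i m))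
      (Pool.Agent.Helper7.sum_proj (ρ i))
    simp only [LinearMap.sum_apply, Module.End.one_apply] at h2
    exact h2
  · intro j _ hj
    refine Finset.sum_eq_zero fun σ _ => ?_
    rw [Function.update_of_ne hj.symm]
    rfl
  · intro h
    exact absurd (Finset.mem_univ i) h

private theorem FamT_exp {m : ℕ} (β : MultilinearMap ℂ (fun _ : Fin m => H1 A n) ℂ)
    (v : Fin m → H1 A n) :
    β v = ∑ w : Fin m → Lb K, β (fun r => prE A n K ρ (w r) (v r)) := by
  classical
  have h1 : v = fun r => ∑ t : Lb K, prE A n K ρ t (v r) :=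
    funext fun r => (FamT_one A n K ρ (v r)).symm
  conv_lhs => rw [h1]
  exact β.map_sum fun r t => prE A n K ρ t (v r)

end

/-- The dimension of the eigenspace in `F^0`. -/
noncomputable def mF {I : Type} (A : I → AbVar) (K : I → Type) [∀ i, Field (K i)]
    [∀ i, NumberField (K i)] (ρ : ∀ i, K i →+* Module.End ℂ (A i).H1) (t : Lb K) : ℕ :=
  finrank ℂ ((A t.1).eigenFil (fun x v => ρ t.1 x v) t.2)

/-- Every stable space of odd functions on the labels with a nonzero weight contains one with three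
weights. -/
def ThrL {I : Type} [Fintype I] (A : I → AbVar) (K : I → Type) [∀ i, Field (K i)]
    [∀ i, NumberField (K i)] (c : ∀ i, K i →+* K i) (ρ : ∀ i, K i →+* Module.End ℂ (A i).H1) :
    Prop :=
  ∀ V : Submodule ℚ (Lb K → ℚ), (∀ f ∈ V, ∀ t, f (cj K c t) = - f t) →
    (∀ f ∈ V, ∀ g : ℂ ≃+* ℂ, (fun t => f (tw K g t)) ∈ V) →
    (∃ f ∈ V, ∑ t : Lb K, f t * mF A K ρ t ≠ 0) →
    ∃ f ∈ V, ∑ t : Lb K, f t * mF A K ρ t ≠ 0 ∧ ∃ N : ℚ, ∀ g : ℂ ≃+* ℂ,
      ∑ t : Lb K, f (tw K g t) * mF A K ρ t = 0 ∨ ∑ t : Lb K, f (tw K g t) * mF A K ρ t = N ∨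
        ∑ t : Lb K, f (tw K g t) * mF A K ρ t = - N

/-- The relations imply the vanishing of the weight. -/
theorem FamT_rel (hPrT : St_PrT) (hEgF : St_EgF) (hTorI : St_TorI)
    (I : Type) [Fintype I] (A : I → AbVar) (K : I → Type)
    [∀ i, Field (K i)] [∀ i, NumberField (K i)] (c : ∀ i, K i →+* K i)
    (ρ : ∀ i, K i →+* Module.End ℂ (A i).H1) (hcen : ∀ i, CenK (A i) (K i) (c i) (ρ i))
    (hinv : ∀ t, cj K c (cj K c t) = t) (hthr : ThrL A K c ρ)
    (z : Lb K → ℤ) (hodd : ∀ t, z (cj K c t) = - z t)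
    (hrel : ∀ (τ : ℂ ≃+* ℂ) (δ : Derivation ℚ ℂ ℂ), ∑ t : Lb K, (z (tw K τ t) : ℂ) *
      LinearMap.trace ℂ (A t.1).H1 ((pData (A t.1)).N δ * proj (ρ t.1) t.2) = 0) :
    ∑ t : Lb K, (z t : ℂ) * LinearMap.trace ℂ (A t.1).H1 (hod (A t.1) * proj (ρ t.1) t.2) = 0 := by
  classical
  choose d hd1 hd2 _ _ using fun i => hPrT (A i) (K i) (c i) (ρ i) (hcen i).kr
  have hcf : ∀ i, c i = RingHom.id (K i) ∨ CMF (K i) (c i) := fun i => by
    by_cases h : c i = RingHom.id (K i)
    · exact Or.inl h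
    · exact Or.inr ⟨fun σ x => (hcen i).cc σ x, h⟩
  -- the sum with the traces of the Hodge projector
  have htr : ∀ f : Lb K → ℚ, (∀ t, f (cj K c t) = - f t) →
      ∑ t : Lb K, (f t : ℂ) * LinearMap.trace ℂ (A t.1).H1 (hod (A t.1) * proj (ρ t.1) t.2) =
        - ((∑ t : Lb K, f t * mF A K ρ t : ℚ) : ℂ) := by
    intro f hf
    have h1 : ∑ t : Lb K, (f t : ℂ) * (d t.1 : ℂ) = 0 := by
      have h2 : ∑ t : Lb K, (f t : ℂ) * (d t.1 : ℂ) =
          ∑ t : Lb K, (f (cj K c t) : ℂ) * (d (cj K c t).1 : ℂ) :=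
        (Fintype.sum_bijective (cj K c) (Function.Involutive.bijective hinv) _ _
          (fun t => rfl)).symm
      have h3 : ∑ t : Lb K, (f (cj K c t) : ℂ) * (d (cj K c t).1 : ℂ) =
          - ∑ t : Lb K, (f t : ℂ) * (d t.1 : ℂ) := by
        rw [← Finset.sum_neg_distrib]
        refine Finset.sum_congr rfl fun t _ => ?_
        rw [hf t]
        show ((-f t : ℚ) : ℂ) * (d t.1 : ℂ) = _
        push_cast
        ring
      rw [h3] at h2
      have h4 : (2 : ℂ) * ∑ t : Lb K, (f t : ℂ) * (d t.1 : ℂ) = 0 := by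
        linear_combination h2
      exact (mul_eq_zero.1 h4).resolve_left two_ne_zero
    have h5 : ∀ t : Lb K, LinearMap.trace ℂ (A t.1).H1 (hod (A t.1) * proj (ρ t.1) t.2) =
        (d t.1 : ℂ) - (mF A K ρ t : ℂ) := by
      intro t
      have h6 := hEgF (A t.1) (K t.1) (ρ t.1) t.2 (fun x => (hcen t.1).kr.endo x)
      rw [hd2 t.1 t.2] at h6
      rw [← h6]
      unfold mF
      ring
    have h7 : ∑ t : Lb K, (f t : ℂ) * LinearMap.trace ℂ (A t.1).H1
        (hod (A t.1) * proj (ρ t.1) t.2) =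
        ∑ t : Lb K, (f t : ℂ) * (d t.1 : ℂ) - ∑ t : Lb K, (f t : ℂ) * (mF A K ρ t : ℂ) := by
      rw [← Finset.sum_sub_distrib]
      exact Finset.sum_congr rfl fun t _ => by rw [h5 t]; ring
    rw [h7, h1]
    push_cast
    ring
  -- the space of all relations
  let R : Submodule ℚ (Lb K → ℚ) :=
    { carrier := {f | (∀ t, f (cj K c t) = - f t) ∧ ∀ (τ : ℂ ≃+* ℂ) (δ : Derivation ℚ ℂ ℂ),
        ∑ t : Lb K, (f (tw K τ t) : ℂ) *
          LinearMap.trace ℂ (A t.1).H1 ((pData (A t.1)).N δ * proj (ρ t.1) t.2) = 0}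
      add_mem' := by
        intro f g hf hg
        refine ⟨fun t => ?_, fun τ δ => ?_⟩
        · rw [Pi.add_apply, Pi.add_apply, hf.1 t, hg.1 t]; ring
        · have h1 := hf.2 τ δ
          have h2 := hg.2 τ δ
          calc _ = ∑ t : Lb K, (f (tw K τ t) : ℂ) * LinearMap.trace ℂ (A t.1).H1
                ((pData (A t.1)).N δ * proj (ρ t.1) t.2) +
              ∑ t : Lb K, (g (tw K τ t) : ℂ) * LinearMap.trace ℂ (A t.1).H1
                ((pData (A t.1)).N δ * proj (ρ t.1) t.2) := by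
                rw [← Finset.sum_add_distrib]
                refine Finset.sum_congr rfl fun t _ => ?_
                rw [Pi.add_apply]
                push_cast
                ring
            _ = 0 := by rw [h1, h2, add_zero]
      zero_mem' := by
        refine ⟨fun t => ?_, fun τ δ => ?_⟩
        · simp
        · simp
      smul_mem' := by
        intro a f hf
        refine ⟨fun t => ?_, fun τ δ => ?_⟩
        · rw [Pi.smul_apply, Pi.smul_apply, hf.1 t, smul_neg]
        · have h1 := hf.2 τ δ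
          calc _ = (a : ℂ) * ∑ t : Lb K, (f (tw K τ t) : ℂ) * LinearMap.trace ℂ (A t.1).H1
                ((pData (A t.1)).N δ * proj (ρ t.1) t.2) := by
                rw [Finset.mul_sum]
                refine Finset.sum_congr rfl fun t _ => ?_
                rw [Pi.smul_apply, smul_eq_mul]
                push_cast
                ring
            _ = 0 := by rw [h1, mul_zero] }
  have hRmem : ∀ f : Lb K → ℚ, f ∈ R ↔ (∀ t, f (cj K c t) = - f t) ∧
      ∀ (τ : ℂ ≃+* ℂ) (δ : Derivation ℚ ℂ ℂ), ∑ t : Lb K, (f (tw K τ t) : ℂ) *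
          LinearMap.trace ℂ (A t.1).H1 ((pData (A t.1)).N δ * proj (ρ t.1) t.2) = 0 :=
    fun f => Iff.rfl
  have htw : ∀ (g τ : ℂ ≃+* ℂ) (t : Lb K), tw K g (tw K τ t) = tw K (τ.trans g) t := by
    intro g τ t
    rfl
  have htwc : ∀ (g : ℂ ≃+* ℂ) (t : Lb K), tw K g (cj K c t) = cj K c (tw K g t) := by
    intro g t
    rfl
  by_contra hne
  let z' : Lb K → ℚ := fun t => z t
  have hz'R : z' ∈ R := by
    rw [hRmem]
    refine ⟨fun t => ?_, fun τ δ => ?_⟩
    · show ((z (cj K c t) : ℤ) : ℚ) = - ((z t : ℤ) : ℚ)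
      rw [hodd t]; push_cast; ring
    · have h1 := hrel τ δ
      simpa [z'] using h1
  have hz'0 : ∑ t : Lb K, z' t * mF A K ρ t ≠ 0 := by
    intro h0
    apply hne
    have h1 := htr z' ((hRmem z').1 hz'R).1
    rw [h0] at h1
    simpa [z'] using h1
  obtain ⟨f, hfR, hf0, N, hN⟩ := hthr R (fun f hf => hf.1) (fun f hf g => by
    rw [hRmem]
    refine ⟨fun t => ?_, fun τ δ => ?_⟩
    · show f (tw K g (cj K c t)) = - f (tw K g t)
      rw [htwc, hf.1]
    · have h1 := hf.2 (τ.trans g) δ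
      exact h1) ⟨z', hz'R, hz'0⟩
  -- integral multiple
  obtain ⟨D, hD0, f', hf'⟩ : ∃ (D : ℕ), D ≠ 0 ∧ ∃ f' : Lb K → ℤ, ∀ t, (f' t : ℚ) = D * f t := by
    refine ⟨∏ t : Lb K, (f t).den, Finset.prod_ne_zero_iff.2 fun t _ => (f t).den_nz,
      fun t => (∏ s ∈ Finset.univ.erase t, ((f s).den : ℤ)) * (f t).num, fun t => ?_⟩
    have h1 : ((∏ t : Lb K, (f t).den : ℕ) : ℚ) =
        (∏ s ∈ Finset.univ.erase t, ((f s).den : ℚ)) * (f t).den := by
      rw [Finset.prod_erase_mul _ _ (Finset.mem_univ t)]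
      push_cast
      rfl
    rw [h1]
    push_cast
    rw [mul_assoc, mul_comm ((f t).den : ℚ), Rat.mul_den_eq_num]
  have hfo : ∀ t, f' (cj K c t) = - f' t := by
    intro t
    have h1 : ((f' (cj K c t) : ℤ) : ℚ) = ((- f' t : ℤ) : ℚ) := by
      rw [hf', ((hRmem f).1 hfR).1 t]
      push_cast
      rw [hf']
      ring
    exact_mod_cast h1
  -- the weights of the multiple
  have hval : ∀ g : ℂ ≃+* ℂ, ((∑ t : Lb K, f' (tw K g t) * (mF A K ρ t : ℤ) : ℤ) : ℚ) =
      D * ∑ t : Lb K, f (tw K g t) * mF A K ρ t := by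
    intro g
    push_cast
    rw [Finset.mul_sum]
    refine Finset.sum_congr rfl fun t _ => ?_
    rw [hf']
    ring
  have hone : ∀ t : Lb K, tw K 1 t = t := fun t => rfl
  set M : ℤ := ∑ t : Lb K, f' (tw K 1 t) * (mF A K ρ t : ℤ) with hM
  have hM1 : (M : ℚ) = D * ∑ t : Lb K, f t * mF A K ρ t := hval 1
  have hDq : (D : ℚ) ≠ 0 := Nat.cast_ne_zero.2 hD0
  have hval3 : ∀ g : ℂ ≃+* ℂ, (∑ t : Lb K, f' (tw K g t) * (mF A K ρ t : ℤ) = 0 ∨
      ∑ t : Lb K, f' (tw K g t) * (mF A K ρ t : ℤ) = M ∨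
      ∑ t : Lb K, f' (tw K g t) * (mF A K ρ t : ℤ) = - M) := by
    intro g
    have h1 := hval g
    have h2 := hN g
    have h3 := hN 1
    have h3' : ∑ t : Lb K, f t * mF A K ρ t = 0 ∨ ∑ t : Lb K, f t * mF A K ρ t = N ∨
        ∑ t : Lb K, f t * mF A K ρ t = - N := h3
    rcases h3' with h3 | h3 | h3
    · exact absurd h3 hf0
    · rcases h2 with h2 | h2 | h2
      · left
        rw [h2, mul_zero] at h1
        exact_mod_cast h1
      · right; left
        rw [h2, ← h3, ← hM1] at h1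
        exact_mod_cast h1
      · right; right
        rw [h2, ← h3, mul_neg, ← hM1] at h1
        exact_mod_cast h1
    · rcases h2 with h2 | h2 | h2
      · left
        rw [h2, mul_zero] at h1
        exact_mod_cast h1
      · right; right
        have h4 : N = - ∑ t : Lb K, f t * mF A K ρ t := by rw [h3, neg_neg]
        rw [h2, h4, mul_neg, ← hM1] at h1
        exact_mod_cast h1
      · right; left
        rw [h2, ← h3, ← hM1] at h1
        exact_mod_cast h1
  have htr' : ∀ g : ℂ ≃+* ℂ, ∑ t : Lb K, (f' (tw K g t) : ℂ) *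
      LinearMap.trace ℂ (A t.1).H1 (hod (A t.1) * proj (ρ t.1) t.2) =
      ((- ∑ t : Lb K, f' (tw K g t) * (mF A K ρ t : ℤ) : ℤ) : ℂ) := by
    intro g
    have h1 := htr (fun t => (f' (tw K g t) : ℚ)) (fun t => by
      show ((f' (tw K g (cj K c t)) : ℤ) : ℚ) = - ((f' (tw K g t) : ℤ) : ℚ)
      rw [htwc, hfo]; push_cast; ring)
    push_cast at h1 ⊢
    exact h1
  have hfin := hTorI I A K c ρ f' (fun i => (hcen i).kr) hcf hfo (fun τ δ => by
    have h1 := ((hRmem f).1 hfR).2 τ δ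
    calc _ = (D : ℂ) * ∑ t : Lb K, (f (tw K τ t) : ℂ) * LinearMap.trace ℂ (A t.1).H1
          ((pData (A t.1)).N δ * proj (ρ t.1) t.2) := by
          rw [Finset.mul_sum]
          refine Finset.sum_congr rfl fun t _ => ?_
          have h2 : ((f' (tw K τ t) : ℤ) : ℂ) = (D : ℂ) * ((f (tw K τ t) : ℚ) : ℂ) := by
            have h3 := congrArg (fun q : ℚ => (q : ℂ)) (hf' (tw K τ t))
            push_cast at h3
            exact h3
          rw [h2]
          ring
      _ = 0 := by rw [h1, mul_zero])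
    (Or.inr ⟨M, fun τ => ⟨- ∑ t : Lb K, f' (tw K τ t) * (mF A K ρ t : ℤ), by
      rcases hval3 τ with h | h | h
      · left; rw [h, neg_zero]
      · right; right; rw [h]
      · right; left; rw [h, neg_neg], htr' τ⟩⟩)
  have h9 := htr' 1
  simp only [hone] at h9
  rw [hfin] at h9
  have h10 : (- ∑ t : Lb K, f' t * (mF A K ρ t : ℤ) : ℤ) = 0 := by exact_mod_cast h9.symm
  have h11 : M = 0 := by
    rw [hM]
    simp only [hone]
    exact neg_eq_zero.1 h10
  rw [h11] at hM1
  push_cast at hM1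
  exact hf0 ((mul_eq_zero.1 hM1.symm).resolve_left hDq)

/-- [FamT] the theorem for families, characters with three weights. -/
def St_FamT : Prop := ∀ (I : Type) [Fintype I] [DecidableEq I] (A : I → AbVar) (n : I → ℕ)
  (K : I → Type) [∀ i, Field (K i)] [∀ i, NumberField (K i)] (c : ∀ i, K i →+* K i)
  (ρ : ∀ i, K i →+* Module.End ℂ (A i).H1) (k : ℕ) (α : Form A n (2 * k)),
  (∀ i, CenK (A i) (K i) (c i) (ρ i)) → (∀ i, (A i).g ≠ 0) →
  (∀ f, (∀ i, LefK (A i) (K i) (ρ i) (f i)) → ∀ v : Fin (2 * k) → H1 A n,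
    ∑ r, α (Function.update v r (lift n f (v r))) = 0) →
  IsGrothendieck A n k α → ThrL A K c ρ → IsHodge A n k α

/-- The module FamT. -/
theorem thm_FamT (hPrT : St_PrT) (hEgF : St_EgF) (hTorI : St_TorI) (hGal : St_GalE)
    (hScA : St_ScAK) (hWei : St_Wei) (hMTN : St_MTN) (hFamR : St_FamRK) : St_FamT := by
  intro I _ _ A n K _ _ c ρ k α hcen hg hlef hgr hthr
  choose d hd1 hd2 _ _ using fun i => hPrT (A i) (K i) (c i) (ρ i) (hcen i).kr
  have hpos : ∀ i, d i ≠ 0 := by
    intro i h0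
    have := hd1 i
    rw [h0, zero_mul] at this
    exact hg i (by omega)
  have hD : FamK A n K c ρ d k α := ⟨hcen, hpos, hd2, hlef, hgr⟩
  obtain ⟨hinv, hR⟩ := hFamR I A n K c ρ d k α hD
  have hgal : ∀ (τ : ℂ ≃+* ℂ) (w : Fin (2 * k) → Lb K), Occ A n K ρ α w →
      Occ A n K ρ α (fun r => tw K τ (w r)) :=
    hGal I A n K ρ k α (fun i x => (hcen i).kr.endo x) hgr.2
  -- the weight of the tuples of labels which occur
  have hwt : ∀ w : Fin (2 * k) → Lb K, Occ A n K ρ α w →
      ∑ r, LinearMap.trace ℂ (A (w r).1).H1 (hod (A (w r).1) * proj (ρ (w r).1) (w r).2) /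
        d (w r).1 = k := by
    intro w hw
    obtain ⟨w1, w2, -⟩ := hWei I K c d k w hpos hinv
    have hz := FamT_rel hPrT hEgF hTorI I A K c ρ hcen hinv hthr (zw c d w) w1 (fun τ δ => by
        simp only [w2]
        exact (hR _ (hgal τ.symm w hw)).1 δ)
    have h2 := (hR w hw).2
    rw [hz] at h2
    have h3 : (2 * (∏ i, (d i : ℂ))) ≠ 0 := by
      refine mul_ne_zero two_ne_zero (Finset.prod_ne_zero_iff.2 fun i _ => ?_)
      exact_mod_cast hpos i
    have h4 := (mul_eq_zero.1 h2.symm).resolve_left h3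
    exact sub_eq_zero.1 h4
  -- the action of the Hodge projector
  have hact : actForm (lift n fun i => hod (A i)) α.toMultilinearMap =
      (k : ℂ) • α.toMultilinearMap := by
    refine MultilinearMap.ext fun v => ?_
    rw [FamT_exp A n K ρ (actForm (lift n fun i => hod (A i)) α.toMultilinearMap) v,
      _root_.smul_apply, FamT_exp A n K ρ α.toMultilinearMap v, Finset.smul_sum]
    refine Finset.sum_congr rfl fun w _ => ?_
    rw [Pool.Agent.Helper7.actForm_apply]
    have h1 := hScA I A n K c ρ d k α (fun i => hod (A i)) 1 hD (fun i => hMTN.2.1 (A i)) w v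
      (fun r => prE A n K ρ (w r) (v r)) (fun r => rfl)
    refine h1.trans ?_
    show _ = (k : ℂ) * α (fun r => prE A n K ρ (w r) (v r))
    by_cases h0 : α (fun r => prE A n K ρ (w r) (v r)) = 0
    · rw [h0, mul_zero, mul_zero]
    · rw [hwt w ⟨v, h0⟩]
  refine ⟨hgr.2, fun v J hJ hv => ?_⟩
  refine Pool.Agent.Helper8.zero_of_type α.toMultilinearMap (lift n fun i => hod (A i)) ?_ hact v
    J hJ ?_
  · intro u
    funext i m
    exact Pool.Agent.Helper7.hod_idem (A i) (u i m)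
  · intro r hr
    funext i m
    exact (Pool.Agent.Helper7.hod_fil (A i)).1 (hv r hr i m)

end WPP
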