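import Pool.Agent.WPP.StN

/-!
# WPP, module NFX: the normal form exists (helper18)
-/

set_option autoImplicit false
set_option linter.unusedSectionVars false

namespace WPP

open scoped ComplexConjugate
open GAM (H E F pd pdl PLat IsTh OddTor IsDel Gro IsLat HasExp CMF CMT IsExp IsCM)
open Pool.Agent.GPC (AbVar hermForm bilForm)
open Module
open PST DWC

section

variable {α β : Type} [Fintype α] [Fintype β] [DecidableEq α] [DecidableEq β]

private theorem NFX_sw_sw {μ : Type} (x : Ix α β μ → ℂ) : sw (sw x) = x := by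
  funext p
  obtain ⟨i | j, k⟩ := p
  · rfl
  · exact Complex.conj_conj _

private theorem NFX_sw_inj {μ : Type} {x y : Ix α β μ → ℂ} (h : sw x = sw y) : x = y := by
  rw [← NFX_sw_sw x, h, NFX_sw_sw]

private theorem NFX_blk_diag (a : α → ℂ) (b : β → ℂ) :
    blk Unit (Matrix.diagonal a) (Matrix.diagonal b) =
      Matrix.diagonal (fun p : Ix α β Unit => Sum.elim a b p.1) := by
  ext ⟨p1, p2⟩ ⟨q1, q2⟩
  simp only [blk, Matrix.of_apply, Matrix.diagonal_apply, Prod.mk.injEq]
  rcases p1 with i | j <;> rcases q1 with i' | j'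
  · by_cases h : i = i'
    · subst h; simp
    · simp [h]
  · simp
  · simp
  · by_cases h : j = j'
    · subst h; simp
    · simp [h]

private theorem NFX_blk_mul (P P' : Matrix α α ℂ) (Q Q' : Matrix β β ℂ) :
    blk Unit P Q * blk Unit P' Q' = blk Unit (P * P') (Q * Q') := by
  ext ⟨p1, p2⟩ ⟨q1, q2⟩
  rw [Matrix.mul_apply, Fintype.sum_prod_type]
  simp only [blk, Matrix.of_apply, Finset.univ_unique, Finset.sum_singleton]
  rw [Fintype.sum_sum_type]
  rcases p1 with i | j <;> rcases q1 with i' | j'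
  · simp [Matrix.mul_apply]
  · simp
  · simp
  · simp [Matrix.mul_apply]

private theorem NFX_Jm : Jm α β =
    Matrix.diagonal (Sum.elim (fun _ : α => (1 : ℂ)) (fun _ : β => (-1 : ℂ))) := by
  unfold Jm
  rw [← Matrix.fromBlocks_diagonal]
  congr 1
  ext i j
  by_cases h : i = j
  · subst h; simp
  · simp [h]

/-- the map to the `X` coordinates -/
private noncomputable def NFX_phi {g : ℕ} (T : Matrix (Ix α β Unit) (Fin g) ℂ) :
    (Fin g → ℂ) →ₗ[ℝ] (α ⊕ β → ℂ) where
  toFun z := fun s => sw (T.mulVec z) (s, ())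
  map_add' z w := by
    funext s
    rcases s with i | j
    · simp [sw, Matrix.mulVec_add]
    · simp [sw, Matrix.mulVec_add]
  map_smul' c z := by
    have h : T.mulVec (c • z) = (c : ℂ) • T.mulVec z := by
      rw [← Matrix.mulVec_smul]
      congr 1
    funext s
    rcases s with i | j
    · simp [sw, h]
    · simp [sw, h]

private theorem NFX_phi_apply {g : ℕ} (T : Matrix (Ix α β Unit) (Fin g) ℂ) (z : Fin g → ℂ)
    (s : α ⊕ β) : NFX_phi T z s = sw (T.mulVec z) (s, ()) := rfl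

private theorem NFX_phi_inj {g : ℕ} (T : Matrix (Ix α β Unit) (Fin g) ℂ)
    (S : Matrix (Fin g) (Ix α β Unit) ℂ) (h : S * T = 1) :
    Function.Injective (NFX_phi T) := by
  intro z w hzw
  have h1 : T.mulVec z = T.mulVec w := by
    apply NFX_sw_inj
    funext p
    obtain ⟨s, k⟩ := p
    exact congrFun hzw s
  have h2 := congrArg S.mulVec h1
  rwa [Matrix.mulVec_mulVec, Matrix.mulVec_mulVec, h, Matrix.one_mulVec,
    Matrix.one_mulVec] at h2

private theorem NFX_E {g : ℕ} (T : Matrix (Ix α β Unit) (Fin g) ℂ) (z z' : Fin g → ℂ) :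
    (star (NFX_phi T z') ⬝ᵥ (Jm α β).mulVec (NFX_phi T z)).im =
      (H (T.mulVec z) (T.mulVec z')).im := by
  rw [NFX_Jm]
  unfold H dotProduct
  rw [Fintype.sum_prod_type]
  simp only [Finset.univ_unique, Finset.sum_singleton]
  rw [Fintype.sum_sum_type, Fintype.sum_sum_type, Complex.add_im, Complex.add_im]
  congr 1
  · congr 1
    apply Finset.sum_congr rfl
    intro i _
    rw [Matrix.mulVec_diagonal, Pi.star_apply, NFX_phi_apply, NFX_phi_apply]
    simp only [sw, Sum.elim_inl]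
    change conj (T.mulVec z' (Sum.inl i, ())) * (1 * T.mulVec z (Sum.inl i, ())) =
      T.mulVec z (Sum.inl i, ()) * conj (T.mulVec z' (Sum.inl i, ()))
    ring
  · rw [Complex.im_sum, Complex.im_sum]
    apply Finset.sum_congr rfl
    intro j _
    rw [Matrix.mulVec_diagonal, Pi.star_apply, NFX_phi_apply, NFX_phi_apply]
    simp only [sw, Sum.elim_inr]
    change (conj (conj (T.mulVec z' (Sum.inr j, ()))) *
      (-1 * conj (T.mulVec z (Sum.inr j, ())))).im =
      (T.mulVec z (Sum.inr j, ()) * conj (T.mulVec z' (Sum.inr j, ()))).im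
    rw [Complex.conj_conj]
    simp only [Complex.mul_im, Complex.mul_re, Complex.neg_re, Complex.neg_im, Complex.one_re,
      Complex.one_im, Complex.conj_re, Complex.conj_im]
    ring

private theorem NFX_mu (g : Matrix (α ⊕ β) (α ⊕ β) ℂ) (y : Ix α β Unit → ℂ) (s : α ⊕ β) :
    mu g y (s, ()) = g.mulVec (fun s' => y (s', ())) s := rfl


/-! ### The blocks -/

section blocks

variable {S : Type} [DecidableEq S]

private theorem NFX_bk_mul (pl : α ⊕ β → S) (s : S) (A B : Matrix (α ⊕ β) (α ⊕ β) ℂ)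
    (hB : IsB pl B) : bk pl s (A * B) = bk pl s A * bk pl s B := by
  ext p q
  obtain ⟨q, hq⟩ := q
  change (A * B) p.1 q = ∑ r : {r : α ⊕ β // pl r = s}, A p.1 r.1 * B r.1 q
  rw [Matrix.mul_apply, ← Fintype.sum_subtype_add_sum_subtype (fun r => pl r = s)
    (fun r => A p.1 r * B r q)]
  have h0 : ∑ r : {r : α ⊕ β // ¬ pl r = s}, A p.1 r.1 * B r.1 q = 0 := by
    refine Finset.sum_eq_zero (fun r _ => ?_)
    rw [hB r.1 q (by rw [hq]; exact r.2), mul_zero]
  rw [h0, add_zero]

private theorem NFX_bk_diag (pl : α ⊕ β → S) (s : S) (d : α ⊕ β → ℂ) :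
    bk pl s (Matrix.diagonal d) = Matrix.diagonal fun p => d p.1 := by
  unfold bk
  rw [Matrix.submatrix_diagonal _ _ Subtype.val_injective]
  rfl

private theorem NFX_isB_diag (pl : α ⊕ β → S) (d : α ⊕ β → ℂ) : IsB pl (Matrix.diagonal d) := by
  intro p q h
  exact Matrix.diagonal_apply_ne _ (fun h' => h (by rw [h']))

private theorem NFX_dt (pl : α ⊕ β → S) (s : S) (g : Matrix (α ⊕ β) (α ⊕ β) ℂ) (hg : IsU g)
    (hb : IsB pl g) : conj (dt pl s g) * dt pl s g = 1 := by
  have h0 : bk pl s (g.conjTranspose * Jm α β * g) =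
      (bk pl s g).conjTranspose * bk pl s (Jm α β) * bk pl s g := by
    rw [NFX_bk_mul pl s _ _ hb, NFX_bk_mul pl s _ (Jm α β) (by
      rw [NFX_Jm]; exact NFX_isB_diag pl _)]
    rfl
  have hg' : g.conjTranspose * Jm α β * g = Jm α β := hg
  rw [hg'] at h0
  have hJ : (bk pl s (Jm α β)).det ≠ 0 := by
    rw [NFX_Jm, NFX_bk_diag, Matrix.det_diagonal, Finset.prod_ne_zero_iff]
    rintro ⟨i | j, h⟩ _
    · simp
    · simp
  have h1 := congrArg Matrix.det h0
  rw [Matrix.det_mul, Matrix.det_mul, Matrix.det_conjTranspose] at h1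
  have h2 : (bk pl s (Jm α β)).det * (conj (dt pl s g) * dt pl s g) =
      (bk pl s (Jm α β)).det * 1 := by
    rw [mul_one]
    unfold dt
    calc (bk pl s (Jm α β)).det * (conj (bk pl s g).det * (bk pl s g).det) =
        star (bk pl s g).det * (bk pl s (Jm α β)).det * (bk pl s g).det := by
          rw [← starRingEnd_apply]; ring
      _ = (bk pl s (Jm α β)).det := h1.symm
  exact mul_left_cancel₀ hJ h2

/-- the diagonal matrix which corrects the determinants -/
private theorem NFX_dv (pl : α ⊕ β → S) (g : Matrix (α ⊕ β) (α ⊕ β) ℂ) (hg : IsU g)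
    (hb : IsB pl g) : ∃ dv : α ⊕ β → ℂ, (∀ p, conj (dv p) * dv p = 1) ∧
      ∀ s, dt pl s (Matrix.diagonal dv * g) = 1 := by
  have key : ∀ s, ∃ d : {p : α ⊕ β // pl p = s} → ℂ, (∀ p, conj (d p) * d p = 1) ∧
      (∏ p, d p) * dt pl s g = 1 := by
    intro s
    have hdet := NFX_dt pl s g hg hb
    rcases isEmpty_or_nonempty {p : α ⊕ β // pl p = s} with hE | hN
    · refine ⟨fun _ => 1, fun p => by simp, ?_⟩
      unfold dt
      rw [Matrix.det_isEmpty]
      simp
    · obtain ⟨p0⟩ := hN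
      refine ⟨fun p => if p = p0 then conj (dt pl s g) else 1, ?_, ?_⟩
      · intro p
        by_cases hp : p = p0
        · simp only [hp, if_true, Complex.conj_conj]
          rw [mul_comm]
          exact hdet
        · simp [hp]
      · rw [Finset.prod_ite_eq' Finset.univ p0 (fun _ => conj (dt pl s g))]
        rw [if_pos (Finset.mem_univ _)]
        exact hdet
  choose d hd hd' using key
  refine ⟨fun p => d (pl p) ⟨p, rfl⟩, fun p => hd _ _, ?_⟩
  intro s
  have h1 : ∀ p : {p : α ⊕ β // pl p = s}, d (pl p.1) ⟨p.1, rfl⟩ = d s p := by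
    rintro ⟨p, rfl⟩
    rfl
  unfold dt
  rw [NFX_bk_mul pl s _ _ hb, NFX_bk_diag, Matrix.det_mul, Matrix.det_diagonal,
    Finset.prod_congr rfl (fun p _ => h1 p)]
  exact hd' s

/-- multiplication of the normal form by a diagonal unitary matrix -/
private theorem NFX_twist (X : AbVar) (K : Type) [Field K] [NumberField K] (φ : S → K →+* ℂ)
    (ρ : K →+* Module.End ℂ X.H1) (pl : α ⊕ β → S)
    (T : Matrix (Ix α β Unit) (Fin X.g) ℂ) (U : Matrix (Fin X.g) (Ix α β Unit) ℂ)
    (Tp : Matrix α α ℂ) (Tm : Matrix β β ℂ) (Ta : Matrix (Ix α β Unit) (Fin X.g) ℂ)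
    (g : Matrix (α ⊕ β) (α ⊕ β) ℂ) (n : ℕ) (e : α ⊕ β ≃ Fin n × S) (r : α ⊕ β → ℝ)
    (W : Submodule ℚ (Fin X.g → ℂ)) (R : K →+* Matrix (Fin X.g) (Fin X.g) ℂ)
    (hC : CrB K φ X.H R α β pl T U Tp Tm Ta)
    (hW : ∀ z, z ∈ W ↔ ∃ n : ℕ, n ≠ 0 ∧ (n : ℤ) • z ∈ X.Λ)
    (hR : ∀ x v, X.zz (ρ x v) = (R x).mulVec (X.zz v))
    (hg : IsU g) (hb : IsB pl g) (hep : ∀ p, (e p).2 = pl p) (hr : ∀ p, 0 < r p)
    (hra : ∀ p, IsAlgebraic ℚ (r p : ℂ))
    (hlat : ∀ z, z ∈ W ↔ ∃ a : Fin n → K,
      NFX_phi T z = g.mulVec fun p => (r p : ℂ) * φ (pl p) (a (e p).1))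
    (dv : α ⊕ β → ℂ) (hdv : ∀ s, conj (dv s) * dv s = 1)
    (hdet : ∀ s, dt pl s (Matrix.diagonal dv * g) = 1) :
    NFB X K φ ρ α β pl (PST.blk Unit (Matrix.diagonal fun i => dv (Sum.inl i))
        (Matrix.diagonal fun j => conj (dv (Sum.inr j))) * T)
      (U * PST.blk Unit (Matrix.diagonal fun i => conj (dv (Sum.inl i)))
        (Matrix.diagonal fun j => dv (Sum.inr j)))
      ((Matrix.diagonal fun i => dv (Sum.inl i)) * Tp)
      ((Matrix.diagonal fun j => conj (dv (Sum.inr j))) * Tm) Ta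
      (Matrix.diagonal dv * g) n e r := by
  have hdv' : ∀ s, dv s * conj (dv s) = 1 := fun s => by rw [mul_comm]; exact hdv s
  have hne : ∀ s, dv s ≠ 0 := by
    intro s h0
    have h1 := hdv s
    rw [h0, mul_zero] at h1
    exact zero_ne_one h1
  have hBB' : PST.blk Unit (Matrix.diagonal fun i : α => dv (Sum.inl i))
        (Matrix.diagonal fun j : β => conj (dv (Sum.inr j))) *
      PST.blk Unit (Matrix.diagonal fun i : α => conj (dv (Sum.inl i)))
        (Matrix.diagonal fun j : β => dv (Sum.inr j)) = 1 := by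
    rw [NFX_blk_diag, NFX_blk_diag, Matrix.diagonal_mul_diagonal, ← Matrix.diagonal_one]
    congr 1
    funext p
    obtain ⟨i | j, k⟩ := p
    · exact hdv' _
    · exact hdv _
  have hB'B : PST.blk Unit (Matrix.diagonal fun i : α => conj (dv (Sum.inl i)))
        (Matrix.diagonal fun j : β => dv (Sum.inr j)) *
      PST.blk Unit (Matrix.diagonal fun i : α => dv (Sum.inl i))
        (Matrix.diagonal fun j : β => conj (dv (Sum.inr j))) = 1 := by
    rw [NFX_blk_diag, NFX_blk_diag, Matrix.diagonal_mul_diagonal, ← Matrix.diagonal_one]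
    congr 1
    funext p
    obtain ⟨i | j, k⟩ := p
    · exact hdv _
    · exact hdv' _
  set B := PST.blk Unit (Matrix.diagonal fun i : α => dv (Sum.inl i))
    (Matrix.diagonal fun j : β => conj (dv (Sum.inr j))) with hB
  set B' := PST.blk Unit (Matrix.diagonal fun i : α => conj (dv (Sum.inl i)))
    (Matrix.diagonal fun j : β => dv (Sum.inr j)) with hB'
  have hBmul : ∀ (x : Ix α β Unit → ℂ) (p : Ix α β Unit), B.mulVec x p =
      Sum.elim (fun i : α => dv (Sum.inl i)) (fun j : β => conj (dv (Sum.inr j))) p.1 * x p := by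
    intro x p
    rw [hB, NFX_blk_diag, Matrix.mulVec_diagonal]
  have hBsw : ∀ (x : Ix α β Unit → ℂ) (s : α ⊕ β),
      sw (B.mulVec x) (s, ()) = dv s * sw x (s, ()) := by
    intro x s
    rcases s with i | j
    · change B.mulVec x (Sum.inl i, ()) = dv (Sum.inl i) * x (Sum.inl i, ())
      rw [hBmul]
      rfl
    · change conj (B.mulVec x (Sum.inr j, ())) = dv (Sum.inr j) * conj (x (Sum.inr j, ()))
      rw [hBmul, map_mul]
      change conj (conj (dv (Sum.inr j))) * conj (x (Sum.inr j, ())) = _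
      rw [Complex.conj_conj]
  refine ⟨?_, ?_, ?_, ?_, ?_, ?_, ?_, ?_, hC.alg, ?_, ?_, ?_, hdet, hep, hr, hra, ?_⟩
  · -- ts
    calc B * T * (U * B') = B * (T * U) * B' := by simp only [Matrix.mul_assoc]
      _ = 1 := by rw [hC.ts, Matrix.mul_one, hBB']
  · -- st
    calc U * B' * (B * T) = U * (B' * B) * T := by simp only [Matrix.mul_assoc]
      _ = 1 := by rw [hB'B, Matrix.mul_one, hC.st]
  · -- herm
    intro z w
    rw [hC.herm, ← Matrix.mulVec_mulVec, ← Matrix.mulVec_mulVec]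
    unfold H
    apply Finset.sum_congr rfl
    intro p _
    rw [hBmul, hBmul, map_mul]
    obtain ⟨i | j, k⟩ := p
    · change T.mulVec z (Sum.inl i, k) * conj (T.mulVec w (Sum.inl i, k)) =
        dv (Sum.inl i) * T.mulVec z (Sum.inl i, k) *
          (conj (dv (Sum.inl i)) * conj (T.mulVec w (Sum.inl i, k)))
      linear_combination (-(T.mulVec z (Sum.inl i, k) * conj (T.mulVec w (Sum.inl i, k)))) *
        hdv (Sum.inl i)
    · change T.mulVec z (Sum.inr j, k) * conj (T.mulVec w (Sum.inr j, k)) =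
        conj (dv (Sum.inr j)) * T.mulVec z (Sum.inr j, k) *
          (conj (conj (dv (Sum.inr j))) * conj (T.mulVec w (Sum.inr j, k)))
      rw [Complex.conj_conj]
      linear_combination (-(T.mulVec z (Sum.inr j, k) * conj (T.mulVec w (Sum.inr j, k)))) *
        hdv (Sum.inr j)
  · -- dp
    rw [Matrix.det_mul, Matrix.det_diagonal]
    exact mul_ne_zero (Finset.prod_ne_zero_iff.2 fun i _ => hne _) hC.dp
  · -- dm
    rw [Matrix.det_mul, Matrix.det_diagonal]
    exact mul_ne_zero (Finset.prod_ne_zero_iff.2 fun j _ => by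
      rw [Ne, map_eq_zero]; exact hne _) hC.dm
  · -- bp
    intro i i' h
    rw [Matrix.diagonal_mul, hC.bp i i' h, mul_zero]
  · -- bm
    intro j j' h
    rw [Matrix.diagonal_mul, hC.bm j j' h, mul_zero]
  · -- fac
    calc B * T = B * (PST.blk Unit Tp Tm * Ta) := by rw [← hC.fac]
      _ = _ := by rw [← Matrix.mul_assoc, hB, NFX_blk_mul]
  · -- jj
    intro x v
    rw [← Matrix.mulVec_mulVec, ← Matrix.mulVec_mulVec, hR, hC.jj, Matrix.mulVec_mulVec,
      Matrix.mulVec_mulVec _ _ B]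
    congr 1
    rw [hB, NFX_blk_diag, rgB, Matrix.diagonal_mul_diagonal, Matrix.diagonal_mul_diagonal]
    congr 1
    funext p
    ring
  · -- uni
    unfold IsU
    have h1 : (Matrix.diagonal dv).conjTranspose * Jm α β * Matrix.diagonal dv = Jm α β := by
      rw [Matrix.diagonal_conjTranspose, NFX_Jm, Matrix.diagonal_mul_diagonal,
        Matrix.diagonal_mul_diagonal]
      congr 1
      funext s
      change conj (dv s) * _ * dv s = _
      linear_combination (Sum.elim (fun _ : α => (1 : ℂ)) (fun _ : β => (-1 : ℂ)) s) * hdv s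
    calc (Matrix.diagonal dv * g).conjTranspose * Jm α β * (Matrix.diagonal dv * g)
        = g.conjTranspose * ((Matrix.diagonal dv).conjTranspose * Jm α β * Matrix.diagonal dv) *
          g := by rw [Matrix.conjTranspose_mul]; simp only [Matrix.mul_assoc]
      _ = Jm α β := by rw [h1]; exact hg
  · -- blk
    intro p q h
    rw [Matrix.diagonal_mul, hb p q h, mul_zero]
  · -- lat
    intro z
    rw [← hW, hlat]
    apply exists_congr
    intro a
    set v : α ⊕ β → ℂ := fun p => (r p : ℂ) * φ (pl p) (a (e p).1) with hv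
    have h2 : ∀ s, sw (act (Matrix.diagonal dv * g) (vc pl φ e r a)) (s, ()) =
        dv s * g.mulVec v s := by
      intro s
      unfold act vc
      rw [NFX_sw_sw, NFX_sw_sw, NFX_mu, ← Matrix.mulVec_mulVec, Matrix.mulVec_diagonal]
    constructor
    · intro h
      apply NFX_sw_inj
      funext p
      obtain ⟨s, k⟩ := p
      cases k
      rw [h2, ← Matrix.mulVec_mulVec, hBsw, ← NFX_phi_apply, h]
    · intro h
      funext s
      have h3 : sw ((B * T).mulVec z) (s, ()) = dv s * g.mulVec v s := by rw [h]; exact h2 s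
      rw [← Matrix.mulVec_mulVec, hBsw] at h3
      rw [NFX_phi_apply]
      exact mul_left_cancel₀ (hne s) h3

end blocks

end

theorem thm_NFX (hAn : St_AnB) (hBas : St_BasB) (hOrt : St_OrtB) : St_NFX := by
  intro X K _ _ c S _ _ φ t ρ hK hX
  obtain ⟨W, R, hL, hW, hR⟩ := hAn X K c ρ hX
  obtain ⟨α, β, i1, i2, i3, i4, pl, T, U, Tp, Tm, Ta, hC⟩ :=
    hBas X.g K c S φ t X.H W R hK hL
  have hinj := NFX_phi_inj T U hC.st
  -- the image of the lattice
  set ψ : (Fin X.g → ℂ) →ₗ[ℚ] (α ⊕ β → ℂ) := (NFX_phi T).restrictScalars ℚ with hψ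
  have hφa : ∀ z, ψ z = NFX_phi T z := fun z => rfl
  have hφi : Function.Injective ψ := hinj
  have hmem : ∀ z, ψ z ∈ W.map ψ ↔ z ∈ W := by
    intro z
    constructor
    · intro h
      obtain ⟨w, hw, he⟩ := Submodule.mem_map.1 h
      rw [← hφi he]
      exact hw
    · intro h
      exact Submodule.mem_map_of_mem h
  have hstab : ∀ x, ∀ w ∈ W.map ψ, (fun p => φ (pl p) x * w p) ∈ W.map ψ := by
    intro x w hw
    obtain ⟨z, hz, rfl⟩ := Submodule.mem_map.1 hw
    have h4 : (fun p => φ (pl p) x * ψ z p) = ψ ((R x).mulVec z) := by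
      funext s
      rw [hφa, hφa, NFX_phi_apply, NFX_phi_apply, hC.jj, rgB]
      rcases s with i | j
      · change φ (pl (Sum.inl i)) x * T.mulVec z (Sum.inl i, ()) =
          (Matrix.diagonal _).mulVec (T.mulVec z) (Sum.inl i, ())
        rw [Matrix.mulVec_diagonal]
        rfl
      · change φ (pl (Sum.inr j)) x * conj (T.mulVec z (Sum.inr j, ())) =
          conj ((Matrix.diagonal _).mulVec (T.mulVec z) (Sum.inr j, ()))
        rw [Matrix.mulVec_diagonal, map_mul]
        change φ (pl (Sum.inr j)) x * conj (T.mulVec z (Sum.inr j, ())) =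
          conj (conj (φ (pl (Sum.inr j)) x)) * conj (T.mulVec z (Sum.inr j, ()))
        rw [Complex.conj_conj]
    rw [h4]
    exact Submodule.mem_map_of_mem (hL.stab x z hz)
  have hcard : Fintype.card (Ix α β Unit) = Fintype.card (Fin X.g) :=
    Matrix.square_of_invertible T U hC.ts hC.st
  have hcard' : Fintype.card (Fin X.g) = Fintype.card (α ⊕ β) := by
    rw [← hcard, Fintype.card_prod, Fintype.card_unit, mul_one]
  set eqv : Fin X.g ≃ α ⊕ β := Fintype.equivOfCardEq hcard' with heqv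
  obtain ⟨b, hb⟩ := hL.basis
  set e : W ≃ₗ[ℚ] W.map ψ := Submodule.equivMapOfInjective ψ hφi W with he
  have hb' : LinearIndependent ℝ fun i =>
      ((((b.map e).reindex (Equiv.sumCongr eqv eqv)) i : W.map ψ) : α ⊕ β → ℂ) := by
    have h4 : LinearIndependent ℝ (fun i => NFX_phi T (b i : Fin X.g → ℂ)) :=
      hb.map' (NFX_phi T) (LinearMap.ker_eq_bot.2 hinj)
    have h5 := h4.comp (Equiv.sumCongr eqv eqv).symm (Equiv.sumCongr eqv eqv).symm.injective
    have h6 : (fun i => ((((b.map e).reindex (Equiv.sumCongr eqv eqv)) i : W.map ψ) :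
        α ⊕ β → ℂ)) = (fun i => NFX_phi T (b i : Fin X.g → ℂ)) ∘
        (Equiv.sumCongr eqv eqv).symm := by
      funext i
      rw [Basis.reindex_apply, Basis.map_apply, he,
        Submodule.coe_equivMapOfInjective_apply]
      rfl
    rw [h6]
    exact h5
  have hrat : ∀ w ∈ W.map ψ, ∀ w' ∈ W.map ψ,
      ∃ q : ℚ, (star w' ⬝ᵥ (Jm α β).mulVec w).im = q := by
    intro w hw w' hw'
    obtain ⟨z, hz, rfl⟩ := Submodule.mem_map.1 hw
    obtain ⟨z', hz', rfl⟩ := Submodule.mem_map.1 hw'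
    obtain ⟨q, hq⟩ := hL.rat z hz z' hz'
    refine ⟨q, ?_⟩
    rw [hφa, hφa, NFX_E, ← hC.herm]
    exact hq
  obtain ⟨g, n, e', r, hg, hgb, hep, hr, hra, hlat⟩ :=
    hOrt α β K c S φ t pl (W.map ψ) hK hstab ⟨_, hb'⟩ hrat
  have hlat' : ∀ z, z ∈ W ↔ ∃ a : Fin n → K,
      NFX_phi T z = g.mulVec fun p => (r p : ℂ) * φ (pl p) (a (e' p).1) := by
    intro z
    rw [← hmem, hlat]
    rfl
  obtain ⟨dv, hdv, hdet⟩ := NFX_dv pl g hg hgb
  exact ⟨α, β, i1, i2, i3, i4, pl, _, _, _, _, Ta, _, n, e', r,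
    NFX_twist X K φ ρ pl T U Tp Tm Ta g n e' r W R hC hW hR hg hgb hep hr hra hlat' dv hdv hdet⟩

end WPP
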