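import Pool.Agent.Helper8.T1.Types
import Pool.Agent.Helper39.AF.Defs1

/-!
Classes invariant under the derived algebra of the Lefschetz Lie algebra, the centre of the
endomorphism algebra, Weil classes.
-/

namespace Pool.Agent.GPC

/-- `f` is an infinitesimal automorphism of `H_1(X, ℂ)` which commutes with the endomorphisms of `X`
(tensor `ℚ`), preserves the polarisation, and has reduced trace zero: the trace of `f h` is zero for
every `h` in the centre of the algebra of endomorphisms (tensor `ℚ`). -/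
structure AbVar.IsLefDer (X : AbVar) (f : X.H1 →ₗ[ℂ] X.H1) : Prop where
  comm : ∀ h, X.IsEnd h → ∀ v, f (h v) = h (f v)
  skew : ∀ u v, X.pol (f u) v + X.pol u (f v) = 0
  trace : ∀ h : X.H1 →ₗ[ℂ] X.H1, X.IsEnd h → (∀ h', X.IsEnd h' → ∀ v, h (h' v) = h' (h v)) →
    LinearMap.trace ℂ X.H1 (f ∘ₗ h) = 0

/-- The class `α` is killed by all `f` as in `IsLefDer`. -/
def AbVar.IsLefInvariant (X : AbVar) {m : ℕ} (α : X.Class m) : Prop :=
  ∀ f, X.IsLefDer f → ∀ v : Fin m → X.H1, ∑ r, α (Function.update v r (f (v r))) = 0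

/-- The number field `K` is the centre of the algebra of endomorphisms (tensor `ℚ`) of `B`. -/
structure AbVar.IsCentre (B : AbVar) (K : Type) [Field K] [NumberField K]
    (ρ : K → B.H1 → B.H1) : Prop where
  one : ∀ v, ρ 1 v = v
  mul : ∀ x y v, ρ (x * y) v = ρ x (ρ y v)
  add : ∀ x y v, ρ (x + y) v = ρ x v + ρ y v
  endo : ∀ x, B.IsEnd (ρ x)
  cen : ∀ x f, B.IsEnd f → ∀ v, f (ρ x v) = ρ x (f v)
  all : ∀ h, B.IsEnd h → (∀ f, B.IsEnd f → ∀ v, h (f v) = f (h v)) → ∃ x, ∀ v, h v = ρ x v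

/-- For every simple factor of `X` the centre of the algebra of endomorphisms (tensor `ℚ`) is an
abelian extension of `ℚ`. -/
def AbVar.HasAbelianCentre (X : AbVar) : Prop :=
  ∀ B : AbVar, B.IsSimpleFactor X → ∃ (K : Type) (_ : Field K) (_ : NumberField K)
    (ρ : K → B.H1 → B.H1), IsAbelianGalois ℚ K ∧ B.IsCentre K ρ

/-- The CM field `K` acts on `H_1(X)` through endomorphisms of `X` (tensor `ℚ`), and the Rosati
involution is complex conjugation on `K`. -/
structure AbVar.IsCMAction (X : AbVar) (K : Type) [Field K] [NumberField K]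
    [NumberField.IsCMField K] (ρ : K → X.H1 → X.H1) : Prop where
  one : ∀ v, ρ 1 v = v
  mul : ∀ x y v, ρ (x * y) v = ρ x (ρ y v)
  add : ∀ x y v, ρ (x + y) v = ρ x v + ρ y v
  endo : ∀ x, X.IsEnd (ρ x)
  rosati : ∀ x, X.IsAdjoint (ρ x) (ρ (cmConj K x))

/-- `α` is a Weil class for the action `ρ` of `K`, with `H_1(X, ℚ)` of dimension `2k` over `K`: it is
`K`-linear in all its arguments, i.e. it is in the image of `⋀^{2k}_K H^1(X, ℚ)`. -/
structure AbVar.IsWeilFor (X : AbVar) (K : Type) [Field K] [NumberField K]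
    (ρ : K → X.H1 → X.H1) (k : ℕ) (α : X.Class (2 * k)) : Prop where
  rank : k * Module.finrank ℚ K = X.g
  lin : ∀ x v r s, α (Function.update v r (ρ x (v r))) = α (Function.update v s (ρ x (v s)))

end Pool.Agent.GPC
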