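import Pool.Agent.WPP.StN
import Pool.Agent.WPP.Types
import Pool.Agent.Helper20.Hodge
import Pool.Agent.Helper39.AF.Transfer
import Pool.Agent.Helper83.Ball.Types
import Pool.Agent.Helper8.D.Types

/-!
# WPP: frozen statements, from the exponents to the classes

Architect helper99. Every `def St_X : Prop` is a module; its docstring is the proof. Prove it in a
file `Pool/Agent/WPP/X.lean` as `theorem thm_X : St_X` (namespace `WPP`); other statements of the
campaign which are used are hypotheses of the theorem. We write: `proj ρ σ` is the projector to the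
eigenspace of `σ` (`Pool/Agent/Helper7/Eigen.lean`: `rho_eq_sum`, `sum_proj`, `rho_mul_proj`,
`proj_mul_proj`, `sum_dbas_bas`), `hod A` the Hodge projector with kernel `F^0`
(`Pool/Agent/Helper20/Hodge.lean`: `hod_idem`, `hod_fil`, `psi_hod`, `hod_comm`, `hod_comm_end`),
`pData A` the data of `A` (`Pool/Agent/Helper7/Bridge2.lean`), `lift n f` the slotwise action
(`Pool/Agent/Helper7/GQ.lean`). `(pData A).ψ u v = A.pol u v` by `rfl`.
-/

set_option autoImplicit false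
set_option linter.unusedVariables false

namespace WPP

open scoped ComplexConjugate
open GAM (CMF CMT IsExp)
open Pool.Agent.GPC
open Pool.Agent.Helper7 (pData proj lift hod)
open Module

section defs

variable {I : Type} [Fintype I] [DecidableEq I]

/-- The labels. -/
abbrev Lb (K : I → Type) [∀ i, Field (K i)] : Type := Σ i, (K i →+* ℂ)

/-- The action of an automorphism of `ℂ` on the labels. -/
def tw (K : I → Type) [∀ i, Field (K i)] (τ : ℂ ≃+* ℂ) (t : Lb K) : Lb K :=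
  ⟨t.1, (τ : ℂ →+* ℂ).comp t.2⟩

/-- The conjugate label. -/
def cj (K : I → Type) [∀ i, Field (K i)] (c : ∀ i, K i →+* K i) (t : Lb K) : Lb K :=
  ⟨t.1, t.2.comp (c t.1)⟩

/-- The projector of `H_1(∏ A_i^{n_i})` to the label `t`. -/
noncomputable def prE (A : I → AbVar) (n : I → ℕ) (K : I → Type) [∀ i, Field (K i)]
    [∀ i, NumberField (K i)] (ρ : ∀ i, K i →+* Module.End ℂ (A i).H1) (t : Lb K) :
    Module.End ℂ (H1 A n) :=
  lift n (Function.update (fun _ => 0) t.1 (proj (ρ t.1) t.2))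

/-- The odd integral weight of a tuple of labels, `2 ∏ d` times the weight. -/
noncomputable def zw {K : I → Type} [∀ i, Field (K i)] [∀ i, NumberField (K i)]
    (c : ∀ i, K i →+* K i) (d : I → ℕ) {m : ℕ} (w : Fin m → Lb K) (x : Lb K) : ℤ := by
  classical
  exact (∏ j ∈ Finset.univ.erase x.1, (d j : ℤ)) *
    ((Finset.univ.filter fun r => w r = x).card - (Finset.univ.filter fun r => w r = cj K c x).card)

/-- The tuple of labels `w` occurs in `α`. -/
def Occ (A : I → AbVar) (n : I → ℕ) (K : I → Type) [∀ i, Field (K i)]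
    [∀ i, NumberField (K i)] (ρ : ∀ i, K i →+* Module.End ℂ (A i).H1) {m : ℕ} (α : Form A n m)
    (w : Fin m → Lb K) : Prop :=
  ∃ v : Fin m → H1 A n, α (fun r => prE A n K ρ (w r) (v r)) ≠ 0

/-- The centre `K` of the algebra of endomorphisms of `A`, with the Rosati involution `c`. -/
structure CenR (A : AbVar) (K : Type) [Field K] [NumberField K] (c : K →+* K)
    (ρ : K →+* Module.End ℂ A.H1) : Prop where
  kr : IsKr A K c ρ
  cen : ∀ x f, A.IsEnd f → ∀ v, f (ρ x v) = ρ x (f v)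
  all : ∀ h, A.IsEnd h → (∀ f, A.IsEnd f → ∀ v, h (f v) = f (h v)) → ∃ x, ∀ v, h v = ρ x v
  cc : ∀ (σ : K →+* ℂ) x, conj (σ x) = σ (c x)

/-- The operator `f` commutes with the endomorphisms, and `f` is compatible with the polarisation with
multiplier `μ`. -/
structure IsMTo (A : AbVar) (f : Module.End ℂ A.H1) (μ : ℂ) : Prop where
  comm : ∀ h, A.IsEnd h → ∀ v, f (h v) = h (f v)
  pol : ∀ u v, A.pol (f u) v + A.pol u (f v) = μ * A.pol u v

/-- The data for a family. -/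
structure FamD (A : I → AbVar) (n : I → ℕ) (K : I → Type) [∀ i, Field (K i)]
    [∀ i, NumberField (K i)] (c : ∀ i, K i →+* K i) (ρ : ∀ i, K i →+* Module.End ℂ (A i).H1)
    (d : I → ℕ) (k : ℕ) (α : Form A n (2 * k)) : Prop where
  cen : ∀ i, CenR (A i) (K i) (c i) (ρ i)
  pos : ∀ i, d i ≠ 0
  tr : ∀ i σ, LinearMap.trace ℂ (A i).H1 (proj (ρ i) σ) = d i
  lef : ∀ f, (∀ i, (A i).IsLefDer (f i)) → ∀ v : Fin (2 * k) → H1 A n,
    ∑ r, α (Function.update v r (lift n f (v r))) = 0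
  gr : IsGrothendieck A n k α

end defs

/-! ## One abelian variety -/

/-- [PrT] traces and adjoints of the projectors. PROOF. (1) `Pool.Agent.Helper7.exists_Kbasis`
(`Pool/Agent/Helper7/Local.lean`, with `exists_rank`, `card_index`, as in
`Pool.Agent.Helper71.AF.exists_eig`) gives `d` and a basis `eb (σ, j)`, `j : Fin d`, of `H_1` with
`eb (σ, j) = proj ρ σ (lam j)`; by `proj_mul_proj` `proj ρ σ` is diagonal in this basis, trace `d`.
(2) If `A.g = 0` everything is trivial. Otherwise `ρ` is injective, and `ρ (c (c x)) = ρ x` by `adj`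
twice and antisymmetry and nondegeneracy of `pol` (`(pData A).hψalt`, `hψnd`), so `c (c x) = x`. The adjoint
of `proj ρ σ = ∑_b σ(dbas b) ρ(bas b)` is `∑_b σ(dbas b) ρ(c (bas b)) = ∑_b ∑_τ σ(dbas b) τ(c (bas b)) proj ρ τ`
(`rho_eq_sum`) `= ∑_τ [σ = τ ∘ c] proj ρ τ` (`sum_dbas_bas`) `= proj ρ (σ ∘ c)`.
(3) The adjoint of `f * proj ρ σ` for `pol` is `proj ρ (σ ∘ c) * (μ - f)`; the trace of the adjoint for a
nondegenerate form is the trace; use (1) and `trace (a * b) = trace (b * a)`. -/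
def St_PrT : Prop := ∀ (A : AbVar) (K : Type) [Field K] [NumberField K] (c : K →+* K)
  (ρ : K →+* Module.End ℂ A.H1), IsKr A K c ρ →
  ∃ d : ℕ, d * finrank ℚ K = 2 * A.g ∧ (∀ σ, LinearMap.trace ℂ A.H1 (proj ρ σ) = d) ∧
    (∀ (σ : K →+* ℂ) u v, A.pol (proj ρ σ u) v = A.pol u (proj ρ (σ.comp c) v)) ∧
    ∀ (f : Module.End ℂ A.H1) (μ : ℂ), (∀ x v, f (ρ x v) = ρ x (f v)) →
      (∀ u v, A.pol (f u) v + A.pol u (f v) = μ * A.pol u v) → ∀ σ : K →+* ℂ,
      LinearMap.trace ℂ A.H1 (f * proj ρ σ) + LinearMap.trace ℂ A.H1 (f * proj ρ (σ.comp c)) =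
        μ * d

/-- [EgF] the dimension of `F^0` in an eigenspace. PROOF. `hod A` commutes with `ρ x`
(`hod_comm_end`), so with `proj ρ σ`; `(1 - hod A) * proj ρ σ` is a projector (idempotent) with the
range `{v | (∀ x, ρ x v = σ x • v) ∧ A.IsFil v}` (`hod_fil`; `ρ x v = σ x v` for all `x` iff `proj ρ σ v = v`),
which is a subspace, equal to `eigenFil`. The trace of a projector is the dimension of its range
(`LinearMap.IsProj.trace` or `LinearMap.trace_eq_finrank...`/ `IsIdempotentElem`). -/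
def St_EgF : Prop := ∀ (A : AbVar) (K : Type) [Field K] [NumberField K]
  (ρ : K →+* Module.End ℂ A.H1) (σ : K →+* ℂ), (∀ x, A.IsEnd (ρ x)) →
  (finrank ℂ (A.eigenFil (fun x v => ρ x v) σ) : ℂ) +
    LinearMap.trace ℂ A.H1 (hod A * proj ρ σ) = LinearMap.trace ℂ A.H1 (proj ρ σ)

/-- [TorP] the torus part in terms of the projectors. PROOF (from `St_TorB`, `St_PrT`, `St_AnB`). Take
`S, n, Φ, A` from `St_TorB`. Write `t σ = trace (N δ * proj ρ σ)`, `a j s = 2 A δ j s - δπ/π`.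
First formula: for `y : K` and `x = y - c y` (`c x = -x`, because `c (c y) = y`, which follows from
`CMF.cc` and injectivity of an embedding) `∑_σ σ(x) t σ = ∑_j ∑_s Φ_j s (x) a j s` (`rho_eq_sum`). Take
`y = bas b`, multiply by `σ₀ (dbas b)` and sum over `b` (`sum_dbas_bas`):
`t σ₀ - t (σ₀ ∘ c) = ∑_j ∑_s ([Φ_j s = σ₀] - [Φ_j s = σ₀ ∘ c]) a j s`. Multiply by `z σ₀`, sum over `σ₀`,
`z` odd: both sides are twice the sides of the formula. (`σ ↦ σ ∘ c` is an involution.)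
Second formula: the trace of `hod X * ρ x` on `H_1` is the trace of the matrix `M` of `ρ x` on
`Lie X` (`X.zz (ρ x v) = M.mulVec (X.zz v)`; `M` exists by `St_AnB`): `hod X v` depends only on `X.zz v`,
`hod X = s ∘ X.zz` with `X.zz ∘ s = id` (`zz_hod`; `X.zz` is onto, e.g. `X.zz (X.period z) = z`), and
`trace (s ∘ zz ∘ ρ x) = trace (zz ∘ ρ x ∘ s) = trace (M ∘ zz ∘ s) = M.trace`
(`LinearMap.trace_comp_comm'`). So by the last clause of `St_TorB`
`∑_σ σ(x) trace(hod X * proj ρ σ) = ∑_j ∑_s Φ_j s (x)` for all `x`; with `sum_dbas_bas` as before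
`trace(hod X * proj ρ σ₀) = ∑_j ∑_s [Φ_j s = σ₀]`. -/
def St_TorP : Prop := ∀ (X : AbVar) (K : Type) [Field K] [NumberField K] (c : K →+* K)
  (ρ : K →+* Module.End ℂ X.H1), CMF K c → IsKr X K c ρ →
  ∃ (S : Type) (_ : Fintype S) (_ : DecidableEq S) (n : ℕ) (Φ : Fin n → S → K →+* ℂ)
    (A : Derivation ℚ ℂ ℂ → Fin n → S → ℂ), (∀ j, CMT K c (Φ j)) ∧
    (∀ δ j, IsExp δ K (Φ j) (A δ j)) ∧
    (∀ δ (z : (K →+* ℂ) → ℤ), (∀ σ, z (σ.comp c) = - z σ) →
      ∑ σ, (z σ : ℂ) * LinearMap.trace ℂ X.H1 ((pData X).N δ * proj ρ σ) =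
        ∑ j, ∑ s, (z (Φ j s) : ℂ) * (2 * A δ j s - δ Real.pi / Real.pi)) ∧
    ∀ z : (K →+* ℂ) → ℤ, ∑ σ, (z σ : ℂ) * LinearMap.trace ℂ X.H1 (hod X * proj ρ σ) =
      ∑ j, ∑ s, (z (Φ j s) : ℂ)

/-- [TorI] families. PROOF (from `St_TorP`, `GAM.St_Bal`, `St_BalF`). If `c i = id` then `z ⟨i, σ⟩ = 0`
for all `σ`, the terms are zero; so sum only over the subtype `I' = {i // CMF (K i) (c i)}`. For `i : I'` take
`S i, n i, Φ i, A i` from `St_TorP`. For all `τ` the function `z_τ ⟨i, σ⟩ = z ⟨i, τ ∘ σ⟩` is odd. Let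
`J = Σ i : I', Fin (n i)`, `K' ⟨i, j⟩ = K i` etc., `z' ⟨⟨i, j⟩, σ⟩ = z ⟨i, σ⟩`. By the first formula of
`St_TorP` the hypothesis is `∑_J ∑_s z'(τ φ s) (2 A - δπ/π) = 0` for all `τ`, `δ`; by the second formula
the value at the Hodge projector is `∑_J ∑_s z'(τ φ s)`. Apply `GAM.All.Bal_` or `BalF_`
(`Pool/Agent/WPP/BalF.lean`) with the index set `J`. -/
def St_TorI : Prop := ∀ (I : Type) [Fintype I] (A : I → AbVar) (K : I → Type)
  [∀ i, Field (K i)] [∀ i, NumberField (K i)] (c : ∀ i, K i →+* K i)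
  (ρ : ∀ i, K i →+* Module.End ℂ (A i).H1) (z : Lb K → ℤ), (∀ i, IsKr (A i) (K i) (c i) (ρ i)) →
  (∀ i, c i = RingHom.id (K i) ∨ CMF (K i) (c i)) → (∀ t, z (cj K c t) = - z t) →
  (∀ (τ : ℂ ≃+* ℂ) (δ : Derivation ℚ ℂ ℂ), ∑ t : Lb K, (z (tw K τ t) : ℂ) *
    LinearMap.trace ℂ (A t.1).H1 ((pData (A t.1)).N δ * proj (ρ t.1) t.2) = 0) →
  ((∀ i, CMF (K i) (c i) → IsGalois ℚ (K i) ∧ ∀ g g' : K i ≃ₐ[ℚ] K i, g * g' = g' * g) ∨
    ∃ N : ℤ, ∀ τ : ℂ ≃+* ℂ, ∃ e : ℤ, (e = 0 ∨ e = N ∨ e = -N) ∧ ∑ t : Lb K, (z (tw K τ t) : ℂ) *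
      LinearMap.trace ℂ (A t.1).H1 (hod (A t.1) * proj (ρ t.1) t.2) = e) →
  ∑ t : Lb K, (z t : ℂ) * LinearMap.trace ℂ (A t.1).H1 (hod (A t.1) * proj (ρ t.1) t.2) = 0

/-- [TorA] one CM field, abelian over `ℚ` (interface for part (II)). PROOF. `St_TorI` with `I = Unit`,
`c` = complex conjugation of `Z` as a ring homomorphism (`cmConj Z x`,
`NumberField.IsCMField.complexEmbedding_complexConj`: `σ (c x) = conj (σ x)`, so `CMF Z c`, and `σ ∘ c` is
the conjugate embedding; `c ≠ id` because `Z` is totally complex), `z ⟨(), σ⟩ = w σ`. By `St_EgF` and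
`St_PrT` `trace (hod * proj σ) = d - finrank eigenFil`, and `∑ w σ * d = 0` because `w` is odd. -/
def St_TorA : Prop := ∀ (A : AbVar) (Z : Type) [Field Z] [NumberField Z]
  [NumberField.IsCMField Z] [IsGalois ℚ Z], (∀ g h : Z ≃ₐ[ℚ] Z, g * h = h * g) →
  ∀ R : Z →+* Module.End ℂ A.H1, (∀ x, A.IsEnd (R x)) →
  (∀ x, A.IsAdjoint (R x) (R (cmConj Z x))) → ∀ w : (Z →+* ℂ) → ℤ,
  (∀ s, w (NumberField.ComplexEmbedding.conjugate s) = - w s) →
  (∀ (t : ℂ ≃+* ℂ) (D : Derivation ℚ ℂ ℂ), ∑ s, (w ((t : ℂ →+* ℂ).comp s) : ℂ) *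
    LinearMap.trace ℂ A.H1 ((pData A).N D * proj R s) = 0) →
  ∑ s, w s * (finrank ℂ (A.eigenFil (fun x v => R x v) s) : ℤ) = 0

/-- [TorF] one CM field, three values (interface for part (II)). PROOF. As `St_TorA`, with the second
alternative of `St_TorI`. -/
def St_TorF : Prop := ∀ (A : AbVar) (Z : Type) [Field Z] [NumberField Z]
  [NumberField.IsCMField Z] (R : Z →+* Module.End ℂ A.H1), (∀ x, A.IsEnd (R x)) →
  (∀ x, A.IsAdjoint (R x) (R (cmConj Z x))) → ∀ (w : (Z →+* ℂ) → ℤ) (N : ℤ),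
  (∀ s, w (NumberField.ComplexEmbedding.conjugate s) = - w s) →
  (∀ (t : ℂ ≃+* ℂ) (D : Derivation ℚ ℂ ℂ), ∑ s, (w ((t : ℂ →+* ℂ).comp s) : ℂ) *
    LinearMap.trace ℂ A.H1 ((pData A).N D * proj R s) = 0) →
  (∀ t : ℂ ≃+* ℂ, ∃ e : ℤ, (e = 0 ∨ e = N ∨ e = -N) ∧
    ∑ s, w ((t : ℂ →+* ℂ).comp s) * (finrank ℂ (A.eigenFil (fun x v => R x v) s) : ℤ) = e) →
  ∑ s, w s * (finrank ℂ (A.eigenFil (fun x v => R x v) s) : ℤ) = 0

/-- [Cen] the centre. PROOF. `D = DD (pData A)` (`Pool/Agent/Helper71/AF/Alg.lean`) is a finite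
`ℚ`-algebra without zero divisors (`finite_DD`, `isDomain_DD` in `Helper71/AF/Cases.lean`), hence a
division ring (`divisionRingOfFiniteDimensional`); its centre is a subfield, commutative;
`Pool.Agent.Helper71.AF.field_of_subfield` (`Helper71/AF/Fld.lean`; compare the use in
`Pool/Agent/BSM/Fld.lean`, `Fld_abs`) gives `K` and `e : K →+* D`; `ρ x = e x`. -/
def St_Cen : Prop := ∀ A : AbVar, A.IsSimple → A.g ≠ 0 →
  ∃ (K : Type) (_ : Field K) (_ : NumberField K) (ρ : K → A.H1 → A.H1), A.IsCentre K ρ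

/-- [Ros] the Rosati involution on the centre. PROOF. Make `ρ` a ring homomorphism `ρ'` to
`Module.End ℂ A.H1` (linear because `IsEnd`). The adjoint of `ρ x` exists
(`Pool.Agent.Helper71.AF.exists_adj`, `isEnd_of_isDRB`), it is an endomorphism which commutes with all
endomorphisms `f` (take adjoints), so it is `ρ (c x)`; `ρ` is injective because `H_1 ≠ 0`, so `c` is a
ring homomorphism. `cc`: for an embedding `σ` there is `v ≠ 0` with `ρ x v = σ x • v` for all `x`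
(`Pool.Agent.Helper71.AF.exists_eig`); `Pool.Agent.Helper71.AF.eig_conj` for `f = ρ x`, `f' = ρ (c x)`. -/
def St_Ros : Prop := ∀ (A : AbVar) (K : Type) [Field K] [NumberField K]
  (ρ : K → A.H1 → A.H1), A.g ≠ 0 → A.IsCentre K ρ →
  ∃ (c : K →+* K) (ρ' : K →+* Module.End ℂ A.H1), (∀ x v, ρ' x v = ρ x v) ∧ CenR A K c ρ'

/-- [Zer] subtracting the central part. PROOF. Put `t σ = trace (f * proj ρ σ)`. The operator commutes
with endomorphisms (`proj ρ σ` is a linear combination of the `ρ x`, `cen`). Skew: by `St_PrT` (2) the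
polarisation pairs `proj ρ σ` with `proj ρ (σ ∘ c)`: `pol (s u) v + pol u (s v) =
∑_σ ((t σ + t (σ ∘ c)) / d) pol (proj ρ σ u) v = μ pol u v` for `s = ∑_σ (t σ / d) proj ρ σ` (`St_PrT` (3),
reindexing by the involution `σ ↦ σ ∘ c`, `sum_proj`). Trace: a central `h` is `ρ x` (`all`), and
`trace ((f - s) * ρ x) = ∑_σ σ(x) trace ((f - s) * proj ρ σ)`,
`trace (s * proj ρ σ) = (t σ / d) trace (proj ρ σ) = t σ`. -/
def St_Zer : Prop := ∀ (A : AbVar) (K : Type) [Field K] [NumberField K] (c : K →+* K)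
  (ρ : K →+* Module.End ℂ A.H1) (d : ℕ) (f : Module.End ℂ A.H1) (μ : ℂ), CenR A K c ρ →
  d ≠ 0 → (∀ σ, LinearMap.trace ℂ A.H1 (proj ρ σ) = d) → IsMTo A f μ →
  A.IsLefDer (f - ∑ σ, (LinearMap.trace ℂ A.H1 (f * proj ρ σ) / d) • proj ρ σ)

/-! ## Families -/

/-- [Lft] lifting. PROOF. Write `g = Φ⁻¹ ∘ lift n f ∘ Φ`. For a slot `(i, m)` let
`s_(i,m) : (A i).H1 → X.H1`, `u ↦ Φ⁻¹ (slotL n i m u)` and `q_(i,m) : X.H1 → (A i).H1`, `v ↦ Φ v i m`: both are
morphisms (`IsMor`: from `IsIsogeny`, `isMor_of` in `Helper39/AF/Mor.lean`), `v = ∑ s_(i,m) (q_(i,m) v)`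
(`sum_slot`), `q (g v) = f_i (q v)`, `g (s u) = s (f_i u)`. For a morphism `h : A j → A i`: `h = 0` if `i ≠ j`
(hypothesis), and it is an endomorphism of `A i` for `i = j`; so `f_i (h u) = h (f_j u)` for all `i, j`.
comm: `h` an endomorphism of `X`: `q_(i,m) (h (s_(j,m') u))` is a morphism in `u`, use the previous remark.
skew: `X.pol (s_(i,m) u) (s_(j,m') v) = (A i).pol u (s'_(i,m) (s_(j,m') v))` with the adjoint morphism `s'`
(`exists_adj_mor` in `Helper39/AF/Mor.lean`), and `s' ∘ s_(j,m')` is a morphism `A j → A i`.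
trace: `h` central: `trace (g ∘ h) = ∑_(i,m) trace (f_i ∘ q_(i,m) ∘ h ∘ s_(i,m))` (trace of a block
operator: `trace (∑ s q g h) = ∑ trace (q g h s)`, `LinearMap.trace_comp_comm'`), and
`h_(i,m) = q_(i,m) ∘ h ∘ s_(i,m)` is an endomorphism of `A i` commuting with all endomorphisms `e` of `A i`:
`s_(i,m) e q_(i,m)` is an endomorphism of `X`, commutes with `h`, and `q s = 1`. -/
def St_Lft : Prop := ∀ (X : AbVar) (I : Type) [Fintype I] [DecidableEq I] (A : I → AbVar)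
  (n : I → ℕ) (Φ : X.H1 ≃ₗ[ℂ] H1 A n), IsIsogeny X A n Φ →
  (∀ i j, i ≠ j → ∀ f, (A i).IsMor (A j) f → ∀ v, f v = 0) →
  ∀ f : ∀ i, Module.End ℂ (A i).H1, (∀ i, (A i).IsLefDer (f i)) →
  X.IsLefDer (Φ.symm.toLinearMap ∘ₗ lift n f ∘ₗ Φ.toLinearMap)

/-- [GalE] conjugate labels occur together. PROOF. PORT of `Pool/Agent/Helper8/T1/Gal.lean` (`gal_EE`,
`gal_ne`): there the labels contain the slot, here `prE` is the sum over the slots `m` of the operators
`slot i m ∘ proj σ`; `prE t = ∑_b σ(dbas b) • T_b` with the rational operators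
`T_b = lift n (Function.update 0 i (ρ (bas b)))` (independent of `σ`). Expand
`α (fun r => prE (w r) (v r))` for Betti vectors `v r` (they span `H1 A n` over `ℂ`: the basis `FBP`) as
`∑_b ∏_r σ_r (dbas b_r) * α (T_(b_r) v_r)`, the last factor is `(2πi)^k q`, and apply `τ`. -/
def St_GalE : Prop := ∀ (I : Type) [Fintype I] [DecidableEq I] (A : I → AbVar) (n : I → ℕ)
  (K : I → Type) [∀ i, Field (K i)] [∀ i, NumberField (K i)]
  (ρ : ∀ i, K i →+* Module.End ℂ (A i).H1) (k : ℕ) (α : Form A n (2 * k)),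
  (∀ i x, (A i).IsEnd (ρ i x)) → (∀ v : Fin (2 * k) → H1 A n, (∀ r, IsBetti A n (v r)) →
    ∃ q : ℚ, α v = (2 * Real.pi * Complex.I) ^ k * q) →
  ∀ (τ : ℂ ≃+* ℂ) (w : Fin (2 * k) → Lb K), Occ A n K ρ α w →
  Occ A n K ρ α (fun r => tw K τ (w r))

/-- [ScA] the scalar action. PROOF (from `St_Zer`). Let `s_i = ∑_σ (trace (f_i * proj σ) / d_i) proj σ`,
`f⁰ = f - s`. By `St_Zer` and `lef` `f⁰` kills `α`; the action is additive in the operator
(`AlternatingMap.map_update_add`). `lift n s (prE t v) = (trace (f_i * proj σ) / d_i) • prE t v` for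
`t = ⟨i, σ⟩` (`proj_mul_proj`), `AlternatingMap.map_update_smul`. -/
def St_ScA : Prop := ∀ (I : Type) [Fintype I] [DecidableEq I] (A : I → AbVar) (n : I → ℕ)
  (K : I → Type) [∀ i, Field (K i)] [∀ i, NumberField (K i)] (c : ∀ i, K i →+* K i)
  (ρ : ∀ i, K i →+* Module.End ℂ (A i).H1) (d : I → ℕ) (k : ℕ) (α : Form A n (2 * k))
  (f : ∀ i, Module.End ℂ (A i).H1) (μ : ℂ), FamD A n K c ρ d k α → (∀ i, IsMTo (A i) (f i) μ) →
  ∀ (w : Fin (2 * k) → Lb K) (v v' : Fin (2 * k) → H1 A n),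
  (∀ r, v' r = prE A n K ρ (w r) (v r)) →
  ∑ r, α (Function.update v' r (lift n f (v' r))) =
    (∑ r, LinearMap.trace ℂ (A (w r).1).H1 (f (w r).1 * proj (ρ (w r).1) (w r).2) / d (w r).1) *
      α v'

/-- [Wei] the weights. PROOF. Combinatorics. `cj` is an involution (`hc`) which commutes with `tw`,
and preserves the first component; `T x = #{r | w r = x}`. (1) clear. (2) `tw τ` is a bijection with
inverse `tw τ.symm`, `w r = tw τ x ↔ tw τ.symm (w r) = x`. (3) With `D = ∏ d`, `D / d_i = ∏_(j ≠ i) d_j`: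
`∑_x z(x) t(x) = ∑_x (D / d_x) (T x - T (cj x)) t x = ∑_x (D / d_x) T x (t x - t (cj x))
= ∑_x (D / d_x) T x (2 t x - μ d_x) = 2 D ∑_r t (w r) / d_(w r) - D μ (2 k)`. -/
def St_Wei : Prop := ∀ (I : Type) [Fintype I] [DecidableEq I] (K : I → Type)
  [∀ i, Field (K i)] [∀ i, NumberField (K i)] (c : ∀ i, K i →+* K i) (d : I → ℕ) (k : ℕ)
  (w : Fin (2 * k) → Lb K), (∀ i, d i ≠ 0) → (∀ t, cj K c (cj K c t) = t) →
  (∀ t, zw c d w (cj K c t) = - zw c d w t) ∧
  (∀ (τ : ℂ ≃+* ℂ) t, zw c d w (tw K τ t) = zw c d (fun r => tw K τ.symm (w r)) t) ∧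
  ∀ (μ : ℂ) (t : Lb K → ℂ), (∀ x, t x + t (cj K c x) = μ * d x.1) →
    ∑ r, t (w r) / d (w r).1 = k * μ + (∑ x, (zw c d w x : ℂ) * t x) / (2 * ∏ i, (d i : ℂ))

/-- [MTN] the comparison operators. PROOF. `comm`: `Pool.Agent.Helper7.IsDRB.comm_N` for
`isDRB_of_isEnd` (`Pool/Agent/Helper7/Bridge2.lean`; make `h` a linear map); `pol`: as at the end of
`per_conj` in `Pool/Agent/Helper7/CP/AVLat.lean` (`isInv_N ... .pol`). For `hod`: `hod_comm_end`,
`psi_hod`. The last statement is `isInv_N ... .form` (`actForm_apply`), with `IsRatP` = `IsBetti`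
(`mem_pData_Q`; compare `hB_of` in `Pool/Agent/Helper7/HU/Setup.lean`). -/
def St_MTN : Prop := (∀ (A : AbVar) (δ : Derivation ℚ ℂ ℂ),
    IsMTo A ((pData A).N δ) (δ (2 * Real.pi * Complex.I) / (2 * Real.pi * Complex.I))) ∧
  (∀ A : AbVar, IsMTo A (hod A) 1) ∧
  ∀ (I : Type) [Fintype I] [DecidableEq I] (A : I → AbVar) (n : I → ℕ) (k : ℕ)
    (α : Form A n (2 * k)), IsGrothendieck A n k α → ∀ (δ : Derivation ℚ ℂ ℂ)
    (v : Fin (2 * k) → H1 A n),
    ∑ r, α (Function.update v r (lift n (fun i => (pData (A i)).N δ) (v r))) =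
      k * (δ (2 * Real.pi * Complex.I) / (2 * Real.pi * Complex.I)) * α v

/-- [FamR] the relations for an occurring tuple of labels. PROOF (from `St_PrT`, `St_ScA`, `St_Wei`,
`St_MTN`). `cj` is an involution (`cc` twice and injectivity of an embedding). Choose `v` with
`α v' ≠ 0`, `v' r = prE (w r) (v r)`. (1) `St_ScA` for `f = N δ` and `St_MTN` give
`∑_r trace (N δ * proj (w r)) / d = k μ`; `St_Wei` (3) for `t x = trace (N δ * proj)` (`St_PrT` (3); the `d` there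
is `d i` by the trace of `proj`) gives `(∑_x zw w x t x) / (2 ∏ d) = 0`. (2) is `St_Wei` (3) for
`t x = trace (hod * proj)`, `μ = 1`. -/
def St_FamR : Prop := ∀ (I : Type) [Fintype I] [DecidableEq I] (A : I → AbVar) (n : I → ℕ)
  (K : I → Type) [∀ i, Field (K i)] [∀ i, NumberField (K i)] (c : ∀ i, K i →+* K i)
  (ρ : ∀ i, K i →+* Module.End ℂ (A i).H1) (d : I → ℕ) (k : ℕ) (α : Form A n (2 * k)),
  FamD A n K c ρ d k α → (∀ t, cj K c (cj K c t) = t) ∧
  ∀ w : Fin (2 * k) → Lb K, Occ A n K ρ α w →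
  (∀ δ : Derivation ℚ ℂ ℂ, ∑ x : Lb K, (zw c d w x : ℂ) *
    LinearMap.trace ℂ (A x.1).H1 ((pData (A x.1)).N δ * proj (ρ x.1) x.2) = 0) ∧
  ∑ x : Lb K, (zw c d w x : ℂ) *
    LinearMap.trace ℂ (A x.1).H1 (hod (A x.1) * proj (ρ x.1) x.2) =
    2 * (∏ i, (d i : ℂ)) * ((∑ r, LinearMap.trace ℂ (A (w r).1).H1
      (hod (A (w r).1) * proj (ρ (w r).1) (w r).2) / d (w r).1) - k)

/-- [FamF] classes in `F^(k-1)`. PROOF (from `St_PrT`, `St_ScA`, `St_FamR`, `St_GalE`, `St_MTN`). Let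
`ν w = ∑_r trace (hod * proj (w r)) / d (w r)`. For every occurring `w` the integer `ν w` is `≥ k - 1`:
`Pool.Agent.Helper8.T1.count_of_weight` (`Pool/Agent/Helper8/T1/Gal.lean`) for `Φ = α ∘ (prE (w r))` and the
idempotent `D = lift n hod` (`D` commutes with `prE`; `St_ScA` gives the eigenvalue `ν w`) gives a set `T` with
`|T| = ν w` and `u` with `α (prE (w r) (u r)) ≠ 0`, `D (u r) = 0` for `r ∉ T`; then `prE (w r) (u r)` is in
`F^0` (`hod_fil`), so `2 k - |T| ≤ k + 1`. The conjugate `w' r = tw conj (w r)` (`conj` as `ℂ ≃+* ℂ`: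
`starRingAut`) occurs (`St_GalE`), `tw conj t = cj t` (`cc`) and `ν w' = 2 k - ν w` (`St_PrT` (3) with `μ = 1`).
So `ν w - k` is `-1`, `0` or `1`; use `St_FamR` (2). (Compare `Pool/Agent/Helper8/T1/Fam.lean`, `nu_ge`,
`nu_conj`, `hodge_T1`.) -/
def St_FamF : Prop := ∀ (I : Type) [Fintype I] [DecidableEq I] (A : I → AbVar) (n : I → ℕ)
  (K : I → Type) [∀ i, Field (K i)] [∀ i, NumberField (K i)] (c : ∀ i, K i →+* K i)
  (ρ : ∀ i, K i →+* Module.End ℂ (A i).H1) (d : I → ℕ) (k : ℕ) (α : Form A n (2 * k)),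
  FamD A n K c ρ d k α →
  (∀ v : Fin (2 * k) → H1 A n, (∃ s : Finset (Fin (2 * k)), k + 1 < s.card ∧
      ∀ r ∈ s, IsFil A n (v r)) → α v = 0) →
  ∀ w : Fin (2 * k) → Lb K, Occ A n K ρ α w →
  ∃ e : ℤ, (e = 0 ∨ e = 2 * ∏ i, (d i : ℤ) ∨ e = -(2 * ∏ i, (d i : ℤ))) ∧
    ∑ x : Lb K, (zw c d w x : ℂ) *
      LinearMap.trace ℂ (A x.1).H1 (hod (A x.1) * proj (ρ x.1) x.2) = e

/-- [FamH] the theorem for families. PROOF (from `St_PrT`, `St_TorI`, `St_GalE`, `St_ScA`, `St_Wei`,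
`St_MTN`, `St_FamR`, `St_FamF`). `d i` from `St_PrT`, `d i ≠ 0` because `(A i).g ≠ 0`. `c i = id` or
`CMF (K i) (c i)` (`cc`). Let `w` occur, `z = zw c d w`. `z` is odd (`St_Wei` (1)). By `St_Wei` (2)
`z (tw τ t) = zw c d (tw τ.symm ∘ w) t`, and `tw τ.symm ∘ w` occurs (`St_GalE`), so `St_FamR` (1) gives
the hypothesis of `St_TorI`, and `St_FamF` the second alternative, `N = 2 ∏ d`. Conclusion of `St_TorI` and
`St_FamR` (2): `∑_r trace (hod * proj (w r)) / d (w r) = k` for all occurring `w`. Since `∑_t prE t = 1`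
(`sum_proj`), `α v = ∑_w α (prE (w r) (v r))`, and by `St_ScA` (`f = hod`; `lift n hod` commutes with `prE`) the
action of `lift n hod` on `α` is multiplication by `k`. `Pool.Agent.Helper8.zero_of_type`
(`Pool/Agent/Helper8/D/HodgeStep.lean`) gives the second part of `IsHodge` (`hod_fil`), the first part is
the rationality of `α`. -/
def St_FamH : Prop := ∀ (I : Type) [Fintype I] [DecidableEq I] (A : I → AbVar) (n : I → ℕ)
  (K : I → Type) [∀ i, Field (K i)] [∀ i, NumberField (K i)] (c : ∀ i, K i →+* K i)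
  (ρ : ∀ i, K i →+* Module.End ℂ (A i).H1) (k : ℕ) (α : Form A n (2 * k)),
  (∀ i, CenR (A i) (K i) (c i) (ρ i)) → (∀ i, (A i).g ≠ 0) →
  (∀ f, (∀ i, (A i).IsLefDer (f i)) → ∀ v : Fin (2 * k) → H1 A n,
    ∑ r, α (Function.update v r (lift n f (v r))) = 0) →
  IsGrothendieck A n k α →
  ((∀ i, CMF (K i) (c i) → IsGalois ℚ (K i) ∧ ∀ g g' : K i ≃ₐ[ℚ] K i, g * g' = g' * g) ∨
    ∀ v : Fin (2 * k) → H1 A n, (∃ s : Finset (Fin (2 * k)), k + 1 < s.card ∧
      ∀ r ∈ s, IsFil A n (v r)) → α v = 0) →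
  IsHodge A n k α

/-- [Wpp] the theorem. PROOF (from `St_FamH`, `St_Lft`, `St_Cen`, `St_Ros`).
`Pool.Agent.Helper39.AF.exists_decomp X`; as in `Pool/Agent/Helper7/CP/Intr.lean` or
`Pool/Agent/Helper7/CM8/Main.lean`: every `A i` is a simple factor of `X`. Choose `K i`, `ρ i` with
`IsCentre` (from `HasAbelianCentre`, or from `St_Cen`), `St_Ros`. Apply `St_FamH` to
`α.compLinearMap Φ.symm` (`grothendieck_transfer`; filtration: `fil_symm`; the invariance: `St_Lft`, and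
`α (Φ⁻¹ ∘ update v r (lift n f (v r))) = α (update (Φ⁻¹ v) r ((Φ⁻¹ lift n f Φ) (Φ⁻¹ v r)))`). `IsHodge` for
`α ∘ Φ⁻¹` gives `IsInFil` for `α` as at the end of `CP/Intr.lean`. -/
def St_Wpp : Prop := ∀ (X : AbVar) (k : ℕ) (α : X.Class (2 * k)), X.IsGrothendieckClass k α →
  X.IsLefInvariant α → (X.IsInFilPred k α ∨ X.HasAbelianCentre) → X.IsInFil k α

/-! ## Weil classes -/

/-- [WeT] an operator acts on a form of top degree by its trace. PROOF. `W = range (proj ρ σ)` is the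
eigenspace, of dimension `2 k` (`St_PrT` (1): `d = 2 k` by `rank`), `f` maps it to itself. The
alternating form `α` on `W` is a multiple of the determinant of a basis, and
`∑_r det (..., f v_r, ...) = trace f * det (v)`. (For instance: both sides are alternating forms of top
degree in `v`, so it is enough to take `v` a basis of `W`; there `f v_r = ∑ f_(s r) v_s` and only `s = r`
contributes.) `trace (f * proj ρ σ)` is the trace of `f` on `W`. -/
def St_WeT : Prop := ∀ (X : AbVar) (K : Type) [Field K] [NumberField K] (c : K →+* K)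
  (ρ : K →+* Module.End ℂ X.H1) (k : ℕ) (α : X.Class (2 * k)) (σ : K →+* ℂ)
  (f : Module.End ℂ X.H1) (v v' : Fin (2 * k) → X.H1), IsKr X K c ρ → k * finrank ℚ K = X.g →
  (∀ x v, f (ρ x v) = ρ x (f v)) → (∀ r, v' r = proj ρ σ (v r)) →
  ∑ r, α (Function.update v' r (f (v' r))) = LinearMap.trace ℂ X.H1 (f * proj ρ σ) * α v'

/-- [WeG] all eigenspaces occur in a Weil class. PROOF (from `St_GalE`). By `lin`, `IsWeilFor` and
`rho_mul_proj` `α (fun r => proj ρ (σ r) (v r)) = 0` unless all the `σ r` are equal; since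
`∑_σ proj ρ σ = 1`, `α v = ∑_σ α (fun r => proj ρ σ (v r))` if `k ≠ 0`. If `α ≠ 0` some `σ₀` occurs, hence all `σ`:
`St_GalE` for `I = Unit`, `n = 1`, the form `α` on `H1 (fun _ => X) (fun _ => 1)` (transfer by
`Pool.Agent.Helper83.Ball.one X`, `isIsogeny_one`; `prE` is `proj` there), or directly the argument of
`Pool/Agent/Helper8/T1/Gal.lean`; `Pool.Agent.Helper84.exists_aut` gives `τ` with `τ ∘ σ₀ = σ`. -/
def St_WeG : Prop := ∀ (X : AbVar) (K : Type) [Field K] [NumberField K]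
  (ρ : K →+* Module.End ℂ X.H1) (k : ℕ) (α : X.Class (2 * k)), (∀ x, X.IsEnd (ρ x)) → k ≠ 0 →
  (∀ x v r s, α (Function.update v r (ρ x (v r))) = α (Function.update v s (ρ x (v s)))) →
  X.IsRational k α →
  (∀ v, α v = ∑ σ, α (fun r => proj ρ σ (v r))) ∧
  (α ≠ 0 → ∀ σ, ∃ v : Fin (2 * k) → X.H1, α (fun r => proj ρ σ (v r)) ≠ 0)

/-- [WeM] Weil classes. PROOF (from `St_PrT`, `St_TorI`, `St_WeG`, `St_WeT`, `St_MTN`). Let `ρ'` be `ρ` as a
ring homomorphism, `c` complex conjugation on `K` as in `St_TorA`; `IsKr`, `CMF`. `α = 0` and `k = 0` are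
trivial (`s = ∅`). `St_PrT`: `d = 2 k`. By `St_WeT` for `N δ` and `St_MTN` (family with one member, transfer as
in `St_WeG`): `trace (N δ * proj σ) = k δϖ/ϖ` for all `σ`. For the integral odd function
`z = [σ₀] - [σ₀ ∘ c]` and all `τ`: `∑_σ z(τ σ) trace (N δ * proj σ) = 0`. `IsAbelianGalois`: the first alternative
of `St_TorI` (`I = Unit`). `IsInFilPred`: put `m σ = trace (hod * proj σ)`; `m σ + m (σ ∘ c) = 2 k`
(`St_PrT` (3)); `count_of_weight` for `α ∘ proj σ` and `hod` (eigenvalue `m σ` by `St_WeT`): `m σ` is an integer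
`≥ k - 1`, for all `σ`, so `m σ - m (σ ∘ c)` is `-2, 0` or `2`: second alternative, `N = 2`. Conclusion:
`m σ₀ = m (σ₀ ∘ c) = k` for all `σ₀`, so (`St_WeT`, `St_WeG`) the action of `hod` on `α` is multiplication by `k`,
`Pool.Agent.Helper8.zero_of_type`. -/
def St_WeM : Prop := ∀ (X : AbVar) (K : Type) [Field K] [NumberField K]
  [NumberField.IsCMField K] (ρ : K → X.H1 → X.H1) (k : ℕ) (α : X.Class (2 * k)),
  X.IsCMAction K ρ → X.IsWeilFor K ρ k α → X.IsGrothendieckClass k α →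
  (X.IsInFilPred k α ∨ IsAbelianGalois ℚ K) → X.IsInFil k α

end WPP
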