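import Pool.Agent.WPP.StA
import Pool.Agent.WPP.TypesZ

/-!
# WPP: frozen statements for an arbitrary Rosati stable commutative algebra of endomorphisms

Architect helper99. Conventions as in `Pool/Agent/WPP/StA.lean`. The family is now
`∏ A_i` (`n i = 1`), `A_i = e_i X` for the primitive idempotents `e_i` of `Z = ∏ K_i`.
-/

set_option autoImplicit false
set_option linter.unusedVariables false

namespace WPP

open scoped ComplexConjugate
open GAM (CMF CMT IsExp)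
open Pool.Agent.GPC
open Pool.Agent.Helper7 (pData proj lift hod)
open Module

section defs

/-- The number field `K` acts on `A` with the Rosati involution `c`, which is complex conjugation in
all embeddings. -/
structure CenK (A : AbVar) (K : Type) [Field K] [NumberField K] (c : K →+* K)
    (ρ : K →+* Module.End ℂ A.H1) : Prop where
  kr : IsKr A K c ρ
  cc : ∀ (σ : K →+* ℂ) x, conj (σ x) = σ (c x)

/-- The derived algebra for `K`. -/
structure LefK (A : AbVar) (K : Type) [Field K] [NumberField K]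
    (ρ : K →+* Module.End ℂ A.H1) (f : Module.End ℂ A.H1) : Prop where
  comm : ∀ h : A.H1 → A.H1, A.IsEnd h → (∀ x v, h (ρ x v) = ρ x (h v)) → ∀ v, f (h v) = h (f v)
  skew : ∀ u v, A.pol (f u) v + A.pol u (f v) = 0
  trace : ∀ x, LinearMap.trace ℂ A.H1 (f * ρ x) = 0

variable {I : Type} [Fintype I] [DecidableEq I]

/-- The data for a family. -/
structure FamK (A : I → AbVar) (n : I → ℕ) (K : I → Type) [∀ i, Field (K i)]
    [∀ i, NumberField (K i)] (c : ∀ i, K i →+* K i) (ρ : ∀ i, K i →+* Module.End ℂ (A i).H1)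
    (d : I → ℕ) (k : ℕ) (α : Form A n (2 * k)) : Prop where
  cen : ∀ i, CenK (A i) (K i) (c i) (ρ i)
  pos : ∀ i, d i ≠ 0
  tr : ∀ i σ, LinearMap.trace ℂ (A i).H1 (proj (ρ i) σ) = d i
  lef : ∀ f, (∀ i, LefK (A i) (K i) (ρ i) (f i)) → ∀ v : Fin (2 * k) → H1 A n,
    ∑ r, α (Function.update v r (lift n f (v r))) = 0
  gr : IsGrothendieck A n k α

/-- The Hodge types of `α` are `(k, k)`, `(k ± j, k ∓ j)`. -/
def TypF (A : I → AbVar) (n : I → ℕ) (k j : ℕ) (α : Form A n (2 * k)) : Prop :=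
  ∀ (v : Fin (2 * k) → H1 A n) (s : Finset (Fin (2 * k))), (∀ r ∈ s, IsFil A n (v r)) →
    (∀ r, r ∉ s → ∀ i m, ∃ v', (A i).IsConj (v r i m) v' ∧ (A i).IsFil v') →
    s.card ≠ k → s.card ≠ k + j → s.card + j ≠ k → α v = 0

/-- The decomposition `X ~ ∏ A_i` for `Z = ∏ K_i`. -/
structure ZDec (X : AbVar) (Z : Subalgebra ℚ (Module.End ℂ X.H1)) (A : I → AbVar) (K : I → Type)
    [∀ i, Field (K i)] [∀ i, NumberField (K i)] (c : ∀ i, K i →+* K i)
    (ρ : ∀ i, K i →+* Module.End ℂ (A i).H1) (φ : ∀ i, Z →ₐ[ℚ] K i)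
    (ι : ∀ i, (A i).H1 →ₗ[ℂ] X.H1) (π : ∀ i, X.H1 →ₗ[ℂ] (A i).H1) : Prop where
  surj : ∀ i, Function.Surjective (φ i)
  morι : ∀ i, (A i).IsMor X (ι i)
  morπ : ∀ i, X.IsMor (A i) (π i)
  πι : ∀ i y, π i (ι i y) = y
  sum : ∀ x, ∑ i, ι i (π i x) = x
  orth : ∀ i j, i ≠ j → ∀ y, π i (ι j y) = 0
  pol : ∀ i u v, X.pol (ι i u) (ι i v) = (A i).pol u v
  polo : ∀ i j, i ≠ j → ∀ u v, X.pol (ι i u) (ι j v) = 0
  act : ∀ i (z : Z) v, π i ((z : Module.End ℂ X.H1) v) = ρ i (φ i z) (π i v)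
  idem : ∀ i, ∃ z : Z, ∀ v, (z : Module.End ℂ X.H1) v = ι i (π i v)
  pos : ∀ i, (A i).g ≠ 0
  cen : ∀ i, CenK (A i) (K i) (c i) (ρ i)

end defs

/-! ## The algebra `Z` -/

/-- [ConH] the image of the Hodge projector. PROOF. Write `v = a + I b` with `a, b` in the real span
`VR A` (`Pool/Agent/Helper71/AF/Alg.lean`) of the Betti vectors; `cB (pData A) v = a - I b` (the
complex conjugation, it fixes the Betti vectors); `fil_cB_hod` in `Pool/Agent/Helper20/Hodge.lean`: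
`cB (hod v)` is in `F^0`. -/
def St_ConH : Prop := ∀ (A : AbVar) (v : A.H1), hod A v = v → ∃ v', A.IsConj v v' ∧ A.IsFil v'

/-- [IdZ] the algebra `Z`. PROOF. Positivity (`hf_pos`, `hf_adj` in `Pool/Agent/Helper71/AF`, as in
`Pool/Agent/Helper39/AF/Idem.lean`; or `Hf_pos`, `Hf_adj` in `Helper20/Hodge.lean`): if `g` is the
adjoint of `f`, both endomorphisms, and `g (f v) = 0` for all `v`, then `f = 0`. The adjoint `s z` of `z`
is unique (`pol` is nondegenerate), so `s` is additive, `ℚ`-linear, `s (z w) = s w * s z = s z * s w`,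
`s 1 = 1`; `s (s z) = z` because `pol` is alternating. (1) Reduced: `z * z = 0`, `w = s z * z` is symmetric
with `w * w = 0`, so `w = 0`, so `z = 0`. (2) `e` idempotent, `g = s e`, `n = (1 - g) * e`: `s n * n =
g (1 - e) (1 - g) e = 0`, so `e = g e`; in the same way `g = e g`; so `e = g`. (3) `Z` acts faithfully on
the finite dimensional `ℚ`-space of the Betti vectors (`(pData X).Q`, which spans `H_1` over `ℂ`). -/
def St_IdZ : Prop := ∀ (X : AbVar) (Z : Subalgebra ℚ (Module.End ℂ X.H1)), X.IsRosatiAlg Z →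
  (∀ z ∈ Z, z * z = 0 → z = 0) ∧ (∀ e ∈ Z, e * e = e → X.IsAdjoint e e) ∧
  FiniteDimensional ℚ Z ∧ ∃ s : Z →ₐ[ℚ] Z, ∀ z : Z,
    X.IsAdjoint (z : Module.End ℂ X.H1) (s z : Module.End ℂ X.H1)

/-- [AlgZ] the decomposition. PROOF (from `St_IdZ`). `Z` is a commutative reduced artinian ring:
`IsArtinianRing.equivPi Z : Z ≃+* ∀ i : MaximalSpectrum Z, Z ⧸ i.asIdeal`. Take `I = MaximalSpectrum Z`,
`K i = Z ⧸ i.asIdeal` (a number field), `φ i` the quotient map. Let `ε i x` be the element of `Z` which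
corresponds to `Pi.single i x`; `e i = ε i 1` is a symmetric idempotent (`St_IdZ`), `e i * e j = 0` for
`i ≠ j`, `∑ e i = 1`. `Pool.Agent.Helper39.AF.sub_abVar` (`Helper39/AF/SubMap.lean`) for `e i` gives `A i`, `ι i`,
`π i`. `ρ i x = π i ∘ ε i x ∘ ι i`. `act`: `z * e i = ε i (φ i z)`. `s` fixes `e i`, so it maps the ideal
`Z e i` to itself: `c i x = φ i (s (ε i x))`, `s (ε i x) = ε i (c i x)`. `pos`: `e i ≠ 0`. `adj`: by `pol`.
`polo`: `pol (e i u) (e j v) = pol u (e i (e j v)) = 0`. `cc`: for an embedding `σ` there is `v ≠ 0` with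
`ρ x v = σ x • v` for all `x` (`Pool.Agent.Helper71.AF.exists_eig`); `Pool.Agent.Helper71.AF.eig_conj` for
`f = ρ x`, `f' = ρ (c x)` (compare `Pool/Agent/WPP/Ros.lean`). -/
def St_AlgZ : Prop := ∀ (X : AbVar) (Z : Subalgebra ℚ (Module.End ℂ X.H1)), X.IsRosatiAlg Z →
  ∃ (I : Type) (_ : Fintype I) (A : I → AbVar) (K : I → Type) (_ : ∀ i, Field (K i))
    (_ : ∀ i, NumberField (K i)) (c : ∀ i, K i →+* K i)
    (ρ : ∀ i, K i →+* Module.End ℂ (A i).H1) (φ : ∀ i, Z →ₐ[ℚ] K i)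
    (ι : ∀ i, (A i).H1 →ₗ[ℂ] X.H1) (π : ∀ i, X.H1 →ₗ[ℂ] (A i).H1),
    ZDec X Z A K c ρ φ ι π

/-- [LftZ] lifting. PROOF. Let `F = ∑ ι i ∘ f i ∘ π i`. comm: an endomorphism `h` of `X` which commutes
with `Z` commutes with `ι i ∘ π i` (`idem`), so `π i ∘ h = h i ∘ π i` and `h ∘ ι i = ι i ∘ h i` for the
endomorphism `h i = π i ∘ h ∘ ι i` of `A i` (`isMor_comp`, `isEnd_iff` in `Helper39/AF/Mor.lean`), which
commutes with `ρ i (φ i z)` (`act`), so with all `ρ i x` (`surj`); `f i` commutes with `h i`. skew: `sum`,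
`pol`, `polo` (expand both arguments by `sum`). trace: `trace (ι f π z) = trace (f π z ι)`
(`LinearMap.trace_comp_comm'`), `π i ∘ z ∘ ι i = ρ i (φ i z)` (`act`, `πι`). -/
def St_LftZ : Prop := ∀ (X : AbVar) (Z : Subalgebra ℚ (Module.End ℂ X.H1)) (I : Type) [Fintype I]
  (A : I → AbVar) (K : I → Type) [∀ i, Field (K i)] [∀ i, NumberField (K i)]
  (c : ∀ i, K i →+* K i) (ρ : ∀ i, K i →+* Module.End ℂ (A i).H1) (φ : ∀ i, Z →ₐ[ℚ] K i)
  (ι : ∀ i, (A i).H1 →ₗ[ℂ] X.H1) (π : ∀ i, X.H1 →ₗ[ℂ] (A i).H1),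
  ZDec X Z A K c ρ φ ι π → ∀ f : ∀ i, Module.End ℂ (A i).H1,
  (∀ i, LefK (A i) (K i) (ρ i) (f i)) → X.IsDerFor Z (∑ i, ι i ∘ₗ f i ∘ₗ π i)

/-! ## Families (adapted from `St_Zer`, `St_ScA`, `St_FamR`, `St_FamF`, `St_FamH`) -/

/-- [ZerK] as `St_Zer`. -/
def St_ZerK : Prop := ∀ (A : AbVar) (K : Type) [Field K] [NumberField K] (c : K →+* K)
  (ρ : K →+* Module.End ℂ A.H1) (d : ℕ) (f : Module.End ℂ A.H1) (μ : ℂ), CenK A K c ρ →
  d ≠ 0 → (∀ σ, LinearMap.trace ℂ A.H1 (proj ρ σ) = d) → IsMTo A f μ →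
  LefK A K ρ (f - ∑ σ, (LinearMap.trace ℂ A.H1 (f * proj ρ σ) / d) • proj ρ σ)

/-- [ScAK] as `St_ScA`. -/
def St_ScAK : Prop := ∀ (I : Type) [Fintype I] [DecidableEq I] (A : I → AbVar) (n : I → ℕ)
  (K : I → Type) [∀ i, Field (K i)] [∀ i, NumberField (K i)] (c : ∀ i, K i →+* K i)
  (ρ : ∀ i, K i →+* Module.End ℂ (A i).H1) (d : I → ℕ) (k : ℕ) (α : Form A n (2 * k))
  (f : ∀ i, Module.End ℂ (A i).H1) (μ : ℂ), FamK A n K c ρ d k α → (∀ i, IsMTo (A i) (f i) μ) →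
  ∀ (w : Fin (2 * k) → Lb K) (v v' : Fin (2 * k) → H1 A n),
  (∀ r, v' r = prE A n K ρ (w r) (v r)) →
  ∑ r, α (Function.update v' r (lift n f (v' r))) =
    (∑ r, LinearMap.trace ℂ (A (w r).1).H1 (f (w r).1 * proj (ρ (w r).1) (w r).2) / d (w r).1) *
      α v'

/-- [FamRK] as `St_FamR`. -/
def St_FamRK : Prop := ∀ (I : Type) [Fintype I] [DecidableEq I] (A : I → AbVar) (n : I → ℕ)
  (K : I → Type) [∀ i, Field (K i)] [∀ i, NumberField (K i)] (c : ∀ i, K i →+* K i)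
  (ρ : ∀ i, K i →+* Module.End ℂ (A i).H1) (d : I → ℕ) (k : ℕ) (α : Form A n (2 * k)),
  FamK A n K c ρ d k α → (∀ t, cj K c (cj K c t) = t) ∧
  ∀ w : Fin (2 * k) → Lb K, Occ A n K ρ α w →
  (∀ δ : Derivation ℚ ℂ ℂ, ∑ x : Lb K, (zw c d w x : ℂ) *
    LinearMap.trace ℂ (A x.1).H1 ((pData (A x.1)).N δ * proj (ρ x.1) x.2) = 0) ∧
  ∑ x : Lb K, (zw c d w x : ℂ) *
    LinearMap.trace ℂ (A x.1).H1 (hod (A x.1) * proj (ρ x.1) x.2) =
    2 * (∏ i, (d i : ℂ)) * ((∑ r, LinearMap.trace ℂ (A (w r).1).H1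
      (hod (A (w r).1) * proj (ρ (w r).1) (w r).2) / d (w r).1) - k)

/-- [FamFK] classes with three Hodge types. PROOF. As `St_FamF`; now `count_of_weight` gives `u` with
`D (u r) = u r` for `r` in `T` too, so `v r = prE (w r) (u r)` satisfies `hod (v r) = v r`, by `St_ConH` it
is in the complex conjugate of `F^0`; with `s` the complement of `T`, `card s = 2 k - ν w`, `TypF` gives
`ν w = k`, `k - j` or `k + j`. -/
def St_FamFK : Prop := ∀ (I : Type) [Fintype I] [DecidableEq I] (A : I → AbVar) (n : I → ℕ)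
  (K : I → Type) [∀ i, Field (K i)] [∀ i, NumberField (K i)] (c : ∀ i, K i →+* K i)
  (ρ : ∀ i, K i →+* Module.End ℂ (A i).H1) (d : I → ℕ) (k j : ℕ) (α : Form A n (2 * k)),
  FamK A n K c ρ d k α → TypF A n k j α →
  ∀ w : Fin (2 * k) → Lb K, Occ A n K ρ α w →
  ∃ e : ℤ, (e = 0 ∨ e = 2 * (∏ i, (d i : ℤ)) * j ∨ e = -(2 * (∏ i, (d i : ℤ)) * j)) ∧
    ∑ x : Lb K, (zw c d w x : ℂ) *
      LinearMap.trace ℂ (A x.1).H1 (hod (A x.1) * proj (ρ x.1) x.2) = e

/-- [FamHK] the theorem for families, as `St_FamH`. -/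
def St_FamHK : Prop := ∀ (I : Type) [Fintype I] [DecidableEq I] (A : I → AbVar) (n : I → ℕ)
  (K : I → Type) [∀ i, Field (K i)] [∀ i, NumberField (K i)] (c : ∀ i, K i →+* K i)
  (ρ : ∀ i, K i →+* Module.End ℂ (A i).H1) (k : ℕ) (α : Form A n (2 * k)),
  (∀ i, CenK (A i) (K i) (c i) (ρ i)) → (∀ i, (A i).g ≠ 0) →
  (∀ f, (∀ i, LefK (A i) (K i) (ρ i) (f i)) → ∀ v : Fin (2 * k) → H1 A n,
    ∑ r, α (Function.update v r (lift n f (v r))) = 0) →
  IsGrothendieck A n k α →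
  ((∀ i, CMF (K i) (c i) → IsGalois ℚ (K i) ∧ ∀ g g' : K i ≃ₐ[ℚ] K i, g * g' = g' * g) ∨
    ∃ j, TypF A n k j α) →
  IsHodge A n k α

/-! ## The theorem -/

/-- [TypZ] classes in `F^(k-1)`. PROOF. `card s > k + 1`: `IsInFilPred`. `card s < k - 1`: let `v' r` be the
conjugate of `v r` (it is in `F^0` for `r` not in `s`). `α v' = ± conj (α v)`: for real `a_r, b_r` expand
`α (a_r + I b_r)` and `α (a_r - I b_r)` multilinearly; on real vectors `α` has values in `(2πi)^k ℝ`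
(span of the Betti vectors). For instance: by induction, the form `β v = conj (α (cB v))` with the
conjugation `cB (pData X)` is `ℂ`-multilinear and agrees with `(-1)^k α` on the Betti vectors, which span.
For `v'` more than `k + 1` arguments are in `F^0`. -/
def St_TypZ : Prop := ∀ (X : AbVar) (k : ℕ) (α : X.Class (2 * k)), X.IsRational k α →
  X.IsInFilPred k α → X.HasTypes k 1 α

/-- [Wzz] the theorem. PROOF (from `St_AlgZ`, `St_LftZ`, `St_FamHK`). `ZDec`, `n = 1`,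
`Φ v = fun i _ => π i v`, `Φ⁻¹ y = ∑ ι i (y i 0)`; `IsIsogeny X A (fun _ => 1) Φ` by `morι`, `morπ`
(`isMor_comp`; compare `Helper39/AF/Decomp.lean`). `St_FamHK` for `α.compLinearMap Φ.symm`
(`grothendieck_transfer`, `Helper8/T1/Transfer.lean`: `inFil_of_hodge`). The invariance: `St_LftZ`, as in
`Pool/Agent/WPP/Wpp.lean`. `TypF`: if `v i 0` are conjugate to `v' i 0` then `Φ⁻¹ v` is conjugate to
`Φ⁻¹ v'` (`ι i` maps Betti vectors to Betti vectors, so real vectors to real vectors), `fil_symm`.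
Abelian: if `CMF (K i) (c i)` then `K i` is not totally real (`cc`: `c i ≠ id`, if all `σ x` are real then
`σ (c x) = σ x`), so `HasAbelianFactors` for `φ i` gives `IsAbelianGalois`. -/
def St_Wzz : Prop := ∀ (X : AbVar) (Z : Subalgebra ℚ (Module.End ℂ X.H1)) (k : ℕ)
  (α : X.Class (2 * k)), X.IsRosatiAlg Z → X.IsGrothendieckClass k α → X.IsInvFor Z α →
  ((∃ j, X.HasTypes k j α) ∨ X.HasAbelianFactors Z) → X.IsInFil k α

/-- [WeZ] Weil classes. PROOF (from `St_Wzz`, `St_PrT`, `St_WeG`, `St_WeT`). `ρ' : K →ₐ[ℚ] Module.End ℂ X.H1`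
from `ρ` (as in `Pool/Agent/WPP/WeM.lean`), `Z` its range. `IsRosatiAlg`: clear. `HasAbelianFactors`: `K` is
simple, so a quotient of `Z` is isomorphic to `K`. `IsInvFor`: for `f` with `IsDerFor Z`, `f` commutes with
`ρ' x` (an endomorphism commuting with `Z`), so with `proj ρ' σ`; `α v = ∑_σ α (proj σ v_r)` (`St_WeG`), and
by `St_WeT` `f` acts on `α ∘ proj σ` by `trace (f * proj ρ' σ) = ∑_b σ(dbas b) trace (f * ρ' (bas b)) = 0`.
(`k = 0`: the sum is empty.) -/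
def St_WeZ : Prop := ∀ (X : AbVar) (K : Type) [Field K] [NumberField K]
  [NumberField.IsCMField K] (ρ : K → X.H1 → X.H1) (k : ℕ) (α : X.Class (2 * k)),
  X.IsCMAction K ρ → X.IsWeilFor K ρ k α → X.IsGrothendieckClass k α →
  ((∃ j, X.HasTypes k j α) ∨ IsAbelianGalois ℚ K) → X.IsInFil k α

end WPP
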